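import Pool.Agent.helper31.IC.EngD
import Pool.Agent.helper14.QF.Inst

/-!
Generated: straight line program(s) and compiled form(s).
-/

namespace Pool.Agent.helper71.FF.Crt.C

open Pool.Agent.helper31.IA (Z Op)
open Pool.Agent.helper31.IC

set_option maxRecDepth 100000

abbrev opsE : Ops := Pool.Agent.helper14.QF.opsF

def prog0 : List Op := [
  .const ⟨1099511627776, 0, 0, 0⟩,
  .const ⟨549755813888, 0, 0, 0⟩,
  .mul 3 3,
  .sub 2 0,
  .inv 0,
  .mul 6 0,
  .scale ⟨2199023255552, 0, 0, 0⟩ 0,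
  .scale ⟨2199023255552, 0, 0, 0⟩ 2,
  .sub 0 7,
  .add 0 2,
  .scale ⟨10774999203840, 0, 0, 0⟩ 11,
  .scale ⟨45768245248, 0, 0, 0⟩ 0,
  .const ⟨183207198720, 0, 0, 0⟩,
  .add 1 0,
  .mul 3 0,
  .add 13 0,
  .mul 5 0,
  .add 16 0,
  .mul 7 0,
  .scale ⟨549755813888, 0, 0, 0⟩ 0,
  .add 19 0,
  .mul 3 0,
  .mul 11 0,
  .add 22 0,
  .inv 0,
  .mul 27 0,
  .sub 25 0,
  .add 26 0,
  .sub 27 31,
  .mul 3 0,
  .sub 29 0,
  .mul 0 0,
  .inv 5,
  .mul 26 0,
  .mul 0 3,
  .inv 4,
  .mul 9 0,
  .mul 0 33,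
  .mul 4 6,
  .mul 32 12,
  .scale ⟨2199023255552, 0, 0, 0⟩ 31,
  .add 1 0,
  .add 0 8,
  .mul 4 0,
  .add 0 43,
  .mul 38 38,
  .scale ⟨2199023255552, 0, 0, 0⟩ 0,
  .add 0 46,
  .mul 39 5,
  .sub 0 48,
  .log 5,
  .scale ⟨549755813888, 0, 0, 0⟩ 0,
  .exp 0,
  .scale ⟨549755813888, 0, 0, 0⟩ 53,
  .mul 0 3,
  .neg 0,
  .exp 0,
  .mul 48 18,
  .mul 0 8,
  .scale ⟨4398046511104, 0, 0, 0⟩ 0,
  .add 0 59,
  .log 0,
  .sub 0 11,
  .mul 9 0,
  .neg 0,
  .exp 0,
  .mul 39 59,
  .add 58 0,
  .inv 0,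
  .mul 41 0,
  .mul 44 36,
  .mul 0 1,
  .mul 35 35,
  .sub 72 41,
  .mul 1 0,
  .mul 40 40,
  .add 67 37,
  .inv 0,
  .mul 0 78,
  .mul 0 0,
  .mul 4 6,
  .sub 80 8,
  .mul 1 0,
  .mul 3 0,
  .inv 84,
  .const ⟨45812285440, 0, 0, 0⟩,
  .scale ⟨1527119872, 0, 0, 0⟩ 2,
  .sub 1 0,
  .mul 4 0,
  .sub 87 0,
  .mul 6 0,
  .sub 90 0,
  .add 35 91,
  .mul 36 36,
  .add 0 93,
  .mul 38 3,
  .scale ⟨2199023255552, 0, 0, 0⟩ 0,
  .add 2 0,
  .inv 5,
  .mul 1 0,
  .add 0 7,
  .mul 44 29,
  .scale ⟨549755813888, 0, 0, 0⟩ 0,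
  .mul 0 2,
  .sub 6 0,
  .pos 7,
  .pos 0,
  .inv 0,
  .sub 105 49,
  .mul 0 14,
  .mul 0 2,
  .scale ⟨549755813888, 0, 0, 0⟩ 0,
  .add 0 108,
  .inv 0,
  .mul 2 0,
  .mul 10 3,
  .add 0 112,
  .mul 0 14,
  .inv 18,
  .mul 1 0,
  .mul 46 5,
  .scale ⟨549755813888, 0, 0, 0⟩ 0,
  .sub 119 0,
  .sub 120 2,
  .inv 0,
  .mul 2 0,
  .add 5 123,
  .mul 68 0,
  .mul 100 98,
  .add 118 93,
  .mul 101 119,
  .mul 0 122,
  .scale ⟨2199023255552, 0, 0, 0⟩ 0,
  .add 83 0,
  .mul 4 0,
  .inv 0,
  .mul 7 0,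
  .mul 101 0,
  .inv 91,
  .mul 53 0,
  .scale ⟨1527119872, 0, 0, 0⟩ 0,
  .sub 53 0,
  .mul 2 0,
  .sub 139 0,
  .mul 4 0,
  .sub 142 0,
  .add 78 143,
  .mul 79 79,
  .add 0 145,
  .mul 81 3,
  .scale ⟨2199023255552, 0, 0, 0⟩ 0,
  .add 2 0,
  .inv 5,
  .mul 1 0,
  .add 0 7,
  .mul 87 17,
  .scale ⟨549755813888, 0, 0, 0⟩ 0,
  .mul 0 2,
  .sub 6 0,
  .pos 7,
  .pos 0,
  .sub 156 91,
  .mul 0 13,
  .inv 2,
  .mul 1 0,
  .scale ⟨549755813888, 0, 0, 0⟩ 0,
  .add 0 160,
  .inv 0,
  .mul 2 0,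
  .mul 29 0,
  .add 167 165,
  .inv 0,
  .mul 169 0,
  .scale ⟨2199023255552, 0, 0, 0⟩ 0,
  .sub 169 0,
  .sub 170 172,
  .mul 134 4,
  .mul 0 2,
  .add 146 0,
  .mul 175 168,
  .scale ⟨274877906944, 0, 0, 0⟩ 176,
  .const ⟨2199023255552, 0, 0, 0⟩,
  .add 1 0,
  .mul 0 0,
  .mul 4 4,
  .const ⟨7696581394432, 0, 0, 0⟩,
  .const ⟨10995116277760, 0, 0, 0⟩,
  .inv 0,
  .mul 2 0,
  .mul 4 0,
  .add 6 0,
  .mul 7 8,
  .inv 1,
  .mul 1 0,
  .inv 2,
  .mul 4 0,
  .scale ⟨224412041216, 0, 0, 0⟩ 187,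
  .inv 171,
  .mul 1 0,
  .mul 5 167,
  .mul 0 1,
  .mul 162 0,
  .sub 197 0,
  .inv 0,
  .mul 74 2,
  .sub 200 0,
  .inv 0,
  .mul 177 90,
  .mul 0 171,
  .scale ⟨549755813888, 0, 0, 0⟩ 0,
  .sub 205 0,
  .sub 206 2,
  .inv 0,
  .mul 2 0,
  .mul 97 0,
  .mul 0 175,
  .mul 7 2,
  .pos 5,
  .mul 0 128,
  .scale ⟨1374389534720, 0, 0, 0⟩ 0,
  .sub 213 0,
  .pos 0,
  .scale ⟨3092376453120, 0, 0, 0⟩ 2,
  .add 0 39,
  .mul 4 0,
  .add 218 0,
  .scale ⟨1546188226560, 0, 0, 0⟩ 6,
  .add 0 220,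
  .mul 8 0,
  .add 222 0,
  .mul 225 187,
  .sub 224 150,
  .mul 227 199,
  .scale ⟨2199023255552, 0, 0, 0⟩ 0,
  .sub 2 0,
  .mul 4 4,
  .add 1 0,
  .add 0 230,
  .scale ⟨549755813888, 0, 0, 0⟩ 0,
  .scale ⟨549755813888, 0, 0, 0⟩ 194,
  .sub 229 0,
  .mul 159 9,
  .mul 0 232,
  .scale ⟨137438953472, 0, 0, 0⟩ 0,
  .add 3 0,
  .mul 6 0,
  .mul 121 116,
  .add 115 240,
  .mul 0 42,
  .mul 117 40,
  .add 1 0,
  .mul 47 0,
  .add 5 0,
  .mul 0 162,
  .mul 6 50,
  .mul 0 49,
  .add 9 0,
  .mul 0 166,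
  .scale ⟨223338299392, 0, 0, 0⟩ 0,
  .add 251 0,
  .mul 2 0,
  .add 254 0,
  .scale ⟨893353197568, 0, 0, 0⟩ 8,
  .add 256 0,
  .mul 10 0,
  .add 258 0,
  .mul 90 87,
  .mul 0 41,
  .mul 0 2,
  .mul 23 7,
  .add 211 262,
  .mul 2 0,
  .add 2 0,
  .add 214 266,
  .mul 5 0,
  .mul 45 1,
  .mul 0 97,
  .mul 0 99,
  .mul 237 97,
  .inv 220,
  .mul 1 0,
  .scale ⟨549755813888, 0, 0, 0⟩ 0,
  .mul 206 240,
  .mul 0 164,
  .mul 0 154,
  .mul 253 3,
  .mul 13 1,
  .mul 9 69,
  .add 1 0,
  .mul 0 198,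
  .add 4 0,
  .mul 18 43,
  .mul 0 86,
  .mul 18 161,
  .mul 0 85,
  .add 2 0,
  .mul 0 205,
  .mul 265 6,
  .mul 95 1,
  .add 1 0,
  .mul 218 0,
  .mul 0 21,
  .sub 295 0,
  .inv 0,
  .mul 4 0,
  .mul 265 0,
  .mul 224 1,
  .mul 0 27,
  .sub 301 0,
  .mul 253 0,
  .sub 0 4,
  .inv 0,
  .mul 6 0,
  .sub 254 6,
  .inv 0,
  .mul 2 144,
  .mul 310 1,
  .mul 146 5,
  .inv 273,
  .mul 1 0,
  .scale ⟨549755813888, 0, 0, 0⟩ 4,
  .sub 314 0,
  .sub 315 6,
  .inv 0,
  .mul 2 0,
  .mul 5 0,
  .add 9 0,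
  .mul 0 20,
  .scale ⟨223338299392, 0, 0, 0⟩ 0,
  .add 321 0,
  .mul 2 0,
  .add 324 0,
  .mul 5 0,
  .mul 0 29,
  .mul 0 243,
  .mul 0 298,
  .mul 0 40,
  .mul 2 139,
  .mul 0 301,
  .inv 305,
  .mul 1 0,
  .mul 335 309,
  .mul 0 60,
  .add 0 56,
  .add 0 56,
  .mul 4 0,
  .mul 150 305,
  .mul 0 313,
  .mul 0 316,
  .const ⟨9895604649984, 0, 0, 0⟩,
  .const ⟨21990232555520, 0, 0, 0⟩,
  .inv 0,
  .mul 2 0,
  .add 181 346,
  .mul 182 0,
  .add 285 0,
  .mul 43 0,
  .mul 285 3,
  .scale ⟨687194767360, 0, 0, 0⟩ 1,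
  .add 352 0,
  .mul 3 0,
  .add 354 0,
  .mul 4 0,
  .add 350 323,
  .mul 191 0,
  .mul 0 12,
  .add 359 0,
  .inv 0,
  .mul 5 0,
  .mul 0 353,
  .mul 329 65,
  .mul 0 31,
  .add 365 0,
  .mul 3 0,
  .mul 0 59,
  .mul 335 38,
  .mul 0 172,
  .mul 337 28,
  .mul 32 0,
  .add 2 0,
  .add 4 34,
  .add 374 1,
  .mul 7 0,
  .add 2 0,
  .sub 377 0,
  .scale ⟨1073741824, 0, 0, 0⟩ 345,
  .sub 1 0,
  .sub 371 380,
  .add 0 204,
  .scale ⟨2199023255552, 0, 0, 0⟩ 36,
  .sub 1 0,
  .mul 218 0,
  .mul 4 2,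
  .add 0 386,
  .inv 0,
  .mul 3 0,
  .mul 200 99,
  .scale ⟨549755813888, 0, 0, 0⟩ 196,
  .add 385 0,
  .mul 2 0,
  .scale ⟨2199023255552, 0, 0, 0⟩ 0,
  .add 110 0,
  .scale ⟨2199023255552, 0, 0, 0⟩ 0,
  .mul 0 99,
  .sub 370 33,
  .inv 0,
  .mul 2 0,
  .sub 11 0,
  .pos 203,
  .pos 200,
  .scale ⟨2199023255552, 0, 0, 0⟩ 107,
  .sub 350 0,
  .pos 0,
  .pos 99,
  .pos 282,
  .sub 402 238,
  .pos 0,
  .scale ⟨687194767360, 0, 0, 0⟩ 404,
  .sub 0 154,
  .pos 0,
  .scale ⟨377957122048, 0, 0, 0⟩ 406,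
  .sub 0 160,
  .pos 0,
  .pos 10,
  .sub 407 58,
  .pos 0,
  .pos 93,
  .sub 4 88,
  .pos 0,
  .pos 9,
  .pos 30]

def chk0 {α : Type} (cst : Z → α) (add sub mul : α → α → α) (scale : Z → α → α)
    (neg inv exp log : α → α) (ok : α → Bool) (isPos : Nat → α → Bool) (isLt : α → Nat → Bool) :
    List α → Bool
  | [x0, x1, x2, x3] =>
  let v0 := cst ⟨1099511627776, 0, 0, 0⟩; ok v0 && (
  let v1 := cst ⟨549755813888, 0, 0, 0⟩; ok v1 && (
  let v2 := mul x1 x1; ok v2 && (
  let v3 := sub v0 v2; ok v3 && (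
  let v4 := inv v3; ok v4 && (
  let v5 := mul x1 v4; ok v5 && (
  let v6 := scale ⟨2199023255552, 0, 0, 0⟩ v5; ok v6 && (
  let v7 := scale ⟨2199023255552, 0, 0, 0⟩ v4; ok v7 && (
  let v8 := sub v7 v0; ok v8 && (
  let v9 := add v8 v6; ok v9 && (
  let v10 := scale ⟨10774999203840, 0, 0, 0⟩ x1; ok v10 && (
  let v11 := scale ⟨45768245248, 0, 0, 0⟩ v10; ok v11 && (
  let v12 := cst ⟨183207198720, 0, 0, 0⟩; ok v12 && (
  let v13 := add v11 v12; ok v13 && (
  let v14 := mul v10 v13; ok v14 && (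
  let v15 := add v1 v14; ok v15 && (
  let v16 := mul v10 v15; ok v16 && (
  let v17 := add v0 v16; ok v17 && (
  let v18 := mul v10 v17; ok v18 && (
  let v19 := scale ⟨549755813888, 0, 0, 0⟩ v18; ok v19 && (
  let v20 := add v0 v19; ok v20 && (
  let v21 := mul v17 v20; ok v21 && (
  let v22 := mul v10 v21; ok v22 && (
  let v23 := add v0 v22; ok v23 && (
  let v24 := inv v23; ok v24 && (
  let v25 := mul x2 v24; ok v25 && (
  let v26 := sub v0 v25; ok v26 && (
  let v27 := add v0 v26; ok v27 && (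
  let v28 := sub v0 x3; ok v28 && (
  let v29 := mul v25 v28; ok v29 && (
  let v30 := sub v0 v29; ok v30 && (
  let v31 := mul v30 v30; ok v31 && (
  let v32 := inv v26; ok v32 && (
  let v33 := mul v6 v32; ok v33 && (
  let v34 := mul v33 v30; ok v34 && (
  let v35 := inv v30; ok v35 && (
  let v36 := mul v26 v35; ok v36 && (
  let v37 := mul v36 v3; ok v37 && (
  let v38 := mul v33 v31; ok v38 && (
  let v39 := mul v6 v26; ok v39 && (
  let v40 := scale ⟨2199023255552, 0, 0, 0⟩ v8; ok v40 && (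
  let v41 := add v39 v40; ok v41 && (
  let v42 := add v41 v33; ok v42 && (
  let v43 := mul v38 v42; ok v43 && (
  let v44 := add v43 v0; ok v44 && (
  let v45 := mul v6 v6; ok v45 && (
  let v46 := scale ⟨2199023255552, 0, 0, 0⟩ v45; ok v46 && (
  let v47 := add v46 v0; ok v47 && (
  let v48 := mul v8 v42; ok v48 && (
  let v49 := sub v48 v0; ok v49 && (
  let v50 := log v44; ok v50 && (
  let v51 := scale ⟨549755813888, 0, 0, 0⟩ v50; ok v51 && (
  let v52 := exp v51; ok v52 && (
  let v53 := scale ⟨549755813888, 0, 0, 0⟩ x0; ok v53 && (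
  let v54 := mul v53 v50; ok v54 && (
  let v55 := neg v54; ok v55 && (
  let v56 := exp v55; ok v56 && (
  let v57 := mul v8 v38; ok v57 && (
  let v58 := mul v57 v49; ok v58 && (
  let v59 := scale ⟨4398046511104, 0, 0, 0⟩ v58; ok v59 && (
  let v60 := add v59 v0; ok v60 && (
  let v61 := log v60; ok v61 && (
  let v62 := sub v61 v50; ok v62 && (
  let v63 := mul v53 v62; ok v63 && (
  let v64 := neg v63; ok v64 && (
  let v65 := exp v64; ok v65 && (
  let v66 := mul v26 v6; ok v66 && (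
  let v67 := add v8 v66; ok v67 && (
  let v68 := inv v67; ok v68 && (
  let v69 := mul v27 v68; ok v69 && (
  let v70 := mul v25 v33; ok v70 && (
  let v71 := mul v70 v69; ok v71 && (
  let v72 := mul v36 v36; ok v72 && (
  let v73 := sub v0 v31; ok v73 && (
  let v74 := mul v72 v73; ok v74 && (
  let v75 := mul v34 v34; ok v75 && (
  let v76 := add v8 v38; ok v76 && (
  let v77 := inv v76; ok v77 && (
  let v78 := mul v77 x0; ok v78 && (
  let v79 := mul v78 v78; ok v79 && (
  let v80 := mul v75 v73; ok v80 && (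
  let v81 := sub v0 v72; ok v81 && (
  let v82 := mul v80 v81; ok v82 && (
  let v83 := mul v79 v82; ok v83 && (
  let v84 := inv x0; ok v84 && (
  let v85 := cst ⟨45812285440, 0, 0, 0⟩; ok v85 && (
  let v86 := scale ⟨1527119872, 0, 0, 0⟩ v83; ok v86 && (
  let v87 := sub v85 v86; ok v87 && (
  let v88 := mul v83 v87; ok v88 && (
  let v89 := sub v1 v88; ok v89 && (
  let v90 := mul v83 v89; ok v90 && (
  let v91 := sub v0 v90; ok v91 && (
  let v92 := add v56 v0; ok v92 && (
  let v93 := mul v56 v56; ok v93 && (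
  let v94 := add v93 v0; ok v94 && (
  let v95 := mul v56 v91; ok v95 && (
  let v96 := scale ⟨2199023255552, 0, 0, 0⟩ v95; ok v96 && (
  let v97 := add v94 v96; ok v97 && (
  let v98 := inv v92; ok v98 && (
  let v99 := mul v97 v98; ok v99 && (
  let v100 := add v99 v92; ok v100 && (
  let v101 := mul v56 v71; ok v101 && (
  let v102 := scale ⟨549755813888, 0, 0, 0⟩ v101; ok v102 && (
  let v103 := mul v102 v100; ok v103 && (
  let v104 := sub v97 v103; ok v104 && (
  isPos 4 v97 && (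
  isPos 4 v104 && (
  let v105 := inv v104; ok v105 && (
  let v106 := sub v0 v56; ok v106 && (
  let v107 := mul v106 v92; ok v107 && (
  let v108 := mul v107 v105; ok v108 && (
  let v109 := scale ⟨549755813888, 0, 0, 0⟩ v108; ok v109 && (
  let v110 := add v109 v1; ok v110 && (
  let v111 := inv v110; ok v111 && (
  let v112 := mul v109 v111; ok v112 && (
  let v113 := mul v102 v109; ok v113 && (
  let v114 := add v113 v1; ok v114 && (
  let v115 := mul v114 v100; ok v115 && (
  let v116 := inv v97; ok v116 && (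
  let v117 := mul v115 v116; ok v117 && (
  let v118 := mul v71 v112; ok v118 && (
  let v119 := scale ⟨549755813888, 0, 0, 0⟩ v118; ok v119 && (
  let v120 := sub v0 v119; ok v120 && (
  let v121 := sub v0 v118; ok v121 && (
  let v122 := inv v121; ok v122 && (
  let v123 := mul v120 v122; ok v123 && (
  let v124 := add v118 v0; ok v124 && (
  let v125 := mul v56 v124; ok v125 && (
  let v126 := mul v25 v27; ok v126 && (
  let v127 := add v8 v33; ok v127 && (
  let v128 := mul v26 v8; ok v128 && (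
  let v129 := mul v128 v6; ok v129 && (
  let v130 := scale ⟨2199023255552, 0, 0, 0⟩ v129; ok v130 && (
  let v131 := add v47 v130; ok v131 && (
  let v132 := mul v127 v131; ok v132 && (
  let v133 := inv v132; ok v133 && (
  let v134 := mul v126 v133; ok v134 && (
  let v135 := mul v33 v134; ok v135 && (
  let v136 := inv v44; ok v136 && (
  let v137 := mul v83 v136; ok v137 && (
  let v138 := scale ⟨1527119872, 0, 0, 0⟩ v137; ok v138 && (
  let v139 := sub v85 v138; ok v139 && (
  let v140 := mul v137 v139; ok v140 && (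
  let v141 := sub v1 v140; ok v141 && (
  let v142 := mul v137 v141; ok v142 && (
  let v143 := sub v0 v142; ok v143 && (
  let v144 := add v65 v0; ok v144 && (
  let v145 := mul v65 v65; ok v145 && (
  let v146 := add v145 v0; ok v146 && (
  let v147 := mul v65 v143; ok v147 && (
  let v148 := scale ⟨2199023255552, 0, 0, 0⟩ v147; ok v148 && (
  let v149 := add v146 v148; ok v149 && (
  let v150 := inv v144; ok v150 && (
  let v151 := mul v149 v150; ok v151 && (
  let v152 := add v151 v144; ok v152 && (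
  let v153 := mul v65 v135; ok v153 && (
  let v154 := scale ⟨549755813888, 0, 0, 0⟩ v153; ok v154 && (
  let v155 := mul v154 v152; ok v155 && (
  let v156 := sub v149 v155; ok v156 && (
  isPos 4 v149 && (
  isPos 4 v156 && (
  let v157 := sub v0 v65; ok v157 && (
  let v158 := mul v157 v144; ok v158 && (
  let v159 := inv v156; ok v159 && (
  let v160 := mul v158 v159; ok v160 && (
  let v161 := scale ⟨549755813888, 0, 0, 0⟩ v160; ok v161 && (
  let v162 := add v161 v1; ok v162 && (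
  let v163 := inv v162; ok v163 && (
  let v164 := mul v161 v163; ok v164 && (
  let v165 := mul v135 v164; ok v165 && (
  let v166 := add x1 v0; ok v166 && (
  let v167 := inv v166; ok v167 && (
  let v168 := mul x1 v167; ok v168 && (
  let v169 := scale ⟨2199023255552, 0, 0, 0⟩ v168; ok v169 && (
  let v170 := sub v0 v169; ok v170 && (
  let v171 := sub v0 x1; ok v171 && (
  let v172 := mul v37 v167; ok v172 && (
  let v173 := mul v172 v170; ok v173 && (
  let v174 := add v27 v173; ok v174 && (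
  let v175 := mul x0 v6; ok v175 && (
  let v176 := scale ⟨274877906944, 0, 0, 0⟩ x0; ok v176 && (
  let v177 := cst ⟨2199023255552, 0, 0, 0⟩; ok v177 && (
  let v178 := add v176 v177; ok v178 && (
  let v179 := mul v178 v178; ok v179 && (
  let v180 := mul v175 v175; ok v180 && (
  let v181 := cst ⟨7696581394432, 0, 0, 0⟩; ok v181 && (
  let v182 := cst ⟨10995116277760, 0, 0, 0⟩; ok v182 && (
  let v183 := inv v182; ok v183 && (
  let v184 := mul v181 v183; ok v184 && (
  let v185 := mul v180 v184; ok v185 && (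
  let v186 := add v179 v185; ok v186 && (
  let v187 := mul v179 v178; ok v187 && (
  let v188 := inv v186; ok v188 && (
  let v189 := mul v187 v188; ok v189 && (
  let v190 := inv v187; ok v190 && (
  let v191 := mul v186 v190; ok v191 && (
  let v192 := scale ⟨224412041216, 0, 0, 0⟩ v4; ok v192 && (
  let v193 := inv v21; ok v193 && (
  let v194 := mul v192 v193; ok v194 && (
  let v195 := mul v189 v27; ok v195 && (
  let v196 := mul v195 v194; ok v196 && (
  let v197 := mul v34 v196; ok v197 && (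
  let v198 := sub v0 v197; ok v198 && (
  let v199 := inv v198; ok v199 && (
  let v200 := mul v125 v197; ok v200 && (
  let v201 := sub v0 v200; ok v201 && (
  let v202 := inv v201; ok v202 && (
  let v203 := mul v25 v112; ok v203 && (
  let v204 := mul v203 v32; ok v204 && (
  let v205 := scale ⟨549755813888, 0, 0, 0⟩ v204; ok v205 && (
  let v206 := sub v0 v205; ok v206 && (
  let v207 := sub v0 v204; ok v207 && (
  let v208 := inv v207; ok v208 && (
  let v209 := mul v206 v208; ok v209 && (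
  let v210 := mul v112 v209; ok v210 && (
  let v211 := mul v210 v35; ok v211 && (
  let v212 := mul v204 v209; ok v212 && (
  isPos 4 v207 && (
  let v213 := mul v212 v84; ok v213 && (
  let v214 := scale ⟨1374389534720, 0, 0, 0⟩ v213; ok v214 && (
  let v215 := sub v1 v214; ok v215 && (
  isPos 4 v215 && (
  let v216 := scale ⟨3092376453120, 0, 0, 0⟩ v213; ok v216 && (
  let v217 := add v216 v177; ok v217 && (
  let v218 := mul v213 v217; ok v218 && (
  let v219 := add v0 v218; ok v219 && (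
  let v220 := scale ⟨1546188226560, 0, 0, 0⟩ v213; ok v220 && (
  let v221 := add v220 v0; ok v221 && (
  let v222 := mul v213 v221; ok v222 && (
  let v223 := add v0 v222; ok v223 && (
  let v224 := mul x1 v36; ok v224 && (
  let v225 := sub v0 v74; ok v225 && (
  let v226 := mul x1 v26; ok v226 && (
  let v227 := scale ⟨2199023255552, 0, 0, 0⟩ v226; ok v227 && (
  let v228 := sub v225 v227; ok v228 && (
  let v229 := mul v224 v224; ok v229 && (
  let v230 := add v228 v229; ok v230 && (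
  let v231 := add v230 v0; ok v231 && (
  let v232 := scale ⟨549755813888, 0, 0, 0⟩ v231; ok v232 && (
  let v233 := scale ⟨549755813888, 0, 0, 0⟩ v38; ok v233 && (
  let v234 := sub v4 v233; ok v234 && (
  let v235 := mul v75 v225; ok v235 && (
  let v236 := mul v235 v3; ok v236 && (
  let v237 := scale ⟨137438953472, 0, 0, 0⟩ v236; ok v237 && (
  let v238 := add v234 v237; ok v238 && (
  let v239 := mul v232 v238; ok v239 && (
  let v240 := mul v118 v123; ok v240 && (
  let v241 := add v125 v0; ok v241 && (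
  let v242 := mul v241 v199; ok v242 && (
  let v243 := mul v125 v202; ok v243 && (
  let v244 := add v242 v243; ok v244 && (
  let v245 := mul v197 v244; ok v245 && (
  let v246 := add v240 v245; ok v246 && (
  let v247 := mul v246 v84; ok v247 && (
  let v248 := mul v241 v197; ok v248 && (
  let v249 := mul v248 v199; ok v249 && (
  let v250 := add v240 v249; ok v250 && (
  let v251 := mul v250 v84; ok v251 && (
  let v252 := scale ⟨223338299392, 0, 0, 0⟩ v251; ok v252 && (
  let v253 := add v1 v252; ok v253 && (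
  let v254 := mul v251 v253; ok v254 && (
  let v255 := add v0 v254; ok v255 && (
  let v256 := scale ⟨893353197568, 0, 0, 0⟩ v247; ok v256 && (
  let v257 := add v0 v256; ok v257 && (
  let v258 := mul v247 v257; ok v258 && (
  let v259 := add v0 v258; ok v259 && (
  let v260 := mul v169 v172; ok v260 && (
  let v261 := mul v260 v219; ok v261 && (
  let v262 := mul v261 v259; ok v262 && (
  let v263 := mul v239 v255; ok v263 && (
  let v264 := add v52 v1; ok v264 && (
  let v265 := mul v262 v264; ok v265 && (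
  let v266 := add v263 v265; ok v266 && (
  let v267 := add v52 v0; ok v267 && (
  let v268 := mul v262 v267; ok v268 && (
  let v269 := mul v223 v267; ok v269 && (
  let v270 := mul v269 v172; ok v270 && (
  let v271 := mul v270 v171; ok v271 && (
  let v272 := mul v34 v174; ok v272 && (
  let v273 := inv v52; ok v273 && (
  let v274 := mul v272 v273; ok v274 && (
  let v275 := scale ⟨549755813888, 0, 0, 0⟩ v274; ok v275 && (
  let v276 := mul v69 v35; ok v276 && (
  let v277 := mul v276 v112; ok v277 && (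
  let v278 := mul v277 v123; ok v278 && (
  let v279 := mul v25 v275; ok v279 && (
  let v280 := mul v266 v278; ok v280 && (
  let v281 := mul v271 v211; ok v281 && (
  let v282 := add v280 v281; ok v282 && (
  let v283 := mul v282 v84; ok v283 && (
  let v284 := add v279 v283; ok v284 && (
  let v285 := mul v266 v241; ok v285 && (
  let v286 := mul v285 v199; ok v286 && (
  let v287 := mul v268 v125; ok v287 && (
  let v288 := mul v287 v202; ok v288 && (
  let v289 := add v286 v288; ok v289 && (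
  let v290 := mul v289 v84; ok v290 && (
  let v291 := mul v25 v284; ok v291 && (
  let v292 := mul v196 v290; ok v292 && (
  let v293 := add v291 v292; ok v293 && (
  let v294 := mul v75 v293; ok v294 && (
  let v295 := mul v294 v273; ok v295 && (
  let v296 := sub v0 v295; ok v296 && (
  let v297 := inv v296; ok v297 && (
  let v298 := mul v293 v297; ok v298 && (
  let v299 := mul v33 v298; ok v299 && (
  let v300 := mul v75 v298; ok v300 && (
  let v301 := mul v300 v273; ok v301 && (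
  let v302 := sub v0 v301; ok v302 && (
  let v303 := mul v49 v302; ok v303 && (
  let v304 := sub v303 v299; ok v304 && (
  let v305 := inv v304; ok v305 && (
  let v306 := mul v299 v305; ok v306 && (
  let v307 := sub v52 v300; ok v307 && (
  let v308 := inv v307; ok v308 && (
  let v309 := mul v306 v164; ok v309 && (
  let v310 := mul x0 v308; ok v310 && (
  let v311 := mul v164 v305; ok v311 && (
  let v312 := inv v38; ok v312 && (
  let v313 := mul v311 v312; ok v313 && (
  let v314 := scale ⟨549755813888, 0, 0, 0⟩ v309; ok v314 && (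
  let v315 := sub v0 v314; ok v315 && (
  let v316 := sub v0 v309; ok v316 && (
  let v317 := inv v316; ok v317 && (
  let v318 := mul v315 v317; ok v318 && (
  let v319 := mul v313 v318; ok v319 && (
  let v320 := add v310 v319; ok v320 && (
  let v321 := mul v320 v300; ok v321 && (
  let v322 := scale ⟨223338299392, 0, 0, 0⟩ v321; ok v322 && (
  let v323 := add v1 v322; ok v323 && (
  let v324 := mul v321 v323; ok v324 && (
  let v325 := add v0 v324; ok v325 && (
  let v326 := mul v320 v325; ok v326 && (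
  let v327 := mul v326 v297; ok v327 && (
  let v328 := mul v327 v84; ok v328 && (
  let v329 := mul v328 v30; ok v329 && (
  let v330 := mul v329 v289; ok v330 && (
  let v331 := mul v328 v191; ok v331 && (
  let v332 := mul v331 v30; ok v332 && (
  let v333 := inv v27; ok v333 && (
  let v334 := mul v332 v333; ok v334 && (
  let v335 := mul x0 v25; ok v335 && (
  let v336 := mul v335 v275; ok v336 && (
  let v337 := add v336 v280; ok v337 && (
  let v338 := add v337 v281; ok v338 && (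
  let v339 := mul v334 v338; ok v339 && (
  let v340 := mul v189 v34; ok v340 && (
  let v341 := mul v340 v27; ok v341 && (
  let v342 := mul v341 v25; ok v342 && (
  let v343 := cst ⟨9895604649984, 0, 0, 0⟩; ok v343 && (
  let v344 := cst ⟨21990232555520, 0, 0, 0⟩; ok v344 && (
  let v345 := inv v344; ok v345 && (
  let v346 := mul v343 v345; ok v346 && (
  let v347 := add v165 v0; ok v347 && (
  let v348 := mul v165 v347; ok v348 && (
  let v349 := add v63 v348; ok v349 && (
  let v350 := mul v306 v349; ok v350 && (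
  let v351 := mul v65 v347; ok v351 && (
  let v352 := scale ⟨687194767360, 0, 0, 0⟩ v350; ok v352 && (
  let v353 := add v0 v352; ok v353 && (
  let v354 := mul v350 v353; ok v354 && (
  let v355 := add v0 v354; ok v355 && (
  let v356 := mul v351 v355; ok v356 && (
  let v357 := add v6 v33; ok v357 && (
  let v358 := mul v166 v357; ok v358 && (
  let v359 := mul v358 v346; ok v359 && (
  let v360 := add v0 v359; ok v360 && (
  let v361 := inv v360; ok v361 && (
  let v362 := mul v356 v361; ok v362 && (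
  let v363 := mul v362 v9; ok v363 && (
  let v364 := mul v34 v298; ok v364 && (
  let v365 := mul v364 v333; ok v365 && (
  let v366 := add v0 v365; ok v366 && (
  let v367 := mul v363 v366; ok v367 && (
  let v368 := mul v367 v308; ok v368 && (
  let v369 := mul v33 v330; ok v369 && (
  let v370 := mul v369 v197; ok v370 && (
  let v371 := mul v33 v342; ok v371 && (
  let v372 := mul v339 v371; ok v372 && (
  let v373 := add v370 v372; ok v373 && (
  let v374 := add v369 v339; ok v374 && (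
  let v375 := add v0 v373; ok v375 && (
  let v376 := mul v368 v375; ok v376 && (
  let v377 := add v374 v376; ok v377 && (
  let v378 := sub v0 v377; ok v378 && (
  let v379 := scale ⟨1073741824, 0, 0, 0⟩ v33; ok v379 && (
  let v380 := sub v378 v379; ok v380 && (
  let v381 := sub v9 v0; ok v381 && (
  let v382 := add v381 v177; ok v382 && (
  let v383 := scale ⟨2199023255552, 0, 0, 0⟩ v346; ok v383 && (
  let v384 := sub v382 v383; ok v384 && (
  let v385 := mul v166 v384; ok v385 && (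
  let v386 := mul v381 v383; ok v386 && (
  let v387 := add v386 v0; ok v387 && (
  let v388 := inv v387; ok v388 && (
  let v389 := mul v385 v388; ok v389 && (
  let v390 := mul v189 v290; ok v390 && (
  let v391 := scale ⟨549755813888, 0, 0, 0⟩ v194; ok v391 && (
  let v392 := add v6 v391; ok v392 && (
  let v393 := mul v390 v392; ok v393 && (
  let v394 := scale ⟨2199023255552, 0, 0, 0⟩ v393; ok v394 && (
  let v395 := add v284 v394; ok v395 && (
  let v396 := scale ⟨2199023255552, 0, 0, 0⟩ v395; ok v396 && (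
  let v397 := mul v396 v297; ok v397 && (
  let v398 := sub v27 v364; ok v398 && (
  let v399 := inv v398; ok v399 && (
  let v400 := mul v397 v399; ok v400 && (
  let v401 := sub v389 v400; ok v401 && (
  isPos 4 v198 && (
  isPos 4 v201 && (
  let v402 := scale ⟨2199023255552, 0, 0, 0⟩ v294; ok v402 && (
  let v403 := sub v52 v402; ok v403 && (
  isPos 4 v403 && (
  isPos 4 v304 && (
  isPos 4 v121 && (
  let v404 := sub v1 v165; ok v404 && (
  isPos 4 v404 && (
  let v405 := scale ⟨687194767360, 0, 0, 0⟩ v0; ok v405 && (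
  let v406 := sub v405 v251; ok v406 && (
  isPos 4 v406 && (
  let v407 := scale ⟨377957122048, 0, 0, 0⟩ v0; ok v407 && (
  let v408 := sub v407 v247; ok v408 && (
  isPos 4 v408 && (
  isPos 4 v398 && (
  let v409 := sub v1 v350; ok v409 && (
  isPos 4 v409 && (
  isPos 4 v316 && (
  let v410 := sub v405 v321; ok v410 && (
  isPos 4 v410 && (
  isPos 4 v401 && (
  isPos 4 v380 && (
  true)))))))))))))))))))))))))))))))))))))))))))))))))))))))))))))))))))))))))))))))))))))))))))))))))))))))))))))))))))))))))))))))))))))))))))))))))))))))))))))))))))))))))))))))))))))))))))))))))))))))))))))))))))))))))))))))))))))))))))))))))))))))))))))))))))))))))))))))))))))))))))))))))))))))))))))))))))))))))))))))))))))))))))))))))))))))))))))))))))))))))))))))))))))))))))))))))))))))))))))))))))))))))))))))))))))))))))))))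
  | _ => false

set_option maxRecDepth 1000000 in
theorem chk0_eq (O : Ops) (m : List O.α)
    (h : chk0 O.cst O.add O.sub O.mul O.scale O.neg O.inv O.exp O.log O.ok O.isPos O.isLt m = true) :
    runG O 4 prog0 m = true := by
  match m, h with
  | [x0, x1, x2, x3], h => exact h

def chkB0 : List opsE.α → Bool :=
  chk0 opsE.cst opsE.add opsE.sub opsE.mul opsE.scale opsE.neg opsE.inv opsE.exp opsE.log opsE.ok opsE.isPos opsE.isLt

theorem chkB0_eq (m : List opsE.α) (h : chkB0 m = true) : runG opsE 4 prog0 m = true :=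
  chk0_eq opsE m h

def prog1 : List Op := [
  .const ⟨1099511627776, 0, 0, 0⟩,
  .const ⟨549755813888, 0, 0, 0⟩,
  .mul 3 3,
  .sub 2 0,
  .inv 0,
  .mul 6 0,
  .scale ⟨2199023255552, 0, 0, 0⟩ 0,
  .scale ⟨2199023255552, 0, 0, 0⟩ 2,
  .sub 0 7,
  .add 0 2,
  .scale ⟨10774999203840, 0, 0, 0⟩ 11,
  .scale ⟨45768245248, 0, 0, 0⟩ 0,
  .const ⟨183207198720, 0, 0, 0⟩,
  .add 1 0,
  .mul 3 0,
  .add 13 0,
  .mul 5 0,
  .add 16 0,
  .mul 7 0,
  .scale ⟨549755813888, 0, 0, 0⟩ 0,
  .add 19 0,
  .mul 3 0,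
  .mul 11 0,
  .add 22 0,
  .inv 0,
  .mul 27 0,
  .sub 25 0,
  .add 26 0,
  .sub 27 31,
  .mul 3 0,
  .sub 29 0,
  .mul 0 0,
  .inv 5,
  .mul 26 0,
  .mul 0 3,
  .inv 4,
  .mul 9 0,
  .mul 0 33,
  .mul 4 6,
  .mul 32 12,
  .scale ⟨2199023255552, 0, 0, 0⟩ 31,
  .add 1 0,
  .add 0 8,
  .mul 4 0,
  .add 0 43,
  .mul 38 38,
  .scale ⟨2199023255552, 0, 0, 0⟩ 0,
  .add 0 46,
  .mul 39 5,
  .sub 0 48,
  .log 5,
  .scale ⟨549755813888, 0, 0, 0⟩ 0,
  .exp 0,
  .scale ⟨549755813888, 0, 0, 0⟩ 53,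
  .mul 0 3,
  .neg 0,
  .exp 0,
  .mul 48 18,
  .mul 0 8,
  .scale ⟨4398046511104, 0, 0, 0⟩ 0,
  .add 0 59,
  .log 0,
  .sub 0 11,
  .mul 9 0,
  .neg 0,
  .exp 0,
  .mul 39 59,
  .add 58 0,
  .inv 0,
  .mul 41 0,
  .mul 44 36,
  .mul 0 1,
  .mul 35 35,
  .sub 72 41,
  .mul 1 0,
  .mul 40 40,
  .add 67 37,
  .inv 0,
  .mul 0 78,
  .mul 0 0,
  .mul 4 6,
  .sub 80 8,
  .mul 1 0,
  .mul 3 0,
  .inv 84,
  .const ⟨45812285440, 0, 0, 0⟩,
  .scale ⟨1527119872, 0, 0, 0⟩ 2,
  .sub 1 0,
  .mul 4 0,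
  .sub 87 0,
  .mul 6 0,
  .sub 90 0,
  .add 35 91,
  .mul 36 36,
  .add 0 93,
  .mul 38 3,
  .scale ⟨2199023255552, 0, 0, 0⟩ 0,
  .add 2 0,
  .inv 5,
  .mul 1 0,
  .add 0 7,
  .mul 44 29,
  .scale ⟨549755813888, 0, 0, 0⟩ 0,
  .mul 0 2,
  .sub 6 0,
  .pos 7,
  .pos 0,
  .inv 0,
  .sub 105 49,
  .mul 0 14,
  .mul 0 2,
  .scale ⟨549755813888, 0, 0, 0⟩ 0,
  .add 0 108,
  .inv 0,
  .mul 2 0,
  .mul 10 3,
  .add 0 112,
  .mul 0 14,
  .inv 18,
  .mul 1 0,
  .mul 46 5,
  .scale ⟨549755813888, 0, 0, 0⟩ 0,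
  .sub 119 0,
  .sub 120 2,
  .inv 0,
  .mul 2 0,
  .add 5 123,
  .mul 68 0,
  .mul 100 98,
  .add 118 93,
  .mul 101 119,
  .mul 0 122,
  .scale ⟨2199023255552, 0, 0, 0⟩ 0,
  .add 83 0,
  .mul 4 0,
  .inv 0,
  .mul 7 0,
  .mul 101 0,
  .inv 91,
  .mul 53 0,
  .scale ⟨1527119872, 0, 0, 0⟩ 0,
  .sub 53 0,
  .mul 2 0,
  .sub 139 0,
  .mul 4 0,
  .sub 142 0,
  .add 78 143,
  .mul 79 79,
  .add 0 145,
  .mul 81 3,
  .scale ⟨2199023255552, 0, 0, 0⟩ 0,
  .add 2 0,
  .inv 5,
  .mul 1 0,
  .add 0 7,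
  .mul 87 17,
  .scale ⟨549755813888, 0, 0, 0⟩ 0,
  .mul 0 2,
  .sub 6 0,
  .pos 7,
  .pos 0,
  .sub 156 91,
  .mul 0 13,
  .inv 2,
  .mul 1 0,
  .scale ⟨549755813888, 0, 0, 0⟩ 0,
  .add 0 160,
  .inv 0,
  .mul 2 0,
  .mul 29 0,
  .add 167 165,
  .inv 0,
  .mul 169 0,
  .scale ⟨2199023255552, 0, 0, 0⟩ 0,
  .sub 169 0,
  .sub 170 172,
  .mul 134 4,
  .mul 0 2,
  .add 146 0,
  .mul 175 168,
  .scale ⟨274877906944, 0, 0, 0⟩ 176,
  .const ⟨2199023255552, 0, 0, 0⟩,
  .add 1 0,
  .mul 0 0,
  .mul 4 4,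
  .const ⟨7696581394432, 0, 0, 0⟩,
  .const ⟨10995116277760, 0, 0, 0⟩,
  .inv 0,
  .mul 2 0,
  .mul 4 0,
  .add 6 0,
  .mul 7 8,
  .inv 1,
  .mul 1 0,
  .inv 2,
  .mul 4 0,
  .scale ⟨224412041216, 0, 0, 0⟩ 187,
  .inv 171,
  .mul 1 0,
  .mul 5 167,
  .mul 0 1,
  .mul 162 0,
  .sub 197 0,
  .inv 0,
  .mul 74 2,
  .sub 200 0,
  .inv 0,
  .add 27 25,
  .inv 0,
  .mul 179 205,
  .mul 0 172,
  .mul 0 2,
  .scale ⟨549755813888, 0, 0, 0⟩ 0,
  .sub 208 0,
  .sub 209 2,
  .inv 0,
  .mul 2 0,
  .mul 0 8,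
  .mul 0 214,
  .mul 181 178,
  .mul 0 1,
  .mul 9 4,
  .pos 7,
  .mul 0 133,
  .scale ⟨1374389534720, 0, 0, 0⟩ 0,
  .sub 218 0,
  .pos 0,
  .scale ⟨3092376453120, 0, 0, 0⟩ 2,
  .add 0 44,
  .mul 4 0,
  .add 223 0,
  .scale ⟨1546188226560, 0, 0, 0⟩ 6,
  .add 0 225,
  .mul 8 0,
  .add 227 0,
  .mul 230 192,
  .sub 229 155,
  .mul 232 204,
  .scale ⟨2199023255552, 0, 0, 0⟩ 0,
  .sub 2 0,
  .mul 4 4,
  .add 1 0,
  .add 0 235,
  .scale ⟨549755813888, 0, 0, 0⟩ 0,
  .scale ⟨549755813888, 0, 0, 0⟩ 199,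
  .sub 234 0,
  .mul 164 9,
  .mul 0 237,
  .scale ⟨137438953472, 0, 0, 0⟩ 0,
  .add 3 0,
  .mul 6 0,
  .mul 126 121,
  .add 120 245,
  .mul 0 47,
  .mul 122 45,
  .add 1 0,
  .mul 52 0,
  .add 5 0,
  .mul 0 167,
  .mul 6 55,
  .mul 0 54,
  .add 9 0,
  .mul 0 171,
  .scale ⟨223338299392, 0, 0, 0⟩ 0,
  .add 256 0,
  .mul 2 0,
  .add 259 0,
  .scale ⟨893353197568, 0, 0, 0⟩ 8,
  .add 261 0,
  .mul 10 0,
  .add 263 0,
  .mul 95 92,
  .mul 0 41,
  .mul 0 2,
  .mul 23 7,
  .add 216 267,
  .mul 2 0,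
  .add 2 0,
  .add 219 271,
  .mul 5 0,
  .mul 45 1,
  .mul 0 102,
  .mul 0 104,
  .mul 242 102,
  .inv 225,
  .mul 1 0,
  .scale ⟨549755813888, 0, 0, 0⟩ 0,
  .mul 211 245,
  .mul 0 169,
  .mul 0 159,
  .mul 258 3,
  .mul 13 1,
  .mul 9 69,
  .add 1 0,
  .mul 0 203,
  .add 4 0,
  .mul 18 43,
  .mul 0 91,
  .mul 18 166,
  .mul 0 90,
  .add 2 0,
  .mul 0 210,
  .mul 270 6,
  .mul 100 1,
  .add 1 0,
  .mul 223 0,
  .mul 0 21,
  .sub 300 0,
  .inv 0,
  .mul 4 0,
  .mul 270 0,
  .mul 229 1,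
  .mul 0 27,
  .sub 306 0,
  .mul 258 0,
  .sub 0 4,
  .inv 0,
  .mul 6 0,
  .sub 259 6,
  .inv 0,
  .mul 2 149,
  .mul 315 1,
  .mul 151 5,
  .inv 278,
  .mul 1 0,
  .scale ⟨549755813888, 0, 0, 0⟩ 4,
  .sub 319 0,
  .sub 320 6,
  .inv 0,
  .mul 2 0,
  .mul 5 0,
  .add 9 0,
  .mul 0 20,
  .scale ⟨223338299392, 0, 0, 0⟩ 0,
  .add 326 0,
  .mul 2 0,
  .add 329 0,
  .mul 5 0,
  .mul 0 29,
  .mul 0 248,
  .mul 0 303,
  .mul 0 40,
  .mul 2 144,
  .mul 0 306,
  .inv 310,
  .mul 1 0,
  .mul 340 314,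
  .mul 0 60,
  .add 0 56,
  .add 0 56,
  .mul 4 0,
  .mul 155 310,
  .mul 0 318,
  .mul 0 321,
  .const ⟨9895604649984, 0, 0, 0⟩,
  .const ⟨21990232555520, 0, 0, 0⟩,
  .inv 0,
  .mul 2 0,
  .add 186 351,
  .mul 187 0,
  .add 290 0,
  .mul 43 0,
  .mul 290 3,
  .scale ⟨687194767360, 0, 0, 0⟩ 1,
  .add 357 0,
  .mul 3 0,
  .add 359 0,
  .mul 4 0,
  .add 355 328,
  .mul 196 0,
  .mul 0 12,
  .add 364 0,
  .inv 0,
  .mul 5 0,
  .mul 0 358,
  .mul 334 65,
  .mul 0 31,
  .add 370 0,
  .mul 3 0,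
  .mul 0 59,
  .mul 340 38,
  .mul 0 177,
  .mul 342 28,
  .mul 32 0,
  .add 2 0,
  .add 4 34,
  .add 379 1,
  .mul 7 0,
  .add 2 0,
  .sub 382 0,
  .scale ⟨1073741824, 0, 0, 0⟩ 350,
  .sub 1 0,
  .sub 376 385,
  .add 0 209,
  .scale ⟨2199023255552, 0, 0, 0⟩ 36,
  .sub 1 0,
  .mul 223 0,
  .mul 4 2,
  .add 0 391,
  .inv 0,
  .mul 3 0,
  .mul 205 99,
  .scale ⟨549755813888, 0, 0, 0⟩ 201,
  .add 390 0,
  .mul 2 0,
  .scale ⟨2199023255552, 0, 0, 0⟩ 0,
  .add 110 0,
  .scale ⟨2199023255552, 0, 0, 0⟩ 0,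
  .mul 0 99,
  .sub 375 33,
  .inv 0,
  .mul 2 0,
  .sub 11 0,
  .pos 208,
  .pos 205,
  .scale ⟨2199023255552, 0, 0, 0⟩ 107,
  .sub 355 0,
  .pos 0,
  .pos 99,
  .pos 287,
  .sub 407 243,
  .pos 0,
  .scale ⟨687194767360, 0, 0, 0⟩ 409,
  .sub 0 154,
  .pos 0,
  .scale ⟨377957122048, 0, 0, 0⟩ 411,
  .sub 0 160,
  .pos 0,
  .pos 10,
  .sub 412 58,
  .pos 0,
  .pos 93,
  .sub 4 88,
  .pos 0,
  .pos 9,
  .pos 30]

def chk1 {α : Type} (cst : Z → α) (add sub mul : α → α → α) (scale : Z → α → α)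
    (neg inv exp log : α → α) (ok : α → Bool) (isPos : Nat → α → Bool) (isLt : α → Nat → Bool) :
    List α → Bool
  | [x0, x1, x2, x3] =>
  let v0 := cst ⟨1099511627776, 0, 0, 0⟩; ok v0 && (
  let v1 := cst ⟨549755813888, 0, 0, 0⟩; ok v1 && (
  let v2 := mul x1 x1; ok v2 && (
  let v3 := sub v0 v2; ok v3 && (
  let v4 := inv v3; ok v4 && (
  let v5 := mul x1 v4; ok v5 && (
  let v6 := scale ⟨2199023255552, 0, 0, 0⟩ v5; ok v6 && (
  let v7 := scale ⟨2199023255552, 0, 0, 0⟩ v4; ok v7 && (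
  let v8 := sub v7 v0; ok v8 && (
  let v9 := add v8 v6; ok v9 && (
  let v10 := scale ⟨10774999203840, 0, 0, 0⟩ x1; ok v10 && (
  let v11 := scale ⟨45768245248, 0, 0, 0⟩ v10; ok v11 && (
  let v12 := cst ⟨183207198720, 0, 0, 0⟩; ok v12 && (
  let v13 := add v11 v12; ok v13 && (
  let v14 := mul v10 v13; ok v14 && (
  let v15 := add v1 v14; ok v15 && (
  let v16 := mul v10 v15; ok v16 && (
  let v17 := add v0 v16; ok v17 && (
  let v18 := mul v10 v17; ok v18 && (
  let v19 := scale ⟨549755813888, 0, 0, 0⟩ v18; ok v19 && (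
  let v20 := add v0 v19; ok v20 && (
  let v21 := mul v17 v20; ok v21 && (
  let v22 := mul v10 v21; ok v22 && (
  let v23 := add v0 v22; ok v23 && (
  let v24 := inv v23; ok v24 && (
  let v25 := mul x2 v24; ok v25 && (
  let v26 := sub v0 v25; ok v26 && (
  let v27 := add v0 v26; ok v27 && (
  let v28 := sub v0 x3; ok v28 && (
  let v29 := mul v25 v28; ok v29 && (
  let v30 := sub v0 v29; ok v30 && (
  let v31 := mul v30 v30; ok v31 && (
  let v32 := inv v26; ok v32 && (
  let v33 := mul v6 v32; ok v33 && (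
  let v34 := mul v33 v30; ok v34 && (
  let v35 := inv v30; ok v35 && (
  let v36 := mul v26 v35; ok v36 && (
  let v37 := mul v36 v3; ok v37 && (
  let v38 := mul v33 v31; ok v38 && (
  let v39 := mul v6 v26; ok v39 && (
  let v40 := scale ⟨2199023255552, 0, 0, 0⟩ v8; ok v40 && (
  let v41 := add v39 v40; ok v41 && (
  let v42 := add v41 v33; ok v42 && (
  let v43 := mul v38 v42; ok v43 && (
  let v44 := add v43 v0; ok v44 && (
  let v45 := mul v6 v6; ok v45 && (
  let v46 := scale ⟨2199023255552, 0, 0, 0⟩ v45; ok v46 && (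
  let v47 := add v46 v0; ok v47 && (
  let v48 := mul v8 v42; ok v48 && (
  let v49 := sub v48 v0; ok v49 && (
  let v50 := log v44; ok v50 && (
  let v51 := scale ⟨549755813888, 0, 0, 0⟩ v50; ok v51 && (
  let v52 := exp v51; ok v52 && (
  let v53 := scale ⟨549755813888, 0, 0, 0⟩ x0; ok v53 && (
  let v54 := mul v53 v50; ok v54 && (
  let v55 := neg v54; ok v55 && (
  let v56 := exp v55; ok v56 && (
  let v57 := mul v8 v38; ok v57 && (
  let v58 := mul v57 v49; ok v58 && (
  let v59 := scale ⟨4398046511104, 0, 0, 0⟩ v58; ok v59 && (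
  let v60 := add v59 v0; ok v60 && (
  let v61 := log v60; ok v61 && (
  let v62 := sub v61 v50; ok v62 && (
  let v63 := mul v53 v62; ok v63 && (
  let v64 := neg v63; ok v64 && (
  let v65 := exp v64; ok v65 && (
  let v66 := mul v26 v6; ok v66 && (
  let v67 := add v8 v66; ok v67 && (
  let v68 := inv v67; ok v68 && (
  let v69 := mul v27 v68; ok v69 && (
  let v70 := mul v25 v33; ok v70 && (
  let v71 := mul v70 v69; ok v71 && (
  let v72 := mul v36 v36; ok v72 && (
  let v73 := sub v0 v31; ok v73 && (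
  let v74 := mul v72 v73; ok v74 && (
  let v75 := mul v34 v34; ok v75 && (
  let v76 := add v8 v38; ok v76 && (
  let v77 := inv v76; ok v77 && (
  let v78 := mul v77 x0; ok v78 && (
  let v79 := mul v78 v78; ok v79 && (
  let v80 := mul v75 v73; ok v80 && (
  let v81 := sub v0 v72; ok v81 && (
  let v82 := mul v80 v81; ok v82 && (
  let v83 := mul v79 v82; ok v83 && (
  let v84 := inv x0; ok v84 && (
  let v85 := cst ⟨45812285440, 0, 0, 0⟩; ok v85 && (
  let v86 := scale ⟨1527119872, 0, 0, 0⟩ v83; ok v86 && (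
  let v87 := sub v85 v86; ok v87 && (
  let v88 := mul v83 v87; ok v88 && (
  let v89 := sub v1 v88; ok v89 && (
  let v90 := mul v83 v89; ok v90 && (
  let v91 := sub v0 v90; ok v91 && (
  let v92 := add v56 v0; ok v92 && (
  let v93 := mul v56 v56; ok v93 && (
  let v94 := add v93 v0; ok v94 && (
  let v95 := mul v56 v91; ok v95 && (
  let v96 := scale ⟨2199023255552, 0, 0, 0⟩ v95; ok v96 && (
  let v97 := add v94 v96; ok v97 && (
  let v98 := inv v92; ok v98 && (
  let v99 := mul v97 v98; ok v99 && (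
  let v100 := add v99 v92; ok v100 && (
  let v101 := mul v56 v71; ok v101 && (
  let v102 := scale ⟨549755813888, 0, 0, 0⟩ v101; ok v102 && (
  let v103 := mul v102 v100; ok v103 && (
  let v104 := sub v97 v103; ok v104 && (
  isPos 4 v97 && (
  isPos 4 v104 && (
  let v105 := inv v104; ok v105 && (
  let v106 := sub v0 v56; ok v106 && (
  let v107 := mul v106 v92; ok v107 && (
  let v108 := mul v107 v105; ok v108 && (
  let v109 := scale ⟨549755813888, 0, 0, 0⟩ v108; ok v109 && (
  let v110 := add v109 v1; ok v110 && (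
  let v111 := inv v110; ok v111 && (
  let v112 := mul v109 v111; ok v112 && (
  let v113 := mul v102 v109; ok v113 && (
  let v114 := add v113 v1; ok v114 && (
  let v115 := mul v114 v100; ok v115 && (
  let v116 := inv v97; ok v116 && (
  let v117 := mul v115 v116; ok v117 && (
  let v118 := mul v71 v112; ok v118 && (
  let v119 := scale ⟨549755813888, 0, 0, 0⟩ v118; ok v119 && (
  let v120 := sub v0 v119; ok v120 && (
  let v121 := sub v0 v118; ok v121 && (
  let v122 := inv v121; ok v122 && (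
  let v123 := mul v120 v122; ok v123 && (
  let v124 := add v118 v0; ok v124 && (
  let v125 := mul v56 v124; ok v125 && (
  let v126 := mul v25 v27; ok v126 && (
  let v127 := add v8 v33; ok v127 && (
  let v128 := mul v26 v8; ok v128 && (
  let v129 := mul v128 v6; ok v129 && (
  let v130 := scale ⟨2199023255552, 0, 0, 0⟩ v129; ok v130 && (
  let v131 := add v47 v130; ok v131 && (
  let v132 := mul v127 v131; ok v132 && (
  let v133 := inv v132; ok v133 && (
  let v134 := mul v126 v133; ok v134 && (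
  let v135 := mul v33 v134; ok v135 && (
  let v136 := inv v44; ok v136 && (
  let v137 := mul v83 v136; ok v137 && (
  let v138 := scale ⟨1527119872, 0, 0, 0⟩ v137; ok v138 && (
  let v139 := sub v85 v138; ok v139 && (
  let v140 := mul v137 v139; ok v140 && (
  let v141 := sub v1 v140; ok v141 && (
  let v142 := mul v137 v141; ok v142 && (
  let v143 := sub v0 v142; ok v143 && (
  let v144 := add v65 v0; ok v144 && (
  let v145 := mul v65 v65; ok v145 && (
  let v146 := add v145 v0; ok v146 && (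
  let v147 := mul v65 v143; ok v147 && (
  let v148 := scale ⟨2199023255552, 0, 0, 0⟩ v147; ok v148 && (
  let v149 := add v146 v148; ok v149 && (
  let v150 := inv v144; ok v150 && (
  let v151 := mul v149 v150; ok v151 && (
  let v152 := add v151 v144; ok v152 && (
  let v153 := mul v65 v135; ok v153 && (
  let v154 := scale ⟨549755813888, 0, 0, 0⟩ v153; ok v154 && (
  let v155 := mul v154 v152; ok v155 && (
  let v156 := sub v149 v155; ok v156 && (
  isPos 4 v149 && (
  isPos 4 v156 && (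
  let v157 := sub v0 v65; ok v157 && (
  let v158 := mul v157 v144; ok v158 && (
  let v159 := inv v156; ok v159 && (
  let v160 := mul v158 v159; ok v160 && (
  let v161 := scale ⟨549755813888, 0, 0, 0⟩ v160; ok v161 && (
  let v162 := add v161 v1; ok v162 && (
  let v163 := inv v162; ok v163 && (
  let v164 := mul v161 v163; ok v164 && (
  let v165 := mul v135 v164; ok v165 && (
  let v166 := add x1 v0; ok v166 && (
  let v167 := inv v166; ok v167 && (
  let v168 := mul x1 v167; ok v168 && (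
  let v169 := scale ⟨2199023255552, 0, 0, 0⟩ v168; ok v169 && (
  let v170 := sub v0 v169; ok v170 && (
  let v171 := sub v0 x1; ok v171 && (
  let v172 := mul v37 v167; ok v172 && (
  let v173 := mul v172 v170; ok v173 && (
  let v174 := add v27 v173; ok v174 && (
  let v175 := mul x0 v6; ok v175 && (
  let v176 := scale ⟨274877906944, 0, 0, 0⟩ x0; ok v176 && (
  let v177 := cst ⟨2199023255552, 0, 0, 0⟩; ok v177 && (
  let v178 := add v176 v177; ok v178 && (
  let v179 := mul v178 v178; ok v179 && (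
  let v180 := mul v175 v175; ok v180 && (
  let v181 := cst ⟨7696581394432, 0, 0, 0⟩; ok v181 && (
  let v182 := cst ⟨10995116277760, 0, 0, 0⟩; ok v182 && (
  let v183 := inv v182; ok v183 && (
  let v184 := mul v181 v183; ok v184 && (
  let v185 := mul v180 v184; ok v185 && (
  let v186 := add v179 v185; ok v186 && (
  let v187 := mul v179 v178; ok v187 && (
  let v188 := inv v186; ok v188 && (
  let v189 := mul v187 v188; ok v189 && (
  let v190 := inv v187; ok v190 && (
  let v191 := mul v186 v190; ok v191 && (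
  let v192 := scale ⟨224412041216, 0, 0, 0⟩ v4; ok v192 && (
  let v193 := inv v21; ok v193 && (
  let v194 := mul v192 v193; ok v194 && (
  let v195 := mul v189 v27; ok v195 && (
  let v196 := mul v195 v194; ok v196 && (
  let v197 := mul v34 v196; ok v197 && (
  let v198 := sub v0 v197; ok v198 && (
  let v199 := inv v198; ok v199 && (
  let v200 := mul v125 v197; ok v200 && (
  let v201 := sub v0 v200; ok v201 && (
  let v202 := inv v201; ok v202 && (
  let v203 := add v175 v177; ok v203 && (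
  let v204 := inv v203; ok v204 && (
  let v205 := mul v25 x0; ok v205 && (
  let v206 := mul v205 v33; ok v206 && (
  let v207 := mul v206 v204; ok v207 && (
  let v208 := scale ⟨549755813888, 0, 0, 0⟩ v207; ok v208 && (
  let v209 := sub v0 v208; ok v209 && (
  let v210 := sub v0 v207; ok v210 && (
  let v211 := inv v210; ok v211 && (
  let v212 := mul v209 v211; ok v212 && (
  let v213 := mul v212 v204; ok v213 && (
  let v214 := mul v213 x0; ok v214 && (
  let v215 := mul v33 v36; ok v215 && (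
  let v216 := mul v215 v214; ok v216 && (
  let v217 := mul v207 v212; ok v217 && (
  isPos 4 v210 && (
  let v218 := mul v217 v84; ok v218 && (
  let v219 := scale ⟨1374389534720, 0, 0, 0⟩ v218; ok v219 && (
  let v220 := sub v1 v219; ok v220 && (
  isPos 4 v220 && (
  let v221 := scale ⟨3092376453120, 0, 0, 0⟩ v218; ok v221 && (
  let v222 := add v221 v177; ok v222 && (
  let v223 := mul v218 v222; ok v223 && (
  let v224 := add v0 v223; ok v224 && (
  let v225 := scale ⟨1546188226560, 0, 0, 0⟩ v218; ok v225 && (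
  let v226 := add v225 v0; ok v226 && (
  let v227 := mul v218 v226; ok v227 && (
  let v228 := add v0 v227; ok v228 && (
  let v229 := mul x1 v36; ok v229 && (
  let v230 := sub v0 v74; ok v230 && (
  let v231 := mul x1 v26; ok v231 && (
  let v232 := scale ⟨2199023255552, 0, 0, 0⟩ v231; ok v232 && (
  let v233 := sub v230 v232; ok v233 && (
  let v234 := mul v229 v229; ok v234 && (
  let v235 := add v233 v234; ok v235 && (
  let v236 := add v235 v0; ok v236 && (
  let v237 := scale ⟨549755813888, 0, 0, 0⟩ v236; ok v237 && (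
  let v238 := scale ⟨549755813888, 0, 0, 0⟩ v38; ok v238 && (
  let v239 := sub v4 v238; ok v239 && (
  let v240 := mul v75 v230; ok v240 && (
  let v241 := mul v240 v3; ok v241 && (
  let v242 := scale ⟨137438953472, 0, 0, 0⟩ v241; ok v242 && (
  let v243 := add v239 v242; ok v243 && (
  let v244 := mul v237 v243; ok v244 && (
  let v245 := mul v118 v123; ok v245 && (
  let v246 := add v125 v0; ok v246 && (
  let v247 := mul v246 v199; ok v247 && (
  let v248 := mul v125 v202; ok v248 && (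
  let v249 := add v247 v248; ok v249 && (
  let v250 := mul v197 v249; ok v250 && (
  let v251 := add v245 v250; ok v251 && (
  let v252 := mul v251 v84; ok v252 && (
  let v253 := mul v246 v197; ok v253 && (
  let v254 := mul v253 v199; ok v254 && (
  let v255 := add v245 v254; ok v255 && (
  let v256 := mul v255 v84; ok v256 && (
  let v257 := scale ⟨223338299392, 0, 0, 0⟩ v256; ok v257 && (
  let v258 := add v1 v257; ok v258 && (
  let v259 := mul v256 v258; ok v259 && (
  let v260 := add v0 v259; ok v260 && (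
  let v261 := scale ⟨893353197568, 0, 0, 0⟩ v252; ok v261 && (
  let v262 := add v0 v261; ok v262 && (
  let v263 := mul v252 v262; ok v263 && (
  let v264 := add v0 v263; ok v264 && (
  let v265 := mul v169 v172; ok v265 && (
  let v266 := mul v265 v224; ok v266 && (
  let v267 := mul v266 v264; ok v267 && (
  let v268 := mul v244 v260; ok v268 && (
  let v269 := add v52 v1; ok v269 && (
  let v270 := mul v267 v269; ok v270 && (
  let v271 := add v268 v270; ok v271 && (
  let v272 := add v52 v0; ok v272 && (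
  let v273 := mul v267 v272; ok v273 && (
  let v274 := mul v228 v272; ok v274 && (
  let v275 := mul v274 v172; ok v275 && (
  let v276 := mul v275 v171; ok v276 && (
  let v277 := mul v34 v174; ok v277 && (
  let v278 := inv v52; ok v278 && (
  let v279 := mul v277 v278; ok v279 && (
  let v280 := scale ⟨549755813888, 0, 0, 0⟩ v279; ok v280 && (
  let v281 := mul v69 v35; ok v281 && (
  let v282 := mul v281 v112; ok v282 && (
  let v283 := mul v282 v123; ok v283 && (
  let v284 := mul v25 v280; ok v284 && (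
  let v285 := mul v271 v283; ok v285 && (
  let v286 := mul v276 v216; ok v286 && (
  let v287 := add v285 v286; ok v287 && (
  let v288 := mul v287 v84; ok v288 && (
  let v289 := add v284 v288; ok v289 && (
  let v290 := mul v271 v246; ok v290 && (
  let v291 := mul v290 v199; ok v291 && (
  let v292 := mul v273 v125; ok v292 && (
  let v293 := mul v292 v202; ok v293 && (
  let v294 := add v291 v293; ok v294 && (
  let v295 := mul v294 v84; ok v295 && (
  let v296 := mul v25 v289; ok v296 && (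
  let v297 := mul v196 v295; ok v297 && (
  let v298 := add v296 v297; ok v298 && (
  let v299 := mul v75 v298; ok v299 && (
  let v300 := mul v299 v278; ok v300 && (
  let v301 := sub v0 v300; ok v301 && (
  let v302 := inv v301; ok v302 && (
  let v303 := mul v298 v302; ok v303 && (
  let v304 := mul v33 v303; ok v304 && (
  let v305 := mul v75 v303; ok v305 && (
  let v306 := mul v305 v278; ok v306 && (
  let v307 := sub v0 v306; ok v307 && (
  let v308 := mul v49 v307; ok v308 && (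
  let v309 := sub v308 v304; ok v309 && (
  let v310 := inv v309; ok v310 && (
  let v311 := mul v304 v310; ok v311 && (
  let v312 := sub v52 v305; ok v312 && (
  let v313 := inv v312; ok v313 && (
  let v314 := mul v311 v164; ok v314 && (
  let v315 := mul x0 v313; ok v315 && (
  let v316 := mul v164 v310; ok v316 && (
  let v317 := inv v38; ok v317 && (
  let v318 := mul v316 v317; ok v318 && (
  let v319 := scale ⟨549755813888, 0, 0, 0⟩ v314; ok v319 && (
  let v320 := sub v0 v319; ok v320 && (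
  let v321 := sub v0 v314; ok v321 && (
  let v322 := inv v321; ok v322 && (
  let v323 := mul v320 v322; ok v323 && (
  let v324 := mul v318 v323; ok v324 && (
  let v325 := add v315 v324; ok v325 && (
  let v326 := mul v325 v305; ok v326 && (
  let v327 := scale ⟨223338299392, 0, 0, 0⟩ v326; ok v327 && (
  let v328 := add v1 v327; ok v328 && (
  let v329 := mul v326 v328; ok v329 && (
  let v330 := add v0 v329; ok v330 && (
  let v331 := mul v325 v330; ok v331 && (
  let v332 := mul v331 v302; ok v332 && (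
  let v333 := mul v332 v84; ok v333 && (
  let v334 := mul v333 v30; ok v334 && (
  let v335 := mul v334 v294; ok v335 && (
  let v336 := mul v333 v191; ok v336 && (
  let v337 := mul v336 v30; ok v337 && (
  let v338 := inv v27; ok v338 && (
  let v339 := mul v337 v338; ok v339 && (
  let v340 := mul x0 v25; ok v340 && (
  let v341 := mul v340 v280; ok v341 && (
  let v342 := add v341 v285; ok v342 && (
  let v343 := add v342 v286; ok v343 && (
  let v344 := mul v339 v343; ok v344 && (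
  let v345 := mul v189 v34; ok v345 && (
  let v346 := mul v345 v27; ok v346 && (
  let v347 := mul v346 v25; ok v347 && (
  let v348 := cst ⟨9895604649984, 0, 0, 0⟩; ok v348 && (
  let v349 := cst ⟨21990232555520, 0, 0, 0⟩; ok v349 && (
  let v350 := inv v349; ok v350 && (
  let v351 := mul v348 v350; ok v351 && (
  let v352 := add v165 v0; ok v352 && (
  let v353 := mul v165 v352; ok v353 && (
  let v354 := add v63 v353; ok v354 && (
  let v355 := mul v311 v354; ok v355 && (
  let v356 := mul v65 v352; ok v356 && (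
  let v357 := scale ⟨687194767360, 0, 0, 0⟩ v355; ok v357 && (
  let v358 := add v0 v357; ok v358 && (
  let v359 := mul v355 v358; ok v359 && (
  let v360 := add v0 v359; ok v360 && (
  let v361 := mul v356 v360; ok v361 && (
  let v362 := add v6 v33; ok v362 && (
  let v363 := mul v166 v362; ok v363 && (
  let v364 := mul v363 v351; ok v364 && (
  let v365 := add v0 v364; ok v365 && (
  let v366 := inv v365; ok v366 && (
  let v367 := mul v361 v366; ok v367 && (
  let v368 := mul v367 v9; ok v368 && (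
  let v369 := mul v34 v303; ok v369 && (
  let v370 := mul v369 v338; ok v370 && (
  let v371 := add v0 v370; ok v371 && (
  let v372 := mul v368 v371; ok v372 && (
  let v373 := mul v372 v313; ok v373 && (
  let v374 := mul v33 v335; ok v374 && (
  let v375 := mul v374 v197; ok v375 && (
  let v376 := mul v33 v347; ok v376 && (
  let v377 := mul v344 v376; ok v377 && (
  let v378 := add v375 v377; ok v378 && (
  let v379 := add v374 v344; ok v379 && (
  let v380 := add v0 v378; ok v380 && (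
  let v381 := mul v373 v380; ok v381 && (
  let v382 := add v379 v381; ok v382 && (
  let v383 := sub v0 v382; ok v383 && (
  let v384 := scale ⟨1073741824, 0, 0, 0⟩ v33; ok v384 && (
  let v385 := sub v383 v384; ok v385 && (
  let v386 := sub v9 v0; ok v386 && (
  let v387 := add v386 v177; ok v387 && (
  let v388 := scale ⟨2199023255552, 0, 0, 0⟩ v351; ok v388 && (
  let v389 := sub v387 v388; ok v389 && (
  let v390 := mul v166 v389; ok v390 && (
  let v391 := mul v386 v388; ok v391 && (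
  let v392 := add v391 v0; ok v392 && (
  let v393 := inv v392; ok v393 && (
  let v394 := mul v390 v393; ok v394 && (
  let v395 := mul v189 v295; ok v395 && (
  let v396 := scale ⟨549755813888, 0, 0, 0⟩ v194; ok v396 && (
  let v397 := add v6 v396; ok v397 && (
  let v398 := mul v395 v397; ok v398 && (
  let v399 := scale ⟨2199023255552, 0, 0, 0⟩ v398; ok v399 && (
  let v400 := add v289 v399; ok v400 && (
  let v401 := scale ⟨2199023255552, 0, 0, 0⟩ v400; ok v401 && (
  let v402 := mul v401 v302; ok v402 && (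
  let v403 := sub v27 v369; ok v403 && (
  let v404 := inv v403; ok v404 && (
  let v405 := mul v402 v404; ok v405 && (
  let v406 := sub v394 v405; ok v406 && (
  isPos 4 v198 && (
  isPos 4 v201 && (
  let v407 := scale ⟨2199023255552, 0, 0, 0⟩ v299; ok v407 && (
  let v408 := sub v52 v407; ok v408 && (
  isPos 4 v408 && (
  isPos 4 v309 && (
  isPos 4 v121 && (
  let v409 := sub v1 v165; ok v409 && (
  isPos 4 v409 && (
  let v410 := scale ⟨687194767360, 0, 0, 0⟩ v0; ok v410 && (
  let v411 := sub v410 v256; ok v411 && (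
  isPos 4 v411 && (
  let v412 := scale ⟨377957122048, 0, 0, 0⟩ v0; ok v412 && (
  let v413 := sub v412 v252; ok v413 && (
  isPos 4 v413 && (
  isPos 4 v403 && (
  let v414 := sub v1 v355; ok v414 && (
  isPos 4 v414 && (
  isPos 4 v321 && (
  let v415 := sub v410 v326; ok v415 && (
  isPos 4 v415 && (
  isPos 4 v406 && (
  isPos 4 v385 && (
  true))))))))))))))))))))))))))))))))))))))))))))))))))))))))))))))))))))))))))))))))))))))))))))))))))))))))))))))))))))))))))))))))))))))))))))))))))))))))))))))))))))))))))))))))))))))))))))))))))))))))))))))))))))))))))))))))))))))))))))))))))))))))))))))))))))))))))))))))))))))))))))))))))))))))))))))))))))))))))))))))))))))))))))))))))))))))))))))))))))))))))))))))))))))))))))))))))))))))))))))))))))))))))))))))))))))))))))))))))))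
  | _ => false

set_option maxRecDepth 1000000 in
theorem chk1_eq (O : Ops) (m : List O.α)
    (h : chk1 O.cst O.add O.sub O.mul O.scale O.neg O.inv O.exp O.log O.ok O.isPos O.isLt m = true) :
    runG O 4 prog1 m = true := by
  match m, h with
  | [x0, x1, x2, x3], h => exact h

def chkB1 : List opsE.α → Bool :=
  chk1 opsE.cst opsE.add opsE.sub opsE.mul opsE.scale opsE.neg opsE.inv opsE.exp opsE.log opsE.ok opsE.isPos opsE.isLt

theorem chkB1_eq (m : List opsE.α) (h : chkB1 m = true) : runG opsE 4 prog1 m = true :=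
  chk1_eq opsE m h

def prog2 : List Op := [
  .const ⟨1099511627776, 0, 0, 0⟩,
  .const ⟨549755813888, 0, 0, 0⟩,
  .mul 3 3,
  .sub 2 0,
  .inv 0,
  .mul 6 0,
  .scale ⟨2199023255552, 0, 0, 0⟩ 0,
  .scale ⟨2199023255552, 0, 0, 0⟩ 2,
  .sub 0 7,
  .add 0 2,
  .scale ⟨10774999203840, 0, 0, 0⟩ 11,
  .scale ⟨45768245248, 0, 0, 0⟩ 0,
  .const ⟨183207198720, 0, 0, 0⟩,
  .add 1 0,
  .mul 3 0,
  .add 13 0,
  .mul 5 0,
  .add 16 0,
  .mul 7 0,
  .scale ⟨549755813888, 0, 0, 0⟩ 0,
  .add 19 0,
  .mul 3 0,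
  .mul 11 0,
  .add 22 0,
  .inv 0,
  .mul 27 0,
  .sub 25 0,
  .add 26 0,
  .sub 27 31,
  .mul 3 0,
  .sub 29 0,
  .mul 0 0,
  .inv 5,
  .mul 26 0,
  .mul 0 3,
  .inv 4,
  .mul 9 0,
  .mul 0 33,
  .mul 4 6,
  .mul 32 12,
  .scale ⟨2199023255552, 0, 0, 0⟩ 31,
  .add 1 0,
  .add 0 8,
  .mul 4 0,
  .add 0 43,
  .mul 38 38,
  .scale ⟨2199023255552, 0, 0, 0⟩ 0,
  .add 0 46,
  .mul 39 5,
  .sub 0 48,
  .log 5,
  .scale ⟨549755813888, 0, 0, 0⟩ 0,
  .exp 0,
  .scale ⟨549755813888, 0, 0, 0⟩ 53,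
  .mul 0 3,
  .neg 0,
  .exp 0,
  .mul 48 18,
  .mul 0 8,
  .scale ⟨4398046511104, 0, 0, 0⟩ 0,
  .add 0 59,
  .log 0,
  .sub 0 11,
  .mul 9 0,
  .neg 0,
  .exp 0,
  .mul 39 59,
  .add 58 0,
  .inv 0,
  .mul 41 0,
  .mul 44 36,
  .mul 0 1,
  .mul 35 35,
  .sub 72 41,
  .mul 1 0,
  .mul 40 40,
  .add 67 37,
  .inv 0,
  .mul 0 78,
  .mul 0 0,
  .mul 4 6,
  .sub 80 8,
  .mul 1 0,
  .mul 3 0,
  .inv 84,
  .const ⟨45812285440, 0, 0, 0⟩,
  .scale ⟨1527119872, 0, 0, 0⟩ 2,
  .sub 1 0,
  .mul 4 0,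
  .sub 87 0,
  .mul 6 0,
  .sub 90 0,
  .add 35 91,
  .mul 36 36,
  .add 0 93,
  .mul 38 3,
  .scale ⟨2199023255552, 0, 0, 0⟩ 0,
  .add 2 0,
  .inv 5,
  .mul 1 0,
  .add 0 7,
  .mul 44 29,
  .scale ⟨549755813888, 0, 0, 0⟩ 0,
  .mul 0 2,
  .sub 6 0,
  .pos 7,
  .pos 0,
  .inv 0,
  .mul 52 63,
  .const ⟨6597069766656, 0, 0, 0⟩,
  .add 64 0,
  .mul 2 0,
  .scale ⟨4398046511104, 0, 0, 0⟩ 66,
  .add 0 3,
  .inv 0,
  .mul 3 0,
  .sub 113 57,
  .mul 0 22,
  .mul 0 10,
  .scale ⟨549755813888, 0, 0, 0⟩ 0,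
  .add 0 116,
  .inv 0,
  .mul 2 0,
  .mul 18 3,
  .add 0 120,
  .mul 0 22,
  .inv 26,
  .mul 1 0,
  .mul 54 5,
  .scale ⟨549755813888, 0, 0, 0⟩ 0,
  .sub 127 0,
  .sub 128 2,
  .inv 0,
  .mul 2 0,
  .add 5 131,
  .mul 76 0,
  .mul 108 106,
  .add 126 101,
  .mul 109 127,
  .mul 0 130,
  .scale ⟨2199023255552, 0, 0, 0⟩ 0,
  .add 91 0,
  .mul 4 0,
  .inv 0,
  .mul 7 0,
  .mul 109 0,
  .inv 99,
  .mul 61 0,
  .scale ⟨1527119872, 0, 0, 0⟩ 0,
  .sub 61 0,
  .mul 2 0,
  .sub 147 0,
  .mul 4 0,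
  .sub 150 0,
  .add 86 151,
  .mul 87 87,
  .add 0 153,
  .mul 89 3,
  .scale ⟨2199023255552, 0, 0, 0⟩ 0,
  .add 2 0,
  .inv 5,
  .mul 1 0,
  .add 0 7,
  .mul 95 17,
  .scale ⟨549755813888, 0, 0, 0⟩ 0,
  .mul 0 2,
  .sub 6 0,
  .pos 7,
  .pos 0,
  .sub 164 99,
  .mul 0 13,
  .inv 2,
  .mul 1 0,
  .scale ⟨549755813888, 0, 0, 0⟩ 0,
  .add 0 168,
  .inv 0,
  .mul 2 0,
  .mul 29 0,
  .add 175 173,
  .inv 0,
  .mul 177 0,
  .scale ⟨2199023255552, 0, 0, 0⟩ 0,
  .sub 177 0,
  .sub 178 180,
  .mul 142 4,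
  .mul 0 2,
  .add 154 0,
  .mul 183 176,
  .scale ⟨274877906944, 0, 0, 0⟩ 184,
  .const ⟨2199023255552, 0, 0, 0⟩,
  .add 1 0,
  .mul 0 0,
  .mul 4 4,
  .const ⟨7696581394432, 0, 0, 0⟩,
  .const ⟨10995116277760, 0, 0, 0⟩,
  .inv 0,
  .mul 2 0,
  .mul 4 0,
  .add 6 0,
  .mul 7 8,
  .inv 1,
  .mul 1 0,
  .inv 2,
  .mul 4 0,
  .scale ⟨224412041216, 0, 0, 0⟩ 195,
  .inv 179,
  .mul 1 0,
  .mul 5 175,
  .mul 0 1,
  .mul 170 0,
  .sub 205 0,
  .inv 0,
  .mul 74 2,
  .sub 208 0,
  .inv 0,
  .add 27 25,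
  .inv 0,
  .mul 187 213,
  .mul 0 180,
  .mul 0 2,
  .scale ⟨549755813888, 0, 0, 0⟩ 0,
  .sub 216 0,
  .sub 217 2,
  .inv 0,
  .mul 2 0,
  .mul 0 8,
  .mul 0 222,
  .mul 189 186,
  .mul 0 1,
  .mul 9 4,
  .pos 7,
  .mul 0 141,
  .scale ⟨1374389534720, 0, 0, 0⟩ 0,
  .sub 226 0,
  .pos 0,
  .scale ⟨3092376453120, 0, 0, 0⟩ 2,
  .add 0 44,
  .mul 4 0,
  .add 231 0,
  .scale ⟨1546188226560, 0, 0, 0⟩ 6,
  .add 0 233,
  .mul 8 0,
  .add 235 0,
  .mul 238 200,
  .sub 237 163,
  .mul 240 212,
  .scale ⟨2199023255552, 0, 0, 0⟩ 0,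
  .sub 2 0,
  .mul 4 4,
  .add 1 0,
  .add 0 243,
  .scale ⟨549755813888, 0, 0, 0⟩ 0,
  .scale ⟨549755813888, 0, 0, 0⟩ 207,
  .sub 242 0,
  .mul 172 9,
  .mul 0 245,
  .scale ⟨137438953472, 0, 0, 0⟩ 0,
  .add 3 0,
  .mul 6 0,
  .mul 126 121,
  .add 120 253,
  .mul 0 47,
  .mul 122 45,
  .add 1 0,
  .mul 52 0,
  .add 5 0,
  .mul 0 175,
  .mul 6 55,
  .mul 0 54,
  .add 9 0,
  .mul 0 179,
  .scale ⟨223338299392, 0, 0, 0⟩ 0,
  .add 264 0,
  .mul 2 0,
  .add 267 0,
  .scale ⟨893353197568, 0, 0, 0⟩ 8,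
  .add 269 0,
  .mul 10 0,
  .add 271 0,
  .mul 95 92,
  .mul 0 41,
  .mul 0 2,
  .mul 23 7,
  .add 224 275,
  .mul 2 0,
  .add 2 0,
  .add 227 279,
  .mul 5 0,
  .mul 45 1,
  .mul 0 102,
  .mul 0 104,
  .mul 250 102,
  .inv 233,
  .mul 1 0,
  .scale ⟨549755813888, 0, 0, 0⟩ 0,
  .mul 219 253,
  .mul 0 169,
  .mul 0 159,
  .mul 266 3,
  .mul 13 1,
  .mul 9 69,
  .add 1 0,
  .mul 0 211,
  .add 4 0,
  .mul 18 43,
  .mul 0 91,
  .mul 18 166,
  .mul 0 90,
  .add 2 0,
  .mul 0 218,
  .mul 278 6,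
  .mul 100 1,
  .add 1 0,
  .mul 231 0,
  .mul 0 21,
  .sub 308 0,
  .inv 0,
  .mul 4 0,
  .mul 278 0,
  .mul 237 1,
  .mul 0 27,
  .sub 314 0,
  .mul 266 0,
  .sub 0 4,
  .inv 0,
  .mul 6 0,
  .sub 319 7,
  .inv 0,
  .inv 283,
  .mul 69 0,
  .add 210 0,
  .mul 0 3,
  .mul 0 12,
  .scale ⟨223338299392, 0, 0, 0⟩ 0,
  .add 326 0,
  .mul 2 0,
  .add 329 0,
  .mul 4 0,
  .mul 0 206,
  .mul 0 199,
  .sub 333 0,
  .mul 9 4,
  .mul 0 25,
  .mul 0 252,
  .inv 3,
  .mul 1 0,
  .mul 0 309,
  .mul 61 133,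
  .mul 60 216,
  .mul 0 209,
  .mul 0 133,
  .add 3 0,
  .mul 5 0,
  .mul 67 277,
  .mul 0 312,
  .mul 0 231,
  .mul 0 218,
  .mul 11 151,
  .mul 0 321,
  .inv 325,
  .mul 1 0,
  .mul 355 229,
  .mul 0 330,
  .mul 0 68,
  .add 0 7,
  .mul 233 74,
  .mul 0 135,
  .add 2 0,
  .mul 7 0,
  .mul 165 328,
  .mul 0 336,
  .mul 0 339,
  .const ⟨9895604649984, 0, 0, 0⟩,
  .const ⟨21990232555520, 0, 0, 0⟩,
  .inv 0,
  .mul 2 0,
  .add 196 369,
  .mul 197 0,
  .add 308 0,
  .mul 53 0,
  .mul 308 3,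
  .scale ⟨687194767360, 0, 0, 0⟩ 1,
  .add 375 0,
  .mul 3 0,
  .add 377 0,
  .mul 4 0,
  .add 373 346,
  .mul 206 0,
  .mul 0 12,
  .add 382 0,
  .inv 0,
  .mul 5 0,
  .mul 0 376,
  .mul 352 75,
  .mul 0 34,
  .add 388 0,
  .mul 3 0,
  .sub 338 77,
  .inv 0,
  .mul 2 0,
  .mul 360 47,
  .mul 0 189,
  .mul 362 30,
  .mul 34 0,
  .add 2 0,
  .add 4 36,
  .add 399 1,
  .mul 7 0,
  .add 2 0,
  .sub 402 0,
  .scale ⟨1073741824, 0, 0, 0⟩ 370,
  .sub 1 0,
  .sub 396 405,
  .add 0 221,
  .scale ⟨2199023255552, 0, 0, 0⟩ 38,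
  .sub 1 0,
  .mul 235 0,
  .mul 4 2,
  .add 0 411,
  .inv 0,
  .mul 3 0,
  .mul 217 111,
  .scale ⟨549755813888, 0, 0, 0⟩ 213,
  .add 410 0,
  .mul 2 0,
  .scale ⟨2199023255552, 0, 0, 0⟩ 0,
  .add 122 0,
  .scale ⟨2199023255552, 0, 0, 0⟩ 0,
  .mul 0 111,
  .sub 395 35,
  .inv 0,
  .mul 2 0,
  .sub 11 0,
  .pos 220,
  .pos 217,
  .scale ⟨2199023255552, 0, 0, 0⟩ 119,
  .sub 375 0,
  .pos 0,
  .pos 111,
  .pos 299,
  .sub 427 255,
  .pos 0,
  .scale ⟨687194767360, 0, 0, 0⟩ 429,
  .sub 0 166,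
  .pos 0,
  .scale ⟨377957122048, 0, 0, 0⟩ 431,
  .sub 0 172,
  .pos 0,
  .pos 10,
  .sub 432 60,
  .pos 0,
  .pos 114,
  .pos 100,
  .sub 4 108,
  .pos 0,
  .pos 9,
  .pos 30]

def chk2 {α : Type} (cst : Z → α) (add sub mul : α → α → α) (scale : Z → α → α)
    (neg inv exp log : α → α) (ok : α → Bool) (isPos : Nat → α → Bool) (isLt : α → Nat → Bool) :
    List α → Bool
  | [x0, x1, x2, x3] =>
  let v0 := cst ⟨1099511627776, 0, 0, 0⟩; ok v0 && (
  let v1 := cst ⟨549755813888, 0, 0, 0⟩; ok v1 && (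
  let v2 := mul x1 x1; ok v2 && (
  let v3 := sub v0 v2; ok v3 && (
  let v4 := inv v3; ok v4 && (
  let v5 := mul x1 v4; ok v5 && (
  let v6 := scale ⟨2199023255552, 0, 0, 0⟩ v5; ok v6 && (
  let v7 := scale ⟨2199023255552, 0, 0, 0⟩ v4; ok v7 && (
  let v8 := sub v7 v0; ok v8 && (
  let v9 := add v8 v6; ok v9 && (
  let v10 := scale ⟨10774999203840, 0, 0, 0⟩ x1; ok v10 && (
  let v11 := scale ⟨45768245248, 0, 0, 0⟩ v10; ok v11 && (
  let v12 := cst ⟨183207198720, 0, 0, 0⟩; ok v12 && (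
  let v13 := add v11 v12; ok v13 && (
  let v14 := mul v10 v13; ok v14 && (
  let v15 := add v1 v14; ok v15 && (
  let v16 := mul v10 v15; ok v16 && (
  let v17 := add v0 v16; ok v17 && (
  let v18 := mul v10 v17; ok v18 && (
  let v19 := scale ⟨549755813888, 0, 0, 0⟩ v18; ok v19 && (
  let v20 := add v0 v19; ok v20 && (
  let v21 := mul v17 v20; ok v21 && (
  let v22 := mul v10 v21; ok v22 && (
  let v23 := add v0 v22; ok v23 && (
  let v24 := inv v23; ok v24 && (
  let v25 := mul x2 v24; ok v25 && (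
  let v26 := sub v0 v25; ok v26 && (
  let v27 := add v0 v26; ok v27 && (
  let v28 := sub v0 x3; ok v28 && (
  let v29 := mul v25 v28; ok v29 && (
  let v30 := sub v0 v29; ok v30 && (
  let v31 := mul v30 v30; ok v31 && (
  let v32 := inv v26; ok v32 && (
  let v33 := mul v6 v32; ok v33 && (
  let v34 := mul v33 v30; ok v34 && (
  let v35 := inv v30; ok v35 && (
  let v36 := mul v26 v35; ok v36 && (
  let v37 := mul v36 v3; ok v37 && (
  let v38 := mul v33 v31; ok v38 && (
  let v39 := mul v6 v26; ok v39 && (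
  let v40 := scale ⟨2199023255552, 0, 0, 0⟩ v8; ok v40 && (
  let v41 := add v39 v40; ok v41 && (
  let v42 := add v41 v33; ok v42 && (
  let v43 := mul v38 v42; ok v43 && (
  let v44 := add v43 v0; ok v44 && (
  let v45 := mul v6 v6; ok v45 && (
  let v46 := scale ⟨2199023255552, 0, 0, 0⟩ v45; ok v46 && (
  let v47 := add v46 v0; ok v47 && (
  let v48 := mul v8 v42; ok v48 && (
  let v49 := sub v48 v0; ok v49 && (
  let v50 := log v44; ok v50 && (
  let v51 := scale ⟨549755813888, 0, 0, 0⟩ v50; ok v51 && (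
  let v52 := exp v51; ok v52 && (
  let v53 := scale ⟨549755813888, 0, 0, 0⟩ x0; ok v53 && (
  let v54 := mul v53 v50; ok v54 && (
  let v55 := neg v54; ok v55 && (
  let v56 := exp v55; ok v56 && (
  let v57 := mul v8 v38; ok v57 && (
  let v58 := mul v57 v49; ok v58 && (
  let v59 := scale ⟨4398046511104, 0, 0, 0⟩ v58; ok v59 && (
  let v60 := add v59 v0; ok v60 && (
  let v61 := log v60; ok v61 && (
  let v62 := sub v61 v50; ok v62 && (
  let v63 := mul v53 v62; ok v63 && (
  let v64 := neg v63; ok v64 && (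
  let v65 := exp v64; ok v65 && (
  let v66 := mul v26 v6; ok v66 && (
  let v67 := add v8 v66; ok v67 && (
  let v68 := inv v67; ok v68 && (
  let v69 := mul v27 v68; ok v69 && (
  let v70 := mul v25 v33; ok v70 && (
  let v71 := mul v70 v69; ok v71 && (
  let v72 := mul v36 v36; ok v72 && (
  let v73 := sub v0 v31; ok v73 && (
  let v74 := mul v72 v73; ok v74 && (
  let v75 := mul v34 v34; ok v75 && (
  let v76 := add v8 v38; ok v76 && (
  let v77 := inv v76; ok v77 && (
  let v78 := mul v77 x0; ok v78 && (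
  let v79 := mul v78 v78; ok v79 && (
  let v80 := mul v75 v73; ok v80 && (
  let v81 := sub v0 v72; ok v81 && (
  let v82 := mul v80 v81; ok v82 && (
  let v83 := mul v79 v82; ok v83 && (
  let v84 := inv x0; ok v84 && (
  let v85 := cst ⟨45812285440, 0, 0, 0⟩; ok v85 && (
  let v86 := scale ⟨1527119872, 0, 0, 0⟩ v83; ok v86 && (
  let v87 := sub v85 v86; ok v87 && (
  let v88 := mul v83 v87; ok v88 && (
  let v89 := sub v1 v88; ok v89 && (
  let v90 := mul v83 v89; ok v90 && (
  let v91 := sub v0 v90; ok v91 && (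
  let v92 := add v56 v0; ok v92 && (
  let v93 := mul v56 v56; ok v93 && (
  let v94 := add v93 v0; ok v94 && (
  let v95 := mul v56 v91; ok v95 && (
  let v96 := scale ⟨2199023255552, 0, 0, 0⟩ v95; ok v96 && (
  let v97 := add v94 v96; ok v97 && (
  let v98 := inv v92; ok v98 && (
  let v99 := mul v97 v98; ok v99 && (
  let v100 := add v99 v92; ok v100 && (
  let v101 := mul v56 v71; ok v101 && (
  let v102 := scale ⟨549755813888, 0, 0, 0⟩ v101; ok v102 && (
  let v103 := mul v102 v100; ok v103 && (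
  let v104 := sub v97 v103; ok v104 && (
  isPos 4 v97 && (
  isPos 4 v104 && (
  let v105 := inv v104; ok v105 && (
  let v106 := mul v53 v42; ok v106 && (
  let v107 := cst ⟨6597069766656, 0, 0, 0⟩; ok v107 && (
  let v108 := add v43 v107; ok v108 && (
  let v109 := mul v106 v108; ok v109 && (
  let v110 := scale ⟨4398046511104, 0, 0, 0⟩ v43; ok v110 && (
  let v111 := add v110 v107; ok v111 && (
  let v112 := inv v111; ok v112 && (
  let v113 := mul v109 v112; ok v113 && (
  let v114 := sub v0 v56; ok v114 && (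
  let v115 := mul v114 v92; ok v115 && (
  let v116 := mul v115 v105; ok v116 && (
  let v117 := scale ⟨549755813888, 0, 0, 0⟩ v116; ok v117 && (
  let v118 := add v117 v1; ok v118 && (
  let v119 := inv v118; ok v119 && (
  let v120 := mul v117 v119; ok v120 && (
  let v121 := mul v102 v117; ok v121 && (
  let v122 := add v121 v1; ok v122 && (
  let v123 := mul v122 v100; ok v123 && (
  let v124 := inv v97; ok v124 && (
  let v125 := mul v123 v124; ok v125 && (
  let v126 := mul v71 v120; ok v126 && (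
  let v127 := scale ⟨549755813888, 0, 0, 0⟩ v126; ok v127 && (
  let v128 := sub v0 v127; ok v128 && (
  let v129 := sub v0 v126; ok v129 && (
  let v130 := inv v129; ok v130 && (
  let v131 := mul v128 v130; ok v131 && (
  let v132 := add v126 v0; ok v132 && (
  let v133 := mul v56 v132; ok v133 && (
  let v134 := mul v25 v27; ok v134 && (
  let v135 := add v8 v33; ok v135 && (
  let v136 := mul v26 v8; ok v136 && (
  let v137 := mul v136 v6; ok v137 && (
  let v138 := scale ⟨2199023255552, 0, 0, 0⟩ v137; ok v138 && (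
  let v139 := add v47 v138; ok v139 && (
  let v140 := mul v135 v139; ok v140 && (
  let v141 := inv v140; ok v141 && (
  let v142 := mul v134 v141; ok v142 && (
  let v143 := mul v33 v142; ok v143 && (
  let v144 := inv v44; ok v144 && (
  let v145 := mul v83 v144; ok v145 && (
  let v146 := scale ⟨1527119872, 0, 0, 0⟩ v145; ok v146 && (
  let v147 := sub v85 v146; ok v147 && (
  let v148 := mul v145 v147; ok v148 && (
  let v149 := sub v1 v148; ok v149 && (
  let v150 := mul v145 v149; ok v150 && (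
  let v151 := sub v0 v150; ok v151 && (
  let v152 := add v65 v0; ok v152 && (
  let v153 := mul v65 v65; ok v153 && (
  let v154 := add v153 v0; ok v154 && (
  let v155 := mul v65 v151; ok v155 && (
  let v156 := scale ⟨2199023255552, 0, 0, 0⟩ v155; ok v156 && (
  let v157 := add v154 v156; ok v157 && (
  let v158 := inv v152; ok v158 && (
  let v159 := mul v157 v158; ok v159 && (
  let v160 := add v159 v152; ok v160 && (
  let v161 := mul v65 v143; ok v161 && (
  let v162 := scale ⟨549755813888, 0, 0, 0⟩ v161; ok v162 && (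
  let v163 := mul v162 v160; ok v163 && (
  let v164 := sub v157 v163; ok v164 && (
  isPos 4 v157 && (
  isPos 4 v164 && (
  let v165 := sub v0 v65; ok v165 && (
  let v166 := mul v165 v152; ok v166 && (
  let v167 := inv v164; ok v167 && (
  let v168 := mul v166 v167; ok v168 && (
  let v169 := scale ⟨549755813888, 0, 0, 0⟩ v168; ok v169 && (
  let v170 := add v169 v1; ok v170 && (
  let v171 := inv v170; ok v171 && (
  let v172 := mul v169 v171; ok v172 && (
  let v173 := mul v143 v172; ok v173 && (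
  let v174 := add x1 v0; ok v174 && (
  let v175 := inv v174; ok v175 && (
  let v176 := mul x1 v175; ok v176 && (
  let v177 := scale ⟨2199023255552, 0, 0, 0⟩ v176; ok v177 && (
  let v178 := sub v0 v177; ok v178 && (
  let v179 := sub v0 x1; ok v179 && (
  let v180 := mul v37 v175; ok v180 && (
  let v181 := mul v180 v178; ok v181 && (
  let v182 := add v27 v181; ok v182 && (
  let v183 := mul x0 v6; ok v183 && (
  let v184 := scale ⟨274877906944, 0, 0, 0⟩ x0; ok v184 && (
  let v185 := cst ⟨2199023255552, 0, 0, 0⟩; ok v185 && (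
  let v186 := add v184 v185; ok v186 && (
  let v187 := mul v186 v186; ok v187 && (
  let v188 := mul v183 v183; ok v188 && (
  let v189 := cst ⟨7696581394432, 0, 0, 0⟩; ok v189 && (
  let v190 := cst ⟨10995116277760, 0, 0, 0⟩; ok v190 && (
  let v191 := inv v190; ok v191 && (
  let v192 := mul v189 v191; ok v192 && (
  let v193 := mul v188 v192; ok v193 && (
  let v194 := add v187 v193; ok v194 && (
  let v195 := mul v187 v186; ok v195 && (
  let v196 := inv v194; ok v196 && (
  let v197 := mul v195 v196; ok v197 && (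
  let v198 := inv v195; ok v198 && (
  let v199 := mul v194 v198; ok v199 && (
  let v200 := scale ⟨224412041216, 0, 0, 0⟩ v4; ok v200 && (
  let v201 := inv v21; ok v201 && (
  let v202 := mul v200 v201; ok v202 && (
  let v203 := mul v197 v27; ok v203 && (
  let v204 := mul v203 v202; ok v204 && (
  let v205 := mul v34 v204; ok v205 && (
  let v206 := sub v0 v205; ok v206 && (
  let v207 := inv v206; ok v207 && (
  let v208 := mul v133 v205; ok v208 && (
  let v209 := sub v0 v208; ok v209 && (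
  let v210 := inv v209; ok v210 && (
  let v211 := add v183 v185; ok v211 && (
  let v212 := inv v211; ok v212 && (
  let v213 := mul v25 x0; ok v213 && (
  let v214 := mul v213 v33; ok v214 && (
  let v215 := mul v214 v212; ok v215 && (
  let v216 := scale ⟨549755813888, 0, 0, 0⟩ v215; ok v216 && (
  let v217 := sub v0 v216; ok v217 && (
  let v218 := sub v0 v215; ok v218 && (
  let v219 := inv v218; ok v219 && (
  let v220 := mul v217 v219; ok v220 && (
  let v221 := mul v220 v212; ok v221 && (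
  let v222 := mul v221 x0; ok v222 && (
  let v223 := mul v33 v36; ok v223 && (
  let v224 := mul v223 v222; ok v224 && (
  let v225 := mul v215 v220; ok v225 && (
  isPos 4 v218 && (
  let v226 := mul v225 v84; ok v226 && (
  let v227 := scale ⟨1374389534720, 0, 0, 0⟩ v226; ok v227 && (
  let v228 := sub v1 v227; ok v228 && (
  isPos 4 v228 && (
  let v229 := scale ⟨3092376453120, 0, 0, 0⟩ v226; ok v229 && (
  let v230 := add v229 v185; ok v230 && (
  let v231 := mul v226 v230; ok v231 && (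
  let v232 := add v0 v231; ok v232 && (
  let v233 := scale ⟨1546188226560, 0, 0, 0⟩ v226; ok v233 && (
  let v234 := add v233 v0; ok v234 && (
  let v235 := mul v226 v234; ok v235 && (
  let v236 := add v0 v235; ok v236 && (
  let v237 := mul x1 v36; ok v237 && (
  let v238 := sub v0 v74; ok v238 && (
  let v239 := mul x1 v26; ok v239 && (
  let v240 := scale ⟨2199023255552, 0, 0, 0⟩ v239; ok v240 && (
  let v241 := sub v238 v240; ok v241 && (
  let v242 := mul v237 v237; ok v242 && (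
  let v243 := add v241 v242; ok v243 && (
  let v244 := add v243 v0; ok v244 && (
  let v245 := scale ⟨549755813888, 0, 0, 0⟩ v244; ok v245 && (
  let v246 := scale ⟨549755813888, 0, 0, 0⟩ v38; ok v246 && (
  let v247 := sub v4 v246; ok v247 && (
  let v248 := mul v75 v238; ok v248 && (
  let v249 := mul v248 v3; ok v249 && (
  let v250 := scale ⟨137438953472, 0, 0, 0⟩ v249; ok v250 && (
  let v251 := add v247 v250; ok v251 && (
  let v252 := mul v245 v251; ok v252 && (
  let v253 := mul v126 v131; ok v253 && (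
  let v254 := add v133 v0; ok v254 && (
  let v255 := mul v254 v207; ok v255 && (
  let v256 := mul v133 v210; ok v256 && (
  let v257 := add v255 v256; ok v257 && (
  let v258 := mul v205 v257; ok v258 && (
  let v259 := add v253 v258; ok v259 && (
  let v260 := mul v259 v84; ok v260 && (
  let v261 := mul v254 v205; ok v261 && (
  let v262 := mul v261 v207; ok v262 && (
  let v263 := add v253 v262; ok v263 && (
  let v264 := mul v263 v84; ok v264 && (
  let v265 := scale ⟨223338299392, 0, 0, 0⟩ v264; ok v265 && (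
  let v266 := add v1 v265; ok v266 && (
  let v267 := mul v264 v266; ok v267 && (
  let v268 := add v0 v267; ok v268 && (
  let v269 := scale ⟨893353197568, 0, 0, 0⟩ v260; ok v269 && (
  let v270 := add v0 v269; ok v270 && (
  let v271 := mul v260 v270; ok v271 && (
  let v272 := add v0 v271; ok v272 && (
  let v273 := mul v177 v180; ok v273 && (
  let v274 := mul v273 v232; ok v274 && (
  let v275 := mul v274 v272; ok v275 && (
  let v276 := mul v252 v268; ok v276 && (
  let v277 := add v52 v1; ok v277 && (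
  let v278 := mul v275 v277; ok v278 && (
  let v279 := add v276 v278; ok v279 && (
  let v280 := add v52 v0; ok v280 && (
  let v281 := mul v275 v280; ok v281 && (
  let v282 := mul v236 v280; ok v282 && (
  let v283 := mul v282 v180; ok v283 && (
  let v284 := mul v283 v179; ok v284 && (
  let v285 := mul v34 v182; ok v285 && (
  let v286 := inv v52; ok v286 && (
  let v287 := mul v285 v286; ok v287 && (
  let v288 := scale ⟨549755813888, 0, 0, 0⟩ v287; ok v288 && (
  let v289 := mul v69 v35; ok v289 && (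
  let v290 := mul v289 v120; ok v290 && (
  let v291 := mul v290 v131; ok v291 && (
  let v292 := mul v25 v288; ok v292 && (
  let v293 := mul v279 v291; ok v293 && (
  let v294 := mul v284 v224; ok v294 && (
  let v295 := add v293 v294; ok v295 && (
  let v296 := mul v295 v84; ok v296 && (
  let v297 := add v292 v296; ok v297 && (
  let v298 := mul v279 v254; ok v298 && (
  let v299 := mul v298 v207; ok v299 && (
  let v300 := mul v281 v133; ok v300 && (
  let v301 := mul v300 v210; ok v301 && (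
  let v302 := add v299 v301; ok v302 && (
  let v303 := mul v302 v84; ok v303 && (
  let v304 := mul v25 v297; ok v304 && (
  let v305 := mul v204 v303; ok v305 && (
  let v306 := add v304 v305; ok v306 && (
  let v307 := mul v75 v306; ok v307 && (
  let v308 := mul v307 v286; ok v308 && (
  let v309 := sub v0 v308; ok v309 && (
  let v310 := inv v309; ok v310 && (
  let v311 := mul v306 v310; ok v311 && (
  let v312 := mul v33 v311; ok v312 && (
  let v313 := mul v75 v311; ok v313 && (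
  let v314 := mul v313 v286; ok v314 && (
  let v315 := sub v0 v314; ok v315 && (
  let v316 := mul v49 v315; ok v316 && (
  let v317 := sub v316 v312; ok v317 && (
  let v318 := inv v317; ok v318 && (
  let v319 := mul v312 v318; ok v319 && (
  let v320 := sub v0 v312; ok v320 && (
  let v321 := inv v320; ok v321 && (
  let v322 := inv v38; ok v322 && (
  let v323 := mul v253 v322; ok v323 && (
  let v324 := add v113 v323; ok v324 && (
  let v325 := mul v324 v321; ok v325 && (
  let v326 := mul v325 v313; ok v326 && (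
  let v327 := scale ⟨223338299392, 0, 0, 0⟩ v326; ok v327 && (
  let v328 := add v1 v327; ok v328 && (
  let v329 := mul v326 v328; ok v329 && (
  let v330 := add v0 v329; ok v330 && (
  let v331 := mul v326 v330; ok v331 && (
  let v332 := mul v331 v125; ok v332 && (
  let v333 := mul v332 v133; ok v333 && (
  let v334 := sub v0 v333; ok v334 && (
  let v335 := mul v325 v330; ok v335 && (
  let v336 := mul v335 v310; ok v336 && (
  let v337 := mul v336 v84; ok v337 && (
  let v338 := inv v334; ok v338 && (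
  let v339 := mul v337 v338; ok v339 && (
  let v340 := mul v339 v30; ok v340 && (
  let v341 := mul v279 v207; ok v341 && (
  let v342 := mul v281 v125; ok v342 && (
  let v343 := mul v342 v133; ok v343 && (
  let v344 := mul v343 v210; ok v344 && (
  let v345 := add v341 v344; ok v345 && (
  let v346 := mul v340 v345; ok v346 && (
  let v347 := mul v279 v69; ok v347 && (
  let v348 := mul v347 v35; ok v348 && (
  let v349 := mul v348 v117; ok v349 && (
  let v350 := mul v349 v131; ok v350 && (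
  let v351 := mul v339 v199; ok v351 && (
  let v352 := mul v351 v30; ok v352 && (
  let v353 := inv v27; ok v353 && (
  let v354 := mul v352 v353; ok v354 && (
  let v355 := mul x0 v125; ok v355 && (
  let v356 := mul v355 v25; ok v356 && (
  let v357 := mul v356 v288; ok v357 && (
  let v358 := add v357 v350; ok v358 && (
  let v359 := mul v125 v284; ok v359 && (
  let v360 := mul v359 v224; ok v360 && (
  let v361 := add v358 v360; ok v361 && (
  let v362 := mul v354 v361; ok v362 && (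
  let v363 := mul v197 v34; ok v363 && (
  let v364 := mul v363 v27; ok v364 && (
  let v365 := mul v364 v25; ok v365 && (
  let v366 := cst ⟨9895604649984, 0, 0, 0⟩; ok v366 && (
  let v367 := cst ⟨21990232555520, 0, 0, 0⟩; ok v367 && (
  let v368 := inv v367; ok v368 && (
  let v369 := mul v366 v368; ok v369 && (
  let v370 := add v173 v0; ok v370 && (
  let v371 := mul v173 v370; ok v371 && (
  let v372 := add v63 v371; ok v372 && (
  let v373 := mul v319 v372; ok v373 && (
  let v374 := mul v65 v370; ok v374 && (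
  let v375 := scale ⟨687194767360, 0, 0, 0⟩ v373; ok v375 && (
  let v376 := add v0 v375; ok v376 && (
  let v377 := mul v373 v376; ok v377 && (
  let v378 := add v0 v377; ok v378 && (
  let v379 := mul v374 v378; ok v379 && (
  let v380 := add v6 v33; ok v380 && (
  let v381 := mul v174 v380; ok v381 && (
  let v382 := mul v381 v369; ok v382 && (
  let v383 := add v0 v382; ok v383 && (
  let v384 := inv v383; ok v384 && (
  let v385 := mul v379 v384; ok v385 && (
  let v386 := mul v385 v9; ok v386 && (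
  let v387 := mul v34 v311; ok v387 && (
  let v388 := mul v387 v353; ok v388 && (
  let v389 := add v0 v388; ok v389 && (
  let v390 := mul v386 v389; ok v390 && (
  let v391 := sub v52 v313; ok v391 && (
  let v392 := inv v391; ok v392 && (
  let v393 := mul v390 v392; ok v393 && (
  let v394 := mul v33 v346; ok v394 && (
  let v395 := mul v394 v205; ok v395 && (
  let v396 := mul v33 v365; ok v396 && (
  let v397 := mul v362 v396; ok v397 && (
  let v398 := add v395 v397; ok v398 && (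
  let v399 := add v394 v362; ok v399 && (
  let v400 := add v0 v398; ok v400 && (
  let v401 := mul v393 v400; ok v401 && (
  let v402 := add v399 v401; ok v402 && (
  let v403 := sub v0 v402; ok v403 && (
  let v404 := scale ⟨1073741824, 0, 0, 0⟩ v33; ok v404 && (
  let v405 := sub v403 v404; ok v405 && (
  let v406 := sub v9 v0; ok v406 && (
  let v407 := add v406 v185; ok v407 && (
  let v408 := scale ⟨2199023255552, 0, 0, 0⟩ v369; ok v408 && (
  let v409 := sub v407 v408; ok v409 && (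
  let v410 := mul v174 v409; ok v410 && (
  let v411 := mul v406 v408; ok v411 && (
  let v412 := add v411 v0; ok v412 && (
  let v413 := inv v412; ok v413 && (
  let v414 := mul v410 v413; ok v414 && (
  let v415 := mul v197 v303; ok v415 && (
  let v416 := scale ⟨549755813888, 0, 0, 0⟩ v202; ok v416 && (
  let v417 := add v6 v416; ok v417 && (
  let v418 := mul v415 v417; ok v418 && (
  let v419 := scale ⟨2199023255552, 0, 0, 0⟩ v418; ok v419 && (
  let v420 := add v297 v419; ok v420 && (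
  let v421 := scale ⟨2199023255552, 0, 0, 0⟩ v420; ok v421 && (
  let v422 := mul v421 v310; ok v422 && (
  let v423 := sub v27 v387; ok v423 && (
  let v424 := inv v423; ok v424 && (
  let v425 := mul v422 v424; ok v425 && (
  let v426 := sub v414 v425; ok v426 && (
  isPos 4 v206 && (
  isPos 4 v209 && (
  let v427 := scale ⟨2199023255552, 0, 0, 0⟩ v307; ok v427 && (
  let v428 := sub v52 v427; ok v428 && (
  isPos 4 v428 && (
  isPos 4 v317 && (
  isPos 4 v129 && (
  let v429 := sub v1 v173; ok v429 && (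
  isPos 4 v429 && (
  let v430 := scale ⟨687194767360, 0, 0, 0⟩ v0; ok v430 && (
  let v431 := sub v430 v264; ok v431 && (
  isPos 4 v431 && (
  let v432 := scale ⟨377957122048, 0, 0, 0⟩ v0; ok v432 && (
  let v433 := sub v432 v260; ok v433 && (
  isPos 4 v433 && (
  isPos 4 v423 && (
  let v434 := sub v1 v373; ok v434 && (
  isPos 4 v434 && (
  isPos 4 v320 && (
  isPos 4 v334 && (
  let v435 := sub v430 v326; ok v435 && (
  isPos 4 v435 && (
  isPos 4 v426 && (
  isPos 4 v405 && (
  true)))))))))))))))))))))))))))))))))))))))))))))))))))))))))))))))))))))))))))))))))))))))))))))))))))))))))))))))))))))))))))))))))))))))))))))))))))))))))))))))))))))))))))))))))))))))))))))))))))))))))))))))))))))))))))))))))))))))))))))))))))))))))))))))))))))))))))))))))))))))))))))))))))))))))))))))))))))))))))))))))))))))))))))))))))))))))))))))))))))))))))))))))))))))))))))))))))))))))))))))))))))))))))))))))))))))))))))))))))))))))))))))))))))))))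
  | _ => false

set_option maxRecDepth 1000000 in
theorem chk2_eq (O : Ops) (m : List O.α)
    (h : chk2 O.cst O.add O.sub O.mul O.scale O.neg O.inv O.exp O.log O.ok O.isPos O.isLt m = true) :
    runG O 4 prog2 m = true := by
  match m, h with
  | [x0, x1, x2, x3], h => exact h

def chkB2 : List opsE.α → Bool :=
  chk2 opsE.cst opsE.add opsE.sub opsE.mul opsE.scale opsE.neg opsE.inv opsE.exp opsE.log opsE.ok opsE.isPos opsE.isLt

theorem chkB2_eq (m : List opsE.α) (h : chkB2 m = true) : runG opsE 4 prog2 m = true :=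
  chk2_eq opsE m h

def prog3 : List Op := [
  .const ⟨1099511627776, 0, 0, 0⟩,
  .const ⟨549755813888, 0, 0, 0⟩,
  .mul 3 3,
  .sub 2 0,
  .inv 0,
  .mul 6 0,
  .scale ⟨2199023255552, 0, 0, 0⟩ 0,
  .scale ⟨2199023255552, 0, 0, 0⟩ 2,
  .sub 0 7,
  .add 0 2,
  .scale ⟨10774999203840, 0, 0, 0⟩ 11,
  .scale ⟨45768245248, 0, 0, 0⟩ 0,
  .const ⟨183207198720, 0, 0, 0⟩,
  .add 1 0,
  .mul 3 0,
  .add 13 0,
  .mul 5 0,
  .add 16 0,
  .mul 7 0,
  .scale ⟨549755813888, 0, 0, 0⟩ 0,
  .add 19 0,
  .mul 3 0,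
  .mul 11 0,
  .add 22 0,
  .inv 0,
  .mul 27 0,
  .sub 25 0,
  .add 26 0,
  .sub 27 31,
  .mul 3 0,
  .sub 29 0,
  .mul 0 0,
  .inv 5,
  .mul 26 0,
  .mul 0 3,
  .inv 4,
  .mul 9 0,
  .mul 0 33,
  .mul 4 6,
  .mul 32 12,
  .scale ⟨2199023255552, 0, 0, 0⟩ 31,
  .add 1 0,
  .add 0 8,
  .mul 4 0,
  .add 0 43,
  .mul 38 38,
  .scale ⟨2199023255552, 0, 0, 0⟩ 0,
  .add 0 46,
  .mul 39 5,
  .sub 0 48,
  .log 5,
  .scale ⟨549755813888, 0, 0, 0⟩ 0,
  .exp 0,
  .scale ⟨549755813888, 0, 0, 0⟩ 53,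
  .mul 0 3,
  .neg 0,
  .exp 0,
  .mul 48 18,
  .mul 0 8,
  .scale ⟨4398046511104, 0, 0, 0⟩ 0,
  .add 0 59,
  .log 0,
  .sub 0 11,
  .mul 9 0,
  .neg 0,
  .exp 0,
  .mul 39 59,
  .add 58 0,
  .inv 0,
  .mul 41 0,
  .mul 44 36,
  .mul 0 1,
  .mul 35 35,
  .sub 72 41,
  .mul 1 0,
  .mul 40 40,
  .add 67 37,
  .inv 0,
  .mul 0 78,
  .mul 0 0,
  .mul 4 6,
  .sub 80 8,
  .mul 1 0,
  .mul 3 0,
  .inv 84,
  .const ⟨45812285440, 0, 0, 0⟩,
  .scale ⟨1527119872, 0, 0, 0⟩ 2,
  .sub 1 0,
  .mul 4 0,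
  .sub 87 0,
  .mul 6 0,
  .sub 90 0,
  .add 35 91,
  .mul 36 36,
  .add 0 93,
  .mul 38 3,
  .scale ⟨2199023255552, 0, 0, 0⟩ 0,
  .add 2 0,
  .inv 5,
  .mul 1 0,
  .add 0 7,
  .mul 44 29,
  .scale ⟨549755813888, 0, 0, 0⟩ 0,
  .mul 0 2,
  .sub 6 0,
  .pos 7,
  .pos 0,
  .inv 0,
  .mul 52 63,
  .const ⟨6597069766656, 0, 0, 0⟩,
  .add 64 0,
  .mul 2 0,
  .scale ⟨4398046511104, 0, 0, 0⟩ 66,
  .add 0 3,
  .inv 0,
  .mul 3 0,
  .sub 113 57,
  .mul 0 22,
  .mul 0 10,
  .scale ⟨549755813888, 0, 0, 0⟩ 0,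
  .add 0 116,
  .inv 0,
  .mul 2 0,
  .mul 18 3,
  .add 0 120,
  .mul 0 22,
  .inv 26,
  .mul 1 0,
  .mul 54 5,
  .scale ⟨549755813888, 0, 0, 0⟩ 0,
  .sub 127 0,
  .sub 128 2,
  .inv 0,
  .mul 2 0,
  .add 5 131,
  .mul 76 0,
  .mul 108 106,
  .add 126 101,
  .mul 109 127,
  .mul 0 130,
  .scale ⟨2199023255552, 0, 0, 0⟩ 0,
  .add 91 0,
  .mul 4 0,
  .inv 0,
  .mul 7 0,
  .mul 109 0,
  .inv 99,
  .mul 61 0,
  .scale ⟨1527119872, 0, 0, 0⟩ 0,
  .sub 61 0,
  .mul 2 0,
  .sub 147 0,
  .mul 4 0,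
  .sub 150 0,
  .add 86 151,
  .mul 87 87,
  .add 0 153,
  .mul 89 3,
  .scale ⟨2199023255552, 0, 0, 0⟩ 0,
  .add 2 0,
  .inv 5,
  .mul 1 0,
  .add 0 7,
  .mul 95 17,
  .scale ⟨549755813888, 0, 0, 0⟩ 0,
  .mul 0 2,
  .sub 6 0,
  .pos 7,
  .pos 0,
  .sub 164 99,
  .mul 0 13,
  .inv 2,
  .mul 1 0,
  .scale ⟨549755813888, 0, 0, 0⟩ 0,
  .add 0 168,
  .inv 0,
  .mul 2 0,
  .mul 29 0,
  .add 175 173,
  .inv 0,
  .mul 177 0,
  .scale ⟨2199023255552, 0, 0, 0⟩ 0,
  .sub 177 0,
  .sub 178 180,
  .mul 142 4,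
  .mul 0 2,
  .add 154 0,
  .mul 183 176,
  .scale ⟨274877906944, 0, 0, 0⟩ 184,
  .const ⟨2199023255552, 0, 0, 0⟩,
  .add 1 0,
  .mul 0 0,
  .mul 4 4,
  .const ⟨7696581394432, 0, 0, 0⟩,
  .const ⟨10995116277760, 0, 0, 0⟩,
  .inv 0,
  .mul 2 0,
  .mul 4 0,
  .add 6 0,
  .mul 7 8,
  .inv 1,
  .mul 1 0,
  .inv 2,
  .mul 4 0,
  .scale ⟨224412041216, 0, 0, 0⟩ 195,
  .inv 179,
  .mul 1 0,
  .mul 5 175,
  .mul 0 1,
  .mul 170 0,
  .sub 205 0,
  .inv 0,
  .mul 74 2,
  .sub 208 0,
  .inv 0,
  .mul 185 90,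
  .mul 0 179,
  .scale ⟨549755813888, 0, 0, 0⟩ 0,
  .sub 213 0,
  .sub 214 2,
  .inv 0,
  .mul 2 0,
  .mul 97 0,
  .mul 0 183,
  .mul 7 2,
  .pos 5,
  .mul 0 136,
  .scale ⟨1374389534720, 0, 0, 0⟩ 0,
  .sub 221 0,
  .pos 0,
  .scale ⟨3092376453120, 0, 0, 0⟩ 2,
  .add 0 39,
  .mul 4 0,
  .add 226 0,
  .scale ⟨1546188226560, 0, 0, 0⟩ 6,
  .add 0 228,
  .mul 8 0,
  .add 230 0,
  .mul 233 195,
  .sub 232 158,
  .mul 235 207,
  .scale ⟨2199023255552, 0, 0, 0⟩ 0,
  .sub 2 0,
  .mul 4 4,
  .add 1 0,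
  .add 0 238,
  .scale ⟨549755813888, 0, 0, 0⟩ 0,
  .scale ⟨549755813888, 0, 0, 0⟩ 202,
  .sub 237 0,
  .mul 167 9,
  .mul 0 240,
  .scale ⟨137438953472, 0, 0, 0⟩ 0,
  .add 3 0,
  .mul 6 0,
  .mul 121 116,
  .add 115 248,
  .mul 0 42,
  .mul 117 40,
  .add 1 0,
  .mul 47 0,
  .add 5 0,
  .mul 0 170,
  .mul 6 50,
  .mul 0 49,
  .add 9 0,
  .mul 0 174,
  .scale ⟨223338299392, 0, 0, 0⟩ 0,
  .add 259 0,
  .mul 2 0,
  .add 262 0,
  .scale ⟨893353197568, 0, 0, 0⟩ 8,
  .add 264 0,
  .mul 10 0,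
  .add 266 0,
  .mul 90 87,
  .mul 0 41,
  .mul 0 2,
  .mul 23 7,
  .add 219 270,
  .mul 2 0,
  .add 2 0,
  .add 222 274,
  .mul 5 0,
  .mul 45 1,
  .mul 0 97,
  .mul 0 99,
  .mul 245 97,
  .inv 228,
  .mul 1 0,
  .scale ⟨549755813888, 0, 0, 0⟩ 0,
  .mul 214 248,
  .mul 0 164,
  .mul 0 154,
  .mul 261 3,
  .mul 13 1,
  .mul 9 69,
  .add 1 0,
  .mul 0 206,
  .add 4 0,
  .mul 18 43,
  .mul 0 86,
  .mul 18 161,
  .mul 0 85,
  .add 2 0,
  .mul 0 213,
  .mul 273 6,
  .mul 95 1,
  .add 1 0,
  .mul 226 0,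
  .mul 0 21,
  .sub 303 0,
  .inv 0,
  .mul 4 0,
  .mul 273 0,
  .mul 232 1,
  .mul 0 27,
  .sub 309 0,
  .mul 261 0,
  .sub 0 4,
  .inv 0,
  .mul 6 0,
  .sub 314 7,
  .inv 0,
  .inv 278,
  .mul 69 0,
  .add 205 0,
  .mul 0 3,
  .mul 0 12,
  .scale ⟨223338299392, 0, 0, 0⟩ 0,
  .add 321 0,
  .mul 2 0,
  .add 324 0,
  .mul 4 0,
  .mul 0 201,
  .mul 0 194,
  .sub 328 0,
  .mul 9 4,
  .mul 0 25,
  .mul 0 247,
  .inv 3,
  .mul 1 0,
  .mul 0 304,
  .mul 61 128,
  .mul 60 211,
  .mul 0 204,
  .mul 0 128,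
  .add 3 0,
  .mul 5 0,
  .mul 67 272,
  .mul 0 307,
  .mul 0 226,
  .mul 0 213,
  .mul 11 146,
  .mul 0 316,
  .inv 320,
  .mul 1 0,
  .mul 350 224,
  .mul 0 325,
  .mul 0 68,
  .add 0 7,
  .mul 228 74,
  .mul 0 135,
  .add 2 0,
  .mul 7 0,
  .mul 160 323,
  .mul 0 331,
  .mul 0 334,
  .const ⟨9895604649984, 0, 0, 0⟩,
  .const ⟨21990232555520, 0, 0, 0⟩,
  .inv 0,
  .mul 2 0,
  .add 191 364,
  .mul 192 0,
  .add 303 0,
  .mul 53 0,
  .mul 303 3,
  .scale ⟨687194767360, 0, 0, 0⟩ 1,
  .add 370 0,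
  .mul 3 0,
  .add 372 0,
  .mul 4 0,
  .add 368 341,
  .mul 201 0,
  .mul 0 12,
  .add 377 0,
  .inv 0,
  .mul 5 0,
  .mul 0 371,
  .mul 347 75,
  .mul 0 34,
  .add 383 0,
  .mul 3 0,
  .sub 333 77,
  .inv 0,
  .mul 2 0,
  .mul 355 47,
  .mul 0 184,
  .mul 357 30,
  .mul 34 0,
  .add 2 0,
  .add 4 36,
  .add 394 1,
  .mul 7 0,
  .add 2 0,
  .sub 397 0,
  .scale ⟨1073741824, 0, 0, 0⟩ 365,
  .sub 1 0,
  .sub 391 400,
  .add 0 216,
  .scale ⟨2199023255552, 0, 0, 0⟩ 38,
  .sub 1 0,
  .mul 230 0,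
  .mul 4 2,
  .add 0 406,
  .inv 0,
  .mul 3 0,
  .mul 212 111,
  .scale ⟨549755813888, 0, 0, 0⟩ 208,
  .add 405 0,
  .mul 2 0,
  .scale ⟨2199023255552, 0, 0, 0⟩ 0,
  .add 122 0,
  .scale ⟨2199023255552, 0, 0, 0⟩ 0,
  .mul 0 111,
  .sub 390 35,
  .inv 0,
  .mul 2 0,
  .sub 11 0,
  .pos 215,
  .pos 212,
  .scale ⟨2199023255552, 0, 0, 0⟩ 119,
  .sub 370 0,
  .pos 0,
  .pos 111,
  .pos 294,
  .sub 422 250,
  .pos 0,
  .scale ⟨687194767360, 0, 0, 0⟩ 424,
  .sub 0 166,
  .pos 0,
  .scale ⟨377957122048, 0, 0, 0⟩ 426,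
  .sub 0 172,
  .pos 0,
  .pos 10,
  .sub 427 60,
  .pos 0,
  .pos 114,
  .pos 100,
  .sub 4 108,
  .pos 0,
  .pos 9,
  .pos 30]

def chk3 {α : Type} (cst : Z → α) (add sub mul : α → α → α) (scale : Z → α → α)
    (neg inv exp log : α → α) (ok : α → Bool) (isPos : Nat → α → Bool) (isLt : α → Nat → Bool) :
    List α → Bool
  | [x0, x1, x2, x3] =>
  let v0 := cst ⟨1099511627776, 0, 0, 0⟩; ok v0 && (
  let v1 := cst ⟨549755813888, 0, 0, 0⟩; ok v1 && (
  let v2 := mul x1 x1; ok v2 && (
  let v3 := sub v0 v2; ok v3 && (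
  let v4 := inv v3; ok v4 && (
  let v5 := mul x1 v4; ok v5 && (
  let v6 := scale ⟨2199023255552, 0, 0, 0⟩ v5; ok v6 && (
  let v7 := scale ⟨2199023255552, 0, 0, 0⟩ v4; ok v7 && (
  let v8 := sub v7 v0; ok v8 && (
  let v9 := add v8 v6; ok v9 && (
  let v10 := scale ⟨10774999203840, 0, 0, 0⟩ x1; ok v10 && (
  let v11 := scale ⟨45768245248, 0, 0, 0⟩ v10; ok v11 && (
  let v12 := cst ⟨183207198720, 0, 0, 0⟩; ok v12 && (
  let v13 := add v11 v12; ok v13 && (
  let v14 := mul v10 v13; ok v14 && (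
  let v15 := add v1 v14; ok v15 && (
  let v16 := mul v10 v15; ok v16 && (
  let v17 := add v0 v16; ok v17 && (
  let v18 := mul v10 v17; ok v18 && (
  let v19 := scale ⟨549755813888, 0, 0, 0⟩ v18; ok v19 && (
  let v20 := add v0 v19; ok v20 && (
  let v21 := mul v17 v20; ok v21 && (
  let v22 := mul v10 v21; ok v22 && (
  let v23 := add v0 v22; ok v23 && (
  let v24 := inv v23; ok v24 && (
  let v25 := mul x2 v24; ok v25 && (
  let v26 := sub v0 v25; ok v26 && (
  let v27 := add v0 v26; ok v27 && (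
  let v28 := sub v0 x3; ok v28 && (
  let v29 := mul v25 v28; ok v29 && (
  let v30 := sub v0 v29; ok v30 && (
  let v31 := mul v30 v30; ok v31 && (
  let v32 := inv v26; ok v32 && (
  let v33 := mul v6 v32; ok v33 && (
  let v34 := mul v33 v30; ok v34 && (
  let v35 := inv v30; ok v35 && (
  let v36 := mul v26 v35; ok v36 && (
  let v37 := mul v36 v3; ok v37 && (
  let v38 := mul v33 v31; ok v38 && (
  let v39 := mul v6 v26; ok v39 && (
  let v40 := scale ⟨2199023255552, 0, 0, 0⟩ v8; ok v40 && (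
  let v41 := add v39 v40; ok v41 && (
  let v42 := add v41 v33; ok v42 && (
  let v43 := mul v38 v42; ok v43 && (
  let v44 := add v43 v0; ok v44 && (
  let v45 := mul v6 v6; ok v45 && (
  let v46 := scale ⟨2199023255552, 0, 0, 0⟩ v45; ok v46 && (
  let v47 := add v46 v0; ok v47 && (
  let v48 := mul v8 v42; ok v48 && (
  let v49 := sub v48 v0; ok v49 && (
  let v50 := log v44; ok v50 && (
  let v51 := scale ⟨549755813888, 0, 0, 0⟩ v50; ok v51 && (
  let v52 := exp v51; ok v52 && (
  let v53 := scale ⟨549755813888, 0, 0, 0⟩ x0; ok v53 && (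
  let v54 := mul v53 v50; ok v54 && (
  let v55 := neg v54; ok v55 && (
  let v56 := exp v55; ok v56 && (
  let v57 := mul v8 v38; ok v57 && (
  let v58 := mul v57 v49; ok v58 && (
  let v59 := scale ⟨4398046511104, 0, 0, 0⟩ v58; ok v59 && (
  let v60 := add v59 v0; ok v60 && (
  let v61 := log v60; ok v61 && (
  let v62 := sub v61 v50; ok v62 && (
  let v63 := mul v53 v62; ok v63 && (
  let v64 := neg v63; ok v64 && (
  let v65 := exp v64; ok v65 && (
  let v66 := mul v26 v6; ok v66 && (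
  let v67 := add v8 v66; ok v67 && (
  let v68 := inv v67; ok v68 && (
  let v69 := mul v27 v68; ok v69 && (
  let v70 := mul v25 v33; ok v70 && (
  let v71 := mul v70 v69; ok v71 && (
  let v72 := mul v36 v36; ok v72 && (
  let v73 := sub v0 v31; ok v73 && (
  let v74 := mul v72 v73; ok v74 && (
  let v75 := mul v34 v34; ok v75 && (
  let v76 := add v8 v38; ok v76 && (
  let v77 := inv v76; ok v77 && (
  let v78 := mul v77 x0; ok v78 && (
  let v79 := mul v78 v78; ok v79 && (
  let v80 := mul v75 v73; ok v80 && (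
  let v81 := sub v0 v72; ok v81 && (
  let v82 := mul v80 v81; ok v82 && (
  let v83 := mul v79 v82; ok v83 && (
  let v84 := inv x0; ok v84 && (
  let v85 := cst ⟨45812285440, 0, 0, 0⟩; ok v85 && (
  let v86 := scale ⟨1527119872, 0, 0, 0⟩ v83; ok v86 && (
  let v87 := sub v85 v86; ok v87 && (
  let v88 := mul v83 v87; ok v88 && (
  let v89 := sub v1 v88; ok v89 && (
  let v90 := mul v83 v89; ok v90 && (
  let v91 := sub v0 v90; ok v91 && (
  let v92 := add v56 v0; ok v92 && (
  let v93 := mul v56 v56; ok v93 && (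
  let v94 := add v93 v0; ok v94 && (
  let v95 := mul v56 v91; ok v95 && (
  let v96 := scale ⟨2199023255552, 0, 0, 0⟩ v95; ok v96 && (
  let v97 := add v94 v96; ok v97 && (
  let v98 := inv v92; ok v98 && (
  let v99 := mul v97 v98; ok v99 && (
  let v100 := add v99 v92; ok v100 && (
  let v101 := mul v56 v71; ok v101 && (
  let v102 := scale ⟨549755813888, 0, 0, 0⟩ v101; ok v102 && (
  let v103 := mul v102 v100; ok v103 && (
  let v104 := sub v97 v103; ok v104 && (
  isPos 4 v97 && (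
  isPos 4 v104 && (
  let v105 := inv v104; ok v105 && (
  let v106 := mul v53 v42; ok v106 && (
  let v107 := cst ⟨6597069766656, 0, 0, 0⟩; ok v107 && (
  let v108 := add v43 v107; ok v108 && (
  let v109 := mul v106 v108; ok v109 && (
  let v110 := scale ⟨4398046511104, 0, 0, 0⟩ v43; ok v110 && (
  let v111 := add v110 v107; ok v111 && (
  let v112 := inv v111; ok v112 && (
  let v113 := mul v109 v112; ok v113 && (
  let v114 := sub v0 v56; ok v114 && (
  let v115 := mul v114 v92; ok v115 && (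
  let v116 := mul v115 v105; ok v116 && (
  let v117 := scale ⟨549755813888, 0, 0, 0⟩ v116; ok v117 && (
  let v118 := add v117 v1; ok v118 && (
  let v119 := inv v118; ok v119 && (
  let v120 := mul v117 v119; ok v120 && (
  let v121 := mul v102 v117; ok v121 && (
  let v122 := add v121 v1; ok v122 && (
  let v123 := mul v122 v100; ok v123 && (
  let v124 := inv v97; ok v124 && (
  let v125 := mul v123 v124; ok v125 && (
  let v126 := mul v71 v120; ok v126 && (
  let v127 := scale ⟨549755813888, 0, 0, 0⟩ v126; ok v127 && (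
  let v128 := sub v0 v127; ok v128 && (
  let v129 := sub v0 v126; ok v129 && (
  let v130 := inv v129; ok v130 && (
  let v131 := mul v128 v130; ok v131 && (
  let v132 := add v126 v0; ok v132 && (
  let v133 := mul v56 v132; ok v133 && (
  let v134 := mul v25 v27; ok v134 && (
  let v135 := add v8 v33; ok v135 && (
  let v136 := mul v26 v8; ok v136 && (
  let v137 := mul v136 v6; ok v137 && (
  let v138 := scale ⟨2199023255552, 0, 0, 0⟩ v137; ok v138 && (
  let v139 := add v47 v138; ok v139 && (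
  let v140 := mul v135 v139; ok v140 && (
  let v141 := inv v140; ok v141 && (
  let v142 := mul v134 v141; ok v142 && (
  let v143 := mul v33 v142; ok v143 && (
  let v144 := inv v44; ok v144 && (
  let v145 := mul v83 v144; ok v145 && (
  let v146 := scale ⟨1527119872, 0, 0, 0⟩ v145; ok v146 && (
  let v147 := sub v85 v146; ok v147 && (
  let v148 := mul v145 v147; ok v148 && (
  let v149 := sub v1 v148; ok v149 && (
  let v150 := mul v145 v149; ok v150 && (
  let v151 := sub v0 v150; ok v151 && (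
  let v152 := add v65 v0; ok v152 && (
  let v153 := mul v65 v65; ok v153 && (
  let v154 := add v153 v0; ok v154 && (
  let v155 := mul v65 v151; ok v155 && (
  let v156 := scale ⟨2199023255552, 0, 0, 0⟩ v155; ok v156 && (
  let v157 := add v154 v156; ok v157 && (
  let v158 := inv v152; ok v158 && (
  let v159 := mul v157 v158; ok v159 && (
  let v160 := add v159 v152; ok v160 && (
  let v161 := mul v65 v143; ok v161 && (
  let v162 := scale ⟨549755813888, 0, 0, 0⟩ v161; ok v162 && (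
  let v163 := mul v162 v160; ok v163 && (
  let v164 := sub v157 v163; ok v164 && (
  isPos 4 v157 && (
  isPos 4 v164 && (
  let v165 := sub v0 v65; ok v165 && (
  let v166 := mul v165 v152; ok v166 && (
  let v167 := inv v164; ok v167 && (
  let v168 := mul v166 v167; ok v168 && (
  let v169 := scale ⟨549755813888, 0, 0, 0⟩ v168; ok v169 && (
  let v170 := add v169 v1; ok v170 && (
  let v171 := inv v170; ok v171 && (
  let v172 := mul v169 v171; ok v172 && (
  let v173 := mul v143 v172; ok v173 && (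
  let v174 := add x1 v0; ok v174 && (
  let v175 := inv v174; ok v175 && (
  let v176 := mul x1 v175; ok v176 && (
  let v177 := scale ⟨2199023255552, 0, 0, 0⟩ v176; ok v177 && (
  let v178 := sub v0 v177; ok v178 && (
  let v179 := sub v0 x1; ok v179 && (
  let v180 := mul v37 v175; ok v180 && (
  let v181 := mul v180 v178; ok v181 && (
  let v182 := add v27 v181; ok v182 && (
  let v183 := mul x0 v6; ok v183 && (
  let v184 := scale ⟨274877906944, 0, 0, 0⟩ x0; ok v184 && (
  let v185 := cst ⟨2199023255552, 0, 0, 0⟩; ok v185 && (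
  let v186 := add v184 v185; ok v186 && (
  let v187 := mul v186 v186; ok v187 && (
  let v188 := mul v183 v183; ok v188 && (
  let v189 := cst ⟨7696581394432, 0, 0, 0⟩; ok v189 && (
  let v190 := cst ⟨10995116277760, 0, 0, 0⟩; ok v190 && (
  let v191 := inv v190; ok v191 && (
  let v192 := mul v189 v191; ok v192 && (
  let v193 := mul v188 v192; ok v193 && (
  let v194 := add v187 v193; ok v194 && (
  let v195 := mul v187 v186; ok v195 && (
  let v196 := inv v194; ok v196 && (
  let v197 := mul v195 v196; ok v197 && (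
  let v198 := inv v195; ok v198 && (
  let v199 := mul v194 v198; ok v199 && (
  let v200 := scale ⟨224412041216, 0, 0, 0⟩ v4; ok v200 && (
  let v201 := inv v21; ok v201 && (
  let v202 := mul v200 v201; ok v202 && (
  let v203 := mul v197 v27; ok v203 && (
  let v204 := mul v203 v202; ok v204 && (
  let v205 := mul v34 v204; ok v205 && (
  let v206 := sub v0 v205; ok v206 && (
  let v207 := inv v206; ok v207 && (
  let v208 := mul v133 v205; ok v208 && (
  let v209 := sub v0 v208; ok v209 && (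
  let v210 := inv v209; ok v210 && (
  let v211 := mul v25 v120; ok v211 && (
  let v212 := mul v211 v32; ok v212 && (
  let v213 := scale ⟨549755813888, 0, 0, 0⟩ v212; ok v213 && (
  let v214 := sub v0 v213; ok v214 && (
  let v215 := sub v0 v212; ok v215 && (
  let v216 := inv v215; ok v216 && (
  let v217 := mul v214 v216; ok v217 && (
  let v218 := mul v120 v217; ok v218 && (
  let v219 := mul v218 v35; ok v219 && (
  let v220 := mul v212 v217; ok v220 && (
  isPos 4 v215 && (
  let v221 := mul v220 v84; ok v221 && (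
  let v222 := scale ⟨1374389534720, 0, 0, 0⟩ v221; ok v222 && (
  let v223 := sub v1 v222; ok v223 && (
  isPos 4 v223 && (
  let v224 := scale ⟨3092376453120, 0, 0, 0⟩ v221; ok v224 && (
  let v225 := add v224 v185; ok v225 && (
  let v226 := mul v221 v225; ok v226 && (
  let v227 := add v0 v226; ok v227 && (
  let v228 := scale ⟨1546188226560, 0, 0, 0⟩ v221; ok v228 && (
  let v229 := add v228 v0; ok v229 && (
  let v230 := mul v221 v229; ok v230 && (
  let v231 := add v0 v230; ok v231 && (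
  let v232 := mul x1 v36; ok v232 && (
  let v233 := sub v0 v74; ok v233 && (
  let v234 := mul x1 v26; ok v234 && (
  let v235 := scale ⟨2199023255552, 0, 0, 0⟩ v234; ok v235 && (
  let v236 := sub v233 v235; ok v236 && (
  let v237 := mul v232 v232; ok v237 && (
  let v238 := add v236 v237; ok v238 && (
  let v239 := add v238 v0; ok v239 && (
  let v240 := scale ⟨549755813888, 0, 0, 0⟩ v239; ok v240 && (
  let v241 := scale ⟨549755813888, 0, 0, 0⟩ v38; ok v241 && (
  let v242 := sub v4 v241; ok v242 && (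
  let v243 := mul v75 v233; ok v243 && (
  let v244 := mul v243 v3; ok v244 && (
  let v245 := scale ⟨137438953472, 0, 0, 0⟩ v244; ok v245 && (
  let v246 := add v242 v245; ok v246 && (
  let v247 := mul v240 v246; ok v247 && (
  let v248 := mul v126 v131; ok v248 && (
  let v249 := add v133 v0; ok v249 && (
  let v250 := mul v249 v207; ok v250 && (
  let v251 := mul v133 v210; ok v251 && (
  let v252 := add v250 v251; ok v252 && (
  let v253 := mul v205 v252; ok v253 && (
  let v254 := add v248 v253; ok v254 && (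
  let v255 := mul v254 v84; ok v255 && (
  let v256 := mul v249 v205; ok v256 && (
  let v257 := mul v256 v207; ok v257 && (
  let v258 := add v248 v257; ok v258 && (
  let v259 := mul v258 v84; ok v259 && (
  let v260 := scale ⟨223338299392, 0, 0, 0⟩ v259; ok v260 && (
  let v261 := add v1 v260; ok v261 && (
  let v262 := mul v259 v261; ok v262 && (
  let v263 := add v0 v262; ok v263 && (
  let v264 := scale ⟨893353197568, 0, 0, 0⟩ v255; ok v264 && (
  let v265 := add v0 v264; ok v265 && (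
  let v266 := mul v255 v265; ok v266 && (
  let v267 := add v0 v266; ok v267 && (
  let v268 := mul v177 v180; ok v268 && (
  let v269 := mul v268 v227; ok v269 && (
  let v270 := mul v269 v267; ok v270 && (
  let v271 := mul v247 v263; ok v271 && (
  let v272 := add v52 v1; ok v272 && (
  let v273 := mul v270 v272; ok v273 && (
  let v274 := add v271 v273; ok v274 && (
  let v275 := add v52 v0; ok v275 && (
  let v276 := mul v270 v275; ok v276 && (
  let v277 := mul v231 v275; ok v277 && (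
  let v278 := mul v277 v180; ok v278 && (
  let v279 := mul v278 v179; ok v279 && (
  let v280 := mul v34 v182; ok v280 && (
  let v281 := inv v52; ok v281 && (
  let v282 := mul v280 v281; ok v282 && (
  let v283 := scale ⟨549755813888, 0, 0, 0⟩ v282; ok v283 && (
  let v284 := mul v69 v35; ok v284 && (
  let v285 := mul v284 v120; ok v285 && (
  let v286 := mul v285 v131; ok v286 && (
  let v287 := mul v25 v283; ok v287 && (
  let v288 := mul v274 v286; ok v288 && (
  let v289 := mul v279 v219; ok v289 && (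
  let v290 := add v288 v289; ok v290 && (
  let v291 := mul v290 v84; ok v291 && (
  let v292 := add v287 v291; ok v292 && (
  let v293 := mul v274 v249; ok v293 && (
  let v294 := mul v293 v207; ok v294 && (
  let v295 := mul v276 v133; ok v295 && (
  let v296 := mul v295 v210; ok v296 && (
  let v297 := add v294 v296; ok v297 && (
  let v298 := mul v297 v84; ok v298 && (
  let v299 := mul v25 v292; ok v299 && (
  let v300 := mul v204 v298; ok v300 && (
  let v301 := add v299 v300; ok v301 && (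
  let v302 := mul v75 v301; ok v302 && (
  let v303 := mul v302 v281; ok v303 && (
  let v304 := sub v0 v303; ok v304 && (
  let v305 := inv v304; ok v305 && (
  let v306 := mul v301 v305; ok v306 && (
  let v307 := mul v33 v306; ok v307 && (
  let v308 := mul v75 v306; ok v308 && (
  let v309 := mul v308 v281; ok v309 && (
  let v310 := sub v0 v309; ok v310 && (
  let v311 := mul v49 v310; ok v311 && (
  let v312 := sub v311 v307; ok v312 && (
  let v313 := inv v312; ok v313 && (
  let v314 := mul v307 v313; ok v314 && (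
  let v315 := sub v0 v307; ok v315 && (
  let v316 := inv v315; ok v316 && (
  let v317 := inv v38; ok v317 && (
  let v318 := mul v248 v317; ok v318 && (
  let v319 := add v113 v318; ok v319 && (
  let v320 := mul v319 v316; ok v320 && (
  let v321 := mul v320 v308; ok v321 && (
  let v322 := scale ⟨223338299392, 0, 0, 0⟩ v321; ok v322 && (
  let v323 := add v1 v322; ok v323 && (
  let v324 := mul v321 v323; ok v324 && (
  let v325 := add v0 v324; ok v325 && (
  let v326 := mul v321 v325; ok v326 && (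
  let v327 := mul v326 v125; ok v327 && (
  let v328 := mul v327 v133; ok v328 && (
  let v329 := sub v0 v328; ok v329 && (
  let v330 := mul v320 v325; ok v330 && (
  let v331 := mul v330 v305; ok v331 && (
  let v332 := mul v331 v84; ok v332 && (
  let v333 := inv v329; ok v333 && (
  let v334 := mul v332 v333; ok v334 && (
  let v335 := mul v334 v30; ok v335 && (
  let v336 := mul v274 v207; ok v336 && (
  let v337 := mul v276 v125; ok v337 && (
  let v338 := mul v337 v133; ok v338 && (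
  let v339 := mul v338 v210; ok v339 && (
  let v340 := add v336 v339; ok v340 && (
  let v341 := mul v335 v340; ok v341 && (
  let v342 := mul v274 v69; ok v342 && (
  let v343 := mul v342 v35; ok v343 && (
  let v344 := mul v343 v117; ok v344 && (
  let v345 := mul v344 v131; ok v345 && (
  let v346 := mul v334 v199; ok v346 && (
  let v347 := mul v346 v30; ok v347 && (
  let v348 := inv v27; ok v348 && (
  let v349 := mul v347 v348; ok v349 && (
  let v350 := mul x0 v125; ok v350 && (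
  let v351 := mul v350 v25; ok v351 && (
  let v352 := mul v351 v283; ok v352 && (
  let v353 := add v352 v345; ok v353 && (
  let v354 := mul v125 v279; ok v354 && (
  let v355 := mul v354 v219; ok v355 && (
  let v356 := add v353 v355; ok v356 && (
  let v357 := mul v349 v356; ok v357 && (
  let v358 := mul v197 v34; ok v358 && (
  let v359 := mul v358 v27; ok v359 && (
  let v360 := mul v359 v25; ok v360 && (
  let v361 := cst ⟨9895604649984, 0, 0, 0⟩; ok v361 && (
  let v362 := cst ⟨21990232555520, 0, 0, 0⟩; ok v362 && (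
  let v363 := inv v362; ok v363 && (
  let v364 := mul v361 v363; ok v364 && (
  let v365 := add v173 v0; ok v365 && (
  let v366 := mul v173 v365; ok v366 && (
  let v367 := add v63 v366; ok v367 && (
  let v368 := mul v314 v367; ok v368 && (
  let v369 := mul v65 v365; ok v369 && (
  let v370 := scale ⟨687194767360, 0, 0, 0⟩ v368; ok v370 && (
  let v371 := add v0 v370; ok v371 && (
  let v372 := mul v368 v371; ok v372 && (
  let v373 := add v0 v372; ok v373 && (
  let v374 := mul v369 v373; ok v374 && (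
  let v375 := add v6 v33; ok v375 && (
  let v376 := mul v174 v375; ok v376 && (
  let v377 := mul v376 v364; ok v377 && (
  let v378 := add v0 v377; ok v378 && (
  let v379 := inv v378; ok v379 && (
  let v380 := mul v374 v379; ok v380 && (
  let v381 := mul v380 v9; ok v381 && (
  let v382 := mul v34 v306; ok v382 && (
  let v383 := mul v382 v348; ok v383 && (
  let v384 := add v0 v383; ok v384 && (
  let v385 := mul v381 v384; ok v385 && (
  let v386 := sub v52 v308; ok v386 && (
  let v387 := inv v386; ok v387 && (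
  let v388 := mul v385 v387; ok v388 && (
  let v389 := mul v33 v341; ok v389 && (
  let v390 := mul v389 v205; ok v390 && (
  let v391 := mul v33 v360; ok v391 && (
  let v392 := mul v357 v391; ok v392 && (
  let v393 := add v390 v392; ok v393 && (
  let v394 := add v389 v357; ok v394 && (
  let v395 := add v0 v393; ok v395 && (
  let v396 := mul v388 v395; ok v396 && (
  let v397 := add v394 v396; ok v397 && (
  let v398 := sub v0 v397; ok v398 && (
  let v399 := scale ⟨1073741824, 0, 0, 0⟩ v33; ok v399 && (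
  let v400 := sub v398 v399; ok v400 && (
  let v401 := sub v9 v0; ok v401 && (
  let v402 := add v401 v185; ok v402 && (
  let v403 := scale ⟨2199023255552, 0, 0, 0⟩ v364; ok v403 && (
  let v404 := sub v402 v403; ok v404 && (
  let v405 := mul v174 v404; ok v405 && (
  let v406 := mul v401 v403; ok v406 && (
  let v407 := add v406 v0; ok v407 && (
  let v408 := inv v407; ok v408 && (
  let v409 := mul v405 v408; ok v409 && (
  let v410 := mul v197 v298; ok v410 && (
  let v411 := scale ⟨549755813888, 0, 0, 0⟩ v202; ok v411 && (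
  let v412 := add v6 v411; ok v412 && (
  let v413 := mul v410 v412; ok v413 && (
  let v414 := scale ⟨2199023255552, 0, 0, 0⟩ v413; ok v414 && (
  let v415 := add v292 v414; ok v415 && (
  let v416 := scale ⟨2199023255552, 0, 0, 0⟩ v415; ok v416 && (
  let v417 := mul v416 v305; ok v417 && (
  let v418 := sub v27 v382; ok v418 && (
  let v419 := inv v418; ok v419 && (
  let v420 := mul v417 v419; ok v420 && (
  let v421 := sub v409 v420; ok v421 && (
  isPos 4 v206 && (
  isPos 4 v209 && (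
  let v422 := scale ⟨2199023255552, 0, 0, 0⟩ v302; ok v422 && (
  let v423 := sub v52 v422; ok v423 && (
  isPos 4 v423 && (
  isPos 4 v312 && (
  isPos 4 v129 && (
  let v424 := sub v1 v173; ok v424 && (
  isPos 4 v424 && (
  let v425 := scale ⟨687194767360, 0, 0, 0⟩ v0; ok v425 && (
  let v426 := sub v425 v259; ok v426 && (
  isPos 4 v426 && (
  let v427 := scale ⟨377957122048, 0, 0, 0⟩ v0; ok v427 && (
  let v428 := sub v427 v255; ok v428 && (
  isPos 4 v428 && (
  isPos 4 v418 && (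
  let v429 := sub v1 v368; ok v429 && (
  isPos 4 v429 && (
  isPos 4 v315 && (
  isPos 4 v329 && (
  let v430 := sub v425 v321; ok v430 && (
  isPos 4 v430 && (
  isPos 4 v421 && (
  isPos 4 v400 && (
  true))))))))))))))))))))))))))))))))))))))))))))))))))))))))))))))))))))))))))))))))))))))))))))))))))))))))))))))))))))))))))))))))))))))))))))))))))))))))))))))))))))))))))))))))))))))))))))))))))))))))))))))))))))))))))))))))))))))))))))))))))))))))))))))))))))))))))))))))))))))))))))))))))))))))))))))))))))))))))))))))))))))))))))))))))))))))))))))))))))))))))))))))))))))))))))))))))))))))))))))))))))))))))))))))))))))))))))))))))))))))))))))))))))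
  | _ => false

set_option maxRecDepth 1000000 in
theorem chk3_eq (O : Ops) (m : List O.α)
    (h : chk3 O.cst O.add O.sub O.mul O.scale O.neg O.inv O.exp O.log O.ok O.isPos O.isLt m = true) :
    runG O 4 prog3 m = true := by
  match m, h with
  | [x0, x1, x2, x3], h => exact h

def chkB3 : List opsE.α → Bool :=
  chk3 opsE.cst opsE.add opsE.sub opsE.mul opsE.scale opsE.neg opsE.inv opsE.exp opsE.log opsE.ok opsE.isPos opsE.isLt

theorem chkB3_eq (m : List opsE.α) (h : chkB3 m = true) : runG opsE 4 prog3 m = true :=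
  chk3_eq opsE m h

def prog4 : List Op := [
  .const ⟨1099511627776, 0, 0, 0⟩,
  .add 2 0,
  .inv 0,
  .mul 4 0,
  .scale ⟨2199023255552, 0, 0, 0⟩ 0,
  .sub 4 0,
  .log 0,
  .inv 7,
  .scale ⟨0, 1524247822336, 0, 0⟩ 0,
  .exp 0,
  .sub 9 0,
  .mul 11 4,
  .exp 0,
  .add 0 12,
  .log 0,
  .mul 0 7,
  .scale ⟨2199023255552, 0, 0, 0⟩ 0,
  .exp 0,
  .mul 13 13,
  .mul 8 1,
  .sub 1 0,
  .pos 0]

def chk4 {α : Type} (cst : Z → α) (add sub mul : α → α → α) (scale : Z → α → α)
    (neg inv exp log : α → α) (ok : α → Bool) (isPos : Nat → α → Bool) (isLt : α → Nat → Bool) :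
    List α → Bool
  | [x0, x1, x2, x3] =>
  let v0 := cst ⟨1099511627776, 0, 0, 0⟩; ok v0 && (
  let v1 := add x1 v0; ok v1 && (
  let v2 := inv v1; ok v2 && (
  let v3 := mul x1 v2; ok v3 && (
  let v4 := scale ⟨2199023255552, 0, 0, 0⟩ v3; ok v4 && (
  let v5 := sub v0 v4; ok v5 && (
  let v6 := log v5; ok v6 && (
  let v7 := inv x0; ok v7 && (
  let v8 := scale ⟨0, 1524247822336, 0, 0⟩ v7; ok v8 && (
  let v9 := exp v8; ok v9 && (
  let v10 := sub v0 v9; ok v10 && (
  let v11 := mul x0 v6; ok v11 && (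
  let v12 := exp v11; ok v12 && (
  let v13 := add v12 v0; ok v13 && (
  let v14 := log v13; ok v14 && (
  let v15 := mul v14 v7; ok v15 && (
  let v16 := scale ⟨2199023255552, 0, 0, 0⟩ v15; ok v16 && (
  let v17 := exp v16; ok v17 && (
  let v18 := mul v4 v4; ok v18 && (
  let v19 := mul v10 v17; ok v19 && (
  let v20 := sub v18 v19; ok v20 && (
  isPos 4 v20 && (
  true))))))))))))))))))))))
  | _ => false

set_option maxRecDepth 1000000 in
theorem chk4_eq (O : Ops) (m : List O.α)
    (h : chk4 O.cst O.add O.sub O.mul O.scale O.neg O.inv O.exp O.log O.ok O.isPos O.isLt m = true) :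
    runG O 4 prog4 m = true := by
  match m, h with
  | [x0, x1, x2, x3], h => exact h

def chkB4 : List opsE.α → Bool :=
  chk4 opsE.cst opsE.add opsE.sub opsE.mul opsE.scale opsE.neg opsE.inv opsE.exp opsE.log opsE.ok opsE.isPos opsE.isLt

theorem chkB4_eq (m : List opsE.α) (h : chkB4 m = true) : runG opsE 4 prog4 m = true :=
  chk4_eq opsE m h

def progs : List (List Op) := [prog0, prog1, prog2, prog3, prog4]

def chks : List (List opsE.α → Bool) := [chkB0, chkB1, chkB2, chkB3, chkB4]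

theorem chks_eq : List.Forall₂ (fun (ops : List Op) (chk : List opsE.α → Bool) =>
    ∀ m, chk m = true → runG opsE 4 ops m = true) progs chks :=
  List.Forall₂.cons chkB0_eq (List.Forall₂.cons chkB1_eq (List.Forall₂.cons chkB2_eq (List.Forall₂.cons chkB3_eq (List.Forall₂.cons chkB4_eq List.Forall₂.nil))))

end Pool.Agent.helper71.FF.Crt.C
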