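import Pool.Agent.helper71.FF.Dom
import Pool.Agent.helper71.FF.Crt.CP

/-!
Generated: meaning of the programs.
-/

namespace Pool.Agent.helper71.FF

open Complex Pool.Agent.helper31.EQ.Y Pool.Agent.helper31.EQ.R
open Pool.Agent.helper12.EQL Pool.Agent.helper12.RP Pool.Agent.helper12.FF Pool.Agent.helper63.FF
open Pool.Agent.helper31.IA (Z Op InBox)

theorem zC_0_1524247822336 : (-363409 / 262144 : ℝ) = zv 0 1524247822336 := by unfold zv; norm_num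

theorem zC_1073741824_0 : (1 / 1024 : ℝ) = zv 1073741824 0 := by unfold zv; norm_num

theorem zC_1527119872_0 : (11651 / 8388608 : ℝ) = zv 1527119872 0 := by unfold zv; norm_num

theorem zC_45768245248_0 : (341 / 8192 : ℝ) = zv 45768245248 0 := by unfold zv; norm_num

theorem zC_45812285440_0 : (21845 / 524288 : ℝ) = zv 45812285440 0 := by unfold zv; norm_num

theorem zC_137438953472_0 : (1 / 8 : ℝ) = zv 137438953472 0 := by unfold zv; norm_num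

theorem zC_183207198720_0 : (1365 / 8192 : ℝ) = zv 183207198720 0 := by unfold zv; norm_num

theorem zC_223338299392_0 : (13 / 64 : ℝ) = zv 223338299392 0 := by unfold zv; norm_num

theorem zC_224412041216_0 : (209 / 1024 : ℝ) = zv 224412041216 0 := by unfold zv; norm_num

theorem zC_274877906944_0 : (1 / 4 : ℝ) = zv 274877906944 0 := by unfold zv; norm_num

theorem zC_377957122048_0 : (11 / 32 : ℝ) = zv 377957122048 0 := by unfold zv; norm_num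

theorem zC_549755813888_0 : (1 / 2 : ℝ) = zv 549755813888 0 := by unfold zv; norm_num

theorem zC_687194767360_0 : (5 / 8 : ℝ) = zv 687194767360 0 := by unfold zv; norm_num

theorem zC_893353197568_0 : (13 / 16 : ℝ) = zv 893353197568 0 := by unfold zv; norm_num

theorem zC_1099511627776_0 : (1 : ℝ) = zv 1099511627776 0 := by unfold zv; norm_num

theorem zC_1374389534720_0 : (5 / 4 : ℝ) = zv 1374389534720 0 := by unfold zv; norm_num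

theorem zC_1546188226560_0 : (45 / 32 : ℝ) = zv 1546188226560 0 := by unfold zv; norm_num

theorem zC_2199023255552_0 : (2 : ℝ) = zv 2199023255552 0 := by unfold zv; norm_num

theorem zC_3092376453120_0 : (45 / 16 : ℝ) = zv 3092376453120 0 := by unfold zv; norm_num

theorem zC_4398046511104_0 : (4 : ℝ) = zv 4398046511104 0 := by unfold zv; norm_num

theorem zC_6597069766656_0 : (6 : ℝ) = zv 6597069766656 0 := by unfold zv; norm_num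

theorem zC_7696581394432_0 : (7 : ℝ) = zv 7696581394432 0 := by unfold zv; norm_num

theorem zC_9895604649984_0 : (9 : ℝ) = zv 9895604649984 0 := by unfold zv; norm_num

theorem zC_10774999203840_0 : (10035 / 1024 : ℝ) = zv 10774999203840 0 := by unfold zv; norm_num

theorem zC_10995116277760_0 : (10 : ℝ) = zv 10995116277760 0 := by unfold zv; norm_num

theorem zC_21990232555520_0 : (20 : ℝ) = zv 21990232555520 0 := by unfold zv; norm_num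

theorem far_C0 {κ : ℝ} {τ : ℂ} {R w : ℝ} {E : Set ℂ} (D : PtD κ τ R w) {v : B1}
    (G : Geo κ (shf κ τ) v) (v2 : B2 v) (he2 : 2 ≤ v.e) {yv psi : ℝ} (cy : CV v v2 yv psi) (h : RAs Pool.Agent.helper71.FF.Crt.C.prog0 [v.e, v.h, yv, psi])
    (hE : ∀ τ' : ℂ, 0 < τ'.re → τ' ∈ E) :
    FarPt v.e κ (1 - Real.sinh κ / 1024) w (2 * AG v.e v.K * Real.sinh κ ^ 2) R E τ := by
  obtain ⟨e_om1c, e_omc, e_uc, e_tc, e_njc, e_nc⟩ := cy.all G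
  obtain ⟨G0, e_G0⟩ : ∃ zz : ℝ, zz = (1 / 4) * v.e + (2 : ℝ) := ⟨_, rfl⟩
  obtain ⟨G2, e_G2⟩ : ∃ zz : ℝ, zz = G0 * G0 := ⟨_, rfl⟩
  obtain ⟨GG, e_GG⟩ : ∃ zz : ℝ, zz = G2 + v2.eK * v2.eK * ((7 : ℝ) * (10 : ℝ)⁻¹) := ⟨_, rfl⟩
  obtain ⟨G3, e_G3⟩ : ∃ zz : ℝ, zz = G2 * G0 := ⟨_, rfl⟩
  obtain ⟨A, e_A⟩ : ∃ zz : ℝ, zz = G3 * GG⁻¹ := ⟨_, rfl⟩
  obtain ⟨iA, e_iA⟩ : ∃ zz : ℝ, zz = GG * G3⁻¹ := ⟨_, rfl⟩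
  obtain ⟨hA, hiA, hAe⟩ := ab_G G v2 e_G0 e_G2 e_GG e_G3 e_A e_iA
  rw [hAe]
  obtain ⟨b⟩ := exGB v.q v.x v.h1
  obtain ⟨v3⟩ := exB3 v
  obtain ⟨b'⟩ := exGB v.qp v3.xp v3.hp
  obtain ⟨v4⟩ := exB4 v3 b'
  obtain ⟨g, e_g⟩ : ∃ zz : ℝ, zz = (1 / 2) * (((1 : ℝ) - v.q) * b.q1 * b.W⁻¹) := ⟨_, rfl⟩
  obtain ⟨ga, e_ga⟩ : ∃ zz : ℝ, zz = g * (g + (1 / 2 : ℝ))⁻¹ := ⟨_, rfl⟩
  obtain ⟨z, e_z⟩ : ∃ zz : ℝ, zz = v.om1 * ga * v.om⁻¹ := ⟨_, rfl⟩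
  obtain ⟨kz, e_kz⟩ : ∃ zz : ℝ, zz = ((1 : ℝ) - (1 / 2) * z) * ((1 : ℝ) - z)⁻¹ := ⟨_, rfl⟩
  obtain ⟨phu, e_phu⟩ : ∃ zz : ℝ, zz = ga * kz * v.u⁻¹ := ⟨_, rfl⟩
  obtain ⟨lf, e_lf⟩ : ∃ zz : ℝ, zz = z * kz := ⟨_, rfl⟩
  obtain ⟨L, e_L⟩ : ∃ zz : ℝ, zz = lf * v.ei := ⟨_, rfl⟩
  obtain ⟨Ei, e_Ei⟩ : ∃ zz : ℝ, zz = (1 : ℝ) + L * ((45 / 16) * L + (2 : ℝ)) := ⟨_, rfl⟩
  obtain ⟨Eh, e_Eh⟩ : ∃ zz : ℝ, zz = (1 : ℝ) + L * ((45 / 32) * L + (1 : ℝ)) := ⟨_, rfl⟩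
  obtain ⟨m⟩ := exMid v v2 b A g ga phu Ei Eh
  obtain ⟨c⟩ := exCC m v4 iA
  obtain ⟨f⟩ := exFinS m v4 c.fbt c.FX
  obtain ⟨p_o2, s0⟩ := ((((((((((h
    (1 : ℝ) zC_1099511627776_0
    (1 / 2 : ℝ) zC_549755813888_0
    (v.h * v.h) rfl
    v.jm v.e_jm).2
    v.j v.e_j
    (v.h * v.j) rfl
    v.K (v.e_K.trans (congrArg (fun y : ℝ => y * (v.h * v.j)) zC_2199023255552_0))
    (2 * v.j) (congrArg (fun y : ℝ => y * v.j) zC_2199023255552_0)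
    v.c0 v.e_c0
    v.m v.e_m
    v2.Y (v2.e_Y.trans (congrArg (fun y : ℝ => y * v.h) zC_10774999203840_0))
    ((341 / 8192) * v2.Y) (congrArg (fun y : ℝ => y * v2.Y) zC_45768245248_0)
    (1365 / 8192 : ℝ) zC_183207198720_0
    ((341 / 8192) * v2.Y + (1365 / 8192 : ℝ)) rfl
    (v2.Y * ((341 / 8192) * v2.Y + (1365 / 8192 : ℝ))) rfl
    ((1 / 2 : ℝ) + v2.Y * ((341 / 8192) * v2.Y + (1365 / 8192 : ℝ))) rfl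
    (v2.Y * ((1 / 2 : ℝ) + v2.Y * ((341 / 8192) * v2.Y + (1365 / 8192 : ℝ)))) rfl
    v2.pY v2.e_pY
    (v2.Y * v2.pY) rfl
    ((1 / 2) * (v2.Y * v2.pY)) (congrArg (fun y : ℝ => y * (v2.Y * v2.pY)) zC_549755813888_0)
    ((1 : ℝ) + (1 / 2) * (v2.Y * v2.pY)) rfl
    v2.Yp v2.e_Yp
    (v2.Y * v2.Yp) rfl
    ((1 : ℝ) + v2.Y * v2.Yp) rfl).2
    (((1 : ℝ) + v2.Y * v2.Yp)⁻¹) rfl
    v.om1 e_om1c
    v.om e_omc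
    v.op1 v.e_op1
    ((1 : ℝ) - psi) rfl
    (v.om1 * ((1 : ℝ) - psi)) rfl
    v.u e_uc
    v.u2 v.e_u2).2
    (v.om⁻¹) rfl
    v.t e_tc
    v.tu v.e_tu).2
    (v.u⁻¹) rfl
    v.nj e_njc
    v.n e_nc
    v.R v.e_R
    (v.K * v.om) rfl
    (2 * v.c0) (congrArg (fun y : ℝ => y * v.c0) zC_2199023255552_0)
    (v.K * v.om + 2 * v.c0) rfl
    v.Dt v.e_Dt
    v.D v.e_D
    v.SQ v.e_SQ
    (v.K * v.K) rfl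
    (2 * (v.K * v.K)) (congrArg (fun y : ℝ => y * (v.K * v.K)) zC_2199023255552_0)
    v.c2 v.e_c2
    (v.c0 * v.Dt) rfl
    v.rhat v.e_rhat).2
    v.LQ v.e_LQ
    ((1 / 2) * v.LQ) (congrArg (fun y : ℝ => y * v.LQ) zC_549755813888_0)
    v.aQ v.e_aQ
    v.ee (v.e_ee.trans (congrArg (fun y : ℝ => y * v.e) zC_549755813888_0))
    v.rho v.e_rho
    (-v.rho) rfl
    v.q v.e_q
    (v.c0 * v.R) rfl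
    (v.c0 * v.R * v.rhat) rfl
    v.D2 (v.e_D2.trans (congrArg (fun y : ℝ => y * (v.c0 * v.R * v.rhat)) zC_4398046511104_0))
    (v.D2 + (1 : ℝ)) rfl).2
    (Real.log (v.D2 + (1 : ℝ))) rfl
    v.L2 v.e_L2
    v.rp v.e_rp
    (-v.rp) rfl
    v.qp v.e_qp
    (v.om * v.K) rfl
    (v.c0 + v.om * v.K) rfl).2
    v.ioK v.e_ioK
    v.h1t v.e_h1t
    (v.om1 * v.t) rfl
    v.h1 v.e_h1
    v.nj2 v.e_nj2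
    ((1 : ℝ) - v.u2) rfl
    v.f2 v.e_f2
    v.tu2 v.e_tu2
    (v.c0 + v.R) rfl).2
    ((v.c0 + v.R)⁻¹) rfl
    v.w v.e_w
    (v.w * v.w) rfl
    (v.tu2 * ((1 : ℝ) - v.u2)) rfl
    ((1 : ℝ) - v.nj2) rfl
    (v.tu2 * ((1 : ℝ) - v.u2) * ((1 : ℝ) - v.nj2)) rfl
    v.x v.e_x).2
    v.ei v.e_ei
    (21845 / 524288 : ℝ) zC_45812285440_0
    ((11651 / 8388608) * v.x) (congrArg (fun y : ℝ => y * v.x) zC_1527119872_0)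
    ((21845 / 524288 : ℝ) - (11651 / 8388608) * v.x) rfl
    (v.x * ((21845 / 524288 : ℝ) - (11651 / 8388608) * v.x)) rfl
    ((1 / 2 : ℝ) - v.x * ((21845 / 524288 : ℝ) - (11651 / 8388608) * v.x)) rfl
    (v.x * ((1 / 2 : ℝ) - v.x * ((21845 / 524288 : ℝ) - (11651 / 8388608) * v.x))) rfl
    b.cc b.e_cc
    b.q1 b.e_q1
    (v.q * v.q) rfl
    (v.q * v.q + (1 : ℝ)) rfl
    (v.q * b.cc) rfl
    (2 * (v.q * b.cc)) (congrArg (fun y : ℝ => y * (v.q * b.cc)) zC_2199023255552_0)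
    b.o2 b.e_o2).2
    (b.q1⁻¹) rfl
    (b.o2 * b.q1⁻¹) rfl
    b.P1 b.e_P1
    (v.q * v.h1) rfl
    b.qh (b.e_qh.trans (congrArg (fun y : ℝ => y * (v.q * v.h1)) zC_549755813888_0))
    (b.qh * b.P1) rfl
    b.W b.e_W
  change 0 < b.o2 at p_o2
  obtain ⟨p_W, s1⟩ := s0
  change 0 < b.W at p_W
  obtain ⟨p_o2p, s2⟩ := (((((((s1).2
    b.W⁻¹ rfl
    ((1 : ℝ) - v.q) rfl
    (((1 : ℝ) - v.q) * b.q1) rfl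
    (((1 : ℝ) - v.q) * b.q1 * b.W⁻¹) rfl
    g (e_g.trans (congrArg (fun y : ℝ => y * (((1 : ℝ) - v.q) * b.q1 * b.W⁻¹)) zC_549755813888_0))
    (g + (1 / 2 : ℝ)) rfl).2
    ((g + (1 / 2 : ℝ))⁻¹) rfl
    ga e_ga
    (b.qh * g) rfl
    (b.qh * g + (1 / 2 : ℝ)) rfl
    ((b.qh * g + (1 / 2 : ℝ)) * b.P1) rfl).2
    (b.o2⁻¹) rfl
    m.fa m.e_fa
    m.hg m.e_hg
    ((1 / 2) * m.hg) (congrArg (fun y : ℝ => y * m.hg) zC_549755813888_0)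
    ((1 : ℝ) - (1 / 2) * m.hg) rfl
    ((1 : ℝ) - m.hg) rfl).2
    (((1 : ℝ) - m.hg)⁻¹) rfl
    m.lsf m.e_lsf
    (m.hg + (1 : ℝ)) rfl
    m.Qb m.e_Qb
    (v.om1 * v.op1) rfl
    (v.c0 + v.t) rfl
    (v.om * v.c0) rfl
    (v.om * v.c0 * v.K) rfl
    (2 * (v.om * v.c0 * v.K)) (congrArg (fun y : ℝ => y * (v.om * v.c0 * v.K)) zC_2199023255552_0)
    (v.c2 + 2 * (v.om * v.c0 * v.K)) rfl
    ((v.c0 + v.t) * (v.c2 + 2 * (v.om * v.c0 * v.K))) rfl).2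
    (((v.c0 + v.t) * (v.c2 + 2 * (v.om * v.c0 * v.K)))⁻¹) rfl
    v3.hpt v3.e_hpt
    v3.hp v3.e_hp).2
    (v.SQ⁻¹) rfl
    v3.xp v3.e_xp
    ((11651 / 8388608) * v3.xp) (congrArg (fun y : ℝ => y * v3.xp) zC_1527119872_0)
    ((21845 / 524288 : ℝ) - (11651 / 8388608) * v3.xp) rfl
    (v3.xp * ((21845 / 524288 : ℝ) - (11651 / 8388608) * v3.xp)) rfl
    ((1 / 2 : ℝ) - v3.xp * ((21845 / 524288 : ℝ) - (11651 / 8388608) * v3.xp)) rfl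
    (v3.xp * ((1 / 2 : ℝ) - v3.xp * ((21845 / 524288 : ℝ) - (11651 / 8388608) * v3.xp))) rfl
    b'.cc b'.e_cc
    b'.q1 b'.e_q1
    (v.qp * v.qp) rfl
    (v.qp * v.qp + (1 : ℝ)) rfl
    (v.qp * b'.cc) rfl
    (2 * (v.qp * b'.cc)) (congrArg (fun y : ℝ => y * (v.qp * b'.cc)) zC_2199023255552_0)
    b'.o2 b'.e_o2).2
    (b'.q1⁻¹) rfl
    (b'.o2 * b'.q1⁻¹) rfl
    b'.P1 b'.e_P1
    (v.qp * v3.hp) rfl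
    b'.qh (b'.e_qh.trans (congrArg (fun y : ℝ => y * (v.qp * v3.hp)) zC_549755813888_0))
    (b'.qh * b'.P1) rfl
    b'.W b'.e_W
  change 0 < b'.o2 at p_o2p
  obtain ⟨p_Wp, s3⟩ := s2
  change 0 < b'.W at p_Wp
  obtain ⟨p_z1, s4⟩ := ((((((((((s3
    ((1 : ℝ) - v.qp) rfl
    (((1 : ℝ) - v.qp) * b'.q1) rfl).2
    (b'.W⁻¹) rfl
    (((1 : ℝ) - v.qp) * b'.q1 * b'.W⁻¹) rfl
    v4.gp (v4.e_gp.trans (congrArg (fun y : ℝ => y * (((1 : ℝ) - v.qp) * b'.q1 * b'.W⁻¹)) zC_549755813888_0))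
    (v4.gp + (1 / 2 : ℝ)) rfl).2
    ((v4.gp + (1 / 2 : ℝ))⁻¹) rfl
    v4.gap v4.e_gap
    v4.hgp v4.e_hgp
    (v.h + (1 : ℝ)) rfl).2
    v2.ih v2.e_ih
    (v.h * v2.ih) rfl
    v2.rh (v2.e_rh.trans (congrArg (fun y : ℝ => y * (v.h * v2.ih)) zC_2199023255552_0))
    v2.mi v2.e_mi
    v2.hm v2.e_hm
    v2.nih v2.e_nih
    (v2.nih * v2.mi) rfl
    v2.bsum v2.e_bsum
    v2.eK v2.e_eK
    ((1 / 4) * v.e) (congrArg (fun y : ℝ => y * v.e) zC_274877906944_0)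
    (2 : ℝ) zC_2199023255552_0
    G0 e_G0
    G2 e_G2
    (v2.eK * v2.eK) rfl
    (7 : ℝ) zC_7696581394432_0
    (10 : ℝ) zC_10995116277760_0).2
    ((10 : ℝ)⁻¹) rfl
    ((7 : ℝ) * (10 : ℝ)⁻¹) rfl
    (v2.eK * v2.eK * ((7 : ℝ) * (10 : ℝ)⁻¹)) rfl
    GG e_GG
    G3 e_G3).2
    (GG⁻¹) rfl
    A e_A).2
    (G3⁻¹) rfl
    iA e_iA
    ((209 / 1024) * v.j) (congrArg (fun y : ℝ => y * v.j) zC_224412041216_0)).2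
    (v2.Yp⁻¹) rfl
    v2.lm v2.e_lm
    (A * v.op1) rfl
    m.Xe m.e_Xe
    m.XM m.e_XM
    ((1 : ℝ) - m.XM) rfl).2
    m.iX m.e_iX
    m.QX m.e_QX
    ((1 : ℝ) - m.QX) rfl).2
    m.iQX m.e_iQX
    (v.om1 * ga) rfl
    z e_z
    ((1 / 2) * z) (congrArg (fun y : ℝ => y * z) zC_549755813888_0)
    ((1 : ℝ) - (1 / 2) * z) rfl
    ((1 : ℝ) - z) rfl).2
    (((1 : ℝ) - z)⁻¹) rfl
    kz e_kz
    (ga * kz) rfl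
    phu e_phu
    lf e_lf
  change 0 < (1 : ℝ) - z at p_z1
  obtain ⟨p_L, s5⟩ := s4
    L e_L
    ((5 / 4) * L) (congrArg (fun y : ℝ => y * L) zC_1374389534720_0)
    ((1 / 2 : ℝ) - (5 / 4) * L) rfl
  change 0 < (1 / 2 : ℝ) - (5 / 4) * L at p_L
  obtain ⟨p_XM, s6⟩ := (((((((((((s5
    ((45 / 16) * L) (congrArg (fun y : ℝ => y * L) zC_3092376453120_0)
    ((45 / 16) * L + (2 : ℝ)) rfl
    (L * ((45 / 16) * L + (2 : ℝ))) rfl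
    Ei e_Ei
    ((45 / 32) * L) (congrArg (fun y : ℝ => y * L) zC_1546188226560_0)
    ((45 / 32) * L + (1 : ℝ)) rfl
    (L * ((45 / 32) * L + (1 : ℝ))) rfl
    Eh e_Eh
    (v.h * v.nj) rfl
    ((1 : ℝ) - v.f2) rfl
    (v.h * v.om) rfl
    (2 * (v.h * v.om)) (congrArg (fun y : ℝ => y * (v.h * v.om)) zC_2199023255552_0)
    ((1 : ℝ) - v.f2 - 2 * (v.h * v.om)) rfl
    (v.h * v.nj * (v.h * v.nj)) rfl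
    m.N1 m.e_N1
    (m.N1 + (1 : ℝ)) rfl
    m.s (m.e_s.trans (congrArg (fun y : ℝ => y * (m.N1 + (1 : ℝ))) zC_549755813888_0))
    ((1 / 2) * v.R) (congrArg (fun y : ℝ => y * v.R) zC_549755813888_0)
    (v.j - (1 / 2) * v.R) rfl
    (v.tu2 * ((1 : ℝ) - v.f2)) rfl
    (v.tu2 * ((1 : ℝ) - v.f2) * v.jm) rfl
    ((1 / 8) * (v.tu2 * ((1 : ℝ) - v.f2) * v.jm)) (congrArg (fun y : ℝ => y * (v.tu2 * ((1 : ℝ) - v.f2) * v.jm)) zC_137438953472_0)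
    (v.j - (1 / 2) * v.R + (1 / 8) * (v.tu2 * ((1 : ℝ) - v.f2) * v.jm)) rfl
    m.k0 m.e_k0
    m.ls m.e_ls
    m.Q1 m.e_Q1
    (m.Q1 * m.iX) rfl
    (m.Qb * m.iQX) rfl
    (m.Q1 * m.iX + m.Qb * m.iQX) rfl
    (m.XM * (m.Q1 * m.iX + m.Qb * m.iQX)) rfl
    (m.ls + m.XM * (m.Q1 * m.iX + m.Qb * m.iQX)) rfl
    m.a0 m.e_a0
    (m.Q1 * m.XM) rfl
    (m.Q1 * m.XM * m.iX) rfl
    (m.ls + m.Q1 * m.XM * m.iX) rfl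
    m.l1 m.e_l1
    ((13 / 64) * m.l1) (congrArg (fun y : ℝ => y * m.l1) zC_223338299392_0)
    ((1 / 2 : ℝ) + (13 / 64) * m.l1) rfl
    (m.l1 * ((1 / 2 : ℝ) + (13 / 64) * m.l1)) rfl
    m.Na m.e_Na
    ((13 / 16) * m.a0) (congrArg (fun y : ℝ => y * m.a0) zC_893353197568_0)
    ((1 : ℝ) + (13 / 16) * m.a0) rfl
    (m.a0 * ((1 : ℝ) + (13 / 16) * m.a0)) rfl
    m.Nb m.e_Nb
    (v2.rh * v2.nih) rfl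
    (v2.rh * v2.nih * Ei) rfl
    m.rn m.e_rn
    (m.k0 * m.Na) rfl
    (v.aQ + (1 / 2 : ℝ)) rfl
    (m.rn * (v.aQ + (1 / 2 : ℝ))) rfl
    m.ka m.e_ka
    (v.aQ + (1 : ℝ)) rfl
    m.kb m.e_kb
    (Eh * (v.aQ + (1 : ℝ))) rfl
    (Eh * (v.aQ + (1 : ℝ)) * v2.nih) rfl
    m.lfk m.e_lfk
    (v.tu * v2.bsum) rfl).2
    (v.aQ⁻¹) rfl
    (v.tu * v2.bsum * v.aQ⁻¹) rfl
    m.bte (m.e_bte.trans (congrArg (fun y : ℝ => y * (v.tu * v2.bsum * v.aQ⁻¹)) zC_549755813888_0))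
    (v.h1t * v.u⁻¹) rfl
    (v.h1t * v.u⁻¹ * ga) rfl
    m.lsi m.e_lsi
    (v.om1 * m.bte) rfl
    (m.ka * m.lsi) rfl
    (m.lfk * phu) rfl
    (m.ka * m.lsi + m.lfk * phu) rfl
    ((m.ka * m.lsi + m.lfk * phu) * v.ei) rfl
    m.src m.e_src
    (m.ka * m.Q1) rfl
    (m.ka * m.Q1 * m.iX) rfl
    (m.kb * m.Qb) rfl
    (m.kb * m.Qb * m.iQX) rfl
    (m.ka * m.Q1 * m.iX + m.kb * m.Qb * m.iQX) rfl
    m.fx m.e_fx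
    (v.om1 * m.src) rfl
    (m.Xe * m.fx) rfl
    m.eps m.e_eps
    (v.tu2 * m.eps) rfl
    (v.tu2 * m.eps * v.aQ⁻¹) rfl
    ((1 : ℝ) - v.tu2 * m.eps * v.aQ⁻¹) rfl).2
    m.NN m.e_NN
    m.eN m.e_eN
    m.d m.e_d
    m.eta m.e_eta
    (m.eta * v.aQ⁻¹) rfl
    ((1 : ℝ) - m.eta * v.aQ⁻¹) rfl
    (v.rhat * ((1 : ℝ) - m.eta * v.aQ⁻¹)) rfl
    m.rl m.e_rl).2
    m.irl m.e_irl
    m.yy m.e_yy
    (v.aQ - m.eta) rfl).2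
    c.q0 c.e_q0
    c.zp c.e_zp
    (v.e * c.q0) rfl
    (v4.gap * m.irl) rfl).2
    (v.R⁻¹) rfl
    (v4.gap * m.irl * v.R⁻¹) rfl
    ((1 / 2) * c.zp) (congrArg (fun y : ℝ => y * c.zp) zC_549755813888_0)
    ((1 : ℝ) - (1 / 2) * c.zp) rfl
    ((1 : ℝ) - c.zp) rfl).2
    (((1 : ℝ) - c.zp)⁻¹) rfl
    (((1 : ℝ) - (1 / 2) * c.zp) * ((1 : ℝ) - c.zp)⁻¹) rfl
    (v4.gap * m.irl * v.R⁻¹ * (((1 : ℝ) - (1 / 2) * c.zp) * ((1 : ℝ) - c.zp)⁻¹)) rfl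
    c.C1 c.e_C1
    c.rr c.e_rr
    ((13 / 64) * c.rr) (congrArg (fun y : ℝ => y * c.rr) zC_223338299392_0)
    ((1 / 2 : ℝ) + (13 / 64) * c.rr) rfl
    (c.rr * ((1 / 2 : ℝ) + (13 / 64) * c.rr)) rfl
    ((1 : ℝ) + c.rr * ((1 / 2 : ℝ) + (13 / 64) * c.rr)) rfl
    (c.C1 * ((1 : ℝ) + c.rr * ((1 / 2 : ℝ) + (13 / 64) * c.rr))) rfl
    (c.C1 * ((1 : ℝ) + c.rr * ((1 / 2 : ℝ) + (13 / 64) * c.rr)) * m.NN) rfl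
    c.C c.e_C
    (c.C * v.u) rfl
    c.fbt c.e_fbt
    (c.C * iA) rfl
    (c.C * iA * v.u) rfl).2
    (v.op1⁻¹) rfl
    (c.C * iA * v.u * v.op1⁻¹) rfl
    (v.e * v.om1) rfl
    (v.e * v.om1 * m.bte) rfl
    (v.e * v.om1 * m.bte + m.ka * m.lsi) rfl
    (v.e * v.om1 * m.bte + m.ka * m.lsi + m.lfk * phu) rfl
    c.FX c.e_FX
    (A * v.tu) rfl
    (A * v.tu * v.op1) rfl
    m.XLt m.e_XLt
    (9 : ℝ) zC_9895604649984_0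
    (20 : ℝ) zC_21990232555520_0).2
    ((20 : ℝ)⁻¹) rfl
    m.beta m.e_beta
    (v4.hgp + (1 : ℝ)) rfl
    (v4.hgp * (v4.hgp + (1 : ℝ))) rfl
    (v.rp + v4.hgp * (v4.hgp + (1 : ℝ))) rfl
    f.dri f.e_dri
    (v.qp * (v4.hgp + (1 : ℝ))) rfl
    ((5 / 8) * f.dri) (congrArg (fun y : ℝ => y * f.dri) zC_687194767360_0)
    ((1 : ℝ) + (5 / 8) * f.dri) rfl
    (f.dri * ((1 : ℝ) + (5 / 8) * f.dri)) rfl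
    ((1 : ℝ) + f.dri * ((1 : ℝ) + (5 / 8) * f.dri)) rfl
    f.Qp f.e_Qp
    (v.K + v.t) rfl
    ((v.h + (1 : ℝ)) * (v.K + v.t)) rfl
    ((v.h + (1 : ℝ)) * (v.K + v.t) * m.beta) rfl
    ((1 : ℝ) + (v.h + (1 : ℝ)) * (v.K + v.t) * m.beta) rfl).2
    f.Lam f.e_Lam
    (f.Qp * f.Lam) rfl
    (f.Qp * f.Lam * v.m) rfl
    (v.tu * m.eN) rfl
    (v.tu * m.eN * v.op1⁻¹) rfl
    ((1 : ℝ) + v.tu * m.eN * v.op1⁻¹) rfl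
    (f.Qp * f.Lam * v.m * ((1 : ℝ) + v.tu * m.eN * v.op1⁻¹)) rfl
    f.c1 (c1_C c f)
    f.fb f.e_fb
    (f.fb * m.XM) rfl
    (v.t * m.XLt) rfl
    (c.FX * (v.t * m.XLt)) rfl
    f.r f.e_r
    (f.fb + c.FX) rfl
    ((1 : ℝ) + f.r) rfl
    (f.c1 * ((1 : ℝ) + f.r)) rfl
    (f.fb + c.FX + f.c1 * ((1 : ℝ) + f.r)) rfl
    f.Bm f.e_Bm
    ((1 / 1024) * v.t) (congrArg (fun y : ℝ => y * v.t) zC_1073741824_0)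
    (f.Bm - (1 / 1024) * v.t) rfl
    m.m1 m.e_m1
    (m.m1 + (2 : ℝ)) rfl
    (2 * m.beta) (congrArg (fun y : ℝ => y * m.beta) zC_2199023255552_0)
    (m.m1 + (2 : ℝ) - 2 * m.beta) rfl
    ((v.h + (1 : ℝ)) * (m.m1 + (2 : ℝ) - 2 * m.beta)) rfl
    (m.m1 * (2 * m.beta)) rfl
    (m.m1 * (2 * m.beta) + (1 : ℝ)) rfl).2
    ((m.m1 * (2 * m.beta) + (1 : ℝ))⁻¹) rfl
    ((v.h + (1 : ℝ)) * (m.m1 + (2 : ℝ) - 2 * m.beta) * (m.m1 * (2 * m.beta) + (1 : ℝ))⁻¹) rfl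
    (A * m.fx) rfl
    ((1 / 2) * v2.lm) (congrArg (fun y : ℝ => y * v2.lm) zC_549755813888_0)
    (v.K + (1 / 2) * v2.lm) rfl
    (A * m.fx * (v.K + (1 / 2) * v2.lm)) rfl
    (2 * (A * m.fx * (v.K + (1 / 2) * v2.lm))) (congrArg (fun y : ℝ => y * (A * m.fx * (v.K + (1 / 2) * v2.lm))) zC_2199023255552_0)
    (m.src + 2 * (A * m.fx * (v.K + (1 / 2) * v2.lm))) rfl
    (2 * (m.src + 2 * (A * m.fx * (v.K + (1 / 2) * v2.lm)))) (congrArg (fun y : ℝ => y * (m.src + 2 * (A * m.fx * (v.K + (1 / 2) * v2.lm)))) zC_2199023255552_0)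
    (2 * (m.src + 2 * (A * m.fx * (v.K + (1 / 2) * v2.lm))) * m.NN) rfl
    (v.op1 - v.tu * m.eN) rfl).2
    ((v.op1 - v.tu * m.eN)⁻¹) rfl
    (2 * (m.src + 2 * (A * m.fx * (v.K + (1 / 2) * v2.lm))) * m.NN * (v.op1 - v.tu * m.eN)⁻¹) rfl
    m.V m.e_V
  change 0 < (1 : ℝ) - m.XM at p_XM
  obtain ⟨p_QX, s7⟩ := s6
  change 0 < (1 : ℝ) - m.QX at p_QX
  obtain ⟨p_e2, s8⟩ := s7
    (2 * (v.tu2 * m.eps)) (congrArg (fun y : ℝ => y * (v.tu2 * m.eps)) zC_2199023255552_0)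
    (v.aQ - 2 * (v.tu2 * m.eps)) rfl
  change 0 < v.aQ - 2 * (v.tu2 * m.eps) at p_e2
  obtain ⟨p_rl, s9⟩ := s8
  change 0 < m.rl at p_rl
  obtain ⟨p_hg, s10⟩ := s9
  change 0 < (1 : ℝ) - m.hg at p_hg
  obtain ⟨p_hgp, s11⟩ := s10
    ((1 / 2 : ℝ) - v4.hgp) rfl
  change 0 < (1 / 2 : ℝ) - v4.hgp at p_hgp
  obtain ⟨p_l1, s12⟩ := s11
    ((5 / 8) * (1 : ℝ)) (congrArg (fun y : ℝ => y * (1 : ℝ)) zC_687194767360_0)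
    ((5 / 8) * (1 : ℝ) - m.l1) rfl
  change 0 < (5 / 8) * (1 : ℝ) - m.l1 at p_l1
  obtain ⟨p_a0, s13⟩ := s12
    ((11 / 32) * (1 : ℝ)) (congrArg (fun y : ℝ => y * (1 : ℝ)) zC_377957122048_0)
    ((11 / 32) * (1 : ℝ) - m.a0) rfl
  change 0 < (11 / 32) * (1 : ℝ) - m.a0 at p_a0
  obtain ⟨p_S, s14⟩ := s13
  change 0 < v.op1 - v.tu * m.eN at p_S
  obtain ⟨p_dri, s15⟩ := s14
    ((1 / 2 : ℝ) - f.dri) rfl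
  change 0 < (1 / 2 : ℝ) - f.dri at p_dri
  obtain ⟨p_zp, s16⟩ := s15
  change 0 < (1 : ℝ) - c.zp at p_zp
  obtain ⟨p_rr, s17⟩ := s16
    ((5 / 8) * (1 : ℝ) - c.rr) rfl
  change 0 < (5 / 8) * (1 : ℝ) - c.rr at p_rr
  obtain ⟨p_V, s18⟩ := s17
  change 0 < m.V at p_V
  obtain ⟨p_B, s19⟩ := s18
  change 0 < f.Bm - (1 / 1024) * v.t at p_B
  have hga := gam_F G p_o2 p_W e_g e_ga
  obtain ⟨lf0, Ex, hφ⟩ := phi_near G v2 hga (near_z G e_z) p_z1 e_kz (near_p G e_phu) e_lf e_L p_L e_Ei e_Eh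
  exact far_C G ⟨p_o2, p_W, p_o2p, p_Wp, p_XM, p_QX, p_e2, p_rl, p_hg, p_hgp, p_l1, p_a0, p_S, p_V⟩ D hA hiA e_g e_ga hφ (fun _ _ _ τ' h1 _ => hE τ' h1) c f
    p_dri p_zp p_rr p_B

theorem far_C1 {κ : ℝ} {τ : ℂ} {R w : ℝ} {E : Set ℂ} (D : PtD κ τ R w) {v : B1}
    (G : Geo κ (shf κ τ) v) (v2 : B2 v) (he2 : 2 ≤ v.e) {yv psi : ℝ} (cy : CV v v2 yv psi) (h : RAs Pool.Agent.helper71.FF.Crt.C.prog1 [v.e, v.h, yv, psi])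
    (hE : ∀ τ' : ℂ, 0 < τ'.re → τ' ∈ E) :
    FarPt v.e κ (1 - Real.sinh κ / 1024) w (2 * AG v.e v.K * Real.sinh κ ^ 2) R E τ := by
  obtain ⟨e_om1c, e_omc, e_uc, e_tc, e_njc, e_nc⟩ := cy.all G
  obtain ⟨G0, e_G0⟩ : ∃ zz : ℝ, zz = (1 / 4) * v.e + (2 : ℝ) := ⟨_, rfl⟩
  obtain ⟨G2, e_G2⟩ : ∃ zz : ℝ, zz = G0 * G0 := ⟨_, rfl⟩
  obtain ⟨GG, e_GG⟩ : ∃ zz : ℝ, zz = G2 + v2.eK * v2.eK * ((7 : ℝ) * (10 : ℝ)⁻¹) := ⟨_, rfl⟩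
  obtain ⟨G3, e_G3⟩ : ∃ zz : ℝ, zz = G2 * G0 := ⟨_, rfl⟩
  obtain ⟨A, e_A⟩ : ∃ zz : ℝ, zz = G3 * GG⁻¹ := ⟨_, rfl⟩
  obtain ⟨iA, e_iA⟩ : ∃ zz : ℝ, zz = GG * G3⁻¹ := ⟨_, rfl⟩
  obtain ⟨hA, hiA, hAe⟩ := ab_G G v2 e_G0 e_G2 e_GG e_G3 e_A e_iA
  rw [hAe]
  obtain ⟨b⟩ := exGB v.q v.x v.h1
  obtain ⟨v3⟩ := exB3 v
  obtain ⟨b'⟩ := exGB v.qp v3.xp v3.hp
  obtain ⟨v4⟩ := exB4 v3 b'
  obtain ⟨g, e_g⟩ : ∃ zz : ℝ, zz = (1 / 2) * (((1 : ℝ) - v.q) * b.q1 * b.W⁻¹) := ⟨_, rfl⟩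
  obtain ⟨ga, e_ga⟩ : ∃ zz : ℝ, zz = g * (g + (1 / 2 : ℝ))⁻¹ := ⟨_, rfl⟩
  obtain ⟨i2, e_i2⟩ : ∃ zz : ℝ, zz = (v2.eK + (2 : ℝ))⁻¹ := ⟨_, rfl⟩
  obtain ⟨z, e_z⟩ : ∃ zz : ℝ, zz = v.om1 * v.e * v.t * i2 := ⟨_, rfl⟩
  obtain ⟨kz, e_kz⟩ : ∃ zz : ℝ, zz = ((1 : ℝ) - (1 / 2) * z) * ((1 : ℝ) - z)⁻¹ := ⟨_, rfl⟩
  obtain ⟨kk, e_kk⟩ : ∃ zz : ℝ, zz = kz * i2 * v.e := ⟨_, rfl⟩
  obtain ⟨phu, e_phu⟩ : ∃ zz : ℝ, zz = v.t * v.nj * kk := ⟨_, rfl⟩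
  obtain ⟨lf, e_lf⟩ : ∃ zz : ℝ, zz = z * kz := ⟨_, rfl⟩
  obtain ⟨L, e_L⟩ : ∃ zz : ℝ, zz = lf * v.ei := ⟨_, rfl⟩
  obtain ⟨Ei, e_Ei⟩ : ∃ zz : ℝ, zz = (1 : ℝ) + L * ((45 / 16) * L + (2 : ℝ)) := ⟨_, rfl⟩
  obtain ⟨Eh, e_Eh⟩ : ∃ zz : ℝ, zz = (1 : ℝ) + L * ((45 / 32) * L + (1 : ℝ)) := ⟨_, rfl⟩
  obtain ⟨m⟩ := exMid v v2 b A g ga phu Ei Eh
  obtain ⟨c⟩ := exCC m v4 iA
  obtain ⟨f⟩ := exFinS m v4 c.fbt c.FX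
  obtain ⟨p_o2, s0⟩ := ((((((((((h
    (1 : ℝ) zC_1099511627776_0
    (1 / 2 : ℝ) zC_549755813888_0
    (v.h * v.h) rfl
    v.jm v.e_jm).2
    v.j v.e_j
    (v.h * v.j) rfl
    v.K (v.e_K.trans (congrArg (fun y : ℝ => y * (v.h * v.j)) zC_2199023255552_0))
    (2 * v.j) (congrArg (fun y : ℝ => y * v.j) zC_2199023255552_0)
    v.c0 v.e_c0
    v.m v.e_m
    v2.Y (v2.e_Y.trans (congrArg (fun y : ℝ => y * v.h) zC_10774999203840_0))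
    ((341 / 8192) * v2.Y) (congrArg (fun y : ℝ => y * v2.Y) zC_45768245248_0)
    (1365 / 8192 : ℝ) zC_183207198720_0
    ((341 / 8192) * v2.Y + (1365 / 8192 : ℝ)) rfl
    (v2.Y * ((341 / 8192) * v2.Y + (1365 / 8192 : ℝ))) rfl
    ((1 / 2 : ℝ) + v2.Y * ((341 / 8192) * v2.Y + (1365 / 8192 : ℝ))) rfl
    (v2.Y * ((1 / 2 : ℝ) + v2.Y * ((341 / 8192) * v2.Y + (1365 / 8192 : ℝ)))) rfl
    v2.pY v2.e_pY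
    (v2.Y * v2.pY) rfl
    ((1 / 2) * (v2.Y * v2.pY)) (congrArg (fun y : ℝ => y * (v2.Y * v2.pY)) zC_549755813888_0)
    ((1 : ℝ) + (1 / 2) * (v2.Y * v2.pY)) rfl
    v2.Yp v2.e_Yp
    (v2.Y * v2.Yp) rfl
    ((1 : ℝ) + v2.Y * v2.Yp) rfl).2
    (((1 : ℝ) + v2.Y * v2.Yp)⁻¹) rfl
    v.om1 e_om1c
    v.om e_omc
    v.op1 v.e_op1
    ((1 : ℝ) - psi) rfl
    (v.om1 * ((1 : ℝ) - psi)) rfl
    v.u e_uc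
    v.u2 v.e_u2).2
    (v.om⁻¹) rfl
    v.t e_tc
    v.tu v.e_tu).2
    (v.u⁻¹) rfl
    v.nj e_njc
    v.n e_nc
    v.R v.e_R
    (v.K * v.om) rfl
    (2 * v.c0) (congrArg (fun y : ℝ => y * v.c0) zC_2199023255552_0)
    (v.K * v.om + 2 * v.c0) rfl
    v.Dt v.e_Dt
    v.D v.e_D
    v.SQ v.e_SQ
    (v.K * v.K) rfl
    (2 * (v.K * v.K)) (congrArg (fun y : ℝ => y * (v.K * v.K)) zC_2199023255552_0)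
    v.c2 v.e_c2
    (v.c0 * v.Dt) rfl
    v.rhat v.e_rhat).2
    v.LQ v.e_LQ
    ((1 / 2) * v.LQ) (congrArg (fun y : ℝ => y * v.LQ) zC_549755813888_0)
    v.aQ v.e_aQ
    v.ee (v.e_ee.trans (congrArg (fun y : ℝ => y * v.e) zC_549755813888_0))
    v.rho v.e_rho
    (-v.rho) rfl
    v.q v.e_q
    (v.c0 * v.R) rfl
    (v.c0 * v.R * v.rhat) rfl
    v.D2 (v.e_D2.trans (congrArg (fun y : ℝ => y * (v.c0 * v.R * v.rhat)) zC_4398046511104_0))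
    (v.D2 + (1 : ℝ)) rfl).2
    (Real.log (v.D2 + (1 : ℝ))) rfl
    v.L2 v.e_L2
    v.rp v.e_rp
    (-v.rp) rfl
    v.qp v.e_qp
    (v.om * v.K) rfl
    (v.c0 + v.om * v.K) rfl).2
    v.ioK v.e_ioK
    v.h1t v.e_h1t
    (v.om1 * v.t) rfl
    v.h1 v.e_h1
    v.nj2 v.e_nj2
    ((1 : ℝ) - v.u2) rfl
    v.f2 v.e_f2
    v.tu2 v.e_tu2
    (v.c0 + v.R) rfl).2
    ((v.c0 + v.R)⁻¹) rfl
    v.w v.e_w
    (v.w * v.w) rfl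
    (v.tu2 * ((1 : ℝ) - v.u2)) rfl
    ((1 : ℝ) - v.nj2) rfl
    (v.tu2 * ((1 : ℝ) - v.u2) * ((1 : ℝ) - v.nj2)) rfl
    v.x v.e_x).2
    v.ei v.e_ei
    (21845 / 524288 : ℝ) zC_45812285440_0
    ((11651 / 8388608) * v.x) (congrArg (fun y : ℝ => y * v.x) zC_1527119872_0)
    ((21845 / 524288 : ℝ) - (11651 / 8388608) * v.x) rfl
    (v.x * ((21845 / 524288 : ℝ) - (11651 / 8388608) * v.x)) rfl
    ((1 / 2 : ℝ) - v.x * ((21845 / 524288 : ℝ) - (11651 / 8388608) * v.x)) rfl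
    (v.x * ((1 / 2 : ℝ) - v.x * ((21845 / 524288 : ℝ) - (11651 / 8388608) * v.x))) rfl
    b.cc b.e_cc
    b.q1 b.e_q1
    (v.q * v.q) rfl
    (v.q * v.q + (1 : ℝ)) rfl
    (v.q * b.cc) rfl
    (2 * (v.q * b.cc)) (congrArg (fun y : ℝ => y * (v.q * b.cc)) zC_2199023255552_0)
    b.o2 b.e_o2).2
    (b.q1⁻¹) rfl
    (b.o2 * b.q1⁻¹) rfl
    b.P1 b.e_P1
    (v.q * v.h1) rfl
    b.qh (b.e_qh.trans (congrArg (fun y : ℝ => y * (v.q * v.h1)) zC_549755813888_0))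
    (b.qh * b.P1) rfl
    b.W b.e_W
  change 0 < b.o2 at p_o2
  obtain ⟨p_W, s1⟩ := s0
  change 0 < b.W at p_W
  obtain ⟨p_o2p, s2⟩ := (((((((s1).2
    b.W⁻¹ rfl
    ((1 : ℝ) - v.q) rfl
    (((1 : ℝ) - v.q) * b.q1) rfl
    (((1 : ℝ) - v.q) * b.q1 * b.W⁻¹) rfl
    g (e_g.trans (congrArg (fun y : ℝ => y * (((1 : ℝ) - v.q) * b.q1 * b.W⁻¹)) zC_549755813888_0))
    (g + (1 / 2 : ℝ)) rfl).2
    ((g + (1 / 2 : ℝ))⁻¹) rfl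
    ga e_ga
    (b.qh * g) rfl
    (b.qh * g + (1 / 2 : ℝ)) rfl
    ((b.qh * g + (1 / 2 : ℝ)) * b.P1) rfl).2
    (b.o2⁻¹) rfl
    m.fa m.e_fa
    m.hg m.e_hg
    ((1 / 2) * m.hg) (congrArg (fun y : ℝ => y * m.hg) zC_549755813888_0)
    ((1 : ℝ) - (1 / 2) * m.hg) rfl
    ((1 : ℝ) - m.hg) rfl).2
    (((1 : ℝ) - m.hg)⁻¹) rfl
    m.lsf m.e_lsf
    (m.hg + (1 : ℝ)) rfl
    m.Qb m.e_Qb
    (v.om1 * v.op1) rfl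
    (v.c0 + v.t) rfl
    (v.om * v.c0) rfl
    (v.om * v.c0 * v.K) rfl
    (2 * (v.om * v.c0 * v.K)) (congrArg (fun y : ℝ => y * (v.om * v.c0 * v.K)) zC_2199023255552_0)
    (v.c2 + 2 * (v.om * v.c0 * v.K)) rfl
    ((v.c0 + v.t) * (v.c2 + 2 * (v.om * v.c0 * v.K))) rfl).2
    (((v.c0 + v.t) * (v.c2 + 2 * (v.om * v.c0 * v.K)))⁻¹) rfl
    v3.hpt v3.e_hpt
    v3.hp v3.e_hp).2
    (v.SQ⁻¹) rfl
    v3.xp v3.e_xp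
    ((11651 / 8388608) * v3.xp) (congrArg (fun y : ℝ => y * v3.xp) zC_1527119872_0)
    ((21845 / 524288 : ℝ) - (11651 / 8388608) * v3.xp) rfl
    (v3.xp * ((21845 / 524288 : ℝ) - (11651 / 8388608) * v3.xp)) rfl
    ((1 / 2 : ℝ) - v3.xp * ((21845 / 524288 : ℝ) - (11651 / 8388608) * v3.xp)) rfl
    (v3.xp * ((1 / 2 : ℝ) - v3.xp * ((21845 / 524288 : ℝ) - (11651 / 8388608) * v3.xp))) rfl
    b'.cc b'.e_cc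
    b'.q1 b'.e_q1
    (v.qp * v.qp) rfl
    (v.qp * v.qp + (1 : ℝ)) rfl
    (v.qp * b'.cc) rfl
    (2 * (v.qp * b'.cc)) (congrArg (fun y : ℝ => y * (v.qp * b'.cc)) zC_2199023255552_0)
    b'.o2 b'.e_o2).2
    (b'.q1⁻¹) rfl
    (b'.o2 * b'.q1⁻¹) rfl
    b'.P1 b'.e_P1
    (v.qp * v3.hp) rfl
    b'.qh (b'.e_qh.trans (congrArg (fun y : ℝ => y * (v.qp * v3.hp)) zC_549755813888_0))
    (b'.qh * b'.P1) rfl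
    b'.W b'.e_W
  change 0 < b'.o2 at p_o2p
  obtain ⟨p_Wp, s3⟩ := s2
  change 0 < b'.W at p_Wp
  obtain ⟨p_z1, s4⟩ := (((((((((((s3
    ((1 : ℝ) - v.qp) rfl
    (((1 : ℝ) - v.qp) * b'.q1) rfl).2
    (b'.W⁻¹) rfl
    (((1 : ℝ) - v.qp) * b'.q1 * b'.W⁻¹) rfl
    v4.gp (v4.e_gp.trans (congrArg (fun y : ℝ => y * (((1 : ℝ) - v.qp) * b'.q1 * b'.W⁻¹)) zC_549755813888_0))
    (v4.gp + (1 / 2 : ℝ)) rfl).2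
    ((v4.gp + (1 / 2 : ℝ))⁻¹) rfl
    v4.gap v4.e_gap
    v4.hgp v4.e_hgp
    (v.h + (1 : ℝ)) rfl).2
    v2.ih v2.e_ih
    (v.h * v2.ih) rfl
    v2.rh (v2.e_rh.trans (congrArg (fun y : ℝ => y * (v.h * v2.ih)) zC_2199023255552_0))
    v2.mi v2.e_mi
    v2.hm v2.e_hm
    v2.nih v2.e_nih
    (v2.nih * v2.mi) rfl
    v2.bsum v2.e_bsum
    v2.eK v2.e_eK
    ((1 / 4) * v.e) (congrArg (fun y : ℝ => y * v.e) zC_274877906944_0)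
    (2 : ℝ) zC_2199023255552_0
    G0 e_G0
    G2 e_G2
    (v2.eK * v2.eK) rfl
    (7 : ℝ) zC_7696581394432_0
    (10 : ℝ) zC_10995116277760_0).2
    ((10 : ℝ)⁻¹) rfl
    ((7 : ℝ) * (10 : ℝ)⁻¹) rfl
    (v2.eK * v2.eK * ((7 : ℝ) * (10 : ℝ)⁻¹)) rfl
    GG e_GG
    G3 e_G3).2
    (GG⁻¹) rfl
    A e_A).2
    (G3⁻¹) rfl
    iA e_iA
    ((209 / 1024) * v.j) (congrArg (fun y : ℝ => y * v.j) zC_224412041216_0)).2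
    (v2.Yp⁻¹) rfl
    v2.lm v2.e_lm
    (A * v.op1) rfl
    m.Xe m.e_Xe
    m.XM m.e_XM
    ((1 : ℝ) - m.XM) rfl).2
    m.iX m.e_iX
    m.QX m.e_QX
    ((1 : ℝ) - m.QX) rfl).2
    m.iQX m.e_iQX
    (v2.eK + (2 : ℝ)) rfl).2
    i2 e_i2
    (v.om1 * v.e) rfl
    (v.om1 * v.e * v.t) rfl
    z e_z
    ((1 / 2) * z) (congrArg (fun y : ℝ => y * z) zC_549755813888_0)
    ((1 : ℝ) - (1 / 2) * z) rfl
    ((1 : ℝ) - z) rfl).2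
    (((1 : ℝ) - z)⁻¹) rfl
    kz e_kz
    (kz * i2) rfl
    kk e_kk
    (v.t * v.nj) rfl
    phu e_phu
    lf e_lf
  change 0 < (1 : ℝ) - z at p_z1
  obtain ⟨p_L, s5⟩ := s4
    L e_L
    ((5 / 4) * L) (congrArg (fun y : ℝ => y * L) zC_1374389534720_0)
    ((1 / 2 : ℝ) - (5 / 4) * L) rfl
  change 0 < (1 / 2 : ℝ) - (5 / 4) * L at p_L
  obtain ⟨p_XM, s6⟩ := (((((((((((s5
    ((45 / 16) * L) (congrArg (fun y : ℝ => y * L) zC_3092376453120_0)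
    ((45 / 16) * L + (2 : ℝ)) rfl
    (L * ((45 / 16) * L + (2 : ℝ))) rfl
    Ei e_Ei
    ((45 / 32) * L) (congrArg (fun y : ℝ => y * L) zC_1546188226560_0)
    ((45 / 32) * L + (1 : ℝ)) rfl
    (L * ((45 / 32) * L + (1 : ℝ))) rfl
    Eh e_Eh
    (v.h * v.nj) rfl
    ((1 : ℝ) - v.f2) rfl
    (v.h * v.om) rfl
    (2 * (v.h * v.om)) (congrArg (fun y : ℝ => y * (v.h * v.om)) zC_2199023255552_0)
    ((1 : ℝ) - v.f2 - 2 * (v.h * v.om)) rfl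
    (v.h * v.nj * (v.h * v.nj)) rfl
    m.N1 m.e_N1
    (m.N1 + (1 : ℝ)) rfl
    m.s (m.e_s.trans (congrArg (fun y : ℝ => y * (m.N1 + (1 : ℝ))) zC_549755813888_0))
    ((1 / 2) * v.R) (congrArg (fun y : ℝ => y * v.R) zC_549755813888_0)
    (v.j - (1 / 2) * v.R) rfl
    (v.tu2 * ((1 : ℝ) - v.f2)) rfl
    (v.tu2 * ((1 : ℝ) - v.f2) * v.jm) rfl
    ((1 / 8) * (v.tu2 * ((1 : ℝ) - v.f2) * v.jm)) (congrArg (fun y : ℝ => y * (v.tu2 * ((1 : ℝ) - v.f2) * v.jm)) zC_137438953472_0)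
    (v.j - (1 / 2) * v.R + (1 / 8) * (v.tu2 * ((1 : ℝ) - v.f2) * v.jm)) rfl
    m.k0 m.e_k0
    m.ls m.e_ls
    m.Q1 m.e_Q1
    (m.Q1 * m.iX) rfl
    (m.Qb * m.iQX) rfl
    (m.Q1 * m.iX + m.Qb * m.iQX) rfl
    (m.XM * (m.Q1 * m.iX + m.Qb * m.iQX)) rfl
    (m.ls + m.XM * (m.Q1 * m.iX + m.Qb * m.iQX)) rfl
    m.a0 m.e_a0
    (m.Q1 * m.XM) rfl
    (m.Q1 * m.XM * m.iX) rfl
    (m.ls + m.Q1 * m.XM * m.iX) rfl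
    m.l1 m.e_l1
    ((13 / 64) * m.l1) (congrArg (fun y : ℝ => y * m.l1) zC_223338299392_0)
    ((1 / 2 : ℝ) + (13 / 64) * m.l1) rfl
    (m.l1 * ((1 / 2 : ℝ) + (13 / 64) * m.l1)) rfl
    m.Na m.e_Na
    ((13 / 16) * m.a0) (congrArg (fun y : ℝ => y * m.a0) zC_893353197568_0)
    ((1 : ℝ) + (13 / 16) * m.a0) rfl
    (m.a0 * ((1 : ℝ) + (13 / 16) * m.a0)) rfl
    m.Nb m.e_Nb
    (v2.rh * v2.nih) rfl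
    (v2.rh * v2.nih * Ei) rfl
    m.rn m.e_rn
    (m.k0 * m.Na) rfl
    (v.aQ + (1 / 2 : ℝ)) rfl
    (m.rn * (v.aQ + (1 / 2 : ℝ))) rfl
    m.ka m.e_ka
    (v.aQ + (1 : ℝ)) rfl
    m.kb m.e_kb
    (Eh * (v.aQ + (1 : ℝ))) rfl
    (Eh * (v.aQ + (1 : ℝ)) * v2.nih) rfl
    m.lfk m.e_lfk
    (v.tu * v2.bsum) rfl).2
    (v.aQ⁻¹) rfl
    (v.tu * v2.bsum * v.aQ⁻¹) rfl
    m.bte (m.e_bte.trans (congrArg (fun y : ℝ => y * (v.tu * v2.bsum * v.aQ⁻¹)) zC_549755813888_0))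
    (v.h1t * v.u⁻¹) rfl
    (v.h1t * v.u⁻¹ * ga) rfl
    m.lsi m.e_lsi
    (v.om1 * m.bte) rfl
    (m.ka * m.lsi) rfl
    (m.lfk * phu) rfl
    (m.ka * m.lsi + m.lfk * phu) rfl
    ((m.ka * m.lsi + m.lfk * phu) * v.ei) rfl
    m.src m.e_src
    (m.ka * m.Q1) rfl
    (m.ka * m.Q1 * m.iX) rfl
    (m.kb * m.Qb) rfl
    (m.kb * m.Qb * m.iQX) rfl
    (m.ka * m.Q1 * m.iX + m.kb * m.Qb * m.iQX) rfl
    m.fx m.e_fx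
    (v.om1 * m.src) rfl
    (m.Xe * m.fx) rfl
    m.eps m.e_eps
    (v.tu2 * m.eps) rfl
    (v.tu2 * m.eps * v.aQ⁻¹) rfl
    ((1 : ℝ) - v.tu2 * m.eps * v.aQ⁻¹) rfl).2
    m.NN m.e_NN
    m.eN m.e_eN
    m.d m.e_d
    m.eta m.e_eta
    (m.eta * v.aQ⁻¹) rfl
    ((1 : ℝ) - m.eta * v.aQ⁻¹) rfl
    (v.rhat * ((1 : ℝ) - m.eta * v.aQ⁻¹)) rfl
    m.rl m.e_rl).2
    m.irl m.e_irl
    m.yy m.e_yy
    (v.aQ - m.eta) rfl).2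
    c.q0 c.e_q0
    c.zp c.e_zp
    (v.e * c.q0) rfl
    (v4.gap * m.irl) rfl).2
    (v.R⁻¹) rfl
    (v4.gap * m.irl * v.R⁻¹) rfl
    ((1 / 2) * c.zp) (congrArg (fun y : ℝ => y * c.zp) zC_549755813888_0)
    ((1 : ℝ) - (1 / 2) * c.zp) rfl
    ((1 : ℝ) - c.zp) rfl).2
    (((1 : ℝ) - c.zp)⁻¹) rfl
    (((1 : ℝ) - (1 / 2) * c.zp) * ((1 : ℝ) - c.zp)⁻¹) rfl
    (v4.gap * m.irl * v.R⁻¹ * (((1 : ℝ) - (1 / 2) * c.zp) * ((1 : ℝ) - c.zp)⁻¹)) rfl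
    c.C1 c.e_C1
    c.rr c.e_rr
    ((13 / 64) * c.rr) (congrArg (fun y : ℝ => y * c.rr) zC_223338299392_0)
    ((1 / 2 : ℝ) + (13 / 64) * c.rr) rfl
    (c.rr * ((1 / 2 : ℝ) + (13 / 64) * c.rr)) rfl
    ((1 : ℝ) + c.rr * ((1 / 2 : ℝ) + (13 / 64) * c.rr)) rfl
    (c.C1 * ((1 : ℝ) + c.rr * ((1 / 2 : ℝ) + (13 / 64) * c.rr))) rfl
    (c.C1 * ((1 : ℝ) + c.rr * ((1 / 2 : ℝ) + (13 / 64) * c.rr)) * m.NN) rfl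
    c.C c.e_C
    (c.C * v.u) rfl
    c.fbt c.e_fbt
    (c.C * iA) rfl
    (c.C * iA * v.u) rfl).2
    (v.op1⁻¹) rfl
    (c.C * iA * v.u * v.op1⁻¹) rfl
    (v.e * v.om1) rfl
    (v.e * v.om1 * m.bte) rfl
    (v.e * v.om1 * m.bte + m.ka * m.lsi) rfl
    (v.e * v.om1 * m.bte + m.ka * m.lsi + m.lfk * phu) rfl
    c.FX c.e_FX
    (A * v.tu) rfl
    (A * v.tu * v.op1) rfl
    m.XLt m.e_XLt
    (9 : ℝ) zC_9895604649984_0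
    (20 : ℝ) zC_21990232555520_0).2
    ((20 : ℝ)⁻¹) rfl
    m.beta m.e_beta
    (v4.hgp + (1 : ℝ)) rfl
    (v4.hgp * (v4.hgp + (1 : ℝ))) rfl
    (v.rp + v4.hgp * (v4.hgp + (1 : ℝ))) rfl
    f.dri f.e_dri
    (v.qp * (v4.hgp + (1 : ℝ))) rfl
    ((5 / 8) * f.dri) (congrArg (fun y : ℝ => y * f.dri) zC_687194767360_0)
    ((1 : ℝ) + (5 / 8) * f.dri) rfl
    (f.dri * ((1 : ℝ) + (5 / 8) * f.dri)) rfl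
    ((1 : ℝ) + f.dri * ((1 : ℝ) + (5 / 8) * f.dri)) rfl
    f.Qp f.e_Qp
    (v.K + v.t) rfl
    ((v.h + (1 : ℝ)) * (v.K + v.t)) rfl
    ((v.h + (1 : ℝ)) * (v.K + v.t) * m.beta) rfl
    ((1 : ℝ) + (v.h + (1 : ℝ)) * (v.K + v.t) * m.beta) rfl).2
    f.Lam f.e_Lam
    (f.Qp * f.Lam) rfl
    (f.Qp * f.Lam * v.m) rfl
    (v.tu * m.eN) rfl
    (v.tu * m.eN * v.op1⁻¹) rfl
    ((1 : ℝ) + v.tu * m.eN * v.op1⁻¹) rfl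
    (f.Qp * f.Lam * v.m * ((1 : ℝ) + v.tu * m.eN * v.op1⁻¹)) rfl
    f.c1 (c1_C c f)
    f.fb f.e_fb
    (f.fb * m.XM) rfl
    (v.t * m.XLt) rfl
    (c.FX * (v.t * m.XLt)) rfl
    f.r f.e_r
    (f.fb + c.FX) rfl
    ((1 : ℝ) + f.r) rfl
    (f.c1 * ((1 : ℝ) + f.r)) rfl
    (f.fb + c.FX + f.c1 * ((1 : ℝ) + f.r)) rfl
    f.Bm f.e_Bm
    ((1 / 1024) * v.t) (congrArg (fun y : ℝ => y * v.t) zC_1073741824_0)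
    (f.Bm - (1 / 1024) * v.t) rfl
    m.m1 m.e_m1
    (m.m1 + (2 : ℝ)) rfl
    (2 * m.beta) (congrArg (fun y : ℝ => y * m.beta) zC_2199023255552_0)
    (m.m1 + (2 : ℝ) - 2 * m.beta) rfl
    ((v.h + (1 : ℝ)) * (m.m1 + (2 : ℝ) - 2 * m.beta)) rfl
    (m.m1 * (2 * m.beta)) rfl
    (m.m1 * (2 * m.beta) + (1 : ℝ)) rfl).2
    ((m.m1 * (2 * m.beta) + (1 : ℝ))⁻¹) rfl
    ((v.h + (1 : ℝ)) * (m.m1 + (2 : ℝ) - 2 * m.beta) * (m.m1 * (2 * m.beta) + (1 : ℝ))⁻¹) rfl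
    (A * m.fx) rfl
    ((1 / 2) * v2.lm) (congrArg (fun y : ℝ => y * v2.lm) zC_549755813888_0)
    (v.K + (1 / 2) * v2.lm) rfl
    (A * m.fx * (v.K + (1 / 2) * v2.lm)) rfl
    (2 * (A * m.fx * (v.K + (1 / 2) * v2.lm))) (congrArg (fun y : ℝ => y * (A * m.fx * (v.K + (1 / 2) * v2.lm))) zC_2199023255552_0)
    (m.src + 2 * (A * m.fx * (v.K + (1 / 2) * v2.lm))) rfl
    (2 * (m.src + 2 * (A * m.fx * (v.K + (1 / 2) * v2.lm)))) (congrArg (fun y : ℝ => y * (m.src + 2 * (A * m.fx * (v.K + (1 / 2) * v2.lm)))) zC_2199023255552_0)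
    (2 * (m.src + 2 * (A * m.fx * (v.K + (1 / 2) * v2.lm))) * m.NN) rfl
    (v.op1 - v.tu * m.eN) rfl).2
    ((v.op1 - v.tu * m.eN)⁻¹) rfl
    (2 * (m.src + 2 * (A * m.fx * (v.K + (1 / 2) * v2.lm))) * m.NN * (v.op1 - v.tu * m.eN)⁻¹) rfl
    m.V m.e_V
  change 0 < (1 : ℝ) - m.XM at p_XM
  obtain ⟨p_QX, s7⟩ := s6
  change 0 < (1 : ℝ) - m.QX at p_QX
  obtain ⟨p_e2, s8⟩ := s7
    (2 * (v.tu2 * m.eps)) (congrArg (fun y : ℝ => y * (v.tu2 * m.eps)) zC_2199023255552_0)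
    (v.aQ - 2 * (v.tu2 * m.eps)) rfl
  change 0 < v.aQ - 2 * (v.tu2 * m.eps) at p_e2
  obtain ⟨p_rl, s9⟩ := s8
  change 0 < m.rl at p_rl
  obtain ⟨p_hg, s10⟩ := s9
  change 0 < (1 : ℝ) - m.hg at p_hg
  obtain ⟨p_hgp, s11⟩ := s10
    ((1 / 2 : ℝ) - v4.hgp) rfl
  change 0 < (1 / 2 : ℝ) - v4.hgp at p_hgp
  obtain ⟨p_l1, s12⟩ := s11
    ((5 / 8) * (1 : ℝ)) (congrArg (fun y : ℝ => y * (1 : ℝ)) zC_687194767360_0)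
    ((5 / 8) * (1 : ℝ) - m.l1) rfl
  change 0 < (5 / 8) * (1 : ℝ) - m.l1 at p_l1
  obtain ⟨p_a0, s13⟩ := s12
    ((11 / 32) * (1 : ℝ)) (congrArg (fun y : ℝ => y * (1 : ℝ)) zC_377957122048_0)
    ((11 / 32) * (1 : ℝ) - m.a0) rfl
  change 0 < (11 / 32) * (1 : ℝ) - m.a0 at p_a0
  obtain ⟨p_S, s14⟩ := s13
  change 0 < v.op1 - v.tu * m.eN at p_S
  obtain ⟨p_dri, s15⟩ := s14
    ((1 / 2 : ℝ) - f.dri) rfl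
  change 0 < (1 / 2 : ℝ) - f.dri at p_dri
  obtain ⟨p_zp, s16⟩ := s15
  change 0 < (1 : ℝ) - c.zp at p_zp
  obtain ⟨p_rr, s17⟩ := s16
    ((5 / 8) * (1 : ℝ) - c.rr) rfl
  change 0 < (5 / 8) * (1 : ℝ) - c.rr at p_rr
  obtain ⟨p_V, s18⟩ := s17
  change 0 < m.V at p_V
  obtain ⟨p_B, s19⟩ := s18
  change 0 < f.Bm - (1 / 1024) * v.t at p_B
  obtain ⟨lf0, Ex, hφ⟩ := phi_te G v2 e_i2 e_z p_z1 e_kz e_kk e_phu e_lf e_L p_L e_Ei e_Eh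
  exact far_C G ⟨p_o2, p_W, p_o2p, p_Wp, p_XM, p_QX, p_e2, p_rl, p_hg, p_hgp, p_l1, p_a0, p_S, p_V⟩ D hA hiA e_g e_ga hφ (fun _ _ _ τ' h1 _ => hE τ' h1) c f
    p_dri p_zp p_rr p_B

theorem far_C2 {κ : ℝ} {τ : ℂ} {R w : ℝ} {E : Set ℂ} (D : PtD κ τ R w) {v : B1}
    (G : Geo κ (shf κ τ) v) (v2 : B2 v) (he2 : 2 ≤ v.e) {yv psi : ℝ} (cy : CV v v2 yv psi) (h : RAs Pool.Agent.helper71.FF.Crt.C.prog2 [v.e, v.h, yv, psi])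
    (hE : ∀ τ' : ℂ, 0 < τ'.re → τ' ∈ E) :
    FarPt v.e κ (1 - Real.sinh κ / 1024) w (2 * AG v.e v.K * Real.sinh κ ^ 2) R E τ := by
  obtain ⟨e_om1c, e_omc, e_uc, e_tc, e_njc, e_nc⟩ := cy.all G
  obtain ⟨G0, e_G0⟩ : ∃ zz : ℝ, zz = (1 / 4) * v.e + (2 : ℝ) := ⟨_, rfl⟩
  obtain ⟨G2, e_G2⟩ : ∃ zz : ℝ, zz = G0 * G0 := ⟨_, rfl⟩
  obtain ⟨GG, e_GG⟩ : ∃ zz : ℝ, zz = G2 + v2.eK * v2.eK * ((7 : ℝ) * (10 : ℝ)⁻¹) := ⟨_, rfl⟩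
  obtain ⟨G3, e_G3⟩ : ∃ zz : ℝ, zz = G2 * G0 := ⟨_, rfl⟩
  obtain ⟨A, e_A⟩ : ∃ zz : ℝ, zz = G3 * GG⁻¹ := ⟨_, rfl⟩
  obtain ⟨iA, e_iA⟩ : ∃ zz : ℝ, zz = GG * G3⁻¹ := ⟨_, rfl⟩
  obtain ⟨hA, hiA, hAe⟩ := ab_G G v2 e_G0 e_G2 e_GG e_G3 e_A e_iA
  rw [hAe]
  obtain ⟨b⟩ := exGB v.q v.x v.h1
  obtain ⟨v3⟩ := exB3 v
  obtain ⟨b'⟩ := exGB v.qp v3.xp v3.hp
  obtain ⟨v4⟩ := exB4 v3 b'
  obtain ⟨g, e_g⟩ : ∃ zz : ℝ, zz = (1 / 2) * (((1 : ℝ) - v.q) * b.q1 * b.W⁻¹) := ⟨_, rfl⟩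
  obtain ⟨ga, e_ga⟩ : ∃ zz : ℝ, zz = g * (g + (1 / 2 : ℝ))⁻¹ := ⟨_, rfl⟩
  obtain ⟨i2, e_i2⟩ : ∃ zz : ℝ, zz = (v2.eK + (2 : ℝ))⁻¹ := ⟨_, rfl⟩
  obtain ⟨z, e_z⟩ : ∃ zz : ℝ, zz = v.om1 * v.e * v.t * i2 := ⟨_, rfl⟩
  obtain ⟨kz, e_kz⟩ : ∃ zz : ℝ, zz = ((1 : ℝ) - (1 / 2) * z) * ((1 : ℝ) - z)⁻¹ := ⟨_, rfl⟩
  obtain ⟨kk, e_kk⟩ : ∃ zz : ℝ, zz = kz * i2 * v.e := ⟨_, rfl⟩
  obtain ⟨phu, e_phu⟩ : ∃ zz : ℝ, zz = v.t * v.nj * kk := ⟨_, rfl⟩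
  obtain ⟨lf, e_lf⟩ : ∃ zz : ℝ, zz = z * kz := ⟨_, rfl⟩
  obtain ⟨L, e_L⟩ : ∃ zz : ℝ, zz = lf * v.ei := ⟨_, rfl⟩
  obtain ⟨Ei, e_Ei⟩ : ∃ zz : ℝ, zz = (1 : ℝ) + L * ((45 / 16) * L + (2 : ℝ)) := ⟨_, rfl⟩
  obtain ⟨Eh, e_Eh⟩ : ∃ zz : ℝ, zz = (1 : ℝ) + L * ((45 / 32) * L + (1 : ℝ)) := ⟨_, rfl⟩
  obtain ⟨m⟩ := exMid v v2 b A g ga phu Ei Eh
  obtain ⟨c⟩ := exCF m iA
  obtain ⟨f⟩ := exFinS m v4 c.fbt c.FX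
  obtain ⟨p_o2, s0⟩ := ((((((((((h
    (1 : ℝ) zC_1099511627776_0
    (1 / 2 : ℝ) zC_549755813888_0
    (v.h * v.h) rfl
    v.jm v.e_jm).2
    v.j v.e_j
    (v.h * v.j) rfl
    v.K (v.e_K.trans (congrArg (fun y : ℝ => y * (v.h * v.j)) zC_2199023255552_0))
    (2 * v.j) (congrArg (fun y : ℝ => y * v.j) zC_2199023255552_0)
    v.c0 v.e_c0
    v.m v.e_m
    v2.Y (v2.e_Y.trans (congrArg (fun y : ℝ => y * v.h) zC_10774999203840_0))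
    ((341 / 8192) * v2.Y) (congrArg (fun y : ℝ => y * v2.Y) zC_45768245248_0)
    (1365 / 8192 : ℝ) zC_183207198720_0
    ((341 / 8192) * v2.Y + (1365 / 8192 : ℝ)) rfl
    (v2.Y * ((341 / 8192) * v2.Y + (1365 / 8192 : ℝ))) rfl
    ((1 / 2 : ℝ) + v2.Y * ((341 / 8192) * v2.Y + (1365 / 8192 : ℝ))) rfl
    (v2.Y * ((1 / 2 : ℝ) + v2.Y * ((341 / 8192) * v2.Y + (1365 / 8192 : ℝ)))) rfl
    v2.pY v2.e_pY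
    (v2.Y * v2.pY) rfl
    ((1 / 2) * (v2.Y * v2.pY)) (congrArg (fun y : ℝ => y * (v2.Y * v2.pY)) zC_549755813888_0)
    ((1 : ℝ) + (1 / 2) * (v2.Y * v2.pY)) rfl
    v2.Yp v2.e_Yp
    (v2.Y * v2.Yp) rfl
    ((1 : ℝ) + v2.Y * v2.Yp) rfl).2
    (((1 : ℝ) + v2.Y * v2.Yp)⁻¹) rfl
    v.om1 e_om1c
    v.om e_omc
    v.op1 v.e_op1
    ((1 : ℝ) - psi) rfl
    (v.om1 * ((1 : ℝ) - psi)) rfl
    v.u e_uc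
    v.u2 v.e_u2).2
    (v.om⁻¹) rfl
    v.t e_tc
    v.tu v.e_tu).2
    (v.u⁻¹) rfl
    v.nj e_njc
    v.n e_nc
    v.R v.e_R
    (v.K * v.om) rfl
    (2 * v.c0) (congrArg (fun y : ℝ => y * v.c0) zC_2199023255552_0)
    (v.K * v.om + 2 * v.c0) rfl
    v.Dt v.e_Dt
    v.D v.e_D
    v.SQ v.e_SQ
    (v.K * v.K) rfl
    (2 * (v.K * v.K)) (congrArg (fun y : ℝ => y * (v.K * v.K)) zC_2199023255552_0)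
    v.c2 v.e_c2
    (v.c0 * v.Dt) rfl
    v.rhat v.e_rhat).2
    v.LQ v.e_LQ
    ((1 / 2) * v.LQ) (congrArg (fun y : ℝ => y * v.LQ) zC_549755813888_0)
    v.aQ v.e_aQ
    v.ee (v.e_ee.trans (congrArg (fun y : ℝ => y * v.e) zC_549755813888_0))
    v.rho v.e_rho
    (-v.rho) rfl
    v.q v.e_q
    (v.c0 * v.R) rfl
    (v.c0 * v.R * v.rhat) rfl
    v.D2 (v.e_D2.trans (congrArg (fun y : ℝ => y * (v.c0 * v.R * v.rhat)) zC_4398046511104_0))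
    (v.D2 + (1 : ℝ)) rfl).2
    (Real.log (v.D2 + (1 : ℝ))) rfl
    v.L2 v.e_L2
    v.rp v.e_rp
    (-v.rp) rfl
    v.qp v.e_qp
    (v.om * v.K) rfl
    (v.c0 + v.om * v.K) rfl).2
    v.ioK v.e_ioK
    v.h1t v.e_h1t
    (v.om1 * v.t) rfl
    v.h1 v.e_h1
    v.nj2 v.e_nj2
    ((1 : ℝ) - v.u2) rfl
    v.f2 v.e_f2
    v.tu2 v.e_tu2
    (v.c0 + v.R) rfl).2
    ((v.c0 + v.R)⁻¹) rfl
    v.w v.e_w
    (v.w * v.w) rfl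
    (v.tu2 * ((1 : ℝ) - v.u2)) rfl
    ((1 : ℝ) - v.nj2) rfl
    (v.tu2 * ((1 : ℝ) - v.u2) * ((1 : ℝ) - v.nj2)) rfl
    v.x v.e_x).2
    v.ei v.e_ei
    (21845 / 524288 : ℝ) zC_45812285440_0
    ((11651 / 8388608) * v.x) (congrArg (fun y : ℝ => y * v.x) zC_1527119872_0)
    ((21845 / 524288 : ℝ) - (11651 / 8388608) * v.x) rfl
    (v.x * ((21845 / 524288 : ℝ) - (11651 / 8388608) * v.x)) rfl
    ((1 / 2 : ℝ) - v.x * ((21845 / 524288 : ℝ) - (11651 / 8388608) * v.x)) rfl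
    (v.x * ((1 / 2 : ℝ) - v.x * ((21845 / 524288 : ℝ) - (11651 / 8388608) * v.x))) rfl
    b.cc b.e_cc
    b.q1 b.e_q1
    (v.q * v.q) rfl
    (v.q * v.q + (1 : ℝ)) rfl
    (v.q * b.cc) rfl
    (2 * (v.q * b.cc)) (congrArg (fun y : ℝ => y * (v.q * b.cc)) zC_2199023255552_0)
    b.o2 b.e_o2).2
    (b.q1⁻¹) rfl
    (b.o2 * b.q1⁻¹) rfl
    b.P1 b.e_P1
    (v.q * v.h1) rfl
    b.qh (b.e_qh.trans (congrArg (fun y : ℝ => y * (v.q * v.h1)) zC_549755813888_0))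
    (b.qh * b.P1) rfl
    b.W b.e_W
  change 0 < b.o2 at p_o2
  obtain ⟨p_W, s1⟩ := s0
  change 0 < b.W at p_W
  obtain ⟨p_o2p, s2⟩ := ((((((((s1).2
    b.W⁻¹ rfl
    (v.ee * v.Dt) rfl
    (6 : ℝ) zC_6597069766656_0
    (v.D + (6 : ℝ)) rfl
    (v.ee * v.Dt * (v.D + (6 : ℝ))) rfl
    (4 * v.D) (congrArg (fun y : ℝ => y * v.D) zC_4398046511104_0)
    (4 * v.D + (6 : ℝ)) rfl).2
    ((4 * v.D + (6 : ℝ))⁻¹) rfl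
    c.rhoR c.e_rhoR
    ((1 : ℝ) - v.q) rfl
    (((1 : ℝ) - v.q) * b.q1) rfl
    (((1 : ℝ) - v.q) * b.q1 * b.W⁻¹) rfl
    g (e_g.trans (congrArg (fun y : ℝ => y * (((1 : ℝ) - v.q) * b.q1 * b.W⁻¹)) zC_549755813888_0))
    (g + (1 / 2 : ℝ)) rfl).2
    ((g + (1 / 2 : ℝ))⁻¹) rfl
    ga e_ga
    (b.qh * g) rfl
    (b.qh * g + (1 / 2 : ℝ)) rfl
    ((b.qh * g + (1 / 2 : ℝ)) * b.P1) rfl).2
    (b.o2⁻¹) rfl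
    m.fa m.e_fa
    m.hg m.e_hg
    ((1 / 2) * m.hg) (congrArg (fun y : ℝ => y * m.hg) zC_549755813888_0)
    ((1 : ℝ) - (1 / 2) * m.hg) rfl
    ((1 : ℝ) - m.hg) rfl).2
    (((1 : ℝ) - m.hg)⁻¹) rfl
    m.lsf m.e_lsf
    (m.hg + (1 : ℝ)) rfl
    m.Qb m.e_Qb
    (v.om1 * v.op1) rfl
    (v.c0 + v.t) rfl
    (v.om * v.c0) rfl
    (v.om * v.c0 * v.K) rfl
    (2 * (v.om * v.c0 * v.K)) (congrArg (fun y : ℝ => y * (v.om * v.c0 * v.K)) zC_2199023255552_0)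
    (v.c2 + 2 * (v.om * v.c0 * v.K)) rfl
    ((v.c0 + v.t) * (v.c2 + 2 * (v.om * v.c0 * v.K))) rfl).2
    (((v.c0 + v.t) * (v.c2 + 2 * (v.om * v.c0 * v.K)))⁻¹) rfl
    v3.hpt v3.e_hpt
    v3.hp v3.e_hp).2
    (v.SQ⁻¹) rfl
    v3.xp v3.e_xp
    ((11651 / 8388608) * v3.xp) (congrArg (fun y : ℝ => y * v3.xp) zC_1527119872_0)
    ((21845 / 524288 : ℝ) - (11651 / 8388608) * v3.xp) rfl
    (v3.xp * ((21845 / 524288 : ℝ) - (11651 / 8388608) * v3.xp)) rfl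
    ((1 / 2 : ℝ) - v3.xp * ((21845 / 524288 : ℝ) - (11651 / 8388608) * v3.xp)) rfl
    (v3.xp * ((1 / 2 : ℝ) - v3.xp * ((21845 / 524288 : ℝ) - (11651 / 8388608) * v3.xp))) rfl
    b'.cc b'.e_cc
    b'.q1 b'.e_q1
    (v.qp * v.qp) rfl
    (v.qp * v.qp + (1 : ℝ)) rfl
    (v.qp * b'.cc) rfl
    (2 * (v.qp * b'.cc)) (congrArg (fun y : ℝ => y * (v.qp * b'.cc)) zC_2199023255552_0)
    b'.o2 b'.e_o2).2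
    (b'.q1⁻¹) rfl
    (b'.o2 * b'.q1⁻¹) rfl
    b'.P1 b'.e_P1
    (v.qp * v3.hp) rfl
    b'.qh (b'.e_qh.trans (congrArg (fun y : ℝ => y * (v.qp * v3.hp)) zC_549755813888_0))
    (b'.qh * b'.P1) rfl
    b'.W b'.e_W
  change 0 < b'.o2 at p_o2p
  obtain ⟨p_Wp, s3⟩ := s2
  change 0 < b'.W at p_Wp
  obtain ⟨p_z1, s4⟩ := (((((((((((s3
    ((1 : ℝ) - v.qp) rfl
    (((1 : ℝ) - v.qp) * b'.q1) rfl).2
    (b'.W⁻¹) rfl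
    (((1 : ℝ) - v.qp) * b'.q1 * b'.W⁻¹) rfl
    v4.gp (v4.e_gp.trans (congrArg (fun y : ℝ => y * (((1 : ℝ) - v.qp) * b'.q1 * b'.W⁻¹)) zC_549755813888_0))
    (v4.gp + (1 / 2 : ℝ)) rfl).2
    ((v4.gp + (1 / 2 : ℝ))⁻¹) rfl
    v4.gap v4.e_gap
    v4.hgp v4.e_hgp
    (v.h + (1 : ℝ)) rfl).2
    v2.ih v2.e_ih
    (v.h * v2.ih) rfl
    v2.rh (v2.e_rh.trans (congrArg (fun y : ℝ => y * (v.h * v2.ih)) zC_2199023255552_0))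
    v2.mi v2.e_mi
    v2.hm v2.e_hm
    v2.nih v2.e_nih
    (v2.nih * v2.mi) rfl
    v2.bsum v2.e_bsum
    v2.eK v2.e_eK
    ((1 / 4) * v.e) (congrArg (fun y : ℝ => y * v.e) zC_274877906944_0)
    (2 : ℝ) zC_2199023255552_0
    G0 e_G0
    G2 e_G2
    (v2.eK * v2.eK) rfl
    (7 : ℝ) zC_7696581394432_0
    (10 : ℝ) zC_10995116277760_0).2
    ((10 : ℝ)⁻¹) rfl
    ((7 : ℝ) * (10 : ℝ)⁻¹) rfl
    (v2.eK * v2.eK * ((7 : ℝ) * (10 : ℝ)⁻¹)) rfl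
    GG e_GG
    G3 e_G3).2
    (GG⁻¹) rfl
    A e_A).2
    (G3⁻¹) rfl
    iA e_iA
    ((209 / 1024) * v.j) (congrArg (fun y : ℝ => y * v.j) zC_224412041216_0)).2
    (v2.Yp⁻¹) rfl
    v2.lm v2.e_lm
    (A * v.op1) rfl
    m.Xe m.e_Xe
    m.XM m.e_XM
    ((1 : ℝ) - m.XM) rfl).2
    m.iX m.e_iX
    m.QX m.e_QX
    ((1 : ℝ) - m.QX) rfl).2
    m.iQX m.e_iQX
    (v2.eK + (2 : ℝ)) rfl).2
    i2 e_i2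
    (v.om1 * v.e) rfl
    (v.om1 * v.e * v.t) rfl
    z e_z
    ((1 / 2) * z) (congrArg (fun y : ℝ => y * z) zC_549755813888_0)
    ((1 : ℝ) - (1 / 2) * z) rfl
    ((1 : ℝ) - z) rfl).2
    (((1 : ℝ) - z)⁻¹) rfl
    kz e_kz
    (kz * i2) rfl
    kk e_kk
    (v.t * v.nj) rfl
    phu e_phu
    lf e_lf
  change 0 < (1 : ℝ) - z at p_z1
  obtain ⟨p_L, s5⟩ := s4
    L e_L
    ((5 / 4) * L) (congrArg (fun y : ℝ => y * L) zC_1374389534720_0)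
    ((1 / 2 : ℝ) - (5 / 4) * L) rfl
  change 0 < (1 / 2 : ℝ) - (5 / 4) * L at p_L
  obtain ⟨p_XM, s6⟩ := ((((((((((((s5
    ((45 / 16) * L) (congrArg (fun y : ℝ => y * L) zC_3092376453120_0)
    ((45 / 16) * L + (2 : ℝ)) rfl
    (L * ((45 / 16) * L + (2 : ℝ))) rfl
    Ei e_Ei
    ((45 / 32) * L) (congrArg (fun y : ℝ => y * L) zC_1546188226560_0)
    ((45 / 32) * L + (1 : ℝ)) rfl
    (L * ((45 / 32) * L + (1 : ℝ))) rfl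
    Eh e_Eh
    (v.h * v.nj) rfl
    ((1 : ℝ) - v.f2) rfl
    (v.h * v.om) rfl
    (2 * (v.h * v.om)) (congrArg (fun y : ℝ => y * (v.h * v.om)) zC_2199023255552_0)
    ((1 : ℝ) - v.f2 - 2 * (v.h * v.om)) rfl
    (v.h * v.nj * (v.h * v.nj)) rfl
    m.N1 m.e_N1
    (m.N1 + (1 : ℝ)) rfl
    m.s (m.e_s.trans (congrArg (fun y : ℝ => y * (m.N1 + (1 : ℝ))) zC_549755813888_0))
    ((1 / 2) * v.R) (congrArg (fun y : ℝ => y * v.R) zC_549755813888_0)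
    (v.j - (1 / 2) * v.R) rfl
    (v.tu2 * ((1 : ℝ) - v.f2)) rfl
    (v.tu2 * ((1 : ℝ) - v.f2) * v.jm) rfl
    ((1 / 8) * (v.tu2 * ((1 : ℝ) - v.f2) * v.jm)) (congrArg (fun y : ℝ => y * (v.tu2 * ((1 : ℝ) - v.f2) * v.jm)) zC_137438953472_0)
    (v.j - (1 / 2) * v.R + (1 / 8) * (v.tu2 * ((1 : ℝ) - v.f2) * v.jm)) rfl
    m.k0 m.e_k0
    m.ls m.e_ls
    m.Q1 m.e_Q1
    (m.Q1 * m.iX) rfl
    (m.Qb * m.iQX) rfl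
    (m.Q1 * m.iX + m.Qb * m.iQX) rfl
    (m.XM * (m.Q1 * m.iX + m.Qb * m.iQX)) rfl
    (m.ls + m.XM * (m.Q1 * m.iX + m.Qb * m.iQX)) rfl
    m.a0 m.e_a0
    (m.Q1 * m.XM) rfl
    (m.Q1 * m.XM * m.iX) rfl
    (m.ls + m.Q1 * m.XM * m.iX) rfl
    m.l1 m.e_l1
    ((13 / 64) * m.l1) (congrArg (fun y : ℝ => y * m.l1) zC_223338299392_0)
    ((1 / 2 : ℝ) + (13 / 64) * m.l1) rfl
    (m.l1 * ((1 / 2 : ℝ) + (13 / 64) * m.l1)) rfl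
    m.Na m.e_Na
    ((13 / 16) * m.a0) (congrArg (fun y : ℝ => y * m.a0) zC_893353197568_0)
    ((1 : ℝ) + (13 / 16) * m.a0) rfl
    (m.a0 * ((1 : ℝ) + (13 / 16) * m.a0)) rfl
    m.Nb m.e_Nb
    (v2.rh * v2.nih) rfl
    (v2.rh * v2.nih * Ei) rfl
    m.rn m.e_rn
    (m.k0 * m.Na) rfl
    (v.aQ + (1 / 2 : ℝ)) rfl
    (m.rn * (v.aQ + (1 / 2 : ℝ))) rfl
    m.ka m.e_ka
    (v.aQ + (1 : ℝ)) rfl
    m.kb m.e_kb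
    (Eh * (v.aQ + (1 : ℝ))) rfl
    (Eh * (v.aQ + (1 : ℝ)) * v2.nih) rfl
    m.lfk m.e_lfk
    (v.tu * v2.bsum) rfl).2
    (v.aQ⁻¹) rfl
    (v.tu * v2.bsum * v.aQ⁻¹) rfl
    m.bte (m.e_bte.trans (congrArg (fun y : ℝ => y * (v.tu * v2.bsum * v.aQ⁻¹)) zC_549755813888_0))
    (v.h1t * v.u⁻¹) rfl
    (v.h1t * v.u⁻¹ * ga) rfl
    m.lsi m.e_lsi
    (v.om1 * m.bte) rfl
    (m.ka * m.lsi) rfl
    (m.lfk * phu) rfl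
    (m.ka * m.lsi + m.lfk * phu) rfl
    ((m.ka * m.lsi + m.lfk * phu) * v.ei) rfl
    m.src m.e_src
    (m.ka * m.Q1) rfl
    (m.ka * m.Q1 * m.iX) rfl
    (m.kb * m.Qb) rfl
    (m.kb * m.Qb * m.iQX) rfl
    (m.ka * m.Q1 * m.iX + m.kb * m.Qb * m.iQX) rfl
    m.fx m.e_fx
    (v.om1 * m.src) rfl
    (m.Xe * m.fx) rfl
    m.eps m.e_eps
    (v.tu2 * m.eps) rfl
    (v.tu2 * m.eps * v.aQ⁻¹) rfl
    ((1 : ℝ) - v.tu2 * m.eps * v.aQ⁻¹) rfl).2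
    m.NN m.e_NN
    m.eN m.e_eN
    m.d m.e_d
    m.eta m.e_eta
    (m.eta * v.aQ⁻¹) rfl
    ((1 : ℝ) - m.eta * v.aQ⁻¹) rfl
    (v.rhat * ((1 : ℝ) - m.eta * v.aQ⁻¹)) rfl
    m.rl m.e_rl).2
    m.irl m.e_irl
    m.yy m.e_yy
    ((1 : ℝ) - m.d) rfl).2
    c.od c.e_od).2
    (v.R⁻¹) rfl
    c.lsR c.e_lsR
    (c.rhoR + c.lsR) rfl
    c.PR c.e_PR
    c.dP c.e_dP
    ((13 / 64) * c.dP) (congrArg (fun y : ℝ => y * c.dP) zC_223338299392_0)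
    ((1 / 2 : ℝ) + (13 / 64) * c.dP) rfl
    (c.dP * ((1 / 2 : ℝ) + (13 / 64) * c.dP)) rfl
    c.Ee c.e_Ee
    (c.dP * c.Ee) rfl
    (c.dP * c.Ee * m.fa) rfl
    (c.dP * c.Ee * m.fa * m.Qb) rfl
    c.den c.e_den
    (c.PR * c.Ee) rfl
    (c.PR * c.Ee * m.NN) rfl
    (c.PR * c.Ee * m.NN * v.ei) rfl).2
    (c.den⁻¹) rfl
    c.C c.e_C
    (c.C * v.u) rfl
    (m.ka * m.iX) rfl
    (m.kb * m.fa) rfl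
    (m.kb * m.fa * m.Qb) rfl
    (m.kb * m.fa * m.Qb * m.iQX) rfl
    (m.ka * m.iX + m.kb * m.fa * m.Qb * m.iQX) rfl
    c.fbt c.e_fbt
    (m.ka * v.h1t) rfl
    (m.ka * v.h1t * v.u⁻¹) rfl
    (m.ka * v.h1t * v.u⁻¹ * g) rfl
    c.sl c.e_sl
    (c.C * iA) rfl
    (c.C * iA * v.u) rfl).2
    (v.op1⁻¹) rfl
    (c.C * iA * v.u * v.op1⁻¹) rfl
    (v.e * m.fa) rfl
    (v.e * m.fa * v.om1) rfl
    (v.e * m.fa * v.om1 * m.bte) rfl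
    (v.e * m.fa * v.om1 * m.bte + c.sl) rfl
    (m.fa * m.lfk) rfl
    (m.fa * m.lfk * phu) rfl
    (v.e * m.fa * v.om1 * m.bte + c.sl + m.fa * m.lfk * phu) rfl
    c.FX c.e_FX
    (A * v.tu) rfl
    (A * v.tu * v.op1) rfl
    m.XLt m.e_XLt
    (9 : ℝ) zC_9895604649984_0
    (20 : ℝ) zC_21990232555520_0).2
    ((20 : ℝ)⁻¹) rfl
    m.beta m.e_beta
    (v4.hgp + (1 : ℝ)) rfl
    (v4.hgp * (v4.hgp + (1 : ℝ))) rfl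
    (v.rp + v4.hgp * (v4.hgp + (1 : ℝ))) rfl
    f.dri f.e_dri
    (v.qp * (v4.hgp + (1 : ℝ))) rfl
    ((5 / 8) * f.dri) (congrArg (fun y : ℝ => y * f.dri) zC_687194767360_0)
    ((1 : ℝ) + (5 / 8) * f.dri) rfl
    (f.dri * ((1 : ℝ) + (5 / 8) * f.dri)) rfl
    ((1 : ℝ) + f.dri * ((1 : ℝ) + (5 / 8) * f.dri)) rfl
    f.Qp f.e_Qp
    (v.K + v.t) rfl
    ((v.h + (1 : ℝ)) * (v.K + v.t)) rfl
    ((v.h + (1 : ℝ)) * (v.K + v.t) * m.beta) rfl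
    ((1 : ℝ) + (v.h + (1 : ℝ)) * (v.K + v.t) * m.beta) rfl).2
    f.Lam f.e_Lam
    (f.Qp * f.Lam) rfl
    (f.Qp * f.Lam * v.m) rfl
    (v.tu * m.eN) rfl
    (v.tu * m.eN * v.op1⁻¹) rfl
    ((1 : ℝ) + v.tu * m.eN * v.op1⁻¹) rfl
    (f.Qp * f.Lam * v.m * ((1 : ℝ) + v.tu * m.eN * v.op1⁻¹)) rfl
    (v.aQ - m.eta) rfl).2
    ((v.aQ - m.eta)⁻¹) rfl
    f.c1 f.e_c1
    f.fb f.e_fb
    (f.fb * m.XM) rfl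
    (v.t * m.XLt) rfl
    (c.FX * (v.t * m.XLt)) rfl
    f.r f.e_r
    (f.fb + c.FX) rfl
    ((1 : ℝ) + f.r) rfl
    (f.c1 * ((1 : ℝ) + f.r)) rfl
    (f.fb + c.FX + f.c1 * ((1 : ℝ) + f.r)) rfl
    f.Bm f.e_Bm
    ((1 / 1024) * v.t) (congrArg (fun y : ℝ => y * v.t) zC_1073741824_0)
    (f.Bm - (1 / 1024) * v.t) rfl
    m.m1 m.e_m1
    (m.m1 + (2 : ℝ)) rfl
    (2 * m.beta) (congrArg (fun y : ℝ => y * m.beta) zC_2199023255552_0)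
    (m.m1 + (2 : ℝ) - 2 * m.beta) rfl
    ((v.h + (1 : ℝ)) * (m.m1 + (2 : ℝ) - 2 * m.beta)) rfl
    (m.m1 * (2 * m.beta)) rfl
    (m.m1 * (2 * m.beta) + (1 : ℝ)) rfl).2
    ((m.m1 * (2 * m.beta) + (1 : ℝ))⁻¹) rfl
    ((v.h + (1 : ℝ)) * (m.m1 + (2 : ℝ) - 2 * m.beta) * (m.m1 * (2 * m.beta) + (1 : ℝ))⁻¹) rfl
    (A * m.fx) rfl
    ((1 / 2) * v2.lm) (congrArg (fun y : ℝ => y * v2.lm) zC_549755813888_0)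
    (v.K + (1 / 2) * v2.lm) rfl
    (A * m.fx * (v.K + (1 / 2) * v2.lm)) rfl
    (2 * (A * m.fx * (v.K + (1 / 2) * v2.lm))) (congrArg (fun y : ℝ => y * (A * m.fx * (v.K + (1 / 2) * v2.lm))) zC_2199023255552_0)
    (m.src + 2 * (A * m.fx * (v.K + (1 / 2) * v2.lm))) rfl
    (2 * (m.src + 2 * (A * m.fx * (v.K + (1 / 2) * v2.lm)))) (congrArg (fun y : ℝ => y * (m.src + 2 * (A * m.fx * (v.K + (1 / 2) * v2.lm)))) zC_2199023255552_0)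
    (2 * (m.src + 2 * (A * m.fx * (v.K + (1 / 2) * v2.lm))) * m.NN) rfl
    (v.op1 - v.tu * m.eN) rfl).2
    ((v.op1 - v.tu * m.eN)⁻¹) rfl
    (2 * (m.src + 2 * (A * m.fx * (v.K + (1 / 2) * v2.lm))) * m.NN * (v.op1 - v.tu * m.eN)⁻¹) rfl
    m.V m.e_V
  change 0 < (1 : ℝ) - m.XM at p_XM
  obtain ⟨p_QX, s7⟩ := s6
  change 0 < (1 : ℝ) - m.QX at p_QX
  obtain ⟨p_e2, s8⟩ := s7
    (2 * (v.tu2 * m.eps)) (congrArg (fun y : ℝ => y * (v.tu2 * m.eps)) zC_2199023255552_0)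
    (v.aQ - 2 * (v.tu2 * m.eps)) rfl
  change 0 < v.aQ - 2 * (v.tu2 * m.eps) at p_e2
  obtain ⟨p_rl, s9⟩ := s8
  change 0 < m.rl at p_rl
  obtain ⟨p_hg, s10⟩ := s9
  change 0 < (1 : ℝ) - m.hg at p_hg
  obtain ⟨p_hgp, s11⟩ := s10
    ((1 / 2 : ℝ) - v4.hgp) rfl
  change 0 < (1 / 2 : ℝ) - v4.hgp at p_hgp
  obtain ⟨p_l1, s12⟩ := s11
    ((5 / 8) * (1 : ℝ)) (congrArg (fun y : ℝ => y * (1 : ℝ)) zC_687194767360_0)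
    ((5 / 8) * (1 : ℝ) - m.l1) rfl
  change 0 < (5 / 8) * (1 : ℝ) - m.l1 at p_l1
  obtain ⟨p_a0, s13⟩ := s12
    ((11 / 32) * (1 : ℝ)) (congrArg (fun y : ℝ => y * (1 : ℝ)) zC_377957122048_0)
    ((11 / 32) * (1 : ℝ) - m.a0) rfl
  change 0 < (11 / 32) * (1 : ℝ) - m.a0 at p_a0
  obtain ⟨p_S, s14⟩ := s13
  change 0 < v.op1 - v.tu * m.eN at p_S
  obtain ⟨p_dri, s15⟩ := s14
    ((1 / 2 : ℝ) - f.dri) rfl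
  change 0 < (1 / 2 : ℝ) - f.dri at p_dri
  obtain ⟨p_d, s16⟩ := s15
  change 0 < (1 : ℝ) - m.d at p_d
  obtain ⟨p_den, s17⟩ := s16
  change 0 < c.den at p_den
  obtain ⟨p_dP, s18⟩ := s17
    ((5 / 8) * (1 : ℝ) - c.dP) rfl
  change 0 < (5 / 8) * (1 : ℝ) - c.dP at p_dP
  obtain ⟨p_V, s19⟩ := s18
  change 0 < m.V at p_V
  obtain ⟨p_B, s20⟩ := s19
  change 0 < f.Bm - (1 / 1024) * v.t at p_B
  obtain ⟨lf0, Ex, hφ⟩ := phi_te G v2 e_i2 e_z p_z1 e_kz e_kk e_phu e_lf e_L p_L e_Ei e_Eh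
  exact far_F G ⟨p_o2, p_W, p_o2p, p_Wp, p_XM, p_QX, p_e2, p_rl, p_hg, p_hgp, p_l1, p_a0, p_S, p_V⟩ D hA hiA e_g e_ga hφ (fun _ _ _ τ' h1 _ => hE τ' h1) c f
    p_dri p_d p_den p_dP p_B

theorem far_C3 {κ : ℝ} {τ : ℂ} {R w : ℝ} {E : Set ℂ} (D : PtD κ τ R w) {v : B1}
    (G : Geo κ (shf κ τ) v) (v2 : B2 v) (he2 : 2 ≤ v.e) {yv psi : ℝ} (cy : CV v v2 yv psi) (h : RAs Pool.Agent.helper71.FF.Crt.C.prog3 [v.e, v.h, yv, psi])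
    (hE : ∀ τ' : ℂ, 0 < τ'.re → τ' ∈ E) :
    FarPt v.e κ (1 - Real.sinh κ / 1024) w (2 * AG v.e v.K * Real.sinh κ ^ 2) R E τ := by
  obtain ⟨e_om1c, e_omc, e_uc, e_tc, e_njc, e_nc⟩ := cy.all G
  obtain ⟨G0, e_G0⟩ : ∃ zz : ℝ, zz = (1 / 4) * v.e + (2 : ℝ) := ⟨_, rfl⟩
  obtain ⟨G2, e_G2⟩ : ∃ zz : ℝ, zz = G0 * G0 := ⟨_, rfl⟩
  obtain ⟨GG, e_GG⟩ : ∃ zz : ℝ, zz = G2 + v2.eK * v2.eK * ((7 : ℝ) * (10 : ℝ)⁻¹) := ⟨_, rfl⟩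
  obtain ⟨G3, e_G3⟩ : ∃ zz : ℝ, zz = G2 * G0 := ⟨_, rfl⟩
  obtain ⟨A, e_A⟩ : ∃ zz : ℝ, zz = G3 * GG⁻¹ := ⟨_, rfl⟩
  obtain ⟨iA, e_iA⟩ : ∃ zz : ℝ, zz = GG * G3⁻¹ := ⟨_, rfl⟩
  obtain ⟨hA, hiA, hAe⟩ := ab_G G v2 e_G0 e_G2 e_GG e_G3 e_A e_iA
  rw [hAe]
  obtain ⟨b⟩ := exGB v.q v.x v.h1
  obtain ⟨v3⟩ := exB3 v
  obtain ⟨b'⟩ := exGB v.qp v3.xp v3.hp
  obtain ⟨v4⟩ := exB4 v3 b'
  obtain ⟨g, e_g⟩ : ∃ zz : ℝ, zz = (1 / 2) * (((1 : ℝ) - v.q) * b.q1 * b.W⁻¹) := ⟨_, rfl⟩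
  obtain ⟨ga, e_ga⟩ : ∃ zz : ℝ, zz = g * (g + (1 / 2 : ℝ))⁻¹ := ⟨_, rfl⟩
  obtain ⟨z, e_z⟩ : ∃ zz : ℝ, zz = v.om1 * ga * v.om⁻¹ := ⟨_, rfl⟩
  obtain ⟨kz, e_kz⟩ : ∃ zz : ℝ, zz = ((1 : ℝ) - (1 / 2) * z) * ((1 : ℝ) - z)⁻¹ := ⟨_, rfl⟩
  obtain ⟨phu, e_phu⟩ : ∃ zz : ℝ, zz = ga * kz * v.u⁻¹ := ⟨_, rfl⟩
  obtain ⟨lf, e_lf⟩ : ∃ zz : ℝ, zz = z * kz := ⟨_, rfl⟩
  obtain ⟨L, e_L⟩ : ∃ zz : ℝ, zz = lf * v.ei := ⟨_, rfl⟩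
  obtain ⟨Ei, e_Ei⟩ : ∃ zz : ℝ, zz = (1 : ℝ) + L * ((45 / 16) * L + (2 : ℝ)) := ⟨_, rfl⟩
  obtain ⟨Eh, e_Eh⟩ : ∃ zz : ℝ, zz = (1 : ℝ) + L * ((45 / 32) * L + (1 : ℝ)) := ⟨_, rfl⟩
  obtain ⟨m⟩ := exMid v v2 b A g ga phu Ei Eh
  obtain ⟨c⟩ := exCF m iA
  obtain ⟨f⟩ := exFinS m v4 c.fbt c.FX
  obtain ⟨p_o2, s0⟩ := ((((((((((h
    (1 : ℝ) zC_1099511627776_0
    (1 / 2 : ℝ) zC_549755813888_0
    (v.h * v.h) rfl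
    v.jm v.e_jm).2
    v.j v.e_j
    (v.h * v.j) rfl
    v.K (v.e_K.trans (congrArg (fun y : ℝ => y * (v.h * v.j)) zC_2199023255552_0))
    (2 * v.j) (congrArg (fun y : ℝ => y * v.j) zC_2199023255552_0)
    v.c0 v.e_c0
    v.m v.e_m
    v2.Y (v2.e_Y.trans (congrArg (fun y : ℝ => y * v.h) zC_10774999203840_0))
    ((341 / 8192) * v2.Y) (congrArg (fun y : ℝ => y * v2.Y) zC_45768245248_0)
    (1365 / 8192 : ℝ) zC_183207198720_0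
    ((341 / 8192) * v2.Y + (1365 / 8192 : ℝ)) rfl
    (v2.Y * ((341 / 8192) * v2.Y + (1365 / 8192 : ℝ))) rfl
    ((1 / 2 : ℝ) + v2.Y * ((341 / 8192) * v2.Y + (1365 / 8192 : ℝ))) rfl
    (v2.Y * ((1 / 2 : ℝ) + v2.Y * ((341 / 8192) * v2.Y + (1365 / 8192 : ℝ)))) rfl
    v2.pY v2.e_pY
    (v2.Y * v2.pY) rfl
    ((1 / 2) * (v2.Y * v2.pY)) (congrArg (fun y : ℝ => y * (v2.Y * v2.pY)) zC_549755813888_0)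
    ((1 : ℝ) + (1 / 2) * (v2.Y * v2.pY)) rfl
    v2.Yp v2.e_Yp
    (v2.Y * v2.Yp) rfl
    ((1 : ℝ) + v2.Y * v2.Yp) rfl).2
    (((1 : ℝ) + v2.Y * v2.Yp)⁻¹) rfl
    v.om1 e_om1c
    v.om e_omc
    v.op1 v.e_op1
    ((1 : ℝ) - psi) rfl
    (v.om1 * ((1 : ℝ) - psi)) rfl
    v.u e_uc
    v.u2 v.e_u2).2
    (v.om⁻¹) rfl
    v.t e_tc
    v.tu v.e_tu).2
    (v.u⁻¹) rfl
    v.nj e_njc
    v.n e_nc
    v.R v.e_R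
    (v.K * v.om) rfl
    (2 * v.c0) (congrArg (fun y : ℝ => y * v.c0) zC_2199023255552_0)
    (v.K * v.om + 2 * v.c0) rfl
    v.Dt v.e_Dt
    v.D v.e_D
    v.SQ v.e_SQ
    (v.K * v.K) rfl
    (2 * (v.K * v.K)) (congrArg (fun y : ℝ => y * (v.K * v.K)) zC_2199023255552_0)
    v.c2 v.e_c2
    (v.c0 * v.Dt) rfl
    v.rhat v.e_rhat).2
    v.LQ v.e_LQ
    ((1 / 2) * v.LQ) (congrArg (fun y : ℝ => y * v.LQ) zC_549755813888_0)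
    v.aQ v.e_aQ
    v.ee (v.e_ee.trans (congrArg (fun y : ℝ => y * v.e) zC_549755813888_0))
    v.rho v.e_rho
    (-v.rho) rfl
    v.q v.e_q
    (v.c0 * v.R) rfl
    (v.c0 * v.R * v.rhat) rfl
    v.D2 (v.e_D2.trans (congrArg (fun y : ℝ => y * (v.c0 * v.R * v.rhat)) zC_4398046511104_0))
    (v.D2 + (1 : ℝ)) rfl).2
    (Real.log (v.D2 + (1 : ℝ))) rfl
    v.L2 v.e_L2
    v.rp v.e_rp
    (-v.rp) rfl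
    v.qp v.e_qp
    (v.om * v.K) rfl
    (v.c0 + v.om * v.K) rfl).2
    v.ioK v.e_ioK
    v.h1t v.e_h1t
    (v.om1 * v.t) rfl
    v.h1 v.e_h1
    v.nj2 v.e_nj2
    ((1 : ℝ) - v.u2) rfl
    v.f2 v.e_f2
    v.tu2 v.e_tu2
    (v.c0 + v.R) rfl).2
    ((v.c0 + v.R)⁻¹) rfl
    v.w v.e_w
    (v.w * v.w) rfl
    (v.tu2 * ((1 : ℝ) - v.u2)) rfl
    ((1 : ℝ) - v.nj2) rfl
    (v.tu2 * ((1 : ℝ) - v.u2) * ((1 : ℝ) - v.nj2)) rfl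
    v.x v.e_x).2
    v.ei v.e_ei
    (21845 / 524288 : ℝ) zC_45812285440_0
    ((11651 / 8388608) * v.x) (congrArg (fun y : ℝ => y * v.x) zC_1527119872_0)
    ((21845 / 524288 : ℝ) - (11651 / 8388608) * v.x) rfl
    (v.x * ((21845 / 524288 : ℝ) - (11651 / 8388608) * v.x)) rfl
    ((1 / 2 : ℝ) - v.x * ((21845 / 524288 : ℝ) - (11651 / 8388608) * v.x)) rfl
    (v.x * ((1 / 2 : ℝ) - v.x * ((21845 / 524288 : ℝ) - (11651 / 8388608) * v.x))) rfl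
    b.cc b.e_cc
    b.q1 b.e_q1
    (v.q * v.q) rfl
    (v.q * v.q + (1 : ℝ)) rfl
    (v.q * b.cc) rfl
    (2 * (v.q * b.cc)) (congrArg (fun y : ℝ => y * (v.q * b.cc)) zC_2199023255552_0)
    b.o2 b.e_o2).2
    (b.q1⁻¹) rfl
    (b.o2 * b.q1⁻¹) rfl
    b.P1 b.e_P1
    (v.q * v.h1) rfl
    b.qh (b.e_qh.trans (congrArg (fun y : ℝ => y * (v.q * v.h1)) zC_549755813888_0))
    (b.qh * b.P1) rfl
    b.W b.e_W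
  change 0 < b.o2 at p_o2
  obtain ⟨p_W, s1⟩ := s0
  change 0 < b.W at p_W
  obtain ⟨p_o2p, s2⟩ := ((((((((s1).2
    b.W⁻¹ rfl
    (v.ee * v.Dt) rfl
    (6 : ℝ) zC_6597069766656_0
    (v.D + (6 : ℝ)) rfl
    (v.ee * v.Dt * (v.D + (6 : ℝ))) rfl
    (4 * v.D) (congrArg (fun y : ℝ => y * v.D) zC_4398046511104_0)
    (4 * v.D + (6 : ℝ)) rfl).2
    ((4 * v.D + (6 : ℝ))⁻¹) rfl
    c.rhoR c.e_rhoR
    ((1 : ℝ) - v.q) rfl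
    (((1 : ℝ) - v.q) * b.q1) rfl
    (((1 : ℝ) - v.q) * b.q1 * b.W⁻¹) rfl
    g (e_g.trans (congrArg (fun y : ℝ => y * (((1 : ℝ) - v.q) * b.q1 * b.W⁻¹)) zC_549755813888_0))
    (g + (1 / 2 : ℝ)) rfl).2
    ((g + (1 / 2 : ℝ))⁻¹) rfl
    ga e_ga
    (b.qh * g) rfl
    (b.qh * g + (1 / 2 : ℝ)) rfl
    ((b.qh * g + (1 / 2 : ℝ)) * b.P1) rfl).2
    (b.o2⁻¹) rfl
    m.fa m.e_fa
    m.hg m.e_hg
    ((1 / 2) * m.hg) (congrArg (fun y : ℝ => y * m.hg) zC_549755813888_0)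
    ((1 : ℝ) - (1 / 2) * m.hg) rfl
    ((1 : ℝ) - m.hg) rfl).2
    (((1 : ℝ) - m.hg)⁻¹) rfl
    m.lsf m.e_lsf
    (m.hg + (1 : ℝ)) rfl
    m.Qb m.e_Qb
    (v.om1 * v.op1) rfl
    (v.c0 + v.t) rfl
    (v.om * v.c0) rfl
    (v.om * v.c0 * v.K) rfl
    (2 * (v.om * v.c0 * v.K)) (congrArg (fun y : ℝ => y * (v.om * v.c0 * v.K)) zC_2199023255552_0)
    (v.c2 + 2 * (v.om * v.c0 * v.K)) rfl
    ((v.c0 + v.t) * (v.c2 + 2 * (v.om * v.c0 * v.K))) rfl).2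
    (((v.c0 + v.t) * (v.c2 + 2 * (v.om * v.c0 * v.K)))⁻¹) rfl
    v3.hpt v3.e_hpt
    v3.hp v3.e_hp).2
    (v.SQ⁻¹) rfl
    v3.xp v3.e_xp
    ((11651 / 8388608) * v3.xp) (congrArg (fun y : ℝ => y * v3.xp) zC_1527119872_0)
    ((21845 / 524288 : ℝ) - (11651 / 8388608) * v3.xp) rfl
    (v3.xp * ((21845 / 524288 : ℝ) - (11651 / 8388608) * v3.xp)) rfl
    ((1 / 2 : ℝ) - v3.xp * ((21845 / 524288 : ℝ) - (11651 / 8388608) * v3.xp)) rfl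
    (v3.xp * ((1 / 2 : ℝ) - v3.xp * ((21845 / 524288 : ℝ) - (11651 / 8388608) * v3.xp))) rfl
    b'.cc b'.e_cc
    b'.q1 b'.e_q1
    (v.qp * v.qp) rfl
    (v.qp * v.qp + (1 : ℝ)) rfl
    (v.qp * b'.cc) rfl
    (2 * (v.qp * b'.cc)) (congrArg (fun y : ℝ => y * (v.qp * b'.cc)) zC_2199023255552_0)
    b'.o2 b'.e_o2).2
    (b'.q1⁻¹) rfl
    (b'.o2 * b'.q1⁻¹) rfl
    b'.P1 b'.e_P1
    (v.qp * v3.hp) rfl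
    b'.qh (b'.e_qh.trans (congrArg (fun y : ℝ => y * (v.qp * v3.hp)) zC_549755813888_0))
    (b'.qh * b'.P1) rfl
    b'.W b'.e_W
  change 0 < b'.o2 at p_o2p
  obtain ⟨p_Wp, s3⟩ := s2
  change 0 < b'.W at p_Wp
  obtain ⟨p_z1, s4⟩ := ((((((((((s3
    ((1 : ℝ) - v.qp) rfl
    (((1 : ℝ) - v.qp) * b'.q1) rfl).2
    (b'.W⁻¹) rfl
    (((1 : ℝ) - v.qp) * b'.q1 * b'.W⁻¹) rfl
    v4.gp (v4.e_gp.trans (congrArg (fun y : ℝ => y * (((1 : ℝ) - v.qp) * b'.q1 * b'.W⁻¹)) zC_549755813888_0))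
    (v4.gp + (1 / 2 : ℝ)) rfl).2
    ((v4.gp + (1 / 2 : ℝ))⁻¹) rfl
    v4.gap v4.e_gap
    v4.hgp v4.e_hgp
    (v.h + (1 : ℝ)) rfl).2
    v2.ih v2.e_ih
    (v.h * v2.ih) rfl
    v2.rh (v2.e_rh.trans (congrArg (fun y : ℝ => y * (v.h * v2.ih)) zC_2199023255552_0))
    v2.mi v2.e_mi
    v2.hm v2.e_hm
    v2.nih v2.e_nih
    (v2.nih * v2.mi) rfl
    v2.bsum v2.e_bsum
    v2.eK v2.e_eK
    ((1 / 4) * v.e) (congrArg (fun y : ℝ => y * v.e) zC_274877906944_0)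
    (2 : ℝ) zC_2199023255552_0
    G0 e_G0
    G2 e_G2
    (v2.eK * v2.eK) rfl
    (7 : ℝ) zC_7696581394432_0
    (10 : ℝ) zC_10995116277760_0).2
    ((10 : ℝ)⁻¹) rfl
    ((7 : ℝ) * (10 : ℝ)⁻¹) rfl
    (v2.eK * v2.eK * ((7 : ℝ) * (10 : ℝ)⁻¹)) rfl
    GG e_GG
    G3 e_G3).2
    (GG⁻¹) rfl
    A e_A).2
    (G3⁻¹) rfl
    iA e_iA
    ((209 / 1024) * v.j) (congrArg (fun y : ℝ => y * v.j) zC_224412041216_0)).2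
    (v2.Yp⁻¹) rfl
    v2.lm v2.e_lm
    (A * v.op1) rfl
    m.Xe m.e_Xe
    m.XM m.e_XM
    ((1 : ℝ) - m.XM) rfl).2
    m.iX m.e_iX
    m.QX m.e_QX
    ((1 : ℝ) - m.QX) rfl).2
    m.iQX m.e_iQX
    (v.om1 * ga) rfl
    z e_z
    ((1 / 2) * z) (congrArg (fun y : ℝ => y * z) zC_549755813888_0)
    ((1 : ℝ) - (1 / 2) * z) rfl
    ((1 : ℝ) - z) rfl).2
    (((1 : ℝ) - z)⁻¹) rfl
    kz e_kz
    (ga * kz) rfl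
    phu e_phu
    lf e_lf
  change 0 < (1 : ℝ) - z at p_z1
  obtain ⟨p_L, s5⟩ := s4
    L e_L
    ((5 / 4) * L) (congrArg (fun y : ℝ => y * L) zC_1374389534720_0)
    ((1 / 2 : ℝ) - (5 / 4) * L) rfl
  change 0 < (1 / 2 : ℝ) - (5 / 4) * L at p_L
  obtain ⟨p_XM, s6⟩ := ((((((((((((s5
    ((45 / 16) * L) (congrArg (fun y : ℝ => y * L) zC_3092376453120_0)
    ((45 / 16) * L + (2 : ℝ)) rfl
    (L * ((45 / 16) * L + (2 : ℝ))) rfl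
    Ei e_Ei
    ((45 / 32) * L) (congrArg (fun y : ℝ => y * L) zC_1546188226560_0)
    ((45 / 32) * L + (1 : ℝ)) rfl
    (L * ((45 / 32) * L + (1 : ℝ))) rfl
    Eh e_Eh
    (v.h * v.nj) rfl
    ((1 : ℝ) - v.f2) rfl
    (v.h * v.om) rfl
    (2 * (v.h * v.om)) (congrArg (fun y : ℝ => y * (v.h * v.om)) zC_2199023255552_0)
    ((1 : ℝ) - v.f2 - 2 * (v.h * v.om)) rfl
    (v.h * v.nj * (v.h * v.nj)) rfl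
    m.N1 m.e_N1
    (m.N1 + (1 : ℝ)) rfl
    m.s (m.e_s.trans (congrArg (fun y : ℝ => y * (m.N1 + (1 : ℝ))) zC_549755813888_0))
    ((1 / 2) * v.R) (congrArg (fun y : ℝ => y * v.R) zC_549755813888_0)
    (v.j - (1 / 2) * v.R) rfl
    (v.tu2 * ((1 : ℝ) - v.f2)) rfl
    (v.tu2 * ((1 : ℝ) - v.f2) * v.jm) rfl
    ((1 / 8) * (v.tu2 * ((1 : ℝ) - v.f2) * v.jm)) (congrArg (fun y : ℝ => y * (v.tu2 * ((1 : ℝ) - v.f2) * v.jm)) zC_137438953472_0)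
    (v.j - (1 / 2) * v.R + (1 / 8) * (v.tu2 * ((1 : ℝ) - v.f2) * v.jm)) rfl
    m.k0 m.e_k0
    m.ls m.e_ls
    m.Q1 m.e_Q1
    (m.Q1 * m.iX) rfl
    (m.Qb * m.iQX) rfl
    (m.Q1 * m.iX + m.Qb * m.iQX) rfl
    (m.XM * (m.Q1 * m.iX + m.Qb * m.iQX)) rfl
    (m.ls + m.XM * (m.Q1 * m.iX + m.Qb * m.iQX)) rfl
    m.a0 m.e_a0
    (m.Q1 * m.XM) rfl
    (m.Q1 * m.XM * m.iX) rfl
    (m.ls + m.Q1 * m.XM * m.iX) rfl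
    m.l1 m.e_l1
    ((13 / 64) * m.l1) (congrArg (fun y : ℝ => y * m.l1) zC_223338299392_0)
    ((1 / 2 : ℝ) + (13 / 64) * m.l1) rfl
    (m.l1 * ((1 / 2 : ℝ) + (13 / 64) * m.l1)) rfl
    m.Na m.e_Na
    ((13 / 16) * m.a0) (congrArg (fun y : ℝ => y * m.a0) zC_893353197568_0)
    ((1 : ℝ) + (13 / 16) * m.a0) rfl
    (m.a0 * ((1 : ℝ) + (13 / 16) * m.a0)) rfl
    m.Nb m.e_Nb
    (v2.rh * v2.nih) rfl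
    (v2.rh * v2.nih * Ei) rfl
    m.rn m.e_rn
    (m.k0 * m.Na) rfl
    (v.aQ + (1 / 2 : ℝ)) rfl
    (m.rn * (v.aQ + (1 / 2 : ℝ))) rfl
    m.ka m.e_ka
    (v.aQ + (1 : ℝ)) rfl
    m.kb m.e_kb
    (Eh * (v.aQ + (1 : ℝ))) rfl
    (Eh * (v.aQ + (1 : ℝ)) * v2.nih) rfl
    m.lfk m.e_lfk
    (v.tu * v2.bsum) rfl).2
    (v.aQ⁻¹) rfl
    (v.tu * v2.bsum * v.aQ⁻¹) rfl
    m.bte (m.e_bte.trans (congrArg (fun y : ℝ => y * (v.tu * v2.bsum * v.aQ⁻¹)) zC_549755813888_0))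
    (v.h1t * v.u⁻¹) rfl
    (v.h1t * v.u⁻¹ * ga) rfl
    m.lsi m.e_lsi
    (v.om1 * m.bte) rfl
    (m.ka * m.lsi) rfl
    (m.lfk * phu) rfl
    (m.ka * m.lsi + m.lfk * phu) rfl
    ((m.ka * m.lsi + m.lfk * phu) * v.ei) rfl
    m.src m.e_src
    (m.ka * m.Q1) rfl
    (m.ka * m.Q1 * m.iX) rfl
    (m.kb * m.Qb) rfl
    (m.kb * m.Qb * m.iQX) rfl
    (m.ka * m.Q1 * m.iX + m.kb * m.Qb * m.iQX) rfl
    m.fx m.e_fx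
    (v.om1 * m.src) rfl
    (m.Xe * m.fx) rfl
    m.eps m.e_eps
    (v.tu2 * m.eps) rfl
    (v.tu2 * m.eps * v.aQ⁻¹) rfl
    ((1 : ℝ) - v.tu2 * m.eps * v.aQ⁻¹) rfl).2
    m.NN m.e_NN
    m.eN m.e_eN
    m.d m.e_d
    m.eta m.e_eta
    (m.eta * v.aQ⁻¹) rfl
    ((1 : ℝ) - m.eta * v.aQ⁻¹) rfl
    (v.rhat * ((1 : ℝ) - m.eta * v.aQ⁻¹)) rfl
    m.rl m.e_rl).2
    m.irl m.e_irl
    m.yy m.e_yy
    ((1 : ℝ) - m.d) rfl).2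
    c.od c.e_od).2
    (v.R⁻¹) rfl
    c.lsR c.e_lsR
    (c.rhoR + c.lsR) rfl
    c.PR c.e_PR
    c.dP c.e_dP
    ((13 / 64) * c.dP) (congrArg (fun y : ℝ => y * c.dP) zC_223338299392_0)
    ((1 / 2 : ℝ) + (13 / 64) * c.dP) rfl
    (c.dP * ((1 / 2 : ℝ) + (13 / 64) * c.dP)) rfl
    c.Ee c.e_Ee
    (c.dP * c.Ee) rfl
    (c.dP * c.Ee * m.fa) rfl
    (c.dP * c.Ee * m.fa * m.Qb) rfl
    c.den c.e_den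
    (c.PR * c.Ee) rfl
    (c.PR * c.Ee * m.NN) rfl
    (c.PR * c.Ee * m.NN * v.ei) rfl).2
    (c.den⁻¹) rfl
    c.C c.e_C
    (c.C * v.u) rfl
    (m.ka * m.iX) rfl
    (m.kb * m.fa) rfl
    (m.kb * m.fa * m.Qb) rfl
    (m.kb * m.fa * m.Qb * m.iQX) rfl
    (m.ka * m.iX + m.kb * m.fa * m.Qb * m.iQX) rfl
    c.fbt c.e_fbt
    (m.ka * v.h1t) rfl
    (m.ka * v.h1t * v.u⁻¹) rfl
    (m.ka * v.h1t * v.u⁻¹ * g) rfl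
    c.sl c.e_sl
    (c.C * iA) rfl
    (c.C * iA * v.u) rfl).2
    (v.op1⁻¹) rfl
    (c.C * iA * v.u * v.op1⁻¹) rfl
    (v.e * m.fa) rfl
    (v.e * m.fa * v.om1) rfl
    (v.e * m.fa * v.om1 * m.bte) rfl
    (v.e * m.fa * v.om1 * m.bte + c.sl) rfl
    (m.fa * m.lfk) rfl
    (m.fa * m.lfk * phu) rfl
    (v.e * m.fa * v.om1 * m.bte + c.sl + m.fa * m.lfk * phu) rfl
    c.FX c.e_FX
    (A * v.tu) rfl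
    (A * v.tu * v.op1) rfl
    m.XLt m.e_XLt
    (9 : ℝ) zC_9895604649984_0
    (20 : ℝ) zC_21990232555520_0).2
    ((20 : ℝ)⁻¹) rfl
    m.beta m.e_beta
    (v4.hgp + (1 : ℝ)) rfl
    (v4.hgp * (v4.hgp + (1 : ℝ))) rfl
    (v.rp + v4.hgp * (v4.hgp + (1 : ℝ))) rfl
    f.dri f.e_dri
    (v.qp * (v4.hgp + (1 : ℝ))) rfl
    ((5 / 8) * f.dri) (congrArg (fun y : ℝ => y * f.dri) zC_687194767360_0)
    ((1 : ℝ) + (5 / 8) * f.dri) rfl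
    (f.dri * ((1 : ℝ) + (5 / 8) * f.dri)) rfl
    ((1 : ℝ) + f.dri * ((1 : ℝ) + (5 / 8) * f.dri)) rfl
    f.Qp f.e_Qp
    (v.K + v.t) rfl
    ((v.h + (1 : ℝ)) * (v.K + v.t)) rfl
    ((v.h + (1 : ℝ)) * (v.K + v.t) * m.beta) rfl
    ((1 : ℝ) + (v.h + (1 : ℝ)) * (v.K + v.t) * m.beta) rfl).2
    f.Lam f.e_Lam
    (f.Qp * f.Lam) rfl
    (f.Qp * f.Lam * v.m) rfl
    (v.tu * m.eN) rfl
    (v.tu * m.eN * v.op1⁻¹) rfl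
    ((1 : ℝ) + v.tu * m.eN * v.op1⁻¹) rfl
    (f.Qp * f.Lam * v.m * ((1 : ℝ) + v.tu * m.eN * v.op1⁻¹)) rfl
    (v.aQ - m.eta) rfl).2
    ((v.aQ - m.eta)⁻¹) rfl
    f.c1 f.e_c1
    f.fb f.e_fb
    (f.fb * m.XM) rfl
    (v.t * m.XLt) rfl
    (c.FX * (v.t * m.XLt)) rfl
    f.r f.e_r
    (f.fb + c.FX) rfl
    ((1 : ℝ) + f.r) rfl
    (f.c1 * ((1 : ℝ) + f.r)) rfl
    (f.fb + c.FX + f.c1 * ((1 : ℝ) + f.r)) rfl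
    f.Bm f.e_Bm
    ((1 / 1024) * v.t) (congrArg (fun y : ℝ => y * v.t) zC_1073741824_0)
    (f.Bm - (1 / 1024) * v.t) rfl
    m.m1 m.e_m1
    (m.m1 + (2 : ℝ)) rfl
    (2 * m.beta) (congrArg (fun y : ℝ => y * m.beta) zC_2199023255552_0)
    (m.m1 + (2 : ℝ) - 2 * m.beta) rfl
    ((v.h + (1 : ℝ)) * (m.m1 + (2 : ℝ) - 2 * m.beta)) rfl
    (m.m1 * (2 * m.beta)) rfl
    (m.m1 * (2 * m.beta) + (1 : ℝ)) rfl).2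
    ((m.m1 * (2 * m.beta) + (1 : ℝ))⁻¹) rfl
    ((v.h + (1 : ℝ)) * (m.m1 + (2 : ℝ) - 2 * m.beta) * (m.m1 * (2 * m.beta) + (1 : ℝ))⁻¹) rfl
    (A * m.fx) rfl
    ((1 / 2) * v2.lm) (congrArg (fun y : ℝ => y * v2.lm) zC_549755813888_0)
    (v.K + (1 / 2) * v2.lm) rfl
    (A * m.fx * (v.K + (1 / 2) * v2.lm)) rfl
    (2 * (A * m.fx * (v.K + (1 / 2) * v2.lm))) (congrArg (fun y : ℝ => y * (A * m.fx * (v.K + (1 / 2) * v2.lm))) zC_2199023255552_0)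
    (m.src + 2 * (A * m.fx * (v.K + (1 / 2) * v2.lm))) rfl
    (2 * (m.src + 2 * (A * m.fx * (v.K + (1 / 2) * v2.lm)))) (congrArg (fun y : ℝ => y * (m.src + 2 * (A * m.fx * (v.K + (1 / 2) * v2.lm)))) zC_2199023255552_0)
    (2 * (m.src + 2 * (A * m.fx * (v.K + (1 / 2) * v2.lm))) * m.NN) rfl
    (v.op1 - v.tu * m.eN) rfl).2
    ((v.op1 - v.tu * m.eN)⁻¹) rfl
    (2 * (m.src + 2 * (A * m.fx * (v.K + (1 / 2) * v2.lm))) * m.NN * (v.op1 - v.tu * m.eN)⁻¹) rfl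
    m.V m.e_V
  change 0 < (1 : ℝ) - m.XM at p_XM
  obtain ⟨p_QX, s7⟩ := s6
  change 0 < (1 : ℝ) - m.QX at p_QX
  obtain ⟨p_e2, s8⟩ := s7
    (2 * (v.tu2 * m.eps)) (congrArg (fun y : ℝ => y * (v.tu2 * m.eps)) zC_2199023255552_0)
    (v.aQ - 2 * (v.tu2 * m.eps)) rfl
  change 0 < v.aQ - 2 * (v.tu2 * m.eps) at p_e2
  obtain ⟨p_rl, s9⟩ := s8
  change 0 < m.rl at p_rl
  obtain ⟨p_hg, s10⟩ := s9
  change 0 < (1 : ℝ) - m.hg at p_hg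
  obtain ⟨p_hgp, s11⟩ := s10
    ((1 / 2 : ℝ) - v4.hgp) rfl
  change 0 < (1 / 2 : ℝ) - v4.hgp at p_hgp
  obtain ⟨p_l1, s12⟩ := s11
    ((5 / 8) * (1 : ℝ)) (congrArg (fun y : ℝ => y * (1 : ℝ)) zC_687194767360_0)
    ((5 / 8) * (1 : ℝ) - m.l1) rfl
  change 0 < (5 / 8) * (1 : ℝ) - m.l1 at p_l1
  obtain ⟨p_a0, s13⟩ := s12
    ((11 / 32) * (1 : ℝ)) (congrArg (fun y : ℝ => y * (1 : ℝ)) zC_377957122048_0)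
    ((11 / 32) * (1 : ℝ) - m.a0) rfl
  change 0 < (11 / 32) * (1 : ℝ) - m.a0 at p_a0
  obtain ⟨p_S, s14⟩ := s13
  change 0 < v.op1 - v.tu * m.eN at p_S
  obtain ⟨p_dri, s15⟩ := s14
    ((1 / 2 : ℝ) - f.dri) rfl
  change 0 < (1 / 2 : ℝ) - f.dri at p_dri
  obtain ⟨p_d, s16⟩ := s15
  change 0 < (1 : ℝ) - m.d at p_d
  obtain ⟨p_den, s17⟩ := s16
  change 0 < c.den at p_den
  obtain ⟨p_dP, s18⟩ := s17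
    ((5 / 8) * (1 : ℝ) - c.dP) rfl
  change 0 < (5 / 8) * (1 : ℝ) - c.dP at p_dP
  obtain ⟨p_V, s19⟩ := s18
  change 0 < m.V at p_V
  obtain ⟨p_B, s20⟩ := s19
  change 0 < f.Bm - (1 / 1024) * v.t at p_B
  have hga := gam_F G p_o2 p_W e_g e_ga
  obtain ⟨lf0, Ex, hφ⟩ := phi_near G v2 hga (near_z G e_z) p_z1 e_kz (near_p G e_phu) e_lf e_L p_L e_Ei e_Eh
  exact far_F G ⟨p_o2, p_W, p_o2p, p_Wp, p_XM, p_QX, p_e2, p_rl, p_hg, p_hgp, p_l1, p_a0, p_S, p_V⟩ D hA hiA e_g e_ga hφ (fun _ _ _ τ' h1 _ => hE τ' h1) c f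
    p_dri p_d p_den p_dP p_B

theorem dom_C4 {κ e0 h0 y0 p0 : ℝ} (he : 0 < e0) (hκ : 0 < κ) (hh : h0 = Real.tanh (κ / 2))
    (h : RAs Pool.Agent.helper71.FF.Crt.C.prog4 [e0, h0, y0, p0]) : 4 ^ (1 / e0) - 1 ≤ Pool.Agent.helper12.RS.kfun e0 κ := by
  obtain ⟨rh, e_rh⟩ : ∃ zz : ℝ, zz = 2 * (h0 * (h0 + (1 : ℝ))⁻¹) := ⟨_, rfl⟩
  obtain ⟨lk, e_lk⟩ : ∃ zz : ℝ, zz = Real.log ((1 : ℝ) - rh) := ⟨_, rfl⟩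
  obtain ⟨ei, e_ei⟩ : ∃ zz : ℝ, zz = e0⁻¹ := ⟨_, rfl⟩
  obtain ⟨a, e_a⟩ : ∃ zz : ℝ, zz = (1 : ℝ) - Real.exp ((-363409 / 262144) * ei) := ⟨_, rfl⟩
  obtain ⟨me, e_me⟩ : ∃ zz : ℝ, zz = Real.exp (e0 * lk) := ⟨_, rfl⟩
  obtain ⟨b, e_b⟩ : ∃ zz : ℝ, zz = Real.exp (2 * (Real.log (me + (1 : ℝ)) * ei)) := ⟨_, rfl⟩
  obtain ⟨p_B, s0⟩ := ((((h
    (1 : ℝ) zC_1099511627776_0
    (h0 + (1 : ℝ)) rfl).2
    ((h0 + (1 : ℝ))⁻¹) rfl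
    (h0 * (h0 + (1 : ℝ))⁻¹) rfl
    rh (e_rh.trans (congrArg (fun y : ℝ => y * (h0 * (h0 + (1 : ℝ))⁻¹)) zC_2199023255552_0))
    ((1 : ℝ) - rh) rfl).2
    lk e_lk).2
    ei e_ei
    ((-363409 / 262144) * ei) (congrArg (fun y : ℝ => y * ei) zC_0_1524247822336)
    (Real.exp ((-363409 / 262144) * ei)) rfl
    a e_a
    (e0 * lk) rfl
    me e_me
    (me + (1 : ℝ)) rfl).2
    (Real.log (me + (1 : ℝ))) rfl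
    (Real.log (me + (1 : ℝ)) * ei) rfl
    (2 * (Real.log (me + (1 : ℝ)) * ei)) (congrArg (fun y : ℝ => y * (Real.log (me + (1 : ℝ)) * ei)) zC_2199023255552_0)
    b e_b
    (rh * rh) rfl
    (a * b) rfl
    (rh * rh - a * b) rfl
  change 0 < rh * rh - a * b at p_B
  exact dk_core he hκ hh e_rh e_lk e_ei e_a e_me e_b p_B

theorem ptC {κ : ℝ} {τ : ℂ} {R w : ℝ} {E : Set ℂ} (D : PtD κ τ R w) {v : B1}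
    (G : Geo κ (shf κ τ) v) (v2 : B2 v) (he2 : 2 ≤ v.e) (hE : ∀ τ' : ℂ, 0 < τ'.re → τ' ∈ E)
    (hk : Pool.Agent.helper12.RS.kfun v.e κ < 4 ^ (1 / v.e) - 1)
    {yv psi : ℝ} (cy : CV v v2 yv psi) (h : ∃ ops ∈ Pool.Agent.helper71.FF.Crt.C.progs, RAs ops [v.e, v.h, yv, psi]) :
    FarPt v.e κ (1 - Real.sinh κ / 1024) w (2 * AG v.e v.K * Real.sinh κ ^ 2) R E τ := by
  obtain ⟨ops, ho, hr⟩ := h
  rw [Pool.Agent.helper71.FF.Crt.C.progs] at ho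
  simp only [List.mem_cons, List.not_mem_nil, or_false] at ho
  rcases ho with rfl | rfl | rfl | rfl | rfl
  · exact far_C0 D G v2 he2 cy hr hE
  · exact far_C1 D G v2 he2 cy hr hE
  · exact far_C2 D G v2 he2 cy hr hE
  · exact far_C3 D G v2 he2 cy hr hE
  · exact absurd hk (not_lt.2 (dom_C4 G.e0 G.κ0 G.h hr))

end Pool.Agent.helper71.FF
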