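import Pool.Agent.helper71.FF.Crt.Cc5_6_0

/-!
Generated certificates, assembled.
-/

namespace Pool.Agent.helper71.FF.Crt.C

open Pool.Agent.helper31.IA (Z Op)
open Pool.Agent.helper31.IC


theorem c5_6_all : CovD 0 progs [(6047313952768, 549755813888), (263603617792, 154081951744), (549755813888, 549755813888), (549755813888, 549755813888)] := c5_6_m0

end Pool.Agent.helper71.FF.Crt.C
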