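import Pool.Agent.helper71.FF.Crt.CP

/-!
Generated certificates.
-/

namespace Pool.Agent.helper71.FF.Crt.C

open Pool.Agent.helper31.IA (Z Op)
open Pool.Agent.helper31.IC

theorem c5_6_m0_t0 : CovD 0 progs [(5772436045824, 274877906944), (128781910016, 19260243968), (549755813888, 549755813888), (549755813888, 549755813888)] :=
  Pool.Agent.helper14.QF.covD_F chks_eq (.n 1 (.n 1 (.n 2 (.l 2) (.n 2 (.n 0 (.l 2) (.l 2)) (.n 3 (.l 2) (.l 2)))) (.n 2 (.l 2) (.n 2 (.l 2) (.n 3 (.l 2) (.l 2))))) (.n 2 (.l 2) (.n 1 (.n 3 (.l 2) (.l 2)) (.n 2 (.l 2) (.l 2)))))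
    [(5772436045824, 274877906944), (128781910016, 19260243968), (549755813888, 549755813888), (549755813888, 549755813888)] rfl (by decide +kernel)
theorem c5_6_m0_t1 : CovD 0 progs [(6322191859712, 274877906944), (128781910016, 19260243968), (549755813888, 549755813888), (549755813888, 549755813888)] :=
  Pool.Agent.helper14.QF.covD_F chks_eq (.n 1 (.n 1 (.n 2 (.l 2) (.n 2 (.l 2) (.n 3 (.l 2) (.l 2)))) (.n 2 (.l 2) (.n 2 (.l 2) (.n 3 (.l 2) (.l 2))))) (.n 2 (.l 2) (.n 1 (.n 3 (.l 2) (.l 2)) (.n 1 (.l 2) (.l 2)))))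
    [(6322191859712, 274877906944), (128781910016, 19260243968), (549755813888, 549755813888), (549755813888, 549755813888)] rfl (by decide +kernel)
theorem c5_6_m0_t2 : CovD 0 progs [(6047313952768, 549755813888), (128781910016, 19260243968), (549755813888, 549755813888), (549755813888, 549755813888)] :=
  covD_split 0 (by decide +kernel) c5_6_m0_t0 c5_6_m0_t1
theorem c5_6_m0_t3 : CovD 0 progs [(6047313952768, 549755813888), (167302397952, 19260243968), (549755813888, 549755813888), (549755813888, 549755813888)] :=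
  Pool.Agent.helper14.QF.covD_F chks_eq (.n 1 (.n 1 (.n 2 (.l 2) (.n 3 (.l 2) (.l 2))) (.n 2 (.l 0) (.n 0 (.l 2) (.l 0)))) (.n 1 (.n 2 (.l 0) (.n 0 (.l 0) (.l 0))) (.n 0 (.l 0) (.l 0))))
    [(6047313952768, 549755813888), (167302397952, 19260243968), (549755813888, 549755813888), (549755813888, 549755813888)] rfl (by decide +kernel)
theorem c5_6_m0_t4 : CovD 0 progs [(6047313952768, 549755813888), (148042153984, 38520487936), (549755813888, 549755813888), (549755813888, 549755813888)] :=
  covD_split 1 (by decide +kernel) c5_6_m0_t2 c5_6_m0_t3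
theorem c5_6_m0_t5 : CovD 0 progs [(6047313952768, 549755813888), (225083129856, 38520487936), (549755813888, 549755813888), (549755813888, 549755813888)] :=
  Pool.Agent.helper14.QF.covD_F chks_eq (.n 1 (.n 1 (.n 1 (.l 0) (.l 0)) (.l 0)) (.n 0 (.l 0) (.l 0)))
    [(6047313952768, 549755813888), (225083129856, 38520487936), (549755813888, 549755813888), (549755813888, 549755813888)] rfl (by decide +kernel)
theorem c5_6_m0_t6 : CovD 0 progs [(6047313952768, 549755813888), (186562641920, 77040975872), (549755813888, 549755813888), (549755813888, 549755813888)] :=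
  covD_split 1 (by decide +kernel) c5_6_m0_t4 c5_6_m0_t5
theorem c5_6_m0_t7 : CovD 0 progs [(6047313952768, 549755813888), (340644593664, 77040975872), (549755813888, 549755813888), (549755813888, 549755813888)] :=
  Pool.Agent.helper14.QF.covD_F chks_eq (.n 1 (.n 1 (.l 0) (.l 0)) (.n 1 (.l 0) (.l 0)))
    [(6047313952768, 549755813888), (340644593664, 77040975872), (549755813888, 549755813888), (549755813888, 549755813888)] rfl (by decide +kernel)
theorem c5_6_m0 : CovD 0 progs [(6047313952768, 549755813888), (263603617792, 154081951744), (549755813888, 549755813888), (549755813888, 549755813888)] :=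
  covD_split 1 (by decide +kernel) c5_6_m0_t6 c5_6_m0_t7

end Pool.Agent.helper71.FF.Crt.C
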