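import Pool.Agent.helper71.FF.Crt.Cc6_8_0

/-!
Generated certificates, assembled.
-/

namespace Pool.Agent.helper71.FF.Crt.C

open Pool.Agent.helper31.IA (Z Op)
open Pool.Agent.helper31.IC


theorem c6_8_all : CovD 0 progs [(7696581394432, 1099511627776), (246960619520, 137438953472), (549755813888, 549755813888), (549755813888, 549755813888)] := c6_8_m0

end Pool.Agent.helper71.FF.Crt.C
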