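import Pool.Agent.helper71.FF.Crt.CP

/-!
Generated certificates.
-/

namespace Pool.Agent.helper71.FF.Crt.C

open Pool.Agent.helper31.IA (Z Op)
open Pool.Agent.helper31.IC

theorem c6_8_m0_t0 : CovD 0 progs [(7696581394432, 1099511627776), (178241142784, 68719476736), (274877906944, 274877906944), (549755813888, 549755813888)] :=
  Pool.Agent.helper14.QF.covD_F chks_eq (.n 1 (.n 1 (.n 1 (.n 2 (.l 2) (.n 0 (.l 2) (.l 2))) (.n 0 (.l 2) (.l 2))) (.n 1 (.n 0 (.l 0) (.l 0)) (.l 0))) (.n 1 (.n 0 (.l 0) (.l 0)) (.l 0)))
    [(7696581394432, 1099511627776), (178241142784, 68719476736), (274877906944, 274877906944), (549755813888, 549755813888)] rfl (by decide +kernel)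
theorem c6_8_m0_t1 : CovD 0 progs [(7146825580544, 549755813888), (143881404416, 34359738368), (824633720832, 274877906944), (549755813888, 549755813888)] :=
  Pool.Agent.helper14.QF.covD_F chks_eq (.n 1 (.n 1 (.n 2 (.n 3 (.l 2) (.l 2)) (.n 1 (.n 3 (.l 2) (.l 2)) (.n 3 (.l 2) (.l 2)))) (.n 1 (.n 3 (.l 2) (.l 2)) (.n 3 (.l 2) (.l 0)))) (.n 1 (.n 1 (.n 0 (.l 2) (.l 2)) (.l 2)) (.n 0 (.l 0) (.l 0))))
    [(7146825580544, 549755813888), (143881404416, 34359738368), (824633720832, 274877906944), (549755813888, 549755813888)] rfl (by decide +kernel)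
theorem c6_8_m0_t2 : CovD 0 progs [(8246337208320, 549755813888), (143881404416, 34359738368), (824633720832, 274877906944), (549755813888, 549755813888)] :=
  Pool.Agent.helper14.QF.covD_F chks_eq (.n 1 (.n 1 (.n 1 (.n 2 (.l 2) (.n 3 (.l 2) (.l 2))) (.n 3 (.l 2) (.l 2))) (.n 2 (.l 2) (.n 3 (.l 2) (.l 0)))) (.n 1 (.n 1 (.l 1) (.l 0)) (.l 0)))
    [(8246337208320, 549755813888), (143881404416, 34359738368), (824633720832, 274877906944), (549755813888, 549755813888)] rfl (by decide +kernel)
theorem c6_8_m0_t3 : CovD 0 progs [(7696581394432, 1099511627776), (143881404416, 34359738368), (824633720832, 274877906944), (549755813888, 549755813888)] :=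
  covD_split 0 (by decide +kernel) c6_8_m0_t1 c6_8_m0_t2
theorem c6_8_m0_t4 : CovD 0 progs [(7696581394432, 1099511627776), (212600881152, 34359738368), (824633720832, 274877906944), (549755813888, 549755813888)] :=
  Pool.Agent.helper14.QF.covD_F chks_eq (.n 1 (.n 1 (.l 0) (.l 0)) (.l 0))
    [(7696581394432, 1099511627776), (212600881152, 34359738368), (824633720832, 274877906944), (549755813888, 549755813888)] rfl (by decide +kernel)
theorem c6_8_m0_t5 : CovD 0 progs [(7696581394432, 1099511627776), (178241142784, 68719476736), (824633720832, 274877906944), (549755813888, 549755813888)] :=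
  covD_split 1 (by decide +kernel) c6_8_m0_t3 c6_8_m0_t4
theorem c6_8_m0_t6 : CovD 0 progs [(7696581394432, 1099511627776), (178241142784, 68719476736), (549755813888, 549755813888), (549755813888, 549755813888)] :=
  covD_split 2 (by decide +kernel) c6_8_m0_t0 c6_8_m0_t5
theorem c6_8_m0_t7 : CovD 0 progs [(7696581394432, 1099511627776), (315680096256, 68719476736), (549755813888, 549755813888), (549755813888, 549755813888)] :=
  Pool.Agent.helper14.QF.covD_F chks_eq (.n 1 (.n 1 (.l 0) (.l 0)) (.n 1 (.l 0) (.l 4)))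
    [(7696581394432, 1099511627776), (315680096256, 68719476736), (549755813888, 549755813888), (549755813888, 549755813888)] rfl (by decide +kernel)
theorem c6_8_m0 : CovD 0 progs [(7696581394432, 1099511627776), (246960619520, 137438953472), (549755813888, 549755813888), (549755813888, 549755813888)] :=
  covD_split 1 (by decide +kernel) c6_8_m0_t6 c6_8_m0_t7

end Pool.Agent.helper71.FF.Crt.C
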