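import Pool.Agent.helper71.FF.Crt.Cc8_12_0

/-!
Generated certificates, assembled.
-/

namespace Pool.Agent.helper71.FF.Crt.C

open Pool.Agent.helper31.IA (Z Op)
open Pool.Agent.helper31.IC


theorem c8_12_all : CovD 0 progs [(10995116277760, 2199023255552), (219580203008, 110058536960), (549755813888, 549755813888), (549755813888, 549755813888)] := c8_12_m0

end Pool.Agent.helper71.FF.Crt.C
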