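import Pool.Agent.helper71.FF.Crt.CP

/-!
Generated certificates.
-/

namespace Pool.Agent.helper71.FF.Crt.C

open Pool.Agent.helper31.IA (Z Op)
open Pool.Agent.helper31.IC

theorem c8_12_m0_t0 : CovD 0 progs [(9895604649984, 1099511627776), (164550934528, 55029268480), (274877906944, 274877906944), (549755813888, 549755813888)] :=
  Pool.Agent.helper14.QF.covD_F chks_eq (.n 1 (.n 1 (.n 1 (.n 0 (.l 2) (.l 2)) (.l 2)) (.n 1 (.l 0) (.l 0))) (.n 1 (.l 0) (.l 0)))
    [(9895604649984, 1099511627776), (164550934528, 55029268480), (274877906944, 274877906944), (549755813888, 549755813888)] rfl (by decide +kernel)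
theorem c8_12_m0_t1 : CovD 0 progs [(9895604649984, 1099511627776), (164550934528, 55029268480), (824633720832, 274877906944), (549755813888, 549755813888)] :=
  Pool.Agent.helper14.QF.covD_F chks_eq (.n 1 (.n 1 (.n 1 (.n 2 (.n 3 (.l 2) (.l 0)) (.n 3 (.n 3 (.l 2) (.l 2)) (.n 0 (.l 2) (.l 0)))) (.n 1 (.n 3 (.l 2) (.l 0)) (.n 3 (.l 0) (.l 0)))) (.n 1 (.n 3 (.l 1) (.l 0)) (.l 1))) (.n 1 (.n 0 (.l 0) (.l 0)) (.l 0)))
    [(9895604649984, 1099511627776), (164550934528, 55029268480), (824633720832, 274877906944), (549755813888, 549755813888)] rfl (by decide +kernel)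
theorem c8_12_m0_t2 : CovD 0 progs [(9895604649984, 1099511627776), (164550934528, 55029268480), (549755813888, 549755813888), (549755813888, 549755813888)] :=
  covD_split 2 (by decide +kernel) c8_12_m0_t0 c8_12_m0_t1
theorem c8_12_m0_t3 : CovD 0 progs [(9895604649984, 1099511627776), (274609471488, 55029268480), (549755813888, 549755813888), (549755813888, 549755813888)] :=
  Pool.Agent.helper14.QF.covD_F chks_eq (.n 1 (.n 1 (.l 0) (.l 0)) (.n 1 (.l 0) (.l 0)))
    [(9895604649984, 1099511627776), (274609471488, 55029268480), (549755813888, 549755813888), (549755813888, 549755813888)] rfl (by decide +kernel)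
theorem c8_12_m0_t4 : CovD 0 progs [(9895604649984, 1099511627776), (219580203008, 110058536960), (549755813888, 549755813888), (549755813888, 549755813888)] :=
  covD_split 1 (by decide +kernel) c8_12_m0_t2 c8_12_m0_t3
theorem c8_12_m0_t5 : CovD 0 progs [(12094627905536, 1099511627776), (137036300288, 27514634240), (549755813888, 549755813888), (549755813888, 549755813888)] :=
  Pool.Agent.helper14.QF.covD_F chks_eq (.n 1 (.n 1 (.n 2 (.l 2) (.n 1 (.n 2 (.l 2) (.n 3 (.l 1) (.l 0))) (.n 3 (.l 1) (.l 0)))) (.n 2 (.l 0) (.n 2 (.l 0) (.n 3 (.l 0) (.l 0))))) (.n 1 (.n 3 (.l 1) (.l 0)) (.l 0)))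
    [(12094627905536, 1099511627776), (137036300288, 27514634240), (549755813888, 549755813888), (549755813888, 549755813888)] rfl (by decide +kernel)
theorem c8_12_m0_t6 : CovD 0 progs [(12094627905536, 1099511627776), (192065568768, 27514634240), (549755813888, 549755813888), (549755813888, 549755813888)] :=
  Pool.Agent.helper14.QF.covD_F chks_eq (.n 1 (.n 1 (.l 0) (.l 0)) (.n 0 (.l 0) (.l 0)))
    [(12094627905536, 1099511627776), (192065568768, 27514634240), (549755813888, 549755813888), (549755813888, 549755813888)] rfl (by decide +kernel)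
theorem c8_12_m0_t7 : CovD 0 progs [(12094627905536, 1099511627776), (164550934528, 55029268480), (549755813888, 549755813888), (549755813888, 549755813888)] :=
  covD_split 1 (by decide +kernel) c8_12_m0_t5 c8_12_m0_t6
theorem c8_12_m0_t8 : CovD 0 progs [(12094627905536, 1099511627776), (274609471488, 55029268480), (549755813888, 549755813888), (549755813888, 549755813888)] :=
  Pool.Agent.helper14.QF.covD_F chks_eq (.n 1 (.n 1 (.l 0) (.l 0)) (.n 0 (.l 4) (.l 4)))
    [(12094627905536, 1099511627776), (274609471488, 55029268480), (549755813888, 549755813888), (549755813888, 549755813888)] rfl (by decide +kernel)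
theorem c8_12_m0_t9 : CovD 0 progs [(12094627905536, 1099511627776), (219580203008, 110058536960), (549755813888, 549755813888), (549755813888, 549755813888)] :=
  covD_split 1 (by decide +kernel) c8_12_m0_t7 c8_12_m0_t8
theorem c8_12_m0 : CovD 0 progs [(10995116277760, 2199023255552), (219580203008, 110058536960), (549755813888, 549755813888), (549755813888, 549755813888)] :=
  covD_split 0 (by decide +kernel) c8_12_m0_t4 c8_12_m0_t9

end Pool.Agent.helper71.FF.Crt.C
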