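import Pool.Agent.helper31.IC.EngD
import Pool.Agent.helper14.QF.Inst

/-!
Generated: straight line program(s) and compiled form(s).
-/

namespace Pool.Agent.helper71.FF.Crt.G

open Pool.Agent.helper31.IA (Z Op)
open Pool.Agent.helper31.IC

set_option maxRecDepth 100000

abbrev opsE : Ops := Pool.Agent.helper14.QF.opsF

def prog0 : List Op := [
  .const ⟨1099511627776, 0, 0, 0⟩,
  .const ⟨549755813888, 0, 0, 0⟩,
  .mul 3 4,
  .mul 0 6,
  .scale ⟨549755813888, 0, 0, 0⟩ 0,
  .mul 7 7,
  .mul 1 1,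
  .sub 6 0,
  .inv 0,
  .mul 4 0,
  .scale ⟨2199023255552, 0, 0, 0⟩ 0,
  .scale ⟨2199023255552, 0, 0, 0⟩ 2,
  .sub 0 11,
  .add 0 2,
  .mul 17 5,
  .mul 17 0,
  .sub 15 0,
  .add 16 1,
  .scale ⟨10774999203840, 0, 0, 0⟩ 13,
  .scale ⟨45768245248, 0, 0, 0⟩ 0,
  .const ⟨183207198720, 0, 0, 0⟩,
  .add 1 0,
  .mul 3 0,
  .add 21 0,
  .mul 5 0,
  .add 24 0,
  .mul 7 0,
  .scale ⟨549755813888, 0, 0, 0⟩ 0,
  .add 27 0,
  .mul 3 0,
  .mul 31 24,
  .mul 20 15,
  .scale ⟨2199023255552, 0, 0, 0⟩ 19,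
  .add 1 0,
  .add 0 35,
  .mul 4 0,
  .add 0 35,
  .mul 26 26,
  .scale ⟨2199023255552, 0, 0, 0⟩ 0,
  .add 0 38,
  .mul 27 5,
  .sub 0 40,
  .log 5,
  .scale ⟨549755813888, 0, 0, 0⟩ 0,
  .exp 0,
  .scale ⟨549755813888, 0, 0, 0⟩ 45,
  .mul 0 3,
  .neg 0,
  .exp 0,
  .mul 36 18,
  .mul 0 8,
  .scale ⟨4398046511104, 0, 0, 0⟩ 0,
  .add 0 51,
  .log 0,
  .sub 0 11,
  .mul 9 0,
  .neg 0,
  .exp 0,
  .mul 42 47,
  .add 46 0,
  .inv 0,
  .mul 43 0,
  .mul 45 63,
  .mul 0 1,
  .mul 49 49,
  .sub 64 59,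
  .mul 1 0,
  .mul 64 64,
  .add 55 37,
  .inv 0,
  .mul 0 70,
  .mul 0 0,
  .mul 4 6,
  .sub 72 8,
  .mul 1 0,
  .mul 3 0,
  .inv 76,
  .const ⟨45812285440, 0, 0, 0⟩,
  .scale ⟨1527119872, 0, 0, 0⟩ 2,
  .sub 1 0,
  .mul 4 0,
  .sub 79 0,
  .mul 6 0,
  .sub 82 0,
  .add 35 83,
  .mul 36 36,
  .add 0 85,
  .mul 38 3,
  .scale ⟨2199023255552, 0, 0, 0⟩ 0,
  .add 2 0,
  .inv 5,
  .mul 1 0,
  .add 0 7,
  .mul 44 29,
  .scale ⟨549755813888, 0, 0, 0⟩ 0,
  .mul 0 2,
  .sub 6 0,
  .pos 7,
  .pos 0,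
  .inv 0,
  .mul 52 63,
  .const ⟨6597069766656, 0, 0, 0⟩,
  .add 64 0,
  .mul 2 0,
  .scale ⟨4398046511104, 0, 0, 0⟩ 66,
  .add 0 3,
  .inv 0,
  .mul 3 0,
  .mul 75 0,
  .scale ⟨2199023255552, 0, 0, 0⟩ 0,
  .scale ⟨183274307584, 0, 0, 0⟩ 0,
  .sub 107 0,
  .mul 2 0,
  .sub 110 0,
  .mul 6 0,
  .mul 0 15,
  .mul 83 0,
  .add 0 113,
  .inv 0,
  .mul 3 0,
  .mul 87 0,
  .mul 24 4,
  .add 0 118,
  .mul 0 28,
  .inv 32,
  .mul 1 0,
  .mul 60 5,
  .scale ⟨549755813888, 0, 0, 0⟩ 0,
  .sub 125 0,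
  .sub 126 2,
  .inv 0,
  .mul 2 0,
  .add 5 129,
  .mul 82 0,
  .mul 115 114,
  .add 120 134,
  .mul 118 121,
  .mul 0 124,
  .scale ⟨2199023255552, 0, 0, 0⟩ 0,
  .add 97 0,
  .mul 4 0,
  .inv 0,
  .mul 7 0,
  .mul 142 0,
  .inv 105,
  .mul 67 0,
  .scale ⟨1527119872, 0, 0, 0⟩ 0,
  .sub 67 0,
  .mul 2 0,
  .sub 145 0,
  .mul 4 0,
  .sub 148 0,
  .add 92 149,
  .mul 93 93,
  .add 0 151,
  .mul 95 3,
  .scale ⟨2199023255552, 0, 0, 0⟩ 0,
  .add 2 0,
  .inv 5,
  .mul 1 0,
  .add 0 7,
  .mul 101 17,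
  .scale ⟨549755813888, 0, 0, 0⟩ 0,
  .mul 0 2,
  .sub 6 0,
  .pos 7,
  .pos 0,
  .sub 162 105,
  .mul 0 13,
  .inv 2,
  .mul 1 0,
  .scale ⟨549755813888, 0, 0, 0⟩ 0,
  .add 0 166,
  .inv 0,
  .mul 2 0,
  .mul 29 0,
  .add 167 171,
  .inv 0,
  .mul 169 0,
  .scale ⟨2199023255552, 0, 0, 0⟩ 0,
  .sub 175 0,
  .sub 176 172,
  .mul 181 4,
  .mul 0 2,
  .add 162 0,
  .mul 181 170,
  .scale ⟨274877906944, 0, 0, 0⟩ 182,
  .const ⟨2199023255552, 0, 0, 0⟩,
  .add 1 0,
  .mul 0 0,
  .mul 4 4,
  .const ⟨7696581394432, 0, 0, 0⟩,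
  .const ⟨10995116277760, 0, 0, 0⟩,
  .inv 0,
  .mul 2 0,
  .mul 4 0,
  .add 6 0,
  .mul 7 8,
  .inv 1,
  .mul 1 0,
  .inv 2,
  .mul 4 0,
  .scale ⟨224412041216, 0, 0, 0⟩ 189,
  .inv 169,
  .mul 1 0,
  .mul 5 183,
  .mul 0 1,
  .mul 200 0,
  .sub 203 0,
  .inv 0,
  .mul 74 2,
  .sub 206 0,
  .inv 0,
  .add 27 25,
  .inv 0,
  .mul 194 211,
  .mul 0 213,
  .mul 0 2,
  .scale ⟨549755813888, 0, 0, 0⟩ 0,
  .sub 214 0,
  .sub 215 2,
  .inv 0,
  .mul 2 0,
  .mul 0 8,
  .mul 0 220,
  .mul 222 206,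
  .mul 0 1,
  .mul 9 4,
  .mul 209 3,
  .pos 8,
  .mul 1 148,
  .scale ⟨1374389534720, 0, 0, 0⟩ 0,
  .sub 225 0,
  .pos 0,
  .scale ⟨3092376453120, 0, 0, 0⟩ 2,
  .add 0 45,
  .mul 4 0,
  .add 230 0,
  .scale ⟨1546188226560, 0, 0, 0⟩ 6,
  .add 0 232,
  .mul 8 0,
  .add 234 0,
  .mul 231 221,
  .sub 236 170,
  .mul 233 222,
  .scale ⟨2199023255552, 0, 0, 0⟩ 0,
  .sub 2 0,
  .mul 4 4,
  .add 1 0,
  .add 0 242,
  .scale ⟨549755813888, 0, 0, 0⟩ 0,
  .scale ⟨549755813888, 0, 0, 0⟩ 214,
  .sub 237 0,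
  .mul 179 9,
  .mul 0 240,
  .scale ⟨137438953472, 0, 0, 0⟩ 0,
  .add 3 0,
  .mul 6 0,
  .mul 235 190,
  .mul 0 250,
  .mul 0 136,
  .mul 0 125,
  .mul 253 0,
  .add 125 256,
  .mul 0 52,
  .mul 127 50,
  .add 1 0,
  .mul 57 0,
  .add 5 0,
  .mul 0 186,
  .mul 6 60,
  .mul 0 59,
  .add 9 0,
  .mul 0 190,
  .scale ⟨223338299392, 0, 0, 0⟩ 0,
  .add 267 0,
  .mul 2 0,
  .add 270 0,
  .scale ⟨893353197568, 0, 0, 0⟩ 8,
  .add 272 0,
  .mul 10 0,
  .add 274 0,
  .mul 100 97,
  .mul 0 45,
  .mul 0 2,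
  .mul 27 7,
  .add 235 278,
  .mul 2 0,
  .add 2 0,
  .add 238 282,
  .mul 5 0,
  .mul 49 1,
  .mul 0 107,
  .mul 0 109,
  .mul 285 107,
  .inv 244,
  .mul 1 0,
  .scale ⟨549755813888, 0, 0, 0⟩ 0,
  .mul 230 289,
  .mul 0 175,
  .mul 0 164,
  .mul 278 3,
  .mul 13 1,
  .mul 9 74,
  .add 1 0,
  .mul 0 222,
  .add 4 0,
  .mul 18 43,
  .mul 0 96,
  .mul 18 171,
  .mul 0 95,
  .add 2 0,
  .mul 0 229,
  .mul 290 6,
  .mul 105 1,
  .add 1 0,
  .mul 242 0,
  .mul 0 21,
  .sub 311 0,
  .inv 0,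
  .mul 4 0,
  .mul 316 0,
  .mul 248 1,
  .mul 0 27,
  .sub 317 0,
  .mul 277 0,
  .sub 0 4,
  .inv 0,
  .mul 6 0,
  .sub 322 7,
  .inv 0,
  .mul 261 207,
  .mul 0 196,
  .add 221 0,
  .mul 0 3,
  .mul 0 12,
  .scale ⟨223338299392, 0, 0, 0⟩ 0,
  .add 329 0,
  .mul 2 0,
  .add 332 0,
  .mul 4 0,
  .mul 0 211,
  .mul 0 204,
  .sub 336 0,
  .mul 9 4,
  .mul 0 25,
  .mul 0 263,
  .inv 3,
  .mul 1 0,
  .mul 0 345,
  .mul 61 138,
  .mul 60 221,
  .mul 0 214,
  .mul 0 138,
  .add 3 0,
  .mul 5 0,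
  .mul 67 288,
  .mul 348 237,
  .mul 1 0,
  .mul 0 223,
  .mul 158 351,
  .mul 0 337,
  .mul 0 339,
  .const ⟨9895604649984, 0, 0, 0⟩,
  .const ⟨21990232555520, 0, 0, 0⟩,
  .inv 0,
  .mul 2 0,
  .mul 18 163,
  .mul 0 364,
  .inv 345,
  .mul 1 0,
  .mul 365 241,
  .mul 0 349,
  .mul 369 186,
  .mul 0 78,
  .scale ⟨549755813888, 0, 0, 0⟩ 0,
  .mul 3 0,
  .mul 20 373,
  .mul 0 258,
  .mul 0 243,
  .add 3 0,
  .mul 251 87,
  .mul 0 151,
  .add 2 0,
  .mul 13 0,
  .mul 366 337,
  .scale ⟨4398046511104, 0, 0, 0⟩ 0,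
  .sub 0 346,
  .mul 376 0,
  .mul 0 240,
  .mul 384 0,
  .mul 386 1,
  .add 0 202,
  .inv 0,
  .mul 3 0,
  .mul 390 0,
  .scale ⟨549755813888, 0, 0, 0⟩ 0,
  .sub 390 0,
  .mul 3 0,
  .neg 0,
  .mul 253 223,
  .add 1 0,
  .mul 2 1,
  .mul 398 0,
  .add 2 0,
  .mul 353 15,
  .add 228 399,
  .mul 6 0,
  .add 2 0,
  .mul 80 0,
  .mul 405 0,
  .scale ⟨687194767360, 0, 0, 0⟩ 0,
  .add 405 0,
  .mul 3 0,
  .add 9 0,
  .mul 10 1,
  .mul 411 0,
  .add 2 0,
  .mul 414 415,
  .mul 0 240,
  .mul 0 405,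
  .add 3 0,
  .mul 4 1,
  .mul 418 0,
  .add 2 0,
  .mul 413 384,
  .mul 421 0,
  .scale ⟨412316860416, 0, 0, 0⟩ 0,
  .sub 420 0,
  .mul 3 0,
  .neg 0,
  .add 6 0,
  .mul 7 1,
  .mul 428 0,
  .add 2 0,
  .mul 431 114,
  .mul 0 66,
  .add 2 0,
  .mul 3 1,
  .mul 434 0,
  .add 2 0,
  .mul 262 417,
  .mul 0 75,
  .sub 2 0,
  .mul 439 1,
  .add 438 0,
  .inv 0,
  .mul 3 0,
  .mul 444 439,
  .mul 0 128,
  .sub 399 127,
  .inv 0,
  .mul 2 0,
  .add 5 0,
  .mul 6 1,
  .mul 450 0,
  .add 2 0,
  .mul 452 0,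
  .add 451 0,
  .mul 103 249,
  .mul 455 97,
  .mul 76 0,
  .add 2 0,
  .mul 0 4,
  .add 7 0,
  .add 0 109,
  .add 0 81,
  .neg 0,
  .const ⟨1073741824, 0, 0, 0⟩,
  .sub 1 0,
  .sub 450 463,
  .add 0 281,
  .scale ⟨2199023255552, 0, 0, 0⟩ 105,
  .sub 1 0,
  .mul 295 0,
  .mul 4 2,
  .add 0 469,
  .inv 0,
  .mul 3 0,
  .mul 277 166,
  .scale ⟨549755813888, 0, 0, 0⟩ 273,
  .add 464 0,
  .mul 2 0,
  .scale ⟨2199023255552, 0, 0, 0⟩ 0,
  .add 177 0,
  .scale ⟨2199023255552, 0, 0, 0⟩ 0,
  .mul 0 166,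
  .mul 478 166,
  .sub 464 0,
  .inv 0,
  .mul 3 0,
  .sub 12 0,
  .pos 281,
  .pos 278,
  .scale ⟨2199023255552, 0, 0, 0⟩ 175,
  .sub 442 0,
  .pos 0,
  .pos 167,
  .pos 360,
  .sub 486 316,
  .pos 0,
  .scale ⟨687194767360, 0, 0, 0⟩ 488,
  .sub 0 222,
  .pos 0,
  .scale ⟨377957122048, 0, 0, 0⟩ 490,
  .sub 0 228,
  .pos 0,
  .pos 10,
  .sub 491 88,
  .pos 0,
  .pos 170,
  .pos 156,
  .sub 4 164,
  .pos 0,
  .pos 9,
  .pos 31]

def chk0 {α : Type} (cst : Z → α) (add sub mul : α → α → α) (scale : Z → α → α)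
    (neg inv exp log : α → α) (ok : α → Bool) (isPos : Nat → α → Bool) (isLt : α → Nat → Bool) :
    List α → Bool
  | [x0, x1, x2, x3] =>
  let v0 := cst ⟨1099511627776, 0, 0, 0⟩; ok v0 && (
  let v1 := cst ⟨549755813888, 0, 0, 0⟩; ok v1 && (
  let v2 := mul x1 x2; ok v2 && (
  let v3 := mul v2 x3; ok v3 && (
  let v4 := scale ⟨549755813888, 0, 0, 0⟩ v3; ok v4 && (
  let v5 := mul x2 x2; ok v5 && (
  let v6 := mul v4 v4; ok v6 && (
  let v7 := sub v0 v6; ok v7 && (
  let v8 := inv v7; ok v8 && (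
  let v9 := mul v4 v8; ok v9 && (
  let v10 := scale ⟨2199023255552, 0, 0, 0⟩ v9; ok v10 && (
  let v11 := scale ⟨2199023255552, 0, 0, 0⟩ v8; ok v11 && (
  let v12 := sub v11 v0; ok v12 && (
  let v13 := add v12 v10; ok v13 && (
  let v14 := mul x3 v8; ok v14 && (
  let v15 := mul x2 v14; ok v15 && (
  let v16 := sub v0 v15; ok v16 && (
  let v17 := add v0 v15; ok v17 && (
  let v18 := scale ⟨10774999203840, 0, 0, 0⟩ v4; ok v18 && (
  let v19 := scale ⟨45768245248, 0, 0, 0⟩ v18; ok v19 && (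
  let v20 := cst ⟨183207198720, 0, 0, 0⟩; ok v20 && (
  let v21 := add v19 v20; ok v21 && (
  let v22 := mul v18 v21; ok v22 && (
  let v23 := add v1 v22; ok v23 && (
  let v24 := mul v18 v23; ok v24 && (
  let v25 := add v0 v24; ok v25 && (
  let v26 := mul v18 v25; ok v26 && (
  let v27 := scale ⟨549755813888, 0, 0, 0⟩ v26; ok v27 && (
  let v28 := add v0 v27; ok v28 && (
  let v29 := mul v25 v28; ok v29 && (
  let v30 := mul x1 v5; ok v30 && (
  let v31 := mul v10 v15; ok v31 && (
  let v32 := scale ⟨2199023255552, 0, 0, 0⟩ v12; ok v32 && (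
  let v33 := add v31 v32; ok v33 && (
  let v34 := add v33 x1; ok v34 && (
  let v35 := mul v30 v34; ok v35 && (
  let v36 := add v35 v0; ok v36 && (
  let v37 := mul v10 v10; ok v37 && (
  let v38 := scale ⟨2199023255552, 0, 0, 0⟩ v37; ok v38 && (
  let v39 := add v38 v0; ok v39 && (
  let v40 := mul v12 v34; ok v40 && (
  let v41 := sub v40 v0; ok v41 && (
  let v42 := log v36; ok v42 && (
  let v43 := scale ⟨549755813888, 0, 0, 0⟩ v42; ok v43 && (
  let v44 := exp v43; ok v44 && (
  let v45 := scale ⟨549755813888, 0, 0, 0⟩ x0; ok v45 && (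
  let v46 := mul v45 v42; ok v46 && (
  let v47 := neg v46; ok v47 && (
  let v48 := exp v47; ok v48 && (
  let v49 := mul v12 v30; ok v49 && (
  let v50 := mul v49 v41; ok v50 && (
  let v51 := scale ⟨4398046511104, 0, 0, 0⟩ v50; ok v51 && (
  let v52 := add v51 v0; ok v52 && (
  let v53 := log v52; ok v53 && (
  let v54 := sub v53 v42; ok v54 && (
  let v55 := mul v45 v54; ok v55 && (
  let v56 := neg v55; ok v56 && (
  let v57 := exp v56; ok v57 && (
  let v58 := mul v15 v10; ok v58 && (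
  let v59 := add v12 v58; ok v59 && (
  let v60 := inv v59; ok v60 && (
  let v61 := mul v17 v60; ok v61 && (
  let v62 := mul v16 x1; ok v62 && (
  let v63 := mul v62 v61; ok v63 && (
  let v64 := mul v14 v14; ok v64 && (
  let v65 := sub v0 v5; ok v65 && (
  let v66 := mul v64 v65; ok v66 && (
  let v67 := mul v2 v2; ok v67 && (
  let v68 := add v12 v30; ok v68 && (
  let v69 := inv v68; ok v69 && (
  let v70 := mul v69 x0; ok v70 && (
  let v71 := mul v70 v70; ok v71 && (
  let v72 := mul v67 v65; ok v72 && (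
  let v73 := sub v0 v64; ok v73 && (
  let v74 := mul v72 v73; ok v74 && (
  let v75 := mul v71 v74; ok v75 && (
  let v76 := inv x0; ok v76 && (
  let v77 := cst ⟨45812285440, 0, 0, 0⟩; ok v77 && (
  let v78 := scale ⟨1527119872, 0, 0, 0⟩ v75; ok v78 && (
  let v79 := sub v77 v78; ok v79 && (
  let v80 := mul v75 v79; ok v80 && (
  let v81 := sub v1 v80; ok v81 && (
  let v82 := mul v75 v81; ok v82 && (
  let v83 := sub v0 v82; ok v83 && (
  let v84 := add v48 v0; ok v84 && (
  let v85 := mul v48 v48; ok v85 && (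
  let v86 := add v85 v0; ok v86 && (
  let v87 := mul v48 v83; ok v87 && (
  let v88 := scale ⟨2199023255552, 0, 0, 0⟩ v87; ok v88 && (
  let v89 := add v86 v88; ok v89 && (
  let v90 := inv v84; ok v90 && (
  let v91 := mul v89 v90; ok v91 && (
  let v92 := add v91 v84; ok v92 && (
  let v93 := mul v48 v63; ok v93 && (
  let v94 := scale ⟨549755813888, 0, 0, 0⟩ v93; ok v94 && (
  let v95 := mul v94 v92; ok v95 && (
  let v96 := sub v89 v95; ok v96 && (
  isPos 4 v89 && (
  isPos 4 v96 && (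
  let v97 := inv v96; ok v97 && (
  let v98 := mul v45 v34; ok v98 && (
  let v99 := cst ⟨6597069766656, 0, 0, 0⟩; ok v99 && (
  let v100 := add v35 v99; ok v100 && (
  let v101 := mul v98 v100; ok v101 && (
  let v102 := scale ⟨4398046511104, 0, 0, 0⟩ v35; ok v102 && (
  let v103 := add v102 v99; ok v103 && (
  let v104 := inv v103; ok v104 && (
  let v105 := mul v101 v104; ok v105 && (
  let v106 := mul v30 v105; ok v106 && (
  let v107 := scale ⟨2199023255552, 0, 0, 0⟩ v106; ok v107 && (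
  let v108 := scale ⟨183274307584, 0, 0, 0⟩ v107; ok v108 && (
  let v109 := sub v1 v108; ok v109 && (
  let v110 := mul v107 v109; ok v110 && (
  let v111 := sub v0 v110; ok v111 && (
  let v112 := mul v105 v111; ok v112 && (
  let v113 := mul v112 v97; ok v113 && (
  let v114 := mul v30 v113; ok v114 && (
  let v115 := add v114 v1; ok v115 && (
  let v116 := inv v115; ok v116 && (
  let v117 := mul v113 v116; ok v117 && (
  let v118 := mul v30 v117; ok v118 && (
  let v119 := mul v94 v114; ok v119 && (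
  let v120 := add v119 v1; ok v120 && (
  let v121 := mul v120 v92; ok v121 && (
  let v122 := inv v89; ok v122 && (
  let v123 := mul v121 v122; ok v123 && (
  let v124 := mul v63 v118; ok v124 && (
  let v125 := scale ⟨549755813888, 0, 0, 0⟩ v124; ok v125 && (
  let v126 := sub v0 v125; ok v126 && (
  let v127 := sub v0 v124; ok v127 && (
  let v128 := inv v127; ok v128 && (
  let v129 := mul v126 v128; ok v129 && (
  let v130 := add v124 v0; ok v130 && (
  let v131 := mul v48 v130; ok v131 && (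
  let v132 := mul v16 v17; ok v132 && (
  let v133 := add v12 x1; ok v133 && (
  let v134 := mul v15 v12; ok v134 && (
  let v135 := mul v134 v10; ok v135 && (
  let v136 := scale ⟨2199023255552, 0, 0, 0⟩ v135; ok v136 && (
  let v137 := add v39 v136; ok v137 && (
  let v138 := mul v133 v137; ok v138 && (
  let v139 := inv v138; ok v139 && (
  let v140 := mul v132 v139; ok v140 && (
  let v141 := mul x1 v140; ok v141 && (
  let v142 := inv v36; ok v142 && (
  let v143 := mul v75 v142; ok v143 && (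
  let v144 := scale ⟨1527119872, 0, 0, 0⟩ v143; ok v144 && (
  let v145 := sub v77 v144; ok v145 && (
  let v146 := mul v143 v145; ok v146 && (
  let v147 := sub v1 v146; ok v147 && (
  let v148 := mul v143 v147; ok v148 && (
  let v149 := sub v0 v148; ok v149 && (
  let v150 := add v57 v0; ok v150 && (
  let v151 := mul v57 v57; ok v151 && (
  let v152 := add v151 v0; ok v152 && (
  let v153 := mul v57 v149; ok v153 && (
  let v154 := scale ⟨2199023255552, 0, 0, 0⟩ v153; ok v154 && (
  let v155 := add v152 v154; ok v155 && (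
  let v156 := inv v150; ok v156 && (
  let v157 := mul v155 v156; ok v157 && (
  let v158 := add v157 v150; ok v158 && (
  let v159 := mul v57 v141; ok v159 && (
  let v160 := scale ⟨549755813888, 0, 0, 0⟩ v159; ok v160 && (
  let v161 := mul v160 v158; ok v161 && (
  let v162 := sub v155 v161; ok v162 && (
  isPos 4 v155 && (
  isPos 4 v162 && (
  let v163 := sub v0 v57; ok v163 && (
  let v164 := mul v163 v150; ok v164 && (
  let v165 := inv v162; ok v165 && (
  let v166 := mul v164 v165; ok v166 && (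
  let v167 := scale ⟨549755813888, 0, 0, 0⟩ v166; ok v167 && (
  let v168 := add v167 v1; ok v168 && (
  let v169 := inv v168; ok v169 && (
  let v170 := mul v167 v169; ok v170 && (
  let v171 := mul v141 v170; ok v171 && (
  let v172 := add v4 v0; ok v172 && (
  let v173 := inv v172; ok v173 && (
  let v174 := mul v4 v173; ok v174 && (
  let v175 := scale ⟨2199023255552, 0, 0, 0⟩ v174; ok v175 && (
  let v176 := sub v0 v175; ok v176 && (
  let v177 := sub v0 v4; ok v177 && (
  let v178 := mul x3 v173; ok v178 && (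
  let v179 := mul v178 v176; ok v179 && (
  let v180 := add v17 v179; ok v180 && (
  let v181 := mul x0 v10; ok v181 && (
  let v182 := scale ⟨274877906944, 0, 0, 0⟩ x0; ok v182 && (
  let v183 := cst ⟨2199023255552, 0, 0, 0⟩; ok v183 && (
  let v184 := add v182 v183; ok v184 && (
  let v185 := mul v184 v184; ok v185 && (
  let v186 := mul v181 v181; ok v186 && (
  let v187 := cst ⟨7696581394432, 0, 0, 0⟩; ok v187 && (
  let v188 := cst ⟨10995116277760, 0, 0, 0⟩; ok v188 && (
  let v189 := inv v188; ok v189 && (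
  let v190 := mul v187 v189; ok v190 && (
  let v191 := mul v186 v190; ok v191 && (
  let v192 := add v185 v191; ok v192 && (
  let v193 := mul v185 v184; ok v193 && (
  let v194 := inv v192; ok v194 && (
  let v195 := mul v193 v194; ok v195 && (
  let v196 := inv v193; ok v196 && (
  let v197 := mul v192 v196; ok v197 && (
  let v198 := scale ⟨224412041216, 0, 0, 0⟩ v8; ok v198 && (
  let v199 := inv v29; ok v199 && (
  let v200 := mul v198 v199; ok v200 && (
  let v201 := mul v195 v17; ok v201 && (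
  let v202 := mul v201 v200; ok v202 && (
  let v203 := mul v2 v202; ok v203 && (
  let v204 := sub v0 v203; ok v204 && (
  let v205 := inv v204; ok v205 && (
  let v206 := mul v131 v203; ok v206 && (
  let v207 := sub v0 v206; ok v207 && (
  let v208 := inv v207; ok v208 && (
  let v209 := add v181 v183; ok v209 && (
  let v210 := inv v209; ok v210 && (
  let v211 := mul v16 x0; ok v211 && (
  let v212 := mul v211 x1; ok v212 && (
  let v213 := mul v212 v210; ok v213 && (
  let v214 := scale ⟨549755813888, 0, 0, 0⟩ v213; ok v214 && (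
  let v215 := sub v0 v214; ok v215 && (
  let v216 := sub v0 v213; ok v216 && (
  let v217 := inv v216; ok v217 && (
  let v218 := mul v215 v217; ok v218 && (
  let v219 := mul v218 v210; ok v219 && (
  let v220 := mul v219 x0; ok v220 && (
  let v221 := mul x1 v14; ok v221 && (
  let v222 := mul v221 v220; ok v222 && (
  let v223 := mul v213 v218; ok v223 && (
  let v224 := mul v14 v220; ok v224 && (
  isPos 4 v216 && (
  let v225 := mul v223 v76; ok v225 && (
  let v226 := scale ⟨1374389534720, 0, 0, 0⟩ v225; ok v226 && (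
  let v227 := sub v1 v226; ok v227 && (
  isPos 4 v227 && (
  let v228 := scale ⟨3092376453120, 0, 0, 0⟩ v225; ok v228 && (
  let v229 := add v228 v183; ok v229 && (
  let v230 := mul v225 v229; ok v230 && (
  let v231 := add v0 v230; ok v231 && (
  let v232 := scale ⟨1546188226560, 0, 0, 0⟩ v225; ok v232 && (
  let v233 := add v232 v0; ok v233 && (
  let v234 := mul v225 v233; ok v234 && (
  let v235 := add v0 v234; ok v235 && (
  let v236 := mul v4 v14; ok v236 && (
  let v237 := sub v0 v66; ok v237 && (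
  let v238 := mul v4 v15; ok v238 && (
  let v239 := scale ⟨2199023255552, 0, 0, 0⟩ v238; ok v239 && (
  let v240 := sub v237 v239; ok v240 && (
  let v241 := mul v236 v236; ok v241 && (
  let v242 := add v240 v241; ok v242 && (
  let v243 := add v242 v0; ok v243 && (
  let v244 := scale ⟨549755813888, 0, 0, 0⟩ v243; ok v244 && (
  let v245 := scale ⟨549755813888, 0, 0, 0⟩ v30; ok v245 && (
  let v246 := sub v8 v245; ok v246 && (
  let v247 := mul v67 v237; ok v247 && (
  let v248 := mul v247 v7; ok v248 && (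
  let v249 := scale ⟨137438953472, 0, 0, 0⟩ v248; ok v249 && (
  let v250 := add v246 v249; ok v250 && (
  let v251 := mul v244 v250; ok v251 && (
  let v252 := mul v16 v61; ok v252 && (
  let v253 := mul v252 v2; ok v253 && (
  let v254 := mul v253 v117; ok v254 && (
  let v255 := mul v254 v129; ok v255 && (
  let v256 := mul v2 v255; ok v256 && (
  let v257 := add v131 v0; ok v257 && (
  let v258 := mul v257 v205; ok v258 && (
  let v259 := mul v131 v208; ok v259 && (
  let v260 := add v258 v259; ok v260 && (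
  let v261 := mul v203 v260; ok v261 && (
  let v262 := add v256 v261; ok v262 && (
  let v263 := mul v262 v76; ok v263 && (
  let v264 := mul v257 v203; ok v264 && (
  let v265 := mul v264 v205; ok v265 && (
  let v266 := add v256 v265; ok v266 && (
  let v267 := mul v266 v76; ok v267 && (
  let v268 := scale ⟨223338299392, 0, 0, 0⟩ v267; ok v268 && (
  let v269 := add v1 v268; ok v269 && (
  let v270 := mul v267 v269; ok v270 && (
  let v271 := add v0 v270; ok v271 && (
  let v272 := scale ⟨893353197568, 0, 0, 0⟩ v263; ok v272 && (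
  let v273 := add v0 v272; ok v273 && (
  let v274 := mul v263 v273; ok v274 && (
  let v275 := add v0 v274; ok v275 && (
  let v276 := mul v175 v178; ok v276 && (
  let v277 := mul v276 v231; ok v277 && (
  let v278 := mul v277 v275; ok v278 && (
  let v279 := mul v251 v271; ok v279 && (
  let v280 := add v44 v1; ok v280 && (
  let v281 := mul v278 v280; ok v281 && (
  let v282 := add v279 v281; ok v282 && (
  let v283 := add v44 v0; ok v283 && (
  let v284 := mul v278 v283; ok v284 && (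
  let v285 := mul v235 v283; ok v285 && (
  let v286 := mul v285 v178; ok v286 && (
  let v287 := mul v286 v177; ok v287 && (
  let v288 := mul v2 v180; ok v288 && (
  let v289 := inv v44; ok v289 && (
  let v290 := mul v288 v289; ok v290 && (
  let v291 := scale ⟨549755813888, 0, 0, 0⟩ v290; ok v291 && (
  let v292 := mul v61 v2; ok v292 && (
  let v293 := mul v292 v117; ok v293 && (
  let v294 := mul v293 v129; ok v294 && (
  let v295 := mul v16 v291; ok v295 && (
  let v296 := mul v282 v294; ok v296 && (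
  let v297 := mul v287 v222; ok v297 && (
  let v298 := add v296 v297; ok v298 && (
  let v299 := mul v298 v76; ok v299 && (
  let v300 := add v295 v299; ok v300 && (
  let v301 := mul v282 v257; ok v301 && (
  let v302 := mul v301 v205; ok v302 && (
  let v303 := mul v284 v131; ok v303 && (
  let v304 := mul v303 v208; ok v304 && (
  let v305 := add v302 v304; ok v305 && (
  let v306 := mul v305 v76; ok v306 && (
  let v307 := mul v16 v300; ok v307 && (
  let v308 := mul v202 v306; ok v308 && (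
  let v309 := add v307 v308; ok v309 && (
  let v310 := mul v67 v309; ok v310 && (
  let v311 := mul v310 v289; ok v311 && (
  let v312 := sub v0 v311; ok v312 && (
  let v313 := inv v312; ok v313 && (
  let v314 := mul v309 v313; ok v314 && (
  let v315 := mul x1 v314; ok v315 && (
  let v316 := mul v67 v314; ok v316 && (
  let v317 := mul v316 v289; ok v317 && (
  let v318 := sub v0 v317; ok v318 && (
  let v319 := mul v41 v318; ok v319 && (
  let v320 := sub v319 v315; ok v320 && (
  let v321 := inv v320; ok v321 && (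
  let v322 := mul v315 v321; ok v322 && (
  let v323 := sub v0 v315; ok v323 && (
  let v324 := inv v323; ok v324 && (
  let v325 := mul v63 v117; ok v325 && (
  let v326 := mul v325 v129; ok v326 && (
  let v327 := add v105 v326; ok v327 && (
  let v328 := mul v327 v324; ok v328 && (
  let v329 := mul v328 v316; ok v329 && (
  let v330 := scale ⟨223338299392, 0, 0, 0⟩ v329; ok v330 && (
  let v331 := add v1 v330; ok v331 && (
  let v332 := mul v329 v331; ok v332 && (
  let v333 := add v0 v332; ok v333 && (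
  let v334 := mul v329 v333; ok v334 && (
  let v335 := mul v334 v123; ok v335 && (
  let v336 := mul v335 v131; ok v336 && (
  let v337 := sub v0 v336; ok v337 && (
  let v338 := mul v328 v333; ok v338 && (
  let v339 := mul v338 v313; ok v339 && (
  let v340 := mul v339 v76; ok v340 && (
  let v341 := inv v337; ok v341 && (
  let v342 := mul v340 v341; ok v342 && (
  let v343 := mul v342 x2; ok v343 && (
  let v344 := mul v282 v205; ok v344 && (
  let v345 := mul v284 v123; ok v345 && (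
  let v346 := mul v345 v131; ok v346 && (
  let v347 := mul v346 v208; ok v347 && (
  let v348 := add v344 v347; ok v348 && (
  let v349 := mul v343 v348; ok v349 && (
  let v350 := mul v282 v61; ok v350 && (
  let v351 := mul v2 v113; ok v351 && (
  let v352 := mul v350 v351; ok v352 && (
  let v353 := mul v352 v129; ok v353 && (
  let v354 := mul v195 v2; ok v354 && (
  let v355 := mul v354 v17; ok v355 && (
  let v356 := mul v355 v16; ok v356 && (
  let v357 := cst ⟨9895604649984, 0, 0, 0⟩; ok v357 && (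
  let v358 := cst ⟨21990232555520, 0, 0, 0⟩; ok v358 && (
  let v359 := inv v358; ok v359 && (
  let v360 := mul v357 v359; ok v360 && (
  let v361 := mul v342 v197; ok v361 && (
  let v362 := mul v361 x2; ok v362 && (
  let v363 := inv v17; ok v363 && (
  let v364 := mul v362 v363; ok v364 && (
  let v365 := mul x0 v123; ok v365 && (
  let v366 := mul v365 v16; ok v366 && (
  let v367 := mul x2 v180; ok v367 && (
  let v368 := mul v367 v289; ok v368 && (
  let v369 := scale ⟨549755813888, 0, 0, 0⟩ v368; ok v369 && (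
  let v370 := mul v366 v369; ok v370 && (
  let v371 := mul v350 x2; ok v371 && (
  let v372 := mul v371 v113; ok v372 && (
  let v373 := mul v372 v129; ok v373 && (
  let v374 := add v370 v373; ok v374 && (
  let v375 := mul v123 v287; ok v375 && (
  let v376 := mul v375 v224; ok v376 && (
  let v377 := add v374 v376; ok v377 && (
  let v378 := mul v364 v377; ok v378 && (
  let v379 := mul v12 v41; ok v379 && (
  let v380 := scale ⟨4398046511104, 0, 0, 0⟩ v379; ok v380 && (
  let v381 := sub v380 v34; ok v381 && (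
  let v382 := mul v5 v381; ok v382 && (
  let v383 := mul v382 v142; ok v383 && (
  let v384 := mul x0 v383; ok v384 && (
  let v385 := mul x1 v383; ok v385 && (
  let v386 := add v385 v183; ok v386 && (
  let v387 := inv v386; ok v387 && (
  let v388 := mul v384 v387; ok v388 && (
  let v389 := mul x1 v388; ok v389 && (
  let v390 := scale ⟨549755813888, 0, 0, 0⟩ v389; ok v390 && (
  let v391 := sub v0 v390; ok v391 && (
  let v392 := mul v388 v391; ok v392 && (
  let v393 := neg v392; ok v393 && (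
  let v394 := mul v140 v170; ok v394 && (
  let v395 := add v393 v394; ok v395 && (
  let v396 := mul v393 v394; ok v396 && (
  let v397 := mul x1 v396; ok v397 && (
  let v398 := add v395 v397; ok v398 && (
  let v399 := mul v45 v383; ok v399 && (
  let v400 := add v171 v0; ok v400 && (
  let v401 := mul v394 v400; ok v401 && (
  let v402 := add v399 v401; ok v402 && (
  let v403 := mul v322 v402; ok v403 && (
  let v404 := mul x1 v403; ok v404 && (
  let v405 := scale ⟨687194767360, 0, 0, 0⟩ v404; ok v405 && (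
  let v406 := add v0 v405; ok v406 && (
  let v407 := mul v403 v406; ok v407 && (
  let v408 := add v398 v407; ok v408 && (
  let v409 := mul v398 v407; ok v409 && (
  let v410 := mul x1 v409; ok v410 && (
  let v411 := add v408 v410; ok v411 && (
  let v412 := mul x2 x3; ok v412 && (
  let v413 := mul v412 v172; ok v413 && (
  let v414 := mul v413 v8; ok v414 && (
  let v415 := add v411 v414; ok v415 && (
  let v416 := mul v411 v414; ok v416 && (
  let v417 := mul x1 v416; ok v417 && (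
  let v418 := add v415 v417; ok v418 && (
  let v419 := mul v5 v34; ok v419 && (
  let v420 := mul x1 v419; ok v420 && (
  let v421 := scale ⟨412316860416, 0, 0, 0⟩ v420; ok v421 && (
  let v422 := sub v1 v421; ok v422 && (
  let v423 := mul v419 v422; ok v423 && (
  let v424 := neg v423; ok v424 && (
  let v425 := add v418 v424; ok v425 && (
  let v426 := mul v418 v424; ok v426 && (
  let v427 := mul x1 v426; ok v427 && (
  let v428 := add v425 v427; ok v428 && (
  let v429 := mul x2 v314; ok v429 && (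
  let v430 := mul v429 v363; ok v430 && (
  let v431 := add v428 v430; ok v431 && (
  let v432 := mul v428 v430; ok v432 && (
  let v433 := mul x1 v432; ok v433 && (
  let v434 := add v431 v433; ok v434 && (
  let v435 := mul v172 v17; ok v435 && (
  let v436 := mul v435 v360; ok v436 && (
  let v437 := sub v434 v436; ok v437 && (
  let v438 := mul x1 v436; ok v438 && (
  let v439 := add v0 v438; ok v439 && (
  let v440 := inv v439; ok v440 && (
  let v441 := mul v437 v440; ok v441 && (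
  let v442 := mul x2 v2; ok v442 && (
  let v443 := mul v442 v314; ok v443 && (
  let v444 := sub v44 v316; ok v444 && (
  let v445 := inv v444; ok v445 && (
  let v446 := mul v443 v445; ok v446 && (
  let v447 := add v441 v446; ok v447 && (
  let v448 := mul v441 v446; ok v448 && (
  let v449 := mul x1 v448; ok v449 && (
  let v450 := add v447 v449; ok v450 && (
  let v451 := mul x1 v450; ok v451 && (
  let v452 := add v0 v451; ok v452 && (
  let v453 := mul v349 v203; ok v453 && (
  let v454 := mul x1 v356; ok v454 && (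
  let v455 := mul v378 v454; ok v455 && (
  let v456 := add v453 v455; ok v456 && (
  let v457 := mul v456 v452; ok v457 && (
  let v458 := add v450 v457; ok v458 && (
  let v459 := add v458 v349; ok v459 && (
  let v460 := add v459 v378; ok v460 && (
  let v461 := neg v460; ok v461 && (
  let v462 := cst ⟨1073741824, 0, 0, 0⟩; ok v462 && (
  let v463 := sub v461 v462; ok v463 && (
  let v464 := sub v13 v0; ok v464 && (
  let v465 := add v464 v183; ok v465 && (
  let v466 := scale ⟨2199023255552, 0, 0, 0⟩ v360; ok v466 && (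
  let v467 := sub v465 v466; ok v467 && (
  let v468 := mul v172 v467; ok v468 && (
  let v469 := mul v464 v466; ok v469 && (
  let v470 := add v469 v0; ok v470 && (
  let v471 := inv v470; ok v471 && (
  let v472 := mul v468 v471; ok v472 && (
  let v473 := mul v195 v306; ok v473 && (
  let v474 := scale ⟨549755813888, 0, 0, 0⟩ v200; ok v474 && (
  let v475 := add v10 v474; ok v475 && (
  let v476 := mul v473 v475; ok v476 && (
  let v477 := scale ⟨2199023255552, 0, 0, 0⟩ v476; ok v477 && (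
  let v478 := add v300 v477; ok v478 && (
  let v479 := scale ⟨2199023255552, 0, 0, 0⟩ v478; ok v479 && (
  let v480 := mul v479 v313; ok v480 && (
  let v481 := mul v2 v314; ok v481 && (
  let v482 := sub v17 v481; ok v482 && (
  let v483 := inv v482; ok v483 && (
  let v484 := mul v480 v483; ok v484 && (
  let v485 := sub v472 v484; ok v485 && (
  isPos 4 v204 && (
  isPos 4 v207 && (
  let v486 := scale ⟨2199023255552, 0, 0, 0⟩ v310; ok v486 && (
  let v487 := sub v44 v486; ok v487 && (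
  isPos 4 v487 && (
  isPos 4 v320 && (
  isPos 4 v127 && (
  let v488 := sub v1 v171; ok v488 && (
  isPos 4 v488 && (
  let v489 := scale ⟨687194767360, 0, 0, 0⟩ v0; ok v489 && (
  let v490 := sub v489 v267; ok v490 && (
  isPos 4 v490 && (
  let v491 := scale ⟨377957122048, 0, 0, 0⟩ v0; ok v491 && (
  let v492 := sub v491 v263; ok v492 && (
  isPos 4 v492 && (
  isPos 4 v482 && (
  let v493 := sub v1 v404; ok v493 && (
  isPos 4 v493 && (
  isPos 4 v323 && (
  isPos 4 v337 && (
  let v494 := sub v489 v329; ok v494 && (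
  isPos 4 v494 && (
  isPos 4 v485 && (
  isPos 4 v463 && (
  true))))))))))))))))))))))))))))))))))))))))))))))))))))))))))))))))))))))))))))))))))))))))))))))))))))))))))))))))))))))))))))))))))))))))))))))))))))))))))))))))))))))))))))))))))))))))))))))))))))))))))))))))))))))))))))))))))))))))))))))))))))))))))))))))))))))))))))))))))))))))))))))))))))))))))))))))))))))))))))))))))))))))))))))))))))))))))))))))))))))))))))))))))))))))))))))))))))))))))))))))))))))))))))))))))))))))))))))))))))))))))))))))))))))))))))))))))))))))))))))))))))))))))))))))))))))))))))))))))))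
  | _ => false

set_option maxRecDepth 1000000 in
theorem chk0_eq (O : Ops) (m : List O.α)
    (h : chk0 O.cst O.add O.sub O.mul O.scale O.neg O.inv O.exp O.log O.ok O.isPos O.isLt m = true) :
    runG O 4 prog0 m = true := by
  match m, h with
  | [x0, x1, x2, x3], h => exact h

def chkB0 : List opsE.α → Bool :=
  chk0 opsE.cst opsE.add opsE.sub opsE.mul opsE.scale opsE.neg opsE.inv opsE.exp opsE.log opsE.ok opsE.isPos opsE.isLt

theorem chkB0_eq (m : List opsE.α) (h : chkB0 m = true) : runG opsE 4 prog0 m = true :=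
  chk0_eq opsE m h

def prog1 : List Op := [
  .const ⟨1099511627776, 0, 0, 0⟩,
  .const ⟨549755813888, 0, 0, 0⟩,
  .mul 3 4,
  .mul 0 6,
  .scale ⟨549755813888, 0, 0, 0⟩ 0,
  .mul 7 7,
  .mul 1 1,
  .sub 6 0,
  .inv 0,
  .mul 4 0,
  .scale ⟨2199023255552, 0, 0, 0⟩ 0,
  .scale ⟨2199023255552, 0, 0, 0⟩ 2,
  .sub 0 11,
  .add 0 2,
  .mul 17 5,
  .mul 17 0,
  .sub 15 0,
  .add 16 1,
  .scale ⟨10774999203840, 0, 0, 0⟩ 13,
  .scale ⟨45768245248, 0, 0, 0⟩ 0,
  .const ⟨183207198720, 0, 0, 0⟩,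
  .add 1 0,
  .mul 3 0,
  .add 21 0,
  .mul 5 0,
  .add 24 0,
  .mul 7 0,
  .scale ⟨549755813888, 0, 0, 0⟩ 0,
  .add 27 0,
  .mul 3 0,
  .mul 31 24,
  .mul 20 15,
  .scale ⟨2199023255552, 0, 0, 0⟩ 19,
  .add 1 0,
  .add 0 35,
  .mul 4 0,
  .add 0 35,
  .mul 26 26,
  .scale ⟨2199023255552, 0, 0, 0⟩ 0,
  .add 0 38,
  .mul 27 5,
  .sub 0 40,
  .log 5,
  .scale ⟨549755813888, 0, 0, 0⟩ 0,
  .exp 0,
  .scale ⟨549755813888, 0, 0, 0⟩ 45,
  .mul 0 3,
  .neg 0,
  .exp 0,
  .mul 36 18,
  .mul 0 8,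
  .scale ⟨4398046511104, 0, 0, 0⟩ 0,
  .add 0 51,
  .log 0,
  .sub 0 11,
  .mul 9 0,
  .neg 0,
  .exp 0,
  .mul 42 47,
  .add 46 0,
  .inv 0,
  .mul 43 0,
  .mul 45 63,
  .mul 0 1,
  .mul 49 49,
  .sub 64 59,
  .mul 1 0,
  .mul 64 64,
  .add 55 37,
  .inv 0,
  .mul 0 70,
  .mul 0 0,
  .mul 4 6,
  .sub 72 8,
  .mul 1 0,
  .mul 3 0,
  .inv 76,
  .const ⟨45812285440, 0, 0, 0⟩,
  .scale ⟨1527119872, 0, 0, 0⟩ 2,
  .sub 1 0,
  .mul 4 0,
  .sub 79 0,
  .mul 6 0,
  .sub 82 0,
  .add 35 83,
  .mul 36 36,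
  .add 0 85,
  .mul 38 3,
  .scale ⟨2199023255552, 0, 0, 0⟩ 0,
  .add 2 0,
  .inv 5,
  .mul 1 0,
  .add 0 7,
  .mul 44 29,
  .scale ⟨549755813888, 0, 0, 0⟩ 0,
  .mul 0 2,
  .sub 6 0,
  .pos 7,
  .pos 0,
  .inv 0,
  .mul 52 63,
  .const ⟨6597069766656, 0, 0, 0⟩,
  .add 64 0,
  .mul 2 0,
  .scale ⟨4398046511104, 0, 0, 0⟩ 66,
  .add 0 3,
  .inv 0,
  .mul 3 0,
  .mul 75 0,
  .scale ⟨2199023255552, 0, 0, 0⟩ 0,
  .scale ⟨183274307584, 0, 0, 0⟩ 0,
  .sub 107 0,
  .mul 2 0,
  .sub 110 0,
  .mul 6 0,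
  .mul 0 15,
  .mul 83 0,
  .add 0 113,
  .inv 0,
  .mul 3 0,
  .mul 87 0,
  .mul 24 4,
  .add 0 118,
  .mul 0 28,
  .inv 32,
  .mul 1 0,
  .mul 60 5,
  .scale ⟨549755813888, 0, 0, 0⟩ 0,
  .sub 125 0,
  .sub 126 2,
  .inv 0,
  .mul 2 0,
  .add 5 129,
  .mul 82 0,
  .mul 115 114,
  .add 120 134,
  .mul 118 121,
  .mul 0 124,
  .scale ⟨2199023255552, 0, 0, 0⟩ 0,
  .add 97 0,
  .mul 4 0,
  .inv 0,
  .mul 7 0,
  .mul 142 0,
  .inv 105,
  .mul 67 0,
  .scale ⟨1527119872, 0, 0, 0⟩ 0,
  .sub 67 0,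
  .mul 2 0,
  .sub 145 0,
  .mul 4 0,
  .sub 148 0,
  .add 92 149,
  .mul 93 93,
  .add 0 151,
  .mul 95 3,
  .scale ⟨2199023255552, 0, 0, 0⟩ 0,
  .add 2 0,
  .inv 5,
  .mul 1 0,
  .add 0 7,
  .mul 101 17,
  .scale ⟨549755813888, 0, 0, 0⟩ 0,
  .mul 0 2,
  .sub 6 0,
  .pos 7,
  .pos 0,
  .sub 162 105,
  .mul 0 13,
  .inv 2,
  .mul 1 0,
  .scale ⟨549755813888, 0, 0, 0⟩ 0,
  .add 0 166,
  .inv 0,
  .mul 2 0,
  .mul 29 0,
  .add 167 171,
  .inv 0,
  .mul 169 0,
  .scale ⟨2199023255552, 0, 0, 0⟩ 0,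
  .sub 175 0,
  .sub 176 172,
  .mul 181 4,
  .mul 0 2,
  .add 162 0,
  .mul 181 170,
  .scale ⟨274877906944, 0, 0, 0⟩ 182,
  .const ⟨2199023255552, 0, 0, 0⟩,
  .add 1 0,
  .mul 0 0,
  .mul 4 4,
  .const ⟨7696581394432, 0, 0, 0⟩,
  .const ⟨10995116277760, 0, 0, 0⟩,
  .inv 0,
  .mul 2 0,
  .mul 4 0,
  .add 6 0,
  .mul 7 8,
  .inv 1,
  .mul 1 0,
  .inv 2,
  .mul 4 0,
  .scale ⟨224412041216, 0, 0, 0⟩ 189,
  .inv 169,
  .mul 1 0,
  .mul 5 183,
  .mul 0 1,
  .mul 200 0,
  .sub 203 0,
  .inv 0,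
  .mul 74 2,
  .sub 206 0,
  .inv 0,
  .mul 192 206,
  .mul 0 92,
  .inv 196,
  .mul 1 0,
  .scale ⟨549755813888, 0, 0, 0⟩ 0,
  .sub 213 0,
  .sub 214 2,
  .inv 0,
  .mul 2 0,
  .mul 220 100,
  .mul 0 1,
  .mul 221 0,
  .mul 8 3,
  .pos 6,
  .mul 0 145,
  .scale ⟨1374389534720, 0, 0, 0⟩ 0,
  .sub 222 0,
  .pos 0,
  .scale ⟨3092376453120, 0, 0, 0⟩ 2,
  .add 0 42,
  .mul 4 0,
  .add 227 0,
  .scale ⟨1546188226560, 0, 0, 0⟩ 6,
  .add 0 229,
  .mul 8 0,
  .add 231 0,
  .mul 228 218,
  .sub 233 167,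
  .mul 230 219,
  .scale ⟨2199023255552, 0, 0, 0⟩ 0,
  .sub 2 0,
  .mul 4 4,
  .add 1 0,
  .add 0 239,
  .scale ⟨549755813888, 0, 0, 0⟩ 0,
  .scale ⟨549755813888, 0, 0, 0⟩ 211,
  .sub 234 0,
  .mul 176 9,
  .mul 0 237,
  .scale ⟨137438953472, 0, 0, 0⟩ 0,
  .add 3 0,
  .mul 6 0,
  .mul 232 187,
  .mul 0 247,
  .mul 0 133,
  .mul 0 122,
  .mul 250 0,
  .add 122 253,
  .mul 0 49,
  .mul 124 47,
  .add 1 0,
  .mul 54 0,
  .add 5 0,
  .mul 0 183,
  .mul 6 57,
  .mul 0 56,
  .add 9 0,
  .mul 0 187,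
  .scale ⟨223338299392, 0, 0, 0⟩ 0,
  .add 264 0,
  .mul 2 0,
  .add 267 0,
  .scale ⟨893353197568, 0, 0, 0⟩ 8,
  .add 269 0,
  .mul 10 0,
  .add 271 0,
  .mul 97 94,
  .mul 0 45,
  .mul 0 2,
  .mul 27 7,
  .add 232 275,
  .mul 2 0,
  .add 2 0,
  .add 235 279,
  .mul 5 0,
  .mul 49 1,
  .mul 0 104,
  .mul 0 106,
  .mul 282 104,
  .inv 241,
  .mul 1 0,
  .scale ⟨549755813888, 0, 0, 0⟩ 0,
  .mul 227 286,
  .mul 0 172,
  .mul 0 161,
  .mul 275 3,
  .mul 13 1,
  .mul 9 73,
  .add 1 0,
  .mul 0 219,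
  .add 4 0,
  .mul 18 43,
  .mul 0 93,
  .mul 18 168,
  .mul 0 92,
  .add 2 0,
  .mul 0 226,
  .mul 287 6,
  .mul 102 1,
  .add 1 0,
  .mul 239 0,
  .mul 0 21,
  .sub 308 0,
  .inv 0,
  .mul 4 0,
  .mul 313 0,
  .mul 245 1,
  .mul 0 27,
  .sub 314 0,
  .mul 274 0,
  .sub 0 4,
  .inv 0,
  .mul 6 0,
  .sub 319 7,
  .inv 0,
  .mul 258 204,
  .mul 0 193,
  .add 218 0,
  .mul 0 3,
  .mul 0 12,
  .scale ⟨223338299392, 0, 0, 0⟩ 0,
  .add 326 0,
  .mul 2 0,
  .add 329 0,
  .mul 4 0,
  .mul 0 208,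
  .mul 0 201,
  .sub 333 0,
  .mul 9 4,
  .mul 0 25,
  .mul 0 260,
  .inv 3,
  .mul 1 0,
  .mul 0 342,
  .mul 61 135,
  .mul 60 218,
  .mul 0 211,
  .mul 0 135,
  .add 3 0,
  .mul 5 0,
  .mul 67 285,
  .mul 345 234,
  .mul 1 0,
  .mul 0 220,
  .mul 155 348,
  .mul 0 334,
  .mul 0 336,
  .const ⟨9895604649984, 0, 0, 0⟩,
  .const ⟨21990232555520, 0, 0, 0⟩,
  .inv 0,
  .mul 2 0,
  .mul 18 160,
  .mul 0 361,
  .inv 342,
  .mul 1 0,
  .mul 362 238,
  .mul 0 346,
  .mul 366 183,
  .mul 0 78,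
  .scale ⟨549755813888, 0, 0, 0⟩ 0,
  .mul 3 0,
  .mul 20 370,
  .mul 0 255,
  .mul 0 240,
  .add 3 0,
  .mul 248 87,
  .mul 0 153,
  .add 2 0,
  .mul 13 0,
  .mul 363 334,
  .scale ⟨4398046511104, 0, 0, 0⟩ 0,
  .sub 0 343,
  .mul 373 0,
  .mul 0 237,
  .mul 381 0,
  .mul 383 1,
  .add 0 199,
  .inv 0,
  .mul 3 0,
  .mul 387 0,
  .scale ⟨549755813888, 0, 0, 0⟩ 0,
  .sub 387 0,
  .mul 3 0,
  .neg 0,
  .mul 250 220,
  .add 1 0,
  .mul 2 1,
  .mul 395 0,
  .add 2 0,
  .mul 350 15,
  .add 225 396,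
  .mul 6 0,
  .add 2 0,
  .mul 80 0,
  .mul 402 0,
  .scale ⟨687194767360, 0, 0, 0⟩ 0,
  .add 402 0,
  .mul 3 0,
  .add 9 0,
  .mul 10 1,
  .mul 408 0,
  .add 2 0,
  .mul 411 412,
  .mul 0 237,
  .mul 0 402,
  .add 3 0,
  .mul 4 1,
  .mul 415 0,
  .add 2 0,
  .mul 410 381,
  .mul 418 0,
  .scale ⟨412316860416, 0, 0, 0⟩ 0,
  .sub 417 0,
  .mul 3 0,
  .neg 0,
  .add 6 0,
  .mul 7 1,
  .mul 425 0,
  .add 2 0,
  .mul 428 114,
  .mul 0 66,
  .add 2 0,
  .mul 3 1,
  .mul 431 0,
  .add 2 0,
  .mul 259 414,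
  .mul 0 75,
  .sub 2 0,
  .mul 436 1,
  .add 435 0,
  .inv 0,
  .mul 3 0,
  .mul 441 436,
  .mul 0 128,
  .sub 396 127,
  .inv 0,
  .mul 2 0,
  .add 5 0,
  .mul 6 1,
  .mul 447 0,
  .add 2 0,
  .mul 449 0,
  .add 448 0,
  .mul 103 246,
  .mul 452 97,
  .mul 76 0,
  .add 2 0,
  .mul 0 4,
  .add 7 0,
  .add 0 109,
  .add 0 81,
  .neg 0,
  .const ⟨1073741824, 0, 0, 0⟩,
  .sub 1 0,
  .sub 447 460,
  .add 0 278,
  .scale ⟨2199023255552, 0, 0, 0⟩ 105,
  .sub 1 0,
  .mul 292 0,
  .mul 4 2,
  .add 0 466,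
  .inv 0,
  .mul 3 0,
  .mul 274 166,
  .scale ⟨549755813888, 0, 0, 0⟩ 270,
  .add 461 0,
  .mul 2 0,
  .scale ⟨2199023255552, 0, 0, 0⟩ 0,
  .add 177 0,
  .scale ⟨2199023255552, 0, 0, 0⟩ 0,
  .mul 0 166,
  .mul 475 166,
  .sub 461 0,
  .inv 0,
  .mul 3 0,
  .sub 12 0,
  .pos 278,
  .pos 275,
  .scale ⟨2199023255552, 0, 0, 0⟩ 175,
  .sub 439 0,
  .pos 0,
  .pos 167,
  .pos 357,
  .sub 483 313,
  .pos 0,
  .scale ⟨687194767360, 0, 0, 0⟩ 485,
  .sub 0 222,
  .pos 0,
  .scale ⟨377957122048, 0, 0, 0⟩ 487,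
  .sub 0 228,
  .pos 0,
  .pos 10,
  .sub 488 88,
  .pos 0,
  .pos 170,
  .pos 156,
  .sub 4 164,
  .pos 0,
  .pos 9,
  .pos 31]

def chk1 {α : Type} (cst : Z → α) (add sub mul : α → α → α) (scale : Z → α → α)
    (neg inv exp log : α → α) (ok : α → Bool) (isPos : Nat → α → Bool) (isLt : α → Nat → Bool) :
    List α → Bool
  | [x0, x1, x2, x3] =>
  let v0 := cst ⟨1099511627776, 0, 0, 0⟩; ok v0 && (
  let v1 := cst ⟨549755813888, 0, 0, 0⟩; ok v1 && (
  let v2 := mul x1 x2; ok v2 && (
  let v3 := mul v2 x3; ok v3 && (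
  let v4 := scale ⟨549755813888, 0, 0, 0⟩ v3; ok v4 && (
  let v5 := mul x2 x2; ok v5 && (
  let v6 := mul v4 v4; ok v6 && (
  let v7 := sub v0 v6; ok v7 && (
  let v8 := inv v7; ok v8 && (
  let v9 := mul v4 v8; ok v9 && (
  let v10 := scale ⟨2199023255552, 0, 0, 0⟩ v9; ok v10 && (
  let v11 := scale ⟨2199023255552, 0, 0, 0⟩ v8; ok v11 && (
  let v12 := sub v11 v0; ok v12 && (
  let v13 := add v12 v10; ok v13 && (
  let v14 := mul x3 v8; ok v14 && (
  let v15 := mul x2 v14; ok v15 && (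
  let v16 := sub v0 v15; ok v16 && (
  let v17 := add v0 v15; ok v17 && (
  let v18 := scale ⟨10774999203840, 0, 0, 0⟩ v4; ok v18 && (
  let v19 := scale ⟨45768245248, 0, 0, 0⟩ v18; ok v19 && (
  let v20 := cst ⟨183207198720, 0, 0, 0⟩; ok v20 && (
  let v21 := add v19 v20; ok v21 && (
  let v22 := mul v18 v21; ok v22 && (
  let v23 := add v1 v22; ok v23 && (
  let v24 := mul v18 v23; ok v24 && (
  let v25 := add v0 v24; ok v25 && (
  let v26 := mul v18 v25; ok v26 && (
  let v27 := scale ⟨549755813888, 0, 0, 0⟩ v26; ok v27 && (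
  let v28 := add v0 v27; ok v28 && (
  let v29 := mul v25 v28; ok v29 && (
  let v30 := mul x1 v5; ok v30 && (
  let v31 := mul v10 v15; ok v31 && (
  let v32 := scale ⟨2199023255552, 0, 0, 0⟩ v12; ok v32 && (
  let v33 := add v31 v32; ok v33 && (
  let v34 := add v33 x1; ok v34 && (
  let v35 := mul v30 v34; ok v35 && (
  let v36 := add v35 v0; ok v36 && (
  let v37 := mul v10 v10; ok v37 && (
  let v38 := scale ⟨2199023255552, 0, 0, 0⟩ v37; ok v38 && (
  let v39 := add v38 v0; ok v39 && (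
  let v40 := mul v12 v34; ok v40 && (
  let v41 := sub v40 v0; ok v41 && (
  let v42 := log v36; ok v42 && (
  let v43 := scale ⟨549755813888, 0, 0, 0⟩ v42; ok v43 && (
  let v44 := exp v43; ok v44 && (
  let v45 := scale ⟨549755813888, 0, 0, 0⟩ x0; ok v45 && (
  let v46 := mul v45 v42; ok v46 && (
  let v47 := neg v46; ok v47 && (
  let v48 := exp v47; ok v48 && (
  let v49 := mul v12 v30; ok v49 && (
  let v50 := mul v49 v41; ok v50 && (
  let v51 := scale ⟨4398046511104, 0, 0, 0⟩ v50; ok v51 && (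
  let v52 := add v51 v0; ok v52 && (
  let v53 := log v52; ok v53 && (
  let v54 := sub v53 v42; ok v54 && (
  let v55 := mul v45 v54; ok v55 && (
  let v56 := neg v55; ok v56 && (
  let v57 := exp v56; ok v57 && (
  let v58 := mul v15 v10; ok v58 && (
  let v59 := add v12 v58; ok v59 && (
  let v60 := inv v59; ok v60 && (
  let v61 := mul v17 v60; ok v61 && (
  let v62 := mul v16 x1; ok v62 && (
  let v63 := mul v62 v61; ok v63 && (
  let v64 := mul v14 v14; ok v64 && (
  let v65 := sub v0 v5; ok v65 && (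
  let v66 := mul v64 v65; ok v66 && (
  let v67 := mul v2 v2; ok v67 && (
  let v68 := add v12 v30; ok v68 && (
  let v69 := inv v68; ok v69 && (
  let v70 := mul v69 x0; ok v70 && (
  let v71 := mul v70 v70; ok v71 && (
  let v72 := mul v67 v65; ok v72 && (
  let v73 := sub v0 v64; ok v73 && (
  let v74 := mul v72 v73; ok v74 && (
  let v75 := mul v71 v74; ok v75 && (
  let v76 := inv x0; ok v76 && (
  let v77 := cst ⟨45812285440, 0, 0, 0⟩; ok v77 && (
  let v78 := scale ⟨1527119872, 0, 0, 0⟩ v75; ok v78 && (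
  let v79 := sub v77 v78; ok v79 && (
  let v80 := mul v75 v79; ok v80 && (
  let v81 := sub v1 v80; ok v81 && (
  let v82 := mul v75 v81; ok v82 && (
  let v83 := sub v0 v82; ok v83 && (
  let v84 := add v48 v0; ok v84 && (
  let v85 := mul v48 v48; ok v85 && (
  let v86 := add v85 v0; ok v86 && (
  let v87 := mul v48 v83; ok v87 && (
  let v88 := scale ⟨2199023255552, 0, 0, 0⟩ v87; ok v88 && (
  let v89 := add v86 v88; ok v89 && (
  let v90 := inv v84; ok v90 && (
  let v91 := mul v89 v90; ok v91 && (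
  let v92 := add v91 v84; ok v92 && (
  let v93 := mul v48 v63; ok v93 && (
  let v94 := scale ⟨549755813888, 0, 0, 0⟩ v93; ok v94 && (
  let v95 := mul v94 v92; ok v95 && (
  let v96 := sub v89 v95; ok v96 && (
  isPos 4 v89 && (
  isPos 4 v96 && (
  let v97 := inv v96; ok v97 && (
  let v98 := mul v45 v34; ok v98 && (
  let v99 := cst ⟨6597069766656, 0, 0, 0⟩; ok v99 && (
  let v100 := add v35 v99; ok v100 && (
  let v101 := mul v98 v100; ok v101 && (
  let v102 := scale ⟨4398046511104, 0, 0, 0⟩ v35; ok v102 && (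
  let v103 := add v102 v99; ok v103 && (
  let v104 := inv v103; ok v104 && (
  let v105 := mul v101 v104; ok v105 && (
  let v106 := mul v30 v105; ok v106 && (
  let v107 := scale ⟨2199023255552, 0, 0, 0⟩ v106; ok v107 && (
  let v108 := scale ⟨183274307584, 0, 0, 0⟩ v107; ok v108 && (
  let v109 := sub v1 v108; ok v109 && (
  let v110 := mul v107 v109; ok v110 && (
  let v111 := sub v0 v110; ok v111 && (
  let v112 := mul v105 v111; ok v112 && (
  let v113 := mul v112 v97; ok v113 && (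
  let v114 := mul v30 v113; ok v114 && (
  let v115 := add v114 v1; ok v115 && (
  let v116 := inv v115; ok v116 && (
  let v117 := mul v113 v116; ok v117 && (
  let v118 := mul v30 v117; ok v118 && (
  let v119 := mul v94 v114; ok v119 && (
  let v120 := add v119 v1; ok v120 && (
  let v121 := mul v120 v92; ok v121 && (
  let v122 := inv v89; ok v122 && (
  let v123 := mul v121 v122; ok v123 && (
  let v124 := mul v63 v118; ok v124 && (
  let v125 := scale ⟨549755813888, 0, 0, 0⟩ v124; ok v125 && (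
  let v126 := sub v0 v125; ok v126 && (
  let v127 := sub v0 v124; ok v127 && (
  let v128 := inv v127; ok v128 && (
  let v129 := mul v126 v128; ok v129 && (
  let v130 := add v124 v0; ok v130 && (
  let v131 := mul v48 v130; ok v131 && (
  let v132 := mul v16 v17; ok v132 && (
  let v133 := add v12 x1; ok v133 && (
  let v134 := mul v15 v12; ok v134 && (
  let v135 := mul v134 v10; ok v135 && (
  let v136 := scale ⟨2199023255552, 0, 0, 0⟩ v135; ok v136 && (
  let v137 := add v39 v136; ok v137 && (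
  let v138 := mul v133 v137; ok v138 && (
  let v139 := inv v138; ok v139 && (
  let v140 := mul v132 v139; ok v140 && (
  let v141 := mul x1 v140; ok v141 && (
  let v142 := inv v36; ok v142 && (
  let v143 := mul v75 v142; ok v143 && (
  let v144 := scale ⟨1527119872, 0, 0, 0⟩ v143; ok v144 && (
  let v145 := sub v77 v144; ok v145 && (
  let v146 := mul v143 v145; ok v146 && (
  let v147 := sub v1 v146; ok v147 && (
  let v148 := mul v143 v147; ok v148 && (
  let v149 := sub v0 v148; ok v149 && (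
  let v150 := add v57 v0; ok v150 && (
  let v151 := mul v57 v57; ok v151 && (
  let v152 := add v151 v0; ok v152 && (
  let v153 := mul v57 v149; ok v153 && (
  let v154 := scale ⟨2199023255552, 0, 0, 0⟩ v153; ok v154 && (
  let v155 := add v152 v154; ok v155 && (
  let v156 := inv v150; ok v156 && (
  let v157 := mul v155 v156; ok v157 && (
  let v158 := add v157 v150; ok v158 && (
  let v159 := mul v57 v141; ok v159 && (
  let v160 := scale ⟨549755813888, 0, 0, 0⟩ v159; ok v160 && (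
  let v161 := mul v160 v158; ok v161 && (
  let v162 := sub v155 v161; ok v162 && (
  isPos 4 v155 && (
  isPos 4 v162 && (
  let v163 := sub v0 v57; ok v163 && (
  let v164 := mul v163 v150; ok v164 && (
  let v165 := inv v162; ok v165 && (
  let v166 := mul v164 v165; ok v166 && (
  let v167 := scale ⟨549755813888, 0, 0, 0⟩ v166; ok v167 && (
  let v168 := add v167 v1; ok v168 && (
  let v169 := inv v168; ok v169 && (
  let v170 := mul v167 v169; ok v170 && (
  let v171 := mul v141 v170; ok v171 && (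
  let v172 := add v4 v0; ok v172 && (
  let v173 := inv v172; ok v173 && (
  let v174 := mul v4 v173; ok v174 && (
  let v175 := scale ⟨2199023255552, 0, 0, 0⟩ v174; ok v175 && (
  let v176 := sub v0 v175; ok v176 && (
  let v177 := sub v0 v4; ok v177 && (
  let v178 := mul x3 v173; ok v178 && (
  let v179 := mul v178 v176; ok v179 && (
  let v180 := add v17 v179; ok v180 && (
  let v181 := mul x0 v10; ok v181 && (
  let v182 := scale ⟨274877906944, 0, 0, 0⟩ x0; ok v182 && (
  let v183 := cst ⟨2199023255552, 0, 0, 0⟩; ok v183 && (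
  let v184 := add v182 v183; ok v184 && (
  let v185 := mul v184 v184; ok v185 && (
  let v186 := mul v181 v181; ok v186 && (
  let v187 := cst ⟨7696581394432, 0, 0, 0⟩; ok v187 && (
  let v188 := cst ⟨10995116277760, 0, 0, 0⟩; ok v188 && (
  let v189 := inv v188; ok v189 && (
  let v190 := mul v187 v189; ok v190 && (
  let v191 := mul v186 v190; ok v191 && (
  let v192 := add v185 v191; ok v192 && (
  let v193 := mul v185 v184; ok v193 && (
  let v194 := inv v192; ok v194 && (
  let v195 := mul v193 v194; ok v195 && (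
  let v196 := inv v193; ok v196 && (
  let v197 := mul v192 v196; ok v197 && (
  let v198 := scale ⟨224412041216, 0, 0, 0⟩ v8; ok v198 && (
  let v199 := inv v29; ok v199 && (
  let v200 := mul v198 v199; ok v200 && (
  let v201 := mul v195 v17; ok v201 && (
  let v202 := mul v201 v200; ok v202 && (
  let v203 := mul v2 v202; ok v203 && (
  let v204 := sub v0 v203; ok v204 && (
  let v205 := inv v204; ok v205 && (
  let v206 := mul v131 v203; ok v206 && (
  let v207 := sub v0 v206; ok v207 && (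
  let v208 := inv v207; ok v208 && (
  let v209 := mul v16 v2; ok v209 && (
  let v210 := mul v209 v117; ok v210 && (
  let v211 := inv v14; ok v211 && (
  let v212 := mul v210 v211; ok v212 && (
  let v213 := scale ⟨549755813888, 0, 0, 0⟩ v212; ok v213 && (
  let v214 := sub v0 v213; ok v214 && (
  let v215 := sub v0 v212; ok v215 && (
  let v216 := inv v215; ok v216 && (
  let v217 := mul v214 v216; ok v217 && (
  let v218 := mul x2 v117; ok v218 && (
  let v219 := mul v218 v217; ok v219 && (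
  let v220 := mul x1 v219; ok v220 && (
  let v221 := mul v212 v217; ok v221 && (
  isPos 4 v215 && (
  let v222 := mul v221 v76; ok v222 && (
  let v223 := scale ⟨1374389534720, 0, 0, 0⟩ v222; ok v223 && (
  let v224 := sub v1 v223; ok v224 && (
  isPos 4 v224 && (
  let v225 := scale ⟨3092376453120, 0, 0, 0⟩ v222; ok v225 && (
  let v226 := add v225 v183; ok v226 && (
  let v227 := mul v222 v226; ok v227 && (
  let v228 := add v0 v227; ok v228 && (
  let v229 := scale ⟨1546188226560, 0, 0, 0⟩ v222; ok v229 && (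
  let v230 := add v229 v0; ok v230 && (
  let v231 := mul v222 v230; ok v231 && (
  let v232 := add v0 v231; ok v232 && (
  let v233 := mul v4 v14; ok v233 && (
  let v234 := sub v0 v66; ok v234 && (
  let v235 := mul v4 v15; ok v235 && (
  let v236 := scale ⟨2199023255552, 0, 0, 0⟩ v235; ok v236 && (
  let v237 := sub v234 v236; ok v237 && (
  let v238 := mul v233 v233; ok v238 && (
  let v239 := add v237 v238; ok v239 && (
  let v240 := add v239 v0; ok v240 && (
  let v241 := scale ⟨549755813888, 0, 0, 0⟩ v240; ok v241 && (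
  let v242 := scale ⟨549755813888, 0, 0, 0⟩ v30; ok v242 && (
  let v243 := sub v8 v242; ok v243 && (
  let v244 := mul v67 v234; ok v244 && (
  let v245 := mul v244 v7; ok v245 && (
  let v246 := scale ⟨137438953472, 0, 0, 0⟩ v245; ok v246 && (
  let v247 := add v243 v246; ok v247 && (
  let v248 := mul v241 v247; ok v248 && (
  let v249 := mul v16 v61; ok v249 && (
  let v250 := mul v249 v2; ok v250 && (
  let v251 := mul v250 v117; ok v251 && (
  let v252 := mul v251 v129; ok v252 && (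
  let v253 := mul v2 v252; ok v253 && (
  let v254 := add v131 v0; ok v254 && (
  let v255 := mul v254 v205; ok v255 && (
  let v256 := mul v131 v208; ok v256 && (
  let v257 := add v255 v256; ok v257 && (
  let v258 := mul v203 v257; ok v258 && (
  let v259 := add v253 v258; ok v259 && (
  let v260 := mul v259 v76; ok v260 && (
  let v261 := mul v254 v203; ok v261 && (
  let v262 := mul v261 v205; ok v262 && (
  let v263 := add v253 v262; ok v263 && (
  let v264 := mul v263 v76; ok v264 && (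
  let v265 := scale ⟨223338299392, 0, 0, 0⟩ v264; ok v265 && (
  let v266 := add v1 v265; ok v266 && (
  let v267 := mul v264 v266; ok v267 && (
  let v268 := add v0 v267; ok v268 && (
  let v269 := scale ⟨893353197568, 0, 0, 0⟩ v260; ok v269 && (
  let v270 := add v0 v269; ok v270 && (
  let v271 := mul v260 v270; ok v271 && (
  let v272 := add v0 v271; ok v272 && (
  let v273 := mul v175 v178; ok v273 && (
  let v274 := mul v273 v228; ok v274 && (
  let v275 := mul v274 v272; ok v275 && (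
  let v276 := mul v248 v268; ok v276 && (
  let v277 := add v44 v1; ok v277 && (
  let v278 := mul v275 v277; ok v278 && (
  let v279 := add v276 v278; ok v279 && (
  let v280 := add v44 v0; ok v280 && (
  let v281 := mul v275 v280; ok v281 && (
  let v282 := mul v232 v280; ok v282 && (
  let v283 := mul v282 v178; ok v283 && (
  let v284 := mul v283 v177; ok v284 && (
  let v285 := mul v2 v180; ok v285 && (
  let v286 := inv v44; ok v286 && (
  let v287 := mul v285 v286; ok v287 && (
  let v288 := scale ⟨549755813888, 0, 0, 0⟩ v287; ok v288 && (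
  let v289 := mul v61 v2; ok v289 && (
  let v290 := mul v289 v117; ok v290 && (
  let v291 := mul v290 v129; ok v291 && (
  let v292 := mul v16 v288; ok v292 && (
  let v293 := mul v279 v291; ok v293 && (
  let v294 := mul v284 v220; ok v294 && (
  let v295 := add v293 v294; ok v295 && (
  let v296 := mul v295 v76; ok v296 && (
  let v297 := add v292 v296; ok v297 && (
  let v298 := mul v279 v254; ok v298 && (
  let v299 := mul v298 v205; ok v299 && (
  let v300 := mul v281 v131; ok v300 && (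
  let v301 := mul v300 v208; ok v301 && (
  let v302 := add v299 v301; ok v302 && (
  let v303 := mul v302 v76; ok v303 && (
  let v304 := mul v16 v297; ok v304 && (
  let v305 := mul v202 v303; ok v305 && (
  let v306 := add v304 v305; ok v306 && (
  let v307 := mul v67 v306; ok v307 && (
  let v308 := mul v307 v286; ok v308 && (
  let v309 := sub v0 v308; ok v309 && (
  let v310 := inv v309; ok v310 && (
  let v311 := mul v306 v310; ok v311 && (
  let v312 := mul x1 v311; ok v312 && (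
  let v313 := mul v67 v311; ok v313 && (
  let v314 := mul v313 v286; ok v314 && (
  let v315 := sub v0 v314; ok v315 && (
  let v316 := mul v41 v315; ok v316 && (
  let v317 := sub v316 v312; ok v317 && (
  let v318 := inv v317; ok v318 && (
  let v319 := mul v312 v318; ok v319 && (
  let v320 := sub v0 v312; ok v320 && (
  let v321 := inv v320; ok v321 && (
  let v322 := mul v63 v117; ok v322 && (
  let v323 := mul v322 v129; ok v323 && (
  let v324 := add v105 v323; ok v324 && (
  let v325 := mul v324 v321; ok v325 && (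
  let v326 := mul v325 v313; ok v326 && (
  let v327 := scale ⟨223338299392, 0, 0, 0⟩ v326; ok v327 && (
  let v328 := add v1 v327; ok v328 && (
  let v329 := mul v326 v328; ok v329 && (
  let v330 := add v0 v329; ok v330 && (
  let v331 := mul v326 v330; ok v331 && (
  let v332 := mul v331 v123; ok v332 && (
  let v333 := mul v332 v131; ok v333 && (
  let v334 := sub v0 v333; ok v334 && (
  let v335 := mul v325 v330; ok v335 && (
  let v336 := mul v335 v310; ok v336 && (
  let v337 := mul v336 v76; ok v337 && (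
  let v338 := inv v334; ok v338 && (
  let v339 := mul v337 v338; ok v339 && (
  let v340 := mul v339 x2; ok v340 && (
  let v341 := mul v279 v205; ok v341 && (
  let v342 := mul v281 v123; ok v342 && (
  let v343 := mul v342 v131; ok v343 && (
  let v344 := mul v343 v208; ok v344 && (
  let v345 := add v341 v344; ok v345 && (
  let v346 := mul v340 v345; ok v346 && (
  let v347 := mul v279 v61; ok v347 && (
  let v348 := mul v2 v113; ok v348 && (
  let v349 := mul v347 v348; ok v349 && (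
  let v350 := mul v349 v129; ok v350 && (
  let v351 := mul v195 v2; ok v351 && (
  let v352 := mul v351 v17; ok v352 && (
  let v353 := mul v352 v16; ok v353 && (
  let v354 := cst ⟨9895604649984, 0, 0, 0⟩; ok v354 && (
  let v355 := cst ⟨21990232555520, 0, 0, 0⟩; ok v355 && (
  let v356 := inv v355; ok v356 && (
  let v357 := mul v354 v356; ok v357 && (
  let v358 := mul v339 v197; ok v358 && (
  let v359 := mul v358 x2; ok v359 && (
  let v360 := inv v17; ok v360 && (
  let v361 := mul v359 v360; ok v361 && (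
  let v362 := mul x0 v123; ok v362 && (
  let v363 := mul v362 v16; ok v363 && (
  let v364 := mul x2 v180; ok v364 && (
  let v365 := mul v364 v286; ok v365 && (
  let v366 := scale ⟨549755813888, 0, 0, 0⟩ v365; ok v366 && (
  let v367 := mul v363 v366; ok v367 && (
  let v368 := mul v347 x2; ok v368 && (
  let v369 := mul v368 v113; ok v369 && (
  let v370 := mul v369 v129; ok v370 && (
  let v371 := add v367 v370; ok v371 && (
  let v372 := mul v123 v284; ok v372 && (
  let v373 := mul v372 v219; ok v373 && (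
  let v374 := add v371 v373; ok v374 && (
  let v375 := mul v361 v374; ok v375 && (
  let v376 := mul v12 v41; ok v376 && (
  let v377 := scale ⟨4398046511104, 0, 0, 0⟩ v376; ok v377 && (
  let v378 := sub v377 v34; ok v378 && (
  let v379 := mul v5 v378; ok v379 && (
  let v380 := mul v379 v142; ok v380 && (
  let v381 := mul x0 v380; ok v381 && (
  let v382 := mul x1 v380; ok v382 && (
  let v383 := add v382 v183; ok v383 && (
  let v384 := inv v383; ok v384 && (
  let v385 := mul v381 v384; ok v385 && (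
  let v386 := mul x1 v385; ok v386 && (
  let v387 := scale ⟨549755813888, 0, 0, 0⟩ v386; ok v387 && (
  let v388 := sub v0 v387; ok v388 && (
  let v389 := mul v385 v388; ok v389 && (
  let v390 := neg v389; ok v390 && (
  let v391 := mul v140 v170; ok v391 && (
  let v392 := add v390 v391; ok v392 && (
  let v393 := mul v390 v391; ok v393 && (
  let v394 := mul x1 v393; ok v394 && (
  let v395 := add v392 v394; ok v395 && (
  let v396 := mul v45 v380; ok v396 && (
  let v397 := add v171 v0; ok v397 && (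
  let v398 := mul v391 v397; ok v398 && (
  let v399 := add v396 v398; ok v399 && (
  let v400 := mul v319 v399; ok v400 && (
  let v401 := mul x1 v400; ok v401 && (
  let v402 := scale ⟨687194767360, 0, 0, 0⟩ v401; ok v402 && (
  let v403 := add v0 v402; ok v403 && (
  let v404 := mul v400 v403; ok v404 && (
  let v405 := add v395 v404; ok v405 && (
  let v406 := mul v395 v404; ok v406 && (
  let v407 := mul x1 v406; ok v407 && (
  let v408 := add v405 v407; ok v408 && (
  let v409 := mul x2 x3; ok v409 && (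
  let v410 := mul v409 v172; ok v410 && (
  let v411 := mul v410 v8; ok v411 && (
  let v412 := add v408 v411; ok v412 && (
  let v413 := mul v408 v411; ok v413 && (
  let v414 := mul x1 v413; ok v414 && (
  let v415 := add v412 v414; ok v415 && (
  let v416 := mul v5 v34; ok v416 && (
  let v417 := mul x1 v416; ok v417 && (
  let v418 := scale ⟨412316860416, 0, 0, 0⟩ v417; ok v418 && (
  let v419 := sub v1 v418; ok v419 && (
  let v420 := mul v416 v419; ok v420 && (
  let v421 := neg v420; ok v421 && (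
  let v422 := add v415 v421; ok v422 && (
  let v423 := mul v415 v421; ok v423 && (
  let v424 := mul x1 v423; ok v424 && (
  let v425 := add v422 v424; ok v425 && (
  let v426 := mul x2 v311; ok v426 && (
  let v427 := mul v426 v360; ok v427 && (
  let v428 := add v425 v427; ok v428 && (
  let v429 := mul v425 v427; ok v429 && (
  let v430 := mul x1 v429; ok v430 && (
  let v431 := add v428 v430; ok v431 && (
  let v432 := mul v172 v17; ok v432 && (
  let v433 := mul v432 v357; ok v433 && (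
  let v434 := sub v431 v433; ok v434 && (
  let v435 := mul x1 v433; ok v435 && (
  let v436 := add v0 v435; ok v436 && (
  let v437 := inv v436; ok v437 && (
  let v438 := mul v434 v437; ok v438 && (
  let v439 := mul x2 v2; ok v439 && (
  let v440 := mul v439 v311; ok v440 && (
  let v441 := sub v44 v313; ok v441 && (
  let v442 := inv v441; ok v442 && (
  let v443 := mul v440 v442; ok v443 && (
  let v444 := add v438 v443; ok v444 && (
  let v445 := mul v438 v443; ok v445 && (
  let v446 := mul x1 v445; ok v446 && (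
  let v447 := add v444 v446; ok v447 && (
  let v448 := mul x1 v447; ok v448 && (
  let v449 := add v0 v448; ok v449 && (
  let v450 := mul v346 v203; ok v450 && (
  let v451 := mul x1 v353; ok v451 && (
  let v452 := mul v375 v451; ok v452 && (
  let v453 := add v450 v452; ok v453 && (
  let v454 := mul v453 v449; ok v454 && (
  let v455 := add v447 v454; ok v455 && (
  let v456 := add v455 v346; ok v456 && (
  let v457 := add v456 v375; ok v457 && (
  let v458 := neg v457; ok v458 && (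
  let v459 := cst ⟨1073741824, 0, 0, 0⟩; ok v459 && (
  let v460 := sub v458 v459; ok v460 && (
  let v461 := sub v13 v0; ok v461 && (
  let v462 := add v461 v183; ok v462 && (
  let v463 := scale ⟨2199023255552, 0, 0, 0⟩ v357; ok v463 && (
  let v464 := sub v462 v463; ok v464 && (
  let v465 := mul v172 v464; ok v465 && (
  let v466 := mul v461 v463; ok v466 && (
  let v467 := add v466 v0; ok v467 && (
  let v468 := inv v467; ok v468 && (
  let v469 := mul v465 v468; ok v469 && (
  let v470 := mul v195 v303; ok v470 && (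
  let v471 := scale ⟨549755813888, 0, 0, 0⟩ v200; ok v471 && (
  let v472 := add v10 v471; ok v472 && (
  let v473 := mul v470 v472; ok v473 && (
  let v474 := scale ⟨2199023255552, 0, 0, 0⟩ v473; ok v474 && (
  let v475 := add v297 v474; ok v475 && (
  let v476 := scale ⟨2199023255552, 0, 0, 0⟩ v475; ok v476 && (
  let v477 := mul v476 v310; ok v477 && (
  let v478 := mul v2 v311; ok v478 && (
  let v479 := sub v17 v478; ok v479 && (
  let v480 := inv v479; ok v480 && (
  let v481 := mul v477 v480; ok v481 && (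
  let v482 := sub v469 v481; ok v482 && (
  isPos 4 v204 && (
  isPos 4 v207 && (
  let v483 := scale ⟨2199023255552, 0, 0, 0⟩ v307; ok v483 && (
  let v484 := sub v44 v483; ok v484 && (
  isPos 4 v484 && (
  isPos 4 v317 && (
  isPos 4 v127 && (
  let v485 := sub v1 v171; ok v485 && (
  isPos 4 v485 && (
  let v486 := scale ⟨687194767360, 0, 0, 0⟩ v0; ok v486 && (
  let v487 := sub v486 v264; ok v487 && (
  isPos 4 v487 && (
  let v488 := scale ⟨377957122048, 0, 0, 0⟩ v0; ok v488 && (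
  let v489 := sub v488 v260; ok v489 && (
  isPos 4 v489 && (
  isPos 4 v479 && (
  let v490 := sub v1 v401; ok v490 && (
  isPos 4 v490 && (
  isPos 4 v320 && (
  isPos 4 v334 && (
  let v491 := sub v486 v326; ok v491 && (
  isPos 4 v491 && (
  isPos 4 v482 && (
  isPos 4 v460 && (
  true)))))))))))))))))))))))))))))))))))))))))))))))))))))))))))))))))))))))))))))))))))))))))))))))))))))))))))))))))))))))))))))))))))))))))))))))))))))))))))))))))))))))))))))))))))))))))))))))))))))))))))))))))))))))))))))))))))))))))))))))))))))))))))))))))))))))))))))))))))))))))))))))))))))))))))))))))))))))))))))))))))))))))))))))))))))))))))))))))))))))))))))))))))))))))))))))))))))))))))))))))))))))))))))))))))))))))))))))))))))))))))))))))))))))))))))))))))))))))))))))))))))))))))))))))))))))))))))))))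
  | _ => false

set_option maxRecDepth 1000000 in
theorem chk1_eq (O : Ops) (m : List O.α)
    (h : chk1 O.cst O.add O.sub O.mul O.scale O.neg O.inv O.exp O.log O.ok O.isPos O.isLt m = true) :
    runG O 4 prog1 m = true := by
  match m, h with
  | [x0, x1, x2, x3], h => exact h

def chkB1 : List opsE.α → Bool :=
  chk1 opsE.cst opsE.add opsE.sub opsE.mul opsE.scale opsE.neg opsE.inv opsE.exp opsE.log opsE.ok opsE.isPos opsE.isLt

theorem chkB1_eq (m : List opsE.α) (h : chkB1 m = true) : runG opsE 4 prog1 m = true :=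
  chk1_eq opsE m h

def prog2 : List Op := [
  .const ⟨1099511627776, 0, 0, 0⟩,
  .const ⟨549755813888, 0, 0, 0⟩,
  .mul 3 4,
  .mul 0 6,
  .scale ⟨549755813888, 0, 0, 0⟩ 0,
  .mul 7 7,
  .mul 1 1,
  .sub 6 0,
  .inv 0,
  .mul 4 0,
  .scale ⟨2199023255552, 0, 0, 0⟩ 0,
  .scale ⟨2199023255552, 0, 0, 0⟩ 2,
  .sub 0 11,
  .add 0 2,
  .mul 17 5,
  .mul 17 0,
  .sub 15 0,
  .add 16 1,
  .scale ⟨10774999203840, 0, 0, 0⟩ 13,
  .scale ⟨45768245248, 0, 0, 0⟩ 0,
  .const ⟨183207198720, 0, 0, 0⟩,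
  .add 1 0,
  .mul 3 0,
  .add 21 0,
  .mul 5 0,
  .add 24 0,
  .mul 7 0,
  .scale ⟨549755813888, 0, 0, 0⟩ 0,
  .add 27 0,
  .mul 3 0,
  .mul 31 24,
  .mul 20 15,
  .scale ⟨2199023255552, 0, 0, 0⟩ 19,
  .add 1 0,
  .add 0 35,
  .mul 4 0,
  .add 0 35,
  .mul 26 26,
  .scale ⟨2199023255552, 0, 0, 0⟩ 0,
  .add 0 38,
  .mul 27 5,
  .sub 0 40,
  .log 5,
  .scale ⟨549755813888, 0, 0, 0⟩ 0,
  .exp 0,
  .scale ⟨549755813888, 0, 0, 0⟩ 45,
  .mul 0 3,
  .neg 0,
  .exp 0,
  .mul 36 18,
  .mul 0 8,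
  .scale ⟨4398046511104, 0, 0, 0⟩ 0,
  .add 0 51,
  .log 0,
  .sub 0 11,
  .mul 9 0,
  .neg 0,
  .exp 0,
  .mul 42 47,
  .add 46 0,
  .inv 0,
  .mul 43 0,
  .mul 45 63,
  .mul 0 1,
  .mul 49 49,
  .sub 64 59,
  .mul 1 0,
  .mul 64 64,
  .add 55 37,
  .inv 0,
  .mul 0 70,
  .mul 0 0,
  .mul 4 6,
  .sub 72 8,
  .mul 1 0,
  .mul 3 0,
  .inv 76,
  .const ⟨45812285440, 0, 0, 0⟩,
  .scale ⟨1527119872, 0, 0, 0⟩ 2,
  .sub 1 0,
  .mul 4 0,
  .sub 79 0,
  .mul 6 0,
  .sub 82 0,
  .add 35 83,
  .mul 36 36,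
  .add 0 85,
  .mul 38 3,
  .scale ⟨2199023255552, 0, 0, 0⟩ 0,
  .add 2 0,
  .inv 5,
  .mul 1 0,
  .add 0 7,
  .mul 44 29,
  .scale ⟨549755813888, 0, 0, 0⟩ 0,
  .mul 0 2,
  .sub 6 0,
  .pos 7,
  .pos 0,
  .inv 0,
  .mul 52 63,
  .const ⟨6597069766656, 0, 0, 0⟩,
  .add 64 0,
  .mul 2 0,
  .scale ⟨4398046511104, 0, 0, 0⟩ 66,
  .add 0 3,
  .inv 0,
  .mul 3 0,
  .mul 75 0,
  .scale ⟨2199023255552, 0, 0, 0⟩ 0,
  .scale ⟨183274307584, 0, 0, 0⟩ 0,
  .sub 107 0,
  .mul 2 0,
  .sub 110 0,
  .mul 6 0,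
  .mul 0 15,
  .mul 83 0,
  .add 0 113,
  .inv 0,
  .mul 3 0,
  .mul 87 0,
  .mul 24 4,
  .add 0 118,
  .mul 0 28,
  .inv 32,
  .mul 1 0,
  .mul 60 5,
  .scale ⟨549755813888, 0, 0, 0⟩ 0,
  .sub 125 0,
  .sub 126 2,
  .inv 0,
  .mul 2 0,
  .add 5 129,
  .mul 82 0,
  .mul 115 114,
  .add 120 134,
  .mul 118 121,
  .mul 0 124,
  .scale ⟨2199023255552, 0, 0, 0⟩ 0,
  .add 97 0,
  .mul 4 0,
  .inv 0,
  .mul 7 0,
  .mul 142 0,
  .inv 105,
  .mul 67 0,
  .scale ⟨1527119872, 0, 0, 0⟩ 0,
  .sub 67 0,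
  .mul 2 0,
  .sub 145 0,
  .mul 4 0,
  .sub 148 0,
  .add 92 149,
  .mul 93 93,
  .add 0 151,
  .mul 95 3,
  .scale ⟨2199023255552, 0, 0, 0⟩ 0,
  .add 2 0,
  .inv 5,
  .mul 1 0,
  .add 0 7,
  .mul 101 17,
  .scale ⟨549755813888, 0, 0, 0⟩ 0,
  .mul 0 2,
  .sub 6 0,
  .pos 7,
  .pos 0,
  .sub 162 105,
  .mul 0 13,
  .inv 2,
  .mul 1 0,
  .scale ⟨549755813888, 0, 0, 0⟩ 0,
  .add 0 166,
  .inv 0,
  .mul 2 0,
  .mul 29 0,
  .add 167 171,
  .inv 0,
  .mul 169 0,
  .scale ⟨2199023255552, 0, 0, 0⟩ 0,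
  .sub 175 0,
  .sub 176 172,
  .mul 181 4,
  .mul 0 2,
  .add 162 0,
  .mul 181 170,
  .scale ⟨274877906944, 0, 0, 0⟩ 182,
  .const ⟨2199023255552, 0, 0, 0⟩,
  .add 1 0,
  .mul 0 0,
  .mul 4 4,
  .const ⟨7696581394432, 0, 0, 0⟩,
  .const ⟨10995116277760, 0, 0, 0⟩,
  .inv 0,
  .mul 2 0,
  .mul 4 0,
  .add 6 0,
  .mul 7 8,
  .inv 1,
  .mul 1 0,
  .inv 2,
  .mul 4 0,
  .scale ⟨224412041216, 0, 0, 0⟩ 189,
  .inv 169,
  .mul 1 0,
  .mul 5 183,
  .mul 0 1,
  .mul 200 0,
  .sub 203 0,
  .inv 0,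
  .mul 74 2,
  .sub 206 0,
  .inv 0,
  .mul 210 91,
  .scale ⟨1649267441664, 0, 0, 0⟩ 0,
  .const ⟨733365665792, 0, 0, 0⟩,
  .add 1 0,
  .scale ⟨549755813888, 0, 0, 0⟩ 0,
  .scale ⟨2199023255552, 0, 0, 0⟩ 137,
  .add 0 214,
  .add 139 215,
  .mul 212 202,
  .sub 217 151,
  .mul 214 203,
  .scale ⟨2199023255552, 0, 0, 0⟩ 0,
  .sub 2 0,
  .mul 4 4,
  .add 1 0,
  .add 0 223,
  .scale ⟨549755813888, 0, 0, 0⟩ 0,
  .scale ⟨549755813888, 0, 0, 0⟩ 195,
  .sub 218 0,
  .mul 160 9,
  .mul 0 221,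
  .scale ⟨137438953472, 0, 0, 0⟩ 0,
  .add 3 0,
  .mul 6 0,
  .mul 216 171,
  .mul 0 231,
  .mul 0 117,
  .mul 0 106,
  .mul 234 0,
  .add 106 237,
  .mul 0 33,
  .mul 108 31,
  .add 1 0,
  .mul 38 0,
  .add 5 0,
  .mul 0 167,
  .mul 6 41,
  .mul 0 40,
  .add 9 0,
  .mul 0 171,
  .scale ⟨223338299392, 0, 0, 0⟩ 0,
  .add 248 0,
  .mul 2 0,
  .add 251 0,
  .scale ⟨893353197568, 0, 0, 0⟩ 8,
  .add 253 0,
  .mul 10 0,
  .add 255 0,
  .mul 81 78,
  .mul 0 42,
  .mul 0 2,
  .mul 27 7,
  .add 216 259,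
  .mul 2 0,
  .add 2 0,
  .add 219 263,
  .mul 5 0,
  .mul 49 1,
  .mul 0 88,
  .mul 0 90,
  .mul 266 88,
  .inv 225,
  .mul 1 0,
  .scale ⟨549755813888, 0, 0, 0⟩ 0,
  .mul 211 270,
  .mul 0 156,
  .mul 0 145,
  .mul 259 3,
  .mul 13 1,
  .mul 9 64,
  .add 1 0,
  .mul 0 203,
  .add 4 0,
  .mul 18 43,
  .mul 0 77,
  .mul 18 152,
  .mul 0 76,
  .add 2 0,
  .mul 0 210,
  .mul 271 6,
  .mul 86 1,
  .add 1 0,
  .mul 223 0,
  .mul 0 21,
  .sub 292 0,
  .inv 0,
  .mul 4 0,
  .mul 297 0,
  .mul 229 1,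
  .mul 0 27,
  .sub 298 0,
  .mul 258 0,
  .sub 0 4,
  .inv 0,
  .mul 6 0,
  .sub 303 7,
  .inv 0,
  .mul 242 188,
  .mul 0 177,
  .add 202 0,
  .mul 0 3,
  .mul 0 12,
  .scale ⟨223338299392, 0, 0, 0⟩ 0,
  .add 310 0,
  .mul 2 0,
  .add 313 0,
  .mul 4 0,
  .mul 0 192,
  .mul 0 185,
  .sub 317 0,
  .mul 9 4,
  .mul 0 25,
  .mul 0 244,
  .inv 3,
  .mul 1 0,
  .mul 0 326,
  .mul 61 119,
  .mul 60 202,
  .mul 0 195,
  .mul 0 119,
  .add 3 0,
  .mul 5 0,
  .mul 67 269,
  .mul 329 218,
  .mul 1 0,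
  .mul 0 204,
  .mul 139 332,
  .mul 0 318,
  .mul 0 320,
  .const ⟨9895604649984, 0, 0, 0⟩,
  .const ⟨21990232555520, 0, 0, 0⟩,
  .inv 0,
  .mul 2 0,
  .inv 343,
  .mul 129 0,
  .mul 20 146,
  .mul 0 347,
  .inv 328,
  .mul 1 0,
  .mul 348 224,
  .mul 0 332,
  .mul 352 169,
  .mul 0 80,
  .scale ⟨549755813888, 0, 0, 0⟩ 0,
  .mul 3 0,
  .mul 22 356,
  .mul 0 241,
  .mul 0 226,
  .add 3 0,
  .mul 234 89,
  .mul 0 15,
  .add 2 0,
  .mul 13 0,
  .mul 349 320,
  .scale ⟨4398046511104, 0, 0, 0⟩ 0,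
  .sub 0 329,
  .mul 359 0,
  .mul 0 223,
  .mul 367 0,
  .mul 369 1,
  .add 0 185,
  .inv 0,
  .mul 3 0,
  .mul 373 0,
  .scale ⟨549755813888, 0, 0, 0⟩ 0,
  .sub 373 0,
  .mul 3 0,
  .neg 0,
  .mul 236 206,
  .add 1 0,
  .mul 2 1,
  .mul 381 0,
  .add 2 0,
  .mul 336 15,
  .add 211 382,
  .mul 6 0,
  .add 2 0,
  .mul 82 0,
  .mul 388 0,
  .scale ⟨687194767360, 0, 0, 0⟩ 0,
  .add 388 0,
  .mul 3 0,
  .add 9 0,
  .mul 10 1,
  .mul 394 0,
  .add 2 0,
  .mul 397 398,
  .mul 0 223,
  .mul 0 388,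
  .add 3 0,
  .mul 4 1,
  .mul 401 0,
  .add 2 0,
  .mul 396 367,
  .mul 404 0,
  .scale ⟨412316860416, 0, 0, 0⟩ 0,
  .sub 403 0,
  .mul 3 0,
  .neg 0,
  .add 6 0,
  .mul 7 1,
  .mul 411 0,
  .add 2 0,
  .mul 414 116,
  .mul 0 66,
  .add 2 0,
  .mul 3 1,
  .mul 417 0,
  .add 2 0,
  .mul 245 400,
  .mul 0 77,
  .sub 2 0,
  .mul 422 1,
  .add 421 0,
  .inv 0,
  .mul 3 0,
  .mul 427 422,
  .mul 0 130,
  .sub 382 129,
  .inv 0,
  .mul 2 0,
  .add 5 0,
  .mul 6 1,
  .mul 433 0,
  .add 2 0,
  .mul 435 0,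
  .add 434 0,
  .mul 105 232,
  .mul 438 99,
  .mul 76 0,
  .add 2 0,
  .mul 0 4,
  .add 7 0,
  .add 0 111,
  .add 0 81,
  .neg 0,
  .const ⟨1073741824, 0, 0, 0⟩,
  .sub 1 0,
  .sub 433 446,
  .add 0 264,
  .scale ⟨2199023255552, 0, 0, 0⟩ 107,
  .sub 1 0,
  .mul 278 0,
  .mul 4 2,
  .add 0 452,
  .inv 0,
  .mul 3 0,
  .mul 260 168,
  .scale ⟨549755813888, 0, 0, 0⟩ 256,
  .add 447 0,
  .mul 2 0,
  .scale ⟨2199023255552, 0, 0, 0⟩ 0,
  .add 179 0,
  .scale ⟨2199023255552, 0, 0, 0⟩ 0,
  .mul 0 168,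
  .mul 461 168,
  .sub 447 0,
  .inv 0,
  .mul 3 0,
  .sub 12 0,
  .pos 264,
  .pos 261,
  .scale ⟨2199023255552, 0, 0, 0⟩ 177,
  .sub 425 0,
  .pos 0,
  .pos 169,
  .pos 343,
  .sub 469 299,
  .pos 0,
  .scale ⟨687194767360, 0, 0, 0⟩ 471,
  .sub 0 224,
  .pos 0,
  .scale ⟨377957122048, 0, 0, 0⟩ 473,
  .sub 0 230,
  .pos 0,
  .pos 10,
  .sub 474 88,
  .pos 0,
  .pos 172,
  .pos 158,
  .sub 4 166,
  .pos 0,
  .pos 9,
  .pos 31]

def chk2 {α : Type} (cst : Z → α) (add sub mul : α → α → α) (scale : Z → α → α)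
    (neg inv exp log : α → α) (ok : α → Bool) (isPos : Nat → α → Bool) (isLt : α → Nat → Bool) :
    List α → Bool
  | [x0, x1, x2, x3] =>
  let v0 := cst ⟨1099511627776, 0, 0, 0⟩; ok v0 && (
  let v1 := cst ⟨549755813888, 0, 0, 0⟩; ok v1 && (
  let v2 := mul x1 x2; ok v2 && (
  let v3 := mul v2 x3; ok v3 && (
  let v4 := scale ⟨549755813888, 0, 0, 0⟩ v3; ok v4 && (
  let v5 := mul x2 x2; ok v5 && (
  let v6 := mul v4 v4; ok v6 && (
  let v7 := sub v0 v6; ok v7 && (
  let v8 := inv v7; ok v8 && (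
  let v9 := mul v4 v8; ok v9 && (
  let v10 := scale ⟨2199023255552, 0, 0, 0⟩ v9; ok v10 && (
  let v11 := scale ⟨2199023255552, 0, 0, 0⟩ v8; ok v11 && (
  let v12 := sub v11 v0; ok v12 && (
  let v13 := add v12 v10; ok v13 && (
  let v14 := mul x3 v8; ok v14 && (
  let v15 := mul x2 v14; ok v15 && (
  let v16 := sub v0 v15; ok v16 && (
  let v17 := add v0 v15; ok v17 && (
  let v18 := scale ⟨10774999203840, 0, 0, 0⟩ v4; ok v18 && (
  let v19 := scale ⟨45768245248, 0, 0, 0⟩ v18; ok v19 && (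
  let v20 := cst ⟨183207198720, 0, 0, 0⟩; ok v20 && (
  let v21 := add v19 v20; ok v21 && (
  let v22 := mul v18 v21; ok v22 && (
  let v23 := add v1 v22; ok v23 && (
  let v24 := mul v18 v23; ok v24 && (
  let v25 := add v0 v24; ok v25 && (
  let v26 := mul v18 v25; ok v26 && (
  let v27 := scale ⟨549755813888, 0, 0, 0⟩ v26; ok v27 && (
  let v28 := add v0 v27; ok v28 && (
  let v29 := mul v25 v28; ok v29 && (
  let v30 := mul x1 v5; ok v30 && (
  let v31 := mul v10 v15; ok v31 && (
  let v32 := scale ⟨2199023255552, 0, 0, 0⟩ v12; ok v32 && (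
  let v33 := add v31 v32; ok v33 && (
  let v34 := add v33 x1; ok v34 && (
  let v35 := mul v30 v34; ok v35 && (
  let v36 := add v35 v0; ok v36 && (
  let v37 := mul v10 v10; ok v37 && (
  let v38 := scale ⟨2199023255552, 0, 0, 0⟩ v37; ok v38 && (
  let v39 := add v38 v0; ok v39 && (
  let v40 := mul v12 v34; ok v40 && (
  let v41 := sub v40 v0; ok v41 && (
  let v42 := log v36; ok v42 && (
  let v43 := scale ⟨549755813888, 0, 0, 0⟩ v42; ok v43 && (
  let v44 := exp v43; ok v44 && (
  let v45 := scale ⟨549755813888, 0, 0, 0⟩ x0; ok v45 && (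
  let v46 := mul v45 v42; ok v46 && (
  let v47 := neg v46; ok v47 && (
  let v48 := exp v47; ok v48 && (
  let v49 := mul v12 v30; ok v49 && (
  let v50 := mul v49 v41; ok v50 && (
  let v51 := scale ⟨4398046511104, 0, 0, 0⟩ v50; ok v51 && (
  let v52 := add v51 v0; ok v52 && (
  let v53 := log v52; ok v53 && (
  let v54 := sub v53 v42; ok v54 && (
  let v55 := mul v45 v54; ok v55 && (
  let v56 := neg v55; ok v56 && (
  let v57 := exp v56; ok v57 && (
  let v58 := mul v15 v10; ok v58 && (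
  let v59 := add v12 v58; ok v59 && (
  let v60 := inv v59; ok v60 && (
  let v61 := mul v17 v60; ok v61 && (
  let v62 := mul v16 x1; ok v62 && (
  let v63 := mul v62 v61; ok v63 && (
  let v64 := mul v14 v14; ok v64 && (
  let v65 := sub v0 v5; ok v65 && (
  let v66 := mul v64 v65; ok v66 && (
  let v67 := mul v2 v2; ok v67 && (
  let v68 := add v12 v30; ok v68 && (
  let v69 := inv v68; ok v69 && (
  let v70 := mul v69 x0; ok v70 && (
  let v71 := mul v70 v70; ok v71 && (
  let v72 := mul v67 v65; ok v72 && (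
  let v73 := sub v0 v64; ok v73 && (
  let v74 := mul v72 v73; ok v74 && (
  let v75 := mul v71 v74; ok v75 && (
  let v76 := inv x0; ok v76 && (
  let v77 := cst ⟨45812285440, 0, 0, 0⟩; ok v77 && (
  let v78 := scale ⟨1527119872, 0, 0, 0⟩ v75; ok v78 && (
  let v79 := sub v77 v78; ok v79 && (
  let v80 := mul v75 v79; ok v80 && (
  let v81 := sub v1 v80; ok v81 && (
  let v82 := mul v75 v81; ok v82 && (
  let v83 := sub v0 v82; ok v83 && (
  let v84 := add v48 v0; ok v84 && (
  let v85 := mul v48 v48; ok v85 && (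
  let v86 := add v85 v0; ok v86 && (
  let v87 := mul v48 v83; ok v87 && (
  let v88 := scale ⟨2199023255552, 0, 0, 0⟩ v87; ok v88 && (
  let v89 := add v86 v88; ok v89 && (
  let v90 := inv v84; ok v90 && (
  let v91 := mul v89 v90; ok v91 && (
  let v92 := add v91 v84; ok v92 && (
  let v93 := mul v48 v63; ok v93 && (
  let v94 := scale ⟨549755813888, 0, 0, 0⟩ v93; ok v94 && (
  let v95 := mul v94 v92; ok v95 && (
  let v96 := sub v89 v95; ok v96 && (
  isPos 4 v89 && (
  isPos 4 v96 && (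
  let v97 := inv v96; ok v97 && (
  let v98 := mul v45 v34; ok v98 && (
  let v99 := cst ⟨6597069766656, 0, 0, 0⟩; ok v99 && (
  let v100 := add v35 v99; ok v100 && (
  let v101 := mul v98 v100; ok v101 && (
  let v102 := scale ⟨4398046511104, 0, 0, 0⟩ v35; ok v102 && (
  let v103 := add v102 v99; ok v103 && (
  let v104 := inv v103; ok v104 && (
  let v105 := mul v101 v104; ok v105 && (
  let v106 := mul v30 v105; ok v106 && (
  let v107 := scale ⟨2199023255552, 0, 0, 0⟩ v106; ok v107 && (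
  let v108 := scale ⟨183274307584, 0, 0, 0⟩ v107; ok v108 && (
  let v109 := sub v1 v108; ok v109 && (
  let v110 := mul v107 v109; ok v110 && (
  let v111 := sub v0 v110; ok v111 && (
  let v112 := mul v105 v111; ok v112 && (
  let v113 := mul v112 v97; ok v113 && (
  let v114 := mul v30 v113; ok v114 && (
  let v115 := add v114 v1; ok v115 && (
  let v116 := inv v115; ok v116 && (
  let v117 := mul v113 v116; ok v117 && (
  let v118 := mul v30 v117; ok v118 && (
  let v119 := mul v94 v114; ok v119 && (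
  let v120 := add v119 v1; ok v120 && (
  let v121 := mul v120 v92; ok v121 && (
  let v122 := inv v89; ok v122 && (
  let v123 := mul v121 v122; ok v123 && (
  let v124 := mul v63 v118; ok v124 && (
  let v125 := scale ⟨549755813888, 0, 0, 0⟩ v124; ok v125 && (
  let v126 := sub v0 v125; ok v126 && (
  let v127 := sub v0 v124; ok v127 && (
  let v128 := inv v127; ok v128 && (
  let v129 := mul v126 v128; ok v129 && (
  let v130 := add v124 v0; ok v130 && (
  let v131 := mul v48 v130; ok v131 && (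
  let v132 := mul v16 v17; ok v132 && (
  let v133 := add v12 x1; ok v133 && (
  let v134 := mul v15 v12; ok v134 && (
  let v135 := mul v134 v10; ok v135 && (
  let v136 := scale ⟨2199023255552, 0, 0, 0⟩ v135; ok v136 && (
  let v137 := add v39 v136; ok v137 && (
  let v138 := mul v133 v137; ok v138 && (
  let v139 := inv v138; ok v139 && (
  let v140 := mul v132 v139; ok v140 && (
  let v141 := mul x1 v140; ok v141 && (
  let v142 := inv v36; ok v142 && (
  let v143 := mul v75 v142; ok v143 && (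
  let v144 := scale ⟨1527119872, 0, 0, 0⟩ v143; ok v144 && (
  let v145 := sub v77 v144; ok v145 && (
  let v146 := mul v143 v145; ok v146 && (
  let v147 := sub v1 v146; ok v147 && (
  let v148 := mul v143 v147; ok v148 && (
  let v149 := sub v0 v148; ok v149 && (
  let v150 := add v57 v0; ok v150 && (
  let v151 := mul v57 v57; ok v151 && (
  let v152 := add v151 v0; ok v152 && (
  let v153 := mul v57 v149; ok v153 && (
  let v154 := scale ⟨2199023255552, 0, 0, 0⟩ v153; ok v154 && (
  let v155 := add v152 v154; ok v155 && (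
  let v156 := inv v150; ok v156 && (
  let v157 := mul v155 v156; ok v157 && (
  let v158 := add v157 v150; ok v158 && (
  let v159 := mul v57 v141; ok v159 && (
  let v160 := scale ⟨549755813888, 0, 0, 0⟩ v159; ok v160 && (
  let v161 := mul v160 v158; ok v161 && (
  let v162 := sub v155 v161; ok v162 && (
  isPos 4 v155 && (
  isPos 4 v162 && (
  let v163 := sub v0 v57; ok v163 && (
  let v164 := mul v163 v150; ok v164 && (
  let v165 := inv v162; ok v165 && (
  let v166 := mul v164 v165; ok v166 && (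
  let v167 := scale ⟨549755813888, 0, 0, 0⟩ v166; ok v167 && (
  let v168 := add v167 v1; ok v168 && (
  let v169 := inv v168; ok v169 && (
  let v170 := mul v167 v169; ok v170 && (
  let v171 := mul v141 v170; ok v171 && (
  let v172 := add v4 v0; ok v172 && (
  let v173 := inv v172; ok v173 && (
  let v174 := mul v4 v173; ok v174 && (
  let v175 := scale ⟨2199023255552, 0, 0, 0⟩ v174; ok v175 && (
  let v176 := sub v0 v175; ok v176 && (
  let v177 := sub v0 v4; ok v177 && (
  let v178 := mul x3 v173; ok v178 && (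
  let v179 := mul v178 v176; ok v179 && (
  let v180 := add v17 v179; ok v180 && (
  let v181 := mul x0 v10; ok v181 && (
  let v182 := scale ⟨274877906944, 0, 0, 0⟩ x0; ok v182 && (
  let v183 := cst ⟨2199023255552, 0, 0, 0⟩; ok v183 && (
  let v184 := add v182 v183; ok v184 && (
  let v185 := mul v184 v184; ok v185 && (
  let v186 := mul v181 v181; ok v186 && (
  let v187 := cst ⟨7696581394432, 0, 0, 0⟩; ok v187 && (
  let v188 := cst ⟨10995116277760, 0, 0, 0⟩; ok v188 && (
  let v189 := inv v188; ok v189 && (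
  let v190 := mul v187 v189; ok v190 && (
  let v191 := mul v186 v190; ok v191 && (
  let v192 := add v185 v191; ok v192 && (
  let v193 := mul v185 v184; ok v193 && (
  let v194 := inv v192; ok v194 && (
  let v195 := mul v193 v194; ok v195 && (
  let v196 := inv v193; ok v196 && (
  let v197 := mul v192 v196; ok v197 && (
  let v198 := scale ⟨224412041216, 0, 0, 0⟩ v8; ok v198 && (
  let v199 := inv v29; ok v199 && (
  let v200 := mul v198 v199; ok v200 && (
  let v201 := mul v195 v17; ok v201 && (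
  let v202 := mul v201 v200; ok v202 && (
  let v203 := mul v2 v202; ok v203 && (
  let v204 := sub v0 v203; ok v204 && (
  let v205 := inv v204; ok v205 && (
  let v206 := mul v131 v203; ok v206 && (
  let v207 := sub v0 v206; ok v207 && (
  let v208 := inv v207; ok v208 && (
  let v209 := mul x1 v117; ok v209 && (
  let v210 := scale ⟨1649267441664, 0, 0, 0⟩ v209; ok v210 && (
  let v211 := cst ⟨733365665792, 0, 0, 0⟩; ok v211 && (
  let v212 := add v210 v211; ok v212 && (
  let v213 := scale ⟨549755813888, 0, 0, 0⟩ v212; ok v213 && (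
  let v214 := scale ⟨2199023255552, 0, 0, 0⟩ v76; ok v214 && (
  let v215 := add v214 v0; ok v215 && (
  let v216 := add v76 v0; ok v216 && (
  let v217 := mul v4 v14; ok v217 && (
  let v218 := sub v0 v66; ok v218 && (
  let v219 := mul v4 v15; ok v219 && (
  let v220 := scale ⟨2199023255552, 0, 0, 0⟩ v219; ok v220 && (
  let v221 := sub v218 v220; ok v221 && (
  let v222 := mul v217 v217; ok v222 && (
  let v223 := add v221 v222; ok v223 && (
  let v224 := add v223 v0; ok v224 && (
  let v225 := scale ⟨549755813888, 0, 0, 0⟩ v224; ok v225 && (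
  let v226 := scale ⟨549755813888, 0, 0, 0⟩ v30; ok v226 && (
  let v227 := sub v8 v226; ok v227 && (
  let v228 := mul v67 v218; ok v228 && (
  let v229 := mul v228 v7; ok v229 && (
  let v230 := scale ⟨137438953472, 0, 0, 0⟩ v229; ok v230 && (
  let v231 := add v227 v230; ok v231 && (
  let v232 := mul v225 v231; ok v232 && (
  let v233 := mul v16 v61; ok v233 && (
  let v234 := mul v233 v2; ok v234 && (
  let v235 := mul v234 v117; ok v235 && (
  let v236 := mul v235 v129; ok v236 && (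
  let v237 := mul v2 v236; ok v237 && (
  let v238 := add v131 v0; ok v238 && (
  let v239 := mul v238 v205; ok v239 && (
  let v240 := mul v131 v208; ok v240 && (
  let v241 := add v239 v240; ok v241 && (
  let v242 := mul v203 v241; ok v242 && (
  let v243 := add v237 v242; ok v243 && (
  let v244 := mul v243 v76; ok v244 && (
  let v245 := mul v238 v203; ok v245 && (
  let v246 := mul v245 v205; ok v246 && (
  let v247 := add v237 v246; ok v247 && (
  let v248 := mul v247 v76; ok v248 && (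
  let v249 := scale ⟨223338299392, 0, 0, 0⟩ v248; ok v249 && (
  let v250 := add v1 v249; ok v250 && (
  let v251 := mul v248 v250; ok v251 && (
  let v252 := add v0 v251; ok v252 && (
  let v253 := scale ⟨893353197568, 0, 0, 0⟩ v244; ok v253 && (
  let v254 := add v0 v253; ok v254 && (
  let v255 := mul v244 v254; ok v255 && (
  let v256 := add v0 v255; ok v256 && (
  let v257 := mul v175 v178; ok v257 && (
  let v258 := mul v257 v215; ok v258 && (
  let v259 := mul v258 v256; ok v259 && (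
  let v260 := mul v232 v252; ok v260 && (
  let v261 := add v44 v1; ok v261 && (
  let v262 := mul v259 v261; ok v262 && (
  let v263 := add v260 v262; ok v263 && (
  let v264 := add v44 v0; ok v264 && (
  let v265 := mul v259 v264; ok v265 && (
  let v266 := mul v216 v264; ok v266 && (
  let v267 := mul v266 v178; ok v267 && (
  let v268 := mul v267 v177; ok v268 && (
  let v269 := mul v2 v180; ok v269 && (
  let v270 := inv v44; ok v270 && (
  let v271 := mul v269 v270; ok v271 && (
  let v272 := scale ⟨549755813888, 0, 0, 0⟩ v271; ok v272 && (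
  let v273 := mul v61 v2; ok v273 && (
  let v274 := mul v273 v117; ok v274 && (
  let v275 := mul v274 v129; ok v275 && (
  let v276 := mul v16 v272; ok v276 && (
  let v277 := mul v263 v275; ok v277 && (
  let v278 := mul v268 v213; ok v278 && (
  let v279 := add v277 v278; ok v279 && (
  let v280 := mul v279 v76; ok v280 && (
  let v281 := add v276 v280; ok v281 && (
  let v282 := mul v263 v238; ok v282 && (
  let v283 := mul v282 v205; ok v283 && (
  let v284 := mul v265 v131; ok v284 && (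
  let v285 := mul v284 v208; ok v285 && (
  let v286 := add v283 v285; ok v286 && (
  let v287 := mul v286 v76; ok v287 && (
  let v288 := mul v16 v281; ok v288 && (
  let v289 := mul v202 v287; ok v289 && (
  let v290 := add v288 v289; ok v290 && (
  let v291 := mul v67 v290; ok v291 && (
  let v292 := mul v291 v270; ok v292 && (
  let v293 := sub v0 v292; ok v293 && (
  let v294 := inv v293; ok v294 && (
  let v295 := mul v290 v294; ok v295 && (
  let v296 := mul x1 v295; ok v296 && (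
  let v297 := mul v67 v295; ok v297 && (
  let v298 := mul v297 v270; ok v298 && (
  let v299 := sub v0 v298; ok v299 && (
  let v300 := mul v41 v299; ok v300 && (
  let v301 := sub v300 v296; ok v301 && (
  let v302 := inv v301; ok v302 && (
  let v303 := mul v296 v302; ok v303 && (
  let v304 := sub v0 v296; ok v304 && (
  let v305 := inv v304; ok v305 && (
  let v306 := mul v63 v117; ok v306 && (
  let v307 := mul v306 v129; ok v307 && (
  let v308 := add v105 v307; ok v308 && (
  let v309 := mul v308 v305; ok v309 && (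
  let v310 := mul v309 v297; ok v310 && (
  let v311 := scale ⟨223338299392, 0, 0, 0⟩ v310; ok v311 && (
  let v312 := add v1 v311; ok v312 && (
  let v313 := mul v310 v312; ok v313 && (
  let v314 := add v0 v313; ok v314 && (
  let v315 := mul v310 v314; ok v315 && (
  let v316 := mul v315 v123; ok v316 && (
  let v317 := mul v316 v131; ok v317 && (
  let v318 := sub v0 v317; ok v318 && (
  let v319 := mul v309 v314; ok v319 && (
  let v320 := mul v319 v294; ok v320 && (
  let v321 := mul v320 v76; ok v321 && (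
  let v322 := inv v318; ok v322 && (
  let v323 := mul v321 v322; ok v323 && (
  let v324 := mul v323 x2; ok v324 && (
  let v325 := mul v263 v205; ok v325 && (
  let v326 := mul v265 v123; ok v326 && (
  let v327 := mul v326 v131; ok v327 && (
  let v328 := mul v327 v208; ok v328 && (
  let v329 := add v325 v328; ok v329 && (
  let v330 := mul v324 v329; ok v330 && (
  let v331 := mul v263 v61; ok v331 && (
  let v332 := mul v2 v113; ok v332 && (
  let v333 := mul v331 v332; ok v333 && (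
  let v334 := mul v333 v129; ok v334 && (
  let v335 := mul v195 v2; ok v335 && (
  let v336 := mul v335 v17; ok v336 && (
  let v337 := mul v336 v16; ok v337 && (
  let v338 := cst ⟨9895604649984, 0, 0, 0⟩; ok v338 && (
  let v339 := cst ⟨21990232555520, 0, 0, 0⟩; ok v339 && (
  let v340 := inv v339; ok v340 && (
  let v341 := mul v338 v340; ok v341 && (
  let v342 := inv x1; ok v342 && (
  let v343 := mul v213 v342; ok v343 && (
  let v344 := mul v323 v197; ok v344 && (
  let v345 := mul v344 x2; ok v345 && (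
  let v346 := inv v17; ok v346 && (
  let v347 := mul v345 v346; ok v347 && (
  let v348 := mul x0 v123; ok v348 && (
  let v349 := mul v348 v16; ok v349 && (
  let v350 := mul x2 v180; ok v350 && (
  let v351 := mul v350 v270; ok v351 && (
  let v352 := scale ⟨549755813888, 0, 0, 0⟩ v351; ok v352 && (
  let v353 := mul v349 v352; ok v353 && (
  let v354 := mul v331 x2; ok v354 && (
  let v355 := mul v354 v113; ok v355 && (
  let v356 := mul v355 v129; ok v356 && (
  let v357 := add v353 v356; ok v357 && (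
  let v358 := mul v123 v268; ok v358 && (
  let v359 := mul v358 v343; ok v359 && (
  let v360 := add v357 v359; ok v360 && (
  let v361 := mul v347 v360; ok v361 && (
  let v362 := mul v12 v41; ok v362 && (
  let v363 := scale ⟨4398046511104, 0, 0, 0⟩ v362; ok v363 && (
  let v364 := sub v363 v34; ok v364 && (
  let v365 := mul v5 v364; ok v365 && (
  let v366 := mul v365 v142; ok v366 && (
  let v367 := mul x0 v366; ok v367 && (
  let v368 := mul x1 v366; ok v368 && (
  let v369 := add v368 v183; ok v369 && (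
  let v370 := inv v369; ok v370 && (
  let v371 := mul v367 v370; ok v371 && (
  let v372 := mul x1 v371; ok v372 && (
  let v373 := scale ⟨549755813888, 0, 0, 0⟩ v372; ok v373 && (
  let v374 := sub v0 v373; ok v374 && (
  let v375 := mul v371 v374; ok v375 && (
  let v376 := neg v375; ok v376 && (
  let v377 := mul v140 v170; ok v377 && (
  let v378 := add v376 v377; ok v378 && (
  let v379 := mul v376 v377; ok v379 && (
  let v380 := mul x1 v379; ok v380 && (
  let v381 := add v378 v380; ok v381 && (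
  let v382 := mul v45 v366; ok v382 && (
  let v383 := add v171 v0; ok v383 && (
  let v384 := mul v377 v383; ok v384 && (
  let v385 := add v382 v384; ok v385 && (
  let v386 := mul v303 v385; ok v386 && (
  let v387 := mul x1 v386; ok v387 && (
  let v388 := scale ⟨687194767360, 0, 0, 0⟩ v387; ok v388 && (
  let v389 := add v0 v388; ok v389 && (
  let v390 := mul v386 v389; ok v390 && (
  let v391 := add v381 v390; ok v391 && (
  let v392 := mul v381 v390; ok v392 && (
  let v393 := mul x1 v392; ok v393 && (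
  let v394 := add v391 v393; ok v394 && (
  let v395 := mul x2 x3; ok v395 && (
  let v396 := mul v395 v172; ok v396 && (
  let v397 := mul v396 v8; ok v397 && (
  let v398 := add v394 v397; ok v398 && (
  let v399 := mul v394 v397; ok v399 && (
  let v400 := mul x1 v399; ok v400 && (
  let v401 := add v398 v400; ok v401 && (
  let v402 := mul v5 v34; ok v402 && (
  let v403 := mul x1 v402; ok v403 && (
  let v404 := scale ⟨412316860416, 0, 0, 0⟩ v403; ok v404 && (
  let v405 := sub v1 v404; ok v405 && (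
  let v406 := mul v402 v405; ok v406 && (
  let v407 := neg v406; ok v407 && (
  let v408 := add v401 v407; ok v408 && (
  let v409 := mul v401 v407; ok v409 && (
  let v410 := mul x1 v409; ok v410 && (
  let v411 := add v408 v410; ok v411 && (
  let v412 := mul x2 v295; ok v412 && (
  let v413 := mul v412 v346; ok v413 && (
  let v414 := add v411 v413; ok v414 && (
  let v415 := mul v411 v413; ok v415 && (
  let v416 := mul x1 v415; ok v416 && (
  let v417 := add v414 v416; ok v417 && (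
  let v418 := mul v172 v17; ok v418 && (
  let v419 := mul v418 v341; ok v419 && (
  let v420 := sub v417 v419; ok v420 && (
  let v421 := mul x1 v419; ok v421 && (
  let v422 := add v0 v421; ok v422 && (
  let v423 := inv v422; ok v423 && (
  let v424 := mul v420 v423; ok v424 && (
  let v425 := mul x2 v2; ok v425 && (
  let v426 := mul v425 v295; ok v426 && (
  let v427 := sub v44 v297; ok v427 && (
  let v428 := inv v427; ok v428 && (
  let v429 := mul v426 v428; ok v429 && (
  let v430 := add v424 v429; ok v430 && (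
  let v431 := mul v424 v429; ok v431 && (
  let v432 := mul x1 v431; ok v432 && (
  let v433 := add v430 v432; ok v433 && (
  let v434 := mul x1 v433; ok v434 && (
  let v435 := add v0 v434; ok v435 && (
  let v436 := mul v330 v203; ok v436 && (
  let v437 := mul x1 v337; ok v437 && (
  let v438 := mul v361 v437; ok v438 && (
  let v439 := add v436 v438; ok v439 && (
  let v440 := mul v439 v435; ok v440 && (
  let v441 := add v433 v440; ok v441 && (
  let v442 := add v441 v330; ok v442 && (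
  let v443 := add v442 v361; ok v443 && (
  let v444 := neg v443; ok v444 && (
  let v445 := cst ⟨1073741824, 0, 0, 0⟩; ok v445 && (
  let v446 := sub v444 v445; ok v446 && (
  let v447 := sub v13 v0; ok v447 && (
  let v448 := add v447 v183; ok v448 && (
  let v449 := scale ⟨2199023255552, 0, 0, 0⟩ v341; ok v449 && (
  let v450 := sub v448 v449; ok v450 && (
  let v451 := mul v172 v450; ok v451 && (
  let v452 := mul v447 v449; ok v452 && (
  let v453 := add v452 v0; ok v453 && (
  let v454 := inv v453; ok v454 && (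
  let v455 := mul v451 v454; ok v455 && (
  let v456 := mul v195 v287; ok v456 && (
  let v457 := scale ⟨549755813888, 0, 0, 0⟩ v200; ok v457 && (
  let v458 := add v10 v457; ok v458 && (
  let v459 := mul v456 v458; ok v459 && (
  let v460 := scale ⟨2199023255552, 0, 0, 0⟩ v459; ok v460 && (
  let v461 := add v281 v460; ok v461 && (
  let v462 := scale ⟨2199023255552, 0, 0, 0⟩ v461; ok v462 && (
  let v463 := mul v462 v294; ok v463 && (
  let v464 := mul v2 v295; ok v464 && (
  let v465 := sub v17 v464; ok v465 && (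
  let v466 := inv v465; ok v466 && (
  let v467 := mul v463 v466; ok v467 && (
  let v468 := sub v455 v467; ok v468 && (
  isPos 4 v204 && (
  isPos 4 v207 && (
  let v469 := scale ⟨2199023255552, 0, 0, 0⟩ v291; ok v469 && (
  let v470 := sub v44 v469; ok v470 && (
  isPos 4 v470 && (
  isPos 4 v301 && (
  isPos 4 v127 && (
  let v471 := sub v1 v171; ok v471 && (
  isPos 4 v471 && (
  let v472 := scale ⟨687194767360, 0, 0, 0⟩ v0; ok v472 && (
  let v473 := sub v472 v248; ok v473 && (
  isPos 4 v473 && (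
  let v474 := scale ⟨377957122048, 0, 0, 0⟩ v0; ok v474 && (
  let v475 := sub v474 v244; ok v475 && (
  isPos 4 v475 && (
  isPos 4 v465 && (
  let v476 := sub v1 v387; ok v476 && (
  isPos 4 v476 && (
  isPos 4 v304 && (
  isPos 4 v318 && (
  let v477 := sub v472 v310; ok v477 && (
  isPos 4 v477 && (
  isPos 4 v468 && (
  isPos 4 v446 && (
  true)))))))))))))))))))))))))))))))))))))))))))))))))))))))))))))))))))))))))))))))))))))))))))))))))))))))))))))))))))))))))))))))))))))))))))))))))))))))))))))))))))))))))))))))))))))))))))))))))))))))))))))))))))))))))))))))))))))))))))))))))))))))))))))))))))))))))))))))))))))))))))))))))))))))))))))))))))))))))))))))))))))))))))))))))))))))))))))))))))))))))))))))))))))))))))))))))))))))))))))))))))))))))))))))))))))))))))))))))))))))))))))))))))))))))))))))))))))))))))))))))))))))))))))))))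
  | _ => false

set_option maxRecDepth 1000000 in
theorem chk2_eq (O : Ops) (m : List O.α)
    (h : chk2 O.cst O.add O.sub O.mul O.scale O.neg O.inv O.exp O.log O.ok O.isPos O.isLt m = true) :
    runG O 4 prog2 m = true := by
  match m, h with
  | [x0, x1, x2, x3], h => exact h

def chkB2 : List opsE.α → Bool :=
  chk2 opsE.cst opsE.add opsE.sub opsE.mul opsE.scale opsE.neg opsE.inv opsE.exp opsE.log opsE.ok opsE.isPos opsE.isLt

theorem chkB2_eq (m : List opsE.α) (h : chkB2 m = true) : runG opsE 4 prog2 m = true :=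
  chk2_eq opsE m h

def prog3 : List Op := [
  .const ⟨1099511627776, 0, 0, 0⟩,
  .const ⟨549755813888, 0, 0, 0⟩,
  .mul 3 4,
  .mul 0 6,
  .scale ⟨549755813888, 0, 0, 0⟩ 0,
  .mul 7 7,
  .mul 1 1,
  .sub 6 0,
  .inv 0,
  .mul 4 0,
  .scale ⟨2199023255552, 0, 0, 0⟩ 0,
  .scale ⟨2199023255552, 0, 0, 0⟩ 2,
  .sub 0 11,
  .add 0 2,
  .mul 17 5,
  .mul 17 0,
  .sub 15 0,
  .add 16 1,
  .scale ⟨10774999203840, 0, 0, 0⟩ 13,
  .scale ⟨45768245248, 0, 0, 0⟩ 0,
  .const ⟨183207198720, 0, 0, 0⟩,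
  .add 1 0,
  .mul 3 0,
  .add 21 0,
  .mul 5 0,
  .add 24 0,
  .mul 7 0,
  .scale ⟨549755813888, 0, 0, 0⟩ 0,
  .add 27 0,
  .mul 3 0,
  .mul 31 24,
  .mul 20 15,
  .scale ⟨2199023255552, 0, 0, 0⟩ 19,
  .add 1 0,
  .add 0 35,
  .mul 4 0,
  .add 0 35,
  .mul 26 26,
  .scale ⟨2199023255552, 0, 0, 0⟩ 0,
  .add 0 38,
  .mul 27 5,
  .sub 0 40,
  .log 5,
  .scale ⟨549755813888, 0, 0, 0⟩ 0,
  .exp 0,
  .scale ⟨549755813888, 0, 0, 0⟩ 45,
  .mul 0 3,
  .neg 0,
  .exp 0,
  .mul 36 18,
  .mul 0 8,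
  .scale ⟨4398046511104, 0, 0, 0⟩ 0,
  .add 0 51,
  .log 0,
  .sub 0 11,
  .mul 9 0,
  .neg 0,
  .exp 0,
  .mul 42 47,
  .add 46 0,
  .inv 0,
  .mul 43 0,
  .mul 45 63,
  .mul 0 1,
  .mul 49 49,
  .sub 64 59,
  .mul 1 0,
  .mul 64 64,
  .add 55 37,
  .inv 0,
  .mul 0 70,
  .mul 0 0,
  .mul 4 6,
  .sub 72 8,
  .mul 1 0,
  .mul 3 0,
  .inv 76,
  .const ⟨45812285440, 0, 0, 0⟩,
  .scale ⟨1527119872, 0, 0, 0⟩ 2,
  .sub 1 0,
  .mul 4 0,
  .sub 79 0,
  .mul 6 0,
  .sub 82 0,
  .add 35 83,
  .mul 36 36,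
  .add 0 85,
  .mul 38 3,
  .scale ⟨2199023255552, 0, 0, 0⟩ 0,
  .add 2 0,
  .inv 5,
  .mul 1 0,
  .add 0 7,
  .mul 44 29,
  .scale ⟨549755813888, 0, 0, 0⟩ 0,
  .mul 0 2,
  .sub 6 0,
  .pos 7,
  .pos 0,
  .inv 0,
  .mul 52 63,
  .const ⟨6597069766656, 0, 0, 0⟩,
  .add 64 0,
  .mul 2 0,
  .scale ⟨4398046511104, 0, 0, 0⟩ 66,
  .add 0 3,
  .inv 0,
  .mul 3 0,
  .sub 105 57,
  .mul 0 22,
  .mul 0 10,
  .scale ⟨549755813888, 0, 0, 0⟩ 0,
  .add 0 108,
  .inv 0,
  .mul 2 0,
  .mul 18 3,
  .add 0 112,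
  .mul 0 22,
  .inv 26,
  .mul 1 0,
  .mul 54 5,
  .scale ⟨549755813888, 0, 0, 0⟩ 0,
  .sub 119 0,
  .sub 120 2,
  .inv 0,
  .mul 2 0,
  .add 5 123,
  .mul 76 0,
  .mul 109 108,
  .add 114 128,
  .mul 112 115,
  .mul 0 118,
  .scale ⟨2199023255552, 0, 0, 0⟩ 0,
  .add 91 0,
  .mul 4 0,
  .inv 0,
  .mul 7 0,
  .mul 136 0,
  .inv 99,
  .mul 61 0,
  .scale ⟨1527119872, 0, 0, 0⟩ 0,
  .sub 61 0,
  .mul 2 0,
  .sub 139 0,
  .mul 4 0,
  .sub 142 0,
  .add 86 143,
  .mul 87 87,
  .add 0 145,
  .mul 89 3,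
  .scale ⟨2199023255552, 0, 0, 0⟩ 0,
  .add 2 0,
  .inv 5,
  .mul 1 0,
  .add 0 7,
  .mul 95 17,
  .scale ⟨549755813888, 0, 0, 0⟩ 0,
  .mul 0 2,
  .sub 6 0,
  .pos 7,
  .pos 0,
  .sub 156 99,
  .mul 0 13,
  .inv 2,
  .mul 1 0,
  .scale ⟨549755813888, 0, 0, 0⟩ 0,
  .add 0 160,
  .inv 0,
  .mul 2 0,
  .mul 29 0,
  .add 161 165,
  .inv 0,
  .mul 163 0,
  .scale ⟨2199023255552, 0, 0, 0⟩ 0,
  .sub 169 0,
  .sub 170 166,
  .mul 175 4,
  .mul 0 2,
  .add 156 0,
  .mul 175 164,
  .scale ⟨274877906944, 0, 0, 0⟩ 176,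
  .const ⟨2199023255552, 0, 0, 0⟩,
  .add 1 0,
  .mul 0 0,
  .mul 4 4,
  .const ⟨7696581394432, 0, 0, 0⟩,
  .const ⟨10995116277760, 0, 0, 0⟩,
  .inv 0,
  .mul 2 0,
  .mul 4 0,
  .add 6 0,
  .mul 7 8,
  .inv 1,
  .mul 1 0,
  .inv 2,
  .mul 4 0,
  .scale ⟨224412041216, 0, 0, 0⟩ 183,
  .inv 163,
  .mul 1 0,
  .mul 5 177,
  .mul 0 1,
  .mul 194 0,
  .sub 197 0,
  .inv 0,
  .mul 74 2,
  .sub 200 0,
  .inv 0,
  .add 27 25,
  .inv 0,
  .mul 188 205,
  .mul 0 207,
  .mul 0 2,
  .scale ⟨549755813888, 0, 0, 0⟩ 0,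
  .sub 208 0,
  .sub 209 2,
  .inv 0,
  .mul 2 0,
  .mul 0 8,
  .mul 0 214,
  .mul 216 200,
  .mul 0 1,
  .mul 9 4,
  .pos 7,
  .mul 0 141,
  .scale ⟨1374389534720, 0, 0, 0⟩ 0,
  .sub 218 0,
  .pos 0,
  .scale ⟨3092376453120, 0, 0, 0⟩ 2,
  .add 0 44,
  .mul 4 0,
  .add 223 0,
  .scale ⟨1546188226560, 0, 0, 0⟩ 6,
  .add 0 225,
  .mul 8 0,
  .add 227 0,
  .mul 224 214,
  .sub 229 163,
  .mul 226 215,
  .scale ⟨2199023255552, 0, 0, 0⟩ 0,
  .sub 2 0,
  .mul 4 4,
  .add 1 0,
  .add 0 235,
  .scale ⟨549755813888, 0, 0, 0⟩ 0,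
  .scale ⟨549755813888, 0, 0, 0⟩ 207,
  .sub 230 0,
  .mul 172 9,
  .mul 0 233,
  .scale ⟨137438953472, 0, 0, 0⟩ 0,
  .add 3 0,
  .mul 6 0,
  .mul 126 121,
  .add 120 245,
  .mul 0 47,
  .mul 122 45,
  .add 1 0,
  .mul 52 0,
  .add 5 0,
  .mul 0 175,
  .mul 6 55,
  .mul 0 54,
  .add 9 0,
  .mul 0 179,
  .scale ⟨223338299392, 0, 0, 0⟩ 0,
  .add 256 0,
  .mul 2 0,
  .add 259 0,
  .scale ⟨893353197568, 0, 0, 0⟩ 8,
  .add 261 0,
  .mul 10 0,
  .add 263 0,
  .mul 95 92,
  .mul 0 41,
  .mul 0 2,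
  .mul 23 7,
  .add 224 267,
  .mul 2 0,
  .add 2 0,
  .add 227 271,
  .mul 5 0,
  .mul 45 1,
  .mul 0 102,
  .mul 0 104,
  .mul 274 102,
  .inv 233,
  .mul 1 0,
  .scale ⟨549755813888, 0, 0, 0⟩ 0,
  .inv 283,
  .mul 220 0,
  .mul 0 170,
  .mul 0 160,
  .mul 268 4,
  .mul 14 1,
  .mul 10 70,
  .add 1 0,
  .mul 0 212,
  .add 4 0,
  .mul 19 44,
  .mul 0 92,
  .mul 19 167,
  .mul 0 91,
  .add 2 0,
  .mul 0 219,
  .mul 280 6,
  .mul 101 1,
  .add 1 0,
  .mul 232 0,
  .mul 0 22,
  .sub 301 0,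
  .inv 0,
  .mul 4 0,
  .mul 306 0,
  .mul 238 1,
  .mul 0 28,
  .sub 307 0,
  .mul 267 0,
  .sub 0 4,
  .inv 0,
  .mul 6 0,
  .sub 312 7,
  .inv 0,
  .inv 284,
  .mul 70 0,
  .add 211 0,
  .mul 0 3,
  .mul 0 12,
  .scale ⟨223338299392, 0, 0, 0⟩ 0,
  .add 319 0,
  .mul 2 0,
  .add 322 0,
  .mul 4 0,
  .mul 0 207,
  .mul 0 200,
  .sub 326 0,
  .mul 9 4,
  .mul 0 25,
  .mul 0 253,
  .inv 3,
  .mul 1 0,
  .mul 0 335,
  .mul 62 134,
  .mul 61 217,
  .mul 0 210,
  .mul 0 134,
  .add 3 0,
  .mul 5 0,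
  .mul 68 278,
  .mul 0 59,
  .mul 0 232,
  .mul 0 219,
  .mul 11 152,
  .mul 0 347,
  .inv 328,
  .mul 1 0,
  .mul 348 230,
  .mul 0 332,
  .mul 0 69,
  .add 0 7,
  .mul 234 75,
  .mul 0 136,
  .add 2 0,
  .mul 7 0,
  .mul 166 353,
  .mul 0 339,
  .mul 0 341,
  .const ⟨9895604649984, 0, 0, 0⟩,
  .const ⟨21990232555520, 0, 0, 0⟩,
  .inv 0,
  .mul 2 0,
  .add 197 362,
  .mul 198 0,
  .add 309 0,
  .mul 53 0,
  .mul 309 3,
  .scale ⟨687194767360, 0, 0, 0⟩ 1,
  .add 368 0,
  .mul 3 0,
  .add 370 0,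
  .mul 4 0,
  .add 362 374,
  .mul 207 0,
  .mul 0 12,
  .add 375 0,
  .inv 0,
  .mul 5 0,
  .mul 0 365,
  .mul 377 75,
  .mul 0 34,
  .add 381 0,
  .mul 3 0,
  .sub 339 77,
  .inv 0,
  .mul 2 0,
  .mul 388 47,
  .mul 0 190,
  .mul 390 30,
  .mul 34 0,
  .add 2 0,
  .add 4 36,
  .add 392 1,
  .mul 7 0,
  .add 2 0,
  .sub 395 0,
  .scale ⟨1073741824, 0, 0, 0⟩ 398,
  .sub 1 0,
  .sub 385 398,
  .add 0 222,
  .scale ⟨2199023255552, 0, 0, 0⟩ 38,
  .sub 1 0,
  .mul 236 0,
  .mul 4 2,
  .add 0 404,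
  .inv 0,
  .mul 3 0,
  .mul 218 111,
  .scale ⟨549755813888, 0, 0, 0⟩ 214,
  .add 399 0,
  .mul 2 0,
  .scale ⟨2199023255552, 0, 0, 0⟩ 0,
  .add 122 0,
  .scale ⟨2199023255552, 0, 0, 0⟩ 0,
  .mul 0 111,
  .sub 398 35,
  .inv 0,
  .mul 2 0,
  .sub 11 0,
  .pos 221,
  .pos 218,
  .scale ⟨2199023255552, 0, 0, 0⟩ 119,
  .sub 376 0,
  .pos 0,
  .pos 111,
  .pos 300,
  .sub 420 256,
  .pos 0,
  .scale ⟨687194767360, 0, 0, 0⟩ 422,
  .sub 0 167,
  .pos 0,
  .scale ⟨377957122048, 0, 0, 0⟩ 424,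
  .sub 0 173,
  .pos 0,
  .pos 10,
  .sub 425 60,
  .pos 0,
  .pos 114,
  .pos 100,
  .sub 4 108,
  .pos 0,
  .pos 9,
  .pos 30]

def chk3 {α : Type} (cst : Z → α) (add sub mul : α → α → α) (scale : Z → α → α)
    (neg inv exp log : α → α) (ok : α → Bool) (isPos : Nat → α → Bool) (isLt : α → Nat → Bool) :
    List α → Bool
  | [x0, x1, x2, x3] =>
  let v0 := cst ⟨1099511627776, 0, 0, 0⟩; ok v0 && (
  let v1 := cst ⟨549755813888, 0, 0, 0⟩; ok v1 && (
  let v2 := mul x1 x2; ok v2 && (
  let v3 := mul v2 x3; ok v3 && (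
  let v4 := scale ⟨549755813888, 0, 0, 0⟩ v3; ok v4 && (
  let v5 := mul x2 x2; ok v5 && (
  let v6 := mul v4 v4; ok v6 && (
  let v7 := sub v0 v6; ok v7 && (
  let v8 := inv v7; ok v8 && (
  let v9 := mul v4 v8; ok v9 && (
  let v10 := scale ⟨2199023255552, 0, 0, 0⟩ v9; ok v10 && (
  let v11 := scale ⟨2199023255552, 0, 0, 0⟩ v8; ok v11 && (
  let v12 := sub v11 v0; ok v12 && (
  let v13 := add v12 v10; ok v13 && (
  let v14 := mul x3 v8; ok v14 && (
  let v15 := mul x2 v14; ok v15 && (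
  let v16 := sub v0 v15; ok v16 && (
  let v17 := add v0 v15; ok v17 && (
  let v18 := scale ⟨10774999203840, 0, 0, 0⟩ v4; ok v18 && (
  let v19 := scale ⟨45768245248, 0, 0, 0⟩ v18; ok v19 && (
  let v20 := cst ⟨183207198720, 0, 0, 0⟩; ok v20 && (
  let v21 := add v19 v20; ok v21 && (
  let v22 := mul v18 v21; ok v22 && (
  let v23 := add v1 v22; ok v23 && (
  let v24 := mul v18 v23; ok v24 && (
  let v25 := add v0 v24; ok v25 && (
  let v26 := mul v18 v25; ok v26 && (
  let v27 := scale ⟨549755813888, 0, 0, 0⟩ v26; ok v27 && (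
  let v28 := add v0 v27; ok v28 && (
  let v29 := mul v25 v28; ok v29 && (
  let v30 := mul x1 v5; ok v30 && (
  let v31 := mul v10 v15; ok v31 && (
  let v32 := scale ⟨2199023255552, 0, 0, 0⟩ v12; ok v32 && (
  let v33 := add v31 v32; ok v33 && (
  let v34 := add v33 x1; ok v34 && (
  let v35 := mul v30 v34; ok v35 && (
  let v36 := add v35 v0; ok v36 && (
  let v37 := mul v10 v10; ok v37 && (
  let v38 := scale ⟨2199023255552, 0, 0, 0⟩ v37; ok v38 && (
  let v39 := add v38 v0; ok v39 && (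
  let v40 := mul v12 v34; ok v40 && (
  let v41 := sub v40 v0; ok v41 && (
  let v42 := log v36; ok v42 && (
  let v43 := scale ⟨549755813888, 0, 0, 0⟩ v42; ok v43 && (
  let v44 := exp v43; ok v44 && (
  let v45 := scale ⟨549755813888, 0, 0, 0⟩ x0; ok v45 && (
  let v46 := mul v45 v42; ok v46 && (
  let v47 := neg v46; ok v47 && (
  let v48 := exp v47; ok v48 && (
  let v49 := mul v12 v30; ok v49 && (
  let v50 := mul v49 v41; ok v50 && (
  let v51 := scale ⟨4398046511104, 0, 0, 0⟩ v50; ok v51 && (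
  let v52 := add v51 v0; ok v52 && (
  let v53 := log v52; ok v53 && (
  let v54 := sub v53 v42; ok v54 && (
  let v55 := mul v45 v54; ok v55 && (
  let v56 := neg v55; ok v56 && (
  let v57 := exp v56; ok v57 && (
  let v58 := mul v15 v10; ok v58 && (
  let v59 := add v12 v58; ok v59 && (
  let v60 := inv v59; ok v60 && (
  let v61 := mul v17 v60; ok v61 && (
  let v62 := mul v16 x1; ok v62 && (
  let v63 := mul v62 v61; ok v63 && (
  let v64 := mul v14 v14; ok v64 && (
  let v65 := sub v0 v5; ok v65 && (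
  let v66 := mul v64 v65; ok v66 && (
  let v67 := mul v2 v2; ok v67 && (
  let v68 := add v12 v30; ok v68 && (
  let v69 := inv v68; ok v69 && (
  let v70 := mul v69 x0; ok v70 && (
  let v71 := mul v70 v70; ok v71 && (
  let v72 := mul v67 v65; ok v72 && (
  let v73 := sub v0 v64; ok v73 && (
  let v74 := mul v72 v73; ok v74 && (
  let v75 := mul v71 v74; ok v75 && (
  let v76 := inv x0; ok v76 && (
  let v77 := cst ⟨45812285440, 0, 0, 0⟩; ok v77 && (
  let v78 := scale ⟨1527119872, 0, 0, 0⟩ v75; ok v78 && (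
  let v79 := sub v77 v78; ok v79 && (
  let v80 := mul v75 v79; ok v80 && (
  let v81 := sub v1 v80; ok v81 && (
  let v82 := mul v75 v81; ok v82 && (
  let v83 := sub v0 v82; ok v83 && (
  let v84 := add v48 v0; ok v84 && (
  let v85 := mul v48 v48; ok v85 && (
  let v86 := add v85 v0; ok v86 && (
  let v87 := mul v48 v83; ok v87 && (
  let v88 := scale ⟨2199023255552, 0, 0, 0⟩ v87; ok v88 && (
  let v89 := add v86 v88; ok v89 && (
  let v90 := inv v84; ok v90 && (
  let v91 := mul v89 v90; ok v91 && (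
  let v92 := add v91 v84; ok v92 && (
  let v93 := mul v48 v63; ok v93 && (
  let v94 := scale ⟨549755813888, 0, 0, 0⟩ v93; ok v94 && (
  let v95 := mul v94 v92; ok v95 && (
  let v96 := sub v89 v95; ok v96 && (
  isPos 4 v89 && (
  isPos 4 v96 && (
  let v97 := inv v96; ok v97 && (
  let v98 := mul v45 v34; ok v98 && (
  let v99 := cst ⟨6597069766656, 0, 0, 0⟩; ok v99 && (
  let v100 := add v35 v99; ok v100 && (
  let v101 := mul v98 v100; ok v101 && (
  let v102 := scale ⟨4398046511104, 0, 0, 0⟩ v35; ok v102 && (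
  let v103 := add v102 v99; ok v103 && (
  let v104 := inv v103; ok v104 && (
  let v105 := mul v101 v104; ok v105 && (
  let v106 := sub v0 v48; ok v106 && (
  let v107 := mul v106 v84; ok v107 && (
  let v108 := mul v107 v97; ok v108 && (
  let v109 := scale ⟨549755813888, 0, 0, 0⟩ v108; ok v109 && (
  let v110 := add v109 v1; ok v110 && (
  let v111 := inv v110; ok v111 && (
  let v112 := mul v109 v111; ok v112 && (
  let v113 := mul v94 v109; ok v113 && (
  let v114 := add v113 v1; ok v114 && (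
  let v115 := mul v114 v92; ok v115 && (
  let v116 := inv v89; ok v116 && (
  let v117 := mul v115 v116; ok v117 && (
  let v118 := mul v63 v112; ok v118 && (
  let v119 := scale ⟨549755813888, 0, 0, 0⟩ v118; ok v119 && (
  let v120 := sub v0 v119; ok v120 && (
  let v121 := sub v0 v118; ok v121 && (
  let v122 := inv v121; ok v122 && (
  let v123 := mul v120 v122; ok v123 && (
  let v124 := add v118 v0; ok v124 && (
  let v125 := mul v48 v124; ok v125 && (
  let v126 := mul v16 v17; ok v126 && (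
  let v127 := add v12 x1; ok v127 && (
  let v128 := mul v15 v12; ok v128 && (
  let v129 := mul v128 v10; ok v129 && (
  let v130 := scale ⟨2199023255552, 0, 0, 0⟩ v129; ok v130 && (
  let v131 := add v39 v130; ok v131 && (
  let v132 := mul v127 v131; ok v132 && (
  let v133 := inv v132; ok v133 && (
  let v134 := mul v126 v133; ok v134 && (
  let v135 := mul x1 v134; ok v135 && (
  let v136 := inv v36; ok v136 && (
  let v137 := mul v75 v136; ok v137 && (
  let v138 := scale ⟨1527119872, 0, 0, 0⟩ v137; ok v138 && (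
  let v139 := sub v77 v138; ok v139 && (
  let v140 := mul v137 v139; ok v140 && (
  let v141 := sub v1 v140; ok v141 && (
  let v142 := mul v137 v141; ok v142 && (
  let v143 := sub v0 v142; ok v143 && (
  let v144 := add v57 v0; ok v144 && (
  let v145 := mul v57 v57; ok v145 && (
  let v146 := add v145 v0; ok v146 && (
  let v147 := mul v57 v143; ok v147 && (
  let v148 := scale ⟨2199023255552, 0, 0, 0⟩ v147; ok v148 && (
  let v149 := add v146 v148; ok v149 && (
  let v150 := inv v144; ok v150 && (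
  let v151 := mul v149 v150; ok v151 && (
  let v152 := add v151 v144; ok v152 && (
  let v153 := mul v57 v135; ok v153 && (
  let v154 := scale ⟨549755813888, 0, 0, 0⟩ v153; ok v154 && (
  let v155 := mul v154 v152; ok v155 && (
  let v156 := sub v149 v155; ok v156 && (
  isPos 4 v149 && (
  isPos 4 v156 && (
  let v157 := sub v0 v57; ok v157 && (
  let v158 := mul v157 v144; ok v158 && (
  let v159 := inv v156; ok v159 && (
  let v160 := mul v158 v159; ok v160 && (
  let v161 := scale ⟨549755813888, 0, 0, 0⟩ v160; ok v161 && (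
  let v162 := add v161 v1; ok v162 && (
  let v163 := inv v162; ok v163 && (
  let v164 := mul v161 v163; ok v164 && (
  let v165 := mul v135 v164; ok v165 && (
  let v166 := add v4 v0; ok v166 && (
  let v167 := inv v166; ok v167 && (
  let v168 := mul v4 v167; ok v168 && (
  let v169 := scale ⟨2199023255552, 0, 0, 0⟩ v168; ok v169 && (
  let v170 := sub v0 v169; ok v170 && (
  let v171 := sub v0 v4; ok v171 && (
  let v172 := mul x3 v167; ok v172 && (
  let v173 := mul v172 v170; ok v173 && (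
  let v174 := add v17 v173; ok v174 && (
  let v175 := mul x0 v10; ok v175 && (
  let v176 := scale ⟨274877906944, 0, 0, 0⟩ x0; ok v176 && (
  let v177 := cst ⟨2199023255552, 0, 0, 0⟩; ok v177 && (
  let v178 := add v176 v177; ok v178 && (
  let v179 := mul v178 v178; ok v179 && (
  let v180 := mul v175 v175; ok v180 && (
  let v181 := cst ⟨7696581394432, 0, 0, 0⟩; ok v181 && (
  let v182 := cst ⟨10995116277760, 0, 0, 0⟩; ok v182 && (
  let v183 := inv v182; ok v183 && (
  let v184 := mul v181 v183; ok v184 && (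
  let v185 := mul v180 v184; ok v185 && (
  let v186 := add v179 v185; ok v186 && (
  let v187 := mul v179 v178; ok v187 && (
  let v188 := inv v186; ok v188 && (
  let v189 := mul v187 v188; ok v189 && (
  let v190 := inv v187; ok v190 && (
  let v191 := mul v186 v190; ok v191 && (
  let v192 := scale ⟨224412041216, 0, 0, 0⟩ v8; ok v192 && (
  let v193 := inv v29; ok v193 && (
  let v194 := mul v192 v193; ok v194 && (
  let v195 := mul v189 v17; ok v195 && (
  let v196 := mul v195 v194; ok v196 && (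
  let v197 := mul v2 v196; ok v197 && (
  let v198 := sub v0 v197; ok v198 && (
  let v199 := inv v198; ok v199 && (
  let v200 := mul v125 v197; ok v200 && (
  let v201 := sub v0 v200; ok v201 && (
  let v202 := inv v201; ok v202 && (
  let v203 := add v175 v177; ok v203 && (
  let v204 := inv v203; ok v204 && (
  let v205 := mul v16 x0; ok v205 && (
  let v206 := mul v205 x1; ok v206 && (
  let v207 := mul v206 v204; ok v207 && (
  let v208 := scale ⟨549755813888, 0, 0, 0⟩ v207; ok v208 && (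
  let v209 := sub v0 v208; ok v209 && (
  let v210 := sub v0 v207; ok v210 && (
  let v211 := inv v210; ok v211 && (
  let v212 := mul v209 v211; ok v212 && (
  let v213 := mul v212 v204; ok v213 && (
  let v214 := mul v213 x0; ok v214 && (
  let v215 := mul x1 v14; ok v215 && (
  let v216 := mul v215 v214; ok v216 && (
  let v217 := mul v207 v212; ok v217 && (
  isPos 4 v210 && (
  let v218 := mul v217 v76; ok v218 && (
  let v219 := scale ⟨1374389534720, 0, 0, 0⟩ v218; ok v219 && (
  let v220 := sub v1 v219; ok v220 && (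
  isPos 4 v220 && (
  let v221 := scale ⟨3092376453120, 0, 0, 0⟩ v218; ok v221 && (
  let v222 := add v221 v177; ok v222 && (
  let v223 := mul v218 v222; ok v223 && (
  let v224 := add v0 v223; ok v224 && (
  let v225 := scale ⟨1546188226560, 0, 0, 0⟩ v218; ok v225 && (
  let v226 := add v225 v0; ok v226 && (
  let v227 := mul v218 v226; ok v227 && (
  let v228 := add v0 v227; ok v228 && (
  let v229 := mul v4 v14; ok v229 && (
  let v230 := sub v0 v66; ok v230 && (
  let v231 := mul v4 v15; ok v231 && (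
  let v232 := scale ⟨2199023255552, 0, 0, 0⟩ v231; ok v232 && (
  let v233 := sub v230 v232; ok v233 && (
  let v234 := mul v229 v229; ok v234 && (
  let v235 := add v233 v234; ok v235 && (
  let v236 := add v235 v0; ok v236 && (
  let v237 := scale ⟨549755813888, 0, 0, 0⟩ v236; ok v237 && (
  let v238 := scale ⟨549755813888, 0, 0, 0⟩ v30; ok v238 && (
  let v239 := sub v8 v238; ok v239 && (
  let v240 := mul v67 v230; ok v240 && (
  let v241 := mul v240 v7; ok v241 && (
  let v242 := scale ⟨137438953472, 0, 0, 0⟩ v241; ok v242 && (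
  let v243 := add v239 v242; ok v243 && (
  let v244 := mul v237 v243; ok v244 && (
  let v245 := mul v118 v123; ok v245 && (
  let v246 := add v125 v0; ok v246 && (
  let v247 := mul v246 v199; ok v247 && (
  let v248 := mul v125 v202; ok v248 && (
  let v249 := add v247 v248; ok v249 && (
  let v250 := mul v197 v249; ok v250 && (
  let v251 := add v245 v250; ok v251 && (
  let v252 := mul v251 v76; ok v252 && (
  let v253 := mul v246 v197; ok v253 && (
  let v254 := mul v253 v199; ok v254 && (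
  let v255 := add v245 v254; ok v255 && (
  let v256 := mul v255 v76; ok v256 && (
  let v257 := scale ⟨223338299392, 0, 0, 0⟩ v256; ok v257 && (
  let v258 := add v1 v257; ok v258 && (
  let v259 := mul v256 v258; ok v259 && (
  let v260 := add v0 v259; ok v260 && (
  let v261 := scale ⟨893353197568, 0, 0, 0⟩ v252; ok v261 && (
  let v262 := add v0 v261; ok v262 && (
  let v263 := mul v252 v262; ok v263 && (
  let v264 := add v0 v263; ok v264 && (
  let v265 := mul v169 v172; ok v265 && (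
  let v266 := mul v265 v224; ok v266 && (
  let v267 := mul v266 v264; ok v267 && (
  let v268 := mul v244 v260; ok v268 && (
  let v269 := add v44 v1; ok v269 && (
  let v270 := mul v267 v269; ok v270 && (
  let v271 := add v268 v270; ok v271 && (
  let v272 := add v44 v0; ok v272 && (
  let v273 := mul v267 v272; ok v273 && (
  let v274 := mul v228 v272; ok v274 && (
  let v275 := mul v274 v172; ok v275 && (
  let v276 := mul v275 v171; ok v276 && (
  let v277 := mul v2 v174; ok v277 && (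
  let v278 := inv v44; ok v278 && (
  let v279 := mul v277 v278; ok v279 && (
  let v280 := scale ⟨549755813888, 0, 0, 0⟩ v279; ok v280 && (
  let v281 := inv x2; ok v281 && (
  let v282 := mul v61 v281; ok v282 && (
  let v283 := mul v282 v112; ok v283 && (
  let v284 := mul v283 v123; ok v284 && (
  let v285 := mul v16 v280; ok v285 && (
  let v286 := mul v271 v284; ok v286 && (
  let v287 := mul v276 v216; ok v287 && (
  let v288 := add v286 v287; ok v288 && (
  let v289 := mul v288 v76; ok v289 && (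
  let v290 := add v285 v289; ok v290 && (
  let v291 := mul v271 v246; ok v291 && (
  let v292 := mul v291 v199; ok v292 && (
  let v293 := mul v273 v125; ok v293 && (
  let v294 := mul v293 v202; ok v294 && (
  let v295 := add v292 v294; ok v295 && (
  let v296 := mul v295 v76; ok v296 && (
  let v297 := mul v16 v290; ok v297 && (
  let v298 := mul v196 v296; ok v298 && (
  let v299 := add v297 v298; ok v299 && (
  let v300 := mul v67 v299; ok v300 && (
  let v301 := mul v300 v278; ok v301 && (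
  let v302 := sub v0 v301; ok v302 && (
  let v303 := inv v302; ok v303 && (
  let v304 := mul v299 v303; ok v304 && (
  let v305 := mul x1 v304; ok v305 && (
  let v306 := mul v67 v304; ok v306 && (
  let v307 := mul v306 v278; ok v307 && (
  let v308 := sub v0 v307; ok v308 && (
  let v309 := mul v41 v308; ok v309 && (
  let v310 := sub v309 v305; ok v310 && (
  let v311 := inv v310; ok v311 && (
  let v312 := mul v305 v311; ok v312 && (
  let v313 := sub v0 v305; ok v313 && (
  let v314 := inv v313; ok v314 && (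
  let v315 := inv v30; ok v315 && (
  let v316 := mul v245 v315; ok v316 && (
  let v317 := add v105 v316; ok v317 && (
  let v318 := mul v317 v314; ok v318 && (
  let v319 := mul v318 v306; ok v319 && (
  let v320 := scale ⟨223338299392, 0, 0, 0⟩ v319; ok v320 && (
  let v321 := add v1 v320; ok v321 && (
  let v322 := mul v319 v321; ok v322 && (
  let v323 := add v0 v322; ok v323 && (
  let v324 := mul v319 v323; ok v324 && (
  let v325 := mul v324 v117; ok v325 && (
  let v326 := mul v325 v125; ok v326 && (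
  let v327 := sub v0 v326; ok v327 && (
  let v328 := mul v318 v323; ok v328 && (
  let v329 := mul v328 v303; ok v329 && (
  let v330 := mul v329 v76; ok v330 && (
  let v331 := inv v327; ok v331 && (
  let v332 := mul v330 v331; ok v332 && (
  let v333 := mul v332 x2; ok v333 && (
  let v334 := mul v271 v199; ok v334 && (
  let v335 := mul v273 v117; ok v335 && (
  let v336 := mul v335 v125; ok v336 && (
  let v337 := mul v336 v202; ok v337 && (
  let v338 := add v334 v337; ok v338 && (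
  let v339 := mul v333 v338; ok v339 && (
  let v340 := mul v271 v61; ok v340 && (
  let v341 := mul v340 v281; ok v341 && (
  let v342 := mul v341 v109; ok v342 && (
  let v343 := mul v342 v123; ok v343 && (
  let v344 := mul v332 v191; ok v344 && (
  let v345 := mul v344 x2; ok v345 && (
  let v346 := inv v17; ok v346 && (
  let v347 := mul v345 v346; ok v347 && (
  let v348 := mul x0 v117; ok v348 && (
  let v349 := mul v348 v16; ok v349 && (
  let v350 := mul v349 v280; ok v350 && (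
  let v351 := add v350 v343; ok v351 && (
  let v352 := mul v117 v276; ok v352 && (
  let v353 := mul v352 v216; ok v353 && (
  let v354 := add v351 v353; ok v354 && (
  let v355 := mul v347 v354; ok v355 && (
  let v356 := mul v189 v2; ok v356 && (
  let v357 := mul v356 v17; ok v357 && (
  let v358 := mul v357 v16; ok v358 && (
  let v359 := cst ⟨9895604649984, 0, 0, 0⟩; ok v359 && (
  let v360 := cst ⟨21990232555520, 0, 0, 0⟩; ok v360 && (
  let v361 := inv v360; ok v361 && (
  let v362 := mul v359 v361; ok v362 && (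
  let v363 := add v165 v0; ok v363 && (
  let v364 := mul v165 v363; ok v364 && (
  let v365 := add v55 v364; ok v365 && (
  let v366 := mul v312 v365; ok v366 && (
  let v367 := mul v57 v363; ok v367 && (
  let v368 := scale ⟨687194767360, 0, 0, 0⟩ v366; ok v368 && (
  let v369 := add v0 v368; ok v369 && (
  let v370 := mul v366 v369; ok v370 && (
  let v371 := add v0 v370; ok v371 && (
  let v372 := mul v367 v371; ok v372 && (
  let v373 := add v10 x1; ok v373 && (
  let v374 := mul v166 v373; ok v374 && (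
  let v375 := mul v374 v362; ok v375 && (
  let v376 := add v0 v375; ok v376 && (
  let v377 := inv v376; ok v377 && (
  let v378 := mul v372 v377; ok v378 && (
  let v379 := mul v378 v13; ok v379 && (
  let v380 := mul v2 v304; ok v380 && (
  let v381 := mul v380 v346; ok v381 && (
  let v382 := add v0 v381; ok v382 && (
  let v383 := mul v379 v382; ok v383 && (
  let v384 := sub v44 v306; ok v384 && (
  let v385 := inv v384; ok v385 && (
  let v386 := mul v383 v385; ok v386 && (
  let v387 := mul x1 v339; ok v387 && (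
  let v388 := mul v387 v197; ok v388 && (
  let v389 := mul x1 v358; ok v389 && (
  let v390 := mul v355 v389; ok v390 && (
  let v391 := add v388 v390; ok v391 && (
  let v392 := add v387 v355; ok v392 && (
  let v393 := add v0 v391; ok v393 && (
  let v394 := mul v386 v393; ok v394 && (
  let v395 := add v392 v394; ok v395 && (
  let v396 := sub v0 v395; ok v396 && (
  let v397 := scale ⟨1073741824, 0, 0, 0⟩ x1; ok v397 && (
  let v398 := sub v396 v397; ok v398 && (
  let v399 := sub v13 v0; ok v399 && (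
  let v400 := add v399 v177; ok v400 && (
  let v401 := scale ⟨2199023255552, 0, 0, 0⟩ v362; ok v401 && (
  let v402 := sub v400 v401; ok v402 && (
  let v403 := mul v166 v402; ok v403 && (
  let v404 := mul v399 v401; ok v404 && (
  let v405 := add v404 v0; ok v405 && (
  let v406 := inv v405; ok v406 && (
  let v407 := mul v403 v406; ok v407 && (
  let v408 := mul v189 v296; ok v408 && (
  let v409 := scale ⟨549755813888, 0, 0, 0⟩ v194; ok v409 && (
  let v410 := add v10 v409; ok v410 && (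
  let v411 := mul v408 v410; ok v411 && (
  let v412 := scale ⟨2199023255552, 0, 0, 0⟩ v411; ok v412 && (
  let v413 := add v290 v412; ok v413 && (
  let v414 := scale ⟨2199023255552, 0, 0, 0⟩ v413; ok v414 && (
  let v415 := mul v414 v303; ok v415 && (
  let v416 := sub v17 v380; ok v416 && (
  let v417 := inv v416; ok v417 && (
  let v418 := mul v415 v417; ok v418 && (
  let v419 := sub v407 v418; ok v419 && (
  isPos 4 v198 && (
  isPos 4 v201 && (
  let v420 := scale ⟨2199023255552, 0, 0, 0⟩ v300; ok v420 && (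
  let v421 := sub v44 v420; ok v421 && (
  isPos 4 v421 && (
  isPos 4 v310 && (
  isPos 4 v121 && (
  let v422 := sub v1 v165; ok v422 && (
  isPos 4 v422 && (
  let v423 := scale ⟨687194767360, 0, 0, 0⟩ v0; ok v423 && (
  let v424 := sub v423 v256; ok v424 && (
  isPos 4 v424 && (
  let v425 := scale ⟨377957122048, 0, 0, 0⟩ v0; ok v425 && (
  let v426 := sub v425 v252; ok v426 && (
  isPos 4 v426 && (
  isPos 4 v416 && (
  let v427 := sub v1 v366; ok v427 && (
  isPos 4 v427 && (
  isPos 4 v313 && (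
  isPos 4 v327 && (
  let v428 := sub v423 v319; ok v428 && (
  isPos 4 v428 && (
  isPos 4 v419 && (
  isPos 4 v398 && (
  true))))))))))))))))))))))))))))))))))))))))))))))))))))))))))))))))))))))))))))))))))))))))))))))))))))))))))))))))))))))))))))))))))))))))))))))))))))))))))))))))))))))))))))))))))))))))))))))))))))))))))))))))))))))))))))))))))))))))))))))))))))))))))))))))))))))))))))))))))))))))))))))))))))))))))))))))))))))))))))))))))))))))))))))))))))))))))))))))))))))))))))))))))))))))))))))))))))))))))))))))))))))))))))))))))))))))))))))))))))))))))))))))))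
  | _ => false

set_option maxRecDepth 1000000 in
theorem chk3_eq (O : Ops) (m : List O.α)
    (h : chk3 O.cst O.add O.sub O.mul O.scale O.neg O.inv O.exp O.log O.ok O.isPos O.isLt m = true) :
    runG O 4 prog3 m = true := by
  match m, h with
  | [x0, x1, x2, x3], h => exact h

def chkB3 : List opsE.α → Bool :=
  chk3 opsE.cst opsE.add opsE.sub opsE.mul opsE.scale opsE.neg opsE.inv opsE.exp opsE.log opsE.ok opsE.isPos opsE.isLt

theorem chkB3_eq (m : List opsE.α) (h : chkB3 m = true) : runG opsE 4 prog3 m = true :=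
  chk3_eq opsE m h

def prog4 : List Op := [
  .const ⟨1099511627776, 0, 0, 0⟩,
  .const ⟨549755813888, 0, 0, 0⟩,
  .mul 3 4,
  .mul 0 6,
  .scale ⟨549755813888, 0, 0, 0⟩ 0,
  .mul 7 7,
  .mul 1 1,
  .sub 6 0,
  .inv 0,
  .mul 4 0,
  .scale ⟨2199023255552, 0, 0, 0⟩ 0,
  .scale ⟨2199023255552, 0, 0, 0⟩ 2,
  .sub 0 11,
  .add 0 2,
  .mul 17 5,
  .mul 17 0,
  .sub 15 0,
  .add 16 1,
  .scale ⟨10774999203840, 0, 0, 0⟩ 13,
  .scale ⟨45768245248, 0, 0, 0⟩ 0,
  .const ⟨183207198720, 0, 0, 0⟩,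
  .add 1 0,
  .mul 3 0,
  .add 21 0,
  .mul 5 0,
  .add 24 0,
  .mul 7 0,
  .scale ⟨549755813888, 0, 0, 0⟩ 0,
  .add 27 0,
  .mul 3 0,
  .mul 31 24,
  .mul 20 15,
  .scale ⟨2199023255552, 0, 0, 0⟩ 19,
  .add 1 0,
  .add 0 35,
  .mul 4 0,
  .add 0 35,
  .mul 26 26,
  .scale ⟨2199023255552, 0, 0, 0⟩ 0,
  .add 0 38,
  .mul 27 5,
  .sub 0 40,
  .log 5,
  .scale ⟨549755813888, 0, 0, 0⟩ 0,
  .exp 0,
  .scale ⟨549755813888, 0, 0, 0⟩ 45,
  .mul 0 3,
  .neg 0,
  .exp 0,
  .mul 36 18,
  .mul 0 8,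
  .scale ⟨4398046511104, 0, 0, 0⟩ 0,
  .add 0 51,
  .log 0,
  .sub 0 11,
  .mul 9 0,
  .neg 0,
  .exp 0,
  .mul 42 47,
  .add 46 0,
  .inv 0,
  .mul 43 0,
  .mul 45 63,
  .mul 0 1,
  .mul 49 49,
  .sub 64 59,
  .mul 1 0,
  .mul 64 64,
  .add 55 37,
  .inv 0,
  .mul 0 70,
  .mul 0 0,
  .mul 4 6,
  .sub 72 8,
  .mul 1 0,
  .mul 3 0,
  .inv 76,
  .const ⟨45812285440, 0, 0, 0⟩,
  .scale ⟨1527119872, 0, 0, 0⟩ 2,
  .sub 1 0,
  .mul 4 0,
  .sub 79 0,
  .mul 6 0,
  .sub 82 0,
  .add 35 83,
  .mul 36 36,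
  .add 0 85,
  .mul 38 3,
  .scale ⟨2199023255552, 0, 0, 0⟩ 0,
  .add 2 0,
  .inv 5,
  .mul 1 0,
  .add 0 7,
  .mul 44 29,
  .scale ⟨549755813888, 0, 0, 0⟩ 0,
  .mul 0 2,
  .sub 6 0,
  .pos 7,
  .pos 0,
  .inv 0,
  .mul 52 63,
  .const ⟨6597069766656, 0, 0, 0⟩,
  .add 64 0,
  .mul 2 0,
  .scale ⟨4398046511104, 0, 0, 0⟩ 66,
  .add 0 3,
  .inv 0,
  .mul 3 0,
  .sub 105 57,
  .mul 0 22,
  .mul 0 10,
  .scale ⟨549755813888, 0, 0, 0⟩ 0,
  .add 0 108,
  .inv 0,
  .mul 2 0,
  .mul 18 3,
  .add 0 112,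
  .mul 0 22,
  .inv 26,
  .mul 1 0,
  .mul 54 5,
  .scale ⟨549755813888, 0, 0, 0⟩ 0,
  .sub 119 0,
  .sub 120 2,
  .inv 0,
  .mul 2 0,
  .add 5 123,
  .mul 76 0,
  .mul 109 108,
  .add 114 128,
  .mul 112 115,
  .mul 0 118,
  .scale ⟨2199023255552, 0, 0, 0⟩ 0,
  .add 91 0,
  .mul 4 0,
  .inv 0,
  .mul 7 0,
  .mul 136 0,
  .inv 99,
  .mul 61 0,
  .scale ⟨1527119872, 0, 0, 0⟩ 0,
  .sub 61 0,
  .mul 2 0,
  .sub 139 0,
  .mul 4 0,
  .sub 142 0,
  .add 86 143,
  .mul 87 87,
  .add 0 145,
  .mul 89 3,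
  .scale ⟨2199023255552, 0, 0, 0⟩ 0,
  .add 2 0,
  .inv 5,
  .mul 1 0,
  .add 0 7,
  .mul 95 17,
  .scale ⟨549755813888, 0, 0, 0⟩ 0,
  .mul 0 2,
  .sub 6 0,
  .pos 7,
  .pos 0,
  .sub 156 99,
  .mul 0 13,
  .inv 2,
  .mul 1 0,
  .scale ⟨549755813888, 0, 0, 0⟩ 0,
  .add 0 160,
  .inv 0,
  .mul 2 0,
  .mul 29 0,
  .add 161 165,
  .inv 0,
  .mul 163 0,
  .scale ⟨2199023255552, 0, 0, 0⟩ 0,
  .sub 169 0,
  .sub 170 166,
  .mul 175 4,
  .mul 0 2,
  .add 156 0,
  .mul 175 164,
  .scale ⟨274877906944, 0, 0, 0⟩ 176,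
  .const ⟨2199023255552, 0, 0, 0⟩,
  .add 1 0,
  .mul 0 0,
  .mul 4 4,
  .const ⟨7696581394432, 0, 0, 0⟩,
  .const ⟨10995116277760, 0, 0, 0⟩,
  .inv 0,
  .mul 2 0,
  .mul 4 0,
  .add 6 0,
  .mul 7 8,
  .inv 1,
  .mul 1 0,
  .inv 2,
  .mul 4 0,
  .scale ⟨224412041216, 0, 0, 0⟩ 183,
  .inv 163,
  .mul 1 0,
  .mul 5 177,
  .mul 0 1,
  .mul 194 0,
  .sub 197 0,
  .inv 0,
  .mul 74 2,
  .sub 200 0,
  .inv 0,
  .mul 186 90,
  .inv 188,
  .mul 1 0,
  .scale ⟨549755813888, 0, 0, 0⟩ 0,
  .sub 206 0,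
  .sub 207 2,
  .inv 0,
  .mul 2 0,
  .mul 98 0,
  .inv 214,
  .mul 1 0,
  .mul 8 3,
  .pos 6,
  .mul 0 138,
  .scale ⟨1374389534720, 0, 0, 0⟩ 0,
  .sub 215 0,
  .pos 0,
  .scale ⟨3092376453120, 0, 0, 0⟩ 2,
  .add 0 41,
  .mul 4 0,
  .add 220 0,
  .scale ⟨1546188226560, 0, 0, 0⟩ 6,
  .add 0 222,
  .mul 8 0,
  .add 224 0,
  .mul 221 211,
  .sub 226 160,
  .mul 223 212,
  .scale ⟨2199023255552, 0, 0, 0⟩ 0,
  .sub 2 0,
  .mul 4 4,
  .add 1 0,
  .add 0 232,
  .scale ⟨549755813888, 0, 0, 0⟩ 0,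
  .scale ⟨549755813888, 0, 0, 0⟩ 204,
  .sub 227 0,
  .mul 169 9,
  .mul 0 230,
  .scale ⟨137438953472, 0, 0, 0⟩ 0,
  .add 3 0,
  .mul 6 0,
  .mul 123 118,
  .add 117 242,
  .mul 0 44,
  .mul 119 42,
  .add 1 0,
  .mul 49 0,
  .add 5 0,
  .mul 0 172,
  .mul 6 52,
  .mul 0 51,
  .add 9 0,
  .mul 0 176,
  .scale ⟨223338299392, 0, 0, 0⟩ 0,
  .add 253 0,
  .mul 2 0,
  .add 256 0,
  .scale ⟨893353197568, 0, 0, 0⟩ 8,
  .add 258 0,
  .mul 10 0,
  .add 260 0,
  .mul 92 89,
  .mul 0 41,
  .mul 0 2,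
  .mul 23 7,
  .add 221 264,
  .mul 2 0,
  .add 2 0,
  .add 224 268,
  .mul 5 0,
  .mul 45 1,
  .mul 0 99,
  .mul 0 101,
  .mul 271 99,
  .inv 230,
  .mul 1 0,
  .scale ⟨549755813888, 0, 0, 0⟩ 0,
  .mul 216 65,
  .mul 0 166,
  .mul 0 156,
  .mul 264 3,
  .mul 13 1,
  .mul 9 69,
  .add 1 0,
  .mul 0 208,
  .add 4 0,
  .mul 18 43,
  .mul 0 88,
  .mul 18 163,
  .mul 0 87,
  .add 2 0,
  .mul 0 215,
  .mul 276 6,
  .mul 97 1,
  .add 1 0,
  .mul 228 0,
  .mul 0 21,
  .sub 297 0,
  .inv 0,
  .mul 4 0,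
  .mul 302 0,
  .mul 234 1,
  .mul 0 27,
  .sub 303 0,
  .mul 263 0,
  .sub 0 4,
  .inv 0,
  .mul 6 0,
  .sub 308 7,
  .inv 0,
  .inv 280,
  .mul 69 0,
  .add 207 0,
  .mul 0 3,
  .mul 0 12,
  .scale ⟨223338299392, 0, 0, 0⟩ 0,
  .add 315 0,
  .mul 2 0,
  .add 318 0,
  .mul 4 0,
  .mul 0 203,
  .mul 0 196,
  .sub 322 0,
  .mul 9 4,
  .mul 0 25,
  .mul 0 249,
  .inv 3,
  .mul 1 0,
  .mul 0 331,
  .mul 61 130,
  .mul 60 213,
  .mul 0 206,
  .mul 0 130,
  .add 3 0,
  .mul 5 0,
  .mul 67 274,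
  .mul 0 124,
  .mul 0 228,
  .mul 0 215,
  .mul 11 148,
  .mul 0 343,
  .inv 324,
  .mul 1 0,
  .mul 344 226,
  .mul 0 328,
  .mul 0 68,
  .add 0 7,
  .mul 230 74,
  .mul 0 135,
  .add 2 0,
  .mul 7 0,
  .mul 162 349,
  .mul 0 335,
  .mul 0 337,
  .const ⟨9895604649984, 0, 0, 0⟩,
  .const ⟨21990232555520, 0, 0, 0⟩,
  .inv 0,
  .mul 2 0,
  .add 193 358,
  .mul 194 0,
  .add 305 0,
  .mul 53 0,
  .mul 305 3,
  .scale ⟨687194767360, 0, 0, 0⟩ 1,
  .add 364 0,
  .mul 3 0,
  .add 366 0,
  .mul 4 0,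
  .add 358 370,
  .mul 203 0,
  .mul 0 12,
  .add 371 0,
  .inv 0,
  .mul 5 0,
  .mul 0 361,
  .mul 373 75,
  .mul 0 34,
  .add 377 0,
  .mul 3 0,
  .sub 335 77,
  .inv 0,
  .mul 2 0,
  .mul 384 47,
  .mul 0 186,
  .mul 386 30,
  .mul 34 0,
  .add 2 0,
  .add 4 36,
  .add 388 1,
  .mul 7 0,
  .add 2 0,
  .sub 391 0,
  .scale ⟨1073741824, 0, 0, 0⟩ 394,
  .sub 1 0,
  .sub 381 394,
  .add 0 218,
  .scale ⟨2199023255552, 0, 0, 0⟩ 38,
  .sub 1 0,
  .mul 232 0,
  .mul 4 2,
  .add 0 400,
  .inv 0,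
  .mul 3 0,
  .mul 214 111,
  .scale ⟨549755813888, 0, 0, 0⟩ 210,
  .add 395 0,
  .mul 2 0,
  .scale ⟨2199023255552, 0, 0, 0⟩ 0,
  .add 122 0,
  .scale ⟨2199023255552, 0, 0, 0⟩ 0,
  .mul 0 111,
  .sub 394 35,
  .inv 0,
  .mul 2 0,
  .sub 11 0,
  .pos 217,
  .pos 214,
  .scale ⟨2199023255552, 0, 0, 0⟩ 119,
  .sub 372 0,
  .pos 0,
  .pos 111,
  .pos 296,
  .sub 416 252,
  .pos 0,
  .scale ⟨687194767360, 0, 0, 0⟩ 418,
  .sub 0 166,
  .pos 0,
  .scale ⟨377957122048, 0, 0, 0⟩ 420,
  .sub 0 172,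
  .pos 0,
  .pos 10,
  .sub 421 60,
  .pos 0,
  .pos 114,
  .pos 100,
  .sub 4 108,
  .pos 0,
  .pos 9,
  .pos 30]

def chk4 {α : Type} (cst : Z → α) (add sub mul : α → α → α) (scale : Z → α → α)
    (neg inv exp log : α → α) (ok : α → Bool) (isPos : Nat → α → Bool) (isLt : α → Nat → Bool) :
    List α → Bool
  | [x0, x1, x2, x3] =>
  let v0 := cst ⟨1099511627776, 0, 0, 0⟩; ok v0 && (
  let v1 := cst ⟨549755813888, 0, 0, 0⟩; ok v1 && (
  let v2 := mul x1 x2; ok v2 && (
  let v3 := mul v2 x3; ok v3 && (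
  let v4 := scale ⟨549755813888, 0, 0, 0⟩ v3; ok v4 && (
  let v5 := mul x2 x2; ok v5 && (
  let v6 := mul v4 v4; ok v6 && (
  let v7 := sub v0 v6; ok v7 && (
  let v8 := inv v7; ok v8 && (
  let v9 := mul v4 v8; ok v9 && (
  let v10 := scale ⟨2199023255552, 0, 0, 0⟩ v9; ok v10 && (
  let v11 := scale ⟨2199023255552, 0, 0, 0⟩ v8; ok v11 && (
  let v12 := sub v11 v0; ok v12 && (
  let v13 := add v12 v10; ok v13 && (
  let v14 := mul x3 v8; ok v14 && (
  let v15 := mul x2 v14; ok v15 && (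
  let v16 := sub v0 v15; ok v16 && (
  let v17 := add v0 v15; ok v17 && (
  let v18 := scale ⟨10774999203840, 0, 0, 0⟩ v4; ok v18 && (
  let v19 := scale ⟨45768245248, 0, 0, 0⟩ v18; ok v19 && (
  let v20 := cst ⟨183207198720, 0, 0, 0⟩; ok v20 && (
  let v21 := add v19 v20; ok v21 && (
  let v22 := mul v18 v21; ok v22 && (
  let v23 := add v1 v22; ok v23 && (
  let v24 := mul v18 v23; ok v24 && (
  let v25 := add v0 v24; ok v25 && (
  let v26 := mul v18 v25; ok v26 && (
  let v27 := scale ⟨549755813888, 0, 0, 0⟩ v26; ok v27 && (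
  let v28 := add v0 v27; ok v28 && (
  let v29 := mul v25 v28; ok v29 && (
  let v30 := mul x1 v5; ok v30 && (
  let v31 := mul v10 v15; ok v31 && (
  let v32 := scale ⟨2199023255552, 0, 0, 0⟩ v12; ok v32 && (
  let v33 := add v31 v32; ok v33 && (
  let v34 := add v33 x1; ok v34 && (
  let v35 := mul v30 v34; ok v35 && (
  let v36 := add v35 v0; ok v36 && (
  let v37 := mul v10 v10; ok v37 && (
  let v38 := scale ⟨2199023255552, 0, 0, 0⟩ v37; ok v38 && (
  let v39 := add v38 v0; ok v39 && (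
  let v40 := mul v12 v34; ok v40 && (
  let v41 := sub v40 v0; ok v41 && (
  let v42 := log v36; ok v42 && (
  let v43 := scale ⟨549755813888, 0, 0, 0⟩ v42; ok v43 && (
  let v44 := exp v43; ok v44 && (
  let v45 := scale ⟨549755813888, 0, 0, 0⟩ x0; ok v45 && (
  let v46 := mul v45 v42; ok v46 && (
  let v47 := neg v46; ok v47 && (
  let v48 := exp v47; ok v48 && (
  let v49 := mul v12 v30; ok v49 && (
  let v50 := mul v49 v41; ok v50 && (
  let v51 := scale ⟨4398046511104, 0, 0, 0⟩ v50; ok v51 && (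
  let v52 := add v51 v0; ok v52 && (
  let v53 := log v52; ok v53 && (
  let v54 := sub v53 v42; ok v54 && (
  let v55 := mul v45 v54; ok v55 && (
  let v56 := neg v55; ok v56 && (
  let v57 := exp v56; ok v57 && (
  let v58 := mul v15 v10; ok v58 && (
  let v59 := add v12 v58; ok v59 && (
  let v60 := inv v59; ok v60 && (
  let v61 := mul v17 v60; ok v61 && (
  let v62 := mul v16 x1; ok v62 && (
  let v63 := mul v62 v61; ok v63 && (
  let v64 := mul v14 v14; ok v64 && (
  let v65 := sub v0 v5; ok v65 && (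
  let v66 := mul v64 v65; ok v66 && (
  let v67 := mul v2 v2; ok v67 && (
  let v68 := add v12 v30; ok v68 && (
  let v69 := inv v68; ok v69 && (
  let v70 := mul v69 x0; ok v70 && (
  let v71 := mul v70 v70; ok v71 && (
  let v72 := mul v67 v65; ok v72 && (
  let v73 := sub v0 v64; ok v73 && (
  let v74 := mul v72 v73; ok v74 && (
  let v75 := mul v71 v74; ok v75 && (
  let v76 := inv x0; ok v76 && (
  let v77 := cst ⟨45812285440, 0, 0, 0⟩; ok v77 && (
  let v78 := scale ⟨1527119872, 0, 0, 0⟩ v75; ok v78 && (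
  let v79 := sub v77 v78; ok v79 && (
  let v80 := mul v75 v79; ok v80 && (
  let v81 := sub v1 v80; ok v81 && (
  let v82 := mul v75 v81; ok v82 && (
  let v83 := sub v0 v82; ok v83 && (
  let v84 := add v48 v0; ok v84 && (
  let v85 := mul v48 v48; ok v85 && (
  let v86 := add v85 v0; ok v86 && (
  let v87 := mul v48 v83; ok v87 && (
  let v88 := scale ⟨2199023255552, 0, 0, 0⟩ v87; ok v88 && (
  let v89 := add v86 v88; ok v89 && (
  let v90 := inv v84; ok v90 && (
  let v91 := mul v89 v90; ok v91 && (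
  let v92 := add v91 v84; ok v92 && (
  let v93 := mul v48 v63; ok v93 && (
  let v94 := scale ⟨549755813888, 0, 0, 0⟩ v93; ok v94 && (
  let v95 := mul v94 v92; ok v95 && (
  let v96 := sub v89 v95; ok v96 && (
  isPos 4 v89 && (
  isPos 4 v96 && (
  let v97 := inv v96; ok v97 && (
  let v98 := mul v45 v34; ok v98 && (
  let v99 := cst ⟨6597069766656, 0, 0, 0⟩; ok v99 && (
  let v100 := add v35 v99; ok v100 && (
  let v101 := mul v98 v100; ok v101 && (
  let v102 := scale ⟨4398046511104, 0, 0, 0⟩ v35; ok v102 && (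
  let v103 := add v102 v99; ok v103 && (
  let v104 := inv v103; ok v104 && (
  let v105 := mul v101 v104; ok v105 && (
  let v106 := sub v0 v48; ok v106 && (
  let v107 := mul v106 v84; ok v107 && (
  let v108 := mul v107 v97; ok v108 && (
  let v109 := scale ⟨549755813888, 0, 0, 0⟩ v108; ok v109 && (
  let v110 := add v109 v1; ok v110 && (
  let v111 := inv v110; ok v111 && (
  let v112 := mul v109 v111; ok v112 && (
  let v113 := mul v94 v109; ok v113 && (
  let v114 := add v113 v1; ok v114 && (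
  let v115 := mul v114 v92; ok v115 && (
  let v116 := inv v89; ok v116 && (
  let v117 := mul v115 v116; ok v117 && (
  let v118 := mul v63 v112; ok v118 && (
  let v119 := scale ⟨549755813888, 0, 0, 0⟩ v118; ok v119 && (
  let v120 := sub v0 v119; ok v120 && (
  let v121 := sub v0 v118; ok v121 && (
  let v122 := inv v121; ok v122 && (
  let v123 := mul v120 v122; ok v123 && (
  let v124 := add v118 v0; ok v124 && (
  let v125 := mul v48 v124; ok v125 && (
  let v126 := mul v16 v17; ok v126 && (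
  let v127 := add v12 x1; ok v127 && (
  let v128 := mul v15 v12; ok v128 && (
  let v129 := mul v128 v10; ok v129 && (
  let v130 := scale ⟨2199023255552, 0, 0, 0⟩ v129; ok v130 && (
  let v131 := add v39 v130; ok v131 && (
  let v132 := mul v127 v131; ok v132 && (
  let v133 := inv v132; ok v133 && (
  let v134 := mul v126 v133; ok v134 && (
  let v135 := mul x1 v134; ok v135 && (
  let v136 := inv v36; ok v136 && (
  let v137 := mul v75 v136; ok v137 && (
  let v138 := scale ⟨1527119872, 0, 0, 0⟩ v137; ok v138 && (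
  let v139 := sub v77 v138; ok v139 && (
  let v140 := mul v137 v139; ok v140 && (
  let v141 := sub v1 v140; ok v141 && (
  let v142 := mul v137 v141; ok v142 && (
  let v143 := sub v0 v142; ok v143 && (
  let v144 := add v57 v0; ok v144 && (
  let v145 := mul v57 v57; ok v145 && (
  let v146 := add v145 v0; ok v146 && (
  let v147 := mul v57 v143; ok v147 && (
  let v148 := scale ⟨2199023255552, 0, 0, 0⟩ v147; ok v148 && (
  let v149 := add v146 v148; ok v149 && (
  let v150 := inv v144; ok v150 && (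
  let v151 := mul v149 v150; ok v151 && (
  let v152 := add v151 v144; ok v152 && (
  let v153 := mul v57 v135; ok v153 && (
  let v154 := scale ⟨549755813888, 0, 0, 0⟩ v153; ok v154 && (
  let v155 := mul v154 v152; ok v155 && (
  let v156 := sub v149 v155; ok v156 && (
  isPos 4 v149 && (
  isPos 4 v156 && (
  let v157 := sub v0 v57; ok v157 && (
  let v158 := mul v157 v144; ok v158 && (
  let v159 := inv v156; ok v159 && (
  let v160 := mul v158 v159; ok v160 && (
  let v161 := scale ⟨549755813888, 0, 0, 0⟩ v160; ok v161 && (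
  let v162 := add v161 v1; ok v162 && (
  let v163 := inv v162; ok v163 && (
  let v164 := mul v161 v163; ok v164 && (
  let v165 := mul v135 v164; ok v165 && (
  let v166 := add v4 v0; ok v166 && (
  let v167 := inv v166; ok v167 && (
  let v168 := mul v4 v167; ok v168 && (
  let v169 := scale ⟨2199023255552, 0, 0, 0⟩ v168; ok v169 && (
  let v170 := sub v0 v169; ok v170 && (
  let v171 := sub v0 v4; ok v171 && (
  let v172 := mul x3 v167; ok v172 && (
  let v173 := mul v172 v170; ok v173 && (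
  let v174 := add v17 v173; ok v174 && (
  let v175 := mul x0 v10; ok v175 && (
  let v176 := scale ⟨274877906944, 0, 0, 0⟩ x0; ok v176 && (
  let v177 := cst ⟨2199023255552, 0, 0, 0⟩; ok v177 && (
  let v178 := add v176 v177; ok v178 && (
  let v179 := mul v178 v178; ok v179 && (
  let v180 := mul v175 v175; ok v180 && (
  let v181 := cst ⟨7696581394432, 0, 0, 0⟩; ok v181 && (
  let v182 := cst ⟨10995116277760, 0, 0, 0⟩; ok v182 && (
  let v183 := inv v182; ok v183 && (
  let v184 := mul v181 v183; ok v184 && (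
  let v185 := mul v180 v184; ok v185 && (
  let v186 := add v179 v185; ok v186 && (
  let v187 := mul v179 v178; ok v187 && (
  let v188 := inv v186; ok v188 && (
  let v189 := mul v187 v188; ok v189 && (
  let v190 := inv v187; ok v190 && (
  let v191 := mul v186 v190; ok v191 && (
  let v192 := scale ⟨224412041216, 0, 0, 0⟩ v8; ok v192 && (
  let v193 := inv v29; ok v193 && (
  let v194 := mul v192 v193; ok v194 && (
  let v195 := mul v189 v17; ok v195 && (
  let v196 := mul v195 v194; ok v196 && (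
  let v197 := mul v2 v196; ok v197 && (
  let v198 := sub v0 v197; ok v198 && (
  let v199 := inv v198; ok v199 && (
  let v200 := mul v125 v197; ok v200 && (
  let v201 := sub v0 v200; ok v201 && (
  let v202 := inv v201; ok v202 && (
  let v203 := mul v16 v112; ok v203 && (
  let v204 := inv v15; ok v204 && (
  let v205 := mul v203 v204; ok v205 && (
  let v206 := scale ⟨549755813888, 0, 0, 0⟩ v205; ok v206 && (
  let v207 := sub v0 v206; ok v207 && (
  let v208 := sub v0 v205; ok v208 && (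
  let v209 := inv v208; ok v209 && (
  let v210 := mul v207 v209; ok v210 && (
  let v211 := mul v112 v210; ok v211 && (
  let v212 := inv x2; ok v212 && (
  let v213 := mul v211 v212; ok v213 && (
  let v214 := mul v205 v210; ok v214 && (
  isPos 4 v208 && (
  let v215 := mul v214 v76; ok v215 && (
  let v216 := scale ⟨1374389534720, 0, 0, 0⟩ v215; ok v216 && (
  let v217 := sub v1 v216; ok v217 && (
  isPos 4 v217 && (
  let v218 := scale ⟨3092376453120, 0, 0, 0⟩ v215; ok v218 && (
  let v219 := add v218 v177; ok v219 && (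
  let v220 := mul v215 v219; ok v220 && (
  let v221 := add v0 v220; ok v221 && (
  let v222 := scale ⟨1546188226560, 0, 0, 0⟩ v215; ok v222 && (
  let v223 := add v222 v0; ok v223 && (
  let v224 := mul v215 v223; ok v224 && (
  let v225 := add v0 v224; ok v225 && (
  let v226 := mul v4 v14; ok v226 && (
  let v227 := sub v0 v66; ok v227 && (
  let v228 := mul v4 v15; ok v228 && (
  let v229 := scale ⟨2199023255552, 0, 0, 0⟩ v228; ok v229 && (
  let v230 := sub v227 v229; ok v230 && (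
  let v231 := mul v226 v226; ok v231 && (
  let v232 := add v230 v231; ok v232 && (
  let v233 := add v232 v0; ok v233 && (
  let v234 := scale ⟨549755813888, 0, 0, 0⟩ v233; ok v234 && (
  let v235 := scale ⟨549755813888, 0, 0, 0⟩ v30; ok v235 && (
  let v236 := sub v8 v235; ok v236 && (
  let v237 := mul v67 v227; ok v237 && (
  let v238 := mul v237 v7; ok v238 && (
  let v239 := scale ⟨137438953472, 0, 0, 0⟩ v238; ok v239 && (
  let v240 := add v236 v239; ok v240 && (
  let v241 := mul v234 v240; ok v241 && (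
  let v242 := mul v118 v123; ok v242 && (
  let v243 := add v125 v0; ok v243 && (
  let v244 := mul v243 v199; ok v244 && (
  let v245 := mul v125 v202; ok v245 && (
  let v246 := add v244 v245; ok v246 && (
  let v247 := mul v197 v246; ok v247 && (
  let v248 := add v242 v247; ok v248 && (
  let v249 := mul v248 v76; ok v249 && (
  let v250 := mul v243 v197; ok v250 && (
  let v251 := mul v250 v199; ok v251 && (
  let v252 := add v242 v251; ok v252 && (
  let v253 := mul v252 v76; ok v253 && (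
  let v254 := scale ⟨223338299392, 0, 0, 0⟩ v253; ok v254 && (
  let v255 := add v1 v254; ok v255 && (
  let v256 := mul v253 v255; ok v256 && (
  let v257 := add v0 v256; ok v257 && (
  let v258 := scale ⟨893353197568, 0, 0, 0⟩ v249; ok v258 && (
  let v259 := add v0 v258; ok v259 && (
  let v260 := mul v249 v259; ok v260 && (
  let v261 := add v0 v260; ok v261 && (
  let v262 := mul v169 v172; ok v262 && (
  let v263 := mul v262 v221; ok v263 && (
  let v264 := mul v263 v261; ok v264 && (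
  let v265 := mul v241 v257; ok v265 && (
  let v266 := add v44 v1; ok v266 && (
  let v267 := mul v264 v266; ok v267 && (
  let v268 := add v265 v267; ok v268 && (
  let v269 := add v44 v0; ok v269 && (
  let v270 := mul v264 v269; ok v270 && (
  let v271 := mul v225 v269; ok v271 && (
  let v272 := mul v271 v172; ok v272 && (
  let v273 := mul v272 v171; ok v273 && (
  let v274 := mul v2 v174; ok v274 && (
  let v275 := inv v44; ok v275 && (
  let v276 := mul v274 v275; ok v276 && (
  let v277 := scale ⟨549755813888, 0, 0, 0⟩ v276; ok v277 && (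
  let v278 := mul v61 v212; ok v278 && (
  let v279 := mul v278 v112; ok v279 && (
  let v280 := mul v279 v123; ok v280 && (
  let v281 := mul v16 v277; ok v281 && (
  let v282 := mul v268 v280; ok v282 && (
  let v283 := mul v273 v213; ok v283 && (
  let v284 := add v282 v283; ok v284 && (
  let v285 := mul v284 v76; ok v285 && (
  let v286 := add v281 v285; ok v286 && (
  let v287 := mul v268 v243; ok v287 && (
  let v288 := mul v287 v199; ok v288 && (
  let v289 := mul v270 v125; ok v289 && (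
  let v290 := mul v289 v202; ok v290 && (
  let v291 := add v288 v290; ok v291 && (
  let v292 := mul v291 v76; ok v292 && (
  let v293 := mul v16 v286; ok v293 && (
  let v294 := mul v196 v292; ok v294 && (
  let v295 := add v293 v294; ok v295 && (
  let v296 := mul v67 v295; ok v296 && (
  let v297 := mul v296 v275; ok v297 && (
  let v298 := sub v0 v297; ok v298 && (
  let v299 := inv v298; ok v299 && (
  let v300 := mul v295 v299; ok v300 && (
  let v301 := mul x1 v300; ok v301 && (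
  let v302 := mul v67 v300; ok v302 && (
  let v303 := mul v302 v275; ok v303 && (
  let v304 := sub v0 v303; ok v304 && (
  let v305 := mul v41 v304; ok v305 && (
  let v306 := sub v305 v301; ok v306 && (
  let v307 := inv v306; ok v307 && (
  let v308 := mul v301 v307; ok v308 && (
  let v309 := sub v0 v301; ok v309 && (
  let v310 := inv v309; ok v310 && (
  let v311 := inv v30; ok v311 && (
  let v312 := mul v242 v311; ok v312 && (
  let v313 := add v105 v312; ok v313 && (
  let v314 := mul v313 v310; ok v314 && (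
  let v315 := mul v314 v302; ok v315 && (
  let v316 := scale ⟨223338299392, 0, 0, 0⟩ v315; ok v316 && (
  let v317 := add v1 v316; ok v317 && (
  let v318 := mul v315 v317; ok v318 && (
  let v319 := add v0 v318; ok v319 && (
  let v320 := mul v315 v319; ok v320 && (
  let v321 := mul v320 v117; ok v321 && (
  let v322 := mul v321 v125; ok v322 && (
  let v323 := sub v0 v322; ok v323 && (
  let v324 := mul v314 v319; ok v324 && (
  let v325 := mul v324 v299; ok v325 && (
  let v326 := mul v325 v76; ok v326 && (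
  let v327 := inv v323; ok v327 && (
  let v328 := mul v326 v327; ok v328 && (
  let v329 := mul v328 x2; ok v329 && (
  let v330 := mul v268 v199; ok v330 && (
  let v331 := mul v270 v117; ok v331 && (
  let v332 := mul v331 v125; ok v332 && (
  let v333 := mul v332 v202; ok v333 && (
  let v334 := add v330 v333; ok v334 && (
  let v335 := mul v329 v334; ok v335 && (
  let v336 := mul v268 v61; ok v336 && (
  let v337 := mul v336 v212; ok v337 && (
  let v338 := mul v337 v109; ok v338 && (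
  let v339 := mul v338 v123; ok v339 && (
  let v340 := mul v328 v191; ok v340 && (
  let v341 := mul v340 x2; ok v341 && (
  let v342 := inv v17; ok v342 && (
  let v343 := mul v341 v342; ok v343 && (
  let v344 := mul x0 v117; ok v344 && (
  let v345 := mul v344 v16; ok v345 && (
  let v346 := mul v345 v277; ok v346 && (
  let v347 := add v346 v339; ok v347 && (
  let v348 := mul v117 v273; ok v348 && (
  let v349 := mul v348 v213; ok v349 && (
  let v350 := add v347 v349; ok v350 && (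
  let v351 := mul v343 v350; ok v351 && (
  let v352 := mul v189 v2; ok v352 && (
  let v353 := mul v352 v17; ok v353 && (
  let v354 := mul v353 v16; ok v354 && (
  let v355 := cst ⟨9895604649984, 0, 0, 0⟩; ok v355 && (
  let v356 := cst ⟨21990232555520, 0, 0, 0⟩; ok v356 && (
  let v357 := inv v356; ok v357 && (
  let v358 := mul v355 v357; ok v358 && (
  let v359 := add v165 v0; ok v359 && (
  let v360 := mul v165 v359; ok v360 && (
  let v361 := add v55 v360; ok v361 && (
  let v362 := mul v308 v361; ok v362 && (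
  let v363 := mul v57 v359; ok v363 && (
  let v364 := scale ⟨687194767360, 0, 0, 0⟩ v362; ok v364 && (
  let v365 := add v0 v364; ok v365 && (
  let v366 := mul v362 v365; ok v366 && (
  let v367 := add v0 v366; ok v367 && (
  let v368 := mul v363 v367; ok v368 && (
  let v369 := add v10 x1; ok v369 && (
  let v370 := mul v166 v369; ok v370 && (
  let v371 := mul v370 v358; ok v371 && (
  let v372 := add v0 v371; ok v372 && (
  let v373 := inv v372; ok v373 && (
  let v374 := mul v368 v373; ok v374 && (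
  let v375 := mul v374 v13; ok v375 && (
  let v376 := mul v2 v300; ok v376 && (
  let v377 := mul v376 v342; ok v377 && (
  let v378 := add v0 v377; ok v378 && (
  let v379 := mul v375 v378; ok v379 && (
  let v380 := sub v44 v302; ok v380 && (
  let v381 := inv v380; ok v381 && (
  let v382 := mul v379 v381; ok v382 && (
  let v383 := mul x1 v335; ok v383 && (
  let v384 := mul v383 v197; ok v384 && (
  let v385 := mul x1 v354; ok v385 && (
  let v386 := mul v351 v385; ok v386 && (
  let v387 := add v384 v386; ok v387 && (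
  let v388 := add v383 v351; ok v388 && (
  let v389 := add v0 v387; ok v389 && (
  let v390 := mul v382 v389; ok v390 && (
  let v391 := add v388 v390; ok v391 && (
  let v392 := sub v0 v391; ok v392 && (
  let v393 := scale ⟨1073741824, 0, 0, 0⟩ x1; ok v393 && (
  let v394 := sub v392 v393; ok v394 && (
  let v395 := sub v13 v0; ok v395 && (
  let v396 := add v395 v177; ok v396 && (
  let v397 := scale ⟨2199023255552, 0, 0, 0⟩ v358; ok v397 && (
  let v398 := sub v396 v397; ok v398 && (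
  let v399 := mul v166 v398; ok v399 && (
  let v400 := mul v395 v397; ok v400 && (
  let v401 := add v400 v0; ok v401 && (
  let v402 := inv v401; ok v402 && (
  let v403 := mul v399 v402; ok v403 && (
  let v404 := mul v189 v292; ok v404 && (
  let v405 := scale ⟨549755813888, 0, 0, 0⟩ v194; ok v405 && (
  let v406 := add v10 v405; ok v406 && (
  let v407 := mul v404 v406; ok v407 && (
  let v408 := scale ⟨2199023255552, 0, 0, 0⟩ v407; ok v408 && (
  let v409 := add v286 v408; ok v409 && (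
  let v410 := scale ⟨2199023255552, 0, 0, 0⟩ v409; ok v410 && (
  let v411 := mul v410 v299; ok v411 && (
  let v412 := sub v17 v376; ok v412 && (
  let v413 := inv v412; ok v413 && (
  let v414 := mul v411 v413; ok v414 && (
  let v415 := sub v403 v414; ok v415 && (
  isPos 4 v198 && (
  isPos 4 v201 && (
  let v416 := scale ⟨2199023255552, 0, 0, 0⟩ v296; ok v416 && (
  let v417 := sub v44 v416; ok v417 && (
  isPos 4 v417 && (
  isPos 4 v306 && (
  isPos 4 v121 && (
  let v418 := sub v1 v165; ok v418 && (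
  isPos 4 v418 && (
  let v419 := scale ⟨687194767360, 0, 0, 0⟩ v0; ok v419 && (
  let v420 := sub v419 v253; ok v420 && (
  isPos 4 v420 && (
  let v421 := scale ⟨377957122048, 0, 0, 0⟩ v0; ok v421 && (
  let v422 := sub v421 v249; ok v422 && (
  isPos 4 v422 && (
  isPos 4 v412 && (
  let v423 := sub v1 v362; ok v423 && (
  isPos 4 v423 && (
  isPos 4 v309 && (
  isPos 4 v323 && (
  let v424 := sub v419 v315; ok v424 && (
  isPos 4 v424 && (
  isPos 4 v415 && (
  isPos 4 v394 && (
  true))))))))))))))))))))))))))))))))))))))))))))))))))))))))))))))))))))))))))))))))))))))))))))))))))))))))))))))))))))))))))))))))))))))))))))))))))))))))))))))))))))))))))))))))))))))))))))))))))))))))))))))))))))))))))))))))))))))))))))))))))))))))))))))))))))))))))))))))))))))))))))))))))))))))))))))))))))))))))))))))))))))))))))))))))))))))))))))))))))))))))))))))))))))))))))))))))))))))))))))))))))))))))))))))))))))))))))))))))))))))))))))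
  | _ => false

set_option maxRecDepth 1000000 in
theorem chk4_eq (O : Ops) (m : List O.α)
    (h : chk4 O.cst O.add O.sub O.mul O.scale O.neg O.inv O.exp O.log O.ok O.isPos O.isLt m = true) :
    runG O 4 prog4 m = true := by
  match m, h with
  | [x0, x1, x2, x3], h => exact h

def chkB4 : List opsE.α → Bool :=
  chk4 opsE.cst opsE.add opsE.sub opsE.mul opsE.scale opsE.neg opsE.inv opsE.exp opsE.log opsE.ok opsE.isPos opsE.isLt

theorem chkB4_eq (m : List opsE.α) (h : chkB4 m = true) : runG opsE 4 prog4 m = true :=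
  chk4_eq opsE m h

def prog5 : List Op := [
  .const ⟨1099511627776, 0, 0, 0⟩,
  .const ⟨549755813888, 0, 0, 0⟩,
  .mul 3 4,
  .mul 0 6,
  .scale ⟨549755813888, 0, 0, 0⟩ 0,
  .mul 7 7,
  .mul 1 1,
  .sub 6 0,
  .inv 0,
  .mul 4 0,
  .scale ⟨2199023255552, 0, 0, 0⟩ 0,
  .scale ⟨2199023255552, 0, 0, 0⟩ 2,
  .sub 0 11,
  .add 0 2,
  .mul 17 5,
  .mul 17 0,
  .sub 15 0,
  .add 16 1,
  .scale ⟨10774999203840, 0, 0, 0⟩ 13,
  .scale ⟨45768245248, 0, 0, 0⟩ 0,
  .const ⟨183207198720, 0, 0, 0⟩,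
  .add 1 0,
  .mul 3 0,
  .add 21 0,
  .mul 5 0,
  .add 24 0,
  .mul 7 0,
  .scale ⟨549755813888, 0, 0, 0⟩ 0,
  .add 27 0,
  .mul 3 0,
  .mul 31 24,
  .mul 20 15,
  .scale ⟨2199023255552, 0, 0, 0⟩ 19,
  .add 1 0,
  .add 0 35,
  .mul 4 0,
  .add 0 35,
  .mul 26 26,
  .scale ⟨2199023255552, 0, 0, 0⟩ 0,
  .add 0 38,
  .mul 27 5,
  .sub 0 40,
  .log 5,
  .scale ⟨549755813888, 0, 0, 0⟩ 0,
  .exp 0,
  .scale ⟨549755813888, 0, 0, 0⟩ 45,
  .mul 0 3,
  .neg 0,
  .exp 0,
  .mul 36 18,
  .mul 0 8,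
  .scale ⟨4398046511104, 0, 0, 0⟩ 0,
  .add 0 51,
  .log 0,
  .sub 0 11,
  .mul 9 0,
  .neg 0,
  .exp 0,
  .mul 42 47,
  .add 46 0,
  .inv 0,
  .mul 43 0,
  .mul 45 63,
  .mul 0 1,
  .mul 49 49,
  .sub 64 59,
  .mul 1 0,
  .mul 64 64,
  .add 55 37,
  .inv 0,
  .mul 0 70,
  .mul 0 0,
  .mul 4 6,
  .sub 72 8,
  .mul 1 0,
  .mul 3 0,
  .inv 76,
  .const ⟨45812285440, 0, 0, 0⟩,
  .scale ⟨1527119872, 0, 0, 0⟩ 2,
  .sub 1 0,
  .mul 4 0,
  .sub 79 0,
  .mul 6 0,
  .sub 82 0,
  .add 35 83,
  .mul 36 36,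
  .add 0 85,
  .mul 38 3,
  .scale ⟨2199023255552, 0, 0, 0⟩ 0,
  .add 2 0,
  .inv 5,
  .mul 1 0,
  .add 0 7,
  .mul 44 29,
  .scale ⟨549755813888, 0, 0, 0⟩ 0,
  .mul 0 2,
  .sub 6 0,
  .pos 7,
  .pos 0,
  .inv 0,
  .mul 52 63,
  .const ⟨6597069766656, 0, 0, 0⟩,
  .add 64 0,
  .mul 2 0,
  .scale ⟨4398046511104, 0, 0, 0⟩ 66,
  .add 0 3,
  .inv 0,
  .mul 3 0,
  .sub 105 57,
  .mul 0 22,
  .mul 0 10,
  .scale ⟨549755813888, 0, 0, 0⟩ 0,
  .add 0 108,
  .inv 0,
  .mul 2 0,
  .mul 18 3,
  .add 0 112,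
  .mul 0 22,
  .inv 26,
  .mul 1 0,
  .mul 54 5,
  .scale ⟨549755813888, 0, 0, 0⟩ 0,
  .sub 119 0,
  .sub 120 2,
  .inv 0,
  .mul 2 0,
  .add 5 123,
  .mul 76 0,
  .mul 109 108,
  .add 114 128,
  .mul 112 115,
  .mul 0 118,
  .scale ⟨2199023255552, 0, 0, 0⟩ 0,
  .add 91 0,
  .mul 4 0,
  .inv 0,
  .mul 7 0,
  .mul 136 0,
  .inv 99,
  .mul 61 0,
  .scale ⟨1527119872, 0, 0, 0⟩ 0,
  .sub 61 0,
  .mul 2 0,
  .sub 139 0,
  .mul 4 0,
  .sub 142 0,
  .add 86 143,
  .mul 87 87,
  .add 0 145,
  .mul 89 3,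
  .scale ⟨2199023255552, 0, 0, 0⟩ 0,
  .add 2 0,
  .inv 5,
  .mul 1 0,
  .add 0 7,
  .mul 95 17,
  .scale ⟨549755813888, 0, 0, 0⟩ 0,
  .mul 0 2,
  .sub 6 0,
  .pos 7,
  .pos 0,
  .sub 156 99,
  .mul 0 13,
  .inv 2,
  .mul 1 0,
  .scale ⟨549755813888, 0, 0, 0⟩ 0,
  .add 0 160,
  .inv 0,
  .mul 2 0,
  .mul 29 0,
  .add 161 165,
  .inv 0,
  .mul 163 0,
  .scale ⟨2199023255552, 0, 0, 0⟩ 0,
  .sub 169 0,
  .sub 170 166,
  .mul 175 4,
  .mul 0 2,
  .add 156 0,
  .mul 175 164,
  .scale ⟨274877906944, 0, 0, 0⟩ 176,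
  .const ⟨2199023255552, 0, 0, 0⟩,
  .add 1 0,
  .mul 0 0,
  .mul 4 4,
  .const ⟨7696581394432, 0, 0, 0⟩,
  .const ⟨10995116277760, 0, 0, 0⟩,
  .inv 0,
  .mul 2 0,
  .mul 4 0,
  .add 6 0,
  .mul 7 8,
  .inv 1,
  .mul 1 0,
  .inv 2,
  .mul 4 0,
  .scale ⟨224412041216, 0, 0, 0⟩ 183,
  .inv 163,
  .mul 1 0,
  .mul 5 177,
  .mul 0 1,
  .mul 194 0,
  .sub 197 0,
  .inv 0,
  .mul 74 2,
  .sub 200 0,
  .inv 0,
  .scale ⟨3573412790272, 0, 0, 0⟩ 188,
  .inv 206,
  .scale ⟨339302416384, 0, 0, 0⟩ 0,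
  .add 2 0,
  .scale ⟨549755813888, 0, 0, 0⟩ 0,
  .scale ⟨2199023255552, 0, 0, 0⟩ 131,
  .add 0 208,
  .add 133 209,
  .mul 206 196,
  .sub 211 145,
  .mul 208 197,
  .scale ⟨2199023255552, 0, 0, 0⟩ 0,
  .sub 2 0,
  .mul 4 4,
  .add 1 0,
  .add 0 217,
  .scale ⟨549755813888, 0, 0, 0⟩ 0,
  .scale ⟨549755813888, 0, 0, 0⟩ 189,
  .sub 212 0,
  .mul 154 9,
  .mul 0 215,
  .scale ⟨137438953472, 0, 0, 0⟩ 0,
  .add 3 0,
  .mul 6 0,
  .mul 108 103,
  .add 102 227,
  .mul 0 29,
  .mul 104 27,
  .add 1 0,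
  .mul 34 0,
  .add 5 0,
  .mul 0 157,
  .mul 6 37,
  .mul 0 36,
  .add 9 0,
  .mul 0 161,
  .scale ⟨223338299392, 0, 0, 0⟩ 0,
  .add 238 0,
  .mul 2 0,
  .add 241 0,
  .scale ⟨893353197568, 0, 0, 0⟩ 8,
  .add 243 0,
  .mul 10 0,
  .add 245 0,
  .mul 77 74,
  .mul 0 38,
  .mul 0 2,
  .mul 23 7,
  .add 206 249,
  .mul 2 0,
  .add 2 0,
  .add 209 253,
  .mul 5 0,
  .mul 45 1,
  .mul 0 84,
  .mul 0 86,
  .mul 256 84,
  .inv 215,
  .mul 1 0,
  .scale ⟨549755813888, 0, 0, 0⟩ 0,
  .mul 201 58,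
  .mul 0 151,
  .mul 0 141,
  .mul 249 3,
  .mul 13 1,
  .mul 9 60,
  .add 1 0,
  .mul 0 193,
  .add 4 0,
  .mul 18 43,
  .mul 0 73,
  .mul 18 148,
  .mul 0 72,
  .add 2 0,
  .mul 0 200,
  .mul 261 6,
  .mul 82 1,
  .add 1 0,
  .mul 213 0,
  .mul 0 21,
  .sub 282 0,
  .inv 0,
  .mul 4 0,
  .mul 287 0,
  .mul 219 1,
  .mul 0 27,
  .sub 288 0,
  .mul 248 0,
  .sub 0 4,
  .inv 0,
  .mul 6 0,
  .sub 293 7,
  .inv 0,
  .inv 265,
  .mul 69 0,
  .add 192 0,
  .mul 0 3,
  .mul 0 12,
  .scale ⟨223338299392, 0, 0, 0⟩ 0,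
  .add 300 0,
  .mul 2 0,
  .add 303 0,
  .mul 4 0,
  .mul 0 188,
  .mul 0 181,
  .sub 307 0,
  .mul 9 4,
  .mul 0 25,
  .mul 0 234,
  .inv 3,
  .mul 1 0,
  .mul 0 316,
  .mul 61 115,
  .mul 60 198,
  .mul 0 191,
  .mul 0 115,
  .add 3 0,
  .mul 5 0,
  .mul 67 259,
  .mul 0 117,
  .mul 0 213,
  .mul 0 200,
  .mul 11 133,
  .mul 0 328,
  .inv 309,
  .mul 1 0,
  .mul 329 211,
  .mul 0 313,
  .mul 0 68,
  .add 0 7,
  .mul 215 74,
  .mul 0 126,
  .add 2 0,
  .mul 7 0,
  .mul 147 334,
  .mul 0 320,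
  .mul 0 322,
  .const ⟨9895604649984, 0, 0, 0⟩,
  .const ⟨21990232555520, 0, 0, 0⟩,
  .inv 0,
  .mul 2 0,
  .add 178 343,
  .mul 179 0,
  .add 290 0,
  .mul 53 0,
  .mul 290 3,
  .scale ⟨687194767360, 0, 0, 0⟩ 1,
  .add 349 0,
  .mul 3 0,
  .add 351 0,
  .mul 4 0,
  .add 343 355,
  .mul 188 0,
  .mul 0 12,
  .add 356 0,
  .inv 0,
  .mul 5 0,
  .mul 0 346,
  .mul 358 75,
  .mul 0 34,
  .add 362 0,
  .mul 3 0,
  .sub 320 77,
  .inv 0,
  .mul 2 0,
  .mul 369 47,
  .mul 0 171,
  .mul 371 30,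
  .mul 34 0,
  .add 2 0,
  .add 4 36,
  .add 373 1,
  .mul 7 0,
  .add 2 0,
  .sub 376 0,
  .scale ⟨1073741824, 0, 0, 0⟩ 379,
  .sub 1 0,
  .sub 366 379,
  .add 0 203,
  .scale ⟨2199023255552, 0, 0, 0⟩ 38,
  .sub 1 0,
  .mul 217 0,
  .mul 4 2,
  .add 0 385,
  .inv 0,
  .mul 3 0,
  .mul 199 111,
  .scale ⟨549755813888, 0, 0, 0⟩ 195,
  .add 380 0,
  .mul 2 0,
  .scale ⟨2199023255552, 0, 0, 0⟩ 0,
  .add 122 0,
  .scale ⟨2199023255552, 0, 0, 0⟩ 0,
  .mul 0 111,
  .sub 379 35,
  .inv 0,
  .mul 2 0,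
  .sub 11 0,
  .pos 202,
  .pos 199,
  .scale ⟨2199023255552, 0, 0, 0⟩ 119,
  .sub 357 0,
  .pos 0,
  .pos 111,
  .pos 281,
  .sub 401 237,
  .pos 0,
  .scale ⟨687194767360, 0, 0, 0⟩ 403,
  .sub 0 166,
  .pos 0,
  .scale ⟨377957122048, 0, 0, 0⟩ 405,
  .sub 0 172,
  .pos 0,
  .pos 10,
  .sub 406 60,
  .pos 0,
  .pos 114,
  .pos 100,
  .sub 4 108,
  .pos 0,
  .pos 9,
  .pos 30]

def chk5 {α : Type} (cst : Z → α) (add sub mul : α → α → α) (scale : Z → α → α)
    (neg inv exp log : α → α) (ok : α → Bool) (isPos : Nat → α → Bool) (isLt : α → Nat → Bool) :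
    List α → Bool
  | [x0, x1, x2, x3] =>
  let v0 := cst ⟨1099511627776, 0, 0, 0⟩; ok v0 && (
  let v1 := cst ⟨549755813888, 0, 0, 0⟩; ok v1 && (
  let v2 := mul x1 x2; ok v2 && (
  let v3 := mul v2 x3; ok v3 && (
  let v4 := scale ⟨549755813888, 0, 0, 0⟩ v3; ok v4 && (
  let v5 := mul x2 x2; ok v5 && (
  let v6 := mul v4 v4; ok v6 && (
  let v7 := sub v0 v6; ok v7 && (
  let v8 := inv v7; ok v8 && (
  let v9 := mul v4 v8; ok v9 && (
  let v10 := scale ⟨2199023255552, 0, 0, 0⟩ v9; ok v10 && (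
  let v11 := scale ⟨2199023255552, 0, 0, 0⟩ v8; ok v11 && (
  let v12 := sub v11 v0; ok v12 && (
  let v13 := add v12 v10; ok v13 && (
  let v14 := mul x3 v8; ok v14 && (
  let v15 := mul x2 v14; ok v15 && (
  let v16 := sub v0 v15; ok v16 && (
  let v17 := add v0 v15; ok v17 && (
  let v18 := scale ⟨10774999203840, 0, 0, 0⟩ v4; ok v18 && (
  let v19 := scale ⟨45768245248, 0, 0, 0⟩ v18; ok v19 && (
  let v20 := cst ⟨183207198720, 0, 0, 0⟩; ok v20 && (
  let v21 := add v19 v20; ok v21 && (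
  let v22 := mul v18 v21; ok v22 && (
  let v23 := add v1 v22; ok v23 && (
  let v24 := mul v18 v23; ok v24 && (
  let v25 := add v0 v24; ok v25 && (
  let v26 := mul v18 v25; ok v26 && (
  let v27 := scale ⟨549755813888, 0, 0, 0⟩ v26; ok v27 && (
  let v28 := add v0 v27; ok v28 && (
  let v29 := mul v25 v28; ok v29 && (
  let v30 := mul x1 v5; ok v30 && (
  let v31 := mul v10 v15; ok v31 && (
  let v32 := scale ⟨2199023255552, 0, 0, 0⟩ v12; ok v32 && (
  let v33 := add v31 v32; ok v33 && (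
  let v34 := add v33 x1; ok v34 && (
  let v35 := mul v30 v34; ok v35 && (
  let v36 := add v35 v0; ok v36 && (
  let v37 := mul v10 v10; ok v37 && (
  let v38 := scale ⟨2199023255552, 0, 0, 0⟩ v37; ok v38 && (
  let v39 := add v38 v0; ok v39 && (
  let v40 := mul v12 v34; ok v40 && (
  let v41 := sub v40 v0; ok v41 && (
  let v42 := log v36; ok v42 && (
  let v43 := scale ⟨549755813888, 0, 0, 0⟩ v42; ok v43 && (
  let v44 := exp v43; ok v44 && (
  let v45 := scale ⟨549755813888, 0, 0, 0⟩ x0; ok v45 && (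
  let v46 := mul v45 v42; ok v46 && (
  let v47 := neg v46; ok v47 && (
  let v48 := exp v47; ok v48 && (
  let v49 := mul v12 v30; ok v49 && (
  let v50 := mul v49 v41; ok v50 && (
  let v51 := scale ⟨4398046511104, 0, 0, 0⟩ v50; ok v51 && (
  let v52 := add v51 v0; ok v52 && (
  let v53 := log v52; ok v53 && (
  let v54 := sub v53 v42; ok v54 && (
  let v55 := mul v45 v54; ok v55 && (
  let v56 := neg v55; ok v56 && (
  let v57 := exp v56; ok v57 && (
  let v58 := mul v15 v10; ok v58 && (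
  let v59 := add v12 v58; ok v59 && (
  let v60 := inv v59; ok v60 && (
  let v61 := mul v17 v60; ok v61 && (
  let v62 := mul v16 x1; ok v62 && (
  let v63 := mul v62 v61; ok v63 && (
  let v64 := mul v14 v14; ok v64 && (
  let v65 := sub v0 v5; ok v65 && (
  let v66 := mul v64 v65; ok v66 && (
  let v67 := mul v2 v2; ok v67 && (
  let v68 := add v12 v30; ok v68 && (
  let v69 := inv v68; ok v69 && (
  let v70 := mul v69 x0; ok v70 && (
  let v71 := mul v70 v70; ok v71 && (
  let v72 := mul v67 v65; ok v72 && (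
  let v73 := sub v0 v64; ok v73 && (
  let v74 := mul v72 v73; ok v74 && (
  let v75 := mul v71 v74; ok v75 && (
  let v76 := inv x0; ok v76 && (
  let v77 := cst ⟨45812285440, 0, 0, 0⟩; ok v77 && (
  let v78 := scale ⟨1527119872, 0, 0, 0⟩ v75; ok v78 && (
  let v79 := sub v77 v78; ok v79 && (
  let v80 := mul v75 v79; ok v80 && (
  let v81 := sub v1 v80; ok v81 && (
  let v82 := mul v75 v81; ok v82 && (
  let v83 := sub v0 v82; ok v83 && (
  let v84 := add v48 v0; ok v84 && (
  let v85 := mul v48 v48; ok v85 && (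
  let v86 := add v85 v0; ok v86 && (
  let v87 := mul v48 v83; ok v87 && (
  let v88 := scale ⟨2199023255552, 0, 0, 0⟩ v87; ok v88 && (
  let v89 := add v86 v88; ok v89 && (
  let v90 := inv v84; ok v90 && (
  let v91 := mul v89 v90; ok v91 && (
  let v92 := add v91 v84; ok v92 && (
  let v93 := mul v48 v63; ok v93 && (
  let v94 := scale ⟨549755813888, 0, 0, 0⟩ v93; ok v94 && (
  let v95 := mul v94 v92; ok v95 && (
  let v96 := sub v89 v95; ok v96 && (
  isPos 4 v89 && (
  isPos 4 v96 && (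
  let v97 := inv v96; ok v97 && (
  let v98 := mul v45 v34; ok v98 && (
  let v99 := cst ⟨6597069766656, 0, 0, 0⟩; ok v99 && (
  let v100 := add v35 v99; ok v100 && (
  let v101 := mul v98 v100; ok v101 && (
  let v102 := scale ⟨4398046511104, 0, 0, 0⟩ v35; ok v102 && (
  let v103 := add v102 v99; ok v103 && (
  let v104 := inv v103; ok v104 && (
  let v105 := mul v101 v104; ok v105 && (
  let v106 := sub v0 v48; ok v106 && (
  let v107 := mul v106 v84; ok v107 && (
  let v108 := mul v107 v97; ok v108 && (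
  let v109 := scale ⟨549755813888, 0, 0, 0⟩ v108; ok v109 && (
  let v110 := add v109 v1; ok v110 && (
  let v111 := inv v110; ok v111 && (
  let v112 := mul v109 v111; ok v112 && (
  let v113 := mul v94 v109; ok v113 && (
  let v114 := add v113 v1; ok v114 && (
  let v115 := mul v114 v92; ok v115 && (
  let v116 := inv v89; ok v116 && (
  let v117 := mul v115 v116; ok v117 && (
  let v118 := mul v63 v112; ok v118 && (
  let v119 := scale ⟨549755813888, 0, 0, 0⟩ v118; ok v119 && (
  let v120 := sub v0 v119; ok v120 && (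
  let v121 := sub v0 v118; ok v121 && (
  let v122 := inv v121; ok v122 && (
  let v123 := mul v120 v122; ok v123 && (
  let v124 := add v118 v0; ok v124 && (
  let v125 := mul v48 v124; ok v125 && (
  let v126 := mul v16 v17; ok v126 && (
  let v127 := add v12 x1; ok v127 && (
  let v128 := mul v15 v12; ok v128 && (
  let v129 := mul v128 v10; ok v129 && (
  let v130 := scale ⟨2199023255552, 0, 0, 0⟩ v129; ok v130 && (
  let v131 := add v39 v130; ok v131 && (
  let v132 := mul v127 v131; ok v132 && (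
  let v133 := inv v132; ok v133 && (
  let v134 := mul v126 v133; ok v134 && (
  let v135 := mul x1 v134; ok v135 && (
  let v136 := inv v36; ok v136 && (
  let v137 := mul v75 v136; ok v137 && (
  let v138 := scale ⟨1527119872, 0, 0, 0⟩ v137; ok v138 && (
  let v139 := sub v77 v138; ok v139 && (
  let v140 := mul v137 v139; ok v140 && (
  let v141 := sub v1 v140; ok v141 && (
  let v142 := mul v137 v141; ok v142 && (
  let v143 := sub v0 v142; ok v143 && (
  let v144 := add v57 v0; ok v144 && (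
  let v145 := mul v57 v57; ok v145 && (
  let v146 := add v145 v0; ok v146 && (
  let v147 := mul v57 v143; ok v147 && (
  let v148 := scale ⟨2199023255552, 0, 0, 0⟩ v147; ok v148 && (
  let v149 := add v146 v148; ok v149 && (
  let v150 := inv v144; ok v150 && (
  let v151 := mul v149 v150; ok v151 && (
  let v152 := add v151 v144; ok v152 && (
  let v153 := mul v57 v135; ok v153 && (
  let v154 := scale ⟨549755813888, 0, 0, 0⟩ v153; ok v154 && (
  let v155 := mul v154 v152; ok v155 && (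
  let v156 := sub v149 v155; ok v156 && (
  isPos 4 v149 && (
  isPos 4 v156 && (
  let v157 := sub v0 v57; ok v157 && (
  let v158 := mul v157 v144; ok v158 && (
  let v159 := inv v156; ok v159 && (
  let v160 := mul v158 v159; ok v160 && (
  let v161 := scale ⟨549755813888, 0, 0, 0⟩ v160; ok v161 && (
  let v162 := add v161 v1; ok v162 && (
  let v163 := inv v162; ok v163 && (
  let v164 := mul v161 v163; ok v164 && (
  let v165 := mul v135 v164; ok v165 && (
  let v166 := add v4 v0; ok v166 && (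
  let v167 := inv v166; ok v167 && (
  let v168 := mul v4 v167; ok v168 && (
  let v169 := scale ⟨2199023255552, 0, 0, 0⟩ v168; ok v169 && (
  let v170 := sub v0 v169; ok v170 && (
  let v171 := sub v0 v4; ok v171 && (
  let v172 := mul x3 v167; ok v172 && (
  let v173 := mul v172 v170; ok v173 && (
  let v174 := add v17 v173; ok v174 && (
  let v175 := mul x0 v10; ok v175 && (
  let v176 := scale ⟨274877906944, 0, 0, 0⟩ x0; ok v176 && (
  let v177 := cst ⟨2199023255552, 0, 0, 0⟩; ok v177 && (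
  let v178 := add v176 v177; ok v178 && (
  let v179 := mul v178 v178; ok v179 && (
  let v180 := mul v175 v175; ok v180 && (
  let v181 := cst ⟨7696581394432, 0, 0, 0⟩; ok v181 && (
  let v182 := cst ⟨10995116277760, 0, 0, 0⟩; ok v182 && (
  let v183 := inv v182; ok v183 && (
  let v184 := mul v181 v183; ok v184 && (
  let v185 := mul v180 v184; ok v185 && (
  let v186 := add v179 v185; ok v186 && (
  let v187 := mul v179 v178; ok v187 && (
  let v188 := inv v186; ok v188 && (
  let v189 := mul v187 v188; ok v189 && (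
  let v190 := inv v187; ok v190 && (
  let v191 := mul v186 v190; ok v191 && (
  let v192 := scale ⟨224412041216, 0, 0, 0⟩ v8; ok v192 && (
  let v193 := inv v29; ok v193 && (
  let v194 := mul v192 v193; ok v194 && (
  let v195 := mul v189 v17; ok v195 && (
  let v196 := mul v195 v194; ok v196 && (
  let v197 := mul v2 v196; ok v197 && (
  let v198 := sub v0 v197; ok v198 && (
  let v199 := inv v198; ok v199 && (
  let v200 := mul v125 v197; ok v200 && (
  let v201 := sub v0 v200; ok v201 && (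
  let v202 := inv v201; ok v202 && (
  let v203 := scale ⟨3573412790272, 0, 0, 0⟩ v14; ok v203 && (
  let v204 := inv x2; ok v204 && (
  let v205 := scale ⟨339302416384, 0, 0, 0⟩ v204; ok v205 && (
  let v206 := add v203 v205; ok v206 && (
  let v207 := scale ⟨549755813888, 0, 0, 0⟩ v206; ok v207 && (
  let v208 := scale ⟨2199023255552, 0, 0, 0⟩ v76; ok v208 && (
  let v209 := add v208 v0; ok v209 && (
  let v210 := add v76 v0; ok v210 && (
  let v211 := mul v4 v14; ok v211 && (
  let v212 := sub v0 v66; ok v212 && (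
  let v213 := mul v4 v15; ok v213 && (
  let v214 := scale ⟨2199023255552, 0, 0, 0⟩ v213; ok v214 && (
  let v215 := sub v212 v214; ok v215 && (
  let v216 := mul v211 v211; ok v216 && (
  let v217 := add v215 v216; ok v217 && (
  let v218 := add v217 v0; ok v218 && (
  let v219 := scale ⟨549755813888, 0, 0, 0⟩ v218; ok v219 && (
  let v220 := scale ⟨549755813888, 0, 0, 0⟩ v30; ok v220 && (
  let v221 := sub v8 v220; ok v221 && (
  let v222 := mul v67 v212; ok v222 && (
  let v223 := mul v222 v7; ok v223 && (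
  let v224 := scale ⟨137438953472, 0, 0, 0⟩ v223; ok v224 && (
  let v225 := add v221 v224; ok v225 && (
  let v226 := mul v219 v225; ok v226 && (
  let v227 := mul v118 v123; ok v227 && (
  let v228 := add v125 v0; ok v228 && (
  let v229 := mul v228 v199; ok v229 && (
  let v230 := mul v125 v202; ok v230 && (
  let v231 := add v229 v230; ok v231 && (
  let v232 := mul v197 v231; ok v232 && (
  let v233 := add v227 v232; ok v233 && (
  let v234 := mul v233 v76; ok v234 && (
  let v235 := mul v228 v197; ok v235 && (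
  let v236 := mul v235 v199; ok v236 && (
  let v237 := add v227 v236; ok v237 && (
  let v238 := mul v237 v76; ok v238 && (
  let v239 := scale ⟨223338299392, 0, 0, 0⟩ v238; ok v239 && (
  let v240 := add v1 v239; ok v240 && (
  let v241 := mul v238 v240; ok v241 && (
  let v242 := add v0 v241; ok v242 && (
  let v243 := scale ⟨893353197568, 0, 0, 0⟩ v234; ok v243 && (
  let v244 := add v0 v243; ok v244 && (
  let v245 := mul v234 v244; ok v245 && (
  let v246 := add v0 v245; ok v246 && (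
  let v247 := mul v169 v172; ok v247 && (
  let v248 := mul v247 v209; ok v248 && (
  let v249 := mul v248 v246; ok v249 && (
  let v250 := mul v226 v242; ok v250 && (
  let v251 := add v44 v1; ok v251 && (
  let v252 := mul v249 v251; ok v252 && (
  let v253 := add v250 v252; ok v253 && (
  let v254 := add v44 v0; ok v254 && (
  let v255 := mul v249 v254; ok v255 && (
  let v256 := mul v210 v254; ok v256 && (
  let v257 := mul v256 v172; ok v257 && (
  let v258 := mul v257 v171; ok v258 && (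
  let v259 := mul v2 v174; ok v259 && (
  let v260 := inv v44; ok v260 && (
  let v261 := mul v259 v260; ok v261 && (
  let v262 := scale ⟨549755813888, 0, 0, 0⟩ v261; ok v262 && (
  let v263 := mul v61 v204; ok v263 && (
  let v264 := mul v263 v112; ok v264 && (
  let v265 := mul v264 v123; ok v265 && (
  let v266 := mul v16 v262; ok v266 && (
  let v267 := mul v253 v265; ok v267 && (
  let v268 := mul v258 v207; ok v268 && (
  let v269 := add v267 v268; ok v269 && (
  let v270 := mul v269 v76; ok v270 && (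
  let v271 := add v266 v270; ok v271 && (
  let v272 := mul v253 v228; ok v272 && (
  let v273 := mul v272 v199; ok v273 && (
  let v274 := mul v255 v125; ok v274 && (
  let v275 := mul v274 v202; ok v275 && (
  let v276 := add v273 v275; ok v276 && (
  let v277 := mul v276 v76; ok v277 && (
  let v278 := mul v16 v271; ok v278 && (
  let v279 := mul v196 v277; ok v279 && (
  let v280 := add v278 v279; ok v280 && (
  let v281 := mul v67 v280; ok v281 && (
  let v282 := mul v281 v260; ok v282 && (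
  let v283 := sub v0 v282; ok v283 && (
  let v284 := inv v283; ok v284 && (
  let v285 := mul v280 v284; ok v285 && (
  let v286 := mul x1 v285; ok v286 && (
  let v287 := mul v67 v285; ok v287 && (
  let v288 := mul v287 v260; ok v288 && (
  let v289 := sub v0 v288; ok v289 && (
  let v290 := mul v41 v289; ok v290 && (
  let v291 := sub v290 v286; ok v291 && (
  let v292 := inv v291; ok v292 && (
  let v293 := mul v286 v292; ok v293 && (
  let v294 := sub v0 v286; ok v294 && (
  let v295 := inv v294; ok v295 && (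
  let v296 := inv v30; ok v296 && (
  let v297 := mul v227 v296; ok v297 && (
  let v298 := add v105 v297; ok v298 && (
  let v299 := mul v298 v295; ok v299 && (
  let v300 := mul v299 v287; ok v300 && (
  let v301 := scale ⟨223338299392, 0, 0, 0⟩ v300; ok v301 && (
  let v302 := add v1 v301; ok v302 && (
  let v303 := mul v300 v302; ok v303 && (
  let v304 := add v0 v303; ok v304 && (
  let v305 := mul v300 v304; ok v305 && (
  let v306 := mul v305 v117; ok v306 && (
  let v307 := mul v306 v125; ok v307 && (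
  let v308 := sub v0 v307; ok v308 && (
  let v309 := mul v299 v304; ok v309 && (
  let v310 := mul v309 v284; ok v310 && (
  let v311 := mul v310 v76; ok v311 && (
  let v312 := inv v308; ok v312 && (
  let v313 := mul v311 v312; ok v313 && (
  let v314 := mul v313 x2; ok v314 && (
  let v315 := mul v253 v199; ok v315 && (
  let v316 := mul v255 v117; ok v316 && (
  let v317 := mul v316 v125; ok v317 && (
  let v318 := mul v317 v202; ok v318 && (
  let v319 := add v315 v318; ok v319 && (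
  let v320 := mul v314 v319; ok v320 && (
  let v321 := mul v253 v61; ok v321 && (
  let v322 := mul v321 v204; ok v322 && (
  let v323 := mul v322 v109; ok v323 && (
  let v324 := mul v323 v123; ok v324 && (
  let v325 := mul v313 v191; ok v325 && (
  let v326 := mul v325 x2; ok v326 && (
  let v327 := inv v17; ok v327 && (
  let v328 := mul v326 v327; ok v328 && (
  let v329 := mul x0 v117; ok v329 && (
  let v330 := mul v329 v16; ok v330 && (
  let v331 := mul v330 v262; ok v331 && (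
  let v332 := add v331 v324; ok v332 && (
  let v333 := mul v117 v258; ok v333 && (
  let v334 := mul v333 v207; ok v334 && (
  let v335 := add v332 v334; ok v335 && (
  let v336 := mul v328 v335; ok v336 && (
  let v337 := mul v189 v2; ok v337 && (
  let v338 := mul v337 v17; ok v338 && (
  let v339 := mul v338 v16; ok v339 && (
  let v340 := cst ⟨9895604649984, 0, 0, 0⟩; ok v340 && (
  let v341 := cst ⟨21990232555520, 0, 0, 0⟩; ok v341 && (
  let v342 := inv v341; ok v342 && (
  let v343 := mul v340 v342; ok v343 && (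
  let v344 := add v165 v0; ok v344 && (
  let v345 := mul v165 v344; ok v345 && (
  let v346 := add v55 v345; ok v346 && (
  let v347 := mul v293 v346; ok v347 && (
  let v348 := mul v57 v344; ok v348 && (
  let v349 := scale ⟨687194767360, 0, 0, 0⟩ v347; ok v349 && (
  let v350 := add v0 v349; ok v350 && (
  let v351 := mul v347 v350; ok v351 && (
  let v352 := add v0 v351; ok v352 && (
  let v353 := mul v348 v352; ok v353 && (
  let v354 := add v10 x1; ok v354 && (
  let v355 := mul v166 v354; ok v355 && (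
  let v356 := mul v355 v343; ok v356 && (
  let v357 := add v0 v356; ok v357 && (
  let v358 := inv v357; ok v358 && (
  let v359 := mul v353 v358; ok v359 && (
  let v360 := mul v359 v13; ok v360 && (
  let v361 := mul v2 v285; ok v361 && (
  let v362 := mul v361 v327; ok v362 && (
  let v363 := add v0 v362; ok v363 && (
  let v364 := mul v360 v363; ok v364 && (
  let v365 := sub v44 v287; ok v365 && (
  let v366 := inv v365; ok v366 && (
  let v367 := mul v364 v366; ok v367 && (
  let v368 := mul x1 v320; ok v368 && (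
  let v369 := mul v368 v197; ok v369 && (
  let v370 := mul x1 v339; ok v370 && (
  let v371 := mul v336 v370; ok v371 && (
  let v372 := add v369 v371; ok v372 && (
  let v373 := add v368 v336; ok v373 && (
  let v374 := add v0 v372; ok v374 && (
  let v375 := mul v367 v374; ok v375 && (
  let v376 := add v373 v375; ok v376 && (
  let v377 := sub v0 v376; ok v377 && (
  let v378 := scale ⟨1073741824, 0, 0, 0⟩ x1; ok v378 && (
  let v379 := sub v377 v378; ok v379 && (
  let v380 := sub v13 v0; ok v380 && (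
  let v381 := add v380 v177; ok v381 && (
  let v382 := scale ⟨2199023255552, 0, 0, 0⟩ v343; ok v382 && (
  let v383 := sub v381 v382; ok v383 && (
  let v384 := mul v166 v383; ok v384 && (
  let v385 := mul v380 v382; ok v385 && (
  let v386 := add v385 v0; ok v386 && (
  let v387 := inv v386; ok v387 && (
  let v388 := mul v384 v387; ok v388 && (
  let v389 := mul v189 v277; ok v389 && (
  let v390 := scale ⟨549755813888, 0, 0, 0⟩ v194; ok v390 && (
  let v391 := add v10 v390; ok v391 && (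
  let v392 := mul v389 v391; ok v392 && (
  let v393 := scale ⟨2199023255552, 0, 0, 0⟩ v392; ok v393 && (
  let v394 := add v271 v393; ok v394 && (
  let v395 := scale ⟨2199023255552, 0, 0, 0⟩ v394; ok v395 && (
  let v396 := mul v395 v284; ok v396 && (
  let v397 := sub v17 v361; ok v397 && (
  let v398 := inv v397; ok v398 && (
  let v399 := mul v396 v398; ok v399 && (
  let v400 := sub v388 v399; ok v400 && (
  isPos 4 v198 && (
  isPos 4 v201 && (
  let v401 := scale ⟨2199023255552, 0, 0, 0⟩ v281; ok v401 && (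
  let v402 := sub v44 v401; ok v402 && (
  isPos 4 v402 && (
  isPos 4 v291 && (
  isPos 4 v121 && (
  let v403 := sub v1 v165; ok v403 && (
  isPos 4 v403 && (
  let v404 := scale ⟨687194767360, 0, 0, 0⟩ v0; ok v404 && (
  let v405 := sub v404 v238; ok v405 && (
  isPos 4 v405 && (
  let v406 := scale ⟨377957122048, 0, 0, 0⟩ v0; ok v406 && (
  let v407 := sub v406 v234; ok v407 && (
  isPos 4 v407 && (
  isPos 4 v397 && (
  let v408 := sub v1 v347; ok v408 && (
  isPos 4 v408 && (
  isPos 4 v294 && (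
  isPos 4 v308 && (
  let v409 := sub v404 v300; ok v409 && (
  isPos 4 v409 && (
  isPos 4 v400 && (
  isPos 4 v379 && (
  true)))))))))))))))))))))))))))))))))))))))))))))))))))))))))))))))))))))))))))))))))))))))))))))))))))))))))))))))))))))))))))))))))))))))))))))))))))))))))))))))))))))))))))))))))))))))))))))))))))))))))))))))))))))))))))))))))))))))))))))))))))))))))))))))))))))))))))))))))))))))))))))))))))))))))))))))))))))))))))))))))))))))))))))))))))))))))))))))))))))))))))))))))))))))))))))))))))))))))))))))))))))))))))))))))))))))))))))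
  | _ => false

set_option maxRecDepth 1000000 in
theorem chk5_eq (O : Ops) (m : List O.α)
    (h : chk5 O.cst O.add O.sub O.mul O.scale O.neg O.inv O.exp O.log O.ok O.isPos O.isLt m = true) :
    runG O 4 prog5 m = true := by
  match m, h with
  | [x0, x1, x2, x3], h => exact h

def chkB5 : List opsE.α → Bool :=
  chk5 opsE.cst opsE.add opsE.sub opsE.mul opsE.scale opsE.neg opsE.inv opsE.exp opsE.log opsE.ok opsE.isPos opsE.isLt

theorem chkB5_eq (m : List opsE.α) (h : chkB5 m = true) : runG opsE 4 prog5 m = true :=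
  chk5_eq opsE m h

def prog6 : List Op := [
  .const ⟨1099511627776, 0, 0, 0⟩,
  .mul 2 3,
  .mul 0 5,
  .scale ⟨549755813888, 0, 0, 0⟩ 0,
  .mul 0 0,
  .sub 4 0,
  .inv 0,
  .mul 3 0,
  .scale ⟨2199023255552, 0, 0, 0⟩ 0,
  .scale ⟨10774999203840, 0, 0, 0⟩ 5,
  .scale ⟨549755813888, 0, 0, 0⟩ 9,
  .scale ⟨45768245248, 0, 0, 0⟩ 1,
  .const ⟨183207198720, 0, 0, 0⟩,
  .add 1 0,
  .mul 4 0,
  .add 4 0,
  .mul 6 0,
  .add 16 0,
  .mul 8 0,
  .scale ⟨549755813888, 0, 0, 0⟩ 0,
  .add 19 0,
  .mul 3 0,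
  .scale ⟨224412041216, 0, 0, 0⟩ 15,
  .inv 1,
  .mul 1 0,
  .sub 26 16,
  .sub 0 1,
  .pos 0]

def chk6 {α : Type} (cst : Z → α) (add sub mul : α → α → α) (scale : Z → α → α)
    (neg inv exp log : α → α) (ok : α → Bool) (isPos : Nat → α → Bool) (isLt : α → Nat → Bool) :
    List α → Bool
  | [x0, x1, x2, x3] =>
  let v0 := cst ⟨1099511627776, 0, 0, 0⟩; ok v0 && (
  let v1 := mul x1 x2; ok v1 && (
  let v2 := mul v1 x3; ok v2 && (
  let v3 := scale ⟨549755813888, 0, 0, 0⟩ v2; ok v3 && (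
  let v4 := mul v3 v3; ok v4 && (
  let v5 := sub v0 v4; ok v5 && (
  let v6 := inv v5; ok v6 && (
  let v7 := mul v3 v6; ok v7 && (
  let v8 := scale ⟨2199023255552, 0, 0, 0⟩ v7; ok v8 && (
  let v9 := scale ⟨10774999203840, 0, 0, 0⟩ v3; ok v9 && (
  let v10 := scale ⟨549755813888, 0, 0, 0⟩ v0; ok v10 && (
  let v11 := scale ⟨45768245248, 0, 0, 0⟩ v9; ok v11 && (
  let v12 := cst ⟨183207198720, 0, 0, 0⟩; ok v12 && (
  let v13 := add v11 v12; ok v13 && (
  let v14 := mul v9 v13; ok v14 && (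
  let v15 := add v10 v14; ok v15 && (
  let v16 := mul v9 v15; ok v16 && (
  let v17 := add v0 v16; ok v17 && (
  let v18 := mul v9 v17; ok v18 && (
  let v19 := scale ⟨549755813888, 0, 0, 0⟩ v18; ok v19 && (
  let v20 := add v0 v19; ok v20 && (
  let v21 := mul v17 v20; ok v21 && (
  let v22 := scale ⟨224412041216, 0, 0, 0⟩ v6; ok v22 && (
  let v23 := inv v21; ok v23 && (
  let v24 := mul v22 v23; ok v24 && (
  let v25 := sub x1 v8; ok v25 && (
  let v26 := sub v25 v24; ok v26 && (
  isPos 4 v26 && (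
  true))))))))))))))))))))))))))))
  | _ => false

set_option maxRecDepth 1000000 in
theorem chk6_eq (O : Ops) (m : List O.α)
    (h : chk6 O.cst O.add O.sub O.mul O.scale O.neg O.inv O.exp O.log O.ok O.isPos O.isLt m = true) :
    runG O 4 prog6 m = true := by
  match m, h with
  | [x0, x1, x2, x3], h => exact h

def chkB6 : List opsE.α → Bool :=
  chk6 opsE.cst opsE.add opsE.sub opsE.mul opsE.scale opsE.neg opsE.inv opsE.exp opsE.log opsE.ok opsE.isPos opsE.isLt

theorem chkB6_eq (m : List opsE.α) (h : chkB6 m = true) : runG opsE 4 prog6 m = true :=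
  chk6_eq opsE m h

def prog7 : List Op := [
  .const ⟨1099511627776, 0, 0, 0⟩,
  .mul 2 3,
  .mul 0 5,
  .scale ⟨549755813888, 0, 0, 0⟩ 0,
  .mul 0 0,
  .sub 4 0,
  .inv 0,
  .mul 3 0,
  .scale ⟨2199023255552, 0, 0, 0⟩ 0,
  .scale ⟨549755813888, 0, 0, 0⟩ 8,
  .mul 10 1,
  .sub 1 0,
  .pos 0]

def chk7 {α : Type} (cst : Z → α) (add sub mul : α → α → α) (scale : Z → α → α)
    (neg inv exp log : α → α) (ok : α → Bool) (isPos : Nat → α → Bool) (isLt : α → Nat → Bool) :
    List α → Bool
  | [x0, x1, x2, x3] =>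
  let v0 := cst ⟨1099511627776, 0, 0, 0⟩; ok v0 && (
  let v1 := mul x1 x2; ok v1 && (
  let v2 := mul v1 x3; ok v2 && (
  let v3 := scale ⟨549755813888, 0, 0, 0⟩ v2; ok v3 && (
  let v4 := mul v3 v3; ok v4 && (
  let v5 := sub v0 v4; ok v5 && (
  let v6 := inv v5; ok v6 && (
  let v7 := mul v3 v6; ok v7 && (
  let v8 := scale ⟨2199023255552, 0, 0, 0⟩ v7; ok v8 && (
  let v9 := scale ⟨549755813888, 0, 0, 0⟩ v0; ok v9 && (
  let v10 := mul x0 v8; ok v10 && (
  let v11 := sub v9 v10; ok v11 && (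
  isPos 4 v11 && (
  true)))))))))))))
  | _ => false

set_option maxRecDepth 1000000 in
theorem chk7_eq (O : Ops) (m : List O.α)
    (h : chk7 O.cst O.add O.sub O.mul O.scale O.neg O.inv O.exp O.log O.ok O.isPos O.isLt m = true) :
    runG O 4 prog7 m = true := by
  match m, h with
  | [x0, x1, x2, x3], h => exact h

def chkB7 : List opsE.α → Bool :=
  chk7 opsE.cst opsE.add opsE.sub opsE.mul opsE.scale opsE.neg opsE.inv opsE.exp opsE.log opsE.ok opsE.isPos opsE.isLt

theorem chkB7_eq (m : List opsE.α) (h : chkB7 m = true) : runG opsE 4 prog7 m = true :=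
  chk7_eq opsE m h

def prog8 : List Op := [
  .const ⟨1099511627776, 0, 0, 0⟩,
  .mul 2 3,
  .mul 0 5,
  .scale ⟨549755813888, 0, 0, 0⟩ 0,
  .const ⟨111669149696, 0, 0, 0⟩,
  .sub 1 0,
  .pos 0]

def chk8 {α : Type} (cst : Z → α) (add sub mul : α → α → α) (scale : Z → α → α)
    (neg inv exp log : α → α) (ok : α → Bool) (isPos : Nat → α → Bool) (isLt : α → Nat → Bool) :
    List α → Bool
  | [x0, x1, x2, x3] =>
  let v0 := cst ⟨1099511627776, 0, 0, 0⟩; ok v0 && (
  let v1 := mul x1 x2; ok v1 && (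
  let v2 := mul v1 x3; ok v2 && (
  let v3 := scale ⟨549755813888, 0, 0, 0⟩ v2; ok v3 && (
  let v4 := cst ⟨111669149696, 0, 0, 0⟩; ok v4 && (
  let v5 := sub v3 v4; ok v5 && (
  isPos 4 v5 && (
  true)))))))
  | _ => false

set_option maxRecDepth 1000000 in
theorem chk8_eq (O : Ops) (m : List O.α)
    (h : chk8 O.cst O.add O.sub O.mul O.scale O.neg O.inv O.exp O.log O.ok O.isPos O.isLt m = true) :
    runG O 4 prog8 m = true := by
  match m, h with
  | [x0, x1, x2, x3], h => exact h

def chkB8 : List opsE.α → Bool :=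
  chk8 opsE.cst opsE.add opsE.sub opsE.mul opsE.scale opsE.neg opsE.inv opsE.exp opsE.log opsE.ok opsE.isPos opsE.isLt

theorem chkB8_eq (m : List opsE.α) (h : chkB8 m = true) : runG opsE 4 prog8 m = true :=
  chk8_eq opsE m h

def progs : List (List Op) := [prog0, prog1, prog2, prog3, prog4, prog5, prog6, prog7, prog8]

def chks : List (List opsE.α → Bool) := [chkB0, chkB1, chkB2, chkB3, chkB4, chkB5, chkB6, chkB7, chkB8]

theorem chks_eq : List.Forall₂ (fun (ops : List Op) (chk : List opsE.α → Bool) =>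
    ∀ m, chk m = true → runG opsE 4 ops m = true) progs chks :=
  List.Forall₂.cons chkB0_eq (List.Forall₂.cons chkB1_eq (List.Forall₂.cons chkB2_eq (List.Forall₂.cons chkB3_eq (List.Forall₂.cons chkB4_eq (List.Forall₂.cons chkB5_eq (List.Forall₂.cons chkB6_eq (List.Forall₂.cons chkB7_eq (List.Forall₂.cons chkB8_eq List.Forall₂.nil))))))))

end Pool.Agent.helper71.FF.Crt.G
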