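import Pool.Agent.helper71.FF.Crt.GP

/-!
Generated certificates.
-/

namespace Pool.Agent.helper71.FF.Crt.G

open Pool.Agent.helper31.IA (Z Op)
open Pool.Agent.helper31.IC

theorem c12_20_m5_t0 : CovD 0 progs [(15393162788864, 2199023255552), (38654705664, 38654705664), (824633720832, 274877906944), (824633720832, 274877906944)] :=
  Pool.Agent.helper14.QF.covD_F chks_eq (.n 1 (.n 1 (.l 7) (.n 2 (.l 7) (.l 0))) (.n 1 (.n 0 (.n 2 (.l 0) (.l 0)) (.n 2 (.l 0) (.l 0))) (.n 2 (.n 2 (.l 0) (.l 0)) (.n 2 (.l 0) (.l 3)))))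
    [(15393162788864, 2199023255552), (38654705664, 38654705664), (824633720832, 274877906944), (824633720832, 274877906944)] rfl (by decide +kernel)
theorem c12_20_m5_t1 : CovD 0 progs [(15393162788864, 2199023255552), (96636764160, 19327352832), (824633720832, 274877906944), (824633720832, 274877906944)] :=
  Pool.Agent.helper14.QF.covD_F chks_eq (.n 1 (.n 2 (.n 2 (.l 0) (.n 0 (.l 0) (.l 0))) (.n 2 (.l 3) (.l 3))) (.n 0 (.n 2 (.n 2 (.l 0) (.l 0)) (.n 2 (.l 3) (.l 3))) (.n 2 (.n 2 (.l 0) (.l 3)) (.n 2 (.l 3) (.l 3)))))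
    [(15393162788864, 2199023255552), (96636764160, 19327352832), (824633720832, 274877906944), (824633720832, 274877906944)] rfl (by decide +kernel)
theorem c12_20_m5_t2 : CovD 0 progs [(15393162788864, 2199023255552), (135291469824, 19327352832), (687194767360, 137438953472), (824633720832, 274877906944)] :=
  Pool.Agent.helper14.QF.covD_F chks_eq (.n 2 (.n 2 (.n 3 (.n 0 (.l 0) (.l 0)) (.l 3)) (.n 3 (.n 0 (.l 0) (.l 0)) (.l 3))) (.n 0 (.n 3 (.l 3) (.l 3)) (.n 3 (.n 0 (.l 3) (.l 3)) (.l 3))))
    [(15393162788864, 2199023255552), (135291469824, 19327352832), (687194767360, 137438953472), (824633720832, 274877906944)] rfl (by decide +kernel)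
theorem c12_20_m5_t3 : CovD 0 progs [(15393162788864, 2199023255552), (135291469824, 19327352832), (962072674304, 137438953472), (824633720832, 274877906944)] :=
  Pool.Agent.helper14.QF.covD_F chks_eq (.n 0 (.n 2 (.n 3 (.l 3) (.l 3)) (.n 3 (.l 3) (.l 3))) (.n 2 (.n 3 (.l 3) (.l 3)) (.n 3 (.l 3) (.l 3))))
    [(15393162788864, 2199023255552), (135291469824, 19327352832), (962072674304, 137438953472), (824633720832, 274877906944)] rfl (by decide +kernel)
theorem c12_20_m5_t4 : CovD 0 progs [(15393162788864, 2199023255552), (135291469824, 19327352832), (824633720832, 274877906944), (824633720832, 274877906944)] :=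
  covD_split 2 (by decide +kernel) c12_20_m5_t2 c12_20_m5_t3
theorem c12_20_m5_t5 : CovD 0 progs [(15393162788864, 2199023255552), (115964116992, 38654705664), (824633720832, 274877906944), (824633720832, 274877906944)] :=
  covD_split 1 (by decide +kernel) c12_20_m5_t1 c12_20_m5_t4
theorem c12_20_m5_t6 : CovD 0 progs [(15393162788864, 2199023255552), (77309411328, 77309411328), (824633720832, 274877906944), (824633720832, 274877906944)] :=
  covD_split 1 (by decide +kernel) c12_20_m5_t0 c12_20_m5_t5
theorem c12_20_m5_t7 : CovD 0 progs [(19791209299968, 2199023255552), (38654705664, 38654705664), (824633720832, 274877906944), (824633720832, 274877906944)] :=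
  Pool.Agent.helper14.QF.covD_F chks_eq (.n 1 (.n 1 (.l 7) (.n 2 (.l 0) (.l 0))) (.n 1 (.n 1 (.n 2 (.l 0) (.l 0)) (.n 2 (.l 0) (.l 3))) (.n 2 (.n 2 (.l 0) (.l 0)) (.n 2 (.l 0) (.l 3)))))
    [(19791209299968, 2199023255552), (38654705664, 38654705664), (824633720832, 274877906944), (824633720832, 274877906944)] rfl (by decide +kernel)
theorem c12_20_m5_t8 : CovD 0 progs [(19791209299968, 2199023255552), (96636764160, 19327352832), (824633720832, 274877906944), (824633720832, 274877906944)] :=
  Pool.Agent.helper14.QF.covD_F chks_eq (.n 1 (.n 2 (.n 2 (.n 0 (.l 0) (.l 0)) (.l 3)) (.n 2 (.l 3) (.l 3))) (.n 2 (.n 2 (.n 2 (.l 0) (.l 3)) (.n 0 (.l 3) (.l 3))) (.n 0 (.n 2 (.l 3) (.l 3)) (.n 2 (.l 3) (.l 3)))))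
    [(19791209299968, 2199023255552), (96636764160, 19327352832), (824633720832, 274877906944), (824633720832, 274877906944)] rfl (by decide +kernel)
theorem c12_20_m5_t9 : CovD 0 progs [(19791209299968, 2199023255552), (135291469824, 19327352832), (687194767360, 137438953472), (824633720832, 274877906944)] :=
  Pool.Agent.helper14.QF.covD_F chks_eq (.n 3 (.n 1 (.n 2 (.n 0 (.l 0) (.l 3)) (.l 3)) (.n 0 (.n 2 (.l 3) (.l 3)) (.n 2 (.l 5) (.l 3)))) (.n 2 (.n 2 (.l 3) (.l 3)) (.n 1 (.l 3) (.l 3))))
    [(19791209299968, 2199023255552), (135291469824, 19327352832), (687194767360, 137438953472), (824633720832, 274877906944)] rfl (by decide +kernel)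
theorem c12_20_m5_t10 : CovD 0 progs [(19791209299968, 2199023255552), (135291469824, 19327352832), (962072674304, 137438953472), (824633720832, 274877906944)] :=
  Pool.Agent.helper14.QF.covD_F chks_eq (.n 2 (.n 2 (.n 3 (.l 3) (.l 3)) (.n 3 (.l 3) (.l 3))) (.n 0 (.n 3 (.l 3) (.l 3)) (.n 3 (.l 3) (.l 3))))
    [(19791209299968, 2199023255552), (135291469824, 19327352832), (962072674304, 137438953472), (824633720832, 274877906944)] rfl (by decide +kernel)
theorem c12_20_m5_t11 : CovD 0 progs [(19791209299968, 2199023255552), (135291469824, 19327352832), (824633720832, 274877906944), (824633720832, 274877906944)] :=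
  covD_split 2 (by decide +kernel) c12_20_m5_t9 c12_20_m5_t10
theorem c12_20_m5_t12 : CovD 0 progs [(19791209299968, 2199023255552), (115964116992, 38654705664), (824633720832, 274877906944), (824633720832, 274877906944)] :=
  covD_split 1 (by decide +kernel) c12_20_m5_t8 c12_20_m5_t11
theorem c12_20_m5_t13 : CovD 0 progs [(19791209299968, 2199023255552), (77309411328, 77309411328), (824633720832, 274877906944), (824633720832, 274877906944)] :=
  covD_split 1 (by decide +kernel) c12_20_m5_t7 c12_20_m5_t12
theorem c12_20_m5 : CovD 0 progs [(17592186044416, 4398046511104), (77309411328, 77309411328), (824633720832, 274877906944), (824633720832, 274877906944)] :=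
  covD_split 0 (by decide +kernel) c12_20_m5_t6 c12_20_m5_t13

end Pool.Agent.helper71.FF.Crt.G
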