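import Pool.Agent.helper71.FF.Crt.GP

/-!
Generated certificates.
-/

namespace Pool.Agent.helper71.FF.Crt.G

open Pool.Agent.helper31.IA (Z Op)
open Pool.Agent.helper31.IC

theorem c12_20_m7_t0 : CovD 0 progs [(14293651161088, 1099511627776), (173946175488, 19327352832), (824633720832, 274877906944), (962072674304, 137438953472)] :=
  Pool.Agent.helper14.QF.covD_F chks_eq (.n 2 (.n 2 (.n 2 (.l 3) (.l 3)) (.n 0 (.l 3) (.l 3))) (.n 2 (.n 0 (.l 3) (.l 3)) (.l 3)))
    [(14293651161088, 1099511627776), (173946175488, 19327352832), (824633720832, 274877906944), (962072674304, 137438953472)] rfl (by decide +kernel)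
theorem c12_20_m7_t1 : CovD 0 progs [(14293651161088, 1099511627776), (212600881152, 19327352832), (824633720832, 274877906944), (962072674304, 137438953472)] :=
  Pool.Agent.helper14.QF.covD_F chks_eq (.n 2 (.n 2 (.n 0 (.n 2 (.l 3) (.l 3)) (.n 2 (.l 3) (.l 3))) (.n 2 (.l 3) (.l 3))) (.n 1 (.n 2 (.l 3) (.l 3)) (.n 2 (.l 3) (.l 3))))
    [(14293651161088, 1099511627776), (212600881152, 19327352832), (824633720832, 274877906944), (962072674304, 137438953472)] rfl (by decide +kernel)
theorem c12_20_m7_t2 : CovD 0 progs [(14293651161088, 1099511627776), (193273528320, 38654705664), (824633720832, 274877906944), (962072674304, 137438953472)] :=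
  covD_split 1 (by decide +kernel) c12_20_m7_t0 c12_20_m7_t1
theorem c12_20_m7_t3 : CovD 0 progs [(16492674416640, 1099511627776), (173946175488, 19327352832), (824633720832, 274877906944), (962072674304, 137438953472)] :=
  Pool.Agent.helper14.QF.covD_F chks_eq (.n 2 (.n 2 (.n 2 (.l 3) (.l 3)) (.n 0 (.l 3) (.l 3))) (.n 2 (.n 0 (.l 3) (.l 3)) (.l 3)))
    [(16492674416640, 1099511627776), (173946175488, 19327352832), (824633720832, 274877906944), (962072674304, 137438953472)] rfl (by decide +kernel)
theorem c12_20_m7_t4 : CovD 0 progs [(16492674416640, 1099511627776), (212600881152, 19327352832), (824633720832, 274877906944), (962072674304, 137438953472)] :=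
  Pool.Agent.helper14.QF.covD_F chks_eq (.n 2 (.n 2 (.n 0 (.n 2 (.l 3) (.l 3)) (.n 2 (.l 5) (.l 3))) (.n 2 (.l 3) (.l 3))) (.n 1 (.n 2 (.l 3) (.l 3)) (.n 2 (.l 3) (.l 3))))
    [(16492674416640, 1099511627776), (212600881152, 19327352832), (824633720832, 274877906944), (962072674304, 137438953472)] rfl (by decide +kernel)
theorem c12_20_m7_t5 : CovD 0 progs [(16492674416640, 1099511627776), (193273528320, 38654705664), (824633720832, 274877906944), (962072674304, 137438953472)] :=
  covD_split 1 (by decide +kernel) c12_20_m7_t3 c12_20_m7_t4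
theorem c12_20_m7_t6 : CovD 0 progs [(15393162788864, 2199023255552), (193273528320, 38654705664), (824633720832, 274877906944), (962072674304, 137438953472)] :=
  covD_split 0 (by decide +kernel) c12_20_m7_t2 c12_20_m7_t5
theorem c12_20_m7_t7 : CovD 0 progs [(14293651161088, 1099511627776), (251255586816, 19327352832), (824633720832, 274877906944), (962072674304, 137438953472)] :=
  Pool.Agent.helper14.QF.covD_F chks_eq (.n 2 (.n 2 (.n 2 (.n 3 (.n 0 (.l 3) (.l 3)) (.l 3)) (.n 1 (.l 3) (.n 0 (.l 3) (.l 3)))) (.n 0 (.n 2 (.l 3) (.l 3)) (.n 2 (.l 3) (.l 3)))) (.n 2 (.n 2 (.n 0 (.l 3) (.l 3)) (.l 3)) (.n 1 (.l 3) (.l 3))))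
    [(14293651161088, 1099511627776), (251255586816, 19327352832), (824633720832, 274877906944), (962072674304, 137438953472)] rfl (by decide +kernel)
theorem c12_20_m7_t8 : CovD 0 progs [(16492674416640, 1099511627776), (251255586816, 19327352832), (824633720832, 274877906944), (962072674304, 137438953472)] :=
  Pool.Agent.helper14.QF.covD_F chks_eq (.n 2 (.n 2 (.n 2 (.n 3 (.n 0 (.l 5) (.l 5)) (.l 3)) (.n 3 (.n 0 (.l 3) (.l 3)) (.l 3))) (.n 1 (.n 2 (.l 3) (.l 3)) (.n 2 (.l 3) (.l 3)))) (.n 2 (.n 2 (.l 3) (.l 3)) (.n 1 (.l 3) (.l 3))))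
    [(16492674416640, 1099511627776), (251255586816, 19327352832), (824633720832, 274877906944), (962072674304, 137438953472)] rfl (by decide +kernel)
theorem c12_20_m7_t9 : CovD 0 progs [(15393162788864, 2199023255552), (251255586816, 19327352832), (824633720832, 274877906944), (962072674304, 137438953472)] :=
  covD_split 0 (by decide +kernel) c12_20_m7_t7 c12_20_m7_t8
theorem c12_20_m7_t10 : CovD 0 progs [(15393162788864, 2199023255552), (289910292480, 19327352832), (824633720832, 274877906944), (893353197568, 68719476736)] :=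
  Pool.Agent.helper14.QF.covD_F chks_eq (.n 2 (.n 2 (.l 6) (.n 1 (.n 2 (.l 6) (.n 0 (.l 3) (.l 3))) (.l 6))) (.n 0 (.n 2 (.n 2 (.l 3) (.l 3)) (.n 0 (.l 3) (.l 3))) (.n 0 (.n 2 (.l 3) (.l 3)) (.n 2 (.l 3) (.l 3)))))
    [(15393162788864, 2199023255552), (289910292480, 19327352832), (824633720832, 274877906944), (893353197568, 68719476736)] rfl (by decide +kernel)
theorem c12_20_m7_t11 : CovD 0 progs [(15393162788864, 2199023255552), (289910292480, 19327352832), (824633720832, 274877906944), (1030792151040, 68719476736)] :=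
  Pool.Agent.helper14.QF.covD_F chks_eq (.n 2 (.n 2 (.n 1 (.n 1 (.l 6) (.l 6)) (.l 6)) (.n 0 (.n 2 (.l 3) (.l 3)) (.n 2 (.l 3) (.l 3)))) (.n 0 (.n 0 (.n 2 (.l 3) (.l 3)) (.n 2 (.l 3) (.l 3))) (.n 1 (.n 2 (.l 3) (.l 3)) (.n 2 (.l 3) (.l 3)))))
    [(15393162788864, 2199023255552), (289910292480, 19327352832), (824633720832, 274877906944), (1030792151040, 68719476736)] rfl (by decide +kernel)
theorem c12_20_m7_t12 : CovD 0 progs [(15393162788864, 2199023255552), (289910292480, 19327352832), (824633720832, 274877906944), (962072674304, 137438953472)] :=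
  covD_split 3 (by decide +kernel) c12_20_m7_t10 c12_20_m7_t11
theorem c12_20_m7_t13 : CovD 0 progs [(15393162788864, 2199023255552), (270582939648, 38654705664), (824633720832, 274877906944), (962072674304, 137438953472)] :=
  covD_split 1 (by decide +kernel) c12_20_m7_t9 c12_20_m7_t12
theorem c12_20_m7_t14 : CovD 0 progs [(15393162788864, 2199023255552), (231928233984, 77309411328), (824633720832, 274877906944), (962072674304, 137438953472)] :=
  covD_split 1 (by decide +kernel) c12_20_m7_t6 c12_20_m7_t13
theorem c12_20_m7_t15 : CovD 0 progs [(19791209299968, 2199023255552), (173946175488, 19327352832), (824633720832, 274877906944), (962072674304, 137438953472)] :=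
  Pool.Agent.helper14.QF.covD_F chks_eq (.n 1 (.n 2 (.n 2 (.n 2 (.l 3) (.l 3)) (.n 0 (.l 3) (.l 3))) (.n 2 (.l 3) (.l 3))) (.n 2 (.n 2 (.n 2 (.l 5) (.l 3)) (.n 0 (.l 3) (.l 3))) (.n 2 (.n 0 (.l 3) (.l 3)) (.l 3))))
    [(19791209299968, 2199023255552), (173946175488, 19327352832), (824633720832, 274877906944), (962072674304, 137438953472)] rfl (by decide +kernel)
theorem c12_20_m7_t16 : CovD 0 progs [(19791209299968, 2199023255552), (212600881152, 19327352832), (687194767360, 137438953472), (962072674304, 137438953472)] :=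
  Pool.Agent.helper14.QF.covD_F chks_eq (.n 2 (.n 2 (.n 0 (.n 0 (.l 5) (.l 5)) (.n 0 (.l 5) (.l 5))) (.n 3 (.n 0 (.l 3) (.l 3)) (.l 3))) (.n 0 (.n 2 (.l 3) (.l 3)) (.n 2 (.l 5) (.l 3))))
    [(19791209299968, 2199023255552), (212600881152, 19327352832), (687194767360, 137438953472), (962072674304, 137438953472)] rfl (by decide +kernel)
theorem c12_20_m7_t17 : CovD 0 progs [(19791209299968, 2199023255552), (212600881152, 19327352832), (962072674304, 137438953472), (962072674304, 137438953472)] :=
  Pool.Agent.helper14.QF.covD_F chks_eq (.n 0 (.n 1 (.n 2 (.l 3) (.l 3)) (.n 2 (.l 3) (.l 3))) (.n 2 (.n 0 (.l 3) (.l 3)) (.n 2 (.l 3) (.l 3))))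
    [(19791209299968, 2199023255552), (212600881152, 19327352832), (962072674304, 137438953472), (962072674304, 137438953472)] rfl (by decide +kernel)
theorem c12_20_m7_t18 : CovD 0 progs [(19791209299968, 2199023255552), (212600881152, 19327352832), (824633720832, 274877906944), (962072674304, 137438953472)] :=
  covD_split 2 (by decide +kernel) c12_20_m7_t16 c12_20_m7_t17
theorem c12_20_m7_t19 : CovD 0 progs [(19791209299968, 2199023255552), (193273528320, 38654705664), (824633720832, 274877906944), (962072674304, 137438953472)] :=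
  covD_split 1 (by decide +kernel) c12_20_m7_t15 c12_20_m7_t18
theorem c12_20_m7_t20 : CovD 0 progs [(19791209299968, 2199023255552), (251255586816, 19327352832), (824633720832, 274877906944), (893353197568, 68719476736)] :=
  Pool.Agent.helper14.QF.covD_F chks_eq (.n 2 (.n 0 (.n 2 (.n 2 (.l 5) (.l 5)) (.n 2 (.l 3) (.l 3))) (.n 2 (.n 2 (.l 5) (.l 5)) (.n 1 (.l 3) (.l 3)))) (.n 2 (.n 0 (.l 3) (.l 3)) (.n 2 (.l 3) (.n 0 (.l 3) (.l 3)))))
    [(19791209299968, 2199023255552), (251255586816, 19327352832), (824633720832, 274877906944), (893353197568, 68719476736)] rfl (by decide +kernel)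
theorem c12_20_m7_t21 : CovD 0 progs [(19791209299968, 2199023255552), (251255586816, 19327352832), (824633720832, 274877906944), (1030792151040, 68719476736)] :=
  Pool.Agent.helper14.QF.covD_F chks_eq (.n 2 (.n 2 (.n 0 (.n 2 (.l 5) (.l 3)) (.n 2 (.l 5) (.l 3))) (.n 2 (.n 0 (.l 3) (.l 3)) (.l 3))) (.n 2 (.n 2 (.l 3) (.l 3)) (.n 0 (.n 1 (.l 3) (.l 3)) (.n 2 (.l 3) (.l 3)))))
    [(19791209299968, 2199023255552), (251255586816, 19327352832), (824633720832, 274877906944), (1030792151040, 68719476736)] rfl (by decide +kernel)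
theorem c12_20_m7_t22 : CovD 0 progs [(19791209299968, 2199023255552), (251255586816, 19327352832), (824633720832, 274877906944), (962072674304, 137438953472)] :=
  covD_split 3 (by decide +kernel) c12_20_m7_t20 c12_20_m7_t21
theorem c12_20_m7_t23 : CovD 0 progs [(19791209299968, 2199023255552), (289910292480, 19327352832), (687194767360, 137438953472), (962072674304, 137438953472)] :=
  Pool.Agent.helper14.QF.covD_F chks_eq (.n 1 (.n 2 (.n 1 (.n 2 (.l 6) (.l 6)) (.l 6)) (.n 2 (.n 3 (.l 6) (.l 3)) (.n 0 (.l 3) (.l 3)))) (.n 2 (.l 6) (.n 3 (.l 6) (.n 2 (.l 6) (.l 3)))))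
    [(19791209299968, 2199023255552), (289910292480, 19327352832), (687194767360, 137438953472), (962072674304, 137438953472)] rfl (by decide +kernel)
theorem c12_20_m7_t24 : CovD 0 progs [(19791209299968, 2199023255552), (289910292480, 19327352832), (962072674304, 137438953472), (962072674304, 137438953472)] :=
  Pool.Agent.helper14.QF.covD_F chks_eq (.n 2 (.n 2 (.n 3 (.n 0 (.l 3) (.l 3)) (.l 3)) (.n 0 (.l 3) (.n 0 (.l 3) (.l 3)))) (.n 0 (.n 1 (.n 2 (.l 3) (.l 3)) (.n 2 (.l 3) (.l 3))) (.n 1 (.n 2 (.l 3) (.l 3)) (.n 2 (.l 3) (.n 0 (.l 3) (.l 3))))))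
    [(19791209299968, 2199023255552), (289910292480, 19327352832), (962072674304, 137438953472), (962072674304, 137438953472)] rfl (by decide +kernel)
theorem c12_20_m7_t25 : CovD 0 progs [(19791209299968, 2199023255552), (289910292480, 19327352832), (824633720832, 274877906944), (962072674304, 137438953472)] :=
  covD_split 2 (by decide +kernel) c12_20_m7_t23 c12_20_m7_t24
theorem c12_20_m7_t26 : CovD 0 progs [(19791209299968, 2199023255552), (270582939648, 38654705664), (824633720832, 274877906944), (962072674304, 137438953472)] :=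
  covD_split 1 (by decide +kernel) c12_20_m7_t22 c12_20_m7_t25
theorem c12_20_m7_t27 : CovD 0 progs [(19791209299968, 2199023255552), (231928233984, 77309411328), (824633720832, 274877906944), (962072674304, 137438953472)] :=
  covD_split 1 (by decide +kernel) c12_20_m7_t19 c12_20_m7_t26
theorem c12_20_m7 : CovD 0 progs [(17592186044416, 4398046511104), (231928233984, 77309411328), (824633720832, 274877906944), (962072674304, 137438953472)] :=
  covD_split 0 (by decide +kernel) c12_20_m7_t14 c12_20_m7_t27

end Pool.Agent.helper71.FF.Crt.G
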