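import Pool.Agent.helper71.FF.Crt.Gc12_20_0
import Pool.Agent.helper71.FF.Crt.Gc12_20_1
import Pool.Agent.helper71.FF.Crt.Gc12_20_2
import Pool.Agent.helper71.FF.Crt.Gc12_20_3
import Pool.Agent.helper71.FF.Crt.Gc12_20_4
import Pool.Agent.helper71.FF.Crt.Gc12_20_5
import Pool.Agent.helper71.FF.Crt.Gc12_20_6
import Pool.Agent.helper71.FF.Crt.Gc12_20_7

/-!
Generated certificates, assembled.
-/

namespace Pool.Agent.helper71.FF.Crt.G

open Pool.Agent.helper31.IA (Z Op)
open Pool.Agent.helper31.IC

theorem c12_20_top0 : CovD 0 progs [(17592186044416, 4398046511104), (154618822656, 154618822656), (412316860416, 137438953472), (549755813888, 549755813888)] :=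
  covD_split 1 (by decide +kernel) c12_20_m1 c12_20_m2
theorem c12_20_top1 : CovD 0 progs [(17592186044416, 4398046511104), (154618822656, 154618822656), (274877906944, 274877906944), (549755813888, 549755813888)] :=
  covD_split 2 (by decide +kernel) c12_20_m0 c12_20_top0
theorem c12_20_top2 : CovD 0 progs [(17592186044416, 4398046511104), (154618822656, 154618822656), (824633720832, 274877906944), (274877906944, 274877906944)] :=
  covD_split 3 (by decide +kernel) c12_20_m3 c12_20_m4
theorem c12_20_top3 : CovD 0 progs [(17592186044416, 4398046511104), (231928233984, 77309411328), (824633720832, 274877906944), (824633720832, 274877906944)] :=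
  covD_split 3 (by decide +kernel) c12_20_m6 c12_20_m7
theorem c12_20_top4 : CovD 0 progs [(17592186044416, 4398046511104), (154618822656, 154618822656), (824633720832, 274877906944), (824633720832, 274877906944)] :=
  covD_split 1 (by decide +kernel) c12_20_m5 c12_20_top3
theorem c12_20_top5 : CovD 0 progs [(17592186044416, 4398046511104), (154618822656, 154618822656), (824633720832, 274877906944), (549755813888, 549755813888)] :=
  covD_split 3 (by decide +kernel) c12_20_top2 c12_20_top4
theorem c12_20_top6 : CovD 0 progs [(17592186044416, 4398046511104), (154618822656, 154618822656), (549755813888, 549755813888), (549755813888, 549755813888)] :=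
  covD_split 2 (by decide +kernel) c12_20_top1 c12_20_top5

theorem c12_20_all : CovD 0 progs [(17592186044416, 4398046511104), (154618822656, 154618822656), (549755813888, 549755813888), (549755813888, 549755813888)] := c12_20_top6

end Pool.Agent.helper71.FF.Crt.G
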