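import Pool.Agent.helper71.FF.Crt.GP

/-!
Generated certificates.
-/

namespace Pool.Agent.helper71.FF.Crt.G

open Pool.Agent.helper31.IA (Z Op)
open Pool.Agent.helper31.IC

theorem c4_6_m1_t0 : CovD 0 progs [(5497558138880, 1099511627776), (38654705664, 38654705664), (549755813888, 549755813888), (824633720832, 274877906944)] :=
  Pool.Agent.helper14.QF.covD_F chks_eq (.l 7)
    [(5497558138880, 1099511627776), (38654705664, 38654705664), (549755813888, 549755813888), (824633720832, 274877906944)] rfl (by decide +kernel)
theorem c4_6_m1_t1 : CovD 0 progs [(5497558138880, 1099511627776), (115964116992, 38654705664), (274877906944, 274877906944), (824633720832, 274877906944)] :=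
  Pool.Agent.helper14.QF.covD_F chks_eq (.l 7)
    [(5497558138880, 1099511627776), (115964116992, 38654705664), (274877906944, 274877906944), (824633720832, 274877906944)] rfl (by decide +kernel)
theorem c4_6_m1_t2 : CovD 0 progs [(5497558138880, 1099511627776), (96636764160, 19327352832), (824633720832, 274877906944), (824633720832, 274877906944)] :=
  Pool.Agent.helper14.QF.covD_F chks_eq (.n 2 (.l 7) (.n 3 (.l 7) (.n 0 (.n 2 (.l 0) (.l 0)) (.n 1 (.l 0) (.l 3)))))
    [(5497558138880, 1099511627776), (96636764160, 19327352832), (824633720832, 274877906944), (824633720832, 274877906944)] rfl (by decide +kernel)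
theorem c4_6_m1_t3 : CovD 0 progs [(5497558138880, 1099511627776), (135291469824, 19327352832), (824633720832, 274877906944), (824633720832, 274877906944)] :=
  Pool.Agent.helper14.QF.covD_F chks_eq (.n 2 (.n 3 (.l 7) (.n 0 (.n 0 (.l 7) (.n 2 (.l 0) (.l 0))) (.n 2 (.l 0) (.l 0)))) (.n 0 (.n 2 (.n 3 (.l 3) (.n 0 (.l 0) (.l 0))) (.n 3 (.l 3) (.l 3))) (.n 2 (.n 2 (.l 3) (.l 3)) (.n 3 (.l 3) (.l 3)))))
    [(5497558138880, 1099511627776), (135291469824, 19327352832), (824633720832, 274877906944), (824633720832, 274877906944)] rfl (by decide +kernel)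
theorem c4_6_m1_t4 : CovD 0 progs [(5497558138880, 1099511627776), (115964116992, 38654705664), (824633720832, 274877906944), (824633720832, 274877906944)] :=
  covD_split 1 (by decide +kernel) c4_6_m1_t2 c4_6_m1_t3
theorem c4_6_m1_t5 : CovD 0 progs [(5497558138880, 1099511627776), (115964116992, 38654705664), (549755813888, 549755813888), (824633720832, 274877906944)] :=
  covD_split 2 (by decide +kernel) c4_6_m1_t1 c4_6_m1_t4
theorem c4_6_m1 : CovD 0 progs [(5497558138880, 1099511627776), (77309411328, 77309411328), (549755813888, 549755813888), (824633720832, 274877906944)] :=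
  covD_split 1 (by decide +kernel) c4_6_m1_t0 c4_6_m1_t5

end Pool.Agent.helper71.FF.Crt.G
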