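import Pool.Agent.helper71.FF.Crt.GP

/-!
Generated certificates.
-/

namespace Pool.Agent.helper71.FF.Crt.G

open Pool.Agent.helper31.IA (Z Op)
open Pool.Agent.helper31.IC

theorem c4_6_m2_t0 : CovD 0 progs [(5497558138880, 1099511627776), (231928233984, 77309411328), (137438953472, 137438953472), (824633720832, 274877906944)] :=
  Pool.Agent.helper14.QF.covD_F chks_eq (.l 7)
    [(5497558138880, 1099511627776), (231928233984, 77309411328), (137438953472, 137438953472), (824633720832, 274877906944)] rfl (by decide +kernel)
theorem c4_6_m2_t1 : CovD 0 progs [(5497558138880, 1099511627776), (193273528320, 38654705664), (412316860416, 137438953472), (824633720832, 274877906944)] :=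
  Pool.Agent.helper14.QF.covD_F chks_eq (.n 2 (.l 7) (.n 3 (.l 7) (.n 0 (.n 0 (.l 7) (.n 1 (.l 1) (.n 2 (.l 1) (.l 1)))) (.n 1 (.n 0 (.l 1) (.l 1)) (.n 2 (.l 1) (.l 1))))))
    [(5497558138880, 1099511627776), (193273528320, 38654705664), (412316860416, 137438953472), (824633720832, 274877906944)] rfl (by decide +kernel)
theorem c4_6_m2_t2 : CovD 0 progs [(5497558138880, 1099511627776), (241591910400, 9663676416), (412316860416, 137438953472), (824633720832, 274877906944)] :=
  Pool.Agent.helper14.QF.covD_F chks_eq (.n 0 (.n 2 (.l 7) (.n 3 (.l 7) (.n 2 (.n 0 (.l 7) (.l 1)) (.n 3 (.n 0 (.l 7) (.l 1)) (.l 1))))) (.n 2 (.n 0 (.l 7) (.n 3 (.l 7) (.l 1))) (.n 3 (.n 1 (.l 7) (.l 6)) (.n 2 (.l 1) (.n 0 (.l 1) (.l 1))))))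
    [(5497558138880, 1099511627776), (241591910400, 9663676416), (412316860416, 137438953472), (824633720832, 274877906944)] rfl (by decide +kernel)
theorem c4_6_m2_t3 : CovD 0 progs [(5497558138880, 1099511627776), (260919263232, 9663676416), (412316860416, 137438953472), (824633720832, 274877906944)] :=
  Pool.Agent.helper14.QF.covD_F chks_eq (.n 2 (.l 6) (.n 2 (.l 6) (.n 1 (.n 3 (.l 6) (.l 6)) (.l 6))))
    [(5497558138880, 1099511627776), (260919263232, 9663676416), (412316860416, 137438953472), (824633720832, 274877906944)] rfl (by decide +kernel)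
theorem c4_6_m2_t4 : CovD 0 progs [(5497558138880, 1099511627776), (251255586816, 19327352832), (412316860416, 137438953472), (824633720832, 274877906944)] :=
  covD_split 1 (by decide +kernel) c4_6_m2_t2 c4_6_m2_t3
theorem c4_6_m2_t5 : CovD 0 progs [(5497558138880, 1099511627776), (289910292480, 19327352832), (412316860416, 137438953472), (824633720832, 274877906944)] :=
  Pool.Agent.helper14.QF.covD_F chks_eq (.n 2 (.l 6) (.n 1 (.l 6) (.l 6)))
    [(5497558138880, 1099511627776), (289910292480, 19327352832), (412316860416, 137438953472), (824633720832, 274877906944)] rfl (by decide +kernel)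
theorem c4_6_m2_t6 : CovD 0 progs [(5497558138880, 1099511627776), (270582939648, 38654705664), (412316860416, 137438953472), (824633720832, 274877906944)] :=
  covD_split 1 (by decide +kernel) c4_6_m2_t4 c4_6_m2_t5
theorem c4_6_m2_t7 : CovD 0 progs [(5497558138880, 1099511627776), (231928233984, 77309411328), (412316860416, 137438953472), (824633720832, 274877906944)] :=
  covD_split 1 (by decide +kernel) c4_6_m2_t1 c4_6_m2_t6
theorem c4_6_m2 : CovD 0 progs [(5497558138880, 1099511627776), (231928233984, 77309411328), (274877906944, 274877906944), (824633720832, 274877906944)] :=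
  covD_split 2 (by decide +kernel) c4_6_m2_t0 c4_6_m2_t7

end Pool.Agent.helper71.FF.Crt.G
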