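import Pool.Agent.helper71.FF.Crt.GP

/-!
Generated certificates.
-/

namespace Pool.Agent.helper71.FF.Crt.G

open Pool.Agent.helper31.IA (Z Op)
open Pool.Agent.helper31.IC

theorem c4_6_m4_t0 : CovD 0 progs [(4947802324992, 549755813888), (241591910400, 9663676416), (687194767360, 137438953472), (687194767360, 137438953472)] :=
  Pool.Agent.helper14.QF.covD_F chks_eq (.n 0 (.n 2 (.l 7) (.n 3 (.l 7) (.n 2 (.n 3 (.l 7) (.l 3)) (.n 0 (.l 3) (.l 3))))) (.n 2 (.n 2 (.l 7) (.n 2 (.l 3) (.l 3))) (.n 2 (.n 2 (.l 3) (.l 3)) (.n 2 (.l 3) (.l 3)))))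
    [(4947802324992, 549755813888), (241591910400, 9663676416), (687194767360, 137438953472), (687194767360, 137438953472)] rfl (by decide +kernel)
theorem c4_6_m4_t1 : CovD 0 progs [(4947802324992, 549755813888), (241591910400, 9663676416), (962072674304, 137438953472), (687194767360, 137438953472)] :=
  Pool.Agent.helper14.QF.covD_F chks_eq (.n 2 (.n 0 (.n 2 (.n 3 (.n 0 (.l 3) (.l 3)) (.l 3)) (.n 3 (.l 3) (.l 3))) (.n 3 (.n 0 (.l 3) (.l 3)) (.l 3))) (.n 3 (.n 0 (.n 2 (.l 3) (.l 3)) (.l 3)) (.n 2 (.l 3) (.l 3))))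
    [(4947802324992, 549755813888), (241591910400, 9663676416), (962072674304, 137438953472), (687194767360, 137438953472)] rfl (by decide +kernel)
theorem c4_6_m4_t2 : CovD 0 progs [(4947802324992, 549755813888), (241591910400, 9663676416), (824633720832, 274877906944), (687194767360, 137438953472)] :=
  covD_split 2 (by decide +kernel) c4_6_m4_t0 c4_6_m4_t1
theorem c4_6_m4_t3 : CovD 0 progs [(4947802324992, 549755813888), (241591910400, 9663676416), (687194767360, 137438953472), (962072674304, 137438953472)] :=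
  Pool.Agent.helper14.QF.covD_F chks_eq (.n 2 (.n 2 (.n 3 (.n 0 (.n 0 (.l 4) (.l 1)) (.l 1)) (.l 4)) (.n 3 (.n 0 (.n 0 (.l 4) (.l 3)) (.l 1)) (.l 4))) (.n 2 (.n 3 (.n 0 (.n 0 (.l 3) (.l 3)) (.l 3)) (.l 4)) (.n 0 (.n 2 (.l 3) (.l 3)) (.l 3))))
    [(4947802324992, 549755813888), (241591910400, 9663676416), (687194767360, 137438953472), (962072674304, 137438953472)] rfl (by decide +kernel)
theorem c4_6_m4_t4 : CovD 0 progs [(4947802324992, 549755813888), (241591910400, 9663676416), (962072674304, 137438953472), (962072674304, 137438953472)] :=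
  Pool.Agent.helper14.QF.covD_F chks_eq (.n 2 (.n 2 (.n 3 (.l 3) (.l 3)) (.n 0 (.l 3) (.l 3))) (.n 3 (.n 0 (.l 3) (.l 3)) (.l 3)))
    [(4947802324992, 549755813888), (241591910400, 9663676416), (962072674304, 137438953472), (962072674304, 137438953472)] rfl (by decide +kernel)
theorem c4_6_m4_t5 : CovD 0 progs [(4947802324992, 549755813888), (241591910400, 9663676416), (824633720832, 274877906944), (962072674304, 137438953472)] :=
  covD_split 2 (by decide +kernel) c4_6_m4_t3 c4_6_m4_t4
theorem c4_6_m4_t6 : CovD 0 progs [(4947802324992, 549755813888), (241591910400, 9663676416), (824633720832, 274877906944), (824633720832, 274877906944)] :=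
  covD_split 3 (by decide +kernel) c4_6_m4_t2 c4_6_m4_t5
theorem c4_6_m4_t7 : CovD 0 progs [(6047313952768, 549755813888), (241591910400, 9663676416), (687194767360, 137438953472), (824633720832, 274877906944)] :=
  Pool.Agent.helper14.QF.covD_F chks_eq (.n 2 (.n 2 (.n 3 (.n 3 (.l 3) (.l 3)) (.n 0 (.l 1) (.l 1))) (.n 0 (.n 3 (.l 3) (.l 3)) (.n 3 (.l 3) (.l 3)))) (.n 2 (.n 0 (.n 3 (.l 3) (.l 3)) (.n 3 (.l 3) (.l 3))) (.n 3 (.n 0 (.l 3) (.l 3)) (.l 3))))
    [(6047313952768, 549755813888), (241591910400, 9663676416), (687194767360, 137438953472), (824633720832, 274877906944)] rfl (by decide +kernel)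
theorem c4_6_m4_t8 : CovD 0 progs [(6047313952768, 549755813888), (241591910400, 9663676416), (962072674304, 137438953472), (824633720832, 274877906944)] :=
  Pool.Agent.helper14.QF.covD_F chks_eq (.n 2 (.n 2 (.n 3 (.n 0 (.l 3) (.l 3)) (.l 3)) (.n 3 (.n 0 (.l 3) (.l 3)) (.l 3))) (.n 2 (.n 3 (.n 0 (.l 3) (.l 3)) (.l 3)) (.n 3 (.l 3) (.l 3))))
    [(6047313952768, 549755813888), (241591910400, 9663676416), (962072674304, 137438953472), (824633720832, 274877906944)] rfl (by decide +kernel)
theorem c4_6_m4_t9 : CovD 0 progs [(6047313952768, 549755813888), (241591910400, 9663676416), (824633720832, 274877906944), (824633720832, 274877906944)] :=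
  covD_split 2 (by decide +kernel) c4_6_m4_t7 c4_6_m4_t8
theorem c4_6_m4_t10 : CovD 0 progs [(5497558138880, 1099511627776), (241591910400, 9663676416), (824633720832, 274877906944), (824633720832, 274877906944)] :=
  covD_split 0 (by decide +kernel) c4_6_m4_t6 c4_6_m4_t9
theorem c4_6_m4_t11 : CovD 0 progs [(5497558138880, 1099511627776), (260919263232, 9663676416), (618475290624, 68719476736), (824633720832, 274877906944)] :=
  Pool.Agent.helper14.QF.covD_F chks_eq (.n 3 (.l 6) (.n 3 (.n 1 (.n 1 (.n 2 (.l 6) (.n 0 (.n 3 (.l 6) (.l 4)) (.l 3))) (.l 6)) (.l 6)) (.n 0 (.n 0 (.n 2 (.n 0 (.l 4) (.l 1)) (.l 4)) (.n 2 (.l 1) (.l 1))) (.n 2 (.l 1) (.l 3)))))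
    [(5497558138880, 1099511627776), (260919263232, 9663676416), (618475290624, 68719476736), (824633720832, 274877906944)] rfl (by decide +kernel)
theorem c4_6_m4_t12 : CovD 0 progs [(5497558138880, 1099511627776), (260919263232, 9663676416), (755914244096, 68719476736), (687194767360, 137438953472)] :=
  Pool.Agent.helper14.QF.covD_F chks_eq (.n 1 (.n 3 (.l 6) (.n 2 (.l 6) (.n 0 (.n 0 (.n 3 (.l 6) (.l 3)) (.l 3)) (.l 3)))) (.n 2 (.l 6) (.l 6)))
    [(5497558138880, 1099511627776), (260919263232, 9663676416), (755914244096, 68719476736), (687194767360, 137438953472)] rfl (by decide +kernel)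
theorem c4_6_m4_t13 : CovD 0 progs [(4947802324992, 549755813888), (260919263232, 9663676416), (755914244096, 68719476736), (962072674304, 137438953472)] :=
  Pool.Agent.helper14.QF.covD_F chks_eq (.n 0 (.n 2 (.n 1 (.n 3 (.n 2 (.l 4) (.l 3)) (.l 3)) (.n 3 (.n 3 (.l 6) (.l 4)) (.l 4))) (.n 3 (.n 2 (.n 3 (.l 3) (.l 3)) (.l 3)) (.l 3))) (.n 2 (.n 3 (.n 0 (.l 3) (.l 3)) (.l 3)) (.n 3 (.l 3) (.l 3))))
    [(4947802324992, 549755813888), (260919263232, 9663676416), (755914244096, 68719476736), (962072674304, 137438953472)] rfl (by decide +kernel)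
theorem c4_6_m4_t14 : CovD 0 progs [(6047313952768, 549755813888), (260919263232, 9663676416), (755914244096, 68719476736), (962072674304, 137438953472)] :=
  Pool.Agent.helper14.QF.covD_F chks_eq (.n 2 (.n 3 (.l 3) (.l 3)) (.n 0 (.l 3) (.l 3)))
    [(6047313952768, 549755813888), (260919263232, 9663676416), (755914244096, 68719476736), (962072674304, 137438953472)] rfl (by decide +kernel)
theorem c4_6_m4_t15 : CovD 0 progs [(5497558138880, 1099511627776), (260919263232, 9663676416), (755914244096, 68719476736), (962072674304, 137438953472)] :=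
  covD_split 0 (by decide +kernel) c4_6_m4_t13 c4_6_m4_t14
theorem c4_6_m4_t16 : CovD 0 progs [(5497558138880, 1099511627776), (260919263232, 9663676416), (755914244096, 68719476736), (824633720832, 274877906944)] :=
  covD_split 3 (by decide +kernel) c4_6_m4_t12 c4_6_m4_t15
theorem c4_6_m4_t17 : CovD 0 progs [(5497558138880, 1099511627776), (260919263232, 9663676416), (687194767360, 137438953472), (824633720832, 274877906944)] :=
  covD_split 2 (by decide +kernel) c4_6_m4_t11 c4_6_m4_t16
theorem c4_6_m4_t18 : CovD 0 progs [(4947802324992, 549755813888), (260919263232, 9663676416), (858993459200, 34359738368), (824633720832, 274877906944)] :=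
  Pool.Agent.helper14.QF.covD_F chks_eq (.n 3 (.n 3 (.l 6) (.n 0 (.n 1 (.n 0 (.l 3) (.l 3)) (.n 3 (.l 6) (.l 3))) (.l 3))) (.n 3 (.n 0 (.n 0 (.l 3) (.l 3)) (.l 3)) (.l 3)))
    [(4947802324992, 549755813888), (260919263232, 9663676416), (858993459200, 34359738368), (824633720832, 274877906944)] rfl (by decide +kernel)
theorem c4_6_m4_t19 : CovD 0 progs [(4947802324992, 549755813888), (260919263232, 9663676416), (927712935936, 34359738368), (824633720832, 274877906944)] :=
  Pool.Agent.helper14.QF.covD_F chks_eq (.n 3 (.n 3 (.n 1 (.n 0 (.n 1 (.l 3) (.l 6)) (.l 3)) (.l 6)) (.n 0 (.n 0 (.n 2 (.l 3) (.l 3)) (.l 3)) (.l 3))) (.n 0 (.n 2 (.l 3) (.l 3)) (.l 3)))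
    [(4947802324992, 549755813888), (260919263232, 9663676416), (927712935936, 34359738368), (824633720832, 274877906944)] rfl (by decide +kernel)
theorem c4_6_m4_t20 : CovD 0 progs [(4947802324992, 549755813888), (260919263232, 9663676416), (893353197568, 68719476736), (824633720832, 274877906944)] :=
  covD_split 2 (by decide +kernel) c4_6_m4_t18 c4_6_m4_t19
theorem c4_6_m4_t21 : CovD 0 progs [(4947802324992, 549755813888), (260919263232, 9663676416), (996432412672, 34359738368), (824633720832, 274877906944)] :=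
  Pool.Agent.helper14.QF.covD_F chks_eq (.n 3 (.n 0 (.n 3 (.n 1 (.n 0 (.l 3) (.l 3)) (.n 1 (.l 6) (.l 6))) (.l 3)) (.n 3 (.l 3) (.l 3))) (.n 3 (.l 3) (.l 3)))
    [(4947802324992, 549755813888), (260919263232, 9663676416), (996432412672, 34359738368), (824633720832, 274877906944)] rfl (by decide +kernel)
theorem c4_6_m4_t22 : CovD 0 progs [(4947802324992, 549755813888), (260919263232, 9663676416), (1065151889408, 34359738368), (824633720832, 274877906944)] :=
  Pool.Agent.helper14.QF.covD_F chks_eq (.n 0 (.n 3 (.n 3 (.n 0 (.n 2 (.l 3) (.l 3)) (.l 3)) (.l 3)) (.l 3)) (.n 3 (.n 3 (.l 3) (.l 3)) (.l 3)))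
    [(4947802324992, 549755813888), (260919263232, 9663676416), (1065151889408, 34359738368), (824633720832, 274877906944)] rfl (by decide +kernel)
theorem c4_6_m4_t23 : CovD 0 progs [(4947802324992, 549755813888), (260919263232, 9663676416), (1030792151040, 68719476736), (824633720832, 274877906944)] :=
  covD_split 2 (by decide +kernel) c4_6_m4_t21 c4_6_m4_t22
theorem c4_6_m4_t24 : CovD 0 progs [(4947802324992, 549755813888), (260919263232, 9663676416), (962072674304, 137438953472), (824633720832, 274877906944)] :=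
  covD_split 2 (by decide +kernel) c4_6_m4_t20 c4_6_m4_t23
theorem c4_6_m4_t25 : CovD 0 progs [(6047313952768, 549755813888), (260919263232, 9663676416), (962072674304, 137438953472), (824633720832, 274877906944)] :=
  Pool.Agent.helper14.QF.covD_F chks_eq (.n 2 (.n 2 (.n 3 (.n 3 (.l 6) (.l 3)) (.n 0 (.l 3) (.l 3))) (.n 3 (.n 3 (.n 0 (.l 3) (.l 3)) (.l 3)) (.l 3))) (.n 2 (.n 3 (.n 3 (.l 3) (.l 3)) (.l 3)) (.n 3 (.n 3 (.l 3) (.l 3)) (.l 3))))
    [(6047313952768, 549755813888), (260919263232, 9663676416), (962072674304, 137438953472), (824633720832, 274877906944)] rfl (by decide +kernel)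
theorem c4_6_m4_t26 : CovD 0 progs [(5497558138880, 1099511627776), (260919263232, 9663676416), (962072674304, 137438953472), (824633720832, 274877906944)] :=
  covD_split 0 (by decide +kernel) c4_6_m4_t24 c4_6_m4_t25
theorem c4_6_m4_t27 : CovD 0 progs [(5497558138880, 1099511627776), (260919263232, 9663676416), (824633720832, 274877906944), (824633720832, 274877906944)] :=
  covD_split 2 (by decide +kernel) c4_6_m4_t17 c4_6_m4_t26
theorem c4_6_m4 : CovD 0 progs [(5497558138880, 1099511627776), (251255586816, 19327352832), (824633720832, 274877906944), (824633720832, 274877906944)] :=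
  covD_split 1 (by decide +kernel) c4_6_m4_t10 c4_6_m4_t27

end Pool.Agent.helper71.FF.Crt.G
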