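import Pool.Agent.helper71.FF.Crt.GP

/-!
Generated certificates.
-/

namespace Pool.Agent.helper71.FF.Crt.G

open Pool.Agent.helper31.IA (Z Op)
open Pool.Agent.helper31.IC

theorem c6_8_m2_t0 : CovD 0 progs [(7696581394432, 1099511627776), (38654705664, 38654705664), (962072674304, 137438953472), (549755813888, 549755813888)] :=
  Pool.Agent.helper14.QF.covD_F chks_eq (.n 0 (.l 7) (.n 1 (.l 7) (.n 1 (.l 7) (.n 3 (.l 0) (.l 0)))))
    [(7696581394432, 1099511627776), (38654705664, 38654705664), (962072674304, 137438953472), (549755813888, 549755813888)] rfl (by decide +kernel)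
theorem c6_8_m2_t1 : CovD 0 progs [(7696581394432, 1099511627776), (115964116992, 38654705664), (962072674304, 137438953472), (549755813888, 549755813888)] :=
  Pool.Agent.helper14.QF.covD_F chks_eq (.n 1 (.n 3 (.l 7) (.n 1 (.n 2 (.l 0) (.l 0)) (.n 2 (.l 0) (.l 3)))) (.n 2 (.n 3 (.l 7) (.n 0 (.n 1 (.l 0) (.l 3)) (.n 1 (.l 0) (.l 3)))) (.n 3 (.n 3 (.l 3) (.l 3)) (.n 0 (.n 1 (.l 3) (.l 3)) (.n 1 (.l 3) (.l 3))))))
    [(7696581394432, 1099511627776), (115964116992, 38654705664), (962072674304, 137438953472), (549755813888, 549755813888)] rfl (by decide +kernel)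
theorem c6_8_m2_t2 : CovD 0 progs [(7696581394432, 1099511627776), (77309411328, 77309411328), (962072674304, 137438953472), (549755813888, 549755813888)] :=
  covD_split 1 (by decide +kernel) c6_8_m2_t0 c6_8_m2_t1
theorem c6_8_m2_t3 : CovD 0 progs [(7696581394432, 1099511627776), (193273528320, 38654705664), (962072674304, 137438953472), (274877906944, 274877906944)] :=
  Pool.Agent.helper14.QF.covD_F chks_eq (.n 3 (.l 7) (.n 0 (.n 1 (.n 2 (.l 3) (.l 3)) (.n 2 (.n 2 (.l 3) (.l 3)) (.n 2 (.l 3) (.l 3)))) (.n 1 (.n 2 (.l 3) (.l 3)) (.n 2 (.n 2 (.l 3) (.l 3)) (.n 2 (.l 3) (.l 3))))))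
    [(7696581394432, 1099511627776), (193273528320, 38654705664), (962072674304, 137438953472), (274877906944, 274877906944)] rfl (by decide +kernel)
theorem c6_8_m2_t4 : CovD 0 progs [(7146825580544, 549755813888), (193273528320, 38654705664), (962072674304, 137438953472), (824633720832, 274877906944)] :=
  Pool.Agent.helper14.QF.covD_F chks_eq (.n 1 (.n 2 (.n 3 (.l 3) (.l 3)) (.n 3 (.l 3) (.l 3))) (.n 2 (.n 2 (.n 3 (.l 3) (.l 3)) (.n 3 (.l 3) (.l 3))) (.n 2 (.n 3 (.l 3) (.l 3)) (.n 3 (.l 3) (.l 3)))))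
    [(7146825580544, 549755813888), (193273528320, 38654705664), (962072674304, 137438953472), (824633720832, 274877906944)] rfl (by decide +kernel)
theorem c6_8_m2_t5 : CovD 0 progs [(8246337208320, 549755813888), (193273528320, 38654705664), (962072674304, 137438953472), (824633720832, 274877906944)] :=
  Pool.Agent.helper14.QF.covD_F chks_eq (.n 1 (.n 2 (.n 3 (.l 3) (.l 3)) (.n 3 (.l 3) (.l 3))) (.n 1 (.n 2 (.n 3 (.l 3) (.l 3)) (.n 3 (.l 3) (.l 3))) (.n 2 (.n 3 (.l 3) (.l 3)) (.n 3 (.l 3) (.l 3)))))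
    [(8246337208320, 549755813888), (193273528320, 38654705664), (962072674304, 137438953472), (824633720832, 274877906944)] rfl (by decide +kernel)
theorem c6_8_m2_t6 : CovD 0 progs [(7696581394432, 1099511627776), (193273528320, 38654705664), (962072674304, 137438953472), (824633720832, 274877906944)] :=
  covD_split 0 (by decide +kernel) c6_8_m2_t4 c6_8_m2_t5
theorem c6_8_m2_t7 : CovD 0 progs [(7696581394432, 1099511627776), (193273528320, 38654705664), (962072674304, 137438953472), (549755813888, 549755813888)] :=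
  covD_split 3 (by decide +kernel) c6_8_m2_t3 c6_8_m2_t6
theorem c6_8_m2_t8 : CovD 0 progs [(7696581394432, 1099511627776), (251255586816, 19327352832), (962072674304, 137438953472), (274877906944, 274877906944)] :=
  Pool.Agent.helper14.QF.covD_F chks_eq (.n 1 (.n 3 (.l 7) (.n 0 (.n 2 (.n 2 (.l 3) (.l 3)) (.n 3 (.l 3) (.l 3))) (.n 2 (.n 2 (.l 3) (.l 3)) (.n 2 (.l 3) (.l 3))))) (.n 3 (.l 6) (.n 2 (.l 6) (.n 1 (.n 3 (.l 6) (.l 6)) (.l 6)))))
    [(7696581394432, 1099511627776), (251255586816, 19327352832), (962072674304, 137438953472), (274877906944, 274877906944)] rfl (by decide +kernel)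
theorem c6_8_m2_t9 : CovD 0 progs [(7146825580544, 549755813888), (251255586816, 19327352832), (962072674304, 137438953472), (824633720832, 274877906944)] :=
  Pool.Agent.helper14.QF.covD_F chks_eq (.n 2 (.n 2 (.n 1 (.n 3 (.l 3) (.l 3)) (.n 3 (.n 0 (.l 3) (.l 3)) (.l 3))) (.n 3 (.n 3 (.l 3) (.l 3)) (.n 0 (.l 3) (.l 3)))) (.n 2 (.n 3 (.n 3 (.l 3) (.l 3)) (.l 3)) (.n 3 (.n 3 (.l 3) (.l 3)) (.l 3))))
    [(7146825580544, 549755813888), (251255586816, 19327352832), (962072674304, 137438953472), (824633720832, 274877906944)] rfl (by decide +kernel)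
theorem c6_8_m2_t10 : CovD 0 progs [(8246337208320, 549755813888), (251255586816, 19327352832), (962072674304, 137438953472), (824633720832, 274877906944)] :=
  Pool.Agent.helper14.QF.covD_F chks_eq (.n 2 (.n 2 (.n 3 (.n 3 (.l 3) (.l 3)) (.l 3)) (.n 3 (.n 1 (.l 3) (.l 3)) (.l 3))) (.n 2 (.n 3 (.n 0 (.l 3) (.l 3)) (.l 3)) (.n 3 (.n 0 (.l 3) (.l 3)) (.l 3))))
    [(8246337208320, 549755813888), (251255586816, 19327352832), (962072674304, 137438953472), (824633720832, 274877906944)] rfl (by decide +kernel)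
theorem c6_8_m2_t11 : CovD 0 progs [(7696581394432, 1099511627776), (251255586816, 19327352832), (962072674304, 137438953472), (824633720832, 274877906944)] :=
  covD_split 0 (by decide +kernel) c6_8_m2_t9 c6_8_m2_t10
theorem c6_8_m2_t12 : CovD 0 progs [(7696581394432, 1099511627776), (251255586816, 19327352832), (962072674304, 137438953472), (549755813888, 549755813888)] :=
  covD_split 3 (by decide +kernel) c6_8_m2_t8 c6_8_m2_t11
theorem c6_8_m2_t13 : CovD 0 progs [(7696581394432, 1099511627776), (289910292480, 19327352832), (962072674304, 137438953472), (274877906944, 274877906944)] :=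
  Pool.Agent.helper14.QF.covD_F chks_eq (.n 3 (.l 6) (.n 1 (.l 6) (.l 6)))
    [(7696581394432, 1099511627776), (289910292480, 19327352832), (962072674304, 137438953472), (274877906944, 274877906944)] rfl (by decide +kernel)
theorem c6_8_m2_t14 : CovD 0 progs [(7696581394432, 1099511627776), (289910292480, 19327352832), (893353197568, 68719476736), (824633720832, 274877906944)] :=
  Pool.Agent.helper14.QF.covD_F chks_eq (.n 3 (.n 3 (.l 6) (.n 1 (.n 2 (.l 6) (.n 0 (.l 3) (.l 3))) (.l 6))) (.n 0 (.n 2 (.n 3 (.n 0 (.l 3) (.l 3)) (.l 3)) (.n 3 (.l 3) (.l 3))) (.n 2 (.n 3 (.l 3) (.l 3)) (.n 1 (.l 3) (.l 3)))))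
    [(7696581394432, 1099511627776), (289910292480, 19327352832), (893353197568, 68719476736), (824633720832, 274877906944)] rfl (by decide +kernel)
theorem c6_8_m2_t15 : CovD 0 progs [(7696581394432, 1099511627776), (289910292480, 19327352832), (1030792151040, 68719476736), (824633720832, 274877906944)] :=
  Pool.Agent.helper14.QF.covD_F chks_eq (.n 2 (.n 3 (.n 3 (.l 6) (.n 0 (.n 0 (.l 3) (.l 3)) (.l 3))) (.n 0 (.n 3 (.l 3) (.l 3)) (.n 0 (.l 3) (.l 3)))) (.n 3 (.n 3 (.n 1 (.l 6) (.l 6)) (.n 0 (.n 0 (.l 3) (.l 3)) (.l 3))) (.n 3 (.n 0 (.l 3) (.l 3)) (.l 3))))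
    [(7696581394432, 1099511627776), (289910292480, 19327352832), (1030792151040, 68719476736), (824633720832, 274877906944)] rfl (by decide +kernel)
theorem c6_8_m2_t16 : CovD 0 progs [(7696581394432, 1099511627776), (289910292480, 19327352832), (962072674304, 137438953472), (824633720832, 274877906944)] :=
  covD_split 2 (by decide +kernel) c6_8_m2_t14 c6_8_m2_t15
theorem c6_8_m2_t17 : CovD 0 progs [(7696581394432, 1099511627776), (289910292480, 19327352832), (962072674304, 137438953472), (549755813888, 549755813888)] :=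
  covD_split 3 (by decide +kernel) c6_8_m2_t13 c6_8_m2_t16
theorem c6_8_m2_t18 : CovD 0 progs [(7696581394432, 1099511627776), (270582939648, 38654705664), (962072674304, 137438953472), (549755813888, 549755813888)] :=
  covD_split 1 (by decide +kernel) c6_8_m2_t12 c6_8_m2_t17
theorem c6_8_m2_t19 : CovD 0 progs [(7696581394432, 1099511627776), (231928233984, 77309411328), (962072674304, 137438953472), (549755813888, 549755813888)] :=
  covD_split 1 (by decide +kernel) c6_8_m2_t7 c6_8_m2_t18
theorem c6_8_m2 : CovD 0 progs [(7696581394432, 1099511627776), (154618822656, 154618822656), (962072674304, 137438953472), (549755813888, 549755813888)] :=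
  covD_split 1 (by decide +kernel) c6_8_m2_t2 c6_8_m2_t19

end Pool.Agent.helper71.FF.Crt.G
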