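import Pool.Agent.helper71.FF.Crt.Gc6_8_0
import Pool.Agent.helper71.FF.Crt.Gc6_8_1
import Pool.Agent.helper71.FF.Crt.Gc6_8_2

/-!
Generated certificates, assembled.
-/

namespace Pool.Agent.helper71.FF.Crt.G

open Pool.Agent.helper31.IA (Z Op)
open Pool.Agent.helper31.IC

theorem c6_8_top0 : CovD 0 progs [(7696581394432, 1099511627776), (154618822656, 154618822656), (824633720832, 274877906944), (549755813888, 549755813888)] :=
  covD_split 2 (by decide +kernel) c6_8_m1 c6_8_m2
theorem c6_8_top1 : CovD 0 progs [(7696581394432, 1099511627776), (154618822656, 154618822656), (549755813888, 549755813888), (549755813888, 549755813888)] :=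
  covD_split 2 (by decide +kernel) c6_8_m0 c6_8_top0

theorem c6_8_all : CovD 0 progs [(7696581394432, 1099511627776), (154618822656, 154618822656), (549755813888, 549755813888), (549755813888, 549755813888)] := c6_8_top1

end Pool.Agent.helper71.FF.Crt.G
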