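import Pool.Agent.helper71.FF.Crt.GP

/-!
Generated certificates.
-/

namespace Pool.Agent.helper71.FF.Crt.G

open Pool.Agent.helper31.IA (Z Op)
open Pool.Agent.helper31.IC

theorem c8_12_m3_t0 : CovD 0 progs [(9895604649984, 1099511627776), (173946175488, 19327352832), (824633720832, 274877906944), (824633720832, 274877906944)] :=
  Pool.Agent.helper14.QF.covD_F chks_eq (.n 0 (.n 2 (.n 2 (.n 3 (.l 3) (.l 3)) (.n 3 (.l 3) (.l 3))) (.n 2 (.n 3 (.l 3) (.l 3)) (.n 3 (.l 3) (.l 3)))) (.n 2 (.n 2 (.n 3 (.l 3) (.l 3)) (.n 3 (.l 3) (.l 3))) (.n 2 (.n 3 (.l 3) (.l 3)) (.n 3 (.l 3) (.l 3)))))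
    [(9895604649984, 1099511627776), (173946175488, 19327352832), (824633720832, 274877906944), (824633720832, 274877906944)] rfl (by decide +kernel)
theorem c8_12_m3_t1 : CovD 0 progs [(9895604649984, 1099511627776), (212600881152, 19327352832), (687194767360, 137438953472), (824633720832, 274877906944)] :=
  Pool.Agent.helper14.QF.covD_F chks_eq (.n 2 (.n 0 (.n 2 (.n 3 (.l 3) (.l 3)) (.n 3 (.l 3) (.l 3))) (.n 2 (.n 3 (.l 3) (.l 3)) (.n 3 (.l 3) (.l 3)))) (.n 2 (.n 0 (.n 3 (.l 3) (.l 3)) (.n 3 (.l 3) (.l 3))) (.n 3 (.n 0 (.l 3) (.l 3)) (.l 3))))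
    [(9895604649984, 1099511627776), (212600881152, 19327352832), (687194767360, 137438953472), (824633720832, 274877906944)] rfl (by decide +kernel)
theorem c8_12_m3_t2 : CovD 0 progs [(9895604649984, 1099511627776), (212600881152, 19327352832), (962072674304, 137438953472), (824633720832, 274877906944)] :=
  Pool.Agent.helper14.QF.covD_F chks_eq (.n 2 (.n 2 (.n 3 (.n 0 (.l 3) (.l 3)) (.l 3)) (.n 3 (.n 0 (.l 3) (.l 3)) (.l 3))) (.n 2 (.n 3 (.n 0 (.l 3) (.l 3)) (.l 3)) (.n 3 (.n 0 (.l 3) (.l 3)) (.l 3))))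
    [(9895604649984, 1099511627776), (212600881152, 19327352832), (962072674304, 137438953472), (824633720832, 274877906944)] rfl (by decide +kernel)
theorem c8_12_m3_t3 : CovD 0 progs [(9895604649984, 1099511627776), (212600881152, 19327352832), (824633720832, 274877906944), (824633720832, 274877906944)] :=
  covD_split 2 (by decide +kernel) c8_12_m3_t1 c8_12_m3_t2
theorem c8_12_m3_t4 : CovD 0 progs [(9895604649984, 1099511627776), (193273528320, 38654705664), (824633720832, 274877906944), (824633720832, 274877906944)] :=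
  covD_split 1 (by decide +kernel) c8_12_m3_t0 c8_12_m3_t3
theorem c8_12_m3_t5 : CovD 0 progs [(12094627905536, 1099511627776), (173946175488, 19327352832), (824633720832, 274877906944), (824633720832, 274877906944)] :=
  Pool.Agent.helper14.QF.covD_F chks_eq (.n 2 (.n 2 (.n 2 (.n 3 (.l 3) (.l 0)) (.n 3 (.l 3) (.l 3))) (.n 0 (.n 3 (.l 3) (.l 3)) (.n 3 (.l 3) (.l 3)))) (.n 0 (.n 2 (.n 3 (.l 3) (.l 3)) (.n 3 (.l 3) (.l 3))) (.n 2 (.n 3 (.l 3) (.l 3)) (.n 3 (.l 3) (.l 3)))))
    [(12094627905536, 1099511627776), (173946175488, 19327352832), (824633720832, 274877906944), (824633720832, 274877906944)] rfl (by decide +kernel)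
theorem c8_12_m3_t6 : CovD 0 progs [(12094627905536, 1099511627776), (212600881152, 19327352832), (687194767360, 137438953472), (824633720832, 274877906944)] :=
  Pool.Agent.helper14.QF.covD_F chks_eq (.n 2 (.n 2 (.n 1 (.n 3 (.l 3) (.l 0)) (.n 3 (.n 0 (.l 3) (.l 3)) (.l 3))) (.n 3 (.n 3 (.l 3) (.l 3)) (.n 0 (.l 3) (.l 3)))) (.n 2 (.n 3 (.n 0 (.l 3) (.l 3)) (.l 3)) (.n 3 (.n 0 (.l 3) (.l 3)) (.l 3))))
    [(12094627905536, 1099511627776), (212600881152, 19327352832), (687194767360, 137438953472), (824633720832, 274877906944)] rfl (by decide +kernel)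
theorem c8_12_m3_t7 : CovD 0 progs [(12094627905536, 1099511627776), (212600881152, 19327352832), (962072674304, 137438953472), (824633720832, 274877906944)] :=
  Pool.Agent.helper14.QF.covD_F chks_eq (.n 2 (.n 2 (.n 3 (.n 0 (.l 3) (.l 3)) (.l 3)) (.n 3 (.n 0 (.l 3) (.l 3)) (.l 3))) (.n 2 (.n 3 (.l 3) (.l 3)) (.n 3 (.l 3) (.l 3))))
    [(12094627905536, 1099511627776), (212600881152, 19327352832), (962072674304, 137438953472), (824633720832, 274877906944)] rfl (by decide +kernel)
theorem c8_12_m3_t8 : CovD 0 progs [(12094627905536, 1099511627776), (212600881152, 19327352832), (824633720832, 274877906944), (824633720832, 274877906944)] :=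
  covD_split 2 (by decide +kernel) c8_12_m3_t6 c8_12_m3_t7
theorem c8_12_m3_t9 : CovD 0 progs [(12094627905536, 1099511627776), (193273528320, 38654705664), (824633720832, 274877906944), (824633720832, 274877906944)] :=
  covD_split 1 (by decide +kernel) c8_12_m3_t5 c8_12_m3_t8
theorem c8_12_m3 : CovD 0 progs [(10995116277760, 2199023255552), (193273528320, 38654705664), (824633720832, 274877906944), (824633720832, 274877906944)] :=
  covD_split 0 (by decide +kernel) c8_12_m3_t4 c8_12_m3_t9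

end Pool.Agent.helper71.FF.Crt.G
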