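import Pool.Agent.helper71.FF.Crt.GP

/-!
Generated certificates.
-/

namespace Pool.Agent.helper71.FF.Crt.G

open Pool.Agent.helper31.IA (Z Op)
open Pool.Agent.helper31.IC

theorem c8_12_m4_t0 : CovD 0 progs [(10995116277760, 2199023255552), (251255586816, 19327352832), (687194767360, 137438953472), (618475290624, 68719476736)] :=
  Pool.Agent.helper14.QF.covD_F chks_eq (.n 1 (.n 0 (.n 2 (.n 1 (.n 0 (.l 3) (.l 3)) (.l 6)) (.n 0 (.l 3) (.l 3))) (.n 2 (.n 1 (.n 0 (.l 3) (.l 5)) (.l 6)) (.n 0 (.l 3) (.l 3)))) (.l 6))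
    [(10995116277760, 2199023255552), (251255586816, 19327352832), (687194767360, 137438953472), (618475290624, 68719476736)] rfl (by decide +kernel)
theorem c8_12_m4_t1 : CovD 0 progs [(10995116277760, 2199023255552), (251255586816, 19327352832), (687194767360, 137438953472), (755914244096, 68719476736)] :=
  Pool.Agent.helper14.QF.covD_F chks_eq (.n 1 (.n 0 (.n 2 (.n 2 (.l 3) (.l 3)) (.n 0 (.l 3) (.l 3))) (.n 2 (.n 2 (.l 3) (.l 3)) (.n 0 (.l 3) (.l 3)))) (.n 2 (.l 6) (.n 0 (.n 2 (.l 3) (.l 3)) (.n 2 (.l 3) (.l 3)))))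
    [(10995116277760, 2199023255552), (251255586816, 19327352832), (687194767360, 137438953472), (755914244096, 68719476736)] rfl (by decide +kernel)
theorem c8_12_m4_t2 : CovD 0 progs [(10995116277760, 2199023255552), (251255586816, 19327352832), (687194767360, 137438953472), (687194767360, 137438953472)] :=
  covD_split 3 (by decide +kernel) c8_12_m4_t0 c8_12_m4_t1
theorem c8_12_m4_t3 : CovD 0 progs [(9895604649984, 1099511627776), (251255586816, 19327352832), (687194767360, 137438953472), (962072674304, 137438953472)] :=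
  Pool.Agent.helper14.QF.covD_F chks_eq (.n 2 (.n 2 (.n 3 (.n 0 (.l 3) (.l 3)) (.l 4)) (.n 3 (.n 0 (.l 3) (.l 3)) (.l 3))) (.n 0 (.n 2 (.n 0 (.l 3) (.l 3)) (.l 3)) (.n 2 (.l 3) (.l 3))))
    [(9895604649984, 1099511627776), (251255586816, 19327352832), (687194767360, 137438953472), (962072674304, 137438953472)] rfl (by decide +kernel)
theorem c8_12_m4_t4 : CovD 0 progs [(12094627905536, 1099511627776), (251255586816, 19327352832), (687194767360, 137438953472), (962072674304, 137438953472)] :=
  Pool.Agent.helper14.QF.covD_F chks_eq (.n 2 (.n 2 (.n 3 (.n 0 (.l 3) (.l 3)) (.l 3)) (.n 1 (.l 3) (.n 0 (.l 3) (.l 3)))) (.n 0 (.n 2 (.l 3) (.l 3)) (.n 2 (.l 3) (.l 3))))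
    [(12094627905536, 1099511627776), (251255586816, 19327352832), (687194767360, 137438953472), (962072674304, 137438953472)] rfl (by decide +kernel)
theorem c8_12_m4_t5 : CovD 0 progs [(10995116277760, 2199023255552), (251255586816, 19327352832), (687194767360, 137438953472), (962072674304, 137438953472)] :=
  covD_split 0 (by decide +kernel) c8_12_m4_t3 c8_12_m4_t4
theorem c8_12_m4_t6 : CovD 0 progs [(10995116277760, 2199023255552), (251255586816, 19327352832), (687194767360, 137438953472), (824633720832, 274877906944)] :=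
  covD_split 3 (by decide +kernel) c8_12_m4_t2 c8_12_m4_t5
theorem c8_12_m4_t7 : CovD 0 progs [(10995116277760, 2199023255552), (280246616064, 9663676416), (687194767360, 137438953472), (824633720832, 274877906944)] :=
  Pool.Agent.helper14.QF.covD_F chks_eq (.n 2 (.n 3 (.l 6) (.n 1 (.n 2 (.l 6) (.l 6)) (.l 6))) (.n 2 (.n 3 (.l 6) (.n 3 (.l 6) (.n 0 (.l 3) (.l 3)))) (.n 3 (.l 6) (.n 0 (.n 0 (.l 3) (.l 3)) (.n 0 (.l 3) (.l 3))))))
    [(10995116277760, 2199023255552), (280246616064, 9663676416), (687194767360, 137438953472), (824633720832, 274877906944)] rfl (by decide +kernel)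
theorem c8_12_m4_t8 : CovD 0 progs [(10995116277760, 2199023255552), (299573968896, 9663676416), (687194767360, 137438953472), (824633720832, 274877906944)] :=
  Pool.Agent.helper14.QF.covD_F chks_eq (.n 3 (.l 6) (.n 2 (.l 6) (.n 3 (.l 6) (.n 2 (.l 6) (.n 0 (.l 3) (.l 3))))))
    [(10995116277760, 2199023255552), (299573968896, 9663676416), (687194767360, 137438953472), (824633720832, 274877906944)] rfl (by decide +kernel)
theorem c8_12_m4_t9 : CovD 0 progs [(10995116277760, 2199023255552), (289910292480, 19327352832), (687194767360, 137438953472), (824633720832, 274877906944)] :=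
  covD_split 1 (by decide +kernel) c8_12_m4_t7 c8_12_m4_t8
theorem c8_12_m4_t10 : CovD 0 progs [(10995116277760, 2199023255552), (270582939648, 38654705664), (687194767360, 137438953472), (824633720832, 274877906944)] :=
  covD_split 1 (by decide +kernel) c8_12_m4_t6 c8_12_m4_t9
theorem c8_12_m4_t11 : CovD 0 progs [(9895604649984, 1099511627776), (251255586816, 19327352832), (893353197568, 68719476736), (824633720832, 274877906944)] :=
  Pool.Agent.helper14.QF.covD_F chks_eq (.n 2 (.n 0 (.n 3 (.n 1 (.l 3) (.l 3)) (.l 3)) (.n 3 (.n 0 (.l 3) (.l 3)) (.l 3))) (.n 3 (.n 3 (.n 0 (.l 3) (.l 3)) (.l 3)) (.n 0 (.l 3) (.l 3))))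
    [(9895604649984, 1099511627776), (251255586816, 19327352832), (893353197568, 68719476736), (824633720832, 274877906944)] rfl (by decide +kernel)
theorem c8_12_m4_t12 : CovD 0 progs [(9895604649984, 1099511627776), (251255586816, 19327352832), (1030792151040, 68719476736), (824633720832, 274877906944)] :=
  Pool.Agent.helper14.QF.covD_F chks_eq (.n 2 (.n 1 (.n 3 (.l 3) (.l 3)) (.n 3 (.n 0 (.l 3) (.l 3)) (.l 3))) (.n 3 (.n 3 (.l 3) (.l 3)) (.n 0 (.l 3) (.l 3))))
    [(9895604649984, 1099511627776), (251255586816, 19327352832), (1030792151040, 68719476736), (824633720832, 274877906944)] rfl (by decide +kernel)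
theorem c8_12_m4_t13 : CovD 0 progs [(9895604649984, 1099511627776), (251255586816, 19327352832), (962072674304, 137438953472), (824633720832, 274877906944)] :=
  covD_split 2 (by decide +kernel) c8_12_m4_t11 c8_12_m4_t12
theorem c8_12_m4_t14 : CovD 0 progs [(12094627905536, 1099511627776), (251255586816, 19327352832), (962072674304, 137438953472), (824633720832, 274877906944)] :=
  Pool.Agent.helper14.QF.covD_F chks_eq (.n 2 (.n 2 (.n 3 (.n 3 (.n 0 (.l 3) (.l 3)) (.l 3)) (.n 0 (.l 3) (.l 3))) (.n 3 (.n 3 (.l 3) (.l 3)) (.n 0 (.l 3) (.l 3)))) (.n 2 (.n 3 (.n 0 (.l 3) (.l 3)) (.l 3)) (.n 3 (.n 0 (.l 3) (.l 3)) (.l 3))))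
    [(12094627905536, 1099511627776), (251255586816, 19327352832), (962072674304, 137438953472), (824633720832, 274877906944)] rfl (by decide +kernel)
theorem c8_12_m4_t15 : CovD 0 progs [(10995116277760, 2199023255552), (251255586816, 19327352832), (962072674304, 137438953472), (824633720832, 274877906944)] :=
  covD_split 0 (by decide +kernel) c8_12_m4_t13 c8_12_m4_t14
theorem c8_12_m4_t16 : CovD 0 progs [(10995116277760, 2199023255552), (289910292480, 19327352832), (962072674304, 137438953472), (687194767360, 137438953472)] :=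
  Pool.Agent.helper14.QF.covD_F chks_eq (.n 3 (.n 1 (.n 1 (.n 2 (.l 6) (.l 6)) (.l 6)) (.l 6)) (.n 1 (.n 2 (.n 2 (.l 6) (.n 0 (.l 3) (.l 3))) (.n 0 (.n 0 (.l 3) (.l 3)) (.l 3))) (.n 2 (.l 6) (.n 2 (.l 6) (.n 0 (.l 3) (.l 3))))))
    [(10995116277760, 2199023255552), (289910292480, 19327352832), (962072674304, 137438953472), (687194767360, 137438953472)] rfl (by decide +kernel)
theorem c8_12_m4_t17 : CovD 0 progs [(9895604649984, 1099511627776), (289910292480, 19327352832), (962072674304, 137438953472), (962072674304, 137438953472)] :=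
  Pool.Agent.helper14.QF.covD_F chks_eq (.n 2 (.n 2 (.n 3 (.n 0 (.l 3) (.l 3)) (.l 3)) (.n 3 (.n 0 (.l 3) (.l 3)) (.l 3))) (.n 2 (.n 3 (.l 3) (.l 3)) (.n 3 (.l 3) (.l 3))))
    [(9895604649984, 1099511627776), (289910292480, 19327352832), (962072674304, 137438953472), (962072674304, 137438953472)] rfl (by decide +kernel)
theorem c8_12_m4_t18 : CovD 0 progs [(12094627905536, 1099511627776), (289910292480, 19327352832), (962072674304, 137438953472), (962072674304, 137438953472)] :=
  Pool.Agent.helper14.QF.covD_F chks_eq (.n 2 (.n 2 (.n 3 (.l 3) (.l 3)) (.n 0 (.l 3) (.l 3))) (.n 0 (.n 2 (.l 3) (.l 3)) (.n 2 (.l 3) (.l 3))))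
    [(12094627905536, 1099511627776), (289910292480, 19327352832), (962072674304, 137438953472), (962072674304, 137438953472)] rfl (by decide +kernel)
theorem c8_12_m4_t19 : CovD 0 progs [(10995116277760, 2199023255552), (289910292480, 19327352832), (962072674304, 137438953472), (962072674304, 137438953472)] :=
  covD_split 0 (by decide +kernel) c8_12_m4_t17 c8_12_m4_t18
theorem c8_12_m4_t20 : CovD 0 progs [(10995116277760, 2199023255552), (289910292480, 19327352832), (962072674304, 137438953472), (824633720832, 274877906944)] :=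
  covD_split 3 (by decide +kernel) c8_12_m4_t16 c8_12_m4_t19
theorem c8_12_m4_t21 : CovD 0 progs [(10995116277760, 2199023255552), (270582939648, 38654705664), (962072674304, 137438953472), (824633720832, 274877906944)] :=
  covD_split 1 (by decide +kernel) c8_12_m4_t15 c8_12_m4_t20
theorem c8_12_m4 : CovD 0 progs [(10995116277760, 2199023255552), (270582939648, 38654705664), (824633720832, 274877906944), (824633720832, 274877906944)] :=
  covD_split 2 (by decide +kernel) c8_12_m4_t10 c8_12_m4_t21

end Pool.Agent.helper71.FF.Crt.G
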