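import Pool.Agent.helper71.FF.Crt.Gc8_12_0
import Pool.Agent.helper71.FF.Crt.Gc8_12_1
import Pool.Agent.helper71.FF.Crt.Gc8_12_2
import Pool.Agent.helper71.FF.Crt.Gc8_12_3
import Pool.Agent.helper71.FF.Crt.Gc8_12_4

/-!
Generated certificates, assembled.
-/

namespace Pool.Agent.helper71.FF.Crt.G

open Pool.Agent.helper31.IA (Z Op)
open Pool.Agent.helper31.IC

theorem c8_12_top0 : CovD 0 progs [(10995116277760, 2199023255552), (231928233984, 77309411328), (824633720832, 274877906944), (824633720832, 274877906944)] :=
  covD_split 1 (by decide +kernel) c8_12_m3 c8_12_m4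
theorem c8_12_top1 : CovD 0 progs [(10995116277760, 2199023255552), (154618822656, 154618822656), (824633720832, 274877906944), (824633720832, 274877906944)] :=
  covD_split 1 (by decide +kernel) c8_12_m2 c8_12_top0
theorem c8_12_top2 : CovD 0 progs [(10995116277760, 2199023255552), (154618822656, 154618822656), (824633720832, 274877906944), (549755813888, 549755813888)] :=
  covD_split 3 (by decide +kernel) c8_12_m1 c8_12_top1
theorem c8_12_top3 : CovD 0 progs [(10995116277760, 2199023255552), (154618822656, 154618822656), (549755813888, 549755813888), (549755813888, 549755813888)] :=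
  covD_split 2 (by decide +kernel) c8_12_m0 c8_12_top2

theorem c8_12_all : CovD 0 progs [(10995116277760, 2199023255552), (154618822656, 154618822656), (549755813888, 549755813888), (549755813888, 549755813888)] := c8_12_top3

end Pool.Agent.helper71.FF.Crt.G
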