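import Pool.Agent.helper71.FF.Crt.GP

/-!
Generated certificates.
-/

namespace Pool.Agent.helper71.FF.Crt.G

open Pool.Agent.helper31.IA (Z Op)
open Pool.Agent.helper31.IC

theorem cx_m1_t0 : CovD 0 progs [(13194139533312, 8796093022208), (425201762304, 38654705664), (274877906944, 274877906944), (549755813888, 549755813888)] :=
  Pool.Agent.helper14.QF.covD_F chks_eq (.n 2 (.n 2 (.l 6) (.l 6)) (.n 3 (.l 6) (.n 2 (.l 6) (.n 3 (.l 6) (.l 6)))))
    [(13194139533312, 8796093022208), (425201762304, 38654705664), (274877906944, 274877906944), (549755813888, 549755813888)] rfl (by decide +kernel)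
theorem cx_m1_t1 : CovD 0 progs [(13194139533312, 8796093022208), (425201762304, 38654705664), (687194767360, 137438953472), (549755813888, 549755813888)] :=
  Pool.Agent.helper14.QF.covD_F chks_eq (.n 2 (.n 3 (.n 3 (.l 6) (.l 6)) (.n 3 (.l 6) (.n 2 (.l 6) (.l 6)))) (.n 1 (.n 3 (.n 3 (.l 6) (.l 6)) (.n 3 (.l 6) (.n 1 (.l 6) (.l 6)))) (.n 3 (.n 3 (.l 6) (.l 6)) (.n 3 (.l 6) (.n 3 (.l 6) (.l 6))))))
    [(13194139533312, 8796093022208), (425201762304, 38654705664), (687194767360, 137438953472), (549755813888, 549755813888)] rfl (by decide +kernel)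
theorem cx_m1_t2 : CovD 0 progs [(13194139533312, 8796093022208), (425201762304, 38654705664), (962072674304, 137438953472), (549755813888, 549755813888)] :=
  Pool.Agent.helper14.QF.covD_F chks_eq (.n 2 (.n 3 (.n 3 (.l 6) (.l 6)) (.n 3 (.n 3 (.l 6) (.l 6)) (.n 1 (.n 3 (.l 6) (.l 8)) (.l 8)))) (.n 3 (.n 3 (.l 6) (.n 3 (.l 6) (.l 6))) (.n 3 (.n 3 (.l 6) (.n 1 (.l 6) (.l 6))) (.l 8))))
    [(13194139533312, 8796093022208), (425201762304, 38654705664), (962072674304, 137438953472), (549755813888, 549755813888)] rfl (by decide +kernel)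
theorem cx_m1_t3 : CovD 0 progs [(13194139533312, 8796093022208), (425201762304, 38654705664), (824633720832, 274877906944), (549755813888, 549755813888)] :=
  covD_split 2 (by decide +kernel) cx_m1_t1 cx_m1_t2
theorem cx_m1 : CovD 0 progs [(13194139533312, 8796093022208), (425201762304, 38654705664), (549755813888, 549755813888), (549755813888, 549755813888)] :=
  covD_split 2 (by decide +kernel) cx_m1_t0 cx_m1_t3

end Pool.Agent.helper71.FF.Crt.G
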