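import Pool.Agent.helper71.FF.Crt.Gcx_0
import Pool.Agent.helper71.FF.Crt.Gcx_1

/-!
Generated certificates, assembled.
-/

namespace Pool.Agent.helper71.FF.Crt.G

open Pool.Agent.helper31.IA (Z Op)
open Pool.Agent.helper31.IC

theorem cx_top0 : CovD 0 progs [(13194139533312, 8796093022208), (386547056640, 77309411328), (549755813888, 549755813888), (549755813888, 549755813888)] :=
  covD_split 1 (by decide +kernel) cx_m0 cx_m1

theorem cx_all : CovD 0 progs [(13194139533312, 8796093022208), (386547056640, 77309411328), (549755813888, 549755813888), (549755813888, 549755813888)] := cx_top0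

end Pool.Agent.helper71.FF.Crt.G
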