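import Pool.Agent.helper31.IC.EngD
import Pool.Agent.helper14.QF.Inst

/-!
Generated: straight line program(s) and compiled form(s).
-/

namespace Pool.Agent.helper71.FF.Crt.K

open Pool.Agent.helper31.IA (Z Op)
open Pool.Agent.helper31.IC

set_option maxRecDepth 100000

abbrev opsE : Ops := Pool.Agent.helper14.QF.opsF

def prog0 : List Op := [
  .const ⟨1099511627776, 0, 0, 0⟩,
  .add 2 0,
  .inv 0,
  .mul 4 0,
  .scale ⟨2199023255552, 0, 0, 0⟩ 0,
  .sub 4 0,
  .log 0,
  .inv 7,
  .scale ⟨0, 1524247822336, 0, 0⟩ 0,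
  .exp 0,
  .sub 9 0,
  .mul 11 4,
  .exp 0,
  .add 0 12,
  .log 0,
  .mul 0 7,
  .scale ⟨2199023255552, 0, 0, 0⟩ 0,
  .exp 0,
  .mul 13 13,
  .mul 8 1,
  .sub 1 0,
  .pos 0]

def chk0 {α : Type} (cst : Z → α) (add sub mul : α → α → α) (scale : Z → α → α)
    (neg inv exp log : α → α) (ok : α → Bool) (isPos : Nat → α → Bool) (isLt : α → Nat → Bool) :
    List α → Bool
  | [x0, x1, x2, x3] =>
  let v0 := cst ⟨1099511627776, 0, 0, 0⟩; ok v0 && (
  let v1 := add x1 v0; ok v1 && (
  let v2 := inv v1; ok v2 && (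
  let v3 := mul x1 v2; ok v3 && (
  let v4 := scale ⟨2199023255552, 0, 0, 0⟩ v3; ok v4 && (
  let v5 := sub v0 v4; ok v5 && (
  let v6 := log v5; ok v6 && (
  let v7 := inv x0; ok v7 && (
  let v8 := scale ⟨0, 1524247822336, 0, 0⟩ v7; ok v8 && (
  let v9 := exp v8; ok v9 && (
  let v10 := sub v0 v9; ok v10 && (
  let v11 := mul x0 v6; ok v11 && (
  let v12 := exp v11; ok v12 && (
  let v13 := add v12 v0; ok v13 && (
  let v14 := log v13; ok v14 && (
  let v15 := mul v14 v7; ok v15 && (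
  let v16 := scale ⟨2199023255552, 0, 0, 0⟩ v15; ok v16 && (
  let v17 := exp v16; ok v17 && (
  let v18 := mul v4 v4; ok v18 && (
  let v19 := mul v10 v17; ok v19 && (
  let v20 := sub v18 v19; ok v20 && (
  isPos 4 v20 && (
  true))))))))))))))))))))))
  | _ => false

set_option maxRecDepth 1000000 in
theorem chk0_eq (O : Ops) (m : List O.α)
    (h : chk0 O.cst O.add O.sub O.mul O.scale O.neg O.inv O.exp O.log O.ok O.isPos O.isLt m = true) :
    runG O 4 prog0 m = true := by
  match m, h with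
  | [x0, x1, x2, x3], h => exact h

def chkB0 : List opsE.α → Bool :=
  chk0 opsE.cst opsE.add opsE.sub opsE.mul opsE.scale opsE.neg opsE.inv opsE.exp opsE.log opsE.ok opsE.isPos opsE.isLt

theorem chkB0_eq (m : List opsE.α) (h : chkB0 m = true) : runG opsE 4 prog0 m = true :=
  chk0_eq opsE m h

def progs : List (List Op) := [prog0]

def chks : List (List opsE.α → Bool) := [chkB0]

theorem chks_eq : List.Forall₂ (fun (ops : List Op) (chk : List opsE.α → Bool) =>
    ∀ m, chk m = true → runG opsE 4 ops m = true) progs chks :=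
  List.Forall₂.cons chkB0_eq List.Forall₂.nil

end Pool.Agent.helper71.FF.Crt.K
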