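import Pool.Agent.helper71.FF.Dom
import Pool.Agent.helper71.FF.Crt.KP

/-!
Generated: meaning of the programs.
-/

namespace Pool.Agent.helper71.FF

open Complex Pool.Agent.helper31.EQ.Y Pool.Agent.helper31.EQ.R
open Pool.Agent.helper12.EQL Pool.Agent.helper12.RP Pool.Agent.helper12.FF Pool.Agent.helper63.FF
open Pool.Agent.helper31.IA (Z Op InBox)

theorem zK_0_1524247822336 : (-363409 / 262144 : ℝ) = zv 0 1524247822336 := by unfold zv; norm_num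

theorem zK_1099511627776_0 : (1 : ℝ) = zv 1099511627776 0 := by unfold zv; norm_num

theorem zK_2199023255552_0 : (2 : ℝ) = zv 2199023255552 0 := by unfold zv; norm_num

theorem dom_K0 {κ e0 h0 y0 p0 : ℝ} (he : 0 < e0) (hκ : 0 < κ) (hh : h0 = Real.tanh (κ / 2))
    (h : RAs Pool.Agent.helper71.FF.Crt.K.prog0 [e0, h0, y0, p0]) : 4 ^ (1 / e0) - 1 ≤ Pool.Agent.helper12.RS.kfun e0 κ := by
  obtain ⟨rh, e_rh⟩ : ∃ zz : ℝ, zz = 2 * (h0 * (h0 + (1 : ℝ))⁻¹) := ⟨_, rfl⟩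
  obtain ⟨lk, e_lk⟩ : ∃ zz : ℝ, zz = Real.log ((1 : ℝ) - rh) := ⟨_, rfl⟩
  obtain ⟨ei, e_ei⟩ : ∃ zz : ℝ, zz = e0⁻¹ := ⟨_, rfl⟩
  obtain ⟨a, e_a⟩ : ∃ zz : ℝ, zz = (1 : ℝ) - Real.exp ((-363409 / 262144) * ei) := ⟨_, rfl⟩
  obtain ⟨me, e_me⟩ : ∃ zz : ℝ, zz = Real.exp (e0 * lk) := ⟨_, rfl⟩
  obtain ⟨b, e_b⟩ : ∃ zz : ℝ, zz = Real.exp (2 * (Real.log (me + (1 : ℝ)) * ei)) := ⟨_, rfl⟩
  obtain ⟨p_B, s0⟩ := ((((h
    (1 : ℝ) zK_1099511627776_0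
    (h0 + (1 : ℝ)) rfl).2
    ((h0 + (1 : ℝ))⁻¹) rfl
    (h0 * (h0 + (1 : ℝ))⁻¹) rfl
    rh (e_rh.trans (congrArg (fun y : ℝ => y * (h0 * (h0 + (1 : ℝ))⁻¹)) zK_2199023255552_0))
    ((1 : ℝ) - rh) rfl).2
    lk e_lk).2
    ei e_ei
    ((-363409 / 262144) * ei) (congrArg (fun y : ℝ => y * ei) zK_0_1524247822336)
    (Real.exp ((-363409 / 262144) * ei)) rfl
    a e_a
    (e0 * lk) rfl
    me e_me
    (me + (1 : ℝ)) rfl).2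
    (Real.log (me + (1 : ℝ))) rfl
    (Real.log (me + (1 : ℝ)) * ei) rfl
    (2 * (Real.log (me + (1 : ℝ)) * ei)) (congrArg (fun y : ℝ => y * (Real.log (me + (1 : ℝ)) * ei)) zK_2199023255552_0)
    b e_b
    (rh * rh) rfl
    (a * b) rfl
    (rh * rh - a * b) rfl
  change 0 < rh * rh - a * b at p_B
  exact dk_core he hκ hh e_rh e_lk e_ei e_a e_me e_b p_B


end Pool.Agent.helper71.FF
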