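import Pool.Agent.helper71.FF.Crt.Kc12_20_0

/-!
Generated certificates, assembled.
-/

namespace Pool.Agent.helper71.FF.Crt.K

open Pool.Agent.helper31.IA (Z Op)
open Pool.Agent.helper31.IC


theorem c12_20_all : CovD 0 progs [(17592186044416, 4398046511104), (274877906944, 0), (0, 0), (0, 0)] := c12_20_m0

end Pool.Agent.helper71.FF.Crt.K
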