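import Pool.Agent.helper71.FF.Crt.Kc5_6_0

/-!
Generated certificates, assembled.
-/

namespace Pool.Agent.helper71.FF.Crt.K

open Pool.Agent.helper31.IA (Z Op)
open Pool.Agent.helper31.IC


theorem c5_6_all : CovD 0 progs [(6047313952768, 549755813888), (417685569536, 0), (0, 0), (0, 0)] := c5_6_m0

end Pool.Agent.helper71.FF.Crt.K
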