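import Pool.Agent.helper31.IC.EngD
import Pool.Agent.helper14.QF.Inst

/-!
Generated: straight line program(s) and compiled form(s).
-/

namespace Pool.Agent.helper71.FF.Crt.S

open Pool.Agent.helper31.IA (Z Op)
open Pool.Agent.helper31.IC

set_option maxRecDepth 100000

abbrev opsE : Ops := Pool.Agent.helper14.QF.opsF

def prog0 : List Op := [
  .const ⟨1099511627776, 0, 0, 0⟩,
  .const ⟨549755813888, 0, 0, 0⟩,
  .mul 3 4,
  .mul 0 6,
  .scale ⟨549755813888, 0, 0, 0⟩ 0,
  .mul 7 7,
  .mul 1 1,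
  .sub 6 0,
  .inv 0,
  .mul 4 0,
  .scale ⟨2199023255552, 0, 0, 0⟩ 0,
  .scale ⟨2199023255552, 0, 0, 0⟩ 2,
  .sub 0 11,
  .add 0 2,
  .mul 17 5,
  .mul 17 0,
  .sub 15 0,
  .add 16 1,
  .scale ⟨10774999203840, 0, 0, 0⟩ 13,
  .scale ⟨45768245248, 0, 0, 0⟩ 0,
  .const ⟨183207198720, 0, 0, 0⟩,
  .add 1 0,
  .mul 3 0,
  .add 21 0,
  .mul 5 0,
  .add 24 0,
  .mul 7 0,
  .scale ⟨549755813888, 0, 0, 0⟩ 0,
  .add 27 0,
  .mul 3 0,
  .mul 31 24,
  .mul 20 15,
  .scale ⟨2199023255552, 0, 0, 0⟩ 19,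
  .add 1 0,
  .add 0 35,
  .mul 4 0,
  .add 0 35,
  .mul 26 26,
  .scale ⟨2199023255552, 0, 0, 0⟩ 0,
  .add 0 38,
  .mul 27 5,
  .sub 0 40,
  .log 5,
  .scale ⟨549755813888, 0, 0, 0⟩ 0,
  .exp 0,
  .scale ⟨549755813888, 0, 0, 0⟩ 45,
  .mul 0 3,
  .neg 0,
  .exp 0,
  .mul 36 18,
  .mul 0 8,
  .scale ⟨4398046511104, 0, 0, 0⟩ 0,
  .add 0 51,
  .log 0,
  .sub 0 11,
  .mul 9 0,
  .neg 0,
  .exp 0,
  .mul 42 47,
  .add 46 0,
  .inv 0,
  .mul 43 0,
  .mul 45 63,
  .mul 0 1,
  .mul 49 49,
  .sub 64 59,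
  .mul 1 0,
  .mul 64 64,
  .add 55 37,
  .inv 0,
  .mul 0 70,
  .mul 0 0,
  .mul 4 6,
  .sub 72 8,
  .mul 1 0,
  .mul 3 0,
  .inv 76,
  .const ⟨45812285440, 0, 0, 0⟩,
  .scale ⟨1527119872, 0, 0, 0⟩ 2,
  .sub 1 0,
  .mul 4 0,
  .sub 79 0,
  .mul 6 0,
  .sub 82 0,
  .add 35 83,
  .mul 36 36,
  .add 0 85,
  .mul 38 3,
  .scale ⟨2199023255552, 0, 0, 0⟩ 0,
  .add 2 0,
  .inv 5,
  .mul 1 0,
  .add 0 7,
  .mul 44 29,
  .scale ⟨549755813888, 0, 0, 0⟩ 0,
  .mul 0 2,
  .sub 6 0,
  .pos 7,
  .pos 0,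
  .inv 0,
  .mul 52 63,
  .const ⟨6597069766656, 0, 0, 0⟩,
  .add 64 0,
  .mul 2 0,
  .scale ⟨4398046511104, 0, 0, 0⟩ 66,
  .add 0 3,
  .inv 0,
  .mul 3 0,
  .mul 75 0,
  .scale ⟨2199023255552, 0, 0, 0⟩ 0,
  .scale ⟨183274307584, 0, 0, 0⟩ 0,
  .sub 107 0,
  .mul 2 0,
  .sub 110 0,
  .mul 6 0,
  .mul 0 15,
  .mul 83 0,
  .add 0 113,
  .inv 0,
  .mul 3 0,
  .mul 87 0,
  .mul 24 4,
  .add 0 118,
  .mul 0 28,
  .inv 32,
  .mul 1 0,
  .mul 60 5,
  .scale ⟨549755813888, 0, 0, 0⟩ 0,
  .sub 125 0,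
  .sub 126 2,
  .inv 0,
  .mul 2 0,
  .add 5 129,
  .mul 82 0,
  .mul 115 114,
  .add 120 134,
  .mul 118 121,
  .mul 0 124,
  .scale ⟨2199023255552, 0, 0, 0⟩ 0,
  .add 97 0,
  .mul 4 0,
  .inv 0,
  .mul 7 0,
  .mul 142 0,
  .inv 105,
  .mul 67 0,
  .scale ⟨1527119872, 0, 0, 0⟩ 0,
  .sub 67 0,
  .mul 2 0,
  .sub 145 0,
  .mul 4 0,
  .sub 148 0,
  .add 92 149,
  .mul 93 93,
  .add 0 151,
  .mul 95 3,
  .scale ⟨2199023255552, 0, 0, 0⟩ 0,
  .add 2 0,
  .inv 5,
  .mul 1 0,
  .add 0 7,
  .mul 101 17,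
  .scale ⟨549755813888, 0, 0, 0⟩ 0,
  .mul 0 2,
  .sub 6 0,
  .pos 7,
  .pos 0,
  .sub 162 105,
  .mul 0 13,
  .inv 2,
  .mul 1 0,
  .scale ⟨549755813888, 0, 0, 0⟩ 0,
  .add 0 166,
  .inv 0,
  .mul 2 0,
  .mul 29 0,
  .add 167 171,
  .inv 0,
  .mul 169 0,
  .scale ⟨2199023255552, 0, 0, 0⟩ 0,
  .sub 175 0,
  .sub 176 172,
  .mul 181 4,
  .mul 0 2,
  .add 162 0,
  .mul 181 170,
  .const ⟨13194139533312, 0, 0, 0⟩,
  .inv 0,
  .mul 184 0,
  .const ⟨23089744183296, 0, 0, 0⟩,
  .const ⟨10995116277760, 0, 0, 0⟩,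
  .inv 0,
  .mul 2 0,
  .add 4 0,
  .inv 0,
  .scale ⟨224412041216, 0, 0, 0⟩ 182,
  .inv 162,
  .mul 1 0,
  .mul 4 176,
  .mul 0 1,
  .mul 193 0,
  .sub 196 0,
  .inv 0,
  .mul 67 2,
  .sub 199 0,
  .inv 0,
  .const ⟨2199023255552, 0, 0, 0⟩,
  .add 21 0,
  .inv 0,
  .mul 188 205,
  .mul 0 207,
  .mul 0 2,
  .scale ⟨549755813888, 0, 0, 0⟩ 0,
  .sub 208 0,
  .sub 209 2,
  .inv 0,
  .mul 2 0,
  .mul 0 8,
  .mul 0 214,
  .mul 216 200,
  .mul 0 1,
  .mul 9 4,
  .mul 203 3,
  .pos 8,
  .mul 1 142,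
  .scale ⟨1374389534720, 0, 0, 0⟩ 0,
  .sub 219 0,
  .pos 0,
  .scale ⟨3092376453120, 0, 0, 0⟩ 2,
  .add 0 20,
  .mul 4 0,
  .add 224 0,
  .scale ⟨1546188226560, 0, 0, 0⟩ 6,
  .add 0 226,
  .mul 8 0,
  .add 228 0,
  .mul 225 215,
  .sub 230 164,
  .mul 227 216,
  .scale ⟨2199023255552, 0, 0, 0⟩ 0,
  .sub 2 0,
  .mul 4 4,
  .add 1 0,
  .add 0 236,
  .scale ⟨549755813888, 0, 0, 0⟩ 0,
  .scale ⟨549755813888, 0, 0, 0⟩ 208,
  .sub 231 0,
  .mul 173 9,
  .mul 0 234,
  .scale ⟨137438953472, 0, 0, 0⟩ 0,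
  .add 3 0,
  .mul 6 0,
  .mul 229 184,
  .mul 0 244,
  .mul 0 130,
  .mul 0 119,
  .mul 247 0,
  .add 119 250,
  .mul 0 53,
  .mul 121 51,
  .add 1 0,
  .mul 58 0,
  .add 5 0,
  .mul 0 180,
  .mul 6 61,
  .mul 0 60,
  .add 9 0,
  .mul 0 184,
  .scale ⟨223338299392, 0, 0, 0⟩ 0,
  .add 261 0,
  .mul 2 0,
  .add 264 0,
  .scale ⟨893353197568, 0, 0, 0⟩ 8,
  .add 266 0,
  .mul 10 0,
  .add 268 0,
  .mul 94 91,
  .mul 0 45,
  .mul 0 2,
  .mul 27 7,
  .add 229 272,
  .mul 2 0,
  .add 2 0,
  .add 232 276,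
  .mul 5 0,
  .mul 49 1,
  .mul 0 101,
  .mul 0 103,
  .mul 279 101,
  .inv 238,
  .mul 1 0,
  .scale ⟨549755813888, 0, 0, 0⟩ 0,
  .mul 224 283,
  .mul 0 169,
  .mul 0 158,
  .mul 272 3,
  .mul 13 1,
  .mul 9 74,
  .add 1 0,
  .mul 0 216,
  .add 4 0,
  .mul 18 43,
  .mul 0 97,
  .mul 18 165,
  .mul 0 96,
  .add 2 0,
  .mul 0 223,
  .mul 284 6,
  .mul 106 1,
  .add 1 0,
  .mul 236 0,
  .mul 0 21,
  .sub 305 0,
  .inv 0,
  .mul 4 0,
  .mul 310 0,
  .mul 242 1,
  .mul 0 27,
  .sub 311 0,
  .mul 271 0,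
  .sub 0 4,
  .inv 0,
  .mul 6 0,
  .sub 316 7,
  .inv 0,
  .mul 255 201,
  .mul 0 190,
  .add 215 0,
  .mul 0 3,
  .mul 0 12,
  .scale ⟨223338299392, 0, 0, 0⟩ 0,
  .add 323 0,
  .mul 2 0,
  .add 326 0,
  .mul 4 0,
  .mul 0 205,
  .mul 0 198,
  .sub 330 0,
  .mul 9 4,
  .mul 0 25,
  .mul 0 257,
  .inv 3,
  .mul 1 0,
  .mul 0 339,
  .mul 61 139,
  .mul 60 215,
  .mul 0 208,
  .mul 0 139,
  .add 3 0,
  .mul 5 0,
  .mul 67 282,
  .mul 342 231,
  .mul 1 0,
  .mul 0 217,
  .mul 158 345,
  .mul 0 331,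
  .mul 0 333,
  .const ⟨9895604649984, 0, 0, 0⟩,
  .const ⟨21990232555520, 0, 0, 0⟩,
  .inv 0,
  .mul 2 0,
  .mul 18 164,
  .mul 0 358,
  .inv 339,
  .mul 1 0,
  .mul 359 235,
  .mul 0 343,
  .mul 363 180,
  .mul 0 78,
  .scale ⟨549755813888, 0, 0, 0⟩ 0,
  .mul 3 0,
  .mul 20 367,
  .mul 0 252,
  .mul 0 237,
  .add 3 0,
  .mul 245 87,
  .mul 0 151,
  .add 2 0,
  .mul 13 0,
  .mul 360 331,
  .scale ⟨4398046511104, 0, 0, 0⟩ 0,
  .sub 0 340,
  .mul 370 0,
  .mul 0 234,
  .mul 378 0,
  .mul 380 1,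
  .add 0 177,
  .inv 0,
  .mul 3 0,
  .mul 384 0,
  .scale ⟨549755813888, 0, 0, 0⟩ 0,
  .sub 384 0,
  .mul 3 0,
  .neg 0,
  .mul 247 217,
  .add 1 0,
  .mul 2 1,
  .mul 392 0,
  .add 2 0,
  .mul 347 15,
  .add 222 393,
  .mul 6 0,
  .add 2 0,
  .mul 80 0,
  .mul 399 0,
  .scale ⟨687194767360, 0, 0, 0⟩ 0,
  .add 399 0,
  .mul 3 0,
  .add 9 0,
  .mul 10 1,
  .mul 405 0,
  .add 2 0,
  .mul 408 409,
  .mul 0 234,
  .mul 0 399,
  .add 3 0,
  .mul 4 1,
  .mul 412 0,
  .add 2 0,
  .mul 407 378,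
  .mul 415 0,
  .scale ⟨412316860416, 0, 0, 0⟩ 0,
  .sub 414 0,
  .mul 3 0,
  .neg 0,
  .add 6 0,
  .mul 7 1,
  .mul 422 0,
  .add 2 0,
  .mul 425 114,
  .mul 0 66,
  .add 2 0,
  .mul 3 1,
  .mul 428 0,
  .add 2 0,
  .mul 256 411,
  .mul 0 75,
  .sub 2 0,
  .mul 433 1,
  .add 432 0,
  .inv 0,
  .mul 3 0,
  .mul 438 433,
  .mul 0 128,
  .sub 393 127,
  .inv 0,
  .mul 2 0,
  .add 5 0,
  .mul 6 1,
  .mul 444 0,
  .add 2 0,
  .mul 446 0,
  .add 445 0,
  .mul 103 250,
  .mul 449 97,
  .mul 76 0,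
  .add 2 0,
  .mul 0 4,
  .add 7 0,
  .add 0 109,
  .add 0 81,
  .neg 0,
  .const ⟨1073741824, 0, 0, 0⟩,
  .sub 1 0,
  .sub 444 457,
  .add 0 256,
  .scale ⟨2199023255552, 0, 0, 0⟩ 105,
  .sub 1 0,
  .mul 289 0,
  .mul 4 2,
  .add 0 463,
  .inv 0,
  .mul 3 0,
  .mul 277 166,
  .scale ⟨549755813888, 0, 0, 0⟩ 274,
  .add 458 0,
  .mul 2 0,
  .scale ⟨2199023255552, 0, 0, 0⟩ 0,
  .add 177 0,
  .scale ⟨2199023255552, 0, 0, 0⟩ 0,
  .mul 0 166,
  .mul 472 166,
  .sub 458 0,
  .inv 0,
  .mul 3 0,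
  .sub 12 0,
  .pos 282,
  .pos 279,
  .scale ⟨2199023255552, 0, 0, 0⟩ 175,
  .sub 436 0,
  .pos 0,
  .pos 167,
  .pos 354,
  .sub 480 310,
  .pos 0,
  .scale ⟨687194767360, 0, 0, 0⟩ 482,
  .sub 0 222,
  .pos 0,
  .scale ⟨377957122048, 0, 0, 0⟩ 484,
  .sub 0 228,
  .pos 0,
  .pos 10,
  .sub 485 88,
  .pos 0,
  .pos 170,
  .pos 156,
  .sub 4 164,
  .pos 0,
  .pos 9,
  .pos 31]

def chk0 {α : Type} (cst : Z → α) (add sub mul : α → α → α) (scale : Z → α → α)
    (neg inv exp log : α → α) (ok : α → Bool) (isPos : Nat → α → Bool) (isLt : α → Nat → Bool) :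
    List α → Bool
  | [x0, x1, x2, x3] =>
  let v0 := cst ⟨1099511627776, 0, 0, 0⟩; ok v0 && (
  let v1 := cst ⟨549755813888, 0, 0, 0⟩; ok v1 && (
  let v2 := mul x1 x2; ok v2 && (
  let v3 := mul v2 x3; ok v3 && (
  let v4 := scale ⟨549755813888, 0, 0, 0⟩ v3; ok v4 && (
  let v5 := mul x2 x2; ok v5 && (
  let v6 := mul v4 v4; ok v6 && (
  let v7 := sub v0 v6; ok v7 && (
  let v8 := inv v7; ok v8 && (
  let v9 := mul v4 v8; ok v9 && (
  let v10 := scale ⟨2199023255552, 0, 0, 0⟩ v9; ok v10 && (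
  let v11 := scale ⟨2199023255552, 0, 0, 0⟩ v8; ok v11 && (
  let v12 := sub v11 v0; ok v12 && (
  let v13 := add v12 v10; ok v13 && (
  let v14 := mul x3 v8; ok v14 && (
  let v15 := mul x2 v14; ok v15 && (
  let v16 := sub v0 v15; ok v16 && (
  let v17 := add v0 v15; ok v17 && (
  let v18 := scale ⟨10774999203840, 0, 0, 0⟩ v4; ok v18 && (
  let v19 := scale ⟨45768245248, 0, 0, 0⟩ v18; ok v19 && (
  let v20 := cst ⟨183207198720, 0, 0, 0⟩; ok v20 && (
  let v21 := add v19 v20; ok v21 && (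
  let v22 := mul v18 v21; ok v22 && (
  let v23 := add v1 v22; ok v23 && (
  let v24 := mul v18 v23; ok v24 && (
  let v25 := add v0 v24; ok v25 && (
  let v26 := mul v18 v25; ok v26 && (
  let v27 := scale ⟨549755813888, 0, 0, 0⟩ v26; ok v27 && (
  let v28 := add v0 v27; ok v28 && (
  let v29 := mul v25 v28; ok v29 && (
  let v30 := mul x1 v5; ok v30 && (
  let v31 := mul v10 v15; ok v31 && (
  let v32 := scale ⟨2199023255552, 0, 0, 0⟩ v12; ok v32 && (
  let v33 := add v31 v32; ok v33 && (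
  let v34 := add v33 x1; ok v34 && (
  let v35 := mul v30 v34; ok v35 && (
  let v36 := add v35 v0; ok v36 && (
  let v37 := mul v10 v10; ok v37 && (
  let v38 := scale ⟨2199023255552, 0, 0, 0⟩ v37; ok v38 && (
  let v39 := add v38 v0; ok v39 && (
  let v40 := mul v12 v34; ok v40 && (
  let v41 := sub v40 v0; ok v41 && (
  let v42 := log v36; ok v42 && (
  let v43 := scale ⟨549755813888, 0, 0, 0⟩ v42; ok v43 && (
  let v44 := exp v43; ok v44 && (
  let v45 := scale ⟨549755813888, 0, 0, 0⟩ x0; ok v45 && (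
  let v46 := mul v45 v42; ok v46 && (
  let v47 := neg v46; ok v47 && (
  let v48 := exp v47; ok v48 && (
  let v49 := mul v12 v30; ok v49 && (
  let v50 := mul v49 v41; ok v50 && (
  let v51 := scale ⟨4398046511104, 0, 0, 0⟩ v50; ok v51 && (
  let v52 := add v51 v0; ok v52 && (
  let v53 := log v52; ok v53 && (
  let v54 := sub v53 v42; ok v54 && (
  let v55 := mul v45 v54; ok v55 && (
  let v56 := neg v55; ok v56 && (
  let v57 := exp v56; ok v57 && (
  let v58 := mul v15 v10; ok v58 && (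
  let v59 := add v12 v58; ok v59 && (
  let v60 := inv v59; ok v60 && (
  let v61 := mul v17 v60; ok v61 && (
  let v62 := mul v16 x1; ok v62 && (
  let v63 := mul v62 v61; ok v63 && (
  let v64 := mul v14 v14; ok v64 && (
  let v65 := sub v0 v5; ok v65 && (
  let v66 := mul v64 v65; ok v66 && (
  let v67 := mul v2 v2; ok v67 && (
  let v68 := add v12 v30; ok v68 && (
  let v69 := inv v68; ok v69 && (
  let v70 := mul v69 x0; ok v70 && (
  let v71 := mul v70 v70; ok v71 && (
  let v72 := mul v67 v65; ok v72 && (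
  let v73 := sub v0 v64; ok v73 && (
  let v74 := mul v72 v73; ok v74 && (
  let v75 := mul v71 v74; ok v75 && (
  let v76 := inv x0; ok v76 && (
  let v77 := cst ⟨45812285440, 0, 0, 0⟩; ok v77 && (
  let v78 := scale ⟨1527119872, 0, 0, 0⟩ v75; ok v78 && (
  let v79 := sub v77 v78; ok v79 && (
  let v80 := mul v75 v79; ok v80 && (
  let v81 := sub v1 v80; ok v81 && (
  let v82 := mul v75 v81; ok v82 && (
  let v83 := sub v0 v82; ok v83 && (
  let v84 := add v48 v0; ok v84 && (
  let v85 := mul v48 v48; ok v85 && (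
  let v86 := add v85 v0; ok v86 && (
  let v87 := mul v48 v83; ok v87 && (
  let v88 := scale ⟨2199023255552, 0, 0, 0⟩ v87; ok v88 && (
  let v89 := add v86 v88; ok v89 && (
  let v90 := inv v84; ok v90 && (
  let v91 := mul v89 v90; ok v91 && (
  let v92 := add v91 v84; ok v92 && (
  let v93 := mul v48 v63; ok v93 && (
  let v94 := scale ⟨549755813888, 0, 0, 0⟩ v93; ok v94 && (
  let v95 := mul v94 v92; ok v95 && (
  let v96 := sub v89 v95; ok v96 && (
  isPos 4 v89 && (
  isPos 4 v96 && (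
  let v97 := inv v96; ok v97 && (
  let v98 := mul v45 v34; ok v98 && (
  let v99 := cst ⟨6597069766656, 0, 0, 0⟩; ok v99 && (
  let v100 := add v35 v99; ok v100 && (
  let v101 := mul v98 v100; ok v101 && (
  let v102 := scale ⟨4398046511104, 0, 0, 0⟩ v35; ok v102 && (
  let v103 := add v102 v99; ok v103 && (
  let v104 := inv v103; ok v104 && (
  let v105 := mul v101 v104; ok v105 && (
  let v106 := mul v30 v105; ok v106 && (
  let v107 := scale ⟨2199023255552, 0, 0, 0⟩ v106; ok v107 && (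
  let v108 := scale ⟨183274307584, 0, 0, 0⟩ v107; ok v108 && (
  let v109 := sub v1 v108; ok v109 && (
  let v110 := mul v107 v109; ok v110 && (
  let v111 := sub v0 v110; ok v111 && (
  let v112 := mul v105 v111; ok v112 && (
  let v113 := mul v112 v97; ok v113 && (
  let v114 := mul v30 v113; ok v114 && (
  let v115 := add v114 v1; ok v115 && (
  let v116 := inv v115; ok v116 && (
  let v117 := mul v113 v116; ok v117 && (
  let v118 := mul v30 v117; ok v118 && (
  let v119 := mul v94 v114; ok v119 && (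
  let v120 := add v119 v1; ok v120 && (
  let v121 := mul v120 v92; ok v121 && (
  let v122 := inv v89; ok v122 && (
  let v123 := mul v121 v122; ok v123 && (
  let v124 := mul v63 v118; ok v124 && (
  let v125 := scale ⟨549755813888, 0, 0, 0⟩ v124; ok v125 && (
  let v126 := sub v0 v125; ok v126 && (
  let v127 := sub v0 v124; ok v127 && (
  let v128 := inv v127; ok v128 && (
  let v129 := mul v126 v128; ok v129 && (
  let v130 := add v124 v0; ok v130 && (
  let v131 := mul v48 v130; ok v131 && (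
  let v132 := mul v16 v17; ok v132 && (
  let v133 := add v12 x1; ok v133 && (
  let v134 := mul v15 v12; ok v134 && (
  let v135 := mul v134 v10; ok v135 && (
  let v136 := scale ⟨2199023255552, 0, 0, 0⟩ v135; ok v136 && (
  let v137 := add v39 v136; ok v137 && (
  let v138 := mul v133 v137; ok v138 && (
  let v139 := inv v138; ok v139 && (
  let v140 := mul v132 v139; ok v140 && (
  let v141 := mul x1 v140; ok v141 && (
  let v142 := inv v36; ok v142 && (
  let v143 := mul v75 v142; ok v143 && (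
  let v144 := scale ⟨1527119872, 0, 0, 0⟩ v143; ok v144 && (
  let v145 := sub v77 v144; ok v145 && (
  let v146 := mul v143 v145; ok v146 && (
  let v147 := sub v1 v146; ok v147 && (
  let v148 := mul v143 v147; ok v148 && (
  let v149 := sub v0 v148; ok v149 && (
  let v150 := add v57 v0; ok v150 && (
  let v151 := mul v57 v57; ok v151 && (
  let v152 := add v151 v0; ok v152 && (
  let v153 := mul v57 v149; ok v153 && (
  let v154 := scale ⟨2199023255552, 0, 0, 0⟩ v153; ok v154 && (
  let v155 := add v152 v154; ok v155 && (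
  let v156 := inv v150; ok v156 && (
  let v157 := mul v155 v156; ok v157 && (
  let v158 := add v157 v150; ok v158 && (
  let v159 := mul v57 v141; ok v159 && (
  let v160 := scale ⟨549755813888, 0, 0, 0⟩ v159; ok v160 && (
  let v161 := mul v160 v158; ok v161 && (
  let v162 := sub v155 v161; ok v162 && (
  isPos 4 v155 && (
  isPos 4 v162 && (
  let v163 := sub v0 v57; ok v163 && (
  let v164 := mul v163 v150; ok v164 && (
  let v165 := inv v162; ok v165 && (
  let v166 := mul v164 v165; ok v166 && (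
  let v167 := scale ⟨549755813888, 0, 0, 0⟩ v166; ok v167 && (
  let v168 := add v167 v1; ok v168 && (
  let v169 := inv v168; ok v169 && (
  let v170 := mul v167 v169; ok v170 && (
  let v171 := mul v141 v170; ok v171 && (
  let v172 := add v4 v0; ok v172 && (
  let v173 := inv v172; ok v173 && (
  let v174 := mul v4 v173; ok v174 && (
  let v175 := scale ⟨2199023255552, 0, 0, 0⟩ v174; ok v175 && (
  let v176 := sub v0 v175; ok v176 && (
  let v177 := sub v0 v4; ok v177 && (
  let v178 := mul x3 v173; ok v178 && (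
  let v179 := mul v178 v176; ok v179 && (
  let v180 := add v17 v179; ok v180 && (
  let v181 := mul x0 v10; ok v181 && (
  let v182 := cst ⟨13194139533312, 0, 0, 0⟩; ok v182 && (
  let v183 := inv v182; ok v183 && (
  let v184 := mul x0 v183; ok v184 && (
  let v185 := cst ⟨23089744183296, 0, 0, 0⟩; ok v185 && (
  let v186 := cst ⟨10995116277760, 0, 0, 0⟩; ok v186 && (
  let v187 := inv v186; ok v187 && (
  let v188 := mul v185 v187; ok v188 && (
  let v189 := add v184 v188; ok v189 && (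
  let v190 := inv v189; ok v190 && (
  let v191 := scale ⟨224412041216, 0, 0, 0⟩ v8; ok v191 && (
  let v192 := inv v29; ok v192 && (
  let v193 := mul v191 v192; ok v193 && (
  let v194 := mul v189 v17; ok v194 && (
  let v195 := mul v194 v193; ok v195 && (
  let v196 := mul v2 v195; ok v196 && (
  let v197 := sub v0 v196; ok v197 && (
  let v198 := inv v197; ok v198 && (
  let v199 := mul v131 v196; ok v199 && (
  let v200 := sub v0 v199; ok v200 && (
  let v201 := inv v200; ok v201 && (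
  let v202 := cst ⟨2199023255552, 0, 0, 0⟩; ok v202 && (
  let v203 := add v181 v202; ok v203 && (
  let v204 := inv v203; ok v204 && (
  let v205 := mul v16 x0; ok v205 && (
  let v206 := mul v205 x1; ok v206 && (
  let v207 := mul v206 v204; ok v207 && (
  let v208 := scale ⟨549755813888, 0, 0, 0⟩ v207; ok v208 && (
  let v209 := sub v0 v208; ok v209 && (
  let v210 := sub v0 v207; ok v210 && (
  let v211 := inv v210; ok v211 && (
  let v212 := mul v209 v211; ok v212 && (
  let v213 := mul v212 v204; ok v213 && (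
  let v214 := mul v213 x0; ok v214 && (
  let v215 := mul x1 v14; ok v215 && (
  let v216 := mul v215 v214; ok v216 && (
  let v217 := mul v207 v212; ok v217 && (
  let v218 := mul v14 v214; ok v218 && (
  isPos 4 v210 && (
  let v219 := mul v217 v76; ok v219 && (
  let v220 := scale ⟨1374389534720, 0, 0, 0⟩ v219; ok v220 && (
  let v221 := sub v1 v220; ok v221 && (
  isPos 4 v221 && (
  let v222 := scale ⟨3092376453120, 0, 0, 0⟩ v219; ok v222 && (
  let v223 := add v222 v202; ok v223 && (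
  let v224 := mul v219 v223; ok v224 && (
  let v225 := add v0 v224; ok v225 && (
  let v226 := scale ⟨1546188226560, 0, 0, 0⟩ v219; ok v226 && (
  let v227 := add v226 v0; ok v227 && (
  let v228 := mul v219 v227; ok v228 && (
  let v229 := add v0 v228; ok v229 && (
  let v230 := mul v4 v14; ok v230 && (
  let v231 := sub v0 v66; ok v231 && (
  let v232 := mul v4 v15; ok v232 && (
  let v233 := scale ⟨2199023255552, 0, 0, 0⟩ v232; ok v233 && (
  let v234 := sub v231 v233; ok v234 && (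
  let v235 := mul v230 v230; ok v235 && (
  let v236 := add v234 v235; ok v236 && (
  let v237 := add v236 v0; ok v237 && (
  let v238 := scale ⟨549755813888, 0, 0, 0⟩ v237; ok v238 && (
  let v239 := scale ⟨549755813888, 0, 0, 0⟩ v30; ok v239 && (
  let v240 := sub v8 v239; ok v240 && (
  let v241 := mul v67 v231; ok v241 && (
  let v242 := mul v241 v7; ok v242 && (
  let v243 := scale ⟨137438953472, 0, 0, 0⟩ v242; ok v243 && (
  let v244 := add v240 v243; ok v244 && (
  let v245 := mul v238 v244; ok v245 && (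
  let v246 := mul v16 v61; ok v246 && (
  let v247 := mul v246 v2; ok v247 && (
  let v248 := mul v247 v117; ok v248 && (
  let v249 := mul v248 v129; ok v249 && (
  let v250 := mul v2 v249; ok v250 && (
  let v251 := add v131 v0; ok v251 && (
  let v252 := mul v251 v198; ok v252 && (
  let v253 := mul v131 v201; ok v253 && (
  let v254 := add v252 v253; ok v254 && (
  let v255 := mul v196 v254; ok v255 && (
  let v256 := add v250 v255; ok v256 && (
  let v257 := mul v256 v76; ok v257 && (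
  let v258 := mul v251 v196; ok v258 && (
  let v259 := mul v258 v198; ok v259 && (
  let v260 := add v250 v259; ok v260 && (
  let v261 := mul v260 v76; ok v261 && (
  let v262 := scale ⟨223338299392, 0, 0, 0⟩ v261; ok v262 && (
  let v263 := add v1 v262; ok v263 && (
  let v264 := mul v261 v263; ok v264 && (
  let v265 := add v0 v264; ok v265 && (
  let v266 := scale ⟨893353197568, 0, 0, 0⟩ v257; ok v266 && (
  let v267 := add v0 v266; ok v267 && (
  let v268 := mul v257 v267; ok v268 && (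
  let v269 := add v0 v268; ok v269 && (
  let v270 := mul v175 v178; ok v270 && (
  let v271 := mul v270 v225; ok v271 && (
  let v272 := mul v271 v269; ok v272 && (
  let v273 := mul v245 v265; ok v273 && (
  let v274 := add v44 v1; ok v274 && (
  let v275 := mul v272 v274; ok v275 && (
  let v276 := add v273 v275; ok v276 && (
  let v277 := add v44 v0; ok v277 && (
  let v278 := mul v272 v277; ok v278 && (
  let v279 := mul v229 v277; ok v279 && (
  let v280 := mul v279 v178; ok v280 && (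
  let v281 := mul v280 v177; ok v281 && (
  let v282 := mul v2 v180; ok v282 && (
  let v283 := inv v44; ok v283 && (
  let v284 := mul v282 v283; ok v284 && (
  let v285 := scale ⟨549755813888, 0, 0, 0⟩ v284; ok v285 && (
  let v286 := mul v61 v2; ok v286 && (
  let v287 := mul v286 v117; ok v287 && (
  let v288 := mul v287 v129; ok v288 && (
  let v289 := mul v16 v285; ok v289 && (
  let v290 := mul v276 v288; ok v290 && (
  let v291 := mul v281 v216; ok v291 && (
  let v292 := add v290 v291; ok v292 && (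
  let v293 := mul v292 v76; ok v293 && (
  let v294 := add v289 v293; ok v294 && (
  let v295 := mul v276 v251; ok v295 && (
  let v296 := mul v295 v198; ok v296 && (
  let v297 := mul v278 v131; ok v297 && (
  let v298 := mul v297 v201; ok v298 && (
  let v299 := add v296 v298; ok v299 && (
  let v300 := mul v299 v76; ok v300 && (
  let v301 := mul v16 v294; ok v301 && (
  let v302 := mul v195 v300; ok v302 && (
  let v303 := add v301 v302; ok v303 && (
  let v304 := mul v67 v303; ok v304 && (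
  let v305 := mul v304 v283; ok v305 && (
  let v306 := sub v0 v305; ok v306 && (
  let v307 := inv v306; ok v307 && (
  let v308 := mul v303 v307; ok v308 && (
  let v309 := mul x1 v308; ok v309 && (
  let v310 := mul v67 v308; ok v310 && (
  let v311 := mul v310 v283; ok v311 && (
  let v312 := sub v0 v311; ok v312 && (
  let v313 := mul v41 v312; ok v313 && (
  let v314 := sub v313 v309; ok v314 && (
  let v315 := inv v314; ok v315 && (
  let v316 := mul v309 v315; ok v316 && (
  let v317 := sub v0 v309; ok v317 && (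
  let v318 := inv v317; ok v318 && (
  let v319 := mul v63 v117; ok v319 && (
  let v320 := mul v319 v129; ok v320 && (
  let v321 := add v105 v320; ok v321 && (
  let v322 := mul v321 v318; ok v322 && (
  let v323 := mul v322 v310; ok v323 && (
  let v324 := scale ⟨223338299392, 0, 0, 0⟩ v323; ok v324 && (
  let v325 := add v1 v324; ok v325 && (
  let v326 := mul v323 v325; ok v326 && (
  let v327 := add v0 v326; ok v327 && (
  let v328 := mul v323 v327; ok v328 && (
  let v329 := mul v328 v123; ok v329 && (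
  let v330 := mul v329 v131; ok v330 && (
  let v331 := sub v0 v330; ok v331 && (
  let v332 := mul v322 v327; ok v332 && (
  let v333 := mul v332 v307; ok v333 && (
  let v334 := mul v333 v76; ok v334 && (
  let v335 := inv v331; ok v335 && (
  let v336 := mul v334 v335; ok v336 && (
  let v337 := mul v336 x2; ok v337 && (
  let v338 := mul v276 v198; ok v338 && (
  let v339 := mul v278 v123; ok v339 && (
  let v340 := mul v339 v131; ok v340 && (
  let v341 := mul v340 v201; ok v341 && (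
  let v342 := add v338 v341; ok v342 && (
  let v343 := mul v337 v342; ok v343 && (
  let v344 := mul v276 v61; ok v344 && (
  let v345 := mul v2 v113; ok v345 && (
  let v346 := mul v344 v345; ok v346 && (
  let v347 := mul v346 v129; ok v347 && (
  let v348 := mul v189 v2; ok v348 && (
  let v349 := mul v348 v17; ok v349 && (
  let v350 := mul v349 v16; ok v350 && (
  let v351 := cst ⟨9895604649984, 0, 0, 0⟩; ok v351 && (
  let v352 := cst ⟨21990232555520, 0, 0, 0⟩; ok v352 && (
  let v353 := inv v352; ok v353 && (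
  let v354 := mul v351 v353; ok v354 && (
  let v355 := mul v336 v190; ok v355 && (
  let v356 := mul v355 x2; ok v356 && (
  let v357 := inv v17; ok v357 && (
  let v358 := mul v356 v357; ok v358 && (
  let v359 := mul x0 v123; ok v359 && (
  let v360 := mul v359 v16; ok v360 && (
  let v361 := mul x2 v180; ok v361 && (
  let v362 := mul v361 v283; ok v362 && (
  let v363 := scale ⟨549755813888, 0, 0, 0⟩ v362; ok v363 && (
  let v364 := mul v360 v363; ok v364 && (
  let v365 := mul v344 x2; ok v365 && (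
  let v366 := mul v365 v113; ok v366 && (
  let v367 := mul v366 v129; ok v367 && (
  let v368 := add v364 v367; ok v368 && (
  let v369 := mul v123 v281; ok v369 && (
  let v370 := mul v369 v218; ok v370 && (
  let v371 := add v368 v370; ok v371 && (
  let v372 := mul v358 v371; ok v372 && (
  let v373 := mul v12 v41; ok v373 && (
  let v374 := scale ⟨4398046511104, 0, 0, 0⟩ v373; ok v374 && (
  let v375 := sub v374 v34; ok v375 && (
  let v376 := mul v5 v375; ok v376 && (
  let v377 := mul v376 v142; ok v377 && (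
  let v378 := mul x0 v377; ok v378 && (
  let v379 := mul x1 v377; ok v379 && (
  let v380 := add v379 v202; ok v380 && (
  let v381 := inv v380; ok v381 && (
  let v382 := mul v378 v381; ok v382 && (
  let v383 := mul x1 v382; ok v383 && (
  let v384 := scale ⟨549755813888, 0, 0, 0⟩ v383; ok v384 && (
  let v385 := sub v0 v384; ok v385 && (
  let v386 := mul v382 v385; ok v386 && (
  let v387 := neg v386; ok v387 && (
  let v388 := mul v140 v170; ok v388 && (
  let v389 := add v387 v388; ok v389 && (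
  let v390 := mul v387 v388; ok v390 && (
  let v391 := mul x1 v390; ok v391 && (
  let v392 := add v389 v391; ok v392 && (
  let v393 := mul v45 v377; ok v393 && (
  let v394 := add v171 v0; ok v394 && (
  let v395 := mul v388 v394; ok v395 && (
  let v396 := add v393 v395; ok v396 && (
  let v397 := mul v316 v396; ok v397 && (
  let v398 := mul x1 v397; ok v398 && (
  let v399 := scale ⟨687194767360, 0, 0, 0⟩ v398; ok v399 && (
  let v400 := add v0 v399; ok v400 && (
  let v401 := mul v397 v400; ok v401 && (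
  let v402 := add v392 v401; ok v402 && (
  let v403 := mul v392 v401; ok v403 && (
  let v404 := mul x1 v403; ok v404 && (
  let v405 := add v402 v404; ok v405 && (
  let v406 := mul x2 x3; ok v406 && (
  let v407 := mul v406 v172; ok v407 && (
  let v408 := mul v407 v8; ok v408 && (
  let v409 := add v405 v408; ok v409 && (
  let v410 := mul v405 v408; ok v410 && (
  let v411 := mul x1 v410; ok v411 && (
  let v412 := add v409 v411; ok v412 && (
  let v413 := mul v5 v34; ok v413 && (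
  let v414 := mul x1 v413; ok v414 && (
  let v415 := scale ⟨412316860416, 0, 0, 0⟩ v414; ok v415 && (
  let v416 := sub v1 v415; ok v416 && (
  let v417 := mul v413 v416; ok v417 && (
  let v418 := neg v417; ok v418 && (
  let v419 := add v412 v418; ok v419 && (
  let v420 := mul v412 v418; ok v420 && (
  let v421 := mul x1 v420; ok v421 && (
  let v422 := add v419 v421; ok v422 && (
  let v423 := mul x2 v308; ok v423 && (
  let v424 := mul v423 v357; ok v424 && (
  let v425 := add v422 v424; ok v425 && (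
  let v426 := mul v422 v424; ok v426 && (
  let v427 := mul x1 v426; ok v427 && (
  let v428 := add v425 v427; ok v428 && (
  let v429 := mul v172 v17; ok v429 && (
  let v430 := mul v429 v354; ok v430 && (
  let v431 := sub v428 v430; ok v431 && (
  let v432 := mul x1 v430; ok v432 && (
  let v433 := add v0 v432; ok v433 && (
  let v434 := inv v433; ok v434 && (
  let v435 := mul v431 v434; ok v435 && (
  let v436 := mul x2 v2; ok v436 && (
  let v437 := mul v436 v308; ok v437 && (
  let v438 := sub v44 v310; ok v438 && (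
  let v439 := inv v438; ok v439 && (
  let v440 := mul v437 v439; ok v440 && (
  let v441 := add v435 v440; ok v441 && (
  let v442 := mul v435 v440; ok v442 && (
  let v443 := mul x1 v442; ok v443 && (
  let v444 := add v441 v443; ok v444 && (
  let v445 := mul x1 v444; ok v445 && (
  let v446 := add v0 v445; ok v446 && (
  let v447 := mul v343 v196; ok v447 && (
  let v448 := mul x1 v350; ok v448 && (
  let v449 := mul v372 v448; ok v449 && (
  let v450 := add v447 v449; ok v450 && (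
  let v451 := mul v450 v446; ok v451 && (
  let v452 := add v444 v451; ok v452 && (
  let v453 := add v452 v343; ok v453 && (
  let v454 := add v453 v372; ok v454 && (
  let v455 := neg v454; ok v455 && (
  let v456 := cst ⟨1073741824, 0, 0, 0⟩; ok v456 && (
  let v457 := sub v455 v456; ok v457 && (
  let v458 := sub v13 v0; ok v458 && (
  let v459 := add v458 v202; ok v459 && (
  let v460 := scale ⟨2199023255552, 0, 0, 0⟩ v354; ok v460 && (
  let v461 := sub v459 v460; ok v461 && (
  let v462 := mul v172 v461; ok v462 && (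
  let v463 := mul v458 v460; ok v463 && (
  let v464 := add v463 v0; ok v464 && (
  let v465 := inv v464; ok v465 && (
  let v466 := mul v462 v465; ok v466 && (
  let v467 := mul v189 v300; ok v467 && (
  let v468 := scale ⟨549755813888, 0, 0, 0⟩ v193; ok v468 && (
  let v469 := add v10 v468; ok v469 && (
  let v470 := mul v467 v469; ok v470 && (
  let v471 := scale ⟨2199023255552, 0, 0, 0⟩ v470; ok v471 && (
  let v472 := add v294 v471; ok v472 && (
  let v473 := scale ⟨2199023255552, 0, 0, 0⟩ v472; ok v473 && (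
  let v474 := mul v473 v307; ok v474 && (
  let v475 := mul v2 v308; ok v475 && (
  let v476 := sub v17 v475; ok v476 && (
  let v477 := inv v476; ok v477 && (
  let v478 := mul v474 v477; ok v478 && (
  let v479 := sub v466 v478; ok v479 && (
  isPos 4 v197 && (
  isPos 4 v200 && (
  let v480 := scale ⟨2199023255552, 0, 0, 0⟩ v304; ok v480 && (
  let v481 := sub v44 v480; ok v481 && (
  isPos 4 v481 && (
  isPos 4 v314 && (
  isPos 4 v127 && (
  let v482 := sub v1 v171; ok v482 && (
  isPos 4 v482 && (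
  let v483 := scale ⟨687194767360, 0, 0, 0⟩ v0; ok v483 && (
  let v484 := sub v483 v261; ok v484 && (
  isPos 4 v484 && (
  let v485 := scale ⟨377957122048, 0, 0, 0⟩ v0; ok v485 && (
  let v486 := sub v485 v257; ok v486 && (
  isPos 4 v486 && (
  isPos 4 v476 && (
  let v487 := sub v1 v398; ok v487 && (
  isPos 4 v487 && (
  isPos 4 v317 && (
  isPos 4 v331 && (
  let v488 := sub v483 v323; ok v488 && (
  isPos 4 v488 && (
  isPos 4 v479 && (
  isPos 4 v457 && (
  true))))))))))))))))))))))))))))))))))))))))))))))))))))))))))))))))))))))))))))))))))))))))))))))))))))))))))))))))))))))))))))))))))))))))))))))))))))))))))))))))))))))))))))))))))))))))))))))))))))))))))))))))))))))))))))))))))))))))))))))))))))))))))))))))))))))))))))))))))))))))))))))))))))))))))))))))))))))))))))))))))))))))))))))))))))))))))))))))))))))))))))))))))))))))))))))))))))))))))))))))))))))))))))))))))))))))))))))))))))))))))))))))))))))))))))))))))))))))))))))))))))))))))))))))))))))))))))))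
  | _ => false

set_option maxRecDepth 1000000 in
theorem chk0_eq (O : Ops) (m : List O.α)
    (h : chk0 O.cst O.add O.sub O.mul O.scale O.neg O.inv O.exp O.log O.ok O.isPos O.isLt m = true) :
    runG O 4 prog0 m = true := by
  match m, h with
  | [x0, x1, x2, x3], h => exact h

def chkB0 : List opsE.α → Bool :=
  chk0 opsE.cst opsE.add opsE.sub opsE.mul opsE.scale opsE.neg opsE.inv opsE.exp opsE.log opsE.ok opsE.isPos opsE.isLt

theorem chkB0_eq (m : List opsE.α) (h : chkB0 m = true) : runG opsE 4 prog0 m = true :=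
  chk0_eq opsE m h

def prog1 : List Op := [
  .const ⟨1099511627776, 0, 0, 0⟩,
  .const ⟨549755813888, 0, 0, 0⟩,
  .mul 3 4,
  .mul 0 6,
  .scale ⟨549755813888, 0, 0, 0⟩ 0,
  .mul 7 7,
  .mul 1 1,
  .sub 6 0,
  .inv 0,
  .mul 4 0,
  .scale ⟨2199023255552, 0, 0, 0⟩ 0,
  .scale ⟨2199023255552, 0, 0, 0⟩ 2,
  .sub 0 11,
  .add 0 2,
  .mul 17 5,
  .mul 17 0,
  .sub 15 0,
  .add 16 1,
  .scale ⟨10774999203840, 0, 0, 0⟩ 13,
  .scale ⟨45768245248, 0, 0, 0⟩ 0,
  .const ⟨183207198720, 0, 0, 0⟩,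
  .add 1 0,
  .mul 3 0,
  .add 21 0,
  .mul 5 0,
  .add 24 0,
  .mul 7 0,
  .scale ⟨549755813888, 0, 0, 0⟩ 0,
  .add 27 0,
  .mul 3 0,
  .mul 31 24,
  .mul 20 15,
  .scale ⟨2199023255552, 0, 0, 0⟩ 19,
  .add 1 0,
  .add 0 35,
  .mul 4 0,
  .add 0 35,
  .mul 26 26,
  .scale ⟨2199023255552, 0, 0, 0⟩ 0,
  .add 0 38,
  .mul 27 5,
  .sub 0 40,
  .log 5,
  .scale ⟨549755813888, 0, 0, 0⟩ 0,
  .exp 0,
  .scale ⟨549755813888, 0, 0, 0⟩ 45,
  .mul 0 3,
  .neg 0,
  .exp 0,
  .mul 36 18,
  .mul 0 8,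
  .scale ⟨4398046511104, 0, 0, 0⟩ 0,
  .add 0 51,
  .log 0,
  .sub 0 11,
  .mul 9 0,
  .neg 0,
  .exp 0,
  .mul 42 47,
  .add 46 0,
  .inv 0,
  .mul 43 0,
  .mul 45 63,
  .mul 0 1,
  .mul 49 49,
  .sub 64 59,
  .mul 1 0,
  .mul 64 64,
  .add 55 37,
  .inv 0,
  .mul 0 70,
  .mul 0 0,
  .mul 4 6,
  .sub 72 8,
  .mul 1 0,
  .mul 3 0,
  .inv 76,
  .const ⟨45812285440, 0, 0, 0⟩,
  .scale ⟨1527119872, 0, 0, 0⟩ 2,
  .sub 1 0,
  .mul 4 0,
  .sub 79 0,
  .mul 6 0,
  .sub 82 0,
  .add 35 83,
  .mul 36 36,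
  .add 0 85,
  .mul 38 3,
  .scale ⟨2199023255552, 0, 0, 0⟩ 0,
  .add 2 0,
  .inv 5,
  .mul 1 0,
  .add 0 7,
  .mul 44 29,
  .scale ⟨549755813888, 0, 0, 0⟩ 0,
  .mul 0 2,
  .sub 6 0,
  .pos 7,
  .pos 0,
  .inv 0,
  .mul 52 63,
  .const ⟨6597069766656, 0, 0, 0⟩,
  .add 64 0,
  .mul 2 0,
  .scale ⟨4398046511104, 0, 0, 0⟩ 66,
  .add 0 3,
  .inv 0,
  .mul 3 0,
  .mul 75 0,
  .scale ⟨2199023255552, 0, 0, 0⟩ 0,
  .scale ⟨183274307584, 0, 0, 0⟩ 0,
  .sub 107 0,
  .mul 2 0,
  .sub 110 0,
  .mul 6 0,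
  .mul 0 15,
  .mul 83 0,
  .add 0 113,
  .inv 0,
  .mul 3 0,
  .mul 87 0,
  .mul 24 4,
  .add 0 118,
  .mul 0 28,
  .inv 32,
  .mul 1 0,
  .mul 60 5,
  .scale ⟨549755813888, 0, 0, 0⟩ 0,
  .sub 125 0,
  .sub 126 2,
  .inv 0,
  .mul 2 0,
  .add 5 129,
  .mul 82 0,
  .mul 115 114,
  .add 120 134,
  .mul 118 121,
  .mul 0 124,
  .scale ⟨2199023255552, 0, 0, 0⟩ 0,
  .add 97 0,
  .mul 4 0,
  .inv 0,
  .mul 7 0,
  .mul 142 0,
  .inv 105,
  .mul 67 0,
  .scale ⟨1527119872, 0, 0, 0⟩ 0,
  .sub 67 0,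
  .mul 2 0,
  .sub 145 0,
  .mul 4 0,
  .sub 148 0,
  .add 92 149,
  .mul 93 93,
  .add 0 151,
  .mul 95 3,
  .scale ⟨2199023255552, 0, 0, 0⟩ 0,
  .add 2 0,
  .inv 5,
  .mul 1 0,
  .add 0 7,
  .mul 101 17,
  .scale ⟨549755813888, 0, 0, 0⟩ 0,
  .mul 0 2,
  .sub 6 0,
  .pos 7,
  .pos 0,
  .sub 162 105,
  .mul 0 13,
  .inv 2,
  .mul 1 0,
  .scale ⟨549755813888, 0, 0, 0⟩ 0,
  .add 0 166,
  .inv 0,
  .mul 2 0,
  .mul 29 0,
  .add 167 171,
  .inv 0,
  .mul 169 0,
  .scale ⟨2199023255552, 0, 0, 0⟩ 0,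
  .sub 175 0,
  .sub 176 172,
  .mul 181 4,
  .mul 0 2,
  .add 162 0,
  .mul 181 170,
  .const ⟨13194139533312, 0, 0, 0⟩,
  .inv 0,
  .mul 184 0,
  .const ⟨23089744183296, 0, 0, 0⟩,
  .const ⟨10995116277760, 0, 0, 0⟩,
  .inv 0,
  .mul 2 0,
  .add 4 0,
  .inv 0,
  .scale ⟨224412041216, 0, 0, 0⟩ 182,
  .inv 162,
  .mul 1 0,
  .mul 4 176,
  .mul 0 1,
  .mul 193 0,
  .sub 196 0,
  .inv 0,
  .mul 67 2,
  .sub 199 0,
  .inv 0,
  .mul 185 199,
  .mul 0 85,
  .inv 189,
  .mul 1 0,
  .scale ⟨549755813888, 0, 0, 0⟩ 0,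
  .sub 206 0,
  .sub 207 2,
  .inv 0,
  .mul 2 0,
  .mul 213 93,
  .mul 0 1,
  .mul 214 0,
  .mul 8 3,
  .pos 6,
  .mul 0 138,
  .scale ⟨1374389534720, 0, 0, 0⟩ 0,
  .sub 215 0,
  .pos 0,
  .scale ⟨3092376453120, 0, 0, 0⟩ 2,
  .const ⟨2199023255552, 0, 0, 0⟩,
  .add 1 0,
  .mul 5 0,
  .add 221 0,
  .scale ⟨1546188226560, 0, 0, 0⟩ 7,
  .add 0 223,
  .mul 9 0,
  .add 225 0,
  .mul 222 212,
  .sub 227 161,
  .mul 224 213,
  .scale ⟨2199023255552, 0, 0, 0⟩ 0,
  .sub 2 0,
  .mul 4 4,
  .add 1 0,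
  .add 0 233,
  .scale ⟨549755813888, 0, 0, 0⟩ 0,
  .scale ⟨549755813888, 0, 0, 0⟩ 205,
  .sub 228 0,
  .mul 170 9,
  .mul 0 231,
  .scale ⟨137438953472, 0, 0, 0⟩ 0,
  .add 3 0,
  .mul 6 0,
  .mul 226 181,
  .mul 0 241,
  .mul 0 127,
  .mul 0 116,
  .mul 244 0,
  .add 116 247,
  .mul 0 50,
  .mul 118 48,
  .add 1 0,
  .mul 55 0,
  .add 5 0,
  .mul 0 177,
  .mul 6 58,
  .mul 0 57,
  .add 9 0,
  .mul 0 181,
  .scale ⟨223338299392, 0, 0, 0⟩ 0,
  .add 258 0,
  .mul 2 0,
  .add 261 0,
  .scale ⟨893353197568, 0, 0, 0⟩ 8,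
  .add 263 0,
  .mul 10 0,
  .add 265 0,
  .mul 91 88,
  .mul 0 45,
  .mul 0 2,
  .mul 27 7,
  .add 226 269,
  .mul 2 0,
  .add 2 0,
  .add 229 273,
  .mul 5 0,
  .mul 49 1,
  .mul 0 98,
  .mul 0 100,
  .mul 276 98,
  .inv 235,
  .mul 1 0,
  .scale ⟨549755813888, 0, 0, 0⟩ 0,
  .mul 221 280,
  .mul 0 166,
  .mul 0 155,
  .mul 269 3,
  .mul 13 1,
  .mul 9 74,
  .add 1 0,
  .mul 0 213,
  .add 4 0,
  .mul 18 43,
  .mul 0 94,
  .mul 18 162,
  .mul 0 93,
  .add 2 0,
  .mul 0 220,
  .mul 281 6,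
  .mul 103 1,
  .add 1 0,
  .mul 233 0,
  .mul 0 21,
  .sub 302 0,
  .inv 0,
  .mul 4 0,
  .mul 307 0,
  .mul 239 1,
  .mul 0 27,
  .sub 308 0,
  .mul 268 0,
  .sub 0 4,
  .inv 0,
  .mul 6 0,
  .sub 313 7,
  .inv 0,
  .mul 252 198,
  .mul 0 187,
  .add 212 0,
  .mul 0 3,
  .mul 0 12,
  .scale ⟨223338299392, 0, 0, 0⟩ 0,
  .add 320 0,
  .mul 2 0,
  .add 323 0,
  .mul 4 0,
  .mul 0 202,
  .mul 0 195,
  .sub 327 0,
  .mul 9 4,
  .mul 0 25,
  .mul 0 254,
  .inv 3,
  .mul 1 0,
  .mul 0 336,
  .mul 61 136,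
  .mul 60 212,
  .mul 0 205,
  .mul 0 136,
  .add 3 0,
  .mul 5 0,
  .mul 67 279,
  .mul 339 228,
  .mul 1 0,
  .mul 0 214,
  .mul 155 342,
  .mul 0 328,
  .mul 0 330,
  .const ⟨9895604649984, 0, 0, 0⟩,
  .const ⟨21990232555520, 0, 0, 0⟩,
  .inv 0,
  .mul 2 0,
  .mul 18 161,
  .mul 0 355,
  .inv 336,
  .mul 1 0,
  .mul 356 232,
  .mul 0 340,
  .mul 360 177,
  .mul 0 78,
  .scale ⟨549755813888, 0, 0, 0⟩ 0,
  .mul 3 0,
  .mul 20 364,
  .mul 0 249,
  .mul 0 234,
  .add 3 0,
  .mul 242 87,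
  .mul 0 154,
  .add 2 0,
  .mul 13 0,
  .mul 357 328,
  .scale ⟨4398046511104, 0, 0, 0⟩ 0,
  .sub 0 337,
  .mul 367 0,
  .mul 0 231,
  .mul 375 0,
  .mul 377 1,
  .add 0 157,
  .inv 0,
  .mul 3 0,
  .mul 381 0,
  .scale ⟨549755813888, 0, 0, 0⟩ 0,
  .sub 381 0,
  .mul 3 0,
  .neg 0,
  .mul 244 214,
  .add 1 0,
  .mul 2 1,
  .mul 389 0,
  .add 2 0,
  .mul 344 15,
  .add 219 390,
  .mul 6 0,
  .add 2 0,
  .mul 80 0,
  .mul 396 0,
  .scale ⟨687194767360, 0, 0, 0⟩ 0,
  .add 396 0,
  .mul 3 0,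
  .add 9 0,
  .mul 10 1,
  .mul 402 0,
  .add 2 0,
  .mul 405 406,
  .mul 0 231,
  .mul 0 396,
  .add 3 0,
  .mul 4 1,
  .mul 409 0,
  .add 2 0,
  .mul 404 375,
  .mul 412 0,
  .scale ⟨412316860416, 0, 0, 0⟩ 0,
  .sub 411 0,
  .mul 3 0,
  .neg 0,
  .add 6 0,
  .mul 7 1,
  .mul 419 0,
  .add 2 0,
  .mul 422 114,
  .mul 0 66,
  .add 2 0,
  .mul 3 1,
  .mul 425 0,
  .add 2 0,
  .mul 253 408,
  .mul 0 75,
  .sub 2 0,
  .mul 430 1,
  .add 429 0,
  .inv 0,
  .mul 3 0,
  .mul 435 430,
  .mul 0 128,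
  .sub 390 127,
  .inv 0,
  .mul 2 0,
  .add 5 0,
  .mul 6 1,
  .mul 441 0,
  .add 2 0,
  .mul 443 0,
  .add 442 0,
  .mul 103 247,
  .mul 446 97,
  .mul 76 0,
  .add 2 0,
  .mul 0 4,
  .add 7 0,
  .add 0 109,
  .add 0 81,
  .neg 0,
  .const ⟨1073741824, 0, 0, 0⟩,
  .sub 1 0,
  .sub 441 454,
  .add 0 236,
  .scale ⟨2199023255552, 0, 0, 0⟩ 105,
  .sub 1 0,
  .mul 286 0,
  .mul 4 2,
  .add 0 460,
  .inv 0,
  .mul 3 0,
  .mul 274 166,
  .scale ⟨549755813888, 0, 0, 0⟩ 271,
  .add 455 0,
  .mul 2 0,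
  .scale ⟨2199023255552, 0, 0, 0⟩ 0,
  .add 177 0,
  .scale ⟨2199023255552, 0, 0, 0⟩ 0,
  .mul 0 166,
  .mul 469 166,
  .sub 455 0,
  .inv 0,
  .mul 3 0,
  .sub 12 0,
  .pos 279,
  .pos 276,
  .scale ⟨2199023255552, 0, 0, 0⟩ 175,
  .sub 433 0,
  .pos 0,
  .pos 167,
  .pos 351,
  .sub 477 307,
  .pos 0,
  .scale ⟨687194767360, 0, 0, 0⟩ 479,
  .sub 0 222,
  .pos 0,
  .scale ⟨377957122048, 0, 0, 0⟩ 481,
  .sub 0 228,
  .pos 0,
  .pos 10,
  .sub 482 88,
  .pos 0,
  .pos 170,
  .pos 156,
  .sub 4 164,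
  .pos 0,
  .pos 9,
  .pos 31]

def chk1 {α : Type} (cst : Z → α) (add sub mul : α → α → α) (scale : Z → α → α)
    (neg inv exp log : α → α) (ok : α → Bool) (isPos : Nat → α → Bool) (isLt : α → Nat → Bool) :
    List α → Bool
  | [x0, x1, x2, x3] =>
  let v0 := cst ⟨1099511627776, 0, 0, 0⟩; ok v0 && (
  let v1 := cst ⟨549755813888, 0, 0, 0⟩; ok v1 && (
  let v2 := mul x1 x2; ok v2 && (
  let v3 := mul v2 x3; ok v3 && (
  let v4 := scale ⟨549755813888, 0, 0, 0⟩ v3; ok v4 && (
  let v5 := mul x2 x2; ok v5 && (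
  let v6 := mul v4 v4; ok v6 && (
  let v7 := sub v0 v6; ok v7 && (
  let v8 := inv v7; ok v8 && (
  let v9 := mul v4 v8; ok v9 && (
  let v10 := scale ⟨2199023255552, 0, 0, 0⟩ v9; ok v10 && (
  let v11 := scale ⟨2199023255552, 0, 0, 0⟩ v8; ok v11 && (
  let v12 := sub v11 v0; ok v12 && (
  let v13 := add v12 v10; ok v13 && (
  let v14 := mul x3 v8; ok v14 && (
  let v15 := mul x2 v14; ok v15 && (
  let v16 := sub v0 v15; ok v16 && (
  let v17 := add v0 v15; ok v17 && (
  let v18 := scale ⟨10774999203840, 0, 0, 0⟩ v4; ok v18 && (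
  let v19 := scale ⟨45768245248, 0, 0, 0⟩ v18; ok v19 && (
  let v20 := cst ⟨183207198720, 0, 0, 0⟩; ok v20 && (
  let v21 := add v19 v20; ok v21 && (
  let v22 := mul v18 v21; ok v22 && (
  let v23 := add v1 v22; ok v23 && (
  let v24 := mul v18 v23; ok v24 && (
  let v25 := add v0 v24; ok v25 && (
  let v26 := mul v18 v25; ok v26 && (
  let v27 := scale ⟨549755813888, 0, 0, 0⟩ v26; ok v27 && (
  let v28 := add v0 v27; ok v28 && (
  let v29 := mul v25 v28; ok v29 && (
  let v30 := mul x1 v5; ok v30 && (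
  let v31 := mul v10 v15; ok v31 && (
  let v32 := scale ⟨2199023255552, 0, 0, 0⟩ v12; ok v32 && (
  let v33 := add v31 v32; ok v33 && (
  let v34 := add v33 x1; ok v34 && (
  let v35 := mul v30 v34; ok v35 && (
  let v36 := add v35 v0; ok v36 && (
  let v37 := mul v10 v10; ok v37 && (
  let v38 := scale ⟨2199023255552, 0, 0, 0⟩ v37; ok v38 && (
  let v39 := add v38 v0; ok v39 && (
  let v40 := mul v12 v34; ok v40 && (
  let v41 := sub v40 v0; ok v41 && (
  let v42 := log v36; ok v42 && (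
  let v43 := scale ⟨549755813888, 0, 0, 0⟩ v42; ok v43 && (
  let v44 := exp v43; ok v44 && (
  let v45 := scale ⟨549755813888, 0, 0, 0⟩ x0; ok v45 && (
  let v46 := mul v45 v42; ok v46 && (
  let v47 := neg v46; ok v47 && (
  let v48 := exp v47; ok v48 && (
  let v49 := mul v12 v30; ok v49 && (
  let v50 := mul v49 v41; ok v50 && (
  let v51 := scale ⟨4398046511104, 0, 0, 0⟩ v50; ok v51 && (
  let v52 := add v51 v0; ok v52 && (
  let v53 := log v52; ok v53 && (
  let v54 := sub v53 v42; ok v54 && (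
  let v55 := mul v45 v54; ok v55 && (
  let v56 := neg v55; ok v56 && (
  let v57 := exp v56; ok v57 && (
  let v58 := mul v15 v10; ok v58 && (
  let v59 := add v12 v58; ok v59 && (
  let v60 := inv v59; ok v60 && (
  let v61 := mul v17 v60; ok v61 && (
  let v62 := mul v16 x1; ok v62 && (
  let v63 := mul v62 v61; ok v63 && (
  let v64 := mul v14 v14; ok v64 && (
  let v65 := sub v0 v5; ok v65 && (
  let v66 := mul v64 v65; ok v66 && (
  let v67 := mul v2 v2; ok v67 && (
  let v68 := add v12 v30; ok v68 && (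
  let v69 := inv v68; ok v69 && (
  let v70 := mul v69 x0; ok v70 && (
  let v71 := mul v70 v70; ok v71 && (
  let v72 := mul v67 v65; ok v72 && (
  let v73 := sub v0 v64; ok v73 && (
  let v74 := mul v72 v73; ok v74 && (
  let v75 := mul v71 v74; ok v75 && (
  let v76 := inv x0; ok v76 && (
  let v77 := cst ⟨45812285440, 0, 0, 0⟩; ok v77 && (
  let v78 := scale ⟨1527119872, 0, 0, 0⟩ v75; ok v78 && (
  let v79 := sub v77 v78; ok v79 && (
  let v80 := mul v75 v79; ok v80 && (
  let v81 := sub v1 v80; ok v81 && (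
  let v82 := mul v75 v81; ok v82 && (
  let v83 := sub v0 v82; ok v83 && (
  let v84 := add v48 v0; ok v84 && (
  let v85 := mul v48 v48; ok v85 && (
  let v86 := add v85 v0; ok v86 && (
  let v87 := mul v48 v83; ok v87 && (
  let v88 := scale ⟨2199023255552, 0, 0, 0⟩ v87; ok v88 && (
  let v89 := add v86 v88; ok v89 && (
  let v90 := inv v84; ok v90 && (
  let v91 := mul v89 v90; ok v91 && (
  let v92 := add v91 v84; ok v92 && (
  let v93 := mul v48 v63; ok v93 && (
  let v94 := scale ⟨549755813888, 0, 0, 0⟩ v93; ok v94 && (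
  let v95 := mul v94 v92; ok v95 && (
  let v96 := sub v89 v95; ok v96 && (
  isPos 4 v89 && (
  isPos 4 v96 && (
  let v97 := inv v96; ok v97 && (
  let v98 := mul v45 v34; ok v98 && (
  let v99 := cst ⟨6597069766656, 0, 0, 0⟩; ok v99 && (
  let v100 := add v35 v99; ok v100 && (
  let v101 := mul v98 v100; ok v101 && (
  let v102 := scale ⟨4398046511104, 0, 0, 0⟩ v35; ok v102 && (
  let v103 := add v102 v99; ok v103 && (
  let v104 := inv v103; ok v104 && (
  let v105 := mul v101 v104; ok v105 && (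
  let v106 := mul v30 v105; ok v106 && (
  let v107 := scale ⟨2199023255552, 0, 0, 0⟩ v106; ok v107 && (
  let v108 := scale ⟨183274307584, 0, 0, 0⟩ v107; ok v108 && (
  let v109 := sub v1 v108; ok v109 && (
  let v110 := mul v107 v109; ok v110 && (
  let v111 := sub v0 v110; ok v111 && (
  let v112 := mul v105 v111; ok v112 && (
  let v113 := mul v112 v97; ok v113 && (
  let v114 := mul v30 v113; ok v114 && (
  let v115 := add v114 v1; ok v115 && (
  let v116 := inv v115; ok v116 && (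
  let v117 := mul v113 v116; ok v117 && (
  let v118 := mul v30 v117; ok v118 && (
  let v119 := mul v94 v114; ok v119 && (
  let v120 := add v119 v1; ok v120 && (
  let v121 := mul v120 v92; ok v121 && (
  let v122 := inv v89; ok v122 && (
  let v123 := mul v121 v122; ok v123 && (
  let v124 := mul v63 v118; ok v124 && (
  let v125 := scale ⟨549755813888, 0, 0, 0⟩ v124; ok v125 && (
  let v126 := sub v0 v125; ok v126 && (
  let v127 := sub v0 v124; ok v127 && (
  let v128 := inv v127; ok v128 && (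
  let v129 := mul v126 v128; ok v129 && (
  let v130 := add v124 v0; ok v130 && (
  let v131 := mul v48 v130; ok v131 && (
  let v132 := mul v16 v17; ok v132 && (
  let v133 := add v12 x1; ok v133 && (
  let v134 := mul v15 v12; ok v134 && (
  let v135 := mul v134 v10; ok v135 && (
  let v136 := scale ⟨2199023255552, 0, 0, 0⟩ v135; ok v136 && (
  let v137 := add v39 v136; ok v137 && (
  let v138 := mul v133 v137; ok v138 && (
  let v139 := inv v138; ok v139 && (
  let v140 := mul v132 v139; ok v140 && (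
  let v141 := mul x1 v140; ok v141 && (
  let v142 := inv v36; ok v142 && (
  let v143 := mul v75 v142; ok v143 && (
  let v144 := scale ⟨1527119872, 0, 0, 0⟩ v143; ok v144 && (
  let v145 := sub v77 v144; ok v145 && (
  let v146 := mul v143 v145; ok v146 && (
  let v147 := sub v1 v146; ok v147 && (
  let v148 := mul v143 v147; ok v148 && (
  let v149 := sub v0 v148; ok v149 && (
  let v150 := add v57 v0; ok v150 && (
  let v151 := mul v57 v57; ok v151 && (
  let v152 := add v151 v0; ok v152 && (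
  let v153 := mul v57 v149; ok v153 && (
  let v154 := scale ⟨2199023255552, 0, 0, 0⟩ v153; ok v154 && (
  let v155 := add v152 v154; ok v155 && (
  let v156 := inv v150; ok v156 && (
  let v157 := mul v155 v156; ok v157 && (
  let v158 := add v157 v150; ok v158 && (
  let v159 := mul v57 v141; ok v159 && (
  let v160 := scale ⟨549755813888, 0, 0, 0⟩ v159; ok v160 && (
  let v161 := mul v160 v158; ok v161 && (
  let v162 := sub v155 v161; ok v162 && (
  isPos 4 v155 && (
  isPos 4 v162 && (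
  let v163 := sub v0 v57; ok v163 && (
  let v164 := mul v163 v150; ok v164 && (
  let v165 := inv v162; ok v165 && (
  let v166 := mul v164 v165; ok v166 && (
  let v167 := scale ⟨549755813888, 0, 0, 0⟩ v166; ok v167 && (
  let v168 := add v167 v1; ok v168 && (
  let v169 := inv v168; ok v169 && (
  let v170 := mul v167 v169; ok v170 && (
  let v171 := mul v141 v170; ok v171 && (
  let v172 := add v4 v0; ok v172 && (
  let v173 := inv v172; ok v173 && (
  let v174 := mul v4 v173; ok v174 && (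
  let v175 := scale ⟨2199023255552, 0, 0, 0⟩ v174; ok v175 && (
  let v176 := sub v0 v175; ok v176 && (
  let v177 := sub v0 v4; ok v177 && (
  let v178 := mul x3 v173; ok v178 && (
  let v179 := mul v178 v176; ok v179 && (
  let v180 := add v17 v179; ok v180 && (
  let v181 := mul x0 v10; ok v181 && (
  let v182 := cst ⟨13194139533312, 0, 0, 0⟩; ok v182 && (
  let v183 := inv v182; ok v183 && (
  let v184 := mul x0 v183; ok v184 && (
  let v185 := cst ⟨23089744183296, 0, 0, 0⟩; ok v185 && (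
  let v186 := cst ⟨10995116277760, 0, 0, 0⟩; ok v186 && (
  let v187 := inv v186; ok v187 && (
  let v188 := mul v185 v187; ok v188 && (
  let v189 := add v184 v188; ok v189 && (
  let v190 := inv v189; ok v190 && (
  let v191 := scale ⟨224412041216, 0, 0, 0⟩ v8; ok v191 && (
  let v192 := inv v29; ok v192 && (
  let v193 := mul v191 v192; ok v193 && (
  let v194 := mul v189 v17; ok v194 && (
  let v195 := mul v194 v193; ok v195 && (
  let v196 := mul v2 v195; ok v196 && (
  let v197 := sub v0 v196; ok v197 && (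
  let v198 := inv v197; ok v198 && (
  let v199 := mul v131 v196; ok v199 && (
  let v200 := sub v0 v199; ok v200 && (
  let v201 := inv v200; ok v201 && (
  let v202 := mul v16 v2; ok v202 && (
  let v203 := mul v202 v117; ok v203 && (
  let v204 := inv v14; ok v204 && (
  let v205 := mul v203 v204; ok v205 && (
  let v206 := scale ⟨549755813888, 0, 0, 0⟩ v205; ok v206 && (
  let v207 := sub v0 v206; ok v207 && (
  let v208 := sub v0 v205; ok v208 && (
  let v209 := inv v208; ok v209 && (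
  let v210 := mul v207 v209; ok v210 && (
  let v211 := mul x2 v117; ok v211 && (
  let v212 := mul v211 v210; ok v212 && (
  let v213 := mul x1 v212; ok v213 && (
  let v214 := mul v205 v210; ok v214 && (
  isPos 4 v208 && (
  let v215 := mul v214 v76; ok v215 && (
  let v216 := scale ⟨1374389534720, 0, 0, 0⟩ v215; ok v216 && (
  let v217 := sub v1 v216; ok v217 && (
  isPos 4 v217 && (
  let v218 := scale ⟨3092376453120, 0, 0, 0⟩ v215; ok v218 && (
  let v219 := cst ⟨2199023255552, 0, 0, 0⟩; ok v219 && (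
  let v220 := add v218 v219; ok v220 && (
  let v221 := mul v215 v220; ok v221 && (
  let v222 := add v0 v221; ok v222 && (
  let v223 := scale ⟨1546188226560, 0, 0, 0⟩ v215; ok v223 && (
  let v224 := add v223 v0; ok v224 && (
  let v225 := mul v215 v224; ok v225 && (
  let v226 := add v0 v225; ok v226 && (
  let v227 := mul v4 v14; ok v227 && (
  let v228 := sub v0 v66; ok v228 && (
  let v229 := mul v4 v15; ok v229 && (
  let v230 := scale ⟨2199023255552, 0, 0, 0⟩ v229; ok v230 && (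
  let v231 := sub v228 v230; ok v231 && (
  let v232 := mul v227 v227; ok v232 && (
  let v233 := add v231 v232; ok v233 && (
  let v234 := add v233 v0; ok v234 && (
  let v235 := scale ⟨549755813888, 0, 0, 0⟩ v234; ok v235 && (
  let v236 := scale ⟨549755813888, 0, 0, 0⟩ v30; ok v236 && (
  let v237 := sub v8 v236; ok v237 && (
  let v238 := mul v67 v228; ok v238 && (
  let v239 := mul v238 v7; ok v239 && (
  let v240 := scale ⟨137438953472, 0, 0, 0⟩ v239; ok v240 && (
  let v241 := add v237 v240; ok v241 && (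
  let v242 := mul v235 v241; ok v242 && (
  let v243 := mul v16 v61; ok v243 && (
  let v244 := mul v243 v2; ok v244 && (
  let v245 := mul v244 v117; ok v245 && (
  let v246 := mul v245 v129; ok v246 && (
  let v247 := mul v2 v246; ok v247 && (
  let v248 := add v131 v0; ok v248 && (
  let v249 := mul v248 v198; ok v249 && (
  let v250 := mul v131 v201; ok v250 && (
  let v251 := add v249 v250; ok v251 && (
  let v252 := mul v196 v251; ok v252 && (
  let v253 := add v247 v252; ok v253 && (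
  let v254 := mul v253 v76; ok v254 && (
  let v255 := mul v248 v196; ok v255 && (
  let v256 := mul v255 v198; ok v256 && (
  let v257 := add v247 v256; ok v257 && (
  let v258 := mul v257 v76; ok v258 && (
  let v259 := scale ⟨223338299392, 0, 0, 0⟩ v258; ok v259 && (
  let v260 := add v1 v259; ok v260 && (
  let v261 := mul v258 v260; ok v261 && (
  let v262 := add v0 v261; ok v262 && (
  let v263 := scale ⟨893353197568, 0, 0, 0⟩ v254; ok v263 && (
  let v264 := add v0 v263; ok v264 && (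
  let v265 := mul v254 v264; ok v265 && (
  let v266 := add v0 v265; ok v266 && (
  let v267 := mul v175 v178; ok v267 && (
  let v268 := mul v267 v222; ok v268 && (
  let v269 := mul v268 v266; ok v269 && (
  let v270 := mul v242 v262; ok v270 && (
  let v271 := add v44 v1; ok v271 && (
  let v272 := mul v269 v271; ok v272 && (
  let v273 := add v270 v272; ok v273 && (
  let v274 := add v44 v0; ok v274 && (
  let v275 := mul v269 v274; ok v275 && (
  let v276 := mul v226 v274; ok v276 && (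
  let v277 := mul v276 v178; ok v277 && (
  let v278 := mul v277 v177; ok v278 && (
  let v279 := mul v2 v180; ok v279 && (
  let v280 := inv v44; ok v280 && (
  let v281 := mul v279 v280; ok v281 && (
  let v282 := scale ⟨549755813888, 0, 0, 0⟩ v281; ok v282 && (
  let v283 := mul v61 v2; ok v283 && (
  let v284 := mul v283 v117; ok v284 && (
  let v285 := mul v284 v129; ok v285 && (
  let v286 := mul v16 v282; ok v286 && (
  let v287 := mul v273 v285; ok v287 && (
  let v288 := mul v278 v213; ok v288 && (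
  let v289 := add v287 v288; ok v289 && (
  let v290 := mul v289 v76; ok v290 && (
  let v291 := add v286 v290; ok v291 && (
  let v292 := mul v273 v248; ok v292 && (
  let v293 := mul v292 v198; ok v293 && (
  let v294 := mul v275 v131; ok v294 && (
  let v295 := mul v294 v201; ok v295 && (
  let v296 := add v293 v295; ok v296 && (
  let v297 := mul v296 v76; ok v297 && (
  let v298 := mul v16 v291; ok v298 && (
  let v299 := mul v195 v297; ok v299 && (
  let v300 := add v298 v299; ok v300 && (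
  let v301 := mul v67 v300; ok v301 && (
  let v302 := mul v301 v280; ok v302 && (
  let v303 := sub v0 v302; ok v303 && (
  let v304 := inv v303; ok v304 && (
  let v305 := mul v300 v304; ok v305 && (
  let v306 := mul x1 v305; ok v306 && (
  let v307 := mul v67 v305; ok v307 && (
  let v308 := mul v307 v280; ok v308 && (
  let v309 := sub v0 v308; ok v309 && (
  let v310 := mul v41 v309; ok v310 && (
  let v311 := sub v310 v306; ok v311 && (
  let v312 := inv v311; ok v312 && (
  let v313 := mul v306 v312; ok v313 && (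
  let v314 := sub v0 v306; ok v314 && (
  let v315 := inv v314; ok v315 && (
  let v316 := mul v63 v117; ok v316 && (
  let v317 := mul v316 v129; ok v317 && (
  let v318 := add v105 v317; ok v318 && (
  let v319 := mul v318 v315; ok v319 && (
  let v320 := mul v319 v307; ok v320 && (
  let v321 := scale ⟨223338299392, 0, 0, 0⟩ v320; ok v321 && (
  let v322 := add v1 v321; ok v322 && (
  let v323 := mul v320 v322; ok v323 && (
  let v324 := add v0 v323; ok v324 && (
  let v325 := mul v320 v324; ok v325 && (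
  let v326 := mul v325 v123; ok v326 && (
  let v327 := mul v326 v131; ok v327 && (
  let v328 := sub v0 v327; ok v328 && (
  let v329 := mul v319 v324; ok v329 && (
  let v330 := mul v329 v304; ok v330 && (
  let v331 := mul v330 v76; ok v331 && (
  let v332 := inv v328; ok v332 && (
  let v333 := mul v331 v332; ok v333 && (
  let v334 := mul v333 x2; ok v334 && (
  let v335 := mul v273 v198; ok v335 && (
  let v336 := mul v275 v123; ok v336 && (
  let v337 := mul v336 v131; ok v337 && (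
  let v338 := mul v337 v201; ok v338 && (
  let v339 := add v335 v338; ok v339 && (
  let v340 := mul v334 v339; ok v340 && (
  let v341 := mul v273 v61; ok v341 && (
  let v342 := mul v2 v113; ok v342 && (
  let v343 := mul v341 v342; ok v343 && (
  let v344 := mul v343 v129; ok v344 && (
  let v345 := mul v189 v2; ok v345 && (
  let v346 := mul v345 v17; ok v346 && (
  let v347 := mul v346 v16; ok v347 && (
  let v348 := cst ⟨9895604649984, 0, 0, 0⟩; ok v348 && (
  let v349 := cst ⟨21990232555520, 0, 0, 0⟩; ok v349 && (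
  let v350 := inv v349; ok v350 && (
  let v351 := mul v348 v350; ok v351 && (
  let v352 := mul v333 v190; ok v352 && (
  let v353 := mul v352 x2; ok v353 && (
  let v354 := inv v17; ok v354 && (
  let v355 := mul v353 v354; ok v355 && (
  let v356 := mul x0 v123; ok v356 && (
  let v357 := mul v356 v16; ok v357 && (
  let v358 := mul x2 v180; ok v358 && (
  let v359 := mul v358 v280; ok v359 && (
  let v360 := scale ⟨549755813888, 0, 0, 0⟩ v359; ok v360 && (
  let v361 := mul v357 v360; ok v361 && (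
  let v362 := mul v341 x2; ok v362 && (
  let v363 := mul v362 v113; ok v363 && (
  let v364 := mul v363 v129; ok v364 && (
  let v365 := add v361 v364; ok v365 && (
  let v366 := mul v123 v278; ok v366 && (
  let v367 := mul v366 v212; ok v367 && (
  let v368 := add v365 v367; ok v368 && (
  let v369 := mul v355 v368; ok v369 && (
  let v370 := mul v12 v41; ok v370 && (
  let v371 := scale ⟨4398046511104, 0, 0, 0⟩ v370; ok v371 && (
  let v372 := sub v371 v34; ok v372 && (
  let v373 := mul v5 v372; ok v373 && (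
  let v374 := mul v373 v142; ok v374 && (
  let v375 := mul x0 v374; ok v375 && (
  let v376 := mul x1 v374; ok v376 && (
  let v377 := add v376 v219; ok v377 && (
  let v378 := inv v377; ok v378 && (
  let v379 := mul v375 v378; ok v379 && (
  let v380 := mul x1 v379; ok v380 && (
  let v381 := scale ⟨549755813888, 0, 0, 0⟩ v380; ok v381 && (
  let v382 := sub v0 v381; ok v382 && (
  let v383 := mul v379 v382; ok v383 && (
  let v384 := neg v383; ok v384 && (
  let v385 := mul v140 v170; ok v385 && (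
  let v386 := add v384 v385; ok v386 && (
  let v387 := mul v384 v385; ok v387 && (
  let v388 := mul x1 v387; ok v388 && (
  let v389 := add v386 v388; ok v389 && (
  let v390 := mul v45 v374; ok v390 && (
  let v391 := add v171 v0; ok v391 && (
  let v392 := mul v385 v391; ok v392 && (
  let v393 := add v390 v392; ok v393 && (
  let v394 := mul v313 v393; ok v394 && (
  let v395 := mul x1 v394; ok v395 && (
  let v396 := scale ⟨687194767360, 0, 0, 0⟩ v395; ok v396 && (
  let v397 := add v0 v396; ok v397 && (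
  let v398 := mul v394 v397; ok v398 && (
  let v399 := add v389 v398; ok v399 && (
  let v400 := mul v389 v398; ok v400 && (
  let v401 := mul x1 v400; ok v401 && (
  let v402 := add v399 v401; ok v402 && (
  let v403 := mul x2 x3; ok v403 && (
  let v404 := mul v403 v172; ok v404 && (
  let v405 := mul v404 v8; ok v405 && (
  let v406 := add v402 v405; ok v406 && (
  let v407 := mul v402 v405; ok v407 && (
  let v408 := mul x1 v407; ok v408 && (
  let v409 := add v406 v408; ok v409 && (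
  let v410 := mul v5 v34; ok v410 && (
  let v411 := mul x1 v410; ok v411 && (
  let v412 := scale ⟨412316860416, 0, 0, 0⟩ v411; ok v412 && (
  let v413 := sub v1 v412; ok v413 && (
  let v414 := mul v410 v413; ok v414 && (
  let v415 := neg v414; ok v415 && (
  let v416 := add v409 v415; ok v416 && (
  let v417 := mul v409 v415; ok v417 && (
  let v418 := mul x1 v417; ok v418 && (
  let v419 := add v416 v418; ok v419 && (
  let v420 := mul x2 v305; ok v420 && (
  let v421 := mul v420 v354; ok v421 && (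
  let v422 := add v419 v421; ok v422 && (
  let v423 := mul v419 v421; ok v423 && (
  let v424 := mul x1 v423; ok v424 && (
  let v425 := add v422 v424; ok v425 && (
  let v426 := mul v172 v17; ok v426 && (
  let v427 := mul v426 v351; ok v427 && (
  let v428 := sub v425 v427; ok v428 && (
  let v429 := mul x1 v427; ok v429 && (
  let v430 := add v0 v429; ok v430 && (
  let v431 := inv v430; ok v431 && (
  let v432 := mul v428 v431; ok v432 && (
  let v433 := mul x2 v2; ok v433 && (
  let v434 := mul v433 v305; ok v434 && (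
  let v435 := sub v44 v307; ok v435 && (
  let v436 := inv v435; ok v436 && (
  let v437 := mul v434 v436; ok v437 && (
  let v438 := add v432 v437; ok v438 && (
  let v439 := mul v432 v437; ok v439 && (
  let v440 := mul x1 v439; ok v440 && (
  let v441 := add v438 v440; ok v441 && (
  let v442 := mul x1 v441; ok v442 && (
  let v443 := add v0 v442; ok v443 && (
  let v444 := mul v340 v196; ok v444 && (
  let v445 := mul x1 v347; ok v445 && (
  let v446 := mul v369 v445; ok v446 && (
  let v447 := add v444 v446; ok v447 && (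
  let v448 := mul v447 v443; ok v448 && (
  let v449 := add v441 v448; ok v449 && (
  let v450 := add v449 v340; ok v450 && (
  let v451 := add v450 v369; ok v451 && (
  let v452 := neg v451; ok v452 && (
  let v453 := cst ⟨1073741824, 0, 0, 0⟩; ok v453 && (
  let v454 := sub v452 v453; ok v454 && (
  let v455 := sub v13 v0; ok v455 && (
  let v456 := add v455 v219; ok v456 && (
  let v457 := scale ⟨2199023255552, 0, 0, 0⟩ v351; ok v457 && (
  let v458 := sub v456 v457; ok v458 && (
  let v459 := mul v172 v458; ok v459 && (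
  let v460 := mul v455 v457; ok v460 && (
  let v461 := add v460 v0; ok v461 && (
  let v462 := inv v461; ok v462 && (
  let v463 := mul v459 v462; ok v463 && (
  let v464 := mul v189 v297; ok v464 && (
  let v465 := scale ⟨549755813888, 0, 0, 0⟩ v193; ok v465 && (
  let v466 := add v10 v465; ok v466 && (
  let v467 := mul v464 v466; ok v467 && (
  let v468 := scale ⟨2199023255552, 0, 0, 0⟩ v467; ok v468 && (
  let v469 := add v291 v468; ok v469 && (
  let v470 := scale ⟨2199023255552, 0, 0, 0⟩ v469; ok v470 && (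
  let v471 := mul v470 v304; ok v471 && (
  let v472 := mul v2 v305; ok v472 && (
  let v473 := sub v17 v472; ok v473 && (
  let v474 := inv v473; ok v474 && (
  let v475 := mul v471 v474; ok v475 && (
  let v476 := sub v463 v475; ok v476 && (
  isPos 4 v197 && (
  isPos 4 v200 && (
  let v477 := scale ⟨2199023255552, 0, 0, 0⟩ v301; ok v477 && (
  let v478 := sub v44 v477; ok v478 && (
  isPos 4 v478 && (
  isPos 4 v311 && (
  isPos 4 v127 && (
  let v479 := sub v1 v171; ok v479 && (
  isPos 4 v479 && (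
  let v480 := scale ⟨687194767360, 0, 0, 0⟩ v0; ok v480 && (
  let v481 := sub v480 v258; ok v481 && (
  isPos 4 v481 && (
  let v482 := scale ⟨377957122048, 0, 0, 0⟩ v0; ok v482 && (
  let v483 := sub v482 v254; ok v483 && (
  isPos 4 v483 && (
  isPos 4 v473 && (
  let v484 := sub v1 v395; ok v484 && (
  isPos 4 v484 && (
  isPos 4 v314 && (
  isPos 4 v328 && (
  let v485 := sub v480 v320; ok v485 && (
  isPos 4 v485 && (
  isPos 4 v476 && (
  isPos 4 v454 && (
  true)))))))))))))))))))))))))))))))))))))))))))))))))))))))))))))))))))))))))))))))))))))))))))))))))))))))))))))))))))))))))))))))))))))))))))))))))))))))))))))))))))))))))))))))))))))))))))))))))))))))))))))))))))))))))))))))))))))))))))))))))))))))))))))))))))))))))))))))))))))))))))))))))))))))))))))))))))))))))))))))))))))))))))))))))))))))))))))))))))))))))))))))))))))))))))))))))))))))))))))))))))))))))))))))))))))))))))))))))))))))))))))))))))))))))))))))))))))))))))))))))))))))))))))))))))))))))))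
  | _ => false

set_option maxRecDepth 1000000 in
theorem chk1_eq (O : Ops) (m : List O.α)
    (h : chk1 O.cst O.add O.sub O.mul O.scale O.neg O.inv O.exp O.log O.ok O.isPos O.isLt m = true) :
    runG O 4 prog1 m = true := by
  match m, h with
  | [x0, x1, x2, x3], h => exact h

def chkB1 : List opsE.α → Bool :=
  chk1 opsE.cst opsE.add opsE.sub opsE.mul opsE.scale opsE.neg opsE.inv opsE.exp opsE.log opsE.ok opsE.isPos opsE.isLt

theorem chkB1_eq (m : List opsE.α) (h : chkB1 m = true) : runG opsE 4 prog1 m = true :=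
  chk1_eq opsE m h

def prog2 : List Op := [
  .const ⟨1099511627776, 0, 0, 0⟩,
  .const ⟨549755813888, 0, 0, 0⟩,
  .mul 3 4,
  .mul 0 6,
  .scale ⟨549755813888, 0, 0, 0⟩ 0,
  .mul 7 7,
  .mul 1 1,
  .sub 6 0,
  .inv 0,
  .mul 4 0,
  .scale ⟨2199023255552, 0, 0, 0⟩ 0,
  .scale ⟨2199023255552, 0, 0, 0⟩ 2,
  .sub 0 11,
  .add 0 2,
  .mul 17 5,
  .mul 17 0,
  .sub 15 0,
  .add 16 1,
  .scale ⟨10774999203840, 0, 0, 0⟩ 13,
  .scale ⟨45768245248, 0, 0, 0⟩ 0,
  .const ⟨183207198720, 0, 0, 0⟩,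
  .add 1 0,
  .mul 3 0,
  .add 21 0,
  .mul 5 0,
  .add 24 0,
  .mul 7 0,
  .scale ⟨549755813888, 0, 0, 0⟩ 0,
  .add 27 0,
  .mul 3 0,
  .mul 31 24,
  .mul 20 15,
  .scale ⟨2199023255552, 0, 0, 0⟩ 19,
  .add 1 0,
  .add 0 35,
  .mul 4 0,
  .add 0 35,
  .mul 26 26,
  .scale ⟨2199023255552, 0, 0, 0⟩ 0,
  .add 0 38,
  .mul 27 5,
  .sub 0 40,
  .log 5,
  .scale ⟨549755813888, 0, 0, 0⟩ 0,
  .exp 0,
  .scale ⟨549755813888, 0, 0, 0⟩ 45,
  .mul 0 3,
  .neg 0,
  .exp 0,
  .mul 36 18,
  .mul 0 8,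
  .scale ⟨4398046511104, 0, 0, 0⟩ 0,
  .add 0 51,
  .log 0,
  .sub 0 11,
  .mul 9 0,
  .neg 0,
  .exp 0,
  .mul 42 47,
  .add 46 0,
  .inv 0,
  .mul 43 0,
  .mul 45 63,
  .mul 0 1,
  .mul 49 49,
  .sub 64 59,
  .mul 1 0,
  .mul 64 64,
  .add 55 37,
  .inv 0,
  .mul 0 70,
  .mul 0 0,
  .mul 4 6,
  .sub 72 8,
  .mul 1 0,
  .mul 3 0,
  .inv 76,
  .const ⟨45812285440, 0, 0, 0⟩,
  .scale ⟨1527119872, 0, 0, 0⟩ 2,
  .sub 1 0,
  .mul 4 0,
  .sub 79 0,
  .mul 6 0,
  .sub 82 0,
  .add 35 83,
  .mul 36 36,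
  .add 0 85,
  .mul 38 3,
  .scale ⟨2199023255552, 0, 0, 0⟩ 0,
  .add 2 0,
  .inv 5,
  .mul 1 0,
  .add 0 7,
  .mul 44 29,
  .scale ⟨549755813888, 0, 0, 0⟩ 0,
  .mul 0 2,
  .sub 6 0,
  .pos 7,
  .pos 0,
  .inv 0,
  .mul 52 63,
  .const ⟨6597069766656, 0, 0, 0⟩,
  .add 64 0,
  .mul 2 0,
  .scale ⟨4398046511104, 0, 0, 0⟩ 66,
  .add 0 3,
  .inv 0,
  .mul 3 0,
  .mul 75 0,
  .scale ⟨2199023255552, 0, 0, 0⟩ 0,
  .scale ⟨183274307584, 0, 0, 0⟩ 0,
  .sub 107 0,
  .mul 2 0,
  .sub 110 0,
  .mul 6 0,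
  .mul 0 15,
  .mul 83 0,
  .add 0 113,
  .inv 0,
  .mul 3 0,
  .mul 87 0,
  .mul 24 4,
  .add 0 118,
  .mul 0 28,
  .inv 32,
  .mul 1 0,
  .mul 60 5,
  .scale ⟨549755813888, 0, 0, 0⟩ 0,
  .sub 125 0,
  .sub 126 2,
  .inv 0,
  .mul 2 0,
  .add 5 129,
  .mul 82 0,
  .mul 115 114,
  .add 120 134,
  .mul 118 121,
  .mul 0 124,
  .scale ⟨2199023255552, 0, 0, 0⟩ 0,
  .add 97 0,
  .mul 4 0,
  .inv 0,
  .mul 7 0,
  .mul 142 0,
  .inv 105,
  .mul 67 0,
  .scale ⟨1527119872, 0, 0, 0⟩ 0,
  .sub 67 0,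
  .mul 2 0,
  .sub 145 0,
  .mul 4 0,
  .sub 148 0,
  .add 92 149,
  .mul 93 93,
  .add 0 151,
  .mul 95 3,
  .scale ⟨2199023255552, 0, 0, 0⟩ 0,
  .add 2 0,
  .inv 5,
  .mul 1 0,
  .add 0 7,
  .mul 101 17,
  .scale ⟨549755813888, 0, 0, 0⟩ 0,
  .mul 0 2,
  .sub 6 0,
  .pos 7,
  .pos 0,
  .sub 162 105,
  .mul 0 13,
  .inv 2,
  .mul 1 0,
  .scale ⟨549755813888, 0, 0, 0⟩ 0,
  .add 0 166,
  .inv 0,
  .mul 2 0,
  .mul 29 0,
  .add 167 171,
  .inv 0,
  .mul 169 0,
  .scale ⟨2199023255552, 0, 0, 0⟩ 0,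
  .sub 175 0,
  .sub 176 172,
  .mul 181 4,
  .mul 0 2,
  .add 162 0,
  .mul 181 170,
  .const ⟨13194139533312, 0, 0, 0⟩,
  .inv 0,
  .mul 184 0,
  .const ⟨23089744183296, 0, 0, 0⟩,
  .const ⟨10995116277760, 0, 0, 0⟩,
  .inv 0,
  .mul 2 0,
  .add 4 0,
  .inv 0,
  .scale ⟨224412041216, 0, 0, 0⟩ 182,
  .inv 162,
  .mul 1 0,
  .mul 4 176,
  .mul 0 1,
  .mul 193 0,
  .sub 196 0,
  .inv 0,
  .mul 67 2,
  .sub 199 0,
  .inv 0,
  .mul 203 84,
  .scale ⟨1649267441664, 0, 0, 0⟩ 0,
  .const ⟨733365665792, 0, 0, 0⟩,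
  .add 1 0,
  .scale ⟨549755813888, 0, 0, 0⟩ 0,
  .scale ⟨2199023255552, 0, 0, 0⟩ 130,
  .add 0 207,
  .add 132 208,
  .mul 205 195,
  .sub 210 144,
  .mul 207 196,
  .scale ⟨2199023255552, 0, 0, 0⟩ 0,
  .sub 2 0,
  .mul 4 4,
  .add 1 0,
  .add 0 216,
  .scale ⟨549755813888, 0, 0, 0⟩ 0,
  .scale ⟨549755813888, 0, 0, 0⟩ 188,
  .sub 211 0,
  .mul 153 9,
  .mul 0 214,
  .scale ⟨137438953472, 0, 0, 0⟩ 0,
  .add 3 0,
  .mul 6 0,
  .mul 209 164,
  .mul 0 224,
  .mul 0 110,
  .mul 0 99,
  .mul 227 0,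
  .add 99 230,
  .mul 0 33,
  .mul 101 31,
  .add 1 0,
  .mul 38 0,
  .add 5 0,
  .mul 0 160,
  .mul 6 41,
  .mul 0 40,
  .add 9 0,
  .mul 0 164,
  .scale ⟨223338299392, 0, 0, 0⟩ 0,
  .add 241 0,
  .mul 2 0,
  .add 244 0,
  .scale ⟨893353197568, 0, 0, 0⟩ 8,
  .add 246 0,
  .mul 10 0,
  .add 248 0,
  .mul 74 71,
  .mul 0 42,
  .mul 0 2,
  .mul 27 7,
  .add 209 252,
  .mul 2 0,
  .add 2 0,
  .add 212 256,
  .mul 5 0,
  .mul 49 1,
  .mul 0 81,
  .mul 0 83,
  .mul 259 81,
  .inv 218,
  .mul 1 0,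
  .scale ⟨549755813888, 0, 0, 0⟩ 0,
  .mul 204 263,
  .mul 0 149,
  .mul 0 138,
  .mul 252 3,
  .mul 13 1,
  .mul 9 64,
  .add 1 0,
  .mul 0 196,
  .add 4 0,
  .mul 18 43,
  .mul 0 77,
  .mul 18 145,
  .mul 0 76,
  .add 2 0,
  .mul 0 203,
  .mul 264 6,
  .mul 86 1,
  .add 1 0,
  .mul 216 0,
  .mul 0 21,
  .sub 285 0,
  .inv 0,
  .mul 4 0,
  .mul 290 0,
  .mul 222 1,
  .mul 0 27,
  .sub 291 0,
  .mul 251 0,
  .sub 0 4,
  .inv 0,
  .mul 6 0,
  .sub 296 7,
  .inv 0,
  .mul 235 181,
  .mul 0 170,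
  .add 195 0,
  .mul 0 3,
  .mul 0 12,
  .scale ⟨223338299392, 0, 0, 0⟩ 0,
  .add 303 0,
  .mul 2 0,
  .add 306 0,
  .mul 4 0,
  .mul 0 185,
  .mul 0 178,
  .sub 310 0,
  .mul 9 4,
  .mul 0 25,
  .mul 0 237,
  .inv 3,
  .mul 1 0,
  .mul 0 319,
  .mul 61 119,
  .mul 60 195,
  .mul 0 188,
  .mul 0 119,
  .add 3 0,
  .mul 5 0,
  .mul 67 262,
  .mul 322 211,
  .mul 1 0,
  .mul 0 197,
  .mul 138 325,
  .mul 0 311,
  .mul 0 313,
  .const ⟨9895604649984, 0, 0, 0⟩,
  .const ⟨21990232555520, 0, 0, 0⟩,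
  .inv 0,
  .mul 2 0,
  .inv 336,
  .mul 129 0,
  .mul 20 146,
  .mul 0 340,
  .inv 321,
  .mul 1 0,
  .mul 341 217,
  .mul 0 325,
  .mul 345 162,
  .mul 0 80,
  .scale ⟨549755813888, 0, 0, 0⟩ 0,
  .mul 3 0,
  .mul 22 349,
  .mul 0 234,
  .mul 0 219,
  .add 3 0,
  .mul 227 89,
  .mul 0 15,
  .add 2 0,
  .mul 13 0,
  .mul 342 313,
  .scale ⟨4398046511104, 0, 0, 0⟩ 0,
  .sub 0 322,
  .mul 352 0,
  .mul 0 216,
  .mul 360 0,
  .mul 362 1,
  .const ⟨2199023255552, 0, 0, 0⟩,
  .add 1 0,
  .inv 0,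
  .mul 4 0,
  .mul 367 0,
  .scale ⟨549755813888, 0, 0, 0⟩ 0,
  .sub 367 0,
  .mul 3 0,
  .neg 0,
  .mul 230 200,
  .add 1 0,
  .mul 2 1,
  .mul 375 0,
  .add 2 0,
  .mul 330 16,
  .add 205 376,
  .mul 6 0,
  .add 2 0,
  .mul 83 0,
  .mul 382 0,
  .scale ⟨687194767360, 0, 0, 0⟩ 0,
  .add 382 0,
  .mul 3 0,
  .add 9 0,
  .mul 10 1,
  .mul 388 0,
  .add 2 0,
  .mul 391 392,
  .mul 0 217,
  .mul 0 382,
  .add 3 0,
  .mul 4 1,
  .mul 395 0,
  .add 2 0,
  .mul 390 361,
  .mul 398 0,
  .scale ⟨412316860416, 0, 0, 0⟩ 0,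
  .sub 397 0,
  .mul 3 0,
  .neg 0,
  .add 6 0,
  .mul 7 1,
  .mul 405 0,
  .add 2 0,
  .mul 408 117,
  .mul 0 67,
  .add 2 0,
  .mul 3 1,
  .mul 411 0,
  .add 2 0,
  .mul 239 394,
  .mul 0 78,
  .sub 2 0,
  .mul 416 1,
  .add 415 0,
  .inv 0,
  .mul 3 0,
  .mul 421 416,
  .mul 0 131,
  .sub 376 130,
  .inv 0,
  .mul 2 0,
  .add 5 0,
  .mul 6 1,
  .mul 427 0,
  .add 2 0,
  .mul 429 0,
  .add 428 0,
  .mul 106 233,
  .mul 432 100,
  .mul 77 0,
  .add 2 0,
  .mul 0 4,
  .add 7 0,
  .add 0 112,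
  .add 0 82,
  .neg 0,
  .const ⟨1073741824, 0, 0, 0⟩,
  .sub 1 0,
  .sub 427 440,
  .add 0 79,
  .scale ⟨2199023255552, 0, 0, 0⟩ 108,
  .sub 1 0,
  .mul 272 0,
  .mul 4 2,
  .add 0 446,
  .inv 0,
  .mul 3 0,
  .mul 260 169,
  .scale ⟨549755813888, 0, 0, 0⟩ 257,
  .add 441 0,
  .mul 2 0,
  .scale ⟨2199023255552, 0, 0, 0⟩ 0,
  .add 180 0,
  .scale ⟨2199023255552, 0, 0, 0⟩ 0,
  .mul 0 169,
  .mul 455 169,
  .sub 441 0,
  .inv 0,
  .mul 3 0,
  .sub 12 0,
  .pos 265,
  .pos 262,
  .scale ⟨2199023255552, 0, 0, 0⟩ 178,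
  .sub 419 0,
  .pos 0,
  .pos 170,
  .pos 337,
  .sub 463 293,
  .pos 0,
  .scale ⟨687194767360, 0, 0, 0⟩ 465,
  .sub 0 225,
  .pos 0,
  .scale ⟨377957122048, 0, 0, 0⟩ 467,
  .sub 0 231,
  .pos 0,
  .pos 10,
  .sub 468 88,
  .pos 0,
  .pos 173,
  .pos 159,
  .sub 4 167,
  .pos 0,
  .pos 9,
  .pos 31]

def chk2 {α : Type} (cst : Z → α) (add sub mul : α → α → α) (scale : Z → α → α)
    (neg inv exp log : α → α) (ok : α → Bool) (isPos : Nat → α → Bool) (isLt : α → Nat → Bool) :
    List α → Bool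
  | [x0, x1, x2, x3] =>
  let v0 := cst ⟨1099511627776, 0, 0, 0⟩; ok v0 && (
  let v1 := cst ⟨549755813888, 0, 0, 0⟩; ok v1 && (
  let v2 := mul x1 x2; ok v2 && (
  let v3 := mul v2 x3; ok v3 && (
  let v4 := scale ⟨549755813888, 0, 0, 0⟩ v3; ok v4 && (
  let v5 := mul x2 x2; ok v5 && (
  let v6 := mul v4 v4; ok v6 && (
  let v7 := sub v0 v6; ok v7 && (
  let v8 := inv v7; ok v8 && (
  let v9 := mul v4 v8; ok v9 && (
  let v10 := scale ⟨2199023255552, 0, 0, 0⟩ v9; ok v10 && (
  let v11 := scale ⟨2199023255552, 0, 0, 0⟩ v8; ok v11 && (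
  let v12 := sub v11 v0; ok v12 && (
  let v13 := add v12 v10; ok v13 && (
  let v14 := mul x3 v8; ok v14 && (
  let v15 := mul x2 v14; ok v15 && (
  let v16 := sub v0 v15; ok v16 && (
  let v17 := add v0 v15; ok v17 && (
  let v18 := scale ⟨10774999203840, 0, 0, 0⟩ v4; ok v18 && (
  let v19 := scale ⟨45768245248, 0, 0, 0⟩ v18; ok v19 && (
  let v20 := cst ⟨183207198720, 0, 0, 0⟩; ok v20 && (
  let v21 := add v19 v20; ok v21 && (
  let v22 := mul v18 v21; ok v22 && (
  let v23 := add v1 v22; ok v23 && (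
  let v24 := mul v18 v23; ok v24 && (
  let v25 := add v0 v24; ok v25 && (
  let v26 := mul v18 v25; ok v26 && (
  let v27 := scale ⟨549755813888, 0, 0, 0⟩ v26; ok v27 && (
  let v28 := add v0 v27; ok v28 && (
  let v29 := mul v25 v28; ok v29 && (
  let v30 := mul x1 v5; ok v30 && (
  let v31 := mul v10 v15; ok v31 && (
  let v32 := scale ⟨2199023255552, 0, 0, 0⟩ v12; ok v32 && (
  let v33 := add v31 v32; ok v33 && (
  let v34 := add v33 x1; ok v34 && (
  let v35 := mul v30 v34; ok v35 && (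
  let v36 := add v35 v0; ok v36 && (
  let v37 := mul v10 v10; ok v37 && (
  let v38 := scale ⟨2199023255552, 0, 0, 0⟩ v37; ok v38 && (
  let v39 := add v38 v0; ok v39 && (
  let v40 := mul v12 v34; ok v40 && (
  let v41 := sub v40 v0; ok v41 && (
  let v42 := log v36; ok v42 && (
  let v43 := scale ⟨549755813888, 0, 0, 0⟩ v42; ok v43 && (
  let v44 := exp v43; ok v44 && (
  let v45 := scale ⟨549755813888, 0, 0, 0⟩ x0; ok v45 && (
  let v46 := mul v45 v42; ok v46 && (
  let v47 := neg v46; ok v47 && (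
  let v48 := exp v47; ok v48 && (
  let v49 := mul v12 v30; ok v49 && (
  let v50 := mul v49 v41; ok v50 && (
  let v51 := scale ⟨4398046511104, 0, 0, 0⟩ v50; ok v51 && (
  let v52 := add v51 v0; ok v52 && (
  let v53 := log v52; ok v53 && (
  let v54 := sub v53 v42; ok v54 && (
  let v55 := mul v45 v54; ok v55 && (
  let v56 := neg v55; ok v56 && (
  let v57 := exp v56; ok v57 && (
  let v58 := mul v15 v10; ok v58 && (
  let v59 := add v12 v58; ok v59 && (
  let v60 := inv v59; ok v60 && (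
  let v61 := mul v17 v60; ok v61 && (
  let v62 := mul v16 x1; ok v62 && (
  let v63 := mul v62 v61; ok v63 && (
  let v64 := mul v14 v14; ok v64 && (
  let v65 := sub v0 v5; ok v65 && (
  let v66 := mul v64 v65; ok v66 && (
  let v67 := mul v2 v2; ok v67 && (
  let v68 := add v12 v30; ok v68 && (
  let v69 := inv v68; ok v69 && (
  let v70 := mul v69 x0; ok v70 && (
  let v71 := mul v70 v70; ok v71 && (
  let v72 := mul v67 v65; ok v72 && (
  let v73 := sub v0 v64; ok v73 && (
  let v74 := mul v72 v73; ok v74 && (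
  let v75 := mul v71 v74; ok v75 && (
  let v76 := inv x0; ok v76 && (
  let v77 := cst ⟨45812285440, 0, 0, 0⟩; ok v77 && (
  let v78 := scale ⟨1527119872, 0, 0, 0⟩ v75; ok v78 && (
  let v79 := sub v77 v78; ok v79 && (
  let v80 := mul v75 v79; ok v80 && (
  let v81 := sub v1 v80; ok v81 && (
  let v82 := mul v75 v81; ok v82 && (
  let v83 := sub v0 v82; ok v83 && (
  let v84 := add v48 v0; ok v84 && (
  let v85 := mul v48 v48; ok v85 && (
  let v86 := add v85 v0; ok v86 && (
  let v87 := mul v48 v83; ok v87 && (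
  let v88 := scale ⟨2199023255552, 0, 0, 0⟩ v87; ok v88 && (
  let v89 := add v86 v88; ok v89 && (
  let v90 := inv v84; ok v90 && (
  let v91 := mul v89 v90; ok v91 && (
  let v92 := add v91 v84; ok v92 && (
  let v93 := mul v48 v63; ok v93 && (
  let v94 := scale ⟨549755813888, 0, 0, 0⟩ v93; ok v94 && (
  let v95 := mul v94 v92; ok v95 && (
  let v96 := sub v89 v95; ok v96 && (
  isPos 4 v89 && (
  isPos 4 v96 && (
  let v97 := inv v96; ok v97 && (
  let v98 := mul v45 v34; ok v98 && (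
  let v99 := cst ⟨6597069766656, 0, 0, 0⟩; ok v99 && (
  let v100 := add v35 v99; ok v100 && (
  let v101 := mul v98 v100; ok v101 && (
  let v102 := scale ⟨4398046511104, 0, 0, 0⟩ v35; ok v102 && (
  let v103 := add v102 v99; ok v103 && (
  let v104 := inv v103; ok v104 && (
  let v105 := mul v101 v104; ok v105 && (
  let v106 := mul v30 v105; ok v106 && (
  let v107 := scale ⟨2199023255552, 0, 0, 0⟩ v106; ok v107 && (
  let v108 := scale ⟨183274307584, 0, 0, 0⟩ v107; ok v108 && (
  let v109 := sub v1 v108; ok v109 && (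
  let v110 := mul v107 v109; ok v110 && (
  let v111 := sub v0 v110; ok v111 && (
  let v112 := mul v105 v111; ok v112 && (
  let v113 := mul v112 v97; ok v113 && (
  let v114 := mul v30 v113; ok v114 && (
  let v115 := add v114 v1; ok v115 && (
  let v116 := inv v115; ok v116 && (
  let v117 := mul v113 v116; ok v117 && (
  let v118 := mul v30 v117; ok v118 && (
  let v119 := mul v94 v114; ok v119 && (
  let v120 := add v119 v1; ok v120 && (
  let v121 := mul v120 v92; ok v121 && (
  let v122 := inv v89; ok v122 && (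
  let v123 := mul v121 v122; ok v123 && (
  let v124 := mul v63 v118; ok v124 && (
  let v125 := scale ⟨549755813888, 0, 0, 0⟩ v124; ok v125 && (
  let v126 := sub v0 v125; ok v126 && (
  let v127 := sub v0 v124; ok v127 && (
  let v128 := inv v127; ok v128 && (
  let v129 := mul v126 v128; ok v129 && (
  let v130 := add v124 v0; ok v130 && (
  let v131 := mul v48 v130; ok v131 && (
  let v132 := mul v16 v17; ok v132 && (
  let v133 := add v12 x1; ok v133 && (
  let v134 := mul v15 v12; ok v134 && (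
  let v135 := mul v134 v10; ok v135 && (
  let v136 := scale ⟨2199023255552, 0, 0, 0⟩ v135; ok v136 && (
  let v137 := add v39 v136; ok v137 && (
  let v138 := mul v133 v137; ok v138 && (
  let v139 := inv v138; ok v139 && (
  let v140 := mul v132 v139; ok v140 && (
  let v141 := mul x1 v140; ok v141 && (
  let v142 := inv v36; ok v142 && (
  let v143 := mul v75 v142; ok v143 && (
  let v144 := scale ⟨1527119872, 0, 0, 0⟩ v143; ok v144 && (
  let v145 := sub v77 v144; ok v145 && (
  let v146 := mul v143 v145; ok v146 && (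
  let v147 := sub v1 v146; ok v147 && (
  let v148 := mul v143 v147; ok v148 && (
  let v149 := sub v0 v148; ok v149 && (
  let v150 := add v57 v0; ok v150 && (
  let v151 := mul v57 v57; ok v151 && (
  let v152 := add v151 v0; ok v152 && (
  let v153 := mul v57 v149; ok v153 && (
  let v154 := scale ⟨2199023255552, 0, 0, 0⟩ v153; ok v154 && (
  let v155 := add v152 v154; ok v155 && (
  let v156 := inv v150; ok v156 && (
  let v157 := mul v155 v156; ok v157 && (
  let v158 := add v157 v150; ok v158 && (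
  let v159 := mul v57 v141; ok v159 && (
  let v160 := scale ⟨549755813888, 0, 0, 0⟩ v159; ok v160 && (
  let v161 := mul v160 v158; ok v161 && (
  let v162 := sub v155 v161; ok v162 && (
  isPos 4 v155 && (
  isPos 4 v162 && (
  let v163 := sub v0 v57; ok v163 && (
  let v164 := mul v163 v150; ok v164 && (
  let v165 := inv v162; ok v165 && (
  let v166 := mul v164 v165; ok v166 && (
  let v167 := scale ⟨549755813888, 0, 0, 0⟩ v166; ok v167 && (
  let v168 := add v167 v1; ok v168 && (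
  let v169 := inv v168; ok v169 && (
  let v170 := mul v167 v169; ok v170 && (
  let v171 := mul v141 v170; ok v171 && (
  let v172 := add v4 v0; ok v172 && (
  let v173 := inv v172; ok v173 && (
  let v174 := mul v4 v173; ok v174 && (
  let v175 := scale ⟨2199023255552, 0, 0, 0⟩ v174; ok v175 && (
  let v176 := sub v0 v175; ok v176 && (
  let v177 := sub v0 v4; ok v177 && (
  let v178 := mul x3 v173; ok v178 && (
  let v179 := mul v178 v176; ok v179 && (
  let v180 := add v17 v179; ok v180 && (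
  let v181 := mul x0 v10; ok v181 && (
  let v182 := cst ⟨13194139533312, 0, 0, 0⟩; ok v182 && (
  let v183 := inv v182; ok v183 && (
  let v184 := mul x0 v183; ok v184 && (
  let v185 := cst ⟨23089744183296, 0, 0, 0⟩; ok v185 && (
  let v186 := cst ⟨10995116277760, 0, 0, 0⟩; ok v186 && (
  let v187 := inv v186; ok v187 && (
  let v188 := mul v185 v187; ok v188 && (
  let v189 := add v184 v188; ok v189 && (
  let v190 := inv v189; ok v190 && (
  let v191 := scale ⟨224412041216, 0, 0, 0⟩ v8; ok v191 && (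
  let v192 := inv v29; ok v192 && (
  let v193 := mul v191 v192; ok v193 && (
  let v194 := mul v189 v17; ok v194 && (
  let v195 := mul v194 v193; ok v195 && (
  let v196 := mul v2 v195; ok v196 && (
  let v197 := sub v0 v196; ok v197 && (
  let v198 := inv v197; ok v198 && (
  let v199 := mul v131 v196; ok v199 && (
  let v200 := sub v0 v199; ok v200 && (
  let v201 := inv v200; ok v201 && (
  let v202 := mul x1 v117; ok v202 && (
  let v203 := scale ⟨1649267441664, 0, 0, 0⟩ v202; ok v203 && (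
  let v204 := cst ⟨733365665792, 0, 0, 0⟩; ok v204 && (
  let v205 := add v203 v204; ok v205 && (
  let v206 := scale ⟨549755813888, 0, 0, 0⟩ v205; ok v206 && (
  let v207 := scale ⟨2199023255552, 0, 0, 0⟩ v76; ok v207 && (
  let v208 := add v207 v0; ok v208 && (
  let v209 := add v76 v0; ok v209 && (
  let v210 := mul v4 v14; ok v210 && (
  let v211 := sub v0 v66; ok v211 && (
  let v212 := mul v4 v15; ok v212 && (
  let v213 := scale ⟨2199023255552, 0, 0, 0⟩ v212; ok v213 && (
  let v214 := sub v211 v213; ok v214 && (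
  let v215 := mul v210 v210; ok v215 && (
  let v216 := add v214 v215; ok v216 && (
  let v217 := add v216 v0; ok v217 && (
  let v218 := scale ⟨549755813888, 0, 0, 0⟩ v217; ok v218 && (
  let v219 := scale ⟨549755813888, 0, 0, 0⟩ v30; ok v219 && (
  let v220 := sub v8 v219; ok v220 && (
  let v221 := mul v67 v211; ok v221 && (
  let v222 := mul v221 v7; ok v222 && (
  let v223 := scale ⟨137438953472, 0, 0, 0⟩ v222; ok v223 && (
  let v224 := add v220 v223; ok v224 && (
  let v225 := mul v218 v224; ok v225 && (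
  let v226 := mul v16 v61; ok v226 && (
  let v227 := mul v226 v2; ok v227 && (
  let v228 := mul v227 v117; ok v228 && (
  let v229 := mul v228 v129; ok v229 && (
  let v230 := mul v2 v229; ok v230 && (
  let v231 := add v131 v0; ok v231 && (
  let v232 := mul v231 v198; ok v232 && (
  let v233 := mul v131 v201; ok v233 && (
  let v234 := add v232 v233; ok v234 && (
  let v235 := mul v196 v234; ok v235 && (
  let v236 := add v230 v235; ok v236 && (
  let v237 := mul v236 v76; ok v237 && (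
  let v238 := mul v231 v196; ok v238 && (
  let v239 := mul v238 v198; ok v239 && (
  let v240 := add v230 v239; ok v240 && (
  let v241 := mul v240 v76; ok v241 && (
  let v242 := scale ⟨223338299392, 0, 0, 0⟩ v241; ok v242 && (
  let v243 := add v1 v242; ok v243 && (
  let v244 := mul v241 v243; ok v244 && (
  let v245 := add v0 v244; ok v245 && (
  let v246 := scale ⟨893353197568, 0, 0, 0⟩ v237; ok v246 && (
  let v247 := add v0 v246; ok v247 && (
  let v248 := mul v237 v247; ok v248 && (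
  let v249 := add v0 v248; ok v249 && (
  let v250 := mul v175 v178; ok v250 && (
  let v251 := mul v250 v208; ok v251 && (
  let v252 := mul v251 v249; ok v252 && (
  let v253 := mul v225 v245; ok v253 && (
  let v254 := add v44 v1; ok v254 && (
  let v255 := mul v252 v254; ok v255 && (
  let v256 := add v253 v255; ok v256 && (
  let v257 := add v44 v0; ok v257 && (
  let v258 := mul v252 v257; ok v258 && (
  let v259 := mul v209 v257; ok v259 && (
  let v260 := mul v259 v178; ok v260 && (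
  let v261 := mul v260 v177; ok v261 && (
  let v262 := mul v2 v180; ok v262 && (
  let v263 := inv v44; ok v263 && (
  let v264 := mul v262 v263; ok v264 && (
  let v265 := scale ⟨549755813888, 0, 0, 0⟩ v264; ok v265 && (
  let v266 := mul v61 v2; ok v266 && (
  let v267 := mul v266 v117; ok v267 && (
  let v268 := mul v267 v129; ok v268 && (
  let v269 := mul v16 v265; ok v269 && (
  let v270 := mul v256 v268; ok v270 && (
  let v271 := mul v261 v206; ok v271 && (
  let v272 := add v270 v271; ok v272 && (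
  let v273 := mul v272 v76; ok v273 && (
  let v274 := add v269 v273; ok v274 && (
  let v275 := mul v256 v231; ok v275 && (
  let v276 := mul v275 v198; ok v276 && (
  let v277 := mul v258 v131; ok v277 && (
  let v278 := mul v277 v201; ok v278 && (
  let v279 := add v276 v278; ok v279 && (
  let v280 := mul v279 v76; ok v280 && (
  let v281 := mul v16 v274; ok v281 && (
  let v282 := mul v195 v280; ok v282 && (
  let v283 := add v281 v282; ok v283 && (
  let v284 := mul v67 v283; ok v284 && (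
  let v285 := mul v284 v263; ok v285 && (
  let v286 := sub v0 v285; ok v286 && (
  let v287 := inv v286; ok v287 && (
  let v288 := mul v283 v287; ok v288 && (
  let v289 := mul x1 v288; ok v289 && (
  let v290 := mul v67 v288; ok v290 && (
  let v291 := mul v290 v263; ok v291 && (
  let v292 := sub v0 v291; ok v292 && (
  let v293 := mul v41 v292; ok v293 && (
  let v294 := sub v293 v289; ok v294 && (
  let v295 := inv v294; ok v295 && (
  let v296 := mul v289 v295; ok v296 && (
  let v297 := sub v0 v289; ok v297 && (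
  let v298 := inv v297; ok v298 && (
  let v299 := mul v63 v117; ok v299 && (
  let v300 := mul v299 v129; ok v300 && (
  let v301 := add v105 v300; ok v301 && (
  let v302 := mul v301 v298; ok v302 && (
  let v303 := mul v302 v290; ok v303 && (
  let v304 := scale ⟨223338299392, 0, 0, 0⟩ v303; ok v304 && (
  let v305 := add v1 v304; ok v305 && (
  let v306 := mul v303 v305; ok v306 && (
  let v307 := add v0 v306; ok v307 && (
  let v308 := mul v303 v307; ok v308 && (
  let v309 := mul v308 v123; ok v309 && (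
  let v310 := mul v309 v131; ok v310 && (
  let v311 := sub v0 v310; ok v311 && (
  let v312 := mul v302 v307; ok v312 && (
  let v313 := mul v312 v287; ok v313 && (
  let v314 := mul v313 v76; ok v314 && (
  let v315 := inv v311; ok v315 && (
  let v316 := mul v314 v315; ok v316 && (
  let v317 := mul v316 x2; ok v317 && (
  let v318 := mul v256 v198; ok v318 && (
  let v319 := mul v258 v123; ok v319 && (
  let v320 := mul v319 v131; ok v320 && (
  let v321 := mul v320 v201; ok v321 && (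
  let v322 := add v318 v321; ok v322 && (
  let v323 := mul v317 v322; ok v323 && (
  let v324 := mul v256 v61; ok v324 && (
  let v325 := mul v2 v113; ok v325 && (
  let v326 := mul v324 v325; ok v326 && (
  let v327 := mul v326 v129; ok v327 && (
  let v328 := mul v189 v2; ok v328 && (
  let v329 := mul v328 v17; ok v329 && (
  let v330 := mul v329 v16; ok v330 && (
  let v331 := cst ⟨9895604649984, 0, 0, 0⟩; ok v331 && (
  let v332 := cst ⟨21990232555520, 0, 0, 0⟩; ok v332 && (
  let v333 := inv v332; ok v333 && (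
  let v334 := mul v331 v333; ok v334 && (
  let v335 := inv x1; ok v335 && (
  let v336 := mul v206 v335; ok v336 && (
  let v337 := mul v316 v190; ok v337 && (
  let v338 := mul v337 x2; ok v338 && (
  let v339 := inv v17; ok v339 && (
  let v340 := mul v338 v339; ok v340 && (
  let v341 := mul x0 v123; ok v341 && (
  let v342 := mul v341 v16; ok v342 && (
  let v343 := mul x2 v180; ok v343 && (
  let v344 := mul v343 v263; ok v344 && (
  let v345 := scale ⟨549755813888, 0, 0, 0⟩ v344; ok v345 && (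
  let v346 := mul v342 v345; ok v346 && (
  let v347 := mul v324 x2; ok v347 && (
  let v348 := mul v347 v113; ok v348 && (
  let v349 := mul v348 v129; ok v349 && (
  let v350 := add v346 v349; ok v350 && (
  let v351 := mul v123 v261; ok v351 && (
  let v352 := mul v351 v336; ok v352 && (
  let v353 := add v350 v352; ok v353 && (
  let v354 := mul v340 v353; ok v354 && (
  let v355 := mul v12 v41; ok v355 && (
  let v356 := scale ⟨4398046511104, 0, 0, 0⟩ v355; ok v356 && (
  let v357 := sub v356 v34; ok v357 && (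
  let v358 := mul v5 v357; ok v358 && (
  let v359 := mul v358 v142; ok v359 && (
  let v360 := mul x0 v359; ok v360 && (
  let v361 := mul x1 v359; ok v361 && (
  let v362 := cst ⟨2199023255552, 0, 0, 0⟩; ok v362 && (
  let v363 := add v361 v362; ok v363 && (
  let v364 := inv v363; ok v364 && (
  let v365 := mul v360 v364; ok v365 && (
  let v366 := mul x1 v365; ok v366 && (
  let v367 := scale ⟨549755813888, 0, 0, 0⟩ v366; ok v367 && (
  let v368 := sub v0 v367; ok v368 && (
  let v369 := mul v365 v368; ok v369 && (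
  let v370 := neg v369; ok v370 && (
  let v371 := mul v140 v170; ok v371 && (
  let v372 := add v370 v371; ok v372 && (
  let v373 := mul v370 v371; ok v373 && (
  let v374 := mul x1 v373; ok v374 && (
  let v375 := add v372 v374; ok v375 && (
  let v376 := mul v45 v359; ok v376 && (
  let v377 := add v171 v0; ok v377 && (
  let v378 := mul v371 v377; ok v378 && (
  let v379 := add v376 v378; ok v379 && (
  let v380 := mul v296 v379; ok v380 && (
  let v381 := mul x1 v380; ok v381 && (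
  let v382 := scale ⟨687194767360, 0, 0, 0⟩ v381; ok v382 && (
  let v383 := add v0 v382; ok v383 && (
  let v384 := mul v380 v383; ok v384 && (
  let v385 := add v375 v384; ok v385 && (
  let v386 := mul v375 v384; ok v386 && (
  let v387 := mul x1 v386; ok v387 && (
  let v388 := add v385 v387; ok v388 && (
  let v389 := mul x2 x3; ok v389 && (
  let v390 := mul v389 v172; ok v390 && (
  let v391 := mul v390 v8; ok v391 && (
  let v392 := add v388 v391; ok v392 && (
  let v393 := mul v388 v391; ok v393 && (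
  let v394 := mul x1 v393; ok v394 && (
  let v395 := add v392 v394; ok v395 && (
  let v396 := mul v5 v34; ok v396 && (
  let v397 := mul x1 v396; ok v397 && (
  let v398 := scale ⟨412316860416, 0, 0, 0⟩ v397; ok v398 && (
  let v399 := sub v1 v398; ok v399 && (
  let v400 := mul v396 v399; ok v400 && (
  let v401 := neg v400; ok v401 && (
  let v402 := add v395 v401; ok v402 && (
  let v403 := mul v395 v401; ok v403 && (
  let v404 := mul x1 v403; ok v404 && (
  let v405 := add v402 v404; ok v405 && (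
  let v406 := mul x2 v288; ok v406 && (
  let v407 := mul v406 v339; ok v407 && (
  let v408 := add v405 v407; ok v408 && (
  let v409 := mul v405 v407; ok v409 && (
  let v410 := mul x1 v409; ok v410 && (
  let v411 := add v408 v410; ok v411 && (
  let v412 := mul v172 v17; ok v412 && (
  let v413 := mul v412 v334; ok v413 && (
  let v414 := sub v411 v413; ok v414 && (
  let v415 := mul x1 v413; ok v415 && (
  let v416 := add v0 v415; ok v416 && (
  let v417 := inv v416; ok v417 && (
  let v418 := mul v414 v417; ok v418 && (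
  let v419 := mul x2 v2; ok v419 && (
  let v420 := mul v419 v288; ok v420 && (
  let v421 := sub v44 v290; ok v421 && (
  let v422 := inv v421; ok v422 && (
  let v423 := mul v420 v422; ok v423 && (
  let v424 := add v418 v423; ok v424 && (
  let v425 := mul v418 v423; ok v425 && (
  let v426 := mul x1 v425; ok v426 && (
  let v427 := add v424 v426; ok v427 && (
  let v428 := mul x1 v427; ok v428 && (
  let v429 := add v0 v428; ok v429 && (
  let v430 := mul v323 v196; ok v430 && (
  let v431 := mul x1 v330; ok v431 && (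
  let v432 := mul v354 v431; ok v432 && (
  let v433 := add v430 v432; ok v433 && (
  let v434 := mul v433 v429; ok v434 && (
  let v435 := add v427 v434; ok v435 && (
  let v436 := add v435 v323; ok v436 && (
  let v437 := add v436 v354; ok v437 && (
  let v438 := neg v437; ok v438 && (
  let v439 := cst ⟨1073741824, 0, 0, 0⟩; ok v439 && (
  let v440 := sub v438 v439; ok v440 && (
  let v441 := sub v13 v0; ok v441 && (
  let v442 := add v441 v362; ok v442 && (
  let v443 := scale ⟨2199023255552, 0, 0, 0⟩ v334; ok v443 && (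
  let v444 := sub v442 v443; ok v444 && (
  let v445 := mul v172 v444; ok v445 && (
  let v446 := mul v441 v443; ok v446 && (
  let v447 := add v446 v0; ok v447 && (
  let v448 := inv v447; ok v448 && (
  let v449 := mul v445 v448; ok v449 && (
  let v450 := mul v189 v280; ok v450 && (
  let v451 := scale ⟨549755813888, 0, 0, 0⟩ v193; ok v451 && (
  let v452 := add v10 v451; ok v452 && (
  let v453 := mul v450 v452; ok v453 && (
  let v454 := scale ⟨2199023255552, 0, 0, 0⟩ v453; ok v454 && (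
  let v455 := add v274 v454; ok v455 && (
  let v456 := scale ⟨2199023255552, 0, 0, 0⟩ v455; ok v456 && (
  let v457 := mul v456 v287; ok v457 && (
  let v458 := mul v2 v288; ok v458 && (
  let v459 := sub v17 v458; ok v459 && (
  let v460 := inv v459; ok v460 && (
  let v461 := mul v457 v460; ok v461 && (
  let v462 := sub v449 v461; ok v462 && (
  isPos 4 v197 && (
  isPos 4 v200 && (
  let v463 := scale ⟨2199023255552, 0, 0, 0⟩ v284; ok v463 && (
  let v464 := sub v44 v463; ok v464 && (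
  isPos 4 v464 && (
  isPos 4 v294 && (
  isPos 4 v127 && (
  let v465 := sub v1 v171; ok v465 && (
  isPos 4 v465 && (
  let v466 := scale ⟨687194767360, 0, 0, 0⟩ v0; ok v466 && (
  let v467 := sub v466 v241; ok v467 && (
  isPos 4 v467 && (
  let v468 := scale ⟨377957122048, 0, 0, 0⟩ v0; ok v468 && (
  let v469 := sub v468 v237; ok v469 && (
  isPos 4 v469 && (
  isPos 4 v459 && (
  let v470 := sub v1 v381; ok v470 && (
  isPos 4 v470 && (
  isPos 4 v297 && (
  isPos 4 v311 && (
  let v471 := sub v466 v303; ok v471 && (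
  isPos 4 v471 && (
  isPos 4 v462 && (
  isPos 4 v440 && (
  true)))))))))))))))))))))))))))))))))))))))))))))))))))))))))))))))))))))))))))))))))))))))))))))))))))))))))))))))))))))))))))))))))))))))))))))))))))))))))))))))))))))))))))))))))))))))))))))))))))))))))))))))))))))))))))))))))))))))))))))))))))))))))))))))))))))))))))))))))))))))))))))))))))))))))))))))))))))))))))))))))))))))))))))))))))))))))))))))))))))))))))))))))))))))))))))))))))))))))))))))))))))))))))))))))))))))))))))))))))))))))))))))))))))))))))))))))))))))))))))))))))))))))))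
  | _ => false

set_option maxRecDepth 1000000 in
theorem chk2_eq (O : Ops) (m : List O.α)
    (h : chk2 O.cst O.add O.sub O.mul O.scale O.neg O.inv O.exp O.log O.ok O.isPos O.isLt m = true) :
    runG O 4 prog2 m = true := by
  match m, h with
  | [x0, x1, x2, x3], h => exact h

def chkB2 : List opsE.α → Bool :=
  chk2 opsE.cst opsE.add opsE.sub opsE.mul opsE.scale opsE.neg opsE.inv opsE.exp opsE.log opsE.ok opsE.isPos opsE.isLt

theorem chkB2_eq (m : List opsE.α) (h : chkB2 m = true) : runG opsE 4 prog2 m = true :=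
  chk2_eq opsE m h

def prog3 : List Op := [
  .const ⟨1099511627776, 0, 0, 0⟩,
  .const ⟨549755813888, 0, 0, 0⟩,
  .mul 3 4,
  .mul 0 6,
  .scale ⟨549755813888, 0, 0, 0⟩ 0,
  .mul 7 7,
  .mul 1 1,
  .sub 6 0,
  .inv 0,
  .mul 4 0,
  .scale ⟨2199023255552, 0, 0, 0⟩ 0,
  .scale ⟨2199023255552, 0, 0, 0⟩ 2,
  .sub 0 11,
  .add 0 2,
  .mul 17 5,
  .mul 17 0,
  .sub 15 0,
  .add 16 1,
  .scale ⟨10774999203840, 0, 0, 0⟩ 13,
  .scale ⟨45768245248, 0, 0, 0⟩ 0,
  .const ⟨183207198720, 0, 0, 0⟩,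
  .add 1 0,
  .mul 3 0,
  .add 21 0,
  .mul 5 0,
  .add 24 0,
  .mul 7 0,
  .scale ⟨549755813888, 0, 0, 0⟩ 0,
  .add 27 0,
  .mul 3 0,
  .mul 31 24,
  .mul 20 15,
  .scale ⟨2199023255552, 0, 0, 0⟩ 19,
  .add 1 0,
  .add 0 35,
  .mul 4 0,
  .add 0 35,
  .mul 26 26,
  .scale ⟨2199023255552, 0, 0, 0⟩ 0,
  .add 0 38,
  .mul 27 5,
  .sub 0 40,
  .log 5,
  .scale ⟨549755813888, 0, 0, 0⟩ 0,
  .exp 0,
  .scale ⟨549755813888, 0, 0, 0⟩ 45,
  .mul 0 3,
  .neg 0,
  .exp 0,
  .mul 36 18,
  .mul 0 8,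
  .scale ⟨4398046511104, 0, 0, 0⟩ 0,
  .add 0 51,
  .log 0,
  .sub 0 11,
  .mul 9 0,
  .neg 0,
  .exp 0,
  .mul 42 47,
  .add 46 0,
  .inv 0,
  .mul 43 0,
  .mul 45 63,
  .mul 0 1,
  .mul 49 49,
  .sub 64 59,
  .mul 1 0,
  .mul 64 64,
  .add 55 37,
  .inv 0,
  .mul 0 70,
  .mul 0 0,
  .mul 4 6,
  .sub 72 8,
  .mul 1 0,
  .mul 3 0,
  .inv 76,
  .const ⟨45812285440, 0, 0, 0⟩,
  .scale ⟨1527119872, 0, 0, 0⟩ 2,
  .sub 1 0,
  .mul 4 0,
  .sub 79 0,
  .mul 6 0,
  .sub 82 0,
  .add 35 83,
  .mul 36 36,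
  .add 0 85,
  .mul 38 3,
  .scale ⟨2199023255552, 0, 0, 0⟩ 0,
  .add 2 0,
  .inv 5,
  .mul 1 0,
  .add 0 7,
  .mul 44 29,
  .scale ⟨549755813888, 0, 0, 0⟩ 0,
  .mul 0 2,
  .sub 6 0,
  .pos 7,
  .pos 0,
  .inv 0,
  .mul 52 63,
  .const ⟨6597069766656, 0, 0, 0⟩,
  .add 64 0,
  .mul 2 0,
  .scale ⟨4398046511104, 0, 0, 0⟩ 66,
  .add 0 3,
  .inv 0,
  .mul 3 0,
  .sub 105 57,
  .mul 0 22,
  .mul 0 10,
  .scale ⟨549755813888, 0, 0, 0⟩ 0,
  .add 0 108,
  .inv 0,
  .mul 2 0,
  .mul 18 3,
  .add 0 112,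
  .mul 0 22,
  .inv 26,
  .mul 1 0,
  .mul 54 5,
  .scale ⟨549755813888, 0, 0, 0⟩ 0,
  .sub 119 0,
  .sub 120 2,
  .inv 0,
  .mul 2 0,
  .add 5 123,
  .mul 76 0,
  .mul 109 108,
  .add 114 128,
  .mul 112 115,
  .mul 0 118,
  .scale ⟨2199023255552, 0, 0, 0⟩ 0,
  .add 91 0,
  .mul 4 0,
  .inv 0,
  .mul 7 0,
  .mul 136 0,
  .inv 99,
  .mul 61 0,
  .scale ⟨1527119872, 0, 0, 0⟩ 0,
  .sub 61 0,
  .mul 2 0,
  .sub 139 0,
  .mul 4 0,
  .sub 142 0,
  .add 86 143,
  .mul 87 87,
  .add 0 145,
  .mul 89 3,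
  .scale ⟨2199023255552, 0, 0, 0⟩ 0,
  .add 2 0,
  .inv 5,
  .mul 1 0,
  .add 0 7,
  .mul 95 17,
  .scale ⟨549755813888, 0, 0, 0⟩ 0,
  .mul 0 2,
  .sub 6 0,
  .pos 7,
  .pos 0,
  .sub 156 99,
  .mul 0 13,
  .inv 2,
  .mul 1 0,
  .scale ⟨549755813888, 0, 0, 0⟩ 0,
  .add 0 160,
  .inv 0,
  .mul 2 0,
  .mul 29 0,
  .add 161 165,
  .inv 0,
  .mul 163 0,
  .scale ⟨2199023255552, 0, 0, 0⟩ 0,
  .sub 169 0,
  .sub 170 166,
  .mul 175 4,
  .mul 0 2,
  .add 156 0,
  .mul 175 164,
  .const ⟨13194139533312, 0, 0, 0⟩,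
  .inv 0,
  .mul 178 0,
  .const ⟨23089744183296, 0, 0, 0⟩,
  .const ⟨10995116277760, 0, 0, 0⟩,
  .inv 0,
  .mul 2 0,
  .add 4 0,
  .inv 0,
  .scale ⟨224412041216, 0, 0, 0⟩ 176,
  .inv 156,
  .mul 1 0,
  .mul 4 170,
  .mul 0 1,
  .mul 187 0,
  .sub 190 0,
  .inv 0,
  .mul 67 2,
  .sub 193 0,
  .inv 0,
  .const ⟨2199023255552, 0, 0, 0⟩,
  .add 21 0,
  .inv 0,
  .mul 182 199,
  .mul 0 201,
  .mul 0 2,
  .scale ⟨549755813888, 0, 0, 0⟩ 0,
  .sub 202 0,
  .sub 203 2,
  .inv 0,
  .mul 2 0,
  .mul 0 8,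
  .mul 0 208,
  .mul 210 194,
  .mul 0 1,
  .mul 9 4,
  .pos 7,
  .mul 0 135,
  .scale ⟨1374389534720, 0, 0, 0⟩ 0,
  .sub 212 0,
  .pos 0,
  .scale ⟨3092376453120, 0, 0, 0⟩ 2,
  .add 0 19,
  .mul 4 0,
  .add 217 0,
  .scale ⟨1546188226560, 0, 0, 0⟩ 6,
  .add 0 219,
  .mul 8 0,
  .add 221 0,
  .mul 218 208,
  .sub 223 157,
  .mul 220 209,
  .scale ⟨2199023255552, 0, 0, 0⟩ 0,
  .sub 2 0,
  .mul 4 4,
  .add 1 0,
  .add 0 229,
  .scale ⟨549755813888, 0, 0, 0⟩ 0,
  .scale ⟨549755813888, 0, 0, 0⟩ 201,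
  .sub 224 0,
  .mul 166 9,
  .mul 0 227,
  .scale ⟨137438953472, 0, 0, 0⟩ 0,
  .add 3 0,
  .mul 6 0,
  .mul 120 115,
  .add 114 239,
  .mul 0 48,
  .mul 116 46,
  .add 1 0,
  .mul 53 0,
  .add 5 0,
  .mul 0 169,
  .mul 6 56,
  .mul 0 55,
  .add 9 0,
  .mul 0 173,
  .scale ⟨223338299392, 0, 0, 0⟩ 0,
  .add 250 0,
  .mul 2 0,
  .add 253 0,
  .scale ⟨893353197568, 0, 0, 0⟩ 8,
  .add 255 0,
  .mul 10 0,
  .add 257 0,
  .mul 89 86,
  .mul 0 41,
  .mul 0 2,
  .mul 23 7,
  .add 218 261,
  .mul 2 0,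
  .add 2 0,
  .add 221 265,
  .mul 5 0,
  .mul 45 1,
  .mul 0 96,
  .mul 0 98,
  .mul 268 96,
  .inv 227,
  .mul 1 0,
  .scale ⟨549755813888, 0, 0, 0⟩ 0,
  .inv 277,
  .mul 214 0,
  .mul 0 164,
  .mul 0 154,
  .mul 262 4,
  .mul 14 1,
  .mul 10 70,
  .add 1 0,
  .mul 0 206,
  .add 4 0,
  .mul 19 44,
  .mul 0 93,
  .mul 19 161,
  .mul 0 92,
  .add 2 0,
  .mul 0 213,
  .mul 274 6,
  .mul 102 1,
  .add 1 0,
  .mul 226 0,
  .mul 0 22,
  .sub 295 0,
  .inv 0,
  .mul 4 0,
  .mul 300 0,
  .mul 232 1,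
  .mul 0 28,
  .sub 301 0,
  .mul 261 0,
  .sub 0 4,
  .inv 0,
  .mul 6 0,
  .sub 306 7,
  .inv 0,
  .inv 278,
  .mul 70 0,
  .add 205 0,
  .mul 0 3,
  .mul 0 12,
  .scale ⟨223338299392, 0, 0, 0⟩ 0,
  .add 313 0,
  .mul 2 0,
  .add 316 0,
  .mul 4 0,
  .mul 0 201,
  .mul 0 194,
  .sub 320 0,
  .mul 9 4,
  .mul 0 25,
  .mul 0 247,
  .inv 3,
  .mul 1 0,
  .mul 0 329,
  .mul 62 135,
  .mul 61 211,
  .mul 0 204,
  .mul 0 135,
  .add 3 0,
  .mul 5 0,
  .mul 68 272,
  .mul 0 59,
  .mul 0 226,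
  .mul 0 213,
  .mul 11 153,
  .mul 0 341,
  .inv 322,
  .mul 1 0,
  .mul 342 224,
  .mul 0 326,
  .mul 0 69,
  .add 0 7,
  .mul 228 75,
  .mul 0 136,
  .add 2 0,
  .mul 7 0,
  .mul 166 347,
  .mul 0 333,
  .mul 0 335,
  .const ⟨9895604649984, 0, 0, 0⟩,
  .const ⟨21990232555520, 0, 0, 0⟩,
  .inv 0,
  .mul 2 0,
  .add 191 356,
  .mul 192 0,
  .add 303 0,
  .mul 53 0,
  .mul 303 3,
  .scale ⟨687194767360, 0, 0, 0⟩ 1,
  .add 362 0,
  .mul 3 0,
  .add 364 0,
  .mul 4 0,
  .add 356 368,
  .mul 201 0,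
  .mul 0 12,
  .add 369 0,
  .inv 0,
  .mul 5 0,
  .mul 0 359,
  .mul 371 75,
  .mul 0 34,
  .add 375 0,
  .mul 3 0,
  .sub 333 77,
  .inv 0,
  .mul 2 0,
  .mul 382 47,
  .mul 0 191,
  .mul 384 30,
  .mul 34 0,
  .add 2 0,
  .add 4 36,
  .add 386 1,
  .mul 7 0,
  .add 2 0,
  .sub 389 0,
  .scale ⟨1073741824, 0, 0, 0⟩ 392,
  .sub 1 0,
  .sub 379 392,
  .add 0 197,
  .scale ⟨2199023255552, 0, 0, 0⟩ 38,
  .sub 1 0,
  .mul 230 0,
  .mul 4 2,
  .add 0 398,
  .inv 0,
  .mul 3 0,
  .mul 218 111,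
  .scale ⟨549755813888, 0, 0, 0⟩ 215,
  .add 393 0,
  .mul 2 0,
  .scale ⟨2199023255552, 0, 0, 0⟩ 0,
  .add 122 0,
  .scale ⟨2199023255552, 0, 0, 0⟩ 0,
  .mul 0 111,
  .sub 392 35,
  .inv 0,
  .mul 2 0,
  .sub 11 0,
  .pos 222,
  .pos 219,
  .scale ⟨2199023255552, 0, 0, 0⟩ 119,
  .sub 370 0,
  .pos 0,
  .pos 111,
  .pos 294,
  .sub 414 250,
  .pos 0,
  .scale ⟨687194767360, 0, 0, 0⟩ 416,
  .sub 0 167,
  .pos 0,
  .scale ⟨377957122048, 0, 0, 0⟩ 418,
  .sub 0 173,
  .pos 0,
  .pos 10,
  .sub 419 60,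
  .pos 0,
  .pos 114,
  .pos 100,
  .sub 4 108,
  .pos 0,
  .pos 9,
  .pos 30]

def chk3 {α : Type} (cst : Z → α) (add sub mul : α → α → α) (scale : Z → α → α)
    (neg inv exp log : α → α) (ok : α → Bool) (isPos : Nat → α → Bool) (isLt : α → Nat → Bool) :
    List α → Bool
  | [x0, x1, x2, x3] =>
  let v0 := cst ⟨1099511627776, 0, 0, 0⟩; ok v0 && (
  let v1 := cst ⟨549755813888, 0, 0, 0⟩; ok v1 && (
  let v2 := mul x1 x2; ok v2 && (
  let v3 := mul v2 x3; ok v3 && (
  let v4 := scale ⟨549755813888, 0, 0, 0⟩ v3; ok v4 && (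
  let v5 := mul x2 x2; ok v5 && (
  let v6 := mul v4 v4; ok v6 && (
  let v7 := sub v0 v6; ok v7 && (
  let v8 := inv v7; ok v8 && (
  let v9 := mul v4 v8; ok v9 && (
  let v10 := scale ⟨2199023255552, 0, 0, 0⟩ v9; ok v10 && (
  let v11 := scale ⟨2199023255552, 0, 0, 0⟩ v8; ok v11 && (
  let v12 := sub v11 v0; ok v12 && (
  let v13 := add v12 v10; ok v13 && (
  let v14 := mul x3 v8; ok v14 && (
  let v15 := mul x2 v14; ok v15 && (
  let v16 := sub v0 v15; ok v16 && (
  let v17 := add v0 v15; ok v17 && (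
  let v18 := scale ⟨10774999203840, 0, 0, 0⟩ v4; ok v18 && (
  let v19 := scale ⟨45768245248, 0, 0, 0⟩ v18; ok v19 && (
  let v20 := cst ⟨183207198720, 0, 0, 0⟩; ok v20 && (
  let v21 := add v19 v20; ok v21 && (
  let v22 := mul v18 v21; ok v22 && (
  let v23 := add v1 v22; ok v23 && (
  let v24 := mul v18 v23; ok v24 && (
  let v25 := add v0 v24; ok v25 && (
  let v26 := mul v18 v25; ok v26 && (
  let v27 := scale ⟨549755813888, 0, 0, 0⟩ v26; ok v27 && (
  let v28 := add v0 v27; ok v28 && (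
  let v29 := mul v25 v28; ok v29 && (
  let v30 := mul x1 v5; ok v30 && (
  let v31 := mul v10 v15; ok v31 && (
  let v32 := scale ⟨2199023255552, 0, 0, 0⟩ v12; ok v32 && (
  let v33 := add v31 v32; ok v33 && (
  let v34 := add v33 x1; ok v34 && (
  let v35 := mul v30 v34; ok v35 && (
  let v36 := add v35 v0; ok v36 && (
  let v37 := mul v10 v10; ok v37 && (
  let v38 := scale ⟨2199023255552, 0, 0, 0⟩ v37; ok v38 && (
  let v39 := add v38 v0; ok v39 && (
  let v40 := mul v12 v34; ok v40 && (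
  let v41 := sub v40 v0; ok v41 && (
  let v42 := log v36; ok v42 && (
  let v43 := scale ⟨549755813888, 0, 0, 0⟩ v42; ok v43 && (
  let v44 := exp v43; ok v44 && (
  let v45 := scale ⟨549755813888, 0, 0, 0⟩ x0; ok v45 && (
  let v46 := mul v45 v42; ok v46 && (
  let v47 := neg v46; ok v47 && (
  let v48 := exp v47; ok v48 && (
  let v49 := mul v12 v30; ok v49 && (
  let v50 := mul v49 v41; ok v50 && (
  let v51 := scale ⟨4398046511104, 0, 0, 0⟩ v50; ok v51 && (
  let v52 := add v51 v0; ok v52 && (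
  let v53 := log v52; ok v53 && (
  let v54 := sub v53 v42; ok v54 && (
  let v55 := mul v45 v54; ok v55 && (
  let v56 := neg v55; ok v56 && (
  let v57 := exp v56; ok v57 && (
  let v58 := mul v15 v10; ok v58 && (
  let v59 := add v12 v58; ok v59 && (
  let v60 := inv v59; ok v60 && (
  let v61 := mul v17 v60; ok v61 && (
  let v62 := mul v16 x1; ok v62 && (
  let v63 := mul v62 v61; ok v63 && (
  let v64 := mul v14 v14; ok v64 && (
  let v65 := sub v0 v5; ok v65 && (
  let v66 := mul v64 v65; ok v66 && (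
  let v67 := mul v2 v2; ok v67 && (
  let v68 := add v12 v30; ok v68 && (
  let v69 := inv v68; ok v69 && (
  let v70 := mul v69 x0; ok v70 && (
  let v71 := mul v70 v70; ok v71 && (
  let v72 := mul v67 v65; ok v72 && (
  let v73 := sub v0 v64; ok v73 && (
  let v74 := mul v72 v73; ok v74 && (
  let v75 := mul v71 v74; ok v75 && (
  let v76 := inv x0; ok v76 && (
  let v77 := cst ⟨45812285440, 0, 0, 0⟩; ok v77 && (
  let v78 := scale ⟨1527119872, 0, 0, 0⟩ v75; ok v78 && (
  let v79 := sub v77 v78; ok v79 && (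
  let v80 := mul v75 v79; ok v80 && (
  let v81 := sub v1 v80; ok v81 && (
  let v82 := mul v75 v81; ok v82 && (
  let v83 := sub v0 v82; ok v83 && (
  let v84 := add v48 v0; ok v84 && (
  let v85 := mul v48 v48; ok v85 && (
  let v86 := add v85 v0; ok v86 && (
  let v87 := mul v48 v83; ok v87 && (
  let v88 := scale ⟨2199023255552, 0, 0, 0⟩ v87; ok v88 && (
  let v89 := add v86 v88; ok v89 && (
  let v90 := inv v84; ok v90 && (
  let v91 := mul v89 v90; ok v91 && (
  let v92 := add v91 v84; ok v92 && (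
  let v93 := mul v48 v63; ok v93 && (
  let v94 := scale ⟨549755813888, 0, 0, 0⟩ v93; ok v94 && (
  let v95 := mul v94 v92; ok v95 && (
  let v96 := sub v89 v95; ok v96 && (
  isPos 4 v89 && (
  isPos 4 v96 && (
  let v97 := inv v96; ok v97 && (
  let v98 := mul v45 v34; ok v98 && (
  let v99 := cst ⟨6597069766656, 0, 0, 0⟩; ok v99 && (
  let v100 := add v35 v99; ok v100 && (
  let v101 := mul v98 v100; ok v101 && (
  let v102 := scale ⟨4398046511104, 0, 0, 0⟩ v35; ok v102 && (
  let v103 := add v102 v99; ok v103 && (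
  let v104 := inv v103; ok v104 && (
  let v105 := mul v101 v104; ok v105 && (
  let v106 := sub v0 v48; ok v106 && (
  let v107 := mul v106 v84; ok v107 && (
  let v108 := mul v107 v97; ok v108 && (
  let v109 := scale ⟨549755813888, 0, 0, 0⟩ v108; ok v109 && (
  let v110 := add v109 v1; ok v110 && (
  let v111 := inv v110; ok v111 && (
  let v112 := mul v109 v111; ok v112 && (
  let v113 := mul v94 v109; ok v113 && (
  let v114 := add v113 v1; ok v114 && (
  let v115 := mul v114 v92; ok v115 && (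
  let v116 := inv v89; ok v116 && (
  let v117 := mul v115 v116; ok v117 && (
  let v118 := mul v63 v112; ok v118 && (
  let v119 := scale ⟨549755813888, 0, 0, 0⟩ v118; ok v119 && (
  let v120 := sub v0 v119; ok v120 && (
  let v121 := sub v0 v118; ok v121 && (
  let v122 := inv v121; ok v122 && (
  let v123 := mul v120 v122; ok v123 && (
  let v124 := add v118 v0; ok v124 && (
  let v125 := mul v48 v124; ok v125 && (
  let v126 := mul v16 v17; ok v126 && (
  let v127 := add v12 x1; ok v127 && (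
  let v128 := mul v15 v12; ok v128 && (
  let v129 := mul v128 v10; ok v129 && (
  let v130 := scale ⟨2199023255552, 0, 0, 0⟩ v129; ok v130 && (
  let v131 := add v39 v130; ok v131 && (
  let v132 := mul v127 v131; ok v132 && (
  let v133 := inv v132; ok v133 && (
  let v134 := mul v126 v133; ok v134 && (
  let v135 := mul x1 v134; ok v135 && (
  let v136 := inv v36; ok v136 && (
  let v137 := mul v75 v136; ok v137 && (
  let v138 := scale ⟨1527119872, 0, 0, 0⟩ v137; ok v138 && (
  let v139 := sub v77 v138; ok v139 && (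
  let v140 := mul v137 v139; ok v140 && (
  let v141 := sub v1 v140; ok v141 && (
  let v142 := mul v137 v141; ok v142 && (
  let v143 := sub v0 v142; ok v143 && (
  let v144 := add v57 v0; ok v144 && (
  let v145 := mul v57 v57; ok v145 && (
  let v146 := add v145 v0; ok v146 && (
  let v147 := mul v57 v143; ok v147 && (
  let v148 := scale ⟨2199023255552, 0, 0, 0⟩ v147; ok v148 && (
  let v149 := add v146 v148; ok v149 && (
  let v150 := inv v144; ok v150 && (
  let v151 := mul v149 v150; ok v151 && (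
  let v152 := add v151 v144; ok v152 && (
  let v153 := mul v57 v135; ok v153 && (
  let v154 := scale ⟨549755813888, 0, 0, 0⟩ v153; ok v154 && (
  let v155 := mul v154 v152; ok v155 && (
  let v156 := sub v149 v155; ok v156 && (
  isPos 4 v149 && (
  isPos 4 v156 && (
  let v157 := sub v0 v57; ok v157 && (
  let v158 := mul v157 v144; ok v158 && (
  let v159 := inv v156; ok v159 && (
  let v160 := mul v158 v159; ok v160 && (
  let v161 := scale ⟨549755813888, 0, 0, 0⟩ v160; ok v161 && (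
  let v162 := add v161 v1; ok v162 && (
  let v163 := inv v162; ok v163 && (
  let v164 := mul v161 v163; ok v164 && (
  let v165 := mul v135 v164; ok v165 && (
  let v166 := add v4 v0; ok v166 && (
  let v167 := inv v166; ok v167 && (
  let v168 := mul v4 v167; ok v168 && (
  let v169 := scale ⟨2199023255552, 0, 0, 0⟩ v168; ok v169 && (
  let v170 := sub v0 v169; ok v170 && (
  let v171 := sub v0 v4; ok v171 && (
  let v172 := mul x3 v167; ok v172 && (
  let v173 := mul v172 v170; ok v173 && (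
  let v174 := add v17 v173; ok v174 && (
  let v175 := mul x0 v10; ok v175 && (
  let v176 := cst ⟨13194139533312, 0, 0, 0⟩; ok v176 && (
  let v177 := inv v176; ok v177 && (
  let v178 := mul x0 v177; ok v178 && (
  let v179 := cst ⟨23089744183296, 0, 0, 0⟩; ok v179 && (
  let v180 := cst ⟨10995116277760, 0, 0, 0⟩; ok v180 && (
  let v181 := inv v180; ok v181 && (
  let v182 := mul v179 v181; ok v182 && (
  let v183 := add v178 v182; ok v183 && (
  let v184 := inv v183; ok v184 && (
  let v185 := scale ⟨224412041216, 0, 0, 0⟩ v8; ok v185 && (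
  let v186 := inv v29; ok v186 && (
  let v187 := mul v185 v186; ok v187 && (
  let v188 := mul v183 v17; ok v188 && (
  let v189 := mul v188 v187; ok v189 && (
  let v190 := mul v2 v189; ok v190 && (
  let v191 := sub v0 v190; ok v191 && (
  let v192 := inv v191; ok v192 && (
  let v193 := mul v125 v190; ok v193 && (
  let v194 := sub v0 v193; ok v194 && (
  let v195 := inv v194; ok v195 && (
  let v196 := cst ⟨2199023255552, 0, 0, 0⟩; ok v196 && (
  let v197 := add v175 v196; ok v197 && (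
  let v198 := inv v197; ok v198 && (
  let v199 := mul v16 x0; ok v199 && (
  let v200 := mul v199 x1; ok v200 && (
  let v201 := mul v200 v198; ok v201 && (
  let v202 := scale ⟨549755813888, 0, 0, 0⟩ v201; ok v202 && (
  let v203 := sub v0 v202; ok v203 && (
  let v204 := sub v0 v201; ok v204 && (
  let v205 := inv v204; ok v205 && (
  let v206 := mul v203 v205; ok v206 && (
  let v207 := mul v206 v198; ok v207 && (
  let v208 := mul v207 x0; ok v208 && (
  let v209 := mul x1 v14; ok v209 && (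
  let v210 := mul v209 v208; ok v210 && (
  let v211 := mul v201 v206; ok v211 && (
  isPos 4 v204 && (
  let v212 := mul v211 v76; ok v212 && (
  let v213 := scale ⟨1374389534720, 0, 0, 0⟩ v212; ok v213 && (
  let v214 := sub v1 v213; ok v214 && (
  isPos 4 v214 && (
  let v215 := scale ⟨3092376453120, 0, 0, 0⟩ v212; ok v215 && (
  let v216 := add v215 v196; ok v216 && (
  let v217 := mul v212 v216; ok v217 && (
  let v218 := add v0 v217; ok v218 && (
  let v219 := scale ⟨1546188226560, 0, 0, 0⟩ v212; ok v219 && (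
  let v220 := add v219 v0; ok v220 && (
  let v221 := mul v212 v220; ok v221 && (
  let v222 := add v0 v221; ok v222 && (
  let v223 := mul v4 v14; ok v223 && (
  let v224 := sub v0 v66; ok v224 && (
  let v225 := mul v4 v15; ok v225 && (
  let v226 := scale ⟨2199023255552, 0, 0, 0⟩ v225; ok v226 && (
  let v227 := sub v224 v226; ok v227 && (
  let v228 := mul v223 v223; ok v228 && (
  let v229 := add v227 v228; ok v229 && (
  let v230 := add v229 v0; ok v230 && (
  let v231 := scale ⟨549755813888, 0, 0, 0⟩ v230; ok v231 && (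
  let v232 := scale ⟨549755813888, 0, 0, 0⟩ v30; ok v232 && (
  let v233 := sub v8 v232; ok v233 && (
  let v234 := mul v67 v224; ok v234 && (
  let v235 := mul v234 v7; ok v235 && (
  let v236 := scale ⟨137438953472, 0, 0, 0⟩ v235; ok v236 && (
  let v237 := add v233 v236; ok v237 && (
  let v238 := mul v231 v237; ok v238 && (
  let v239 := mul v118 v123; ok v239 && (
  let v240 := add v125 v0; ok v240 && (
  let v241 := mul v240 v192; ok v241 && (
  let v242 := mul v125 v195; ok v242 && (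
  let v243 := add v241 v242; ok v243 && (
  let v244 := mul v190 v243; ok v244 && (
  let v245 := add v239 v244; ok v245 && (
  let v246 := mul v245 v76; ok v246 && (
  let v247 := mul v240 v190; ok v247 && (
  let v248 := mul v247 v192; ok v248 && (
  let v249 := add v239 v248; ok v249 && (
  let v250 := mul v249 v76; ok v250 && (
  let v251 := scale ⟨223338299392, 0, 0, 0⟩ v250; ok v251 && (
  let v252 := add v1 v251; ok v252 && (
  let v253 := mul v250 v252; ok v253 && (
  let v254 := add v0 v253; ok v254 && (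
  let v255 := scale ⟨893353197568, 0, 0, 0⟩ v246; ok v255 && (
  let v256 := add v0 v255; ok v256 && (
  let v257 := mul v246 v256; ok v257 && (
  let v258 := add v0 v257; ok v258 && (
  let v259 := mul v169 v172; ok v259 && (
  let v260 := mul v259 v218; ok v260 && (
  let v261 := mul v260 v258; ok v261 && (
  let v262 := mul v238 v254; ok v262 && (
  let v263 := add v44 v1; ok v263 && (
  let v264 := mul v261 v263; ok v264 && (
  let v265 := add v262 v264; ok v265 && (
  let v266 := add v44 v0; ok v266 && (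
  let v267 := mul v261 v266; ok v267 && (
  let v268 := mul v222 v266; ok v268 && (
  let v269 := mul v268 v172; ok v269 && (
  let v270 := mul v269 v171; ok v270 && (
  let v271 := mul v2 v174; ok v271 && (
  let v272 := inv v44; ok v272 && (
  let v273 := mul v271 v272; ok v273 && (
  let v274 := scale ⟨549755813888, 0, 0, 0⟩ v273; ok v274 && (
  let v275 := inv x2; ok v275 && (
  let v276 := mul v61 v275; ok v276 && (
  let v277 := mul v276 v112; ok v277 && (
  let v278 := mul v277 v123; ok v278 && (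
  let v279 := mul v16 v274; ok v279 && (
  let v280 := mul v265 v278; ok v280 && (
  let v281 := mul v270 v210; ok v281 && (
  let v282 := add v280 v281; ok v282 && (
  let v283 := mul v282 v76; ok v283 && (
  let v284 := add v279 v283; ok v284 && (
  let v285 := mul v265 v240; ok v285 && (
  let v286 := mul v285 v192; ok v286 && (
  let v287 := mul v267 v125; ok v287 && (
  let v288 := mul v287 v195; ok v288 && (
  let v289 := add v286 v288; ok v289 && (
  let v290 := mul v289 v76; ok v290 && (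
  let v291 := mul v16 v284; ok v291 && (
  let v292 := mul v189 v290; ok v292 && (
  let v293 := add v291 v292; ok v293 && (
  let v294 := mul v67 v293; ok v294 && (
  let v295 := mul v294 v272; ok v295 && (
  let v296 := sub v0 v295; ok v296 && (
  let v297 := inv v296; ok v297 && (
  let v298 := mul v293 v297; ok v298 && (
  let v299 := mul x1 v298; ok v299 && (
  let v300 := mul v67 v298; ok v300 && (
  let v301 := mul v300 v272; ok v301 && (
  let v302 := sub v0 v301; ok v302 && (
  let v303 := mul v41 v302; ok v303 && (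
  let v304 := sub v303 v299; ok v304 && (
  let v305 := inv v304; ok v305 && (
  let v306 := mul v299 v305; ok v306 && (
  let v307 := sub v0 v299; ok v307 && (
  let v308 := inv v307; ok v308 && (
  let v309 := inv v30; ok v309 && (
  let v310 := mul v239 v309; ok v310 && (
  let v311 := add v105 v310; ok v311 && (
  let v312 := mul v311 v308; ok v312 && (
  let v313 := mul v312 v300; ok v313 && (
  let v314 := scale ⟨223338299392, 0, 0, 0⟩ v313; ok v314 && (
  let v315 := add v1 v314; ok v315 && (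
  let v316 := mul v313 v315; ok v316 && (
  let v317 := add v0 v316; ok v317 && (
  let v318 := mul v313 v317; ok v318 && (
  let v319 := mul v318 v117; ok v319 && (
  let v320 := mul v319 v125; ok v320 && (
  let v321 := sub v0 v320; ok v321 && (
  let v322 := mul v312 v317; ok v322 && (
  let v323 := mul v322 v297; ok v323 && (
  let v324 := mul v323 v76; ok v324 && (
  let v325 := inv v321; ok v325 && (
  let v326 := mul v324 v325; ok v326 && (
  let v327 := mul v326 x2; ok v327 && (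
  let v328 := mul v265 v192; ok v328 && (
  let v329 := mul v267 v117; ok v329 && (
  let v330 := mul v329 v125; ok v330 && (
  let v331 := mul v330 v195; ok v331 && (
  let v332 := add v328 v331; ok v332 && (
  let v333 := mul v327 v332; ok v333 && (
  let v334 := mul v265 v61; ok v334 && (
  let v335 := mul v334 v275; ok v335 && (
  let v336 := mul v335 v109; ok v336 && (
  let v337 := mul v336 v123; ok v337 && (
  let v338 := mul v326 v184; ok v338 && (
  let v339 := mul v338 x2; ok v339 && (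
  let v340 := inv v17; ok v340 && (
  let v341 := mul v339 v340; ok v341 && (
  let v342 := mul x0 v117; ok v342 && (
  let v343 := mul v342 v16; ok v343 && (
  let v344 := mul v343 v274; ok v344 && (
  let v345 := add v344 v337; ok v345 && (
  let v346 := mul v117 v270; ok v346 && (
  let v347 := mul v346 v210; ok v347 && (
  let v348 := add v345 v347; ok v348 && (
  let v349 := mul v341 v348; ok v349 && (
  let v350 := mul v183 v2; ok v350 && (
  let v351 := mul v350 v17; ok v351 && (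
  let v352 := mul v351 v16; ok v352 && (
  let v353 := cst ⟨9895604649984, 0, 0, 0⟩; ok v353 && (
  let v354 := cst ⟨21990232555520, 0, 0, 0⟩; ok v354 && (
  let v355 := inv v354; ok v355 && (
  let v356 := mul v353 v355; ok v356 && (
  let v357 := add v165 v0; ok v357 && (
  let v358 := mul v165 v357; ok v358 && (
  let v359 := add v55 v358; ok v359 && (
  let v360 := mul v306 v359; ok v360 && (
  let v361 := mul v57 v357; ok v361 && (
  let v362 := scale ⟨687194767360, 0, 0, 0⟩ v360; ok v362 && (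
  let v363 := add v0 v362; ok v363 && (
  let v364 := mul v360 v363; ok v364 && (
  let v365 := add v0 v364; ok v365 && (
  let v366 := mul v361 v365; ok v366 && (
  let v367 := add v10 x1; ok v367 && (
  let v368 := mul v166 v367; ok v368 && (
  let v369 := mul v368 v356; ok v369 && (
  let v370 := add v0 v369; ok v370 && (
  let v371 := inv v370; ok v371 && (
  let v372 := mul v366 v371; ok v372 && (
  let v373 := mul v372 v13; ok v373 && (
  let v374 := mul v2 v298; ok v374 && (
  let v375 := mul v374 v340; ok v375 && (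
  let v376 := add v0 v375; ok v376 && (
  let v377 := mul v373 v376; ok v377 && (
  let v378 := sub v44 v300; ok v378 && (
  let v379 := inv v378; ok v379 && (
  let v380 := mul v377 v379; ok v380 && (
  let v381 := mul x1 v333; ok v381 && (
  let v382 := mul v381 v190; ok v382 && (
  let v383 := mul x1 v352; ok v383 && (
  let v384 := mul v349 v383; ok v384 && (
  let v385 := add v382 v384; ok v385 && (
  let v386 := add v381 v349; ok v386 && (
  let v387 := add v0 v385; ok v387 && (
  let v388 := mul v380 v387; ok v388 && (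
  let v389 := add v386 v388; ok v389 && (
  let v390 := sub v0 v389; ok v390 && (
  let v391 := scale ⟨1073741824, 0, 0, 0⟩ x1; ok v391 && (
  let v392 := sub v390 v391; ok v392 && (
  let v393 := sub v13 v0; ok v393 && (
  let v394 := add v393 v196; ok v394 && (
  let v395 := scale ⟨2199023255552, 0, 0, 0⟩ v356; ok v395 && (
  let v396 := sub v394 v395; ok v396 && (
  let v397 := mul v166 v396; ok v397 && (
  let v398 := mul v393 v395; ok v398 && (
  let v399 := add v398 v0; ok v399 && (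
  let v400 := inv v399; ok v400 && (
  let v401 := mul v397 v400; ok v401 && (
  let v402 := mul v183 v290; ok v402 && (
  let v403 := scale ⟨549755813888, 0, 0, 0⟩ v187; ok v403 && (
  let v404 := add v10 v403; ok v404 && (
  let v405 := mul v402 v404; ok v405 && (
  let v406 := scale ⟨2199023255552, 0, 0, 0⟩ v405; ok v406 && (
  let v407 := add v284 v406; ok v407 && (
  let v408 := scale ⟨2199023255552, 0, 0, 0⟩ v407; ok v408 && (
  let v409 := mul v408 v297; ok v409 && (
  let v410 := sub v17 v374; ok v410 && (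
  let v411 := inv v410; ok v411 && (
  let v412 := mul v409 v411; ok v412 && (
  let v413 := sub v401 v412; ok v413 && (
  isPos 4 v191 && (
  isPos 4 v194 && (
  let v414 := scale ⟨2199023255552, 0, 0, 0⟩ v294; ok v414 && (
  let v415 := sub v44 v414; ok v415 && (
  isPos 4 v415 && (
  isPos 4 v304 && (
  isPos 4 v121 && (
  let v416 := sub v1 v165; ok v416 && (
  isPos 4 v416 && (
  let v417 := scale ⟨687194767360, 0, 0, 0⟩ v0; ok v417 && (
  let v418 := sub v417 v250; ok v418 && (
  isPos 4 v418 && (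
  let v419 := scale ⟨377957122048, 0, 0, 0⟩ v0; ok v419 && (
  let v420 := sub v419 v246; ok v420 && (
  isPos 4 v420 && (
  isPos 4 v410 && (
  let v421 := sub v1 v360; ok v421 && (
  isPos 4 v421 && (
  isPos 4 v307 && (
  isPos 4 v321 && (
  let v422 := sub v417 v313; ok v422 && (
  isPos 4 v422 && (
  isPos 4 v413 && (
  isPos 4 v392 && (
  true))))))))))))))))))))))))))))))))))))))))))))))))))))))))))))))))))))))))))))))))))))))))))))))))))))))))))))))))))))))))))))))))))))))))))))))))))))))))))))))))))))))))))))))))))))))))))))))))))))))))))))))))))))))))))))))))))))))))))))))))))))))))))))))))))))))))))))))))))))))))))))))))))))))))))))))))))))))))))))))))))))))))))))))))))))))))))))))))))))))))))))))))))))))))))))))))))))))))))))))))))))))))))))))))))))))))))))))))))))))))))))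
  | _ => false

set_option maxRecDepth 1000000 in
theorem chk3_eq (O : Ops) (m : List O.α)
    (h : chk3 O.cst O.add O.sub O.mul O.scale O.neg O.inv O.exp O.log O.ok O.isPos O.isLt m = true) :
    runG O 4 prog3 m = true := by
  match m, h with
  | [x0, x1, x2, x3], h => exact h

def chkB3 : List opsE.α → Bool :=
  chk3 opsE.cst opsE.add opsE.sub opsE.mul opsE.scale opsE.neg opsE.inv opsE.exp opsE.log opsE.ok opsE.isPos opsE.isLt

theorem chkB3_eq (m : List opsE.α) (h : chkB3 m = true) : runG opsE 4 prog3 m = true :=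
  chk3_eq opsE m h

def prog4 : List Op := [
  .const ⟨1099511627776, 0, 0, 0⟩,
  .const ⟨549755813888, 0, 0, 0⟩,
  .mul 3 4,
  .mul 0 6,
  .scale ⟨549755813888, 0, 0, 0⟩ 0,
  .mul 7 7,
  .mul 1 1,
  .sub 6 0,
  .inv 0,
  .mul 4 0,
  .scale ⟨2199023255552, 0, 0, 0⟩ 0,
  .scale ⟨2199023255552, 0, 0, 0⟩ 2,
  .sub 0 11,
  .add 0 2,
  .mul 17 5,
  .mul 17 0,
  .sub 15 0,
  .add 16 1,
  .scale ⟨10774999203840, 0, 0, 0⟩ 13,
  .scale ⟨45768245248, 0, 0, 0⟩ 0,
  .const ⟨183207198720, 0, 0, 0⟩,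
  .add 1 0,
  .mul 3 0,
  .add 21 0,
  .mul 5 0,
  .add 24 0,
  .mul 7 0,
  .scale ⟨549755813888, 0, 0, 0⟩ 0,
  .add 27 0,
  .mul 3 0,
  .mul 31 24,
  .mul 20 15,
  .scale ⟨2199023255552, 0, 0, 0⟩ 19,
  .add 1 0,
  .add 0 35,
  .mul 4 0,
  .add 0 35,
  .mul 26 26,
  .scale ⟨2199023255552, 0, 0, 0⟩ 0,
  .add 0 38,
  .mul 27 5,
  .sub 0 40,
  .log 5,
  .scale ⟨549755813888, 0, 0, 0⟩ 0,
  .exp 0,
  .scale ⟨549755813888, 0, 0, 0⟩ 45,
  .mul 0 3,
  .neg 0,
  .exp 0,
  .mul 36 18,
  .mul 0 8,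
  .scale ⟨4398046511104, 0, 0, 0⟩ 0,
  .add 0 51,
  .log 0,
  .sub 0 11,
  .mul 9 0,
  .neg 0,
  .exp 0,
  .mul 42 47,
  .add 46 0,
  .inv 0,
  .mul 43 0,
  .mul 45 63,
  .mul 0 1,
  .mul 49 49,
  .sub 64 59,
  .mul 1 0,
  .mul 64 64,
  .add 55 37,
  .inv 0,
  .mul 0 70,
  .mul 0 0,
  .mul 4 6,
  .sub 72 8,
  .mul 1 0,
  .mul 3 0,
  .inv 76,
  .const ⟨45812285440, 0, 0, 0⟩,
  .scale ⟨1527119872, 0, 0, 0⟩ 2,
  .sub 1 0,
  .mul 4 0,
  .sub 79 0,
  .mul 6 0,
  .sub 82 0,
  .add 35 83,
  .mul 36 36,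
  .add 0 85,
  .mul 38 3,
  .scale ⟨2199023255552, 0, 0, 0⟩ 0,
  .add 2 0,
  .inv 5,
  .mul 1 0,
  .add 0 7,
  .mul 44 29,
  .scale ⟨549755813888, 0, 0, 0⟩ 0,
  .mul 0 2,
  .sub 6 0,
  .pos 7,
  .pos 0,
  .inv 0,
  .mul 52 63,
  .const ⟨6597069766656, 0, 0, 0⟩,
  .add 64 0,
  .mul 2 0,
  .scale ⟨4398046511104, 0, 0, 0⟩ 66,
  .add 0 3,
  .inv 0,
  .mul 3 0,
  .sub 105 57,
  .mul 0 22,
  .mul 0 10,
  .scale ⟨549755813888, 0, 0, 0⟩ 0,
  .add 0 108,
  .inv 0,
  .mul 2 0,
  .mul 18 3,
  .add 0 112,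
  .mul 0 22,
  .inv 26,
  .mul 1 0,
  .mul 54 5,
  .scale ⟨549755813888, 0, 0, 0⟩ 0,
  .sub 119 0,
  .sub 120 2,
  .inv 0,
  .mul 2 0,
  .add 5 123,
  .mul 76 0,
  .mul 109 108,
  .add 114 128,
  .mul 112 115,
  .mul 0 118,
  .scale ⟨2199023255552, 0, 0, 0⟩ 0,
  .add 91 0,
  .mul 4 0,
  .inv 0,
  .mul 7 0,
  .mul 136 0,
  .inv 99,
  .mul 61 0,
  .scale ⟨1527119872, 0, 0, 0⟩ 0,
  .sub 61 0,
  .mul 2 0,
  .sub 139 0,
  .mul 4 0,
  .sub 142 0,
  .add 86 143,
  .mul 87 87,
  .add 0 145,
  .mul 89 3,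
  .scale ⟨2199023255552, 0, 0, 0⟩ 0,
  .add 2 0,
  .inv 5,
  .mul 1 0,
  .add 0 7,
  .mul 95 17,
  .scale ⟨549755813888, 0, 0, 0⟩ 0,
  .mul 0 2,
  .sub 6 0,
  .pos 7,
  .pos 0,
  .sub 156 99,
  .mul 0 13,
  .inv 2,
  .mul 1 0,
  .scale ⟨549755813888, 0, 0, 0⟩ 0,
  .add 0 160,
  .inv 0,
  .mul 2 0,
  .mul 29 0,
  .add 161 165,
  .inv 0,
  .mul 163 0,
  .scale ⟨2199023255552, 0, 0, 0⟩ 0,
  .sub 169 0,
  .sub 170 166,
  .mul 175 4,
  .mul 0 2,
  .add 156 0,
  .mul 175 164,
  .const ⟨13194139533312, 0, 0, 0⟩,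
  .inv 0,
  .mul 178 0,
  .const ⟨23089744183296, 0, 0, 0⟩,
  .const ⟨10995116277760, 0, 0, 0⟩,
  .inv 0,
  .mul 2 0,
  .add 4 0,
  .inv 0,
  .scale ⟨224412041216, 0, 0, 0⟩ 176,
  .inv 156,
  .mul 1 0,
  .mul 4 170,
  .mul 0 1,
  .mul 187 0,
  .sub 190 0,
  .inv 0,
  .mul 67 2,
  .sub 193 0,
  .inv 0,
  .mul 179 83,
  .inv 181,
  .mul 1 0,
  .scale ⟨549755813888, 0, 0, 0⟩ 0,
  .sub 199 0,
  .sub 200 2,
  .inv 0,
  .mul 2 0,
  .mul 91 0,
  .inv 207,
  .mul 1 0,
  .mul 8 3,
  .pos 6,
  .mul 0 131,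
  .scale ⟨1374389534720, 0, 0, 0⟩ 0,
  .sub 208 0,
  .pos 0,
  .scale ⟨3092376453120, 0, 0, 0⟩ 2,
  .const ⟨2199023255552, 0, 0, 0⟩,
  .add 1 0,
  .mul 5 0,
  .add 214 0,
  .scale ⟨1546188226560, 0, 0, 0⟩ 7,
  .add 0 216,
  .mul 9 0,
  .add 218 0,
  .mul 215 205,
  .sub 220 154,
  .mul 217 206,
  .scale ⟨2199023255552, 0, 0, 0⟩ 0,
  .sub 2 0,
  .mul 4 4,
  .add 1 0,
  .add 0 226,
  .scale ⟨549755813888, 0, 0, 0⟩ 0,
  .scale ⟨549755813888, 0, 0, 0⟩ 198,
  .sub 221 0,
  .mul 163 9,
  .mul 0 224,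
  .scale ⟨137438953472, 0, 0, 0⟩ 0,
  .add 3 0,
  .mul 6 0,
  .mul 117 112,
  .add 111 236,
  .mul 0 45,
  .mul 113 43,
  .add 1 0,
  .mul 50 0,
  .add 5 0,
  .mul 0 166,
  .mul 6 53,
  .mul 0 52,
  .add 9 0,
  .mul 0 170,
  .scale ⟨223338299392, 0, 0, 0⟩ 0,
  .add 247 0,
  .mul 2 0,
  .add 250 0,
  .scale ⟨893353197568, 0, 0, 0⟩ 8,
  .add 252 0,
  .mul 10 0,
  .add 254 0,
  .mul 86 83,
  .mul 0 41,
  .mul 0 2,
  .mul 23 7,
  .add 215 258,
  .mul 2 0,
  .add 2 0,
  .add 218 262,
  .mul 5 0,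
  .mul 45 1,
  .mul 0 93,
  .mul 0 95,
  .mul 265 93,
  .inv 224,
  .mul 1 0,
  .scale ⟨549755813888, 0, 0, 0⟩ 0,
  .mul 210 66,
  .mul 0 160,
  .mul 0 150,
  .mul 258 3,
  .mul 13 1,
  .mul 9 70,
  .add 1 0,
  .mul 0 202,
  .add 4 0,
  .mul 18 43,
  .mul 0 89,
  .mul 18 157,
  .mul 0 88,
  .add 2 0,
  .mul 0 209,
  .mul 270 6,
  .mul 98 1,
  .add 1 0,
  .mul 222 0,
  .mul 0 21,
  .sub 291 0,
  .inv 0,
  .mul 4 0,
  .mul 296 0,
  .mul 228 1,
  .mul 0 27,
  .sub 297 0,
  .mul 257 0,
  .sub 0 4,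
  .inv 0,
  .mul 6 0,
  .sub 302 7,
  .inv 0,
  .inv 274,
  .mul 69 0,
  .add 201 0,
  .mul 0 3,
  .mul 0 12,
  .scale ⟨223338299392, 0, 0, 0⟩ 0,
  .add 309 0,
  .mul 2 0,
  .add 312 0,
  .mul 4 0,
  .mul 0 197,
  .mul 0 190,
  .sub 316 0,
  .mul 9 4,
  .mul 0 25,
  .mul 0 243,
  .inv 3,
  .mul 1 0,
  .mul 0 325,
  .mul 61 131,
  .mul 60 207,
  .mul 0 200,
  .mul 0 131,
  .add 3 0,
  .mul 5 0,
  .mul 67 268,
  .mul 0 125,
  .mul 0 222,
  .mul 0 209,
  .mul 11 149,
  .mul 0 337,
  .inv 318,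
  .mul 1 0,
  .mul 338 220,
  .mul 0 322,
  .mul 0 68,
  .add 0 7,
  .mul 224 74,
  .mul 0 136,
  .add 2 0,
  .mul 7 0,
  .mul 162 343,
  .mul 0 329,
  .mul 0 331,
  .const ⟨9895604649984, 0, 0, 0⟩,
  .const ⟨21990232555520, 0, 0, 0⟩,
  .inv 0,
  .mul 2 0,
  .add 187 352,
  .mul 188 0,
  .add 299 0,
  .mul 53 0,
  .mul 299 3,
  .scale ⟨687194767360, 0, 0, 0⟩ 1,
  .add 358 0,
  .mul 3 0,
  .add 360 0,
  .mul 4 0,
  .add 352 364,
  .mul 197 0,
  .mul 0 12,
  .add 365 0,
  .inv 0,
  .mul 5 0,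
  .mul 0 355,
  .mul 367 75,
  .mul 0 34,
  .add 371 0,
  .mul 3 0,
  .sub 329 77,
  .inv 0,
  .mul 2 0,
  .mul 378 47,
  .mul 0 187,
  .mul 380 30,
  .mul 34 0,
  .add 2 0,
  .add 4 36,
  .add 382 1,
  .mul 7 0,
  .add 2 0,
  .sub 385 0,
  .scale ⟨1073741824, 0, 0, 0⟩ 388,
  .sub 1 0,
  .sub 375 388,
  .add 0 177,
  .scale ⟨2199023255552, 0, 0, 0⟩ 38,
  .sub 1 0,
  .mul 226 0,
  .mul 4 2,
  .add 0 394,
  .inv 0,
  .mul 3 0,
  .mul 214 111,
  .scale ⟨549755813888, 0, 0, 0⟩ 211,
  .add 389 0,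
  .mul 2 0,
  .scale ⟨2199023255552, 0, 0, 0⟩ 0,
  .add 122 0,
  .scale ⟨2199023255552, 0, 0, 0⟩ 0,
  .mul 0 111,
  .sub 388 35,
  .inv 0,
  .mul 2 0,
  .sub 11 0,
  .pos 218,
  .pos 215,
  .scale ⟨2199023255552, 0, 0, 0⟩ 119,
  .sub 366 0,
  .pos 0,
  .pos 111,
  .pos 290,
  .sub 410 246,
  .pos 0,
  .scale ⟨687194767360, 0, 0, 0⟩ 412,
  .sub 0 166,
  .pos 0,
  .scale ⟨377957122048, 0, 0, 0⟩ 414,
  .sub 0 172,
  .pos 0,
  .pos 10,
  .sub 415 60,
  .pos 0,
  .pos 114,
  .pos 100,
  .sub 4 108,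
  .pos 0,
  .pos 9,
  .pos 30]

def chk4 {α : Type} (cst : Z → α) (add sub mul : α → α → α) (scale : Z → α → α)
    (neg inv exp log : α → α) (ok : α → Bool) (isPos : Nat → α → Bool) (isLt : α → Nat → Bool) :
    List α → Bool
  | [x0, x1, x2, x3] =>
  let v0 := cst ⟨1099511627776, 0, 0, 0⟩; ok v0 && (
  let v1 := cst ⟨549755813888, 0, 0, 0⟩; ok v1 && (
  let v2 := mul x1 x2; ok v2 && (
  let v3 := mul v2 x3; ok v3 && (
  let v4 := scale ⟨549755813888, 0, 0, 0⟩ v3; ok v4 && (
  let v5 := mul x2 x2; ok v5 && (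
  let v6 := mul v4 v4; ok v6 && (
  let v7 := sub v0 v6; ok v7 && (
  let v8 := inv v7; ok v8 && (
  let v9 := mul v4 v8; ok v9 && (
  let v10 := scale ⟨2199023255552, 0, 0, 0⟩ v9; ok v10 && (
  let v11 := scale ⟨2199023255552, 0, 0, 0⟩ v8; ok v11 && (
  let v12 := sub v11 v0; ok v12 && (
  let v13 := add v12 v10; ok v13 && (
  let v14 := mul x3 v8; ok v14 && (
  let v15 := mul x2 v14; ok v15 && (
  let v16 := sub v0 v15; ok v16 && (
  let v17 := add v0 v15; ok v17 && (
  let v18 := scale ⟨10774999203840, 0, 0, 0⟩ v4; ok v18 && (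
  let v19 := scale ⟨45768245248, 0, 0, 0⟩ v18; ok v19 && (
  let v20 := cst ⟨183207198720, 0, 0, 0⟩; ok v20 && (
  let v21 := add v19 v20; ok v21 && (
  let v22 := mul v18 v21; ok v22 && (
  let v23 := add v1 v22; ok v23 && (
  let v24 := mul v18 v23; ok v24 && (
  let v25 := add v0 v24; ok v25 && (
  let v26 := mul v18 v25; ok v26 && (
  let v27 := scale ⟨549755813888, 0, 0, 0⟩ v26; ok v27 && (
  let v28 := add v0 v27; ok v28 && (
  let v29 := mul v25 v28; ok v29 && (
  let v30 := mul x1 v5; ok v30 && (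
  let v31 := mul v10 v15; ok v31 && (
  let v32 := scale ⟨2199023255552, 0, 0, 0⟩ v12; ok v32 && (
  let v33 := add v31 v32; ok v33 && (
  let v34 := add v33 x1; ok v34 && (
  let v35 := mul v30 v34; ok v35 && (
  let v36 := add v35 v0; ok v36 && (
  let v37 := mul v10 v10; ok v37 && (
  let v38 := scale ⟨2199023255552, 0, 0, 0⟩ v37; ok v38 && (
  let v39 := add v38 v0; ok v39 && (
  let v40 := mul v12 v34; ok v40 && (
  let v41 := sub v40 v0; ok v41 && (
  let v42 := log v36; ok v42 && (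
  let v43 := scale ⟨549755813888, 0, 0, 0⟩ v42; ok v43 && (
  let v44 := exp v43; ok v44 && (
  let v45 := scale ⟨549755813888, 0, 0, 0⟩ x0; ok v45 && (
  let v46 := mul v45 v42; ok v46 && (
  let v47 := neg v46; ok v47 && (
  let v48 := exp v47; ok v48 && (
  let v49 := mul v12 v30; ok v49 && (
  let v50 := mul v49 v41; ok v50 && (
  let v51 := scale ⟨4398046511104, 0, 0, 0⟩ v50; ok v51 && (
  let v52 := add v51 v0; ok v52 && (
  let v53 := log v52; ok v53 && (
  let v54 := sub v53 v42; ok v54 && (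
  let v55 := mul v45 v54; ok v55 && (
  let v56 := neg v55; ok v56 && (
  let v57 := exp v56; ok v57 && (
  let v58 := mul v15 v10; ok v58 && (
  let v59 := add v12 v58; ok v59 && (
  let v60 := inv v59; ok v60 && (
  let v61 := mul v17 v60; ok v61 && (
  let v62 := mul v16 x1; ok v62 && (
  let v63 := mul v62 v61; ok v63 && (
  let v64 := mul v14 v14; ok v64 && (
  let v65 := sub v0 v5; ok v65 && (
  let v66 := mul v64 v65; ok v66 && (
  let v67 := mul v2 v2; ok v67 && (
  let v68 := add v12 v30; ok v68 && (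
  let v69 := inv v68; ok v69 && (
  let v70 := mul v69 x0; ok v70 && (
  let v71 := mul v70 v70; ok v71 && (
  let v72 := mul v67 v65; ok v72 && (
  let v73 := sub v0 v64; ok v73 && (
  let v74 := mul v72 v73; ok v74 && (
  let v75 := mul v71 v74; ok v75 && (
  let v76 := inv x0; ok v76 && (
  let v77 := cst ⟨45812285440, 0, 0, 0⟩; ok v77 && (
  let v78 := scale ⟨1527119872, 0, 0, 0⟩ v75; ok v78 && (
  let v79 := sub v77 v78; ok v79 && (
  let v80 := mul v75 v79; ok v80 && (
  let v81 := sub v1 v80; ok v81 && (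
  let v82 := mul v75 v81; ok v82 && (
  let v83 := sub v0 v82; ok v83 && (
  let v84 := add v48 v0; ok v84 && (
  let v85 := mul v48 v48; ok v85 && (
  let v86 := add v85 v0; ok v86 && (
  let v87 := mul v48 v83; ok v87 && (
  let v88 := scale ⟨2199023255552, 0, 0, 0⟩ v87; ok v88 && (
  let v89 := add v86 v88; ok v89 && (
  let v90 := inv v84; ok v90 && (
  let v91 := mul v89 v90; ok v91 && (
  let v92 := add v91 v84; ok v92 && (
  let v93 := mul v48 v63; ok v93 && (
  let v94 := scale ⟨549755813888, 0, 0, 0⟩ v93; ok v94 && (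
  let v95 := mul v94 v92; ok v95 && (
  let v96 := sub v89 v95; ok v96 && (
  isPos 4 v89 && (
  isPos 4 v96 && (
  let v97 := inv v96; ok v97 && (
  let v98 := mul v45 v34; ok v98 && (
  let v99 := cst ⟨6597069766656, 0, 0, 0⟩; ok v99 && (
  let v100 := add v35 v99; ok v100 && (
  let v101 := mul v98 v100; ok v101 && (
  let v102 := scale ⟨4398046511104, 0, 0, 0⟩ v35; ok v102 && (
  let v103 := add v102 v99; ok v103 && (
  let v104 := inv v103; ok v104 && (
  let v105 := mul v101 v104; ok v105 && (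
  let v106 := sub v0 v48; ok v106 && (
  let v107 := mul v106 v84; ok v107 && (
  let v108 := mul v107 v97; ok v108 && (
  let v109 := scale ⟨549755813888, 0, 0, 0⟩ v108; ok v109 && (
  let v110 := add v109 v1; ok v110 && (
  let v111 := inv v110; ok v111 && (
  let v112 := mul v109 v111; ok v112 && (
  let v113 := mul v94 v109; ok v113 && (
  let v114 := add v113 v1; ok v114 && (
  let v115 := mul v114 v92; ok v115 && (
  let v116 := inv v89; ok v116 && (
  let v117 := mul v115 v116; ok v117 && (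
  let v118 := mul v63 v112; ok v118 && (
  let v119 := scale ⟨549755813888, 0, 0, 0⟩ v118; ok v119 && (
  let v120 := sub v0 v119; ok v120 && (
  let v121 := sub v0 v118; ok v121 && (
  let v122 := inv v121; ok v122 && (
  let v123 := mul v120 v122; ok v123 && (
  let v124 := add v118 v0; ok v124 && (
  let v125 := mul v48 v124; ok v125 && (
  let v126 := mul v16 v17; ok v126 && (
  let v127 := add v12 x1; ok v127 && (
  let v128 := mul v15 v12; ok v128 && (
  let v129 := mul v128 v10; ok v129 && (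
  let v130 := scale ⟨2199023255552, 0, 0, 0⟩ v129; ok v130 && (
  let v131 := add v39 v130; ok v131 && (
  let v132 := mul v127 v131; ok v132 && (
  let v133 := inv v132; ok v133 && (
  let v134 := mul v126 v133; ok v134 && (
  let v135 := mul x1 v134; ok v135 && (
  let v136 := inv v36; ok v136 && (
  let v137 := mul v75 v136; ok v137 && (
  let v138 := scale ⟨1527119872, 0, 0, 0⟩ v137; ok v138 && (
  let v139 := sub v77 v138; ok v139 && (
  let v140 := mul v137 v139; ok v140 && (
  let v141 := sub v1 v140; ok v141 && (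
  let v142 := mul v137 v141; ok v142 && (
  let v143 := sub v0 v142; ok v143 && (
  let v144 := add v57 v0; ok v144 && (
  let v145 := mul v57 v57; ok v145 && (
  let v146 := add v145 v0; ok v146 && (
  let v147 := mul v57 v143; ok v147 && (
  let v148 := scale ⟨2199023255552, 0, 0, 0⟩ v147; ok v148 && (
  let v149 := add v146 v148; ok v149 && (
  let v150 := inv v144; ok v150 && (
  let v151 := mul v149 v150; ok v151 && (
  let v152 := add v151 v144; ok v152 && (
  let v153 := mul v57 v135; ok v153 && (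
  let v154 := scale ⟨549755813888, 0, 0, 0⟩ v153; ok v154 && (
  let v155 := mul v154 v152; ok v155 && (
  let v156 := sub v149 v155; ok v156 && (
  isPos 4 v149 && (
  isPos 4 v156 && (
  let v157 := sub v0 v57; ok v157 && (
  let v158 := mul v157 v144; ok v158 && (
  let v159 := inv v156; ok v159 && (
  let v160 := mul v158 v159; ok v160 && (
  let v161 := scale ⟨549755813888, 0, 0, 0⟩ v160; ok v161 && (
  let v162 := add v161 v1; ok v162 && (
  let v163 := inv v162; ok v163 && (
  let v164 := mul v161 v163; ok v164 && (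
  let v165 := mul v135 v164; ok v165 && (
  let v166 := add v4 v0; ok v166 && (
  let v167 := inv v166; ok v167 && (
  let v168 := mul v4 v167; ok v168 && (
  let v169 := scale ⟨2199023255552, 0, 0, 0⟩ v168; ok v169 && (
  let v170 := sub v0 v169; ok v170 && (
  let v171 := sub v0 v4; ok v171 && (
  let v172 := mul x3 v167; ok v172 && (
  let v173 := mul v172 v170; ok v173 && (
  let v174 := add v17 v173; ok v174 && (
  let v175 := mul x0 v10; ok v175 && (
  let v176 := cst ⟨13194139533312, 0, 0, 0⟩; ok v176 && (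
  let v177 := inv v176; ok v177 && (
  let v178 := mul x0 v177; ok v178 && (
  let v179 := cst ⟨23089744183296, 0, 0, 0⟩; ok v179 && (
  let v180 := cst ⟨10995116277760, 0, 0, 0⟩; ok v180 && (
  let v181 := inv v180; ok v181 && (
  let v182 := mul v179 v181; ok v182 && (
  let v183 := add v178 v182; ok v183 && (
  let v184 := inv v183; ok v184 && (
  let v185 := scale ⟨224412041216, 0, 0, 0⟩ v8; ok v185 && (
  let v186 := inv v29; ok v186 && (
  let v187 := mul v185 v186; ok v187 && (
  let v188 := mul v183 v17; ok v188 && (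
  let v189 := mul v188 v187; ok v189 && (
  let v190 := mul v2 v189; ok v190 && (
  let v191 := sub v0 v190; ok v191 && (
  let v192 := inv v191; ok v192 && (
  let v193 := mul v125 v190; ok v193 && (
  let v194 := sub v0 v193; ok v194 && (
  let v195 := inv v194; ok v195 && (
  let v196 := mul v16 v112; ok v196 && (
  let v197 := inv v15; ok v197 && (
  let v198 := mul v196 v197; ok v198 && (
  let v199 := scale ⟨549755813888, 0, 0, 0⟩ v198; ok v199 && (
  let v200 := sub v0 v199; ok v200 && (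
  let v201 := sub v0 v198; ok v201 && (
  let v202 := inv v201; ok v202 && (
  let v203 := mul v200 v202; ok v203 && (
  let v204 := mul v112 v203; ok v204 && (
  let v205 := inv x2; ok v205 && (
  let v206 := mul v204 v205; ok v206 && (
  let v207 := mul v198 v203; ok v207 && (
  isPos 4 v201 && (
  let v208 := mul v207 v76; ok v208 && (
  let v209 := scale ⟨1374389534720, 0, 0, 0⟩ v208; ok v209 && (
  let v210 := sub v1 v209; ok v210 && (
  isPos 4 v210 && (
  let v211 := scale ⟨3092376453120, 0, 0, 0⟩ v208; ok v211 && (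
  let v212 := cst ⟨2199023255552, 0, 0, 0⟩; ok v212 && (
  let v213 := add v211 v212; ok v213 && (
  let v214 := mul v208 v213; ok v214 && (
  let v215 := add v0 v214; ok v215 && (
  let v216 := scale ⟨1546188226560, 0, 0, 0⟩ v208; ok v216 && (
  let v217 := add v216 v0; ok v217 && (
  let v218 := mul v208 v217; ok v218 && (
  let v219 := add v0 v218; ok v219 && (
  let v220 := mul v4 v14; ok v220 && (
  let v221 := sub v0 v66; ok v221 && (
  let v222 := mul v4 v15; ok v222 && (
  let v223 := scale ⟨2199023255552, 0, 0, 0⟩ v222; ok v223 && (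
  let v224 := sub v221 v223; ok v224 && (
  let v225 := mul v220 v220; ok v225 && (
  let v226 := add v224 v225; ok v226 && (
  let v227 := add v226 v0; ok v227 && (
  let v228 := scale ⟨549755813888, 0, 0, 0⟩ v227; ok v228 && (
  let v229 := scale ⟨549755813888, 0, 0, 0⟩ v30; ok v229 && (
  let v230 := sub v8 v229; ok v230 && (
  let v231 := mul v67 v221; ok v231 && (
  let v232 := mul v231 v7; ok v232 && (
  let v233 := scale ⟨137438953472, 0, 0, 0⟩ v232; ok v233 && (
  let v234 := add v230 v233; ok v234 && (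
  let v235 := mul v228 v234; ok v235 && (
  let v236 := mul v118 v123; ok v236 && (
  let v237 := add v125 v0; ok v237 && (
  let v238 := mul v237 v192; ok v238 && (
  let v239 := mul v125 v195; ok v239 && (
  let v240 := add v238 v239; ok v240 && (
  let v241 := mul v190 v240; ok v241 && (
  let v242 := add v236 v241; ok v242 && (
  let v243 := mul v242 v76; ok v243 && (
  let v244 := mul v237 v190; ok v244 && (
  let v245 := mul v244 v192; ok v245 && (
  let v246 := add v236 v245; ok v246 && (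
  let v247 := mul v246 v76; ok v247 && (
  let v248 := scale ⟨223338299392, 0, 0, 0⟩ v247; ok v248 && (
  let v249 := add v1 v248; ok v249 && (
  let v250 := mul v247 v249; ok v250 && (
  let v251 := add v0 v250; ok v251 && (
  let v252 := scale ⟨893353197568, 0, 0, 0⟩ v243; ok v252 && (
  let v253 := add v0 v252; ok v253 && (
  let v254 := mul v243 v253; ok v254 && (
  let v255 := add v0 v254; ok v255 && (
  let v256 := mul v169 v172; ok v256 && (
  let v257 := mul v256 v215; ok v257 && (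
  let v258 := mul v257 v255; ok v258 && (
  let v259 := mul v235 v251; ok v259 && (
  let v260 := add v44 v1; ok v260 && (
  let v261 := mul v258 v260; ok v261 && (
  let v262 := add v259 v261; ok v262 && (
  let v263 := add v44 v0; ok v263 && (
  let v264 := mul v258 v263; ok v264 && (
  let v265 := mul v219 v263; ok v265 && (
  let v266 := mul v265 v172; ok v266 && (
  let v267 := mul v266 v171; ok v267 && (
  let v268 := mul v2 v174; ok v268 && (
  let v269 := inv v44; ok v269 && (
  let v270 := mul v268 v269; ok v270 && (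
  let v271 := scale ⟨549755813888, 0, 0, 0⟩ v270; ok v271 && (
  let v272 := mul v61 v205; ok v272 && (
  let v273 := mul v272 v112; ok v273 && (
  let v274 := mul v273 v123; ok v274 && (
  let v275 := mul v16 v271; ok v275 && (
  let v276 := mul v262 v274; ok v276 && (
  let v277 := mul v267 v206; ok v277 && (
  let v278 := add v276 v277; ok v278 && (
  let v279 := mul v278 v76; ok v279 && (
  let v280 := add v275 v279; ok v280 && (
  let v281 := mul v262 v237; ok v281 && (
  let v282 := mul v281 v192; ok v282 && (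
  let v283 := mul v264 v125; ok v283 && (
  let v284 := mul v283 v195; ok v284 && (
  let v285 := add v282 v284; ok v285 && (
  let v286 := mul v285 v76; ok v286 && (
  let v287 := mul v16 v280; ok v287 && (
  let v288 := mul v189 v286; ok v288 && (
  let v289 := add v287 v288; ok v289 && (
  let v290 := mul v67 v289; ok v290 && (
  let v291 := mul v290 v269; ok v291 && (
  let v292 := sub v0 v291; ok v292 && (
  let v293 := inv v292; ok v293 && (
  let v294 := mul v289 v293; ok v294 && (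
  let v295 := mul x1 v294; ok v295 && (
  let v296 := mul v67 v294; ok v296 && (
  let v297 := mul v296 v269; ok v297 && (
  let v298 := sub v0 v297; ok v298 && (
  let v299 := mul v41 v298; ok v299 && (
  let v300 := sub v299 v295; ok v300 && (
  let v301 := inv v300; ok v301 && (
  let v302 := mul v295 v301; ok v302 && (
  let v303 := sub v0 v295; ok v303 && (
  let v304 := inv v303; ok v304 && (
  let v305 := inv v30; ok v305 && (
  let v306 := mul v236 v305; ok v306 && (
  let v307 := add v105 v306; ok v307 && (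
  let v308 := mul v307 v304; ok v308 && (
  let v309 := mul v308 v296; ok v309 && (
  let v310 := scale ⟨223338299392, 0, 0, 0⟩ v309; ok v310 && (
  let v311 := add v1 v310; ok v311 && (
  let v312 := mul v309 v311; ok v312 && (
  let v313 := add v0 v312; ok v313 && (
  let v314 := mul v309 v313; ok v314 && (
  let v315 := mul v314 v117; ok v315 && (
  let v316 := mul v315 v125; ok v316 && (
  let v317 := sub v0 v316; ok v317 && (
  let v318 := mul v308 v313; ok v318 && (
  let v319 := mul v318 v293; ok v319 && (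
  let v320 := mul v319 v76; ok v320 && (
  let v321 := inv v317; ok v321 && (
  let v322 := mul v320 v321; ok v322 && (
  let v323 := mul v322 x2; ok v323 && (
  let v324 := mul v262 v192; ok v324 && (
  let v325 := mul v264 v117; ok v325 && (
  let v326 := mul v325 v125; ok v326 && (
  let v327 := mul v326 v195; ok v327 && (
  let v328 := add v324 v327; ok v328 && (
  let v329 := mul v323 v328; ok v329 && (
  let v330 := mul v262 v61; ok v330 && (
  let v331 := mul v330 v205; ok v331 && (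
  let v332 := mul v331 v109; ok v332 && (
  let v333 := mul v332 v123; ok v333 && (
  let v334 := mul v322 v184; ok v334 && (
  let v335 := mul v334 x2; ok v335 && (
  let v336 := inv v17; ok v336 && (
  let v337 := mul v335 v336; ok v337 && (
  let v338 := mul x0 v117; ok v338 && (
  let v339 := mul v338 v16; ok v339 && (
  let v340 := mul v339 v271; ok v340 && (
  let v341 := add v340 v333; ok v341 && (
  let v342 := mul v117 v267; ok v342 && (
  let v343 := mul v342 v206; ok v343 && (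
  let v344 := add v341 v343; ok v344 && (
  let v345 := mul v337 v344; ok v345 && (
  let v346 := mul v183 v2; ok v346 && (
  let v347 := mul v346 v17; ok v347 && (
  let v348 := mul v347 v16; ok v348 && (
  let v349 := cst ⟨9895604649984, 0, 0, 0⟩; ok v349 && (
  let v350 := cst ⟨21990232555520, 0, 0, 0⟩; ok v350 && (
  let v351 := inv v350; ok v351 && (
  let v352 := mul v349 v351; ok v352 && (
  let v353 := add v165 v0; ok v353 && (
  let v354 := mul v165 v353; ok v354 && (
  let v355 := add v55 v354; ok v355 && (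
  let v356 := mul v302 v355; ok v356 && (
  let v357 := mul v57 v353; ok v357 && (
  let v358 := scale ⟨687194767360, 0, 0, 0⟩ v356; ok v358 && (
  let v359 := add v0 v358; ok v359 && (
  let v360 := mul v356 v359; ok v360 && (
  let v361 := add v0 v360; ok v361 && (
  let v362 := mul v357 v361; ok v362 && (
  let v363 := add v10 x1; ok v363 && (
  let v364 := mul v166 v363; ok v364 && (
  let v365 := mul v364 v352; ok v365 && (
  let v366 := add v0 v365; ok v366 && (
  let v367 := inv v366; ok v367 && (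
  let v368 := mul v362 v367; ok v368 && (
  let v369 := mul v368 v13; ok v369 && (
  let v370 := mul v2 v294; ok v370 && (
  let v371 := mul v370 v336; ok v371 && (
  let v372 := add v0 v371; ok v372 && (
  let v373 := mul v369 v372; ok v373 && (
  let v374 := sub v44 v296; ok v374 && (
  let v375 := inv v374; ok v375 && (
  let v376 := mul v373 v375; ok v376 && (
  let v377 := mul x1 v329; ok v377 && (
  let v378 := mul v377 v190; ok v378 && (
  let v379 := mul x1 v348; ok v379 && (
  let v380 := mul v345 v379; ok v380 && (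
  let v381 := add v378 v380; ok v381 && (
  let v382 := add v377 v345; ok v382 && (
  let v383 := add v0 v381; ok v383 && (
  let v384 := mul v376 v383; ok v384 && (
  let v385 := add v382 v384; ok v385 && (
  let v386 := sub v0 v385; ok v386 && (
  let v387 := scale ⟨1073741824, 0, 0, 0⟩ x1; ok v387 && (
  let v388 := sub v386 v387; ok v388 && (
  let v389 := sub v13 v0; ok v389 && (
  let v390 := add v389 v212; ok v390 && (
  let v391 := scale ⟨2199023255552, 0, 0, 0⟩ v352; ok v391 && (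
  let v392 := sub v390 v391; ok v392 && (
  let v393 := mul v166 v392; ok v393 && (
  let v394 := mul v389 v391; ok v394 && (
  let v395 := add v394 v0; ok v395 && (
  let v396 := inv v395; ok v396 && (
  let v397 := mul v393 v396; ok v397 && (
  let v398 := mul v183 v286; ok v398 && (
  let v399 := scale ⟨549755813888, 0, 0, 0⟩ v187; ok v399 && (
  let v400 := add v10 v399; ok v400 && (
  let v401 := mul v398 v400; ok v401 && (
  let v402 := scale ⟨2199023255552, 0, 0, 0⟩ v401; ok v402 && (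
  let v403 := add v280 v402; ok v403 && (
  let v404 := scale ⟨2199023255552, 0, 0, 0⟩ v403; ok v404 && (
  let v405 := mul v404 v293; ok v405 && (
  let v406 := sub v17 v370; ok v406 && (
  let v407 := inv v406; ok v407 && (
  let v408 := mul v405 v407; ok v408 && (
  let v409 := sub v397 v408; ok v409 && (
  isPos 4 v191 && (
  isPos 4 v194 && (
  let v410 := scale ⟨2199023255552, 0, 0, 0⟩ v290; ok v410 && (
  let v411 := sub v44 v410; ok v411 && (
  isPos 4 v411 && (
  isPos 4 v300 && (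
  isPos 4 v121 && (
  let v412 := sub v1 v165; ok v412 && (
  isPos 4 v412 && (
  let v413 := scale ⟨687194767360, 0, 0, 0⟩ v0; ok v413 && (
  let v414 := sub v413 v247; ok v414 && (
  isPos 4 v414 && (
  let v415 := scale ⟨377957122048, 0, 0, 0⟩ v0; ok v415 && (
  let v416 := sub v415 v243; ok v416 && (
  isPos 4 v416 && (
  isPos 4 v406 && (
  let v417 := sub v1 v356; ok v417 && (
  isPos 4 v417 && (
  isPos 4 v303 && (
  isPos 4 v317 && (
  let v418 := sub v413 v309; ok v418 && (
  isPos 4 v418 && (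
  isPos 4 v409 && (
  isPos 4 v388 && (
  true))))))))))))))))))))))))))))))))))))))))))))))))))))))))))))))))))))))))))))))))))))))))))))))))))))))))))))))))))))))))))))))))))))))))))))))))))))))))))))))))))))))))))))))))))))))))))))))))))))))))))))))))))))))))))))))))))))))))))))))))))))))))))))))))))))))))))))))))))))))))))))))))))))))))))))))))))))))))))))))))))))))))))))))))))))))))))))))))))))))))))))))))))))))))))))))))))))))))))))))))))))))))))))))))))))))))))))))))))))))))
  | _ => false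

set_option maxRecDepth 1000000 in
theorem chk4_eq (O : Ops) (m : List O.α)
    (h : chk4 O.cst O.add O.sub O.mul O.scale O.neg O.inv O.exp O.log O.ok O.isPos O.isLt m = true) :
    runG O 4 prog4 m = true := by
  match m, h with
  | [x0, x1, x2, x3], h => exact h

def chkB4 : List opsE.α → Bool :=
  chk4 opsE.cst opsE.add opsE.sub opsE.mul opsE.scale opsE.neg opsE.inv opsE.exp opsE.log opsE.ok opsE.isPos opsE.isLt

theorem chkB4_eq (m : List opsE.α) (h : chkB4 m = true) : runG opsE 4 prog4 m = true :=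
  chk4_eq opsE m h

def prog5 : List Op := [
  .const ⟨1099511627776, 0, 0, 0⟩,
  .const ⟨549755813888, 0, 0, 0⟩,
  .mul 3 4,
  .mul 0 6,
  .scale ⟨549755813888, 0, 0, 0⟩ 0,
  .mul 7 7,
  .mul 1 1,
  .sub 6 0,
  .inv 0,
  .mul 4 0,
  .scale ⟨2199023255552, 0, 0, 0⟩ 0,
  .scale ⟨2199023255552, 0, 0, 0⟩ 2,
  .sub 0 11,
  .add 0 2,
  .mul 17 5,
  .mul 17 0,
  .sub 15 0,
  .add 16 1,
  .scale ⟨10774999203840, 0, 0, 0⟩ 13,
  .scale ⟨45768245248, 0, 0, 0⟩ 0,
  .const ⟨183207198720, 0, 0, 0⟩,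
  .add 1 0,
  .mul 3 0,
  .add 21 0,
  .mul 5 0,
  .add 24 0,
  .mul 7 0,
  .scale ⟨549755813888, 0, 0, 0⟩ 0,
  .add 27 0,
  .mul 3 0,
  .mul 31 24,
  .mul 20 15,
  .scale ⟨2199023255552, 0, 0, 0⟩ 19,
  .add 1 0,
  .add 0 35,
  .mul 4 0,
  .add 0 35,
  .mul 26 26,
  .scale ⟨2199023255552, 0, 0, 0⟩ 0,
  .add 0 38,
  .mul 27 5,
  .sub 0 40,
  .log 5,
  .scale ⟨549755813888, 0, 0, 0⟩ 0,
  .exp 0,
  .scale ⟨549755813888, 0, 0, 0⟩ 45,
  .mul 0 3,
  .neg 0,
  .exp 0,
  .mul 36 18,
  .mul 0 8,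
  .scale ⟨4398046511104, 0, 0, 0⟩ 0,
  .add 0 51,
  .log 0,
  .sub 0 11,
  .mul 9 0,
  .neg 0,
  .exp 0,
  .mul 42 47,
  .add 46 0,
  .inv 0,
  .mul 43 0,
  .mul 45 63,
  .mul 0 1,
  .mul 49 49,
  .sub 64 59,
  .mul 1 0,
  .mul 64 64,
  .add 55 37,
  .inv 0,
  .mul 0 70,
  .mul 0 0,
  .mul 4 6,
  .sub 72 8,
  .mul 1 0,
  .mul 3 0,
  .inv 76,
  .const ⟨45812285440, 0, 0, 0⟩,
  .scale ⟨1527119872, 0, 0, 0⟩ 2,
  .sub 1 0,
  .mul 4 0,
  .sub 79 0,
  .mul 6 0,
  .sub 82 0,
  .add 35 83,
  .mul 36 36,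
  .add 0 85,
  .mul 38 3,
  .scale ⟨2199023255552, 0, 0, 0⟩ 0,
  .add 2 0,
  .inv 5,
  .mul 1 0,
  .add 0 7,
  .mul 44 29,
  .scale ⟨549755813888, 0, 0, 0⟩ 0,
  .mul 0 2,
  .sub 6 0,
  .pos 7,
  .pos 0,
  .inv 0,
  .mul 52 63,
  .const ⟨6597069766656, 0, 0, 0⟩,
  .add 64 0,
  .mul 2 0,
  .scale ⟨4398046511104, 0, 0, 0⟩ 66,
  .add 0 3,
  .inv 0,
  .mul 3 0,
  .sub 105 57,
  .mul 0 22,
  .mul 0 10,
  .scale ⟨549755813888, 0, 0, 0⟩ 0,
  .add 0 108,
  .inv 0,
  .mul 2 0,
  .mul 18 3,
  .add 0 112,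
  .mul 0 22,
  .inv 26,
  .mul 1 0,
  .mul 54 5,
  .scale ⟨549755813888, 0, 0, 0⟩ 0,
  .sub 119 0,
  .sub 120 2,
  .inv 0,
  .mul 2 0,
  .add 5 123,
  .mul 76 0,
  .mul 109 108,
  .add 114 128,
  .mul 112 115,
  .mul 0 118,
  .scale ⟨2199023255552, 0, 0, 0⟩ 0,
  .add 91 0,
  .mul 4 0,
  .inv 0,
  .mul 7 0,
  .mul 136 0,
  .inv 99,
  .mul 61 0,
  .scale ⟨1527119872, 0, 0, 0⟩ 0,
  .sub 61 0,
  .mul 2 0,
  .sub 139 0,
  .mul 4 0,
  .sub 142 0,
  .add 86 143,
  .mul 87 87,
  .add 0 145,
  .mul 89 3,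
  .scale ⟨2199023255552, 0, 0, 0⟩ 0,
  .add 2 0,
  .inv 5,
  .mul 1 0,
  .add 0 7,
  .mul 95 17,
  .scale ⟨549755813888, 0, 0, 0⟩ 0,
  .mul 0 2,
  .sub 6 0,
  .pos 7,
  .pos 0,
  .sub 156 99,
  .mul 0 13,
  .inv 2,
  .mul 1 0,
  .scale ⟨549755813888, 0, 0, 0⟩ 0,
  .add 0 160,
  .inv 0,
  .mul 2 0,
  .mul 29 0,
  .add 161 165,
  .inv 0,
  .mul 163 0,
  .scale ⟨2199023255552, 0, 0, 0⟩ 0,
  .sub 169 0,
  .sub 170 166,
  .mul 175 4,
  .mul 0 2,
  .add 156 0,
  .mul 175 164,
  .const ⟨13194139533312, 0, 0, 0⟩,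
  .inv 0,
  .mul 178 0,
  .const ⟨23089744183296, 0, 0, 0⟩,
  .const ⟨10995116277760, 0, 0, 0⟩,
  .inv 0,
  .mul 2 0,
  .add 4 0,
  .inv 0,
  .scale ⟨224412041216, 0, 0, 0⟩ 176,
  .inv 156,
  .mul 1 0,
  .mul 4 170,
  .mul 0 1,
  .mul 187 0,
  .sub 190 0,
  .inv 0,
  .mul 67 2,
  .sub 193 0,
  .inv 0,
  .scale ⟨3573412790272, 0, 0, 0⟩ 181,
  .inv 199,
  .scale ⟨339302416384, 0, 0, 0⟩ 0,
  .add 2 0,
  .scale ⟨549755813888, 0, 0, 0⟩ 0,
  .scale ⟨2199023255552, 0, 0, 0⟩ 124,
  .add 0 201,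
  .add 126 202,
  .mul 199 189,
  .sub 204 138,
  .mul 201 190,
  .scale ⟨2199023255552, 0, 0, 0⟩ 0,
  .sub 2 0,
  .mul 4 4,
  .add 1 0,
  .add 0 210,
  .scale ⟨549755813888, 0, 0, 0⟩ 0,
  .scale ⟨549755813888, 0, 0, 0⟩ 182,
  .sub 205 0,
  .mul 147 9,
  .mul 0 208,
  .scale ⟨137438953472, 0, 0, 0⟩ 0,
  .add 3 0,
  .mul 6 0,
  .mul 101 96,
  .add 95 220,
  .mul 0 29,
  .mul 97 27,
  .add 1 0,
  .mul 34 0,
  .add 5 0,
  .mul 0 150,
  .mul 6 37,
  .mul 0 36,
  .add 9 0,
  .mul 0 154,
  .scale ⟨223338299392, 0, 0, 0⟩ 0,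
  .add 231 0,
  .mul 2 0,
  .add 234 0,
  .scale ⟨893353197568, 0, 0, 0⟩ 8,
  .add 236 0,
  .mul 10 0,
  .add 238 0,
  .mul 70 67,
  .mul 0 38,
  .mul 0 2,
  .mul 23 7,
  .add 199 242,
  .mul 2 0,
  .add 2 0,
  .add 202 246,
  .mul 5 0,
  .mul 45 1,
  .mul 0 77,
  .mul 0 79,
  .mul 249 77,
  .inv 208,
  .mul 1 0,
  .scale ⟨549755813888, 0, 0, 0⟩ 0,
  .mul 194 58,
  .mul 0 144,
  .mul 0 134,
  .mul 242 3,
  .mul 13 1,
  .mul 9 60,
  .add 1 0,
  .mul 0 186,
  .add 4 0,
  .mul 18 43,
  .mul 0 73,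
  .mul 18 141,
  .mul 0 72,
  .add 2 0,
  .mul 0 193,
  .mul 254 6,
  .mul 82 1,
  .add 1 0,
  .mul 206 0,
  .mul 0 21,
  .sub 275 0,
  .inv 0,
  .mul 4 0,
  .mul 280 0,
  .mul 212 1,
  .mul 0 27,
  .sub 281 0,
  .mul 241 0,
  .sub 0 4,
  .inv 0,
  .mul 6 0,
  .sub 286 7,
  .inv 0,
  .inv 258,
  .mul 69 0,
  .add 185 0,
  .mul 0 3,
  .mul 0 12,
  .scale ⟨223338299392, 0, 0, 0⟩ 0,
  .add 293 0,
  .mul 2 0,
  .add 296 0,
  .mul 4 0,
  .mul 0 181,
  .mul 0 174,
  .sub 300 0,
  .mul 9 4,
  .mul 0 25,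
  .mul 0 227,
  .inv 3,
  .mul 1 0,
  .mul 0 309,
  .mul 61 115,
  .mul 60 191,
  .mul 0 184,
  .mul 0 115,
  .add 3 0,
  .mul 5 0,
  .mul 67 252,
  .mul 0 117,
  .mul 0 206,
  .mul 0 193,
  .mul 11 133,
  .mul 0 321,
  .inv 302,
  .mul 1 0,
  .mul 322 204,
  .mul 0 306,
  .mul 0 68,
  .add 0 7,
  .mul 208 74,
  .mul 0 126,
  .add 2 0,
  .mul 7 0,
  .mul 146 327,
  .mul 0 313,
  .mul 0 315,
  .const ⟨9895604649984, 0, 0, 0⟩,
  .const ⟨21990232555520, 0, 0, 0⟩,
  .inv 0,
  .mul 2 0,
  .add 171 336,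
  .mul 172 0,
  .add 283 0,
  .mul 53 0,
  .mul 283 3,
  .scale ⟨687194767360, 0, 0, 0⟩ 1,
  .add 342 0,
  .mul 3 0,
  .add 344 0,
  .mul 4 0,
  .add 336 348,
  .mul 181 0,
  .mul 0 12,
  .add 349 0,
  .inv 0,
  .mul 5 0,
  .mul 0 339,
  .mul 351 75,
  .mul 0 34,
  .add 355 0,
  .mul 3 0,
  .sub 313 77,
  .inv 0,
  .mul 2 0,
  .mul 362 47,
  .mul 0 171,
  .mul 364 30,
  .mul 34 0,
  .add 2 0,
  .add 4 36,
  .add 366 1,
  .mul 7 0,
  .add 2 0,
  .sub 369 0,
  .scale ⟨1073741824, 0, 0, 0⟩ 372,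
  .sub 1 0,
  .sub 359 372,
  .const ⟨2199023255552, 0, 0, 0⟩,
  .add 1 0,
  .scale ⟨2199023255552, 0, 0, 0⟩ 39,
  .sub 1 0,
  .mul 211 0,
  .mul 5 2,
  .add 0 379,
  .inv 0,
  .mul 3 0,
  .mul 199 112,
  .scale ⟨549755813888, 0, 0, 0⟩ 196,
  .add 374 0,
  .mul 2 0,
  .scale ⟨2199023255552, 0, 0, 0⟩ 0,
  .add 123 0,
  .scale ⟨2199023255552, 0, 0, 0⟩ 0,
  .mul 0 112,
  .sub 373 36,
  .inv 0,
  .mul 2 0,
  .sub 11 0,
  .pos 203,
  .pos 200,
  .scale ⟨2199023255552, 0, 0, 0⟩ 120,
  .sub 351 0,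
  .pos 0,
  .pos 112,
  .pos 275,
  .sub 395 231,
  .pos 0,
  .scale ⟨687194767360, 0, 0, 0⟩ 397,
  .sub 0 167,
  .pos 0,
  .scale ⟨377957122048, 0, 0, 0⟩ 399,
  .sub 0 173,
  .pos 0,
  .pos 10,
  .sub 400 61,
  .pos 0,
  .pos 115,
  .pos 101,
  .sub 4 109,
  .pos 0,
  .pos 9,
  .pos 31]

def chk5 {α : Type} (cst : Z → α) (add sub mul : α → α → α) (scale : Z → α → α)
    (neg inv exp log : α → α) (ok : α → Bool) (isPos : Nat → α → Bool) (isLt : α → Nat → Bool) :
    List α → Bool
  | [x0, x1, x2, x3] =>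
  let v0 := cst ⟨1099511627776, 0, 0, 0⟩; ok v0 && (
  let v1 := cst ⟨549755813888, 0, 0, 0⟩; ok v1 && (
  let v2 := mul x1 x2; ok v2 && (
  let v3 := mul v2 x3; ok v3 && (
  let v4 := scale ⟨549755813888, 0, 0, 0⟩ v3; ok v4 && (
  let v5 := mul x2 x2; ok v5 && (
  let v6 := mul v4 v4; ok v6 && (
  let v7 := sub v0 v6; ok v7 && (
  let v8 := inv v7; ok v8 && (
  let v9 := mul v4 v8; ok v9 && (
  let v10 := scale ⟨2199023255552, 0, 0, 0⟩ v9; ok v10 && (
  let v11 := scale ⟨2199023255552, 0, 0, 0⟩ v8; ok v11 && (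
  let v12 := sub v11 v0; ok v12 && (
  let v13 := add v12 v10; ok v13 && (
  let v14 := mul x3 v8; ok v14 && (
  let v15 := mul x2 v14; ok v15 && (
  let v16 := sub v0 v15; ok v16 && (
  let v17 := add v0 v15; ok v17 && (
  let v18 := scale ⟨10774999203840, 0, 0, 0⟩ v4; ok v18 && (
  let v19 := scale ⟨45768245248, 0, 0, 0⟩ v18; ok v19 && (
  let v20 := cst ⟨183207198720, 0, 0, 0⟩; ok v20 && (
  let v21 := add v19 v20; ok v21 && (
  let v22 := mul v18 v21; ok v22 && (
  let v23 := add v1 v22; ok v23 && (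
  let v24 := mul v18 v23; ok v24 && (
  let v25 := add v0 v24; ok v25 && (
  let v26 := mul v18 v25; ok v26 && (
  let v27 := scale ⟨549755813888, 0, 0, 0⟩ v26; ok v27 && (
  let v28 := add v0 v27; ok v28 && (
  let v29 := mul v25 v28; ok v29 && (
  let v30 := mul x1 v5; ok v30 && (
  let v31 := mul v10 v15; ok v31 && (
  let v32 := scale ⟨2199023255552, 0, 0, 0⟩ v12; ok v32 && (
  let v33 := add v31 v32; ok v33 && (
  let v34 := add v33 x1; ok v34 && (
  let v35 := mul v30 v34; ok v35 && (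
  let v36 := add v35 v0; ok v36 && (
  let v37 := mul v10 v10; ok v37 && (
  let v38 := scale ⟨2199023255552, 0, 0, 0⟩ v37; ok v38 && (
  let v39 := add v38 v0; ok v39 && (
  let v40 := mul v12 v34; ok v40 && (
  let v41 := sub v40 v0; ok v41 && (
  let v42 := log v36; ok v42 && (
  let v43 := scale ⟨549755813888, 0, 0, 0⟩ v42; ok v43 && (
  let v44 := exp v43; ok v44 && (
  let v45 := scale ⟨549755813888, 0, 0, 0⟩ x0; ok v45 && (
  let v46 := mul v45 v42; ok v46 && (
  let v47 := neg v46; ok v47 && (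
  let v48 := exp v47; ok v48 && (
  let v49 := mul v12 v30; ok v49 && (
  let v50 := mul v49 v41; ok v50 && (
  let v51 := scale ⟨4398046511104, 0, 0, 0⟩ v50; ok v51 && (
  let v52 := add v51 v0; ok v52 && (
  let v53 := log v52; ok v53 && (
  let v54 := sub v53 v42; ok v54 && (
  let v55 := mul v45 v54; ok v55 && (
  let v56 := neg v55; ok v56 && (
  let v57 := exp v56; ok v57 && (
  let v58 := mul v15 v10; ok v58 && (
  let v59 := add v12 v58; ok v59 && (
  let v60 := inv v59; ok v60 && (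
  let v61 := mul v17 v60; ok v61 && (
  let v62 := mul v16 x1; ok v62 && (
  let v63 := mul v62 v61; ok v63 && (
  let v64 := mul v14 v14; ok v64 && (
  let v65 := sub v0 v5; ok v65 && (
  let v66 := mul v64 v65; ok v66 && (
  let v67 := mul v2 v2; ok v67 && (
  let v68 := add v12 v30; ok v68 && (
  let v69 := inv v68; ok v69 && (
  let v70 := mul v69 x0; ok v70 && (
  let v71 := mul v70 v70; ok v71 && (
  let v72 := mul v67 v65; ok v72 && (
  let v73 := sub v0 v64; ok v73 && (
  let v74 := mul v72 v73; ok v74 && (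
  let v75 := mul v71 v74; ok v75 && (
  let v76 := inv x0; ok v76 && (
  let v77 := cst ⟨45812285440, 0, 0, 0⟩; ok v77 && (
  let v78 := scale ⟨1527119872, 0, 0, 0⟩ v75; ok v78 && (
  let v79 := sub v77 v78; ok v79 && (
  let v80 := mul v75 v79; ok v80 && (
  let v81 := sub v1 v80; ok v81 && (
  let v82 := mul v75 v81; ok v82 && (
  let v83 := sub v0 v82; ok v83 && (
  let v84 := add v48 v0; ok v84 && (
  let v85 := mul v48 v48; ok v85 && (
  let v86 := add v85 v0; ok v86 && (
  let v87 := mul v48 v83; ok v87 && (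
  let v88 := scale ⟨2199023255552, 0, 0, 0⟩ v87; ok v88 && (
  let v89 := add v86 v88; ok v89 && (
  let v90 := inv v84; ok v90 && (
  let v91 := mul v89 v90; ok v91 && (
  let v92 := add v91 v84; ok v92 && (
  let v93 := mul v48 v63; ok v93 && (
  let v94 := scale ⟨549755813888, 0, 0, 0⟩ v93; ok v94 && (
  let v95 := mul v94 v92; ok v95 && (
  let v96 := sub v89 v95; ok v96 && (
  isPos 4 v89 && (
  isPos 4 v96 && (
  let v97 := inv v96; ok v97 && (
  let v98 := mul v45 v34; ok v98 && (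
  let v99 := cst ⟨6597069766656, 0, 0, 0⟩; ok v99 && (
  let v100 := add v35 v99; ok v100 && (
  let v101 := mul v98 v100; ok v101 && (
  let v102 := scale ⟨4398046511104, 0, 0, 0⟩ v35; ok v102 && (
  let v103 := add v102 v99; ok v103 && (
  let v104 := inv v103; ok v104 && (
  let v105 := mul v101 v104; ok v105 && (
  let v106 := sub v0 v48; ok v106 && (
  let v107 := mul v106 v84; ok v107 && (
  let v108 := mul v107 v97; ok v108 && (
  let v109 := scale ⟨549755813888, 0, 0, 0⟩ v108; ok v109 && (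
  let v110 := add v109 v1; ok v110 && (
  let v111 := inv v110; ok v111 && (
  let v112 := mul v109 v111; ok v112 && (
  let v113 := mul v94 v109; ok v113 && (
  let v114 := add v113 v1; ok v114 && (
  let v115 := mul v114 v92; ok v115 && (
  let v116 := inv v89; ok v116 && (
  let v117 := mul v115 v116; ok v117 && (
  let v118 := mul v63 v112; ok v118 && (
  let v119 := scale ⟨549755813888, 0, 0, 0⟩ v118; ok v119 && (
  let v120 := sub v0 v119; ok v120 && (
  let v121 := sub v0 v118; ok v121 && (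
  let v122 := inv v121; ok v122 && (
  let v123 := mul v120 v122; ok v123 && (
  let v124 := add v118 v0; ok v124 && (
  let v125 := mul v48 v124; ok v125 && (
  let v126 := mul v16 v17; ok v126 && (
  let v127 := add v12 x1; ok v127 && (
  let v128 := mul v15 v12; ok v128 && (
  let v129 := mul v128 v10; ok v129 && (
  let v130 := scale ⟨2199023255552, 0, 0, 0⟩ v129; ok v130 && (
  let v131 := add v39 v130; ok v131 && (
  let v132 := mul v127 v131; ok v132 && (
  let v133 := inv v132; ok v133 && (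
  let v134 := mul v126 v133; ok v134 && (
  let v135 := mul x1 v134; ok v135 && (
  let v136 := inv v36; ok v136 && (
  let v137 := mul v75 v136; ok v137 && (
  let v138 := scale ⟨1527119872, 0, 0, 0⟩ v137; ok v138 && (
  let v139 := sub v77 v138; ok v139 && (
  let v140 := mul v137 v139; ok v140 && (
  let v141 := sub v1 v140; ok v141 && (
  let v142 := mul v137 v141; ok v142 && (
  let v143 := sub v0 v142; ok v143 && (
  let v144 := add v57 v0; ok v144 && (
  let v145 := mul v57 v57; ok v145 && (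
  let v146 := add v145 v0; ok v146 && (
  let v147 := mul v57 v143; ok v147 && (
  let v148 := scale ⟨2199023255552, 0, 0, 0⟩ v147; ok v148 && (
  let v149 := add v146 v148; ok v149 && (
  let v150 := inv v144; ok v150 && (
  let v151 := mul v149 v150; ok v151 && (
  let v152 := add v151 v144; ok v152 && (
  let v153 := mul v57 v135; ok v153 && (
  let v154 := scale ⟨549755813888, 0, 0, 0⟩ v153; ok v154 && (
  let v155 := mul v154 v152; ok v155 && (
  let v156 := sub v149 v155; ok v156 && (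
  isPos 4 v149 && (
  isPos 4 v156 && (
  let v157 := sub v0 v57; ok v157 && (
  let v158 := mul v157 v144; ok v158 && (
  let v159 := inv v156; ok v159 && (
  let v160 := mul v158 v159; ok v160 && (
  let v161 := scale ⟨549755813888, 0, 0, 0⟩ v160; ok v161 && (
  let v162 := add v161 v1; ok v162 && (
  let v163 := inv v162; ok v163 && (
  let v164 := mul v161 v163; ok v164 && (
  let v165 := mul v135 v164; ok v165 && (
  let v166 := add v4 v0; ok v166 && (
  let v167 := inv v166; ok v167 && (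
  let v168 := mul v4 v167; ok v168 && (
  let v169 := scale ⟨2199023255552, 0, 0, 0⟩ v168; ok v169 && (
  let v170 := sub v0 v169; ok v170 && (
  let v171 := sub v0 v4; ok v171 && (
  let v172 := mul x3 v167; ok v172 && (
  let v173 := mul v172 v170; ok v173 && (
  let v174 := add v17 v173; ok v174 && (
  let v175 := mul x0 v10; ok v175 && (
  let v176 := cst ⟨13194139533312, 0, 0, 0⟩; ok v176 && (
  let v177 := inv v176; ok v177 && (
  let v178 := mul x0 v177; ok v178 && (
  let v179 := cst ⟨23089744183296, 0, 0, 0⟩; ok v179 && (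
  let v180 := cst ⟨10995116277760, 0, 0, 0⟩; ok v180 && (
  let v181 := inv v180; ok v181 && (
  let v182 := mul v179 v181; ok v182 && (
  let v183 := add v178 v182; ok v183 && (
  let v184 := inv v183; ok v184 && (
  let v185 := scale ⟨224412041216, 0, 0, 0⟩ v8; ok v185 && (
  let v186 := inv v29; ok v186 && (
  let v187 := mul v185 v186; ok v187 && (
  let v188 := mul v183 v17; ok v188 && (
  let v189 := mul v188 v187; ok v189 && (
  let v190 := mul v2 v189; ok v190 && (
  let v191 := sub v0 v190; ok v191 && (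
  let v192 := inv v191; ok v192 && (
  let v193 := mul v125 v190; ok v193 && (
  let v194 := sub v0 v193; ok v194 && (
  let v195 := inv v194; ok v195 && (
  let v196 := scale ⟨3573412790272, 0, 0, 0⟩ v14; ok v196 && (
  let v197 := inv x2; ok v197 && (
  let v198 := scale ⟨339302416384, 0, 0, 0⟩ v197; ok v198 && (
  let v199 := add v196 v198; ok v199 && (
  let v200 := scale ⟨549755813888, 0, 0, 0⟩ v199; ok v200 && (
  let v201 := scale ⟨2199023255552, 0, 0, 0⟩ v76; ok v201 && (
  let v202 := add v201 v0; ok v202 && (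
  let v203 := add v76 v0; ok v203 && (
  let v204 := mul v4 v14; ok v204 && (
  let v205 := sub v0 v66; ok v205 && (
  let v206 := mul v4 v15; ok v206 && (
  let v207 := scale ⟨2199023255552, 0, 0, 0⟩ v206; ok v207 && (
  let v208 := sub v205 v207; ok v208 && (
  let v209 := mul v204 v204; ok v209 && (
  let v210 := add v208 v209; ok v210 && (
  let v211 := add v210 v0; ok v211 && (
  let v212 := scale ⟨549755813888, 0, 0, 0⟩ v211; ok v212 && (
  let v213 := scale ⟨549755813888, 0, 0, 0⟩ v30; ok v213 && (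
  let v214 := sub v8 v213; ok v214 && (
  let v215 := mul v67 v205; ok v215 && (
  let v216 := mul v215 v7; ok v216 && (
  let v217 := scale ⟨137438953472, 0, 0, 0⟩ v216; ok v217 && (
  let v218 := add v214 v217; ok v218 && (
  let v219 := mul v212 v218; ok v219 && (
  let v220 := mul v118 v123; ok v220 && (
  let v221 := add v125 v0; ok v221 && (
  let v222 := mul v221 v192; ok v222 && (
  let v223 := mul v125 v195; ok v223 && (
  let v224 := add v222 v223; ok v224 && (
  let v225 := mul v190 v224; ok v225 && (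
  let v226 := add v220 v225; ok v226 && (
  let v227 := mul v226 v76; ok v227 && (
  let v228 := mul v221 v190; ok v228 && (
  let v229 := mul v228 v192; ok v229 && (
  let v230 := add v220 v229; ok v230 && (
  let v231 := mul v230 v76; ok v231 && (
  let v232 := scale ⟨223338299392, 0, 0, 0⟩ v231; ok v232 && (
  let v233 := add v1 v232; ok v233 && (
  let v234 := mul v231 v233; ok v234 && (
  let v235 := add v0 v234; ok v235 && (
  let v236 := scale ⟨893353197568, 0, 0, 0⟩ v227; ok v236 && (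
  let v237 := add v0 v236; ok v237 && (
  let v238 := mul v227 v237; ok v238 && (
  let v239 := add v0 v238; ok v239 && (
  let v240 := mul v169 v172; ok v240 && (
  let v241 := mul v240 v202; ok v241 && (
  let v242 := mul v241 v239; ok v242 && (
  let v243 := mul v219 v235; ok v243 && (
  let v244 := add v44 v1; ok v244 && (
  let v245 := mul v242 v244; ok v245 && (
  let v246 := add v243 v245; ok v246 && (
  let v247 := add v44 v0; ok v247 && (
  let v248 := mul v242 v247; ok v248 && (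
  let v249 := mul v203 v247; ok v249 && (
  let v250 := mul v249 v172; ok v250 && (
  let v251 := mul v250 v171; ok v251 && (
  let v252 := mul v2 v174; ok v252 && (
  let v253 := inv v44; ok v253 && (
  let v254 := mul v252 v253; ok v254 && (
  let v255 := scale ⟨549755813888, 0, 0, 0⟩ v254; ok v255 && (
  let v256 := mul v61 v197; ok v256 && (
  let v257 := mul v256 v112; ok v257 && (
  let v258 := mul v257 v123; ok v258 && (
  let v259 := mul v16 v255; ok v259 && (
  let v260 := mul v246 v258; ok v260 && (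
  let v261 := mul v251 v200; ok v261 && (
  let v262 := add v260 v261; ok v262 && (
  let v263 := mul v262 v76; ok v263 && (
  let v264 := add v259 v263; ok v264 && (
  let v265 := mul v246 v221; ok v265 && (
  let v266 := mul v265 v192; ok v266 && (
  let v267 := mul v248 v125; ok v267 && (
  let v268 := mul v267 v195; ok v268 && (
  let v269 := add v266 v268; ok v269 && (
  let v270 := mul v269 v76; ok v270 && (
  let v271 := mul v16 v264; ok v271 && (
  let v272 := mul v189 v270; ok v272 && (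
  let v273 := add v271 v272; ok v273 && (
  let v274 := mul v67 v273; ok v274 && (
  let v275 := mul v274 v253; ok v275 && (
  let v276 := sub v0 v275; ok v276 && (
  let v277 := inv v276; ok v277 && (
  let v278 := mul v273 v277; ok v278 && (
  let v279 := mul x1 v278; ok v279 && (
  let v280 := mul v67 v278; ok v280 && (
  let v281 := mul v280 v253; ok v281 && (
  let v282 := sub v0 v281; ok v282 && (
  let v283 := mul v41 v282; ok v283 && (
  let v284 := sub v283 v279; ok v284 && (
  let v285 := inv v284; ok v285 && (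
  let v286 := mul v279 v285; ok v286 && (
  let v287 := sub v0 v279; ok v287 && (
  let v288 := inv v287; ok v288 && (
  let v289 := inv v30; ok v289 && (
  let v290 := mul v220 v289; ok v290 && (
  let v291 := add v105 v290; ok v291 && (
  let v292 := mul v291 v288; ok v292 && (
  let v293 := mul v292 v280; ok v293 && (
  let v294 := scale ⟨223338299392, 0, 0, 0⟩ v293; ok v294 && (
  let v295 := add v1 v294; ok v295 && (
  let v296 := mul v293 v295; ok v296 && (
  let v297 := add v0 v296; ok v297 && (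
  let v298 := mul v293 v297; ok v298 && (
  let v299 := mul v298 v117; ok v299 && (
  let v300 := mul v299 v125; ok v300 && (
  let v301 := sub v0 v300; ok v301 && (
  let v302 := mul v292 v297; ok v302 && (
  let v303 := mul v302 v277; ok v303 && (
  let v304 := mul v303 v76; ok v304 && (
  let v305 := inv v301; ok v305 && (
  let v306 := mul v304 v305; ok v306 && (
  let v307 := mul v306 x2; ok v307 && (
  let v308 := mul v246 v192; ok v308 && (
  let v309 := mul v248 v117; ok v309 && (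
  let v310 := mul v309 v125; ok v310 && (
  let v311 := mul v310 v195; ok v311 && (
  let v312 := add v308 v311; ok v312 && (
  let v313 := mul v307 v312; ok v313 && (
  let v314 := mul v246 v61; ok v314 && (
  let v315 := mul v314 v197; ok v315 && (
  let v316 := mul v315 v109; ok v316 && (
  let v317 := mul v316 v123; ok v317 && (
  let v318 := mul v306 v184; ok v318 && (
  let v319 := mul v318 x2; ok v319 && (
  let v320 := inv v17; ok v320 && (
  let v321 := mul v319 v320; ok v321 && (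
  let v322 := mul x0 v117; ok v322 && (
  let v323 := mul v322 v16; ok v323 && (
  let v324 := mul v323 v255; ok v324 && (
  let v325 := add v324 v317; ok v325 && (
  let v326 := mul v117 v251; ok v326 && (
  let v327 := mul v326 v200; ok v327 && (
  let v328 := add v325 v327; ok v328 && (
  let v329 := mul v321 v328; ok v329 && (
  let v330 := mul v183 v2; ok v330 && (
  let v331 := mul v330 v17; ok v331 && (
  let v332 := mul v331 v16; ok v332 && (
  let v333 := cst ⟨9895604649984, 0, 0, 0⟩; ok v333 && (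
  let v334 := cst ⟨21990232555520, 0, 0, 0⟩; ok v334 && (
  let v335 := inv v334; ok v335 && (
  let v336 := mul v333 v335; ok v336 && (
  let v337 := add v165 v0; ok v337 && (
  let v338 := mul v165 v337; ok v338 && (
  let v339 := add v55 v338; ok v339 && (
  let v340 := mul v286 v339; ok v340 && (
  let v341 := mul v57 v337; ok v341 && (
  let v342 := scale ⟨687194767360, 0, 0, 0⟩ v340; ok v342 && (
  let v343 := add v0 v342; ok v343 && (
  let v344 := mul v340 v343; ok v344 && (
  let v345 := add v0 v344; ok v345 && (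
  let v346 := mul v341 v345; ok v346 && (
  let v347 := add v10 x1; ok v347 && (
  let v348 := mul v166 v347; ok v348 && (
  let v349 := mul v348 v336; ok v349 && (
  let v350 := add v0 v349; ok v350 && (
  let v351 := inv v350; ok v351 && (
  let v352 := mul v346 v351; ok v352 && (
  let v353 := mul v352 v13; ok v353 && (
  let v354 := mul v2 v278; ok v354 && (
  let v355 := mul v354 v320; ok v355 && (
  let v356 := add v0 v355; ok v356 && (
  let v357 := mul v353 v356; ok v357 && (
  let v358 := sub v44 v280; ok v358 && (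
  let v359 := inv v358; ok v359 && (
  let v360 := mul v357 v359; ok v360 && (
  let v361 := mul x1 v313; ok v361 && (
  let v362 := mul v361 v190; ok v362 && (
  let v363 := mul x1 v332; ok v363 && (
  let v364 := mul v329 v363; ok v364 && (
  let v365 := add v362 v364; ok v365 && (
  let v366 := add v361 v329; ok v366 && (
  let v367 := add v0 v365; ok v367 && (
  let v368 := mul v360 v367; ok v368 && (
  let v369 := add v366 v368; ok v369 && (
  let v370 := sub v0 v369; ok v370 && (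
  let v371 := scale ⟨1073741824, 0, 0, 0⟩ x1; ok v371 && (
  let v372 := sub v370 v371; ok v372 && (
  let v373 := sub v13 v0; ok v373 && (
  let v374 := cst ⟨2199023255552, 0, 0, 0⟩; ok v374 && (
  let v375 := add v373 v374; ok v375 && (
  let v376 := scale ⟨2199023255552, 0, 0, 0⟩ v336; ok v376 && (
  let v377 := sub v375 v376; ok v377 && (
  let v378 := mul v166 v377; ok v378 && (
  let v379 := mul v373 v376; ok v379 && (
  let v380 := add v379 v0; ok v380 && (
  let v381 := inv v380; ok v381 && (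
  let v382 := mul v378 v381; ok v382 && (
  let v383 := mul v183 v270; ok v383 && (
  let v384 := scale ⟨549755813888, 0, 0, 0⟩ v187; ok v384 && (
  let v385 := add v10 v384; ok v385 && (
  let v386 := mul v383 v385; ok v386 && (
  let v387 := scale ⟨2199023255552, 0, 0, 0⟩ v386; ok v387 && (
  let v388 := add v264 v387; ok v388 && (
  let v389 := scale ⟨2199023255552, 0, 0, 0⟩ v388; ok v389 && (
  let v390 := mul v389 v277; ok v390 && (
  let v391 := sub v17 v354; ok v391 && (
  let v392 := inv v391; ok v392 && (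
  let v393 := mul v390 v392; ok v393 && (
  let v394 := sub v382 v393; ok v394 && (
  isPos 4 v191 && (
  isPos 4 v194 && (
  let v395 := scale ⟨2199023255552, 0, 0, 0⟩ v274; ok v395 && (
  let v396 := sub v44 v395; ok v396 && (
  isPos 4 v396 && (
  isPos 4 v284 && (
  isPos 4 v121 && (
  let v397 := sub v1 v165; ok v397 && (
  isPos 4 v397 && (
  let v398 := scale ⟨687194767360, 0, 0, 0⟩ v0; ok v398 && (
  let v399 := sub v398 v231; ok v399 && (
  isPos 4 v399 && (
  let v400 := scale ⟨377957122048, 0, 0, 0⟩ v0; ok v400 && (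
  let v401 := sub v400 v227; ok v401 && (
  isPos 4 v401 && (
  isPos 4 v391 && (
  let v402 := sub v1 v340; ok v402 && (
  isPos 4 v402 && (
  isPos 4 v287 && (
  isPos 4 v301 && (
  let v403 := sub v398 v293; ok v403 && (
  isPos 4 v403 && (
  isPos 4 v394 && (
  isPos 4 v372 && (
  true)))))))))))))))))))))))))))))))))))))))))))))))))))))))))))))))))))))))))))))))))))))))))))))))))))))))))))))))))))))))))))))))))))))))))))))))))))))))))))))))))))))))))))))))))))))))))))))))))))))))))))))))))))))))))))))))))))))))))))))))))))))))))))))))))))))))))))))))))))))))))))))))))))))))))))))))))))))))))))))))))))))))))))))))))))))))))))))))))))))))))))))))))))))))))))))))))))))))))))))))))))))))))))))))))))))))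
  | _ => false

set_option maxRecDepth 1000000 in
theorem chk5_eq (O : Ops) (m : List O.α)
    (h : chk5 O.cst O.add O.sub O.mul O.scale O.neg O.inv O.exp O.log O.ok O.isPos O.isLt m = true) :
    runG O 4 prog5 m = true := by
  match m, h with
  | [x0, x1, x2, x3], h => exact h

def chkB5 : List opsE.α → Bool :=
  chk5 opsE.cst opsE.add opsE.sub opsE.mul opsE.scale opsE.neg opsE.inv opsE.exp opsE.log opsE.ok opsE.isPos opsE.isLt

theorem chkB5_eq (m : List opsE.α) (h : chkB5 m = true) : runG opsE 4 prog5 m = true :=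
  chk5_eq opsE m h

def prog6 : List Op := [
  .const ⟨1099511627776, 0, 0, 0⟩,
  .mul 2 3,
  .mul 0 5,
  .scale ⟨549755813888, 0, 0, 0⟩ 0,
  .mul 0 0,
  .sub 4 0,
  .inv 0,
  .mul 3 0,
  .scale ⟨2199023255552, 0, 0, 0⟩ 0,
  .scale ⟨10774999203840, 0, 0, 0⟩ 5,
  .scale ⟨549755813888, 0, 0, 0⟩ 9,
  .scale ⟨45768245248, 0, 0, 0⟩ 1,
  .const ⟨183207198720, 0, 0, 0⟩,
  .add 1 0,
  .mul 4 0,
  .add 4 0,
  .mul 6 0,
  .add 16 0,
  .mul 8 0,
  .scale ⟨549755813888, 0, 0, 0⟩ 0,
  .add 19 0,
  .mul 3 0,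
  .scale ⟨224412041216, 0, 0, 0⟩ 15,
  .inv 1,
  .mul 1 0,
  .sub 26 16,
  .sub 0 1,
  .pos 0]

def chk6 {α : Type} (cst : Z → α) (add sub mul : α → α → α) (scale : Z → α → α)
    (neg inv exp log : α → α) (ok : α → Bool) (isPos : Nat → α → Bool) (isLt : α → Nat → Bool) :
    List α → Bool
  | [x0, x1, x2, x3] =>
  let v0 := cst ⟨1099511627776, 0, 0, 0⟩; ok v0 && (
  let v1 := mul x1 x2; ok v1 && (
  let v2 := mul v1 x3; ok v2 && (
  let v3 := scale ⟨549755813888, 0, 0, 0⟩ v2; ok v3 && (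
  let v4 := mul v3 v3; ok v4 && (
  let v5 := sub v0 v4; ok v5 && (
  let v6 := inv v5; ok v6 && (
  let v7 := mul v3 v6; ok v7 && (
  let v8 := scale ⟨2199023255552, 0, 0, 0⟩ v7; ok v8 && (
  let v9 := scale ⟨10774999203840, 0, 0, 0⟩ v3; ok v9 && (
  let v10 := scale ⟨549755813888, 0, 0, 0⟩ v0; ok v10 && (
  let v11 := scale ⟨45768245248, 0, 0, 0⟩ v9; ok v11 && (
  let v12 := cst ⟨183207198720, 0, 0, 0⟩; ok v12 && (
  let v13 := add v11 v12; ok v13 && (
  let v14 := mul v9 v13; ok v14 && (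
  let v15 := add v10 v14; ok v15 && (
  let v16 := mul v9 v15; ok v16 && (
  let v17 := add v0 v16; ok v17 && (
  let v18 := mul v9 v17; ok v18 && (
  let v19 := scale ⟨549755813888, 0, 0, 0⟩ v18; ok v19 && (
  let v20 := add v0 v19; ok v20 && (
  let v21 := mul v17 v20; ok v21 && (
  let v22 := scale ⟨224412041216, 0, 0, 0⟩ v6; ok v22 && (
  let v23 := inv v21; ok v23 && (
  let v24 := mul v22 v23; ok v24 && (
  let v25 := sub x1 v8; ok v25 && (
  let v26 := sub v25 v24; ok v26 && (
  isPos 4 v26 && (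
  true))))))))))))))))))))))))))))
  | _ => false

set_option maxRecDepth 1000000 in
theorem chk6_eq (O : Ops) (m : List O.α)
    (h : chk6 O.cst O.add O.sub O.mul O.scale O.neg O.inv O.exp O.log O.ok O.isPos O.isLt m = true) :
    runG O 4 prog6 m = true := by
  match m, h with
  | [x0, x1, x2, x3], h => exact h

def chkB6 : List opsE.α → Bool :=
  chk6 opsE.cst opsE.add opsE.sub opsE.mul opsE.scale opsE.neg opsE.inv opsE.exp opsE.log opsE.ok opsE.isPos opsE.isLt

theorem chkB6_eq (m : List opsE.α) (h : chkB6 m = true) : runG opsE 4 prog6 m = true :=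
  chk6_eq opsE m h

def prog7 : List Op := [
  .const ⟨1099511627776, 0, 0, 0⟩,
  .mul 2 3,
  .mul 0 5,
  .scale ⟨549755813888, 0, 0, 0⟩ 0,
  .mul 0 0,
  .sub 4 0,
  .inv 0,
  .mul 3 0,
  .scale ⟨2199023255552, 0, 0, 0⟩ 0,
  .mul 9 0,
  .const ⟨554050781184, 0, 0, 0⟩,
  .sub 1 0,
  .pos 0]

def chk7 {α : Type} (cst : Z → α) (add sub mul : α → α → α) (scale : Z → α → α)
    (neg inv exp log : α → α) (ok : α → Bool) (isPos : Nat → α → Bool) (isLt : α → Nat → Bool) :
    List α → Bool
  | [x0, x1, x2, x3] =>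
  let v0 := cst ⟨1099511627776, 0, 0, 0⟩; ok v0 && (
  let v1 := mul x1 x2; ok v1 && (
  let v2 := mul v1 x3; ok v2 && (
  let v3 := scale ⟨549755813888, 0, 0, 0⟩ v2; ok v3 && (
  let v4 := mul v3 v3; ok v4 && (
  let v5 := sub v0 v4; ok v5 && (
  let v6 := inv v5; ok v6 && (
  let v7 := mul v3 v6; ok v7 && (
  let v8 := scale ⟨2199023255552, 0, 0, 0⟩ v7; ok v8 && (
  let v9 := mul x0 v8; ok v9 && (
  let v10 := cst ⟨554050781184, 0, 0, 0⟩; ok v10 && (
  let v11 := sub v9 v10; ok v11 && (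
  isPos 4 v11 && (
  true)))))))))))))
  | _ => false

set_option maxRecDepth 1000000 in
theorem chk7_eq (O : Ops) (m : List O.α)
    (h : chk7 O.cst O.add O.sub O.mul O.scale O.neg O.inv O.exp O.log O.ok O.isPos O.isLt m = true) :
    runG O 4 prog7 m = true := by
  match m, h with
  | [x0, x1, x2, x3], h => exact h

def chkB7 : List opsE.α → Bool :=
  chk7 opsE.cst opsE.add opsE.sub opsE.mul opsE.scale opsE.neg opsE.inv opsE.exp opsE.log opsE.ok opsE.isPos opsE.isLt

theorem chkB7_eq (m : List opsE.α) (h : chkB7 m = true) : runG opsE 4 prog7 m = true :=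
  chk7_eq opsE m h

def progs : List (List Op) := [prog0, prog1, prog2, prog3, prog4, prog5, prog6, prog7]

def chks : List (List opsE.α → Bool) := [chkB0, chkB1, chkB2, chkB3, chkB4, chkB5, chkB6, chkB7]

theorem chks_eq : List.Forall₂ (fun (ops : List Op) (chk : List opsE.α → Bool) =>
    ∀ m, chk m = true → runG opsE 4 ops m = true) progs chks :=
  List.Forall₂.cons chkB0_eq (List.Forall₂.cons chkB1_eq (List.Forall₂.cons chkB2_eq (List.Forall₂.cons chkB3_eq (List.Forall₂.cons chkB4_eq (List.Forall₂.cons chkB5_eq (List.Forall₂.cons chkB6_eq (List.Forall₂.cons chkB7_eq List.Forall₂.nil)))))))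

end Pool.Agent.helper71.FF.Crt.S
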