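import Pool.Agent.helper71.FF.Dom
import Pool.Agent.helper71.FF.Crt.SP

/-!
Generated: meaning of the programs.
-/

namespace Pool.Agent.helper71.FF

open Complex Pool.Agent.helper31.EQ.Y Pool.Agent.helper31.EQ.R
open Pool.Agent.helper12.EQL Pool.Agent.helper12.RP Pool.Agent.helper12.FF Pool.Agent.helper63.FF
open Pool.Agent.helper31.IA (Z Op InBox)

theorem zS_1073741824_0 : (1 / 1024 : ℝ) = zv 1073741824 0 := by unfold zv; norm_num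

theorem zS_1527119872_0 : (11651 / 8388608 : ℝ) = zv 1527119872 0 := by unfold zv; norm_num

theorem zS_45768245248_0 : (341 / 8192 : ℝ) = zv 45768245248 0 := by unfold zv; norm_num

theorem zS_45812285440_0 : (21845 / 524288 : ℝ) = zv 45812285440 0 := by unfold zv; norm_num

theorem zS_137438953472_0 : (1 / 8 : ℝ) = zv 137438953472 0 := by unfold zv; norm_num

theorem zS_183207198720_0 : (1365 / 8192 : ℝ) = zv 183207198720 0 := by unfold zv; norm_num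

theorem zS_183274307584_0 : (2731 / 16384 : ℝ) = zv 183274307584 0 := by unfold zv; norm_num

theorem zS_223338299392_0 : (13 / 64 : ℝ) = zv 223338299392 0 := by unfold zv; norm_num

theorem zS_224412041216_0 : (209 / 1024 : ℝ) = zv 224412041216 0 := by unfold zv; norm_num

theorem zS_339302416384_0 : (79 / 256 : ℝ) = zv 339302416384 0 := by unfold zv; norm_num

theorem zS_377957122048_0 : (11 / 32 : ℝ) = zv 377957122048 0 := by unfold zv; norm_num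

theorem zS_412316860416_0 : (3 / 8 : ℝ) = zv 412316860416 0 := by unfold zv; norm_num

theorem zS_549755813888_0 : (1 / 2 : ℝ) = zv 549755813888 0 := by unfold zv; norm_num

theorem zS_554050781184_0 : (129 / 256 : ℝ) = zv 554050781184 0 := by unfold zv; norm_num

theorem zS_687194767360_0 : (5 / 8 : ℝ) = zv 687194767360 0 := by unfold zv; norm_num

theorem zS_733365665792_0 : (683 / 1024 : ℝ) = zv 733365665792 0 := by unfold zv; norm_num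

theorem zS_893353197568_0 : (13 / 16 : ℝ) = zv 893353197568 0 := by unfold zv; norm_num

theorem zS_1099511627776_0 : (1 : ℝ) = zv 1099511627776 0 := by unfold zv; norm_num

theorem zS_1374389534720_0 : (5 / 4 : ℝ) = zv 1374389534720 0 := by unfold zv; norm_num

theorem zS_1546188226560_0 : (45 / 32 : ℝ) = zv 1546188226560 0 := by unfold zv; norm_num

theorem zS_1649267441664_0 : (3 / 2 : ℝ) = zv 1649267441664 0 := by unfold zv; norm_num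

theorem zS_2199023255552_0 : (2 : ℝ) = zv 2199023255552 0 := by unfold zv; norm_num

theorem zS_3092376453120_0 : (45 / 16 : ℝ) = zv 3092376453120 0 := by unfold zv; norm_num

theorem zS_3573412790272_0 : (13 / 4 : ℝ) = zv 3573412790272 0 := by unfold zv; norm_num

theorem zS_4398046511104_0 : (4 : ℝ) = zv 4398046511104 0 := by unfold zv; norm_num

theorem zS_6597069766656_0 : (6 : ℝ) = zv 6597069766656 0 := by unfold zv; norm_num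

theorem zS_9895604649984_0 : (9 : ℝ) = zv 9895604649984 0 := by unfold zv; norm_num

theorem zS_10774999203840_0 : (10035 / 1024 : ℝ) = zv 10774999203840 0 := by unfold zv; norm_num

theorem zS_10995116277760_0 : (10 : ℝ) = zv 10995116277760 0 := by unfold zv; norm_num

theorem zS_13194139533312_0 : (12 : ℝ) = zv 13194139533312 0 := by unfold zv; norm_num

theorem zS_21990232555520_0 : (20 : ℝ) = zv 21990232555520 0 := by unfold zv; norm_num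

theorem zS_23089744183296_0 : (21 : ℝ) = zv 23089744183296 0 := by unfold zv; norm_num

theorem far_S0 {κ : ℝ} {τ : ℂ} {R w : ℝ} {E : Set ℂ} (D : PtD κ τ R w) {v : B1}
    (G : Geo κ (shf κ τ) v) (v2 : B2 v) (he2 : 2 ≤ v.e) (h : RAs Pool.Agent.helper71.FF.Crt.S.prog0 [v.e, v.t, v.u, v.n])
    (hE : ∀ τ' : ℂ, 0 < τ'.re → τ' ∈ E) :
    FarPt v.e κ (1 - Real.sinh κ / 1024) w (2 * AS v.e v.K * Real.sinh κ ^ 2) R E τ := by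
  obtain ⟨A, e_A⟩ : ∃ zz : ℝ, zz = v.e * (12 : ℝ)⁻¹ + (21 : ℝ) * (10 : ℝ)⁻¹ := ⟨_, rfl⟩
  obtain ⟨iA, e_iA⟩ : ∃ zz : ℝ, zz = A⁻¹ := ⟨_, rfl⟩
  obtain ⟨hA, hiA, hAe⟩ := ab_S G v2 e_A e_iA
  rw [hAe]
  obtain ⟨b⟩ := exGB v.q v.x v.h1
  obtain ⟨v3⟩ := exB3 v
  obtain ⟨b'⟩ := exGB v.qp v3.xp v3.hp
  obtain ⟨v4⟩ := exB4 v3 b'
  obtain ⟨hb⟩ := exHB v b
  obtain ⟨i2, e_i2⟩ : ∃ zz : ℝ, zz = (v2.eK + (2 : ℝ))⁻¹ := ⟨_, rfl⟩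
  obtain ⟨z, e_z⟩ : ∃ zz : ℝ, zz = v.om1 * v.e * v.t * i2 := ⟨_, rfl⟩
  obtain ⟨kz, e_kz⟩ : ∃ zz : ℝ, zz = ((1 : ℝ) - (1 / 2) * z) * ((1 : ℝ) - z)⁻¹ := ⟨_, rfl⟩
  obtain ⟨kk, e_kk⟩ : ∃ zz : ℝ, zz = kz * i2 * v.e := ⟨_, rfl⟩
  obtain ⟨phu, e_phu⟩ : ∃ zz : ℝ, zz = v.t * v.nj * kk := ⟨_, rfl⟩
  obtain ⟨lf, e_lf⟩ : ∃ zz : ℝ, zz = z * kz := ⟨_, rfl⟩
  obtain ⟨phut, e_phut⟩ : ∃ zz : ℝ, zz = v.nj * kk := ⟨_, rfl⟩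
  obtain ⟨L, e_L⟩ : ∃ zz : ℝ, zz = lf * v.ei := ⟨_, rfl⟩
  obtain ⟨Ei, e_Ei⟩ : ∃ zz : ℝ, zz = (1 : ℝ) + L * ((45 / 16) * L + (2 : ℝ)) := ⟨_, rfl⟩
  obtain ⟨Eh, e_Eh⟩ : ∃ zz : ℝ, zz = (1 : ℝ) + L * ((45 / 32) * L + (1 : ℝ)) := ⟨_, rfl⟩
  obtain ⟨m⟩ := exMid v v2 b A hb.g hb.ga phu Ei Eh
  obtain ⟨c⟩ := exCH hb m v4 iA phut
  obtain ⟨p_o2, s0⟩ := (((((((h
    (1 : ℝ) zS_1099511627776_0
    (1 / 2 : ℝ) zS_549755813888_0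
    v.tu v.e_tu
    (v.tu * v.n) rfl
    v.h (v.e_h.trans (congrArg (fun y : ℝ => y * (v.tu * v.n)) zS_549755813888_0))
    v.u2 v.e_u2
    (v.h * v.h) rfl
    v.jm v.e_jm).2
    v.j v.e_j
    (v.h * v.j) rfl
    v.K (v.e_K.trans (congrArg (fun y : ℝ => y * (v.h * v.j)) zS_2199023255552_0))
    (2 * v.j) (congrArg (fun y : ℝ => y * v.j) zS_2199023255552_0)
    v.c0 v.e_c0
    v.m v.e_m
    v.nj v.e_nj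
    v.om v.e_om
    v.om1 v.e_om1
    v.op1 v.e_op1
    v2.Y (v2.e_Y.trans (congrArg (fun y : ℝ => y * v.h) zS_10774999203840_0))
    ((341 / 8192) * v2.Y) (congrArg (fun y : ℝ => y * v2.Y) zS_45768245248_0)
    (1365 / 8192 : ℝ) zS_183207198720_0
    ((341 / 8192) * v2.Y + (1365 / 8192 : ℝ)) rfl
    (v2.Y * ((341 / 8192) * v2.Y + (1365 / 8192 : ℝ))) rfl
    ((1 / 2 : ℝ) + v2.Y * ((341 / 8192) * v2.Y + (1365 / 8192 : ℝ))) rfl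
    (v2.Y * ((1 / 2 : ℝ) + v2.Y * ((341 / 8192) * v2.Y + (1365 / 8192 : ℝ)))) rfl
    v2.pY v2.e_pY
    (v2.Y * v2.pY) rfl
    ((1 / 2) * (v2.Y * v2.pY)) (congrArg (fun y : ℝ => y * (v2.Y * v2.pY)) zS_549755813888_0)
    ((1 : ℝ) + (1 / 2) * (v2.Y * v2.pY)) rfl
    v2.Yp v2.e_Yp
    v.R v.e_R
    (v.K * v.om) rfl
    (2 * v.c0) (congrArg (fun y : ℝ => y * v.c0) zS_2199023255552_0)
    (v.K * v.om + 2 * v.c0) rfl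
    v.Dt v.e_Dt
    v.D v.e_D
    v.SQ v.e_SQ
    (v.K * v.K) rfl
    (2 * (v.K * v.K)) (congrArg (fun y : ℝ => y * (v.K * v.K)) zS_2199023255552_0)
    v.c2 v.e_c2
    (v.c0 * v.Dt) rfl
    v.rhat v.e_rhat).2
    v.LQ v.e_LQ
    ((1 / 2) * v.LQ) (congrArg (fun y : ℝ => y * v.LQ) zS_549755813888_0)
    v.aQ v.e_aQ
    v.ee (v.e_ee.trans (congrArg (fun y : ℝ => y * v.e) zS_549755813888_0))
    v.rho v.e_rho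
    (-v.rho) rfl
    v.q v.e_q
    (v.c0 * v.R) rfl
    (v.c0 * v.R * v.rhat) rfl
    v.D2 (v.e_D2.trans (congrArg (fun y : ℝ => y * (v.c0 * v.R * v.rhat)) zS_4398046511104_0))
    (v.D2 + (1 : ℝ)) rfl).2
    (Real.log (v.D2 + (1 : ℝ))) rfl
    v.L2 v.e_L2
    v.rp v.e_rp
    (-v.rp) rfl
    v.qp v.e_qp
    (v.om * v.K) rfl
    (v.c0 + v.om * v.K) rfl).2
    v.ioK v.e_ioK
    v.h1t v.e_h1t
    (v.om1 * v.t) rfl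
    v.h1 v.e_h1
    v.nj2 v.e_nj2
    ((1 : ℝ) - v.u2) rfl
    v.f2 v.e_f2
    v.tu2 v.e_tu2
    (v.c0 + v.R) rfl).2
    ((v.c0 + v.R)⁻¹) rfl
    v.w v.e_w
    (v.w * v.w) rfl
    (v.tu2 * ((1 : ℝ) - v.u2)) rfl
    ((1 : ℝ) - v.nj2) rfl
    (v.tu2 * ((1 : ℝ) - v.u2) * ((1 : ℝ) - v.nj2)) rfl
    v.x v.e_x).2
    v.ei v.e_ei
    (21845 / 524288 : ℝ) zS_45812285440_0
    ((11651 / 8388608) * v.x) (congrArg (fun y : ℝ => y * v.x) zS_1527119872_0)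
    ((21845 / 524288 : ℝ) - (11651 / 8388608) * v.x) rfl
    (v.x * ((21845 / 524288 : ℝ) - (11651 / 8388608) * v.x)) rfl
    ((1 / 2 : ℝ) - v.x * ((21845 / 524288 : ℝ) - (11651 / 8388608) * v.x)) rfl
    (v.x * ((1 / 2 : ℝ) - v.x * ((21845 / 524288 : ℝ) - (11651 / 8388608) * v.x))) rfl
    b.cc b.e_cc
    b.q1 b.e_q1
    (v.q * v.q) rfl
    (v.q * v.q + (1 : ℝ)) rfl
    (v.q * b.cc) rfl
    (2 * (v.q * b.cc)) (congrArg (fun y : ℝ => y * (v.q * b.cc)) zS_2199023255552_0)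
    b.o2 b.e_o2).2
    (b.q1⁻¹) rfl
    (b.o2 * b.q1⁻¹) rfl
    b.P1 b.e_P1
    (v.q * v.h1) rfl
    b.qh (b.e_qh.trans (congrArg (fun y : ℝ => y * (v.q * v.h1)) zS_549755813888_0))
    (b.qh * b.P1) rfl
    b.W b.e_W
  change 0 < b.o2 at p_o2
  obtain ⟨p_W, s1⟩ := s0
  change 0 < b.W at p_W
  obtain ⟨p_o2p, s2⟩ := ((((((((s1).2
    hb.iW hb.e_iW
    (v.ee * v.Dt) rfl
    (6 : ℝ) zS_6597069766656_0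
    (v.D + (6 : ℝ)) rfl
    (v.ee * v.Dt * (v.D + (6 : ℝ))) rfl
    (4 * v.D) (congrArg (fun y : ℝ => y * v.D) zS_4398046511104_0)
    (4 * v.D + (6 : ℝ)) rfl).2
    ((4 * v.D + (6 : ℝ))⁻¹) rfl
    hb.rhoR hb.e_rhoR
    (v.R * hb.rhoR) rfl
    hb.x2 (hb.e_x2.trans (congrArg (fun y : ℝ => y * (v.R * hb.rhoR)) zS_2199023255552_0))
    ((2731 / 16384) * hb.x2) (congrArg (fun y : ℝ => y * hb.x2) zS_183274307584_0)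
    ((1 / 2 : ℝ) - (2731 / 16384) * hb.x2) rfl
    (hb.x2 * ((1 / 2 : ℝ) - (2731 / 16384) * hb.x2)) rfl
    ((1 : ℝ) - hb.x2 * ((1 / 2 : ℝ) - (2731 / 16384) * hb.x2)) rfl
    (hb.rhoR * ((1 : ℝ) - hb.x2 * ((1 / 2 : ℝ) - (2731 / 16384) * hb.x2))) rfl
    hb.G hb.e_G
    hb.g hb.e_g
    (hb.g + (1 / 2 : ℝ)) rfl).2
    ((hb.g + (1 / 2 : ℝ))⁻¹) rfl
    hb.gR hb.e_gR
    hb.ga hb.e_ga
    (b.qh * hb.g) rfl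
    (b.qh * hb.g + (1 / 2 : ℝ)) rfl
    ((b.qh * hb.g + (1 / 2 : ℝ)) * b.P1) rfl).2
    (b.o2⁻¹) rfl
    m.fa m.e_fa
    m.hg m.e_hg
    ((1 / 2) * m.hg) (congrArg (fun y : ℝ => y * m.hg) zS_549755813888_0)
    ((1 : ℝ) - (1 / 2) * m.hg) rfl
    ((1 : ℝ) - m.hg) rfl).2
    (((1 : ℝ) - m.hg)⁻¹) rfl
    m.lsf m.e_lsf
    (m.hg + (1 : ℝ)) rfl
    m.Qb m.e_Qb
    (v.om1 * v.op1) rfl
    (v.c0 + v.t) rfl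
    (v.om * v.c0) rfl
    (v.om * v.c0 * v.K) rfl
    (2 * (v.om * v.c0 * v.K)) (congrArg (fun y : ℝ => y * (v.om * v.c0 * v.K)) zS_2199023255552_0)
    (v.c2 + 2 * (v.om * v.c0 * v.K)) rfl
    ((v.c0 + v.t) * (v.c2 + 2 * (v.om * v.c0 * v.K))) rfl).2
    (((v.c0 + v.t) * (v.c2 + 2 * (v.om * v.c0 * v.K)))⁻¹) rfl
    v3.hpt v3.e_hpt
    v3.hp v3.e_hp).2
    (v.SQ⁻¹) rfl
    v3.xp v3.e_xp
    ((11651 / 8388608) * v3.xp) (congrArg (fun y : ℝ => y * v3.xp) zS_1527119872_0)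
    ((21845 / 524288 : ℝ) - (11651 / 8388608) * v3.xp) rfl
    (v3.xp * ((21845 / 524288 : ℝ) - (11651 / 8388608) * v3.xp)) rfl
    ((1 / 2 : ℝ) - v3.xp * ((21845 / 524288 : ℝ) - (11651 / 8388608) * v3.xp)) rfl
    (v3.xp * ((1 / 2 : ℝ) - v3.xp * ((21845 / 524288 : ℝ) - (11651 / 8388608) * v3.xp))) rfl
    b'.cc b'.e_cc
    b'.q1 b'.e_q1
    (v.qp * v.qp) rfl
    (v.qp * v.qp + (1 : ℝ)) rfl
    (v.qp * b'.cc) rfl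
    (2 * (v.qp * b'.cc)) (congrArg (fun y : ℝ => y * (v.qp * b'.cc)) zS_2199023255552_0)
    b'.o2 b'.e_o2).2
    (b'.q1⁻¹) rfl
    (b'.o2 * b'.q1⁻¹) rfl
    b'.P1 b'.e_P1
    (v.qp * v3.hp) rfl
    b'.qh (b'.e_qh.trans (congrArg (fun y : ℝ => y * (v.qp * v3.hp)) zS_549755813888_0))
    (b'.qh * b'.P1) rfl
    b'.W b'.e_W
  change 0 < b'.o2 at p_o2p
  obtain ⟨p_Wp, s3⟩ := s2
  change 0 < b'.W at p_Wp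
  obtain ⟨p_z1, s4⟩ := (((((((((((s3
    ((1 : ℝ) - v.qp) rfl
    (((1 : ℝ) - v.qp) * b'.q1) rfl).2
    (b'.W⁻¹) rfl
    (((1 : ℝ) - v.qp) * b'.q1 * b'.W⁻¹) rfl
    v4.gp (v4.e_gp.trans (congrArg (fun y : ℝ => y * (((1 : ℝ) - v.qp) * b'.q1 * b'.W⁻¹)) zS_549755813888_0))
    (v4.gp + (1 / 2 : ℝ)) rfl).2
    ((v4.gp + (1 / 2 : ℝ))⁻¹) rfl
    v4.gap v4.e_gap
    v4.hgp v4.e_hgp
    (v.h + (1 : ℝ)) rfl).2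
    v2.ih v2.e_ih
    (v.h * v2.ih) rfl
    v2.rh (v2.e_rh.trans (congrArg (fun y : ℝ => y * (v.h * v2.ih)) zS_2199023255552_0))
    v2.mi v2.e_mi
    v2.hm v2.e_hm
    v2.nih v2.e_nih
    (v2.nih * v2.mi) rfl
    v2.bsum v2.e_bsum
    v2.eK v2.e_eK
    (12 : ℝ) zS_13194139533312_0).2
    ((12 : ℝ)⁻¹) rfl
    (v.e * (12 : ℝ)⁻¹) rfl
    (21 : ℝ) zS_23089744183296_0
    (10 : ℝ) zS_10995116277760_0).2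
    ((10 : ℝ)⁻¹) rfl
    ((21 : ℝ) * (10 : ℝ)⁻¹) rfl
    A e_A).2
    iA e_iA
    ((209 / 1024) * v.j) (congrArg (fun y : ℝ => y * v.j) zS_224412041216_0)).2
    (v2.Yp⁻¹) rfl
    v2.lm v2.e_lm
    (A * v.op1) rfl
    m.Xe m.e_Xe
    m.XM m.e_XM
    ((1 : ℝ) - m.XM) rfl).2
    m.iX m.e_iX
    m.QX m.e_QX
    ((1 : ℝ) - m.QX) rfl).2
    m.iQX m.e_iQX
    (2 : ℝ) zS_2199023255552_0
    (v2.eK + (2 : ℝ)) rfl).2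
    i2 e_i2
    (v.om1 * v.e) rfl
    (v.om1 * v.e * v.t) rfl
    z e_z
    ((1 / 2) * z) (congrArg (fun y : ℝ => y * z) zS_549755813888_0)
    ((1 : ℝ) - (1 / 2) * z) rfl
    ((1 : ℝ) - z) rfl).2
    (((1 : ℝ) - z)⁻¹) rfl
    kz e_kz
    (kz * i2) rfl
    kk e_kk
    (v.t * v.nj) rfl
    phu e_phu
    lf e_lf
    phut e_phut
  change 0 < (1 : ℝ) - z at p_z1
  obtain ⟨p_L, s5⟩ := s4
    L e_L
    ((5 / 4) * L) (congrArg (fun y : ℝ => y * L) zS_1374389534720_0)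
    ((1 / 2 : ℝ) - (5 / 4) * L) rfl
  change 0 < (1 / 2 : ℝ) - (5 / 4) * L at p_L
  obtain ⟨p_XM, s6⟩ := ((((((((((((s5
    ((45 / 16) * L) (congrArg (fun y : ℝ => y * L) zS_3092376453120_0)
    ((45 / 16) * L + (2 : ℝ)) rfl
    (L * ((45 / 16) * L + (2 : ℝ))) rfl
    Ei e_Ei
    ((45 / 32) * L) (congrArg (fun y : ℝ => y * L) zS_1546188226560_0)
    ((45 / 32) * L + (1 : ℝ)) rfl
    (L * ((45 / 32) * L + (1 : ℝ))) rfl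
    Eh e_Eh
    (v.h * v.nj) rfl
    ((1 : ℝ) - v.f2) rfl
    (v.h * v.om) rfl
    (2 * (v.h * v.om)) (congrArg (fun y : ℝ => y * (v.h * v.om)) zS_2199023255552_0)
    ((1 : ℝ) - v.f2 - 2 * (v.h * v.om)) rfl
    (v.h * v.nj * (v.h * v.nj)) rfl
    m.N1 m.e_N1
    (m.N1 + (1 : ℝ)) rfl
    m.s (m.e_s.trans (congrArg (fun y : ℝ => y * (m.N1 + (1 : ℝ))) zS_549755813888_0))
    ((1 / 2) * v.R) (congrArg (fun y : ℝ => y * v.R) zS_549755813888_0)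
    (v.j - (1 / 2) * v.R) rfl
    (v.tu2 * ((1 : ℝ) - v.f2)) rfl
    (v.tu2 * ((1 : ℝ) - v.f2) * v.jm) rfl
    ((1 / 8) * (v.tu2 * ((1 : ℝ) - v.f2) * v.jm)) (congrArg (fun y : ℝ => y * (v.tu2 * ((1 : ℝ) - v.f2) * v.jm)) zS_137438953472_0)
    (v.j - (1 / 2) * v.R + (1 / 8) * (v.tu2 * ((1 : ℝ) - v.f2) * v.jm)) rfl
    m.k0 m.e_k0
    (v.om1 * v.h1t) rfl
    (v.om1 * v.h1t * v.tu) rfl
    (v.om1 * v.h1t * v.tu * hb.gR) rfl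
    (v.om1 * v.h1t * v.tu * hb.gR * m.lsf) rfl
    m.ls (ls_H m)
    m.Q1 m.e_Q1
    (m.Q1 * m.iX) rfl
    (m.Qb * m.iQX) rfl
    (m.Q1 * m.iX + m.Qb * m.iQX) rfl
    (m.XM * (m.Q1 * m.iX + m.Qb * m.iQX)) rfl
    (m.ls + m.XM * (m.Q1 * m.iX + m.Qb * m.iQX)) rfl
    m.a0 m.e_a0
    (m.Q1 * m.XM) rfl
    (m.Q1 * m.XM * m.iX) rfl
    (m.ls + m.Q1 * m.XM * m.iX) rfl
    m.l1 m.e_l1
    ((13 / 64) * m.l1) (congrArg (fun y : ℝ => y * m.l1) zS_223338299392_0)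
    ((1 / 2 : ℝ) + (13 / 64) * m.l1) rfl
    (m.l1 * ((1 / 2 : ℝ) + (13 / 64) * m.l1)) rfl
    m.Na m.e_Na
    ((13 / 16) * m.a0) (congrArg (fun y : ℝ => y * m.a0) zS_893353197568_0)
    ((1 : ℝ) + (13 / 16) * m.a0) rfl
    (m.a0 * ((1 : ℝ) + (13 / 16) * m.a0)) rfl
    m.Nb m.e_Nb
    (v2.rh * v2.nih) rfl
    (v2.rh * v2.nih * Ei) rfl
    m.rn m.e_rn
    (m.k0 * m.Na) rfl
    (v.aQ + (1 / 2 : ℝ)) rfl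
    (m.rn * (v.aQ + (1 / 2 : ℝ))) rfl
    m.ka m.e_ka
    (v.aQ + (1 : ℝ)) rfl
    m.kb m.e_kb
    (Eh * (v.aQ + (1 : ℝ))) rfl
    (Eh * (v.aQ + (1 : ℝ)) * v2.nih) rfl
    m.lfk m.e_lfk
    (v.tu * v2.bsum) rfl).2
    (v.aQ⁻¹) rfl
    (v.tu * v2.bsum * v.aQ⁻¹) rfl
    m.bte (m.e_bte.trans (congrArg (fun y : ℝ => y * (v.tu * v2.bsum * v.aQ⁻¹)) zS_549755813888_0))
    (v.h1t * v.tu) rfl
    (v.h1t * v.tu * hb.gR) rfl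
    m.lsi (lsi_H G m)
    (v.om1 * m.bte) rfl
    (m.ka * m.lsi) rfl
    (m.lfk * phu) rfl
    (m.ka * m.lsi + m.lfk * phu) rfl
    ((m.ka * m.lsi + m.lfk * phu) * v.ei) rfl
    m.src m.e_src
    (m.ka * m.Q1) rfl
    (m.ka * m.Q1 * m.iX) rfl
    (m.kb * m.Qb) rfl
    (m.kb * m.Qb * m.iQX) rfl
    (m.ka * m.Q1 * m.iX + m.kb * m.Qb * m.iQX) rfl
    m.fx m.e_fx
    (v.om1 * m.src) rfl
    (m.Xe * m.fx) rfl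
    m.eps m.e_eps
    (v.tu2 * m.eps) rfl
    (v.tu2 * m.eps * v.aQ⁻¹) rfl
    ((1 : ℝ) - v.tu2 * m.eps * v.aQ⁻¹) rfl).2
    m.NN m.e_NN
    m.eN m.e_eN
    m.d m.e_d
    m.eta m.e_eta
    (m.eta * v.aQ⁻¹) rfl
    ((1 : ℝ) - m.eta * v.aQ⁻¹) rfl
    (v.rhat * ((1 : ℝ) - m.eta * v.aQ⁻¹)) rfl
    m.rl m.e_rl).2
    m.irl m.e_irl
    m.yy m.e_yy
    ((1 : ℝ) - m.d) rfl).2
    c.od c.e_od
    (v.h1 * hb.gR) rfl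
    c.lsR c.e_lsR
    (hb.rhoR + c.lsR) rfl
    c.PR c.e_PR
    c.dP c.e_dP
    ((13 / 64) * c.dP) (congrArg (fun y : ℝ => y * c.dP) zS_223338299392_0)
    ((1 / 2 : ℝ) + (13 / 64) * c.dP) rfl
    (c.dP * ((1 / 2 : ℝ) + (13 / 64) * c.dP)) rfl
    c.Ee c.e_Ee
    (c.dP * c.Ee) rfl
    (c.dP * c.Ee * m.fa) rfl
    (c.dP * c.Ee * m.fa * m.Qb) rfl
    c.den c.e_den
    (c.PR * c.Ee) rfl
    (c.PR * c.Ee * m.NN) rfl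
    (c.PR * c.Ee * m.NN * v.ei) rfl).2
    (c.den⁻¹) rfl
    c.C c.e_C
    (c.C * v.u) rfl
    (m.ka * m.iX) rfl
    (m.kb * m.fa) rfl
    (m.kb * m.fa * m.Qb) rfl
    (m.kb * m.fa * m.Qb * m.iQX) rfl
    (m.ka * m.iX + m.kb * m.fa * m.Qb * m.iQX) rfl
    c.fbt c.e_fbt
    (m.ka * v.h1t) rfl
    (v.tu * hb.G) rfl
    (m.ka * v.h1t * (v.tu * hb.G)) rfl
    c.sl c.e_sl
    (A * v.tu) rfl
    (A * v.tu * v.op1) rfl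
    m.XLt m.e_XLt
    (9 : ℝ) zS_9895604649984_0
    (20 : ℝ) zS_21990232555520_0).2
    ((20 : ℝ)⁻¹) rfl
    m.beta m.e_beta
    (c.C * iA) rfl
    (c.C * iA * v.u) rfl).2
    (v.op1⁻¹) rfl
    (c.C * iA * v.u * v.op1⁻¹) rfl
    (v.e * m.fa) rfl
    (v.e * m.fa * v.om1) rfl
    (v.u * v2.bsum) rfl
    (v.u * v2.bsum * v.aQ⁻¹) rfl
    ((1 / 2) * (v.u * v2.bsum * v.aQ⁻¹)) (congrArg (fun y : ℝ => y * (v.u * v2.bsum * v.aQ⁻¹)) zS_549755813888_0)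
    (v.e * m.fa * v.om1 * ((1 / 2) * (v.u * v2.bsum * v.aQ⁻¹))) rfl
    (m.ka * v.h1t * v.u) rfl
    (m.ka * v.h1t * v.u * hb.G) rfl
    (m.ka * v.h1t * v.u * hb.G * m.lsf) rfl
    (v.e * m.fa * v.om1 * ((1 / 2) * (v.u * v2.bsum * v.aQ⁻¹)) + m.ka * v.h1t * v.u * hb.G * m.lsf) rfl
    (m.fa * m.lfk) rfl
    (m.fa * m.lfk * phut) rfl
    (v.e * m.fa * v.om1 * ((1 / 2) * (v.u * v2.bsum * v.aQ⁻¹)) + m.ka * v.h1t * v.u * hb.G * m.lsf + m.fa * m.lfk * phut) rfl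
    c.FXt c.e_FXt
    (v.c0 * v.rhat) rfl
    (4 * (v.c0 * v.rhat)) (congrArg (fun y : ℝ => y * (v.c0 * v.rhat)) zS_4398046511104_0)
    (4 * (v.c0 * v.rhat) - v.Dt) rfl
    (v.u2 * (4 * (v.c0 * v.rhat) - v.Dt)) rfl
    c.zh c.e_zh
    (v.e * c.zh) rfl
    (v.t * c.zh) rfl
    (v.t * c.zh + (2 : ℝ)) rfl).2
    ((v.t * c.zh + (2 : ℝ))⁻¹) rfl
    c.yh c.e_yh
    (v.t * c.yh) rfl
    ((1 / 2) * (v.t * c.yh)) (congrArg (fun y : ℝ => y * (v.t * c.yh)) zS_549755813888_0)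
    ((1 : ℝ) - (1 / 2) * (v.t * c.yh)) rfl
    (c.yh * ((1 : ℝ) - (1 / 2) * (v.t * c.yh))) rfl
    c.S1 c.e_S1
    (v3.hpt * v4.gap) rfl
    (c.S1 + v3.hpt * v4.gap) rfl
    (c.S1 * (v3.hpt * v4.gap)) rfl
    (v.t * (c.S1 * (v3.hpt * v4.gap))) rfl
    c.S2 c.e_S2
    (v.ee * c.zh) rfl
    (v4.hgp + (1 : ℝ)) rfl
    (v3.hpt * v4.gap * (v4.hgp + (1 : ℝ))) rfl
    (v.ee * c.zh + v3.hpt * v4.gap * (v4.hgp + (1 : ℝ))) rfl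
    c.drt c.e_drt
    c.dri c.e_dri
    ((5 / 8) * c.dri) (congrArg (fun y : ℝ => y * c.dri) zS_687194767360_0)
    ((1 : ℝ) + (5 / 8) * c.dri) rfl
    (c.drt * ((1 : ℝ) + (5 / 8) * c.dri)) rfl
    (c.S2 + c.drt * ((1 : ℝ) + (5 / 8) * c.dri)) rfl
    (c.S2 * (c.drt * ((1 : ℝ) + (5 / 8) * c.dri))) rfl
    (v.t * (c.S2 * (c.drt * ((1 : ℝ) + (5 / 8) * c.dri)))) rfl
    c.S3 c.e_S3
    (v.u * v.n) rfl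
    (v.u * v.n * (v.h + (1 : ℝ))) rfl
    (v.u * v.n * (v.h + (1 : ℝ)) * v.j) rfl
    (c.S3 + v.u * v.n * (v.h + (1 : ℝ)) * v.j) rfl
    (c.S3 * (v.u * v.n * (v.h + (1 : ℝ)) * v.j)) rfl
    (v.t * (c.S3 * (v.u * v.n * (v.h + (1 : ℝ)) * v.j))) rfl
    c.S4 c.e_S4
    c.Dh c.e_Dh
    (v.t * c.Dh) rfl
    ((3 / 8) * (v.t * c.Dh)) (congrArg (fun y : ℝ => y * (v.t * c.Dh)) zS_412316860416_0)
    ((1 / 2 : ℝ) - (3 / 8) * (v.t * c.Dh)) rfl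
    (c.Dh * ((1 / 2 : ℝ) - (3 / 8) * (v.t * c.Dh))) rfl
    (-(c.Dh * ((1 / 2 : ℝ) - (3 / 8) * (v.t * c.Dh)))) rfl
    (c.S4 + (-(c.Dh * ((1 / 2 : ℝ) - (3 / 8) * (v.t * c.Dh))))) rfl
    (c.S4 * (-(c.Dh * ((1 / 2 : ℝ) - (3 / 8) * (v.t * c.Dh))))) rfl
    (v.t * (c.S4 * (-(c.Dh * ((1 / 2 : ℝ) - (3 / 8) * (v.t * c.Dh)))))) rfl
    c.S5 c.e_S5
    (v.u * m.eN) rfl
    (v.u * m.eN * v.op1⁻¹) rfl
    (c.S5 + v.u * m.eN * v.op1⁻¹) rfl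
    (c.S5 * (v.u * m.eN * v.op1⁻¹)) rfl
    (v.t * (c.S5 * (v.u * m.eN * v.op1⁻¹))) rfl
    c.S6 c.e_S6
    ((v.h + (1 : ℝ)) * v.op1) rfl
    c.b1 c.e_b1
    (c.S6 - c.b1) rfl
    (v.t * c.b1) rfl
    ((1 : ℝ) + v.t * c.b1) rfl).2
    (((1 : ℝ) + v.t * c.b1)⁻¹) rfl
    c.S7 c.e_S7
    (v.u * v.tu) rfl
    (v.u * v.tu * m.eN) rfl
    (v.aQ - m.eta) rfl).2
    ((v.aQ - m.eta)⁻¹) rfl
    (v.u * v.tu * m.eN * (v.aQ - m.eta)⁻¹) rfl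
    (c.S7 + v.u * v.tu * m.eN * (v.aQ - m.eta)⁻¹) rfl
    (c.S7 * (v.u * v.tu * m.eN * (v.aQ - m.eta)⁻¹)) rfl
    (v.t * (c.S7 * (v.u * v.tu * m.eN * (v.aQ - m.eta)⁻¹))) rfl
    c.S8 c.e_S8
    (v.t * c.S8) rfl
    c.c1 c.e_c1
    (c.fbt * m.XM) rfl
    (v.t * m.XLt) rfl
    (c.FXt * (v.t * m.XLt)) rfl
    c.rt c.e_rt
    (c.rt * c.c1) rfl
    (c.S8 + c.rt * c.c1) rfl
    (c.S8 + c.rt * c.c1 + c.fbt) rfl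
    (c.S8 + c.rt * c.c1 + c.fbt + c.FXt) rfl
    c.Bm c.e_Bm
    (1 / 1024 : ℝ) zS_1073741824_0
    (c.Bm - (1 / 1024 : ℝ)) rfl
    m.m1 m.e_m1
    (m.m1 + (2 : ℝ)) rfl
    (2 * m.beta) (congrArg (fun y : ℝ => y * m.beta) zS_2199023255552_0)
    (m.m1 + (2 : ℝ) - 2 * m.beta) rfl
    ((v.h + (1 : ℝ)) * (m.m1 + (2 : ℝ) - 2 * m.beta)) rfl
    (m.m1 * (2 * m.beta)) rfl
    (m.m1 * (2 * m.beta) + (1 : ℝ)) rfl).2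
    ((m.m1 * (2 * m.beta) + (1 : ℝ))⁻¹) rfl
    ((v.h + (1 : ℝ)) * (m.m1 + (2 : ℝ) - 2 * m.beta) * (m.m1 * (2 * m.beta) + (1 : ℝ))⁻¹) rfl
    (A * m.fx) rfl
    ((1 / 2) * v2.lm) (congrArg (fun y : ℝ => y * v2.lm) zS_549755813888_0)
    (v.K + (1 / 2) * v2.lm) rfl
    (A * m.fx * (v.K + (1 / 2) * v2.lm)) rfl
    (2 * (A * m.fx * (v.K + (1 / 2) * v2.lm))) (congrArg (fun y : ℝ => y * (A * m.fx * (v.K + (1 / 2) * v2.lm))) zS_2199023255552_0)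
    (m.src + 2 * (A * m.fx * (v.K + (1 / 2) * v2.lm))) rfl
    (2 * (m.src + 2 * (A * m.fx * (v.K + (1 / 2) * v2.lm)))) (congrArg (fun y : ℝ => y * (m.src + 2 * (A * m.fx * (v.K + (1 / 2) * v2.lm)))) zS_2199023255552_0)
    (2 * (m.src + 2 * (A * m.fx * (v.K + (1 / 2) * v2.lm))) * m.NN) rfl
    (v.tu * m.eN) rfl
    (v.op1 - v.tu * m.eN) rfl).2
    ((v.op1 - v.tu * m.eN)⁻¹) rfl
    (2 * (m.src + 2 * (A * m.fx * (v.K + (1 / 2) * v2.lm))) * m.NN * (v.op1 - v.tu * m.eN)⁻¹) rfl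
    m.V m.e_V
  change 0 < (1 : ℝ) - m.XM at p_XM
  obtain ⟨p_QX, s7⟩ := s6
  change 0 < (1 : ℝ) - m.QX at p_QX
  obtain ⟨p_e2, s8⟩ := s7
    (2 * (v.tu2 * m.eps)) (congrArg (fun y : ℝ => y * (v.tu2 * m.eps)) zS_2199023255552_0)
    (v.aQ - 2 * (v.tu2 * m.eps)) rfl
  change 0 < v.aQ - 2 * (v.tu2 * m.eps) at p_e2
  obtain ⟨p_rl, s9⟩ := s8
  change 0 < m.rl at p_rl
  obtain ⟨p_hg, s10⟩ := s9
  change 0 < (1 : ℝ) - m.hg at p_hg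
  obtain ⟨p_hgp, s11⟩ := s10
    ((1 / 2 : ℝ) - v4.hgp) rfl
  change 0 < (1 / 2 : ℝ) - v4.hgp at p_hgp
  obtain ⟨p_l1, s12⟩ := s11
    ((5 / 8) * (1 : ℝ)) (congrArg (fun y : ℝ => y * (1 : ℝ)) zS_687194767360_0)
    ((5 / 8) * (1 : ℝ) - m.l1) rfl
  change 0 < (5 / 8) * (1 : ℝ) - m.l1 at p_l1
  obtain ⟨p_a0, s13⟩ := s12
    ((11 / 32) * (1 : ℝ)) (congrArg (fun y : ℝ => y * (1 : ℝ)) zS_377957122048_0)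
    ((11 / 32) * (1 : ℝ) - m.a0) rfl
  change 0 < (11 / 32) * (1 : ℝ) - m.a0 at p_a0
  obtain ⟨p_S, s14⟩ := s13
  change 0 < v.op1 - v.tu * m.eN at p_S
  obtain ⟨p_dri, s15⟩ := s14
    ((1 / 2 : ℝ) - c.dri) rfl
  change 0 < (1 / 2 : ℝ) - c.dri at p_dri
  obtain ⟨p_d, s16⟩ := s15
  change 0 < (1 : ℝ) - m.d at p_d
  obtain ⟨p_den, s17⟩ := s16
  change 0 < c.den at p_den
  obtain ⟨p_dP, s18⟩ := s17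
    ((5 / 8) * (1 : ℝ) - c.dP) rfl
  change 0 < (5 / 8) * (1 : ℝ) - c.dP at p_dP
  obtain ⟨p_V, s19⟩ := s18
  change 0 < m.V at p_V
  obtain ⟨p_B, s20⟩ := s19
  change 0 < c.Bm - (1 / 1024 : ℝ) at p_B
  obtain ⟨lf0, Ex, hφ⟩ := phi_te G v2 e_i2 e_z p_z1 e_kz e_kk e_phu e_lf e_L p_L e_Ei e_Eh
  exact far_H G ⟨p_o2, p_W, p_o2p, p_Wp, p_XM, p_QX, p_e2, p_rl, p_hg, p_hgp, p_l1, p_a0, p_S, p_V⟩ D hA hiA hφ (fun _ _ _ τ' h1 _ => hE τ' h1) c (by rw [e_phu, e_phut]; ring)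
    p_dri p_d p_den p_dP p_B

theorem far_S1 {κ : ℝ} {τ : ℂ} {R w : ℝ} {E : Set ℂ} (D : PtD κ τ R w) {v : B1}
    (G : Geo κ (shf κ τ) v) (v2 : B2 v) (he2 : 2 ≤ v.e) (h : RAs Pool.Agent.helper71.FF.Crt.S.prog1 [v.e, v.t, v.u, v.n])
    (hE : ∀ τ' : ℂ, 0 < τ'.re → τ' ∈ E) :
    FarPt v.e κ (1 - Real.sinh κ / 1024) w (2 * AS v.e v.K * Real.sinh κ ^ 2) R E τ := by
  obtain ⟨A, e_A⟩ : ∃ zz : ℝ, zz = v.e * (12 : ℝ)⁻¹ + (21 : ℝ) * (10 : ℝ)⁻¹ := ⟨_, rfl⟩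
  obtain ⟨iA, e_iA⟩ : ∃ zz : ℝ, zz = A⁻¹ := ⟨_, rfl⟩
  obtain ⟨hA, hiA, hAe⟩ := ab_S G v2 e_A e_iA
  rw [hAe]
  obtain ⟨b⟩ := exGB v.q v.x v.h1
  obtain ⟨v3⟩ := exB3 v
  obtain ⟨b'⟩ := exGB v.qp v3.xp v3.hp
  obtain ⟨v4⟩ := exB4 v3 b'
  obtain ⟨hb⟩ := exHB v b
  obtain ⟨z, e_z⟩ : ∃ zz : ℝ, zz = v.om1 * v.tu * hb.gR * v.nj⁻¹ := ⟨_, rfl⟩
  obtain ⟨kz, e_kz⟩ : ∃ zz : ℝ, zz = ((1 : ℝ) - (1 / 2) * z) * ((1 : ℝ) - z)⁻¹ := ⟨_, rfl⟩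
  obtain ⟨phut, e_phut⟩ : ∃ zz : ℝ, zz = v.u * hb.gR * kz := ⟨_, rfl⟩
  obtain ⟨phu, e_phu⟩ : ∃ zz : ℝ, zz = v.t * phut := ⟨_, rfl⟩
  obtain ⟨lf, e_lf⟩ : ∃ zz : ℝ, zz = z * kz := ⟨_, rfl⟩
  obtain ⟨L, e_L⟩ : ∃ zz : ℝ, zz = lf * v.ei := ⟨_, rfl⟩
  obtain ⟨Ei, e_Ei⟩ : ∃ zz : ℝ, zz = (1 : ℝ) + L * ((45 / 16) * L + (2 : ℝ)) := ⟨_, rfl⟩
  obtain ⟨Eh, e_Eh⟩ : ∃ zz : ℝ, zz = (1 : ℝ) + L * ((45 / 32) * L + (1 : ℝ)) := ⟨_, rfl⟩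
  obtain ⟨m⟩ := exMid v v2 b A hb.g hb.ga phu Ei Eh
  obtain ⟨c⟩ := exCH hb m v4 iA phut
  obtain ⟨p_o2, s0⟩ := (((((((h
    (1 : ℝ) zS_1099511627776_0
    (1 / 2 : ℝ) zS_549755813888_0
    v.tu v.e_tu
    (v.tu * v.n) rfl
    v.h (v.e_h.trans (congrArg (fun y : ℝ => y * (v.tu * v.n)) zS_549755813888_0))
    v.u2 v.e_u2
    (v.h * v.h) rfl
    v.jm v.e_jm).2
    v.j v.e_j
    (v.h * v.j) rfl
    v.K (v.e_K.trans (congrArg (fun y : ℝ => y * (v.h * v.j)) zS_2199023255552_0))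
    (2 * v.j) (congrArg (fun y : ℝ => y * v.j) zS_2199023255552_0)
    v.c0 v.e_c0
    v.m v.e_m
    v.nj v.e_nj
    v.om v.e_om
    v.om1 v.e_om1
    v.op1 v.e_op1
    v2.Y (v2.e_Y.trans (congrArg (fun y : ℝ => y * v.h) zS_10774999203840_0))
    ((341 / 8192) * v2.Y) (congrArg (fun y : ℝ => y * v2.Y) zS_45768245248_0)
    (1365 / 8192 : ℝ) zS_183207198720_0
    ((341 / 8192) * v2.Y + (1365 / 8192 : ℝ)) rfl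
    (v2.Y * ((341 / 8192) * v2.Y + (1365 / 8192 : ℝ))) rfl
    ((1 / 2 : ℝ) + v2.Y * ((341 / 8192) * v2.Y + (1365 / 8192 : ℝ))) rfl
    (v2.Y * ((1 / 2 : ℝ) + v2.Y * ((341 / 8192) * v2.Y + (1365 / 8192 : ℝ)))) rfl
    v2.pY v2.e_pY
    (v2.Y * v2.pY) rfl
    ((1 / 2) * (v2.Y * v2.pY)) (congrArg (fun y : ℝ => y * (v2.Y * v2.pY)) zS_549755813888_0)
    ((1 : ℝ) + (1 / 2) * (v2.Y * v2.pY)) rfl
    v2.Yp v2.e_Yp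
    v.R v.e_R
    (v.K * v.om) rfl
    (2 * v.c0) (congrArg (fun y : ℝ => y * v.c0) zS_2199023255552_0)
    (v.K * v.om + 2 * v.c0) rfl
    v.Dt v.e_Dt
    v.D v.e_D
    v.SQ v.e_SQ
    (v.K * v.K) rfl
    (2 * (v.K * v.K)) (congrArg (fun y : ℝ => y * (v.K * v.K)) zS_2199023255552_0)
    v.c2 v.e_c2
    (v.c0 * v.Dt) rfl
    v.rhat v.e_rhat).2
    v.LQ v.e_LQ
    ((1 / 2) * v.LQ) (congrArg (fun y : ℝ => y * v.LQ) zS_549755813888_0)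
    v.aQ v.e_aQ
    v.ee (v.e_ee.trans (congrArg (fun y : ℝ => y * v.e) zS_549755813888_0))
    v.rho v.e_rho
    (-v.rho) rfl
    v.q v.e_q
    (v.c0 * v.R) rfl
    (v.c0 * v.R * v.rhat) rfl
    v.D2 (v.e_D2.trans (congrArg (fun y : ℝ => y * (v.c0 * v.R * v.rhat)) zS_4398046511104_0))
    (v.D2 + (1 : ℝ)) rfl).2
    (Real.log (v.D2 + (1 : ℝ))) rfl
    v.L2 v.e_L2
    v.rp v.e_rp
    (-v.rp) rfl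
    v.qp v.e_qp
    (v.om * v.K) rfl
    (v.c0 + v.om * v.K) rfl).2
    v.ioK v.e_ioK
    v.h1t v.e_h1t
    (v.om1 * v.t) rfl
    v.h1 v.e_h1
    v.nj2 v.e_nj2
    ((1 : ℝ) - v.u2) rfl
    v.f2 v.e_f2
    v.tu2 v.e_tu2
    (v.c0 + v.R) rfl).2
    ((v.c0 + v.R)⁻¹) rfl
    v.w v.e_w
    (v.w * v.w) rfl
    (v.tu2 * ((1 : ℝ) - v.u2)) rfl
    ((1 : ℝ) - v.nj2) rfl
    (v.tu2 * ((1 : ℝ) - v.u2) * ((1 : ℝ) - v.nj2)) rfl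
    v.x v.e_x).2
    v.ei v.e_ei
    (21845 / 524288 : ℝ) zS_45812285440_0
    ((11651 / 8388608) * v.x) (congrArg (fun y : ℝ => y * v.x) zS_1527119872_0)
    ((21845 / 524288 : ℝ) - (11651 / 8388608) * v.x) rfl
    (v.x * ((21845 / 524288 : ℝ) - (11651 / 8388608) * v.x)) rfl
    ((1 / 2 : ℝ) - v.x * ((21845 / 524288 : ℝ) - (11651 / 8388608) * v.x)) rfl
    (v.x * ((1 / 2 : ℝ) - v.x * ((21845 / 524288 : ℝ) - (11651 / 8388608) * v.x))) rfl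
    b.cc b.e_cc
    b.q1 b.e_q1
    (v.q * v.q) rfl
    (v.q * v.q + (1 : ℝ)) rfl
    (v.q * b.cc) rfl
    (2 * (v.q * b.cc)) (congrArg (fun y : ℝ => y * (v.q * b.cc)) zS_2199023255552_0)
    b.o2 b.e_o2).2
    (b.q1⁻¹) rfl
    (b.o2 * b.q1⁻¹) rfl
    b.P1 b.e_P1
    (v.q * v.h1) rfl
    b.qh (b.e_qh.trans (congrArg (fun y : ℝ => y * (v.q * v.h1)) zS_549755813888_0))
    (b.qh * b.P1) rfl
    b.W b.e_W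
  change 0 < b.o2 at p_o2
  obtain ⟨p_W, s1⟩ := s0
  change 0 < b.W at p_W
  obtain ⟨p_o2p, s2⟩ := ((((((((s1).2
    hb.iW hb.e_iW
    (v.ee * v.Dt) rfl
    (6 : ℝ) zS_6597069766656_0
    (v.D + (6 : ℝ)) rfl
    (v.ee * v.Dt * (v.D + (6 : ℝ))) rfl
    (4 * v.D) (congrArg (fun y : ℝ => y * v.D) zS_4398046511104_0)
    (4 * v.D + (6 : ℝ)) rfl).2
    ((4 * v.D + (6 : ℝ))⁻¹) rfl
    hb.rhoR hb.e_rhoR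
    (v.R * hb.rhoR) rfl
    hb.x2 (hb.e_x2.trans (congrArg (fun y : ℝ => y * (v.R * hb.rhoR)) zS_2199023255552_0))
    ((2731 / 16384) * hb.x2) (congrArg (fun y : ℝ => y * hb.x2) zS_183274307584_0)
    ((1 / 2 : ℝ) - (2731 / 16384) * hb.x2) rfl
    (hb.x2 * ((1 / 2 : ℝ) - (2731 / 16384) * hb.x2)) rfl
    ((1 : ℝ) - hb.x2 * ((1 / 2 : ℝ) - (2731 / 16384) * hb.x2)) rfl
    (hb.rhoR * ((1 : ℝ) - hb.x2 * ((1 / 2 : ℝ) - (2731 / 16384) * hb.x2))) rfl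
    hb.G hb.e_G
    hb.g hb.e_g
    (hb.g + (1 / 2 : ℝ)) rfl).2
    ((hb.g + (1 / 2 : ℝ))⁻¹) rfl
    hb.gR hb.e_gR
    hb.ga hb.e_ga
    (b.qh * hb.g) rfl
    (b.qh * hb.g + (1 / 2 : ℝ)) rfl
    ((b.qh * hb.g + (1 / 2 : ℝ)) * b.P1) rfl).2
    (b.o2⁻¹) rfl
    m.fa m.e_fa
    m.hg m.e_hg
    ((1 / 2) * m.hg) (congrArg (fun y : ℝ => y * m.hg) zS_549755813888_0)
    ((1 : ℝ) - (1 / 2) * m.hg) rfl
    ((1 : ℝ) - m.hg) rfl).2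
    (((1 : ℝ) - m.hg)⁻¹) rfl
    m.lsf m.e_lsf
    (m.hg + (1 : ℝ)) rfl
    m.Qb m.e_Qb
    (v.om1 * v.op1) rfl
    (v.c0 + v.t) rfl
    (v.om * v.c0) rfl
    (v.om * v.c0 * v.K) rfl
    (2 * (v.om * v.c0 * v.K)) (congrArg (fun y : ℝ => y * (v.om * v.c0 * v.K)) zS_2199023255552_0)
    (v.c2 + 2 * (v.om * v.c0 * v.K)) rfl
    ((v.c0 + v.t) * (v.c2 + 2 * (v.om * v.c0 * v.K))) rfl).2
    (((v.c0 + v.t) * (v.c2 + 2 * (v.om * v.c0 * v.K)))⁻¹) rfl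
    v3.hpt v3.e_hpt
    v3.hp v3.e_hp).2
    (v.SQ⁻¹) rfl
    v3.xp v3.e_xp
    ((11651 / 8388608) * v3.xp) (congrArg (fun y : ℝ => y * v3.xp) zS_1527119872_0)
    ((21845 / 524288 : ℝ) - (11651 / 8388608) * v3.xp) rfl
    (v3.xp * ((21845 / 524288 : ℝ) - (11651 / 8388608) * v3.xp)) rfl
    ((1 / 2 : ℝ) - v3.xp * ((21845 / 524288 : ℝ) - (11651 / 8388608) * v3.xp)) rfl
    (v3.xp * ((1 / 2 : ℝ) - v3.xp * ((21845 / 524288 : ℝ) - (11651 / 8388608) * v3.xp))) rfl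
    b'.cc b'.e_cc
    b'.q1 b'.e_q1
    (v.qp * v.qp) rfl
    (v.qp * v.qp + (1 : ℝ)) rfl
    (v.qp * b'.cc) rfl
    (2 * (v.qp * b'.cc)) (congrArg (fun y : ℝ => y * (v.qp * b'.cc)) zS_2199023255552_0)
    b'.o2 b'.e_o2).2
    (b'.q1⁻¹) rfl
    (b'.o2 * b'.q1⁻¹) rfl
    b'.P1 b'.e_P1
    (v.qp * v3.hp) rfl
    b'.qh (b'.e_qh.trans (congrArg (fun y : ℝ => y * (v.qp * v3.hp)) zS_549755813888_0))
    (b'.qh * b'.P1) rfl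
    b'.W b'.e_W
  change 0 < b'.o2 at p_o2p
  obtain ⟨p_Wp, s3⟩ := s2
  change 0 < b'.W at p_Wp
  obtain ⟨p_z1, s4⟩ := (((((((((((s3
    ((1 : ℝ) - v.qp) rfl
    (((1 : ℝ) - v.qp) * b'.q1) rfl).2
    (b'.W⁻¹) rfl
    (((1 : ℝ) - v.qp) * b'.q1 * b'.W⁻¹) rfl
    v4.gp (v4.e_gp.trans (congrArg (fun y : ℝ => y * (((1 : ℝ) - v.qp) * b'.q1 * b'.W⁻¹)) zS_549755813888_0))
    (v4.gp + (1 / 2 : ℝ)) rfl).2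
    ((v4.gp + (1 / 2 : ℝ))⁻¹) rfl
    v4.gap v4.e_gap
    v4.hgp v4.e_hgp
    (v.h + (1 : ℝ)) rfl).2
    v2.ih v2.e_ih
    (v.h * v2.ih) rfl
    v2.rh (v2.e_rh.trans (congrArg (fun y : ℝ => y * (v.h * v2.ih)) zS_2199023255552_0))
    v2.mi v2.e_mi
    v2.hm v2.e_hm
    v2.nih v2.e_nih
    (v2.nih * v2.mi) rfl
    v2.bsum v2.e_bsum
    v2.eK v2.e_eK
    (12 : ℝ) zS_13194139533312_0).2
    ((12 : ℝ)⁻¹) rfl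
    (v.e * (12 : ℝ)⁻¹) rfl
    (21 : ℝ) zS_23089744183296_0
    (10 : ℝ) zS_10995116277760_0).2
    ((10 : ℝ)⁻¹) rfl
    ((21 : ℝ) * (10 : ℝ)⁻¹) rfl
    A e_A).2
    iA e_iA
    ((209 / 1024) * v.j) (congrArg (fun y : ℝ => y * v.j) zS_224412041216_0)).2
    (v2.Yp⁻¹) rfl
    v2.lm v2.e_lm
    (A * v.op1) rfl
    m.Xe m.e_Xe
    m.XM m.e_XM
    ((1 : ℝ) - m.XM) rfl).2
    m.iX m.e_iX
    m.QX m.e_QX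
    ((1 : ℝ) - m.QX) rfl).2
    m.iQX m.e_iQX
    (v.om1 * v.tu) rfl
    (v.om1 * v.tu * hb.gR) rfl).2
    (v.nj⁻¹) rfl
    z e_z
    ((1 / 2) * z) (congrArg (fun y : ℝ => y * z) zS_549755813888_0)
    ((1 : ℝ) - (1 / 2) * z) rfl
    ((1 : ℝ) - z) rfl).2
    (((1 : ℝ) - z)⁻¹) rfl
    kz e_kz
    (v.u * hb.gR) rfl
    phut e_phut
    phu e_phu
    lf e_lf
  change 0 < (1 : ℝ) - z at p_z1
  obtain ⟨p_L, s5⟩ := s4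
    L e_L
    ((5 / 4) * L) (congrArg (fun y : ℝ => y * L) zS_1374389534720_0)
    ((1 / 2 : ℝ) - (5 / 4) * L) rfl
  change 0 < (1 / 2 : ℝ) - (5 / 4) * L at p_L
  obtain ⟨p_XM, s6⟩ := ((((((((((((s5
    ((45 / 16) * L) (congrArg (fun y : ℝ => y * L) zS_3092376453120_0)
    (2 : ℝ) zS_2199023255552_0
    ((45 / 16) * L + (2 : ℝ)) rfl
    (L * ((45 / 16) * L + (2 : ℝ))) rfl
    Ei e_Ei
    ((45 / 32) * L) (congrArg (fun y : ℝ => y * L) zS_1546188226560_0)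
    ((45 / 32) * L + (1 : ℝ)) rfl
    (L * ((45 / 32) * L + (1 : ℝ))) rfl
    Eh e_Eh
    (v.h * v.nj) rfl
    ((1 : ℝ) - v.f2) rfl
    (v.h * v.om) rfl
    (2 * (v.h * v.om)) (congrArg (fun y : ℝ => y * (v.h * v.om)) zS_2199023255552_0)
    ((1 : ℝ) - v.f2 - 2 * (v.h * v.om)) rfl
    (v.h * v.nj * (v.h * v.nj)) rfl
    m.N1 m.e_N1
    (m.N1 + (1 : ℝ)) rfl
    m.s (m.e_s.trans (congrArg (fun y : ℝ => y * (m.N1 + (1 : ℝ))) zS_549755813888_0))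
    ((1 / 2) * v.R) (congrArg (fun y : ℝ => y * v.R) zS_549755813888_0)
    (v.j - (1 / 2) * v.R) rfl
    (v.tu2 * ((1 : ℝ) - v.f2)) rfl
    (v.tu2 * ((1 : ℝ) - v.f2) * v.jm) rfl
    ((1 / 8) * (v.tu2 * ((1 : ℝ) - v.f2) * v.jm)) (congrArg (fun y : ℝ => y * (v.tu2 * ((1 : ℝ) - v.f2) * v.jm)) zS_137438953472_0)
    (v.j - (1 / 2) * v.R + (1 / 8) * (v.tu2 * ((1 : ℝ) - v.f2) * v.jm)) rfl
    m.k0 m.e_k0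
    (v.om1 * v.h1t) rfl
    (v.om1 * v.h1t * v.tu) rfl
    (v.om1 * v.h1t * v.tu * hb.gR) rfl
    (v.om1 * v.h1t * v.tu * hb.gR * m.lsf) rfl
    m.ls (ls_H m)
    m.Q1 m.e_Q1
    (m.Q1 * m.iX) rfl
    (m.Qb * m.iQX) rfl
    (m.Q1 * m.iX + m.Qb * m.iQX) rfl
    (m.XM * (m.Q1 * m.iX + m.Qb * m.iQX)) rfl
    (m.ls + m.XM * (m.Q1 * m.iX + m.Qb * m.iQX)) rfl
    m.a0 m.e_a0
    (m.Q1 * m.XM) rfl
    (m.Q1 * m.XM * m.iX) rfl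
    (m.ls + m.Q1 * m.XM * m.iX) rfl
    m.l1 m.e_l1
    ((13 / 64) * m.l1) (congrArg (fun y : ℝ => y * m.l1) zS_223338299392_0)
    ((1 / 2 : ℝ) + (13 / 64) * m.l1) rfl
    (m.l1 * ((1 / 2 : ℝ) + (13 / 64) * m.l1)) rfl
    m.Na m.e_Na
    ((13 / 16) * m.a0) (congrArg (fun y : ℝ => y * m.a0) zS_893353197568_0)
    ((1 : ℝ) + (13 / 16) * m.a0) rfl
    (m.a0 * ((1 : ℝ) + (13 / 16) * m.a0)) rfl
    m.Nb m.e_Nb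
    (v2.rh * v2.nih) rfl
    (v2.rh * v2.nih * Ei) rfl
    m.rn m.e_rn
    (m.k0 * m.Na) rfl
    (v.aQ + (1 / 2 : ℝ)) rfl
    (m.rn * (v.aQ + (1 / 2 : ℝ))) rfl
    m.ka m.e_ka
    (v.aQ + (1 : ℝ)) rfl
    m.kb m.e_kb
    (Eh * (v.aQ + (1 : ℝ))) rfl
    (Eh * (v.aQ + (1 : ℝ)) * v2.nih) rfl
    m.lfk m.e_lfk
    (v.tu * v2.bsum) rfl).2
    (v.aQ⁻¹) rfl
    (v.tu * v2.bsum * v.aQ⁻¹) rfl
    m.bte (m.e_bte.trans (congrArg (fun y : ℝ => y * (v.tu * v2.bsum * v.aQ⁻¹)) zS_549755813888_0))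
    (v.h1t * v.tu) rfl
    (v.h1t * v.tu * hb.gR) rfl
    m.lsi (lsi_H G m)
    (v.om1 * m.bte) rfl
    (m.ka * m.lsi) rfl
    (m.lfk * phu) rfl
    (m.ka * m.lsi + m.lfk * phu) rfl
    ((m.ka * m.lsi + m.lfk * phu) * v.ei) rfl
    m.src m.e_src
    (m.ka * m.Q1) rfl
    (m.ka * m.Q1 * m.iX) rfl
    (m.kb * m.Qb) rfl
    (m.kb * m.Qb * m.iQX) rfl
    (m.ka * m.Q1 * m.iX + m.kb * m.Qb * m.iQX) rfl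
    m.fx m.e_fx
    (v.om1 * m.src) rfl
    (m.Xe * m.fx) rfl
    m.eps m.e_eps
    (v.tu2 * m.eps) rfl
    (v.tu2 * m.eps * v.aQ⁻¹) rfl
    ((1 : ℝ) - v.tu2 * m.eps * v.aQ⁻¹) rfl).2
    m.NN m.e_NN
    m.eN m.e_eN
    m.d m.e_d
    m.eta m.e_eta
    (m.eta * v.aQ⁻¹) rfl
    ((1 : ℝ) - m.eta * v.aQ⁻¹) rfl
    (v.rhat * ((1 : ℝ) - m.eta * v.aQ⁻¹)) rfl
    m.rl m.e_rl).2
    m.irl m.e_irl
    m.yy m.e_yy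
    ((1 : ℝ) - m.d) rfl).2
    c.od c.e_od
    (v.h1 * hb.gR) rfl
    c.lsR c.e_lsR
    (hb.rhoR + c.lsR) rfl
    c.PR c.e_PR
    c.dP c.e_dP
    ((13 / 64) * c.dP) (congrArg (fun y : ℝ => y * c.dP) zS_223338299392_0)
    ((1 / 2 : ℝ) + (13 / 64) * c.dP) rfl
    (c.dP * ((1 / 2 : ℝ) + (13 / 64) * c.dP)) rfl
    c.Ee c.e_Ee
    (c.dP * c.Ee) rfl
    (c.dP * c.Ee * m.fa) rfl
    (c.dP * c.Ee * m.fa * m.Qb) rfl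
    c.den c.e_den
    (c.PR * c.Ee) rfl
    (c.PR * c.Ee * m.NN) rfl
    (c.PR * c.Ee * m.NN * v.ei) rfl).2
    (c.den⁻¹) rfl
    c.C c.e_C
    (c.C * v.u) rfl
    (m.ka * m.iX) rfl
    (m.kb * m.fa) rfl
    (m.kb * m.fa * m.Qb) rfl
    (m.kb * m.fa * m.Qb * m.iQX) rfl
    (m.ka * m.iX + m.kb * m.fa * m.Qb * m.iQX) rfl
    c.fbt c.e_fbt
    (m.ka * v.h1t) rfl
    (v.tu * hb.G) rfl
    (m.ka * v.h1t * (v.tu * hb.G)) rfl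
    c.sl c.e_sl
    (A * v.tu) rfl
    (A * v.tu * v.op1) rfl
    m.XLt m.e_XLt
    (9 : ℝ) zS_9895604649984_0
    (20 : ℝ) zS_21990232555520_0).2
    ((20 : ℝ)⁻¹) rfl
    m.beta m.e_beta
    (c.C * iA) rfl
    (c.C * iA * v.u) rfl).2
    (v.op1⁻¹) rfl
    (c.C * iA * v.u * v.op1⁻¹) rfl
    (v.e * m.fa) rfl
    (v.e * m.fa * v.om1) rfl
    (v.u * v2.bsum) rfl
    (v.u * v2.bsum * v.aQ⁻¹) rfl
    ((1 / 2) * (v.u * v2.bsum * v.aQ⁻¹)) (congrArg (fun y : ℝ => y * (v.u * v2.bsum * v.aQ⁻¹)) zS_549755813888_0)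
    (v.e * m.fa * v.om1 * ((1 / 2) * (v.u * v2.bsum * v.aQ⁻¹))) rfl
    (m.ka * v.h1t * v.u) rfl
    (m.ka * v.h1t * v.u * hb.G) rfl
    (m.ka * v.h1t * v.u * hb.G * m.lsf) rfl
    (v.e * m.fa * v.om1 * ((1 / 2) * (v.u * v2.bsum * v.aQ⁻¹)) + m.ka * v.h1t * v.u * hb.G * m.lsf) rfl
    (m.fa * m.lfk) rfl
    (m.fa * m.lfk * phut) rfl
    (v.e * m.fa * v.om1 * ((1 / 2) * (v.u * v2.bsum * v.aQ⁻¹)) + m.ka * v.h1t * v.u * hb.G * m.lsf + m.fa * m.lfk * phut) rfl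
    c.FXt c.e_FXt
    (v.c0 * v.rhat) rfl
    (4 * (v.c0 * v.rhat)) (congrArg (fun y : ℝ => y * (v.c0 * v.rhat)) zS_4398046511104_0)
    (4 * (v.c0 * v.rhat) - v.Dt) rfl
    (v.u2 * (4 * (v.c0 * v.rhat) - v.Dt)) rfl
    c.zh c.e_zh
    (v.e * c.zh) rfl
    (v.t * c.zh) rfl
    (v.t * c.zh + (2 : ℝ)) rfl).2
    ((v.t * c.zh + (2 : ℝ))⁻¹) rfl
    c.yh c.e_yh
    (v.t * c.yh) rfl
    ((1 / 2) * (v.t * c.yh)) (congrArg (fun y : ℝ => y * (v.t * c.yh)) zS_549755813888_0)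
    ((1 : ℝ) - (1 / 2) * (v.t * c.yh)) rfl
    (c.yh * ((1 : ℝ) - (1 / 2) * (v.t * c.yh))) rfl
    c.S1 c.e_S1
    (v3.hpt * v4.gap) rfl
    (c.S1 + v3.hpt * v4.gap) rfl
    (c.S1 * (v3.hpt * v4.gap)) rfl
    (v.t * (c.S1 * (v3.hpt * v4.gap))) rfl
    c.S2 c.e_S2
    (v.ee * c.zh) rfl
    (v4.hgp + (1 : ℝ)) rfl
    (v3.hpt * v4.gap * (v4.hgp + (1 : ℝ))) rfl
    (v.ee * c.zh + v3.hpt * v4.gap * (v4.hgp + (1 : ℝ))) rfl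
    c.drt c.e_drt
    c.dri c.e_dri
    ((5 / 8) * c.dri) (congrArg (fun y : ℝ => y * c.dri) zS_687194767360_0)
    ((1 : ℝ) + (5 / 8) * c.dri) rfl
    (c.drt * ((1 : ℝ) + (5 / 8) * c.dri)) rfl
    (c.S2 + c.drt * ((1 : ℝ) + (5 / 8) * c.dri)) rfl
    (c.S2 * (c.drt * ((1 : ℝ) + (5 / 8) * c.dri))) rfl
    (v.t * (c.S2 * (c.drt * ((1 : ℝ) + (5 / 8) * c.dri)))) rfl
    c.S3 c.e_S3
    (v.u * v.n) rfl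
    (v.u * v.n * (v.h + (1 : ℝ))) rfl
    (v.u * v.n * (v.h + (1 : ℝ)) * v.j) rfl
    (c.S3 + v.u * v.n * (v.h + (1 : ℝ)) * v.j) rfl
    (c.S3 * (v.u * v.n * (v.h + (1 : ℝ)) * v.j)) rfl
    (v.t * (c.S3 * (v.u * v.n * (v.h + (1 : ℝ)) * v.j))) rfl
    c.S4 c.e_S4
    c.Dh c.e_Dh
    (v.t * c.Dh) rfl
    ((3 / 8) * (v.t * c.Dh)) (congrArg (fun y : ℝ => y * (v.t * c.Dh)) zS_412316860416_0)
    ((1 / 2 : ℝ) - (3 / 8) * (v.t * c.Dh)) rfl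
    (c.Dh * ((1 / 2 : ℝ) - (3 / 8) * (v.t * c.Dh))) rfl
    (-(c.Dh * ((1 / 2 : ℝ) - (3 / 8) * (v.t * c.Dh)))) rfl
    (c.S4 + (-(c.Dh * ((1 / 2 : ℝ) - (3 / 8) * (v.t * c.Dh))))) rfl
    (c.S4 * (-(c.Dh * ((1 / 2 : ℝ) - (3 / 8) * (v.t * c.Dh))))) rfl
    (v.t * (c.S4 * (-(c.Dh * ((1 / 2 : ℝ) - (3 / 8) * (v.t * c.Dh)))))) rfl
    c.S5 c.e_S5
    (v.u * m.eN) rfl
    (v.u * m.eN * v.op1⁻¹) rfl
    (c.S5 + v.u * m.eN * v.op1⁻¹) rfl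
    (c.S5 * (v.u * m.eN * v.op1⁻¹)) rfl
    (v.t * (c.S5 * (v.u * m.eN * v.op1⁻¹))) rfl
    c.S6 c.e_S6
    ((v.h + (1 : ℝ)) * v.op1) rfl
    c.b1 c.e_b1
    (c.S6 - c.b1) rfl
    (v.t * c.b1) rfl
    ((1 : ℝ) + v.t * c.b1) rfl).2
    (((1 : ℝ) + v.t * c.b1)⁻¹) rfl
    c.S7 c.e_S7
    (v.u * v.tu) rfl
    (v.u * v.tu * m.eN) rfl
    (v.aQ - m.eta) rfl).2
    ((v.aQ - m.eta)⁻¹) rfl
    (v.u * v.tu * m.eN * (v.aQ - m.eta)⁻¹) rfl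
    (c.S7 + v.u * v.tu * m.eN * (v.aQ - m.eta)⁻¹) rfl
    (c.S7 * (v.u * v.tu * m.eN * (v.aQ - m.eta)⁻¹)) rfl
    (v.t * (c.S7 * (v.u * v.tu * m.eN * (v.aQ - m.eta)⁻¹))) rfl
    c.S8 c.e_S8
    (v.t * c.S8) rfl
    c.c1 c.e_c1
    (c.fbt * m.XM) rfl
    (v.t * m.XLt) rfl
    (c.FXt * (v.t * m.XLt)) rfl
    c.rt c.e_rt
    (c.rt * c.c1) rfl
    (c.S8 + c.rt * c.c1) rfl
    (c.S8 + c.rt * c.c1 + c.fbt) rfl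
    (c.S8 + c.rt * c.c1 + c.fbt + c.FXt) rfl
    c.Bm c.e_Bm
    (1 / 1024 : ℝ) zS_1073741824_0
    (c.Bm - (1 / 1024 : ℝ)) rfl
    m.m1 m.e_m1
    (m.m1 + (2 : ℝ)) rfl
    (2 * m.beta) (congrArg (fun y : ℝ => y * m.beta) zS_2199023255552_0)
    (m.m1 + (2 : ℝ) - 2 * m.beta) rfl
    ((v.h + (1 : ℝ)) * (m.m1 + (2 : ℝ) - 2 * m.beta)) rfl
    (m.m1 * (2 * m.beta)) rfl
    (m.m1 * (2 * m.beta) + (1 : ℝ)) rfl).2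
    ((m.m1 * (2 * m.beta) + (1 : ℝ))⁻¹) rfl
    ((v.h + (1 : ℝ)) * (m.m1 + (2 : ℝ) - 2 * m.beta) * (m.m1 * (2 * m.beta) + (1 : ℝ))⁻¹) rfl
    (A * m.fx) rfl
    ((1 / 2) * v2.lm) (congrArg (fun y : ℝ => y * v2.lm) zS_549755813888_0)
    (v.K + (1 / 2) * v2.lm) rfl
    (A * m.fx * (v.K + (1 / 2) * v2.lm)) rfl
    (2 * (A * m.fx * (v.K + (1 / 2) * v2.lm))) (congrArg (fun y : ℝ => y * (A * m.fx * (v.K + (1 / 2) * v2.lm))) zS_2199023255552_0)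
    (m.src + 2 * (A * m.fx * (v.K + (1 / 2) * v2.lm))) rfl
    (2 * (m.src + 2 * (A * m.fx * (v.K + (1 / 2) * v2.lm)))) (congrArg (fun y : ℝ => y * (m.src + 2 * (A * m.fx * (v.K + (1 / 2) * v2.lm)))) zS_2199023255552_0)
    (2 * (m.src + 2 * (A * m.fx * (v.K + (1 / 2) * v2.lm))) * m.NN) rfl
    (v.tu * m.eN) rfl
    (v.op1 - v.tu * m.eN) rfl).2
    ((v.op1 - v.tu * m.eN)⁻¹) rfl
    (2 * (m.src + 2 * (A * m.fx * (v.K + (1 / 2) * v2.lm))) * m.NN * (v.op1 - v.tu * m.eN)⁻¹) rfl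
    m.V m.e_V
  change 0 < (1 : ℝ) - m.XM at p_XM
  obtain ⟨p_QX, s7⟩ := s6
  change 0 < (1 : ℝ) - m.QX at p_QX
  obtain ⟨p_e2, s8⟩ := s7
    (2 * (v.tu2 * m.eps)) (congrArg (fun y : ℝ => y * (v.tu2 * m.eps)) zS_2199023255552_0)
    (v.aQ - 2 * (v.tu2 * m.eps)) rfl
  change 0 < v.aQ - 2 * (v.tu2 * m.eps) at p_e2
  obtain ⟨p_rl, s9⟩ := s8
  change 0 < m.rl at p_rl
  obtain ⟨p_hg, s10⟩ := s9
  change 0 < (1 : ℝ) - m.hg at p_hg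
  obtain ⟨p_hgp, s11⟩ := s10
    ((1 / 2 : ℝ) - v4.hgp) rfl
  change 0 < (1 / 2 : ℝ) - v4.hgp at p_hgp
  obtain ⟨p_l1, s12⟩ := s11
    ((5 / 8) * (1 : ℝ)) (congrArg (fun y : ℝ => y * (1 : ℝ)) zS_687194767360_0)
    ((5 / 8) * (1 : ℝ) - m.l1) rfl
  change 0 < (5 / 8) * (1 : ℝ) - m.l1 at p_l1
  obtain ⟨p_a0, s13⟩ := s12
    ((11 / 32) * (1 : ℝ)) (congrArg (fun y : ℝ => y * (1 : ℝ)) zS_377957122048_0)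
    ((11 / 32) * (1 : ℝ) - m.a0) rfl
  change 0 < (11 / 32) * (1 : ℝ) - m.a0 at p_a0
  obtain ⟨p_S, s14⟩ := s13
  change 0 < v.op1 - v.tu * m.eN at p_S
  obtain ⟨p_dri, s15⟩ := s14
    ((1 / 2 : ℝ) - c.dri) rfl
  change 0 < (1 / 2 : ℝ) - c.dri at p_dri
  obtain ⟨p_d, s16⟩ := s15
  change 0 < (1 : ℝ) - m.d at p_d
  obtain ⟨p_den, s17⟩ := s16
  change 0 < c.den at p_den
  obtain ⟨p_dP, s18⟩ := s17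
    ((5 / 8) * (1 : ℝ) - c.dP) rfl
  change 0 < (5 / 8) * (1 : ℝ) - c.dP at p_dP
  obtain ⟨p_V, s19⟩ := s18
  change 0 < m.V at p_V
  obtain ⟨p_B, s20⟩ := s19
  change 0 < c.Bm - (1 / 1024 : ℝ) at p_B
  have hga := gam_H G hb p_o2 p_W
  obtain ⟨lf0, Ex, hφ⟩ := phi_near G v2 hga (near_zH G hb e_z) p_z1 e_kz (near_pH G hb e_phu e_phut) e_lf e_L p_L e_Ei e_Eh
  exact far_H G ⟨p_o2, p_W, p_o2p, p_Wp, p_XM, p_QX, p_e2, p_rl, p_hg, p_hgp, p_l1, p_a0, p_S, p_V⟩ D hA hiA hφ (fun _ _ _ τ' h1 _ => hE τ' h1) c e_phu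
    p_dri p_d p_den p_dP p_B

theorem far_S2 {κ : ℝ} {τ : ℂ} {R w : ℝ} {E : Set ℂ} (D : PtD κ τ R w) {v : B1}
    (G : Geo κ (shf κ τ) v) (v2 : B2 v) (he2 : 2 ≤ v.e) (h : RAs Pool.Agent.helper71.FF.Crt.S.prog2 [v.e, v.t, v.u, v.n])
    (hE : ∀ τ' : ℂ, 0 < τ'.re → τ' ∈ E) :
    FarPt v.e κ (1 - Real.sinh κ / 1024) w (2 * AS v.e v.K * Real.sinh κ ^ 2) R E τ := by
  obtain ⟨A, e_A⟩ : ∃ zz : ℝ, zz = v.e * (12 : ℝ)⁻¹ + (21 : ℝ) * (10 : ℝ)⁻¹ := ⟨_, rfl⟩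
  obtain ⟨iA, e_iA⟩ : ∃ zz : ℝ, zz = A⁻¹ := ⟨_, rfl⟩
  obtain ⟨hA, hiA, hAe⟩ := ab_S G v2 e_A e_iA
  rw [hAe]
  obtain ⟨b⟩ := exGB v.q v.x v.h1
  obtain ⟨v3⟩ := exB3 v
  obtain ⟨b'⟩ := exGB v.qp v3.xp v3.hp
  obtain ⟨v4⟩ := exB4 v3 b'
  obtain ⟨hb⟩ := exHB v b
  obtain ⟨phu, e_phu⟩ : ∃ zz : ℝ, zz = (1 / 2) * ((3 / 2) * (v.t * hb.gR) + (683 / 1024 : ℝ)) := ⟨_, rfl⟩
  obtain ⟨phut, e_phut⟩ : ∃ zz : ℝ, zz = phu * v.t⁻¹ := ⟨_, rfl⟩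
  obtain ⟨Ei, e_Ei⟩ : ∃ zz : ℝ, zz = 2 * v.ei + (1 : ℝ) := ⟨_, rfl⟩
  obtain ⟨Eh, e_Eh⟩ : ∃ zz : ℝ, zz = v.ei + (1 : ℝ) := ⟨_, rfl⟩
  obtain ⟨m⟩ := exMid v v2 b A hb.g hb.ga phu Ei Eh
  obtain ⟨c⟩ := exCH hb m v4 iA phut
  obtain ⟨p_o2, s0⟩ := (((((((h
    (1 : ℝ) zS_1099511627776_0
    (1 / 2 : ℝ) zS_549755813888_0
    v.tu v.e_tu
    (v.tu * v.n) rfl
    v.h (v.e_h.trans (congrArg (fun y : ℝ => y * (v.tu * v.n)) zS_549755813888_0))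
    v.u2 v.e_u2
    (v.h * v.h) rfl
    v.jm v.e_jm).2
    v.j v.e_j
    (v.h * v.j) rfl
    v.K (v.e_K.trans (congrArg (fun y : ℝ => y * (v.h * v.j)) zS_2199023255552_0))
    (2 * v.j) (congrArg (fun y : ℝ => y * v.j) zS_2199023255552_0)
    v.c0 v.e_c0
    v.m v.e_m
    v.nj v.e_nj
    v.om v.e_om
    v.om1 v.e_om1
    v.op1 v.e_op1
    v2.Y (v2.e_Y.trans (congrArg (fun y : ℝ => y * v.h) zS_10774999203840_0))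
    ((341 / 8192) * v2.Y) (congrArg (fun y : ℝ => y * v2.Y) zS_45768245248_0)
    (1365 / 8192 : ℝ) zS_183207198720_0
    ((341 / 8192) * v2.Y + (1365 / 8192 : ℝ)) rfl
    (v2.Y * ((341 / 8192) * v2.Y + (1365 / 8192 : ℝ))) rfl
    ((1 / 2 : ℝ) + v2.Y * ((341 / 8192) * v2.Y + (1365 / 8192 : ℝ))) rfl
    (v2.Y * ((1 / 2 : ℝ) + v2.Y * ((341 / 8192) * v2.Y + (1365 / 8192 : ℝ)))) rfl
    v2.pY v2.e_pY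
    (v2.Y * v2.pY) rfl
    ((1 / 2) * (v2.Y * v2.pY)) (congrArg (fun y : ℝ => y * (v2.Y * v2.pY)) zS_549755813888_0)
    ((1 : ℝ) + (1 / 2) * (v2.Y * v2.pY)) rfl
    v2.Yp v2.e_Yp
    v.R v.e_R
    (v.K * v.om) rfl
    (2 * v.c0) (congrArg (fun y : ℝ => y * v.c0) zS_2199023255552_0)
    (v.K * v.om + 2 * v.c0) rfl
    v.Dt v.e_Dt
    v.D v.e_D
    v.SQ v.e_SQ
    (v.K * v.K) rfl
    (2 * (v.K * v.K)) (congrArg (fun y : ℝ => y * (v.K * v.K)) zS_2199023255552_0)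
    v.c2 v.e_c2
    (v.c0 * v.Dt) rfl
    v.rhat v.e_rhat).2
    v.LQ v.e_LQ
    ((1 / 2) * v.LQ) (congrArg (fun y : ℝ => y * v.LQ) zS_549755813888_0)
    v.aQ v.e_aQ
    v.ee (v.e_ee.trans (congrArg (fun y : ℝ => y * v.e) zS_549755813888_0))
    v.rho v.e_rho
    (-v.rho) rfl
    v.q v.e_q
    (v.c0 * v.R) rfl
    (v.c0 * v.R * v.rhat) rfl
    v.D2 (v.e_D2.trans (congrArg (fun y : ℝ => y * (v.c0 * v.R * v.rhat)) zS_4398046511104_0))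
    (v.D2 + (1 : ℝ)) rfl).2
    (Real.log (v.D2 + (1 : ℝ))) rfl
    v.L2 v.e_L2
    v.rp v.e_rp
    (-v.rp) rfl
    v.qp v.e_qp
    (v.om * v.K) rfl
    (v.c0 + v.om * v.K) rfl).2
    v.ioK v.e_ioK
    v.h1t v.e_h1t
    (v.om1 * v.t) rfl
    v.h1 v.e_h1
    v.nj2 v.e_nj2
    ((1 : ℝ) - v.u2) rfl
    v.f2 v.e_f2
    v.tu2 v.e_tu2
    (v.c0 + v.R) rfl).2
    ((v.c0 + v.R)⁻¹) rfl
    v.w v.e_w
    (v.w * v.w) rfl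
    (v.tu2 * ((1 : ℝ) - v.u2)) rfl
    ((1 : ℝ) - v.nj2) rfl
    (v.tu2 * ((1 : ℝ) - v.u2) * ((1 : ℝ) - v.nj2)) rfl
    v.x v.e_x).2
    v.ei v.e_ei
    (21845 / 524288 : ℝ) zS_45812285440_0
    ((11651 / 8388608) * v.x) (congrArg (fun y : ℝ => y * v.x) zS_1527119872_0)
    ((21845 / 524288 : ℝ) - (11651 / 8388608) * v.x) rfl
    (v.x * ((21845 / 524288 : ℝ) - (11651 / 8388608) * v.x)) rfl
    ((1 / 2 : ℝ) - v.x * ((21845 / 524288 : ℝ) - (11651 / 8388608) * v.x)) rfl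
    (v.x * ((1 / 2 : ℝ) - v.x * ((21845 / 524288 : ℝ) - (11651 / 8388608) * v.x))) rfl
    b.cc b.e_cc
    b.q1 b.e_q1
    (v.q * v.q) rfl
    (v.q * v.q + (1 : ℝ)) rfl
    (v.q * b.cc) rfl
    (2 * (v.q * b.cc)) (congrArg (fun y : ℝ => y * (v.q * b.cc)) zS_2199023255552_0)
    b.o2 b.e_o2).2
    (b.q1⁻¹) rfl
    (b.o2 * b.q1⁻¹) rfl
    b.P1 b.e_P1
    (v.q * v.h1) rfl
    b.qh (b.e_qh.trans (congrArg (fun y : ℝ => y * (v.q * v.h1)) zS_549755813888_0))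
    (b.qh * b.P1) rfl
    b.W b.e_W
  change 0 < b.o2 at p_o2
  obtain ⟨p_W, s1⟩ := s0
  change 0 < b.W at p_W
  obtain ⟨p_o2p, s2⟩ := ((((((((s1).2
    hb.iW hb.e_iW
    (v.ee * v.Dt) rfl
    (6 : ℝ) zS_6597069766656_0
    (v.D + (6 : ℝ)) rfl
    (v.ee * v.Dt * (v.D + (6 : ℝ))) rfl
    (4 * v.D) (congrArg (fun y : ℝ => y * v.D) zS_4398046511104_0)
    (4 * v.D + (6 : ℝ)) rfl).2
    ((4 * v.D + (6 : ℝ))⁻¹) rfl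
    hb.rhoR hb.e_rhoR
    (v.R * hb.rhoR) rfl
    hb.x2 (hb.e_x2.trans (congrArg (fun y : ℝ => y * (v.R * hb.rhoR)) zS_2199023255552_0))
    ((2731 / 16384) * hb.x2) (congrArg (fun y : ℝ => y * hb.x2) zS_183274307584_0)
    ((1 / 2 : ℝ) - (2731 / 16384) * hb.x2) rfl
    (hb.x2 * ((1 / 2 : ℝ) - (2731 / 16384) * hb.x2)) rfl
    ((1 : ℝ) - hb.x2 * ((1 / 2 : ℝ) - (2731 / 16384) * hb.x2)) rfl
    (hb.rhoR * ((1 : ℝ) - hb.x2 * ((1 / 2 : ℝ) - (2731 / 16384) * hb.x2))) rfl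
    hb.G hb.e_G
    hb.g hb.e_g
    (hb.g + (1 / 2 : ℝ)) rfl).2
    ((hb.g + (1 / 2 : ℝ))⁻¹) rfl
    hb.gR hb.e_gR
    hb.ga hb.e_ga
    (b.qh * hb.g) rfl
    (b.qh * hb.g + (1 / 2 : ℝ)) rfl
    ((b.qh * hb.g + (1 / 2 : ℝ)) * b.P1) rfl).2
    (b.o2⁻¹) rfl
    m.fa m.e_fa
    m.hg m.e_hg
    ((1 / 2) * m.hg) (congrArg (fun y : ℝ => y * m.hg) zS_549755813888_0)
    ((1 : ℝ) - (1 / 2) * m.hg) rfl
    ((1 : ℝ) - m.hg) rfl).2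
    (((1 : ℝ) - m.hg)⁻¹) rfl
    m.lsf m.e_lsf
    (m.hg + (1 : ℝ)) rfl
    m.Qb m.e_Qb
    (v.om1 * v.op1) rfl
    (v.c0 + v.t) rfl
    (v.om * v.c0) rfl
    (v.om * v.c0 * v.K) rfl
    (2 * (v.om * v.c0 * v.K)) (congrArg (fun y : ℝ => y * (v.om * v.c0 * v.K)) zS_2199023255552_0)
    (v.c2 + 2 * (v.om * v.c0 * v.K)) rfl
    ((v.c0 + v.t) * (v.c2 + 2 * (v.om * v.c0 * v.K))) rfl).2
    (((v.c0 + v.t) * (v.c2 + 2 * (v.om * v.c0 * v.K)))⁻¹) rfl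
    v3.hpt v3.e_hpt
    v3.hp v3.e_hp).2
    (v.SQ⁻¹) rfl
    v3.xp v3.e_xp
    ((11651 / 8388608) * v3.xp) (congrArg (fun y : ℝ => y * v3.xp) zS_1527119872_0)
    ((21845 / 524288 : ℝ) - (11651 / 8388608) * v3.xp) rfl
    (v3.xp * ((21845 / 524288 : ℝ) - (11651 / 8388608) * v3.xp)) rfl
    ((1 / 2 : ℝ) - v3.xp * ((21845 / 524288 : ℝ) - (11651 / 8388608) * v3.xp)) rfl
    (v3.xp * ((1 / 2 : ℝ) - v3.xp * ((21845 / 524288 : ℝ) - (11651 / 8388608) * v3.xp))) rfl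
    b'.cc b'.e_cc
    b'.q1 b'.e_q1
    (v.qp * v.qp) rfl
    (v.qp * v.qp + (1 : ℝ)) rfl
    (v.qp * b'.cc) rfl
    (2 * (v.qp * b'.cc)) (congrArg (fun y : ℝ => y * (v.qp * b'.cc)) zS_2199023255552_0)
    b'.o2 b'.e_o2).2
    (b'.q1⁻¹) rfl
    (b'.o2 * b'.q1⁻¹) rfl
    b'.P1 b'.e_P1
    (v.qp * v3.hp) rfl
    b'.qh (b'.e_qh.trans (congrArg (fun y : ℝ => y * (v.qp * v3.hp)) zS_549755813888_0))
    (b'.qh * b'.P1) rfl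
    b'.W b'.e_W
  change 0 < b'.o2 at p_o2p
  obtain ⟨p_Wp, s3⟩ := s2
  change 0 < b'.W at p_Wp
  obtain ⟨p_XM, s4⟩ := ((((((((((((((((((((((s3
    ((1 : ℝ) - v.qp) rfl
    (((1 : ℝ) - v.qp) * b'.q1) rfl).2
    (b'.W⁻¹) rfl
    (((1 : ℝ) - v.qp) * b'.q1 * b'.W⁻¹) rfl
    v4.gp (v4.e_gp.trans (congrArg (fun y : ℝ => y * (((1 : ℝ) - v.qp) * b'.q1 * b'.W⁻¹)) zS_549755813888_0))
    (v4.gp + (1 / 2 : ℝ)) rfl).2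
    ((v4.gp + (1 / 2 : ℝ))⁻¹) rfl
    v4.gap v4.e_gap
    v4.hgp v4.e_hgp
    (v.h + (1 : ℝ)) rfl).2
    v2.ih v2.e_ih
    (v.h * v2.ih) rfl
    v2.rh (v2.e_rh.trans (congrArg (fun y : ℝ => y * (v.h * v2.ih)) zS_2199023255552_0))
    v2.mi v2.e_mi
    v2.hm v2.e_hm
    v2.nih v2.e_nih
    (v2.nih * v2.mi) rfl
    v2.bsum v2.e_bsum
    v2.eK v2.e_eK
    (12 : ℝ) zS_13194139533312_0).2
    ((12 : ℝ)⁻¹) rfl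
    (v.e * (12 : ℝ)⁻¹) rfl
    (21 : ℝ) zS_23089744183296_0
    (10 : ℝ) zS_10995116277760_0).2
    ((10 : ℝ)⁻¹) rfl
    ((21 : ℝ) * (10 : ℝ)⁻¹) rfl
    A e_A).2
    iA e_iA
    ((209 / 1024) * v.j) (congrArg (fun y : ℝ => y * v.j) zS_224412041216_0)).2
    (v2.Yp⁻¹) rfl
    v2.lm v2.e_lm
    (A * v.op1) rfl
    m.Xe m.e_Xe
    m.XM m.e_XM
    ((1 : ℝ) - m.XM) rfl).2
    m.iX m.e_iX
    m.QX m.e_QX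
    ((1 : ℝ) - m.QX) rfl).2
    m.iQX m.e_iQX
    (v.t * hb.gR) rfl
    ((3 / 2) * (v.t * hb.gR)) (congrArg (fun y : ℝ => y * (v.t * hb.gR)) zS_1649267441664_0)
    (683 / 1024 : ℝ) zS_733365665792_0
    ((3 / 2) * (v.t * hb.gR) + (683 / 1024 : ℝ)) rfl
    phu (e_phu.trans (congrArg (fun y : ℝ => y * ((3 / 2) * (v.t * hb.gR) + (683 / 1024 : ℝ))) zS_549755813888_0))
    (2 * v.ei) (congrArg (fun y : ℝ => y * v.ei) zS_2199023255552_0)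
    Ei e_Ei
    Eh e_Eh
    (v.h * v.nj) rfl
    ((1 : ℝ) - v.f2) rfl
    (v.h * v.om) rfl
    (2 * (v.h * v.om)) (congrArg (fun y : ℝ => y * (v.h * v.om)) zS_2199023255552_0)
    ((1 : ℝ) - v.f2 - 2 * (v.h * v.om)) rfl
    (v.h * v.nj * (v.h * v.nj)) rfl
    m.N1 m.e_N1
    (m.N1 + (1 : ℝ)) rfl
    m.s (m.e_s.trans (congrArg (fun y : ℝ => y * (m.N1 + (1 : ℝ))) zS_549755813888_0))
    ((1 / 2) * v.R) (congrArg (fun y : ℝ => y * v.R) zS_549755813888_0)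
    (v.j - (1 / 2) * v.R) rfl
    (v.tu2 * ((1 : ℝ) - v.f2)) rfl
    (v.tu2 * ((1 : ℝ) - v.f2) * v.jm) rfl
    ((1 / 8) * (v.tu2 * ((1 : ℝ) - v.f2) * v.jm)) (congrArg (fun y : ℝ => y * (v.tu2 * ((1 : ℝ) - v.f2) * v.jm)) zS_137438953472_0)
    (v.j - (1 / 2) * v.R + (1 / 8) * (v.tu2 * ((1 : ℝ) - v.f2) * v.jm)) rfl
    m.k0 m.e_k0
    (v.om1 * v.h1t) rfl
    (v.om1 * v.h1t * v.tu) rfl
    (v.om1 * v.h1t * v.tu * hb.gR) rfl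
    (v.om1 * v.h1t * v.tu * hb.gR * m.lsf) rfl
    m.ls (ls_H m)
    m.Q1 m.e_Q1
    (m.Q1 * m.iX) rfl
    (m.Qb * m.iQX) rfl
    (m.Q1 * m.iX + m.Qb * m.iQX) rfl
    (m.XM * (m.Q1 * m.iX + m.Qb * m.iQX)) rfl
    (m.ls + m.XM * (m.Q1 * m.iX + m.Qb * m.iQX)) rfl
    m.a0 m.e_a0
    (m.Q1 * m.XM) rfl
    (m.Q1 * m.XM * m.iX) rfl
    (m.ls + m.Q1 * m.XM * m.iX) rfl
    m.l1 m.e_l1
    ((13 / 64) * m.l1) (congrArg (fun y : ℝ => y * m.l1) zS_223338299392_0)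
    ((1 / 2 : ℝ) + (13 / 64) * m.l1) rfl
    (m.l1 * ((1 / 2 : ℝ) + (13 / 64) * m.l1)) rfl
    m.Na m.e_Na
    ((13 / 16) * m.a0) (congrArg (fun y : ℝ => y * m.a0) zS_893353197568_0)
    ((1 : ℝ) + (13 / 16) * m.a0) rfl
    (m.a0 * ((1 : ℝ) + (13 / 16) * m.a0)) rfl
    m.Nb m.e_Nb
    (v2.rh * v2.nih) rfl
    (v2.rh * v2.nih * Ei) rfl
    m.rn m.e_rn
    (m.k0 * m.Na) rfl
    (v.aQ + (1 / 2 : ℝ)) rfl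
    (m.rn * (v.aQ + (1 / 2 : ℝ))) rfl
    m.ka m.e_ka
    (v.aQ + (1 : ℝ)) rfl
    m.kb m.e_kb
    (Eh * (v.aQ + (1 : ℝ))) rfl
    (Eh * (v.aQ + (1 : ℝ)) * v2.nih) rfl
    m.lfk m.e_lfk
    (v.tu * v2.bsum) rfl).2
    (v.aQ⁻¹) rfl
    (v.tu * v2.bsum * v.aQ⁻¹) rfl
    m.bte (m.e_bte.trans (congrArg (fun y : ℝ => y * (v.tu * v2.bsum * v.aQ⁻¹)) zS_549755813888_0))
    (v.h1t * v.tu) rfl
    (v.h1t * v.tu * hb.gR) rfl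
    m.lsi (lsi_H G m)
    (v.om1 * m.bte) rfl
    (m.ka * m.lsi) rfl
    (m.lfk * phu) rfl
    (m.ka * m.lsi + m.lfk * phu) rfl
    ((m.ka * m.lsi + m.lfk * phu) * v.ei) rfl
    m.src m.e_src
    (m.ka * m.Q1) rfl
    (m.ka * m.Q1 * m.iX) rfl
    (m.kb * m.Qb) rfl
    (m.kb * m.Qb * m.iQX) rfl
    (m.ka * m.Q1 * m.iX + m.kb * m.Qb * m.iQX) rfl
    m.fx m.e_fx
    (v.om1 * m.src) rfl
    (m.Xe * m.fx) rfl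
    m.eps m.e_eps
    (v.tu2 * m.eps) rfl
    (v.tu2 * m.eps * v.aQ⁻¹) rfl
    ((1 : ℝ) - v.tu2 * m.eps * v.aQ⁻¹) rfl).2
    m.NN m.e_NN
    m.eN m.e_eN
    m.d m.e_d
    m.eta m.e_eta
    (m.eta * v.aQ⁻¹) rfl
    ((1 : ℝ) - m.eta * v.aQ⁻¹) rfl
    (v.rhat * ((1 : ℝ) - m.eta * v.aQ⁻¹)) rfl
    m.rl m.e_rl).2
    m.irl m.e_irl
    m.yy m.e_yy
    ((1 : ℝ) - m.d) rfl).2
    c.od c.e_od
    (v.h1 * hb.gR) rfl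
    c.lsR c.e_lsR
    (hb.rhoR + c.lsR) rfl
    c.PR c.e_PR
    c.dP c.e_dP
    ((13 / 64) * c.dP) (congrArg (fun y : ℝ => y * c.dP) zS_223338299392_0)
    ((1 / 2 : ℝ) + (13 / 64) * c.dP) rfl
    (c.dP * ((1 / 2 : ℝ) + (13 / 64) * c.dP)) rfl
    c.Ee c.e_Ee
    (c.dP * c.Ee) rfl
    (c.dP * c.Ee * m.fa) rfl
    (c.dP * c.Ee * m.fa * m.Qb) rfl
    c.den c.e_den
    (c.PR * c.Ee) rfl
    (c.PR * c.Ee * m.NN) rfl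
    (c.PR * c.Ee * m.NN * v.ei) rfl).2
    (c.den⁻¹) rfl
    c.C c.e_C
    (c.C * v.u) rfl
    (m.ka * m.iX) rfl
    (m.kb * m.fa) rfl
    (m.kb * m.fa * m.Qb) rfl
    (m.kb * m.fa * m.Qb * m.iQX) rfl
    (m.ka * m.iX + m.kb * m.fa * m.Qb * m.iQX) rfl
    c.fbt c.e_fbt
    (m.ka * v.h1t) rfl
    (v.tu * hb.G) rfl
    (m.ka * v.h1t * (v.tu * hb.G)) rfl
    c.sl c.e_sl
    (A * v.tu) rfl
    (A * v.tu * v.op1) rfl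
    m.XLt m.e_XLt
    (9 : ℝ) zS_9895604649984_0
    (20 : ℝ) zS_21990232555520_0).2
    ((20 : ℝ)⁻¹) rfl
    m.beta m.e_beta).2
    (v.t⁻¹) rfl
    phut e_phut
    (c.C * iA) rfl
    (c.C * iA * v.u) rfl).2
    (v.op1⁻¹) rfl
    (c.C * iA * v.u * v.op1⁻¹) rfl
    (v.e * m.fa) rfl
    (v.e * m.fa * v.om1) rfl
    (v.u * v2.bsum) rfl
    (v.u * v2.bsum * v.aQ⁻¹) rfl
    ((1 / 2) * (v.u * v2.bsum * v.aQ⁻¹)) (congrArg (fun y : ℝ => y * (v.u * v2.bsum * v.aQ⁻¹)) zS_549755813888_0)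
    (v.e * m.fa * v.om1 * ((1 / 2) * (v.u * v2.bsum * v.aQ⁻¹))) rfl
    (m.ka * v.h1t * v.u) rfl
    (m.ka * v.h1t * v.u * hb.G) rfl
    (m.ka * v.h1t * v.u * hb.G * m.lsf) rfl
    (v.e * m.fa * v.om1 * ((1 / 2) * (v.u * v2.bsum * v.aQ⁻¹)) + m.ka * v.h1t * v.u * hb.G * m.lsf) rfl
    (m.fa * m.lfk) rfl
    (m.fa * m.lfk * phut) rfl
    (v.e * m.fa * v.om1 * ((1 / 2) * (v.u * v2.bsum * v.aQ⁻¹)) + m.ka * v.h1t * v.u * hb.G * m.lsf + m.fa * m.lfk * phut) rfl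
    c.FXt c.e_FXt
    (v.c0 * v.rhat) rfl
    (4 * (v.c0 * v.rhat)) (congrArg (fun y : ℝ => y * (v.c0 * v.rhat)) zS_4398046511104_0)
    (4 * (v.c0 * v.rhat) - v.Dt) rfl
    (v.u2 * (4 * (v.c0 * v.rhat) - v.Dt)) rfl
    c.zh c.e_zh
    (v.e * c.zh) rfl
    (v.t * c.zh) rfl
    (2 : ℝ) zS_2199023255552_0
    (v.t * c.zh + (2 : ℝ)) rfl).2
    ((v.t * c.zh + (2 : ℝ))⁻¹) rfl
    c.yh c.e_yh
    (v.t * c.yh) rfl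
    ((1 / 2) * (v.t * c.yh)) (congrArg (fun y : ℝ => y * (v.t * c.yh)) zS_549755813888_0)
    ((1 : ℝ) - (1 / 2) * (v.t * c.yh)) rfl
    (c.yh * ((1 : ℝ) - (1 / 2) * (v.t * c.yh))) rfl
    c.S1 c.e_S1
    (v3.hpt * v4.gap) rfl
    (c.S1 + v3.hpt * v4.gap) rfl
    (c.S1 * (v3.hpt * v4.gap)) rfl
    (v.t * (c.S1 * (v3.hpt * v4.gap))) rfl
    c.S2 c.e_S2
    (v.ee * c.zh) rfl
    (v4.hgp + (1 : ℝ)) rfl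
    (v3.hpt * v4.gap * (v4.hgp + (1 : ℝ))) rfl
    (v.ee * c.zh + v3.hpt * v4.gap * (v4.hgp + (1 : ℝ))) rfl
    c.drt c.e_drt
    c.dri c.e_dri
    ((5 / 8) * c.dri) (congrArg (fun y : ℝ => y * c.dri) zS_687194767360_0)
    ((1 : ℝ) + (5 / 8) * c.dri) rfl
    (c.drt * ((1 : ℝ) + (5 / 8) * c.dri)) rfl
    (c.S2 + c.drt * ((1 : ℝ) + (5 / 8) * c.dri)) rfl
    (c.S2 * (c.drt * ((1 : ℝ) + (5 / 8) * c.dri))) rfl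
    (v.t * (c.S2 * (c.drt * ((1 : ℝ) + (5 / 8) * c.dri)))) rfl
    c.S3 c.e_S3
    (v.u * v.n) rfl
    (v.u * v.n * (v.h + (1 : ℝ))) rfl
    (v.u * v.n * (v.h + (1 : ℝ)) * v.j) rfl
    (c.S3 + v.u * v.n * (v.h + (1 : ℝ)) * v.j) rfl
    (c.S3 * (v.u * v.n * (v.h + (1 : ℝ)) * v.j)) rfl
    (v.t * (c.S3 * (v.u * v.n * (v.h + (1 : ℝ)) * v.j))) rfl
    c.S4 c.e_S4
    c.Dh c.e_Dh
    (v.t * c.Dh) rfl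
    ((3 / 8) * (v.t * c.Dh)) (congrArg (fun y : ℝ => y * (v.t * c.Dh)) zS_412316860416_0)
    ((1 / 2 : ℝ) - (3 / 8) * (v.t * c.Dh)) rfl
    (c.Dh * ((1 / 2 : ℝ) - (3 / 8) * (v.t * c.Dh))) rfl
    (-(c.Dh * ((1 / 2 : ℝ) - (3 / 8) * (v.t * c.Dh)))) rfl
    (c.S4 + (-(c.Dh * ((1 / 2 : ℝ) - (3 / 8) * (v.t * c.Dh))))) rfl
    (c.S4 * (-(c.Dh * ((1 / 2 : ℝ) - (3 / 8) * (v.t * c.Dh))))) rfl
    (v.t * (c.S4 * (-(c.Dh * ((1 / 2 : ℝ) - (3 / 8) * (v.t * c.Dh)))))) rfl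
    c.S5 c.e_S5
    (v.u * m.eN) rfl
    (v.u * m.eN * v.op1⁻¹) rfl
    (c.S5 + v.u * m.eN * v.op1⁻¹) rfl
    (c.S5 * (v.u * m.eN * v.op1⁻¹)) rfl
    (v.t * (c.S5 * (v.u * m.eN * v.op1⁻¹))) rfl
    c.S6 c.e_S6
    ((v.h + (1 : ℝ)) * v.op1) rfl
    c.b1 c.e_b1
    (c.S6 - c.b1) rfl
    (v.t * c.b1) rfl
    ((1 : ℝ) + v.t * c.b1) rfl).2
    (((1 : ℝ) + v.t * c.b1)⁻¹) rfl
    c.S7 c.e_S7
    (v.u * v.tu) rfl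
    (v.u * v.tu * m.eN) rfl
    (v.aQ - m.eta) rfl).2
    ((v.aQ - m.eta)⁻¹) rfl
    (v.u * v.tu * m.eN * (v.aQ - m.eta)⁻¹) rfl
    (c.S7 + v.u * v.tu * m.eN * (v.aQ - m.eta)⁻¹) rfl
    (c.S7 * (v.u * v.tu * m.eN * (v.aQ - m.eta)⁻¹)) rfl
    (v.t * (c.S7 * (v.u * v.tu * m.eN * (v.aQ - m.eta)⁻¹))) rfl
    c.S8 c.e_S8
    (v.t * c.S8) rfl
    c.c1 c.e_c1
    (c.fbt * m.XM) rfl
    (v.t * m.XLt) rfl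
    (c.FXt * (v.t * m.XLt)) rfl
    c.rt c.e_rt
    (c.rt * c.c1) rfl
    (c.S8 + c.rt * c.c1) rfl
    (c.S8 + c.rt * c.c1 + c.fbt) rfl
    (c.S8 + c.rt * c.c1 + c.fbt + c.FXt) rfl
    c.Bm c.e_Bm
    (1 / 1024 : ℝ) zS_1073741824_0
    (c.Bm - (1 / 1024 : ℝ)) rfl
    m.m1 m.e_m1
    (m.m1 + (2 : ℝ)) rfl
    (2 * m.beta) (congrArg (fun y : ℝ => y * m.beta) zS_2199023255552_0)
    (m.m1 + (2 : ℝ) - 2 * m.beta) rfl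
    ((v.h + (1 : ℝ)) * (m.m1 + (2 : ℝ) - 2 * m.beta)) rfl
    (m.m1 * (2 * m.beta)) rfl
    (m.m1 * (2 * m.beta) + (1 : ℝ)) rfl).2
    ((m.m1 * (2 * m.beta) + (1 : ℝ))⁻¹) rfl
    ((v.h + (1 : ℝ)) * (m.m1 + (2 : ℝ) - 2 * m.beta) * (m.m1 * (2 * m.beta) + (1 : ℝ))⁻¹) rfl
    (A * m.fx) rfl
    ((1 / 2) * v2.lm) (congrArg (fun y : ℝ => y * v2.lm) zS_549755813888_0)
    (v.K + (1 / 2) * v2.lm) rfl
    (A * m.fx * (v.K + (1 / 2) * v2.lm)) rfl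
    (2 * (A * m.fx * (v.K + (1 / 2) * v2.lm))) (congrArg (fun y : ℝ => y * (A * m.fx * (v.K + (1 / 2) * v2.lm))) zS_2199023255552_0)
    (m.src + 2 * (A * m.fx * (v.K + (1 / 2) * v2.lm))) rfl
    (2 * (m.src + 2 * (A * m.fx * (v.K + (1 / 2) * v2.lm)))) (congrArg (fun y : ℝ => y * (m.src + 2 * (A * m.fx * (v.K + (1 / 2) * v2.lm)))) zS_2199023255552_0)
    (2 * (m.src + 2 * (A * m.fx * (v.K + (1 / 2) * v2.lm))) * m.NN) rfl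
    (v.tu * m.eN) rfl
    (v.op1 - v.tu * m.eN) rfl).2
    ((v.op1 - v.tu * m.eN)⁻¹) rfl
    (2 * (m.src + 2 * (A * m.fx * (v.K + (1 / 2) * v2.lm))) * m.NN * (v.op1 - v.tu * m.eN)⁻¹) rfl
    m.V m.e_V
  change 0 < (1 : ℝ) - m.XM at p_XM
  obtain ⟨p_QX, s5⟩ := s4
  change 0 < (1 : ℝ) - m.QX at p_QX
  obtain ⟨p_e2, s6⟩ := s5
    (2 * (v.tu2 * m.eps)) (congrArg (fun y : ℝ => y * (v.tu2 * m.eps)) zS_2199023255552_0)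
    (v.aQ - 2 * (v.tu2 * m.eps)) rfl
  change 0 < v.aQ - 2 * (v.tu2 * m.eps) at p_e2
  obtain ⟨p_rl, s7⟩ := s6
  change 0 < m.rl at p_rl
  obtain ⟨p_hg, s8⟩ := s7
  change 0 < (1 : ℝ) - m.hg at p_hg
  obtain ⟨p_hgp, s9⟩ := s8
    ((1 / 2 : ℝ) - v4.hgp) rfl
  change 0 < (1 / 2 : ℝ) - v4.hgp at p_hgp
  obtain ⟨p_l1, s10⟩ := s9
    ((5 / 8) * (1 : ℝ)) (congrArg (fun y : ℝ => y * (1 : ℝ)) zS_687194767360_0)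
    ((5 / 8) * (1 : ℝ) - m.l1) rfl
  change 0 < (5 / 8) * (1 : ℝ) - m.l1 at p_l1
  obtain ⟨p_a0, s11⟩ := s10
    ((11 / 32) * (1 : ℝ)) (congrArg (fun y : ℝ => y * (1 : ℝ)) zS_377957122048_0)
    ((11 / 32) * (1 : ℝ) - m.a0) rfl
  change 0 < (11 / 32) * (1 : ℝ) - m.a0 at p_a0
  obtain ⟨p_S, s12⟩ := s11
  change 0 < v.op1 - v.tu * m.eN at p_S
  obtain ⟨p_dri, s13⟩ := s12
    ((1 / 2 : ℝ) - c.dri) rfl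
  change 0 < (1 / 2 : ℝ) - c.dri at p_dri
  obtain ⟨p_d, s14⟩ := s13
  change 0 < (1 : ℝ) - m.d at p_d
  obtain ⟨p_den, s15⟩ := s14
  change 0 < c.den at p_den
  obtain ⟨p_dP, s16⟩ := s15
    ((5 / 8) * (1 : ℝ) - c.dP) rfl
  change 0 < (5 / 8) * (1 : ℝ) - c.dP at p_dP
  obtain ⟨p_V, s17⟩ := s16
  change 0 < m.V at p_V
  obtain ⟨p_B, s18⟩ := s17
  change 0 < c.Bm - (1 / 1024 : ℝ) at p_B
  have hga := gam_H G hb p_o2 p_W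
  obtain ⟨lf0, Ex, hφ⟩ := phi_sq G v2 he2 hga hb.e_ga (by norm_num) (by norm_num) (by norm_num) e_phu e_Ei e_Eh
  exact far_H G ⟨p_o2, p_W, p_o2p, p_Wp, p_XM, p_QX, p_e2, p_rl, p_hg, p_hgp, p_l1, p_a0, p_S, p_V⟩ D hA hiA hφ (fun _ _ _ τ' h1 _ => hE τ' h1) c (by rw [e_phut, mul_comm, mul_assoc, inv_mul_cancel₀ G.t0.ne', mul_one])
    p_dri p_d p_den p_dP p_B

theorem far_S3 {κ : ℝ} {τ : ℂ} {R w : ℝ} {E : Set ℂ} (D : PtD κ τ R w) {v : B1}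
    (G : Geo κ (shf κ τ) v) (v2 : B2 v) (he2 : 2 ≤ v.e) (h : RAs Pool.Agent.helper71.FF.Crt.S.prog3 [v.e, v.t, v.u, v.n])
    (hE : ∀ τ' : ℂ, 0 < τ'.re → τ' ∈ E) :
    FarPt v.e κ (1 - Real.sinh κ / 1024) w (2 * AS v.e v.K * Real.sinh κ ^ 2) R E τ := by
  obtain ⟨A, e_A⟩ : ∃ zz : ℝ, zz = v.e * (12 : ℝ)⁻¹ + (21 : ℝ) * (10 : ℝ)⁻¹ := ⟨_, rfl⟩
  obtain ⟨iA, e_iA⟩ : ∃ zz : ℝ, zz = A⁻¹ := ⟨_, rfl⟩
  obtain ⟨hA, hiA, hAe⟩ := ab_S G v2 e_A e_iA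
  rw [hAe]
  obtain ⟨b⟩ := exGB v.q v.x v.h1
  obtain ⟨v3⟩ := exB3 v
  obtain ⟨b'⟩ := exGB v.qp v3.xp v3.hp
  obtain ⟨v4⟩ := exB4 v3 b'
  obtain ⟨g, e_g⟩ : ∃ zz : ℝ, zz = (1 / 2) * (((1 : ℝ) - v.q) * b.q1 * b.W⁻¹) := ⟨_, rfl⟩
  obtain ⟨ga, e_ga⟩ : ∃ zz : ℝ, zz = g * (g + (1 / 2 : ℝ))⁻¹ := ⟨_, rfl⟩
  obtain ⟨i2, e_i2⟩ : ∃ zz : ℝ, zz = (v2.eK + (2 : ℝ))⁻¹ := ⟨_, rfl⟩
  obtain ⟨z, e_z⟩ : ∃ zz : ℝ, zz = v.om1 * v.e * v.t * i2 := ⟨_, rfl⟩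
  obtain ⟨kz, e_kz⟩ : ∃ zz : ℝ, zz = ((1 : ℝ) - (1 / 2) * z) * ((1 : ℝ) - z)⁻¹ := ⟨_, rfl⟩
  obtain ⟨kk, e_kk⟩ : ∃ zz : ℝ, zz = kz * i2 * v.e := ⟨_, rfl⟩
  obtain ⟨phu, e_phu⟩ : ∃ zz : ℝ, zz = v.t * v.nj * kk := ⟨_, rfl⟩
  obtain ⟨lf, e_lf⟩ : ∃ zz : ℝ, zz = z * kz := ⟨_, rfl⟩
  obtain ⟨L, e_L⟩ : ∃ zz : ℝ, zz = lf * v.ei := ⟨_, rfl⟩
  obtain ⟨Ei, e_Ei⟩ : ∃ zz : ℝ, zz = (1 : ℝ) + L * ((45 / 16) * L + (2 : ℝ)) := ⟨_, rfl⟩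
  obtain ⟨Eh, e_Eh⟩ : ∃ zz : ℝ, zz = (1 : ℝ) + L * ((45 / 32) * L + (1 : ℝ)) := ⟨_, rfl⟩
  obtain ⟨m⟩ := exMid v v2 b A g ga phu Ei Eh
  obtain ⟨c⟩ := exCF m iA
  obtain ⟨f⟩ := exFinS m v4 c.fbt c.FX
  obtain ⟨p_o2, s0⟩ := (((((((h
    (1 : ℝ) zS_1099511627776_0
    (1 / 2 : ℝ) zS_549755813888_0
    v.tu v.e_tu
    (v.tu * v.n) rfl
    v.h (v.e_h.trans (congrArg (fun y : ℝ => y * (v.tu * v.n)) zS_549755813888_0))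
    v.u2 v.e_u2
    (v.h * v.h) rfl
    v.jm v.e_jm).2
    v.j v.e_j
    (v.h * v.j) rfl
    v.K (v.e_K.trans (congrArg (fun y : ℝ => y * (v.h * v.j)) zS_2199023255552_0))
    (2 * v.j) (congrArg (fun y : ℝ => y * v.j) zS_2199023255552_0)
    v.c0 v.e_c0
    v.m v.e_m
    v.nj v.e_nj
    v.om v.e_om
    v.om1 v.e_om1
    v.op1 v.e_op1
    v2.Y (v2.e_Y.trans (congrArg (fun y : ℝ => y * v.h) zS_10774999203840_0))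
    ((341 / 8192) * v2.Y) (congrArg (fun y : ℝ => y * v2.Y) zS_45768245248_0)
    (1365 / 8192 : ℝ) zS_183207198720_0
    ((341 / 8192) * v2.Y + (1365 / 8192 : ℝ)) rfl
    (v2.Y * ((341 / 8192) * v2.Y + (1365 / 8192 : ℝ))) rfl
    ((1 / 2 : ℝ) + v2.Y * ((341 / 8192) * v2.Y + (1365 / 8192 : ℝ))) rfl
    (v2.Y * ((1 / 2 : ℝ) + v2.Y * ((341 / 8192) * v2.Y + (1365 / 8192 : ℝ)))) rfl
    v2.pY v2.e_pY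
    (v2.Y * v2.pY) rfl
    ((1 / 2) * (v2.Y * v2.pY)) (congrArg (fun y : ℝ => y * (v2.Y * v2.pY)) zS_549755813888_0)
    ((1 : ℝ) + (1 / 2) * (v2.Y * v2.pY)) rfl
    v2.Yp v2.e_Yp
    v.R v.e_R
    (v.K * v.om) rfl
    (2 * v.c0) (congrArg (fun y : ℝ => y * v.c0) zS_2199023255552_0)
    (v.K * v.om + 2 * v.c0) rfl
    v.Dt v.e_Dt
    v.D v.e_D
    v.SQ v.e_SQ
    (v.K * v.K) rfl
    (2 * (v.K * v.K)) (congrArg (fun y : ℝ => y * (v.K * v.K)) zS_2199023255552_0)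
    v.c2 v.e_c2
    (v.c0 * v.Dt) rfl
    v.rhat v.e_rhat).2
    v.LQ v.e_LQ
    ((1 / 2) * v.LQ) (congrArg (fun y : ℝ => y * v.LQ) zS_549755813888_0)
    v.aQ v.e_aQ
    v.ee (v.e_ee.trans (congrArg (fun y : ℝ => y * v.e) zS_549755813888_0))
    v.rho v.e_rho
    (-v.rho) rfl
    v.q v.e_q
    (v.c0 * v.R) rfl
    (v.c0 * v.R * v.rhat) rfl
    v.D2 (v.e_D2.trans (congrArg (fun y : ℝ => y * (v.c0 * v.R * v.rhat)) zS_4398046511104_0))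
    (v.D2 + (1 : ℝ)) rfl).2
    (Real.log (v.D2 + (1 : ℝ))) rfl
    v.L2 v.e_L2
    v.rp v.e_rp
    (-v.rp) rfl
    v.qp v.e_qp
    (v.om * v.K) rfl
    (v.c0 + v.om * v.K) rfl).2
    v.ioK v.e_ioK
    v.h1t v.e_h1t
    (v.om1 * v.t) rfl
    v.h1 v.e_h1
    v.nj2 v.e_nj2
    ((1 : ℝ) - v.u2) rfl
    v.f2 v.e_f2
    v.tu2 v.e_tu2
    (v.c0 + v.R) rfl).2
    ((v.c0 + v.R)⁻¹) rfl
    v.w v.e_w
    (v.w * v.w) rfl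
    (v.tu2 * ((1 : ℝ) - v.u2)) rfl
    ((1 : ℝ) - v.nj2) rfl
    (v.tu2 * ((1 : ℝ) - v.u2) * ((1 : ℝ) - v.nj2)) rfl
    v.x v.e_x).2
    v.ei v.e_ei
    (21845 / 524288 : ℝ) zS_45812285440_0
    ((11651 / 8388608) * v.x) (congrArg (fun y : ℝ => y * v.x) zS_1527119872_0)
    ((21845 / 524288 : ℝ) - (11651 / 8388608) * v.x) rfl
    (v.x * ((21845 / 524288 : ℝ) - (11651 / 8388608) * v.x)) rfl
    ((1 / 2 : ℝ) - v.x * ((21845 / 524288 : ℝ) - (11651 / 8388608) * v.x)) rfl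
    (v.x * ((1 / 2 : ℝ) - v.x * ((21845 / 524288 : ℝ) - (11651 / 8388608) * v.x))) rfl
    b.cc b.e_cc
    b.q1 b.e_q1
    (v.q * v.q) rfl
    (v.q * v.q + (1 : ℝ)) rfl
    (v.q * b.cc) rfl
    (2 * (v.q * b.cc)) (congrArg (fun y : ℝ => y * (v.q * b.cc)) zS_2199023255552_0)
    b.o2 b.e_o2).2
    (b.q1⁻¹) rfl
    (b.o2 * b.q1⁻¹) rfl
    b.P1 b.e_P1
    (v.q * v.h1) rfl
    b.qh (b.e_qh.trans (congrArg (fun y : ℝ => y * (v.q * v.h1)) zS_549755813888_0))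
    (b.qh * b.P1) rfl
    b.W b.e_W
  change 0 < b.o2 at p_o2
  obtain ⟨p_W, s1⟩ := s0
  change 0 < b.W at p_W
  obtain ⟨p_o2p, s2⟩ := ((((((((s1).2
    b.W⁻¹ rfl
    (v.ee * v.Dt) rfl
    (6 : ℝ) zS_6597069766656_0
    (v.D + (6 : ℝ)) rfl
    (v.ee * v.Dt * (v.D + (6 : ℝ))) rfl
    (4 * v.D) (congrArg (fun y : ℝ => y * v.D) zS_4398046511104_0)
    (4 * v.D + (6 : ℝ)) rfl).2
    ((4 * v.D + (6 : ℝ))⁻¹) rfl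
    c.rhoR c.e_rhoR
    ((1 : ℝ) - v.q) rfl
    (((1 : ℝ) - v.q) * b.q1) rfl
    (((1 : ℝ) - v.q) * b.q1 * b.W⁻¹) rfl
    g (e_g.trans (congrArg (fun y : ℝ => y * (((1 : ℝ) - v.q) * b.q1 * b.W⁻¹)) zS_549755813888_0))
    (g + (1 / 2 : ℝ)) rfl).2
    ((g + (1 / 2 : ℝ))⁻¹) rfl
    ga e_ga
    (b.qh * g) rfl
    (b.qh * g + (1 / 2 : ℝ)) rfl
    ((b.qh * g + (1 / 2 : ℝ)) * b.P1) rfl).2
    (b.o2⁻¹) rfl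
    m.fa m.e_fa
    m.hg m.e_hg
    ((1 / 2) * m.hg) (congrArg (fun y : ℝ => y * m.hg) zS_549755813888_0)
    ((1 : ℝ) - (1 / 2) * m.hg) rfl
    ((1 : ℝ) - m.hg) rfl).2
    (((1 : ℝ) - m.hg)⁻¹) rfl
    m.lsf m.e_lsf
    (m.hg + (1 : ℝ)) rfl
    m.Qb m.e_Qb
    (v.om1 * v.op1) rfl
    (v.c0 + v.t) rfl
    (v.om * v.c0) rfl
    (v.om * v.c0 * v.K) rfl
    (2 * (v.om * v.c0 * v.K)) (congrArg (fun y : ℝ => y * (v.om * v.c0 * v.K)) zS_2199023255552_0)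
    (v.c2 + 2 * (v.om * v.c0 * v.K)) rfl
    ((v.c0 + v.t) * (v.c2 + 2 * (v.om * v.c0 * v.K))) rfl).2
    (((v.c0 + v.t) * (v.c2 + 2 * (v.om * v.c0 * v.K)))⁻¹) rfl
    v3.hpt v3.e_hpt
    v3.hp v3.e_hp).2
    (v.SQ⁻¹) rfl
    v3.xp v3.e_xp
    ((11651 / 8388608) * v3.xp) (congrArg (fun y : ℝ => y * v3.xp) zS_1527119872_0)
    ((21845 / 524288 : ℝ) - (11651 / 8388608) * v3.xp) rfl
    (v3.xp * ((21845 / 524288 : ℝ) - (11651 / 8388608) * v3.xp)) rfl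
    ((1 / 2 : ℝ) - v3.xp * ((21845 / 524288 : ℝ) - (11651 / 8388608) * v3.xp)) rfl
    (v3.xp * ((1 / 2 : ℝ) - v3.xp * ((21845 / 524288 : ℝ) - (11651 / 8388608) * v3.xp))) rfl
    b'.cc b'.e_cc
    b'.q1 b'.e_q1
    (v.qp * v.qp) rfl
    (v.qp * v.qp + (1 : ℝ)) rfl
    (v.qp * b'.cc) rfl
    (2 * (v.qp * b'.cc)) (congrArg (fun y : ℝ => y * (v.qp * b'.cc)) zS_2199023255552_0)
    b'.o2 b'.e_o2).2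
    (b'.q1⁻¹) rfl
    (b'.o2 * b'.q1⁻¹) rfl
    b'.P1 b'.e_P1
    (v.qp * v3.hp) rfl
    b'.qh (b'.e_qh.trans (congrArg (fun y : ℝ => y * (v.qp * v3.hp)) zS_549755813888_0))
    (b'.qh * b'.P1) rfl
    b'.W b'.e_W
  change 0 < b'.o2 at p_o2p
  obtain ⟨p_Wp, s3⟩ := s2
  change 0 < b'.W at p_Wp
  obtain ⟨p_z1, s4⟩ := (((((((((((s3
    ((1 : ℝ) - v.qp) rfl
    (((1 : ℝ) - v.qp) * b'.q1) rfl).2
    (b'.W⁻¹) rfl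
    (((1 : ℝ) - v.qp) * b'.q1 * b'.W⁻¹) rfl
    v4.gp (v4.e_gp.trans (congrArg (fun y : ℝ => y * (((1 : ℝ) - v.qp) * b'.q1 * b'.W⁻¹)) zS_549755813888_0))
    (v4.gp + (1 / 2 : ℝ)) rfl).2
    ((v4.gp + (1 / 2 : ℝ))⁻¹) rfl
    v4.gap v4.e_gap
    v4.hgp v4.e_hgp
    (v.h + (1 : ℝ)) rfl).2
    v2.ih v2.e_ih
    (v.h * v2.ih) rfl
    v2.rh (v2.e_rh.trans (congrArg (fun y : ℝ => y * (v.h * v2.ih)) zS_2199023255552_0))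
    v2.mi v2.e_mi
    v2.hm v2.e_hm
    v2.nih v2.e_nih
    (v2.nih * v2.mi) rfl
    v2.bsum v2.e_bsum
    v2.eK v2.e_eK
    (12 : ℝ) zS_13194139533312_0).2
    ((12 : ℝ)⁻¹) rfl
    (v.e * (12 : ℝ)⁻¹) rfl
    (21 : ℝ) zS_23089744183296_0
    (10 : ℝ) zS_10995116277760_0).2
    ((10 : ℝ)⁻¹) rfl
    ((21 : ℝ) * (10 : ℝ)⁻¹) rfl
    A e_A).2
    iA e_iA
    ((209 / 1024) * v.j) (congrArg (fun y : ℝ => y * v.j) zS_224412041216_0)).2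
    (v2.Yp⁻¹) rfl
    v2.lm v2.e_lm
    (A * v.op1) rfl
    m.Xe m.e_Xe
    m.XM m.e_XM
    ((1 : ℝ) - m.XM) rfl).2
    m.iX m.e_iX
    m.QX m.e_QX
    ((1 : ℝ) - m.QX) rfl).2
    m.iQX m.e_iQX
    (2 : ℝ) zS_2199023255552_0
    (v2.eK + (2 : ℝ)) rfl).2
    i2 e_i2
    (v.om1 * v.e) rfl
    (v.om1 * v.e * v.t) rfl
    z e_z
    ((1 / 2) * z) (congrArg (fun y : ℝ => y * z) zS_549755813888_0)
    ((1 : ℝ) - (1 / 2) * z) rfl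
    ((1 : ℝ) - z) rfl).2
    (((1 : ℝ) - z)⁻¹) rfl
    kz e_kz
    (kz * i2) rfl
    kk e_kk
    (v.t * v.nj) rfl
    phu e_phu
    lf e_lf
  change 0 < (1 : ℝ) - z at p_z1
  obtain ⟨p_L, s5⟩ := s4
    L e_L
    ((5 / 4) * L) (congrArg (fun y : ℝ => y * L) zS_1374389534720_0)
    ((1 / 2 : ℝ) - (5 / 4) * L) rfl
  change 0 < (1 / 2 : ℝ) - (5 / 4) * L at p_L
  obtain ⟨p_XM, s6⟩ := (((((((((((((s5
    ((45 / 16) * L) (congrArg (fun y : ℝ => y * L) zS_3092376453120_0)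
    ((45 / 16) * L + (2 : ℝ)) rfl
    (L * ((45 / 16) * L + (2 : ℝ))) rfl
    Ei e_Ei
    ((45 / 32) * L) (congrArg (fun y : ℝ => y * L) zS_1546188226560_0)
    ((45 / 32) * L + (1 : ℝ)) rfl
    (L * ((45 / 32) * L + (1 : ℝ))) rfl
    Eh e_Eh
    (v.h * v.nj) rfl
    ((1 : ℝ) - v.f2) rfl
    (v.h * v.om) rfl
    (2 * (v.h * v.om)) (congrArg (fun y : ℝ => y * (v.h * v.om)) zS_2199023255552_0)
    ((1 : ℝ) - v.f2 - 2 * (v.h * v.om)) rfl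
    (v.h * v.nj * (v.h * v.nj)) rfl
    m.N1 m.e_N1
    (m.N1 + (1 : ℝ)) rfl
    m.s (m.e_s.trans (congrArg (fun y : ℝ => y * (m.N1 + (1 : ℝ))) zS_549755813888_0))
    ((1 / 2) * v.R) (congrArg (fun y : ℝ => y * v.R) zS_549755813888_0)
    (v.j - (1 / 2) * v.R) rfl
    (v.tu2 * ((1 : ℝ) - v.f2)) rfl
    (v.tu2 * ((1 : ℝ) - v.f2) * v.jm) rfl
    ((1 / 8) * (v.tu2 * ((1 : ℝ) - v.f2) * v.jm)) (congrArg (fun y : ℝ => y * (v.tu2 * ((1 : ℝ) - v.f2) * v.jm)) zS_137438953472_0)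
    (v.j - (1 / 2) * v.R + (1 / 8) * (v.tu2 * ((1 : ℝ) - v.f2) * v.jm)) rfl
    m.k0 m.e_k0
    m.ls m.e_ls
    m.Q1 m.e_Q1
    (m.Q1 * m.iX) rfl
    (m.Qb * m.iQX) rfl
    (m.Q1 * m.iX + m.Qb * m.iQX) rfl
    (m.XM * (m.Q1 * m.iX + m.Qb * m.iQX)) rfl
    (m.ls + m.XM * (m.Q1 * m.iX + m.Qb * m.iQX)) rfl
    m.a0 m.e_a0
    (m.Q1 * m.XM) rfl
    (m.Q1 * m.XM * m.iX) rfl
    (m.ls + m.Q1 * m.XM * m.iX) rfl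
    m.l1 m.e_l1
    ((13 / 64) * m.l1) (congrArg (fun y : ℝ => y * m.l1) zS_223338299392_0)
    ((1 / 2 : ℝ) + (13 / 64) * m.l1) rfl
    (m.l1 * ((1 / 2 : ℝ) + (13 / 64) * m.l1)) rfl
    m.Na m.e_Na
    ((13 / 16) * m.a0) (congrArg (fun y : ℝ => y * m.a0) zS_893353197568_0)
    ((1 : ℝ) + (13 / 16) * m.a0) rfl
    (m.a0 * ((1 : ℝ) + (13 / 16) * m.a0)) rfl
    m.Nb m.e_Nb
    (v2.rh * v2.nih) rfl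
    (v2.rh * v2.nih * Ei) rfl
    m.rn m.e_rn
    (m.k0 * m.Na) rfl
    (v.aQ + (1 / 2 : ℝ)) rfl
    (m.rn * (v.aQ + (1 / 2 : ℝ))) rfl
    m.ka m.e_ka
    (v.aQ + (1 : ℝ)) rfl
    m.kb m.e_kb
    (Eh * (v.aQ + (1 : ℝ))) rfl
    (Eh * (v.aQ + (1 : ℝ)) * v2.nih) rfl
    m.lfk m.e_lfk
    (v.tu * v2.bsum) rfl).2
    (v.aQ⁻¹) rfl
    (v.tu * v2.bsum * v.aQ⁻¹) rfl
    m.bte (m.e_bte.trans (congrArg (fun y : ℝ => y * (v.tu * v2.bsum * v.aQ⁻¹)) zS_549755813888_0))).2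
    (v.u⁻¹) rfl
    (v.h1t * v.u⁻¹) rfl
    (v.h1t * v.u⁻¹ * ga) rfl
    m.lsi m.e_lsi
    (v.om1 * m.bte) rfl
    (m.ka * m.lsi) rfl
    (m.lfk * phu) rfl
    (m.ka * m.lsi + m.lfk * phu) rfl
    ((m.ka * m.lsi + m.lfk * phu) * v.ei) rfl
    m.src m.e_src
    (m.ka * m.Q1) rfl
    (m.ka * m.Q1 * m.iX) rfl
    (m.kb * m.Qb) rfl
    (m.kb * m.Qb * m.iQX) rfl
    (m.ka * m.Q1 * m.iX + m.kb * m.Qb * m.iQX) rfl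
    m.fx m.e_fx
    (v.om1 * m.src) rfl
    (m.Xe * m.fx) rfl
    m.eps m.e_eps
    (v.tu2 * m.eps) rfl
    (v.tu2 * m.eps * v.aQ⁻¹) rfl
    ((1 : ℝ) - v.tu2 * m.eps * v.aQ⁻¹) rfl).2
    m.NN m.e_NN
    m.eN m.e_eN
    m.d m.e_d
    m.eta m.e_eta
    (m.eta * v.aQ⁻¹) rfl
    ((1 : ℝ) - m.eta * v.aQ⁻¹) rfl
    (v.rhat * ((1 : ℝ) - m.eta * v.aQ⁻¹)) rfl
    m.rl m.e_rl).2
    m.irl m.e_irl
    m.yy m.e_yy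
    ((1 : ℝ) - m.d) rfl).2
    c.od c.e_od).2
    (v.R⁻¹) rfl
    c.lsR c.e_lsR
    (c.rhoR + c.lsR) rfl
    c.PR c.e_PR
    c.dP c.e_dP
    ((13 / 64) * c.dP) (congrArg (fun y : ℝ => y * c.dP) zS_223338299392_0)
    ((1 / 2 : ℝ) + (13 / 64) * c.dP) rfl
    (c.dP * ((1 / 2 : ℝ) + (13 / 64) * c.dP)) rfl
    c.Ee c.e_Ee
    (c.dP * c.Ee) rfl
    (c.dP * c.Ee * m.fa) rfl
    (c.dP * c.Ee * m.fa * m.Qb) rfl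
    c.den c.e_den
    (c.PR * c.Ee) rfl
    (c.PR * c.Ee * m.NN) rfl
    (c.PR * c.Ee * m.NN * v.ei) rfl).2
    (c.den⁻¹) rfl
    c.C c.e_C
    (c.C * v.u) rfl
    (m.ka * m.iX) rfl
    (m.kb * m.fa) rfl
    (m.kb * m.fa * m.Qb) rfl
    (m.kb * m.fa * m.Qb * m.iQX) rfl
    (m.ka * m.iX + m.kb * m.fa * m.Qb * m.iQX) rfl
    c.fbt c.e_fbt
    (m.ka * v.h1t) rfl
    (m.ka * v.h1t * v.u⁻¹) rfl
    (m.ka * v.h1t * v.u⁻¹ * g) rfl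
    c.sl c.e_sl
    (c.C * iA) rfl
    (c.C * iA * v.u) rfl).2
    (v.op1⁻¹) rfl
    (c.C * iA * v.u * v.op1⁻¹) rfl
    (v.e * m.fa) rfl
    (v.e * m.fa * v.om1) rfl
    (v.e * m.fa * v.om1 * m.bte) rfl
    (v.e * m.fa * v.om1 * m.bte + c.sl) rfl
    (m.fa * m.lfk) rfl
    (m.fa * m.lfk * phu) rfl
    (v.e * m.fa * v.om1 * m.bte + c.sl + m.fa * m.lfk * phu) rfl
    c.FX c.e_FX
    (A * v.tu) rfl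
    (A * v.tu * v.op1) rfl
    m.XLt m.e_XLt
    (9 : ℝ) zS_9895604649984_0
    (20 : ℝ) zS_21990232555520_0).2
    ((20 : ℝ)⁻¹) rfl
    m.beta m.e_beta
    (v4.hgp + (1 : ℝ)) rfl
    (v4.hgp * (v4.hgp + (1 : ℝ))) rfl
    (v.rp + v4.hgp * (v4.hgp + (1 : ℝ))) rfl
    f.dri f.e_dri
    (v.qp * (v4.hgp + (1 : ℝ))) rfl
    ((5 / 8) * f.dri) (congrArg (fun y : ℝ => y * f.dri) zS_687194767360_0)
    ((1 : ℝ) + (5 / 8) * f.dri) rfl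
    (f.dri * ((1 : ℝ) + (5 / 8) * f.dri)) rfl
    ((1 : ℝ) + f.dri * ((1 : ℝ) + (5 / 8) * f.dri)) rfl
    f.Qp f.e_Qp
    (v.K + v.t) rfl
    ((v.h + (1 : ℝ)) * (v.K + v.t)) rfl
    ((v.h + (1 : ℝ)) * (v.K + v.t) * m.beta) rfl
    ((1 : ℝ) + (v.h + (1 : ℝ)) * (v.K + v.t) * m.beta) rfl).2
    f.Lam f.e_Lam
    (f.Qp * f.Lam) rfl
    (f.Qp * f.Lam * v.m) rfl
    (v.tu * m.eN) rfl
    (v.tu * m.eN * v.op1⁻¹) rfl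
    ((1 : ℝ) + v.tu * m.eN * v.op1⁻¹) rfl
    (f.Qp * f.Lam * v.m * ((1 : ℝ) + v.tu * m.eN * v.op1⁻¹)) rfl
    (v.aQ - m.eta) rfl).2
    ((v.aQ - m.eta)⁻¹) rfl
    f.c1 f.e_c1
    f.fb f.e_fb
    (f.fb * m.XM) rfl
    (v.t * m.XLt) rfl
    (c.FX * (v.t * m.XLt)) rfl
    f.r f.e_r
    (f.fb + c.FX) rfl
    ((1 : ℝ) + f.r) rfl
    (f.c1 * ((1 : ℝ) + f.r)) rfl
    (f.fb + c.FX + f.c1 * ((1 : ℝ) + f.r)) rfl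
    f.Bm f.e_Bm
    ((1 / 1024) * v.t) (congrArg (fun y : ℝ => y * v.t) zS_1073741824_0)
    (f.Bm - (1 / 1024) * v.t) rfl
    m.m1 m.e_m1
    (m.m1 + (2 : ℝ)) rfl
    (2 * m.beta) (congrArg (fun y : ℝ => y * m.beta) zS_2199023255552_0)
    (m.m1 + (2 : ℝ) - 2 * m.beta) rfl
    ((v.h + (1 : ℝ)) * (m.m1 + (2 : ℝ) - 2 * m.beta)) rfl
    (m.m1 * (2 * m.beta)) rfl
    (m.m1 * (2 * m.beta) + (1 : ℝ)) rfl).2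
    ((m.m1 * (2 * m.beta) + (1 : ℝ))⁻¹) rfl
    ((v.h + (1 : ℝ)) * (m.m1 + (2 : ℝ) - 2 * m.beta) * (m.m1 * (2 * m.beta) + (1 : ℝ))⁻¹) rfl
    (A * m.fx) rfl
    ((1 / 2) * v2.lm) (congrArg (fun y : ℝ => y * v2.lm) zS_549755813888_0)
    (v.K + (1 / 2) * v2.lm) rfl
    (A * m.fx * (v.K + (1 / 2) * v2.lm)) rfl
    (2 * (A * m.fx * (v.K + (1 / 2) * v2.lm))) (congrArg (fun y : ℝ => y * (A * m.fx * (v.K + (1 / 2) * v2.lm))) zS_2199023255552_0)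
    (m.src + 2 * (A * m.fx * (v.K + (1 / 2) * v2.lm))) rfl
    (2 * (m.src + 2 * (A * m.fx * (v.K + (1 / 2) * v2.lm)))) (congrArg (fun y : ℝ => y * (m.src + 2 * (A * m.fx * (v.K + (1 / 2) * v2.lm)))) zS_2199023255552_0)
    (2 * (m.src + 2 * (A * m.fx * (v.K + (1 / 2) * v2.lm))) * m.NN) rfl
    (v.op1 - v.tu * m.eN) rfl).2
    ((v.op1 - v.tu * m.eN)⁻¹) rfl
    (2 * (m.src + 2 * (A * m.fx * (v.K + (1 / 2) * v2.lm))) * m.NN * (v.op1 - v.tu * m.eN)⁻¹) rfl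
    m.V m.e_V
  change 0 < (1 : ℝ) - m.XM at p_XM
  obtain ⟨p_QX, s7⟩ := s6
  change 0 < (1 : ℝ) - m.QX at p_QX
  obtain ⟨p_e2, s8⟩ := s7
    (2 * (v.tu2 * m.eps)) (congrArg (fun y : ℝ => y * (v.tu2 * m.eps)) zS_2199023255552_0)
    (v.aQ - 2 * (v.tu2 * m.eps)) rfl
  change 0 < v.aQ - 2 * (v.tu2 * m.eps) at p_e2
  obtain ⟨p_rl, s9⟩ := s8
  change 0 < m.rl at p_rl
  obtain ⟨p_hg, s10⟩ := s9
  change 0 < (1 : ℝ) - m.hg at p_hg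
  obtain ⟨p_hgp, s11⟩ := s10
    ((1 / 2 : ℝ) - v4.hgp) rfl
  change 0 < (1 / 2 : ℝ) - v4.hgp at p_hgp
  obtain ⟨p_l1, s12⟩ := s11
    ((5 / 8) * (1 : ℝ)) (congrArg (fun y : ℝ => y * (1 : ℝ)) zS_687194767360_0)
    ((5 / 8) * (1 : ℝ) - m.l1) rfl
  change 0 < (5 / 8) * (1 : ℝ) - m.l1 at p_l1
  obtain ⟨p_a0, s13⟩ := s12
    ((11 / 32) * (1 : ℝ)) (congrArg (fun y : ℝ => y * (1 : ℝ)) zS_377957122048_0)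
    ((11 / 32) * (1 : ℝ) - m.a0) rfl
  change 0 < (11 / 32) * (1 : ℝ) - m.a0 at p_a0
  obtain ⟨p_S, s14⟩ := s13
  change 0 < v.op1 - v.tu * m.eN at p_S
  obtain ⟨p_dri, s15⟩ := s14
    ((1 / 2 : ℝ) - f.dri) rfl
  change 0 < (1 / 2 : ℝ) - f.dri at p_dri
  obtain ⟨p_d, s16⟩ := s15
  change 0 < (1 : ℝ) - m.d at p_d
  obtain ⟨p_den, s17⟩ := s16
  change 0 < c.den at p_den
  obtain ⟨p_dP, s18⟩ := s17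
    ((5 / 8) * (1 : ℝ) - c.dP) rfl
  change 0 < (5 / 8) * (1 : ℝ) - c.dP at p_dP
  obtain ⟨p_V, s19⟩ := s18
  change 0 < m.V at p_V
  obtain ⟨p_B, s20⟩ := s19
  change 0 < f.Bm - (1 / 1024) * v.t at p_B
  obtain ⟨lf0, Ex, hφ⟩ := phi_te G v2 e_i2 e_z p_z1 e_kz e_kk e_phu e_lf e_L p_L e_Ei e_Eh
  exact far_F G ⟨p_o2, p_W, p_o2p, p_Wp, p_XM, p_QX, p_e2, p_rl, p_hg, p_hgp, p_l1, p_a0, p_S, p_V⟩ D hA hiA e_g e_ga hφ (fun _ _ _ τ' h1 _ => hE τ' h1) c f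
    p_dri p_d p_den p_dP p_B

theorem far_S4 {κ : ℝ} {τ : ℂ} {R w : ℝ} {E : Set ℂ} (D : PtD κ τ R w) {v : B1}
    (G : Geo κ (shf κ τ) v) (v2 : B2 v) (he2 : 2 ≤ v.e) (h : RAs Pool.Agent.helper71.FF.Crt.S.prog4 [v.e, v.t, v.u, v.n])
    (hE : ∀ τ' : ℂ, 0 < τ'.re → τ' ∈ E) :
    FarPt v.e κ (1 - Real.sinh κ / 1024) w (2 * AS v.e v.K * Real.sinh κ ^ 2) R E τ := by
  obtain ⟨A, e_A⟩ : ∃ zz : ℝ, zz = v.e * (12 : ℝ)⁻¹ + (21 : ℝ) * (10 : ℝ)⁻¹ := ⟨_, rfl⟩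
  obtain ⟨iA, e_iA⟩ : ∃ zz : ℝ, zz = A⁻¹ := ⟨_, rfl⟩
  obtain ⟨hA, hiA, hAe⟩ := ab_S G v2 e_A e_iA
  rw [hAe]
  obtain ⟨b⟩ := exGB v.q v.x v.h1
  obtain ⟨v3⟩ := exB3 v
  obtain ⟨b'⟩ := exGB v.qp v3.xp v3.hp
  obtain ⟨v4⟩ := exB4 v3 b'
  obtain ⟨g, e_g⟩ : ∃ zz : ℝ, zz = (1 / 2) * (((1 : ℝ) - v.q) * b.q1 * b.W⁻¹) := ⟨_, rfl⟩
  obtain ⟨ga, e_ga⟩ : ∃ zz : ℝ, zz = g * (g + (1 / 2 : ℝ))⁻¹ := ⟨_, rfl⟩
  obtain ⟨z, e_z⟩ : ∃ zz : ℝ, zz = v.om1 * ga * v.om⁻¹ := ⟨_, rfl⟩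
  obtain ⟨kz, e_kz⟩ : ∃ zz : ℝ, zz = ((1 : ℝ) - (1 / 2) * z) * ((1 : ℝ) - z)⁻¹ := ⟨_, rfl⟩
  obtain ⟨phu, e_phu⟩ : ∃ zz : ℝ, zz = ga * kz * v.u⁻¹ := ⟨_, rfl⟩
  obtain ⟨lf, e_lf⟩ : ∃ zz : ℝ, zz = z * kz := ⟨_, rfl⟩
  obtain ⟨L, e_L⟩ : ∃ zz : ℝ, zz = lf * v.ei := ⟨_, rfl⟩
  obtain ⟨Ei, e_Ei⟩ : ∃ zz : ℝ, zz = (1 : ℝ) + L * ((45 / 16) * L + (2 : ℝ)) := ⟨_, rfl⟩
  obtain ⟨Eh, e_Eh⟩ : ∃ zz : ℝ, zz = (1 : ℝ) + L * ((45 / 32) * L + (1 : ℝ)) := ⟨_, rfl⟩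
  obtain ⟨m⟩ := exMid v v2 b A g ga phu Ei Eh
  obtain ⟨c⟩ := exCF m iA
  obtain ⟨f⟩ := exFinS m v4 c.fbt c.FX
  obtain ⟨p_o2, s0⟩ := (((((((h
    (1 : ℝ) zS_1099511627776_0
    (1 / 2 : ℝ) zS_549755813888_0
    v.tu v.e_tu
    (v.tu * v.n) rfl
    v.h (v.e_h.trans (congrArg (fun y : ℝ => y * (v.tu * v.n)) zS_549755813888_0))
    v.u2 v.e_u2
    (v.h * v.h) rfl
    v.jm v.e_jm).2
    v.j v.e_j
    (v.h * v.j) rfl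
    v.K (v.e_K.trans (congrArg (fun y : ℝ => y * (v.h * v.j)) zS_2199023255552_0))
    (2 * v.j) (congrArg (fun y : ℝ => y * v.j) zS_2199023255552_0)
    v.c0 v.e_c0
    v.m v.e_m
    v.nj v.e_nj
    v.om v.e_om
    v.om1 v.e_om1
    v.op1 v.e_op1
    v2.Y (v2.e_Y.trans (congrArg (fun y : ℝ => y * v.h) zS_10774999203840_0))
    ((341 / 8192) * v2.Y) (congrArg (fun y : ℝ => y * v2.Y) zS_45768245248_0)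
    (1365 / 8192 : ℝ) zS_183207198720_0
    ((341 / 8192) * v2.Y + (1365 / 8192 : ℝ)) rfl
    (v2.Y * ((341 / 8192) * v2.Y + (1365 / 8192 : ℝ))) rfl
    ((1 / 2 : ℝ) + v2.Y * ((341 / 8192) * v2.Y + (1365 / 8192 : ℝ))) rfl
    (v2.Y * ((1 / 2 : ℝ) + v2.Y * ((341 / 8192) * v2.Y + (1365 / 8192 : ℝ)))) rfl
    v2.pY v2.e_pY
    (v2.Y * v2.pY) rfl
    ((1 / 2) * (v2.Y * v2.pY)) (congrArg (fun y : ℝ => y * (v2.Y * v2.pY)) zS_549755813888_0)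
    ((1 : ℝ) + (1 / 2) * (v2.Y * v2.pY)) rfl
    v2.Yp v2.e_Yp
    v.R v.e_R
    (v.K * v.om) rfl
    (2 * v.c0) (congrArg (fun y : ℝ => y * v.c0) zS_2199023255552_0)
    (v.K * v.om + 2 * v.c0) rfl
    v.Dt v.e_Dt
    v.D v.e_D
    v.SQ v.e_SQ
    (v.K * v.K) rfl
    (2 * (v.K * v.K)) (congrArg (fun y : ℝ => y * (v.K * v.K)) zS_2199023255552_0)
    v.c2 v.e_c2
    (v.c0 * v.Dt) rfl
    v.rhat v.e_rhat).2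
    v.LQ v.e_LQ
    ((1 / 2) * v.LQ) (congrArg (fun y : ℝ => y * v.LQ) zS_549755813888_0)
    v.aQ v.e_aQ
    v.ee (v.e_ee.trans (congrArg (fun y : ℝ => y * v.e) zS_549755813888_0))
    v.rho v.e_rho
    (-v.rho) rfl
    v.q v.e_q
    (v.c0 * v.R) rfl
    (v.c0 * v.R * v.rhat) rfl
    v.D2 (v.e_D2.trans (congrArg (fun y : ℝ => y * (v.c0 * v.R * v.rhat)) zS_4398046511104_0))
    (v.D2 + (1 : ℝ)) rfl).2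
    (Real.log (v.D2 + (1 : ℝ))) rfl
    v.L2 v.e_L2
    v.rp v.e_rp
    (-v.rp) rfl
    v.qp v.e_qp
    (v.om * v.K) rfl
    (v.c0 + v.om * v.K) rfl).2
    v.ioK v.e_ioK
    v.h1t v.e_h1t
    (v.om1 * v.t) rfl
    v.h1 v.e_h1
    v.nj2 v.e_nj2
    ((1 : ℝ) - v.u2) rfl
    v.f2 v.e_f2
    v.tu2 v.e_tu2
    (v.c0 + v.R) rfl).2
    ((v.c0 + v.R)⁻¹) rfl
    v.w v.e_w
    (v.w * v.w) rfl
    (v.tu2 * ((1 : ℝ) - v.u2)) rfl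
    ((1 : ℝ) - v.nj2) rfl
    (v.tu2 * ((1 : ℝ) - v.u2) * ((1 : ℝ) - v.nj2)) rfl
    v.x v.e_x).2
    v.ei v.e_ei
    (21845 / 524288 : ℝ) zS_45812285440_0
    ((11651 / 8388608) * v.x) (congrArg (fun y : ℝ => y * v.x) zS_1527119872_0)
    ((21845 / 524288 : ℝ) - (11651 / 8388608) * v.x) rfl
    (v.x * ((21845 / 524288 : ℝ) - (11651 / 8388608) * v.x)) rfl
    ((1 / 2 : ℝ) - v.x * ((21845 / 524288 : ℝ) - (11651 / 8388608) * v.x)) rfl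
    (v.x * ((1 / 2 : ℝ) - v.x * ((21845 / 524288 : ℝ) - (11651 / 8388608) * v.x))) rfl
    b.cc b.e_cc
    b.q1 b.e_q1
    (v.q * v.q) rfl
    (v.q * v.q + (1 : ℝ)) rfl
    (v.q * b.cc) rfl
    (2 * (v.q * b.cc)) (congrArg (fun y : ℝ => y * (v.q * b.cc)) zS_2199023255552_0)
    b.o2 b.e_o2).2
    (b.q1⁻¹) rfl
    (b.o2 * b.q1⁻¹) rfl
    b.P1 b.e_P1
    (v.q * v.h1) rfl
    b.qh (b.e_qh.trans (congrArg (fun y : ℝ => y * (v.q * v.h1)) zS_549755813888_0))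
    (b.qh * b.P1) rfl
    b.W b.e_W
  change 0 < b.o2 at p_o2
  obtain ⟨p_W, s1⟩ := s0
  change 0 < b.W at p_W
  obtain ⟨p_o2p, s2⟩ := ((((((((s1).2
    b.W⁻¹ rfl
    (v.ee * v.Dt) rfl
    (6 : ℝ) zS_6597069766656_0
    (v.D + (6 : ℝ)) rfl
    (v.ee * v.Dt * (v.D + (6 : ℝ))) rfl
    (4 * v.D) (congrArg (fun y : ℝ => y * v.D) zS_4398046511104_0)
    (4 * v.D + (6 : ℝ)) rfl).2
    ((4 * v.D + (6 : ℝ))⁻¹) rfl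
    c.rhoR c.e_rhoR
    ((1 : ℝ) - v.q) rfl
    (((1 : ℝ) - v.q) * b.q1) rfl
    (((1 : ℝ) - v.q) * b.q1 * b.W⁻¹) rfl
    g (e_g.trans (congrArg (fun y : ℝ => y * (((1 : ℝ) - v.q) * b.q1 * b.W⁻¹)) zS_549755813888_0))
    (g + (1 / 2 : ℝ)) rfl).2
    ((g + (1 / 2 : ℝ))⁻¹) rfl
    ga e_ga
    (b.qh * g) rfl
    (b.qh * g + (1 / 2 : ℝ)) rfl
    ((b.qh * g + (1 / 2 : ℝ)) * b.P1) rfl).2
    (b.o2⁻¹) rfl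
    m.fa m.e_fa
    m.hg m.e_hg
    ((1 / 2) * m.hg) (congrArg (fun y : ℝ => y * m.hg) zS_549755813888_0)
    ((1 : ℝ) - (1 / 2) * m.hg) rfl
    ((1 : ℝ) - m.hg) rfl).2
    (((1 : ℝ) - m.hg)⁻¹) rfl
    m.lsf m.e_lsf
    (m.hg + (1 : ℝ)) rfl
    m.Qb m.e_Qb
    (v.om1 * v.op1) rfl
    (v.c0 + v.t) rfl
    (v.om * v.c0) rfl
    (v.om * v.c0 * v.K) rfl
    (2 * (v.om * v.c0 * v.K)) (congrArg (fun y : ℝ => y * (v.om * v.c0 * v.K)) zS_2199023255552_0)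
    (v.c2 + 2 * (v.om * v.c0 * v.K)) rfl
    ((v.c0 + v.t) * (v.c2 + 2 * (v.om * v.c0 * v.K))) rfl).2
    (((v.c0 + v.t) * (v.c2 + 2 * (v.om * v.c0 * v.K)))⁻¹) rfl
    v3.hpt v3.e_hpt
    v3.hp v3.e_hp).2
    (v.SQ⁻¹) rfl
    v3.xp v3.e_xp
    ((11651 / 8388608) * v3.xp) (congrArg (fun y : ℝ => y * v3.xp) zS_1527119872_0)
    ((21845 / 524288 : ℝ) - (11651 / 8388608) * v3.xp) rfl
    (v3.xp * ((21845 / 524288 : ℝ) - (11651 / 8388608) * v3.xp)) rfl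
    ((1 / 2 : ℝ) - v3.xp * ((21845 / 524288 : ℝ) - (11651 / 8388608) * v3.xp)) rfl
    (v3.xp * ((1 / 2 : ℝ) - v3.xp * ((21845 / 524288 : ℝ) - (11651 / 8388608) * v3.xp))) rfl
    b'.cc b'.e_cc
    b'.q1 b'.e_q1
    (v.qp * v.qp) rfl
    (v.qp * v.qp + (1 : ℝ)) rfl
    (v.qp * b'.cc) rfl
    (2 * (v.qp * b'.cc)) (congrArg (fun y : ℝ => y * (v.qp * b'.cc)) zS_2199023255552_0)
    b'.o2 b'.e_o2).2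
    (b'.q1⁻¹) rfl
    (b'.o2 * b'.q1⁻¹) rfl
    b'.P1 b'.e_P1
    (v.qp * v3.hp) rfl
    b'.qh (b'.e_qh.trans (congrArg (fun y : ℝ => y * (v.qp * v3.hp)) zS_549755813888_0))
    (b'.qh * b'.P1) rfl
    b'.W b'.e_W
  change 0 < b'.o2 at p_o2p
  obtain ⟨p_Wp, s3⟩ := s2
  change 0 < b'.W at p_Wp
  obtain ⟨p_z1, s4⟩ := ((((((((((((s3
    ((1 : ℝ) - v.qp) rfl
    (((1 : ℝ) - v.qp) * b'.q1) rfl).2
    (b'.W⁻¹) rfl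
    (((1 : ℝ) - v.qp) * b'.q1 * b'.W⁻¹) rfl
    v4.gp (v4.e_gp.trans (congrArg (fun y : ℝ => y * (((1 : ℝ) - v.qp) * b'.q1 * b'.W⁻¹)) zS_549755813888_0))
    (v4.gp + (1 / 2 : ℝ)) rfl).2
    ((v4.gp + (1 / 2 : ℝ))⁻¹) rfl
    v4.gap v4.e_gap
    v4.hgp v4.e_hgp
    (v.h + (1 : ℝ)) rfl).2
    v2.ih v2.e_ih
    (v.h * v2.ih) rfl
    v2.rh (v2.e_rh.trans (congrArg (fun y : ℝ => y * (v.h * v2.ih)) zS_2199023255552_0))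
    v2.mi v2.e_mi
    v2.hm v2.e_hm
    v2.nih v2.e_nih
    (v2.nih * v2.mi) rfl
    v2.bsum v2.e_bsum
    v2.eK v2.e_eK
    (12 : ℝ) zS_13194139533312_0).2
    ((12 : ℝ)⁻¹) rfl
    (v.e * (12 : ℝ)⁻¹) rfl
    (21 : ℝ) zS_23089744183296_0
    (10 : ℝ) zS_10995116277760_0).2
    ((10 : ℝ)⁻¹) rfl
    ((21 : ℝ) * (10 : ℝ)⁻¹) rfl
    A e_A).2
    iA e_iA
    ((209 / 1024) * v.j) (congrArg (fun y : ℝ => y * v.j) zS_224412041216_0)).2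
    (v2.Yp⁻¹) rfl
    v2.lm v2.e_lm
    (A * v.op1) rfl
    m.Xe m.e_Xe
    m.XM m.e_XM
    ((1 : ℝ) - m.XM) rfl).2
    m.iX m.e_iX
    m.QX m.e_QX
    ((1 : ℝ) - m.QX) rfl).2
    m.iQX m.e_iQX
    (v.om1 * ga) rfl).2
    (v.om⁻¹) rfl
    z e_z
    ((1 / 2) * z) (congrArg (fun y : ℝ => y * z) zS_549755813888_0)
    ((1 : ℝ) - (1 / 2) * z) rfl
    ((1 : ℝ) - z) rfl).2
    (((1 : ℝ) - z)⁻¹) rfl
    kz e_kz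
    (ga * kz) rfl).2
    (v.u⁻¹) rfl
    phu e_phu
    lf e_lf
  change 0 < (1 : ℝ) - z at p_z1
  obtain ⟨p_L, s5⟩ := s4
    L e_L
    ((5 / 4) * L) (congrArg (fun y : ℝ => y * L) zS_1374389534720_0)
    ((1 / 2 : ℝ) - (5 / 4) * L) rfl
  change 0 < (1 / 2 : ℝ) - (5 / 4) * L at p_L
  obtain ⟨p_XM, s6⟩ := ((((((((((((s5
    ((45 / 16) * L) (congrArg (fun y : ℝ => y * L) zS_3092376453120_0)
    (2 : ℝ) zS_2199023255552_0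
    ((45 / 16) * L + (2 : ℝ)) rfl
    (L * ((45 / 16) * L + (2 : ℝ))) rfl
    Ei e_Ei
    ((45 / 32) * L) (congrArg (fun y : ℝ => y * L) zS_1546188226560_0)
    ((45 / 32) * L + (1 : ℝ)) rfl
    (L * ((45 / 32) * L + (1 : ℝ))) rfl
    Eh e_Eh
    (v.h * v.nj) rfl
    ((1 : ℝ) - v.f2) rfl
    (v.h * v.om) rfl
    (2 * (v.h * v.om)) (congrArg (fun y : ℝ => y * (v.h * v.om)) zS_2199023255552_0)
    ((1 : ℝ) - v.f2 - 2 * (v.h * v.om)) rfl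
    (v.h * v.nj * (v.h * v.nj)) rfl
    m.N1 m.e_N1
    (m.N1 + (1 : ℝ)) rfl
    m.s (m.e_s.trans (congrArg (fun y : ℝ => y * (m.N1 + (1 : ℝ))) zS_549755813888_0))
    ((1 / 2) * v.R) (congrArg (fun y : ℝ => y * v.R) zS_549755813888_0)
    (v.j - (1 / 2) * v.R) rfl
    (v.tu2 * ((1 : ℝ) - v.f2)) rfl
    (v.tu2 * ((1 : ℝ) - v.f2) * v.jm) rfl
    ((1 / 8) * (v.tu2 * ((1 : ℝ) - v.f2) * v.jm)) (congrArg (fun y : ℝ => y * (v.tu2 * ((1 : ℝ) - v.f2) * v.jm)) zS_137438953472_0)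
    (v.j - (1 / 2) * v.R + (1 / 8) * (v.tu2 * ((1 : ℝ) - v.f2) * v.jm)) rfl
    m.k0 m.e_k0
    m.ls m.e_ls
    m.Q1 m.e_Q1
    (m.Q1 * m.iX) rfl
    (m.Qb * m.iQX) rfl
    (m.Q1 * m.iX + m.Qb * m.iQX) rfl
    (m.XM * (m.Q1 * m.iX + m.Qb * m.iQX)) rfl
    (m.ls + m.XM * (m.Q1 * m.iX + m.Qb * m.iQX)) rfl
    m.a0 m.e_a0
    (m.Q1 * m.XM) rfl
    (m.Q1 * m.XM * m.iX) rfl
    (m.ls + m.Q1 * m.XM * m.iX) rfl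
    m.l1 m.e_l1
    ((13 / 64) * m.l1) (congrArg (fun y : ℝ => y * m.l1) zS_223338299392_0)
    ((1 / 2 : ℝ) + (13 / 64) * m.l1) rfl
    (m.l1 * ((1 / 2 : ℝ) + (13 / 64) * m.l1)) rfl
    m.Na m.e_Na
    ((13 / 16) * m.a0) (congrArg (fun y : ℝ => y * m.a0) zS_893353197568_0)
    ((1 : ℝ) + (13 / 16) * m.a0) rfl
    (m.a0 * ((1 : ℝ) + (13 / 16) * m.a0)) rfl
    m.Nb m.e_Nb
    (v2.rh * v2.nih) rfl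
    (v2.rh * v2.nih * Ei) rfl
    m.rn m.e_rn
    (m.k0 * m.Na) rfl
    (v.aQ + (1 / 2 : ℝ)) rfl
    (m.rn * (v.aQ + (1 / 2 : ℝ))) rfl
    m.ka m.e_ka
    (v.aQ + (1 : ℝ)) rfl
    m.kb m.e_kb
    (Eh * (v.aQ + (1 : ℝ))) rfl
    (Eh * (v.aQ + (1 : ℝ)) * v2.nih) rfl
    m.lfk m.e_lfk
    (v.tu * v2.bsum) rfl).2
    (v.aQ⁻¹) rfl
    (v.tu * v2.bsum * v.aQ⁻¹) rfl
    m.bte (m.e_bte.trans (congrArg (fun y : ℝ => y * (v.tu * v2.bsum * v.aQ⁻¹)) zS_549755813888_0))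
    (v.h1t * v.u⁻¹) rfl
    (v.h1t * v.u⁻¹ * ga) rfl
    m.lsi m.e_lsi
    (v.om1 * m.bte) rfl
    (m.ka * m.lsi) rfl
    (m.lfk * phu) rfl
    (m.ka * m.lsi + m.lfk * phu) rfl
    ((m.ka * m.lsi + m.lfk * phu) * v.ei) rfl
    m.src m.e_src
    (m.ka * m.Q1) rfl
    (m.ka * m.Q1 * m.iX) rfl
    (m.kb * m.Qb) rfl
    (m.kb * m.Qb * m.iQX) rfl
    (m.ka * m.Q1 * m.iX + m.kb * m.Qb * m.iQX) rfl
    m.fx m.e_fx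
    (v.om1 * m.src) rfl
    (m.Xe * m.fx) rfl
    m.eps m.e_eps
    (v.tu2 * m.eps) rfl
    (v.tu2 * m.eps * v.aQ⁻¹) rfl
    ((1 : ℝ) - v.tu2 * m.eps * v.aQ⁻¹) rfl).2
    m.NN m.e_NN
    m.eN m.e_eN
    m.d m.e_d
    m.eta m.e_eta
    (m.eta * v.aQ⁻¹) rfl
    ((1 : ℝ) - m.eta * v.aQ⁻¹) rfl
    (v.rhat * ((1 : ℝ) - m.eta * v.aQ⁻¹)) rfl
    m.rl m.e_rl).2
    m.irl m.e_irl
    m.yy m.e_yy
    ((1 : ℝ) - m.d) rfl).2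
    c.od c.e_od).2
    (v.R⁻¹) rfl
    c.lsR c.e_lsR
    (c.rhoR + c.lsR) rfl
    c.PR c.e_PR
    c.dP c.e_dP
    ((13 / 64) * c.dP) (congrArg (fun y : ℝ => y * c.dP) zS_223338299392_0)
    ((1 / 2 : ℝ) + (13 / 64) * c.dP) rfl
    (c.dP * ((1 / 2 : ℝ) + (13 / 64) * c.dP)) rfl
    c.Ee c.e_Ee
    (c.dP * c.Ee) rfl
    (c.dP * c.Ee * m.fa) rfl
    (c.dP * c.Ee * m.fa * m.Qb) rfl
    c.den c.e_den
    (c.PR * c.Ee) rfl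
    (c.PR * c.Ee * m.NN) rfl
    (c.PR * c.Ee * m.NN * v.ei) rfl).2
    (c.den⁻¹) rfl
    c.C c.e_C
    (c.C * v.u) rfl
    (m.ka * m.iX) rfl
    (m.kb * m.fa) rfl
    (m.kb * m.fa * m.Qb) rfl
    (m.kb * m.fa * m.Qb * m.iQX) rfl
    (m.ka * m.iX + m.kb * m.fa * m.Qb * m.iQX) rfl
    c.fbt c.e_fbt
    (m.ka * v.h1t) rfl
    (m.ka * v.h1t * v.u⁻¹) rfl
    (m.ka * v.h1t * v.u⁻¹ * g) rfl
    c.sl c.e_sl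
    (c.C * iA) rfl
    (c.C * iA * v.u) rfl).2
    (v.op1⁻¹) rfl
    (c.C * iA * v.u * v.op1⁻¹) rfl
    (v.e * m.fa) rfl
    (v.e * m.fa * v.om1) rfl
    (v.e * m.fa * v.om1 * m.bte) rfl
    (v.e * m.fa * v.om1 * m.bte + c.sl) rfl
    (m.fa * m.lfk) rfl
    (m.fa * m.lfk * phu) rfl
    (v.e * m.fa * v.om1 * m.bte + c.sl + m.fa * m.lfk * phu) rfl
    c.FX c.e_FX
    (A * v.tu) rfl
    (A * v.tu * v.op1) rfl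
    m.XLt m.e_XLt
    (9 : ℝ) zS_9895604649984_0
    (20 : ℝ) zS_21990232555520_0).2
    ((20 : ℝ)⁻¹) rfl
    m.beta m.e_beta
    (v4.hgp + (1 : ℝ)) rfl
    (v4.hgp * (v4.hgp + (1 : ℝ))) rfl
    (v.rp + v4.hgp * (v4.hgp + (1 : ℝ))) rfl
    f.dri f.e_dri
    (v.qp * (v4.hgp + (1 : ℝ))) rfl
    ((5 / 8) * f.dri) (congrArg (fun y : ℝ => y * f.dri) zS_687194767360_0)
    ((1 : ℝ) + (5 / 8) * f.dri) rfl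
    (f.dri * ((1 : ℝ) + (5 / 8) * f.dri)) rfl
    ((1 : ℝ) + f.dri * ((1 : ℝ) + (5 / 8) * f.dri)) rfl
    f.Qp f.e_Qp
    (v.K + v.t) rfl
    ((v.h + (1 : ℝ)) * (v.K + v.t)) rfl
    ((v.h + (1 : ℝ)) * (v.K + v.t) * m.beta) rfl
    ((1 : ℝ) + (v.h + (1 : ℝ)) * (v.K + v.t) * m.beta) rfl).2
    f.Lam f.e_Lam
    (f.Qp * f.Lam) rfl
    (f.Qp * f.Lam * v.m) rfl
    (v.tu * m.eN) rfl
    (v.tu * m.eN * v.op1⁻¹) rfl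
    ((1 : ℝ) + v.tu * m.eN * v.op1⁻¹) rfl
    (f.Qp * f.Lam * v.m * ((1 : ℝ) + v.tu * m.eN * v.op1⁻¹)) rfl
    (v.aQ - m.eta) rfl).2
    ((v.aQ - m.eta)⁻¹) rfl
    f.c1 f.e_c1
    f.fb f.e_fb
    (f.fb * m.XM) rfl
    (v.t * m.XLt) rfl
    (c.FX * (v.t * m.XLt)) rfl
    f.r f.e_r
    (f.fb + c.FX) rfl
    ((1 : ℝ) + f.r) rfl
    (f.c1 * ((1 : ℝ) + f.r)) rfl
    (f.fb + c.FX + f.c1 * ((1 : ℝ) + f.r)) rfl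
    f.Bm f.e_Bm
    ((1 / 1024) * v.t) (congrArg (fun y : ℝ => y * v.t) zS_1073741824_0)
    (f.Bm - (1 / 1024) * v.t) rfl
    m.m1 m.e_m1
    (m.m1 + (2 : ℝ)) rfl
    (2 * m.beta) (congrArg (fun y : ℝ => y * m.beta) zS_2199023255552_0)
    (m.m1 + (2 : ℝ) - 2 * m.beta) rfl
    ((v.h + (1 : ℝ)) * (m.m1 + (2 : ℝ) - 2 * m.beta)) rfl
    (m.m1 * (2 * m.beta)) rfl
    (m.m1 * (2 * m.beta) + (1 : ℝ)) rfl).2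
    ((m.m1 * (2 * m.beta) + (1 : ℝ))⁻¹) rfl
    ((v.h + (1 : ℝ)) * (m.m1 + (2 : ℝ) - 2 * m.beta) * (m.m1 * (2 * m.beta) + (1 : ℝ))⁻¹) rfl
    (A * m.fx) rfl
    ((1 / 2) * v2.lm) (congrArg (fun y : ℝ => y * v2.lm) zS_549755813888_0)
    (v.K + (1 / 2) * v2.lm) rfl
    (A * m.fx * (v.K + (1 / 2) * v2.lm)) rfl
    (2 * (A * m.fx * (v.K + (1 / 2) * v2.lm))) (congrArg (fun y : ℝ => y * (A * m.fx * (v.K + (1 / 2) * v2.lm))) zS_2199023255552_0)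
    (m.src + 2 * (A * m.fx * (v.K + (1 / 2) * v2.lm))) rfl
    (2 * (m.src + 2 * (A * m.fx * (v.K + (1 / 2) * v2.lm)))) (congrArg (fun y : ℝ => y * (m.src + 2 * (A * m.fx * (v.K + (1 / 2) * v2.lm)))) zS_2199023255552_0)
    (2 * (m.src + 2 * (A * m.fx * (v.K + (1 / 2) * v2.lm))) * m.NN) rfl
    (v.op1 - v.tu * m.eN) rfl).2
    ((v.op1 - v.tu * m.eN)⁻¹) rfl
    (2 * (m.src + 2 * (A * m.fx * (v.K + (1 / 2) * v2.lm))) * m.NN * (v.op1 - v.tu * m.eN)⁻¹) rfl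
    m.V m.e_V
  change 0 < (1 : ℝ) - m.XM at p_XM
  obtain ⟨p_QX, s7⟩ := s6
  change 0 < (1 : ℝ) - m.QX at p_QX
  obtain ⟨p_e2, s8⟩ := s7
    (2 * (v.tu2 * m.eps)) (congrArg (fun y : ℝ => y * (v.tu2 * m.eps)) zS_2199023255552_0)
    (v.aQ - 2 * (v.tu2 * m.eps)) rfl
  change 0 < v.aQ - 2 * (v.tu2 * m.eps) at p_e2
  obtain ⟨p_rl, s9⟩ := s8
  change 0 < m.rl at p_rl
  obtain ⟨p_hg, s10⟩ := s9
  change 0 < (1 : ℝ) - m.hg at p_hg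
  obtain ⟨p_hgp, s11⟩ := s10
    ((1 / 2 : ℝ) - v4.hgp) rfl
  change 0 < (1 / 2 : ℝ) - v4.hgp at p_hgp
  obtain ⟨p_l1, s12⟩ := s11
    ((5 / 8) * (1 : ℝ)) (congrArg (fun y : ℝ => y * (1 : ℝ)) zS_687194767360_0)
    ((5 / 8) * (1 : ℝ) - m.l1) rfl
  change 0 < (5 / 8) * (1 : ℝ) - m.l1 at p_l1
  obtain ⟨p_a0, s13⟩ := s12
    ((11 / 32) * (1 : ℝ)) (congrArg (fun y : ℝ => y * (1 : ℝ)) zS_377957122048_0)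
    ((11 / 32) * (1 : ℝ) - m.a0) rfl
  change 0 < (11 / 32) * (1 : ℝ) - m.a0 at p_a0
  obtain ⟨p_S, s14⟩ := s13
  change 0 < v.op1 - v.tu * m.eN at p_S
  obtain ⟨p_dri, s15⟩ := s14
    ((1 / 2 : ℝ) - f.dri) rfl
  change 0 < (1 / 2 : ℝ) - f.dri at p_dri
  obtain ⟨p_d, s16⟩ := s15
  change 0 < (1 : ℝ) - m.d at p_d
  obtain ⟨p_den, s17⟩ := s16
  change 0 < c.den at p_den
  obtain ⟨p_dP, s18⟩ := s17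
    ((5 / 8) * (1 : ℝ) - c.dP) rfl
  change 0 < (5 / 8) * (1 : ℝ) - c.dP at p_dP
  obtain ⟨p_V, s19⟩ := s18
  change 0 < m.V at p_V
  obtain ⟨p_B, s20⟩ := s19
  change 0 < f.Bm - (1 / 1024) * v.t at p_B
  have hga := gam_F G p_o2 p_W e_g e_ga
  obtain ⟨lf0, Ex, hφ⟩ := phi_near G v2 hga (near_z G e_z) p_z1 e_kz (near_p G e_phu) e_lf e_L p_L e_Ei e_Eh
  exact far_F G ⟨p_o2, p_W, p_o2p, p_Wp, p_XM, p_QX, p_e2, p_rl, p_hg, p_hgp, p_l1, p_a0, p_S, p_V⟩ D hA hiA e_g e_ga hφ (fun _ _ _ τ' h1 _ => hE τ' h1) c f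
    p_dri p_d p_den p_dP p_B

theorem far_S5 {κ : ℝ} {τ : ℂ} {R w : ℝ} {E : Set ℂ} (D : PtD κ τ R w) {v : B1}
    (G : Geo κ (shf κ τ) v) (v2 : B2 v) (he2 : 2 ≤ v.e) (h : RAs Pool.Agent.helper71.FF.Crt.S.prog5 [v.e, v.t, v.u, v.n])
    (hE : ∀ τ' : ℂ, 0 < τ'.re → τ' ∈ E) :
    FarPt v.e κ (1 - Real.sinh κ / 1024) w (2 * AS v.e v.K * Real.sinh κ ^ 2) R E τ := by
  obtain ⟨A, e_A⟩ : ∃ zz : ℝ, zz = v.e * (12 : ℝ)⁻¹ + (21 : ℝ) * (10 : ℝ)⁻¹ := ⟨_, rfl⟩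
  obtain ⟨iA, e_iA⟩ : ∃ zz : ℝ, zz = A⁻¹ := ⟨_, rfl⟩
  obtain ⟨hA, hiA, hAe⟩ := ab_S G v2 e_A e_iA
  rw [hAe]
  obtain ⟨b⟩ := exGB v.q v.x v.h1
  obtain ⟨v3⟩ := exB3 v
  obtain ⟨b'⟩ := exGB v.qp v3.xp v3.hp
  obtain ⟨v4⟩ := exB4 v3 b'
  obtain ⟨g, e_g⟩ : ∃ zz : ℝ, zz = (1 / 2) * (((1 : ℝ) - v.q) * b.q1 * b.W⁻¹) := ⟨_, rfl⟩
  obtain ⟨ga, e_ga⟩ : ∃ zz : ℝ, zz = g * (g + (1 / 2 : ℝ))⁻¹ := ⟨_, rfl⟩
  obtain ⟨phu, e_phu⟩ : ∃ zz : ℝ, zz = (1 / 2) * ((13 / 4) * v.nj + (79 / 256) * v.u⁻¹) := ⟨_, rfl⟩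
  obtain ⟨Ei, e_Ei⟩ : ∃ zz : ℝ, zz = 2 * v.ei + (1 : ℝ) := ⟨_, rfl⟩
  obtain ⟨Eh, e_Eh⟩ : ∃ zz : ℝ, zz = v.ei + (1 : ℝ) := ⟨_, rfl⟩
  obtain ⟨m⟩ := exMid v v2 b A g ga phu Ei Eh
  obtain ⟨c⟩ := exCF m iA
  obtain ⟨f⟩ := exFinS m v4 c.fbt c.FX
  obtain ⟨p_o2, s0⟩ := (((((((h
    (1 : ℝ) zS_1099511627776_0
    (1 / 2 : ℝ) zS_549755813888_0
    v.tu v.e_tu
    (v.tu * v.n) rfl
    v.h (v.e_h.trans (congrArg (fun y : ℝ => y * (v.tu * v.n)) zS_549755813888_0))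
    v.u2 v.e_u2
    (v.h * v.h) rfl
    v.jm v.e_jm).2
    v.j v.e_j
    (v.h * v.j) rfl
    v.K (v.e_K.trans (congrArg (fun y : ℝ => y * (v.h * v.j)) zS_2199023255552_0))
    (2 * v.j) (congrArg (fun y : ℝ => y * v.j) zS_2199023255552_0)
    v.c0 v.e_c0
    v.m v.e_m
    v.nj v.e_nj
    v.om v.e_om
    v.om1 v.e_om1
    v.op1 v.e_op1
    v2.Y (v2.e_Y.trans (congrArg (fun y : ℝ => y * v.h) zS_10774999203840_0))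
    ((341 / 8192) * v2.Y) (congrArg (fun y : ℝ => y * v2.Y) zS_45768245248_0)
    (1365 / 8192 : ℝ) zS_183207198720_0
    ((341 / 8192) * v2.Y + (1365 / 8192 : ℝ)) rfl
    (v2.Y * ((341 / 8192) * v2.Y + (1365 / 8192 : ℝ))) rfl
    ((1 / 2 : ℝ) + v2.Y * ((341 / 8192) * v2.Y + (1365 / 8192 : ℝ))) rfl
    (v2.Y * ((1 / 2 : ℝ) + v2.Y * ((341 / 8192) * v2.Y + (1365 / 8192 : ℝ)))) rfl
    v2.pY v2.e_pY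
    (v2.Y * v2.pY) rfl
    ((1 / 2) * (v2.Y * v2.pY)) (congrArg (fun y : ℝ => y * (v2.Y * v2.pY)) zS_549755813888_0)
    ((1 : ℝ) + (1 / 2) * (v2.Y * v2.pY)) rfl
    v2.Yp v2.e_Yp
    v.R v.e_R
    (v.K * v.om) rfl
    (2 * v.c0) (congrArg (fun y : ℝ => y * v.c0) zS_2199023255552_0)
    (v.K * v.om + 2 * v.c0) rfl
    v.Dt v.e_Dt
    v.D v.e_D
    v.SQ v.e_SQ
    (v.K * v.K) rfl
    (2 * (v.K * v.K)) (congrArg (fun y : ℝ => y * (v.K * v.K)) zS_2199023255552_0)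
    v.c2 v.e_c2
    (v.c0 * v.Dt) rfl
    v.rhat v.e_rhat).2
    v.LQ v.e_LQ
    ((1 / 2) * v.LQ) (congrArg (fun y : ℝ => y * v.LQ) zS_549755813888_0)
    v.aQ v.e_aQ
    v.ee (v.e_ee.trans (congrArg (fun y : ℝ => y * v.e) zS_549755813888_0))
    v.rho v.e_rho
    (-v.rho) rfl
    v.q v.e_q
    (v.c0 * v.R) rfl
    (v.c0 * v.R * v.rhat) rfl
    v.D2 (v.e_D2.trans (congrArg (fun y : ℝ => y * (v.c0 * v.R * v.rhat)) zS_4398046511104_0))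
    (v.D2 + (1 : ℝ)) rfl).2
    (Real.log (v.D2 + (1 : ℝ))) rfl
    v.L2 v.e_L2
    v.rp v.e_rp
    (-v.rp) rfl
    v.qp v.e_qp
    (v.om * v.K) rfl
    (v.c0 + v.om * v.K) rfl).2
    v.ioK v.e_ioK
    v.h1t v.e_h1t
    (v.om1 * v.t) rfl
    v.h1 v.e_h1
    v.nj2 v.e_nj2
    ((1 : ℝ) - v.u2) rfl
    v.f2 v.e_f2
    v.tu2 v.e_tu2
    (v.c0 + v.R) rfl).2
    ((v.c0 + v.R)⁻¹) rfl
    v.w v.e_w
    (v.w * v.w) rfl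
    (v.tu2 * ((1 : ℝ) - v.u2)) rfl
    ((1 : ℝ) - v.nj2) rfl
    (v.tu2 * ((1 : ℝ) - v.u2) * ((1 : ℝ) - v.nj2)) rfl
    v.x v.e_x).2
    v.ei v.e_ei
    (21845 / 524288 : ℝ) zS_45812285440_0
    ((11651 / 8388608) * v.x) (congrArg (fun y : ℝ => y * v.x) zS_1527119872_0)
    ((21845 / 524288 : ℝ) - (11651 / 8388608) * v.x) rfl
    (v.x * ((21845 / 524288 : ℝ) - (11651 / 8388608) * v.x)) rfl
    ((1 / 2 : ℝ) - v.x * ((21845 / 524288 : ℝ) - (11651 / 8388608) * v.x)) rfl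
    (v.x * ((1 / 2 : ℝ) - v.x * ((21845 / 524288 : ℝ) - (11651 / 8388608) * v.x))) rfl
    b.cc b.e_cc
    b.q1 b.e_q1
    (v.q * v.q) rfl
    (v.q * v.q + (1 : ℝ)) rfl
    (v.q * b.cc) rfl
    (2 * (v.q * b.cc)) (congrArg (fun y : ℝ => y * (v.q * b.cc)) zS_2199023255552_0)
    b.o2 b.e_o2).2
    (b.q1⁻¹) rfl
    (b.o2 * b.q1⁻¹) rfl
    b.P1 b.e_P1
    (v.q * v.h1) rfl
    b.qh (b.e_qh.trans (congrArg (fun y : ℝ => y * (v.q * v.h1)) zS_549755813888_0))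
    (b.qh * b.P1) rfl
    b.W b.e_W
  change 0 < b.o2 at p_o2
  obtain ⟨p_W, s1⟩ := s0
  change 0 < b.W at p_W
  obtain ⟨p_o2p, s2⟩ := ((((((((s1).2
    b.W⁻¹ rfl
    (v.ee * v.Dt) rfl
    (6 : ℝ) zS_6597069766656_0
    (v.D + (6 : ℝ)) rfl
    (v.ee * v.Dt * (v.D + (6 : ℝ))) rfl
    (4 * v.D) (congrArg (fun y : ℝ => y * v.D) zS_4398046511104_0)
    (4 * v.D + (6 : ℝ)) rfl).2
    ((4 * v.D + (6 : ℝ))⁻¹) rfl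
    c.rhoR c.e_rhoR
    ((1 : ℝ) - v.q) rfl
    (((1 : ℝ) - v.q) * b.q1) rfl
    (((1 : ℝ) - v.q) * b.q1 * b.W⁻¹) rfl
    g (e_g.trans (congrArg (fun y : ℝ => y * (((1 : ℝ) - v.q) * b.q1 * b.W⁻¹)) zS_549755813888_0))
    (g + (1 / 2 : ℝ)) rfl).2
    ((g + (1 / 2 : ℝ))⁻¹) rfl
    ga e_ga
    (b.qh * g) rfl
    (b.qh * g + (1 / 2 : ℝ)) rfl
    ((b.qh * g + (1 / 2 : ℝ)) * b.P1) rfl).2
    (b.o2⁻¹) rfl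
    m.fa m.e_fa
    m.hg m.e_hg
    ((1 / 2) * m.hg) (congrArg (fun y : ℝ => y * m.hg) zS_549755813888_0)
    ((1 : ℝ) - (1 / 2) * m.hg) rfl
    ((1 : ℝ) - m.hg) rfl).2
    (((1 : ℝ) - m.hg)⁻¹) rfl
    m.lsf m.e_lsf
    (m.hg + (1 : ℝ)) rfl
    m.Qb m.e_Qb
    (v.om1 * v.op1) rfl
    (v.c0 + v.t) rfl
    (v.om * v.c0) rfl
    (v.om * v.c0 * v.K) rfl
    (2 * (v.om * v.c0 * v.K)) (congrArg (fun y : ℝ => y * (v.om * v.c0 * v.K)) zS_2199023255552_0)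
    (v.c2 + 2 * (v.om * v.c0 * v.K)) rfl
    ((v.c0 + v.t) * (v.c2 + 2 * (v.om * v.c0 * v.K))) rfl).2
    (((v.c0 + v.t) * (v.c2 + 2 * (v.om * v.c0 * v.K)))⁻¹) rfl
    v3.hpt v3.e_hpt
    v3.hp v3.e_hp).2
    (v.SQ⁻¹) rfl
    v3.xp v3.e_xp
    ((11651 / 8388608) * v3.xp) (congrArg (fun y : ℝ => y * v3.xp) zS_1527119872_0)
    ((21845 / 524288 : ℝ) - (11651 / 8388608) * v3.xp) rfl
    (v3.xp * ((21845 / 524288 : ℝ) - (11651 / 8388608) * v3.xp)) rfl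
    ((1 / 2 : ℝ) - v3.xp * ((21845 / 524288 : ℝ) - (11651 / 8388608) * v3.xp)) rfl
    (v3.xp * ((1 / 2 : ℝ) - v3.xp * ((21845 / 524288 : ℝ) - (11651 / 8388608) * v3.xp))) rfl
    b'.cc b'.e_cc
    b'.q1 b'.e_q1
    (v.qp * v.qp) rfl
    (v.qp * v.qp + (1 : ℝ)) rfl
    (v.qp * b'.cc) rfl
    (2 * (v.qp * b'.cc)) (congrArg (fun y : ℝ => y * (v.qp * b'.cc)) zS_2199023255552_0)
    b'.o2 b'.e_o2).2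
    (b'.q1⁻¹) rfl
    (b'.o2 * b'.q1⁻¹) rfl
    b'.P1 b'.e_P1
    (v.qp * v3.hp) rfl
    b'.qh (b'.e_qh.trans (congrArg (fun y : ℝ => y * (v.qp * v3.hp)) zS_549755813888_0))
    (b'.qh * b'.P1) rfl
    b'.W b'.e_W
  change 0 < b'.o2 at p_o2p
  obtain ⟨p_Wp, s3⟩ := s2
  change 0 < b'.W at p_Wp
  obtain ⟨p_XM, s4⟩ := ((((((((((((((((((((((s3
    ((1 : ℝ) - v.qp) rfl
    (((1 : ℝ) - v.qp) * b'.q1) rfl).2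
    (b'.W⁻¹) rfl
    (((1 : ℝ) - v.qp) * b'.q1 * b'.W⁻¹) rfl
    v4.gp (v4.e_gp.trans (congrArg (fun y : ℝ => y * (((1 : ℝ) - v.qp) * b'.q1 * b'.W⁻¹)) zS_549755813888_0))
    (v4.gp + (1 / 2 : ℝ)) rfl).2
    ((v4.gp + (1 / 2 : ℝ))⁻¹) rfl
    v4.gap v4.e_gap
    v4.hgp v4.e_hgp
    (v.h + (1 : ℝ)) rfl).2
    v2.ih v2.e_ih
    (v.h * v2.ih) rfl
    v2.rh (v2.e_rh.trans (congrArg (fun y : ℝ => y * (v.h * v2.ih)) zS_2199023255552_0))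
    v2.mi v2.e_mi
    v2.hm v2.e_hm
    v2.nih v2.e_nih
    (v2.nih * v2.mi) rfl
    v2.bsum v2.e_bsum
    v2.eK v2.e_eK
    (12 : ℝ) zS_13194139533312_0).2
    ((12 : ℝ)⁻¹) rfl
    (v.e * (12 : ℝ)⁻¹) rfl
    (21 : ℝ) zS_23089744183296_0
    (10 : ℝ) zS_10995116277760_0).2
    ((10 : ℝ)⁻¹) rfl
    ((21 : ℝ) * (10 : ℝ)⁻¹) rfl
    A e_A).2
    iA e_iA
    ((209 / 1024) * v.j) (congrArg (fun y : ℝ => y * v.j) zS_224412041216_0)).2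
    (v2.Yp⁻¹) rfl
    v2.lm v2.e_lm
    (A * v.op1) rfl
    m.Xe m.e_Xe
    m.XM m.e_XM
    ((1 : ℝ) - m.XM) rfl).2
    m.iX m.e_iX
    m.QX m.e_QX
    ((1 : ℝ) - m.QX) rfl).2
    m.iQX m.e_iQX
    ((13 / 4) * v.nj) (congrArg (fun y : ℝ => y * v.nj) zS_3573412790272_0)).2
    (v.u⁻¹) rfl
    ((79 / 256) * v.u⁻¹) (congrArg (fun y : ℝ => y * v.u⁻¹) zS_339302416384_0)
    ((13 / 4) * v.nj + (79 / 256) * v.u⁻¹) rfl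
    phu (e_phu.trans (congrArg (fun y : ℝ => y * ((13 / 4) * v.nj + (79 / 256) * v.u⁻¹)) zS_549755813888_0))
    (2 * v.ei) (congrArg (fun y : ℝ => y * v.ei) zS_2199023255552_0)
    Ei e_Ei
    Eh e_Eh
    (v.h * v.nj) rfl
    ((1 : ℝ) - v.f2) rfl
    (v.h * v.om) rfl
    (2 * (v.h * v.om)) (congrArg (fun y : ℝ => y * (v.h * v.om)) zS_2199023255552_0)
    ((1 : ℝ) - v.f2 - 2 * (v.h * v.om)) rfl
    (v.h * v.nj * (v.h * v.nj)) rfl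
    m.N1 m.e_N1
    (m.N1 + (1 : ℝ)) rfl
    m.s (m.e_s.trans (congrArg (fun y : ℝ => y * (m.N1 + (1 : ℝ))) zS_549755813888_0))
    ((1 / 2) * v.R) (congrArg (fun y : ℝ => y * v.R) zS_549755813888_0)
    (v.j - (1 / 2) * v.R) rfl
    (v.tu2 * ((1 : ℝ) - v.f2)) rfl
    (v.tu2 * ((1 : ℝ) - v.f2) * v.jm) rfl
    ((1 / 8) * (v.tu2 * ((1 : ℝ) - v.f2) * v.jm)) (congrArg (fun y : ℝ => y * (v.tu2 * ((1 : ℝ) - v.f2) * v.jm)) zS_137438953472_0)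
    (v.j - (1 / 2) * v.R + (1 / 8) * (v.tu2 * ((1 : ℝ) - v.f2) * v.jm)) rfl
    m.k0 m.e_k0
    m.ls m.e_ls
    m.Q1 m.e_Q1
    (m.Q1 * m.iX) rfl
    (m.Qb * m.iQX) rfl
    (m.Q1 * m.iX + m.Qb * m.iQX) rfl
    (m.XM * (m.Q1 * m.iX + m.Qb * m.iQX)) rfl
    (m.ls + m.XM * (m.Q1 * m.iX + m.Qb * m.iQX)) rfl
    m.a0 m.e_a0
    (m.Q1 * m.XM) rfl
    (m.Q1 * m.XM * m.iX) rfl
    (m.ls + m.Q1 * m.XM * m.iX) rfl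
    m.l1 m.e_l1
    ((13 / 64) * m.l1) (congrArg (fun y : ℝ => y * m.l1) zS_223338299392_0)
    ((1 / 2 : ℝ) + (13 / 64) * m.l1) rfl
    (m.l1 * ((1 / 2 : ℝ) + (13 / 64) * m.l1)) rfl
    m.Na m.e_Na
    ((13 / 16) * m.a0) (congrArg (fun y : ℝ => y * m.a0) zS_893353197568_0)
    ((1 : ℝ) + (13 / 16) * m.a0) rfl
    (m.a0 * ((1 : ℝ) + (13 / 16) * m.a0)) rfl
    m.Nb m.e_Nb
    (v2.rh * v2.nih) rfl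
    (v2.rh * v2.nih * Ei) rfl
    m.rn m.e_rn
    (m.k0 * m.Na) rfl
    (v.aQ + (1 / 2 : ℝ)) rfl
    (m.rn * (v.aQ + (1 / 2 : ℝ))) rfl
    m.ka m.e_ka
    (v.aQ + (1 : ℝ)) rfl
    m.kb m.e_kb
    (Eh * (v.aQ + (1 : ℝ))) rfl
    (Eh * (v.aQ + (1 : ℝ)) * v2.nih) rfl
    m.lfk m.e_lfk
    (v.tu * v2.bsum) rfl).2
    (v.aQ⁻¹) rfl
    (v.tu * v2.bsum * v.aQ⁻¹) rfl
    m.bte (m.e_bte.trans (congrArg (fun y : ℝ => y * (v.tu * v2.bsum * v.aQ⁻¹)) zS_549755813888_0))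
    (v.h1t * v.u⁻¹) rfl
    (v.h1t * v.u⁻¹ * ga) rfl
    m.lsi m.e_lsi
    (v.om1 * m.bte) rfl
    (m.ka * m.lsi) rfl
    (m.lfk * phu) rfl
    (m.ka * m.lsi + m.lfk * phu) rfl
    ((m.ka * m.lsi + m.lfk * phu) * v.ei) rfl
    m.src m.e_src
    (m.ka * m.Q1) rfl
    (m.ka * m.Q1 * m.iX) rfl
    (m.kb * m.Qb) rfl
    (m.kb * m.Qb * m.iQX) rfl
    (m.ka * m.Q1 * m.iX + m.kb * m.Qb * m.iQX) rfl
    m.fx m.e_fx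
    (v.om1 * m.src) rfl
    (m.Xe * m.fx) rfl
    m.eps m.e_eps
    (v.tu2 * m.eps) rfl
    (v.tu2 * m.eps * v.aQ⁻¹) rfl
    ((1 : ℝ) - v.tu2 * m.eps * v.aQ⁻¹) rfl).2
    m.NN m.e_NN
    m.eN m.e_eN
    m.d m.e_d
    m.eta m.e_eta
    (m.eta * v.aQ⁻¹) rfl
    ((1 : ℝ) - m.eta * v.aQ⁻¹) rfl
    (v.rhat * ((1 : ℝ) - m.eta * v.aQ⁻¹)) rfl
    m.rl m.e_rl).2
    m.irl m.e_irl
    m.yy m.e_yy
    ((1 : ℝ) - m.d) rfl).2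
    c.od c.e_od).2
    (v.R⁻¹) rfl
    c.lsR c.e_lsR
    (c.rhoR + c.lsR) rfl
    c.PR c.e_PR
    c.dP c.e_dP
    ((13 / 64) * c.dP) (congrArg (fun y : ℝ => y * c.dP) zS_223338299392_0)
    ((1 / 2 : ℝ) + (13 / 64) * c.dP) rfl
    (c.dP * ((1 / 2 : ℝ) + (13 / 64) * c.dP)) rfl
    c.Ee c.e_Ee
    (c.dP * c.Ee) rfl
    (c.dP * c.Ee * m.fa) rfl
    (c.dP * c.Ee * m.fa * m.Qb) rfl
    c.den c.e_den
    (c.PR * c.Ee) rfl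
    (c.PR * c.Ee * m.NN) rfl
    (c.PR * c.Ee * m.NN * v.ei) rfl).2
    (c.den⁻¹) rfl
    c.C c.e_C
    (c.C * v.u) rfl
    (m.ka * m.iX) rfl
    (m.kb * m.fa) rfl
    (m.kb * m.fa * m.Qb) rfl
    (m.kb * m.fa * m.Qb * m.iQX) rfl
    (m.ka * m.iX + m.kb * m.fa * m.Qb * m.iQX) rfl
    c.fbt c.e_fbt
    (m.ka * v.h1t) rfl
    (m.ka * v.h1t * v.u⁻¹) rfl
    (m.ka * v.h1t * v.u⁻¹ * g) rfl
    c.sl c.e_sl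
    (c.C * iA) rfl
    (c.C * iA * v.u) rfl).2
    (v.op1⁻¹) rfl
    (c.C * iA * v.u * v.op1⁻¹) rfl
    (v.e * m.fa) rfl
    (v.e * m.fa * v.om1) rfl
    (v.e * m.fa * v.om1 * m.bte) rfl
    (v.e * m.fa * v.om1 * m.bte + c.sl) rfl
    (m.fa * m.lfk) rfl
    (m.fa * m.lfk * phu) rfl
    (v.e * m.fa * v.om1 * m.bte + c.sl + m.fa * m.lfk * phu) rfl
    c.FX c.e_FX
    (A * v.tu) rfl
    (A * v.tu * v.op1) rfl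
    m.XLt m.e_XLt
    (9 : ℝ) zS_9895604649984_0
    (20 : ℝ) zS_21990232555520_0).2
    ((20 : ℝ)⁻¹) rfl
    m.beta m.e_beta
    (v4.hgp + (1 : ℝ)) rfl
    (v4.hgp * (v4.hgp + (1 : ℝ))) rfl
    (v.rp + v4.hgp * (v4.hgp + (1 : ℝ))) rfl
    f.dri f.e_dri
    (v.qp * (v4.hgp + (1 : ℝ))) rfl
    ((5 / 8) * f.dri) (congrArg (fun y : ℝ => y * f.dri) zS_687194767360_0)
    ((1 : ℝ) + (5 / 8) * f.dri) rfl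
    (f.dri * ((1 : ℝ) + (5 / 8) * f.dri)) rfl
    ((1 : ℝ) + f.dri * ((1 : ℝ) + (5 / 8) * f.dri)) rfl
    f.Qp f.e_Qp
    (v.K + v.t) rfl
    ((v.h + (1 : ℝ)) * (v.K + v.t)) rfl
    ((v.h + (1 : ℝ)) * (v.K + v.t) * m.beta) rfl
    ((1 : ℝ) + (v.h + (1 : ℝ)) * (v.K + v.t) * m.beta) rfl).2
    f.Lam f.e_Lam
    (f.Qp * f.Lam) rfl
    (f.Qp * f.Lam * v.m) rfl
    (v.tu * m.eN) rfl
    (v.tu * m.eN * v.op1⁻¹) rfl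
    ((1 : ℝ) + v.tu * m.eN * v.op1⁻¹) rfl
    (f.Qp * f.Lam * v.m * ((1 : ℝ) + v.tu * m.eN * v.op1⁻¹)) rfl
    (v.aQ - m.eta) rfl).2
    ((v.aQ - m.eta)⁻¹) rfl
    f.c1 f.e_c1
    f.fb f.e_fb
    (f.fb * m.XM) rfl
    (v.t * m.XLt) rfl
    (c.FX * (v.t * m.XLt)) rfl
    f.r f.e_r
    (f.fb + c.FX) rfl
    ((1 : ℝ) + f.r) rfl
    (f.c1 * ((1 : ℝ) + f.r)) rfl
    (f.fb + c.FX + f.c1 * ((1 : ℝ) + f.r)) rfl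
    f.Bm f.e_Bm
    ((1 / 1024) * v.t) (congrArg (fun y : ℝ => y * v.t) zS_1073741824_0)
    (f.Bm - (1 / 1024) * v.t) rfl
    m.m1 m.e_m1
    (2 : ℝ) zS_2199023255552_0
    (m.m1 + (2 : ℝ)) rfl
    (2 * m.beta) (congrArg (fun y : ℝ => y * m.beta) zS_2199023255552_0)
    (m.m1 + (2 : ℝ) - 2 * m.beta) rfl
    ((v.h + (1 : ℝ)) * (m.m1 + (2 : ℝ) - 2 * m.beta)) rfl
    (m.m1 * (2 * m.beta)) rfl
    (m.m1 * (2 * m.beta) + (1 : ℝ)) rfl).2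
    ((m.m1 * (2 * m.beta) + (1 : ℝ))⁻¹) rfl
    ((v.h + (1 : ℝ)) * (m.m1 + (2 : ℝ) - 2 * m.beta) * (m.m1 * (2 * m.beta) + (1 : ℝ))⁻¹) rfl
    (A * m.fx) rfl
    ((1 / 2) * v2.lm) (congrArg (fun y : ℝ => y * v2.lm) zS_549755813888_0)
    (v.K + (1 / 2) * v2.lm) rfl
    (A * m.fx * (v.K + (1 / 2) * v2.lm)) rfl
    (2 * (A * m.fx * (v.K + (1 / 2) * v2.lm))) (congrArg (fun y : ℝ => y * (A * m.fx * (v.K + (1 / 2) * v2.lm))) zS_2199023255552_0)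
    (m.src + 2 * (A * m.fx * (v.K + (1 / 2) * v2.lm))) rfl
    (2 * (m.src + 2 * (A * m.fx * (v.K + (1 / 2) * v2.lm)))) (congrArg (fun y : ℝ => y * (m.src + 2 * (A * m.fx * (v.K + (1 / 2) * v2.lm)))) zS_2199023255552_0)
    (2 * (m.src + 2 * (A * m.fx * (v.K + (1 / 2) * v2.lm))) * m.NN) rfl
    (v.op1 - v.tu * m.eN) rfl).2
    ((v.op1 - v.tu * m.eN)⁻¹) rfl
    (2 * (m.src + 2 * (A * m.fx * (v.K + (1 / 2) * v2.lm))) * m.NN * (v.op1 - v.tu * m.eN)⁻¹) rfl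
    m.V m.e_V
  change 0 < (1 : ℝ) - m.XM at p_XM
  obtain ⟨p_QX, s5⟩ := s4
  change 0 < (1 : ℝ) - m.QX at p_QX
  obtain ⟨p_e2, s6⟩ := s5
    (2 * (v.tu2 * m.eps)) (congrArg (fun y : ℝ => y * (v.tu2 * m.eps)) zS_2199023255552_0)
    (v.aQ - 2 * (v.tu2 * m.eps)) rfl
  change 0 < v.aQ - 2 * (v.tu2 * m.eps) at p_e2
  obtain ⟨p_rl, s7⟩ := s6
  change 0 < m.rl at p_rl
  obtain ⟨p_hg, s8⟩ := s7
  change 0 < (1 : ℝ) - m.hg at p_hg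
  obtain ⟨p_hgp, s9⟩ := s8
    ((1 / 2 : ℝ) - v4.hgp) rfl
  change 0 < (1 / 2 : ℝ) - v4.hgp at p_hgp
  obtain ⟨p_l1, s10⟩ := s9
    ((5 / 8) * (1 : ℝ)) (congrArg (fun y : ℝ => y * (1 : ℝ)) zS_687194767360_0)
    ((5 / 8) * (1 : ℝ) - m.l1) rfl
  change 0 < (5 / 8) * (1 : ℝ) - m.l1 at p_l1
  obtain ⟨p_a0, s11⟩ := s10
    ((11 / 32) * (1 : ℝ)) (congrArg (fun y : ℝ => y * (1 : ℝ)) zS_377957122048_0)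
    ((11 / 32) * (1 : ℝ) - m.a0) rfl
  change 0 < (11 / 32) * (1 : ℝ) - m.a0 at p_a0
  obtain ⟨p_S, s12⟩ := s11
  change 0 < v.op1 - v.tu * m.eN at p_S
  obtain ⟨p_dri, s13⟩ := s12
    ((1 / 2 : ℝ) - f.dri) rfl
  change 0 < (1 / 2 : ℝ) - f.dri at p_dri
  obtain ⟨p_d, s14⟩ := s13
  change 0 < (1 : ℝ) - m.d at p_d
  obtain ⟨p_den, s15⟩ := s14
  change 0 < c.den at p_den
  obtain ⟨p_dP, s16⟩ := s15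
    ((5 / 8) * (1 : ℝ) - c.dP) rfl
  change 0 < (5 / 8) * (1 : ℝ) - c.dP at p_dP
  obtain ⟨p_V, s17⟩ := s16
  change 0 < m.V at p_V
  obtain ⟨p_B, s18⟩ := s17
  change 0 < f.Bm - (1 / 1024) * v.t at p_B
  obtain ⟨lf0, Ex, hφ⟩ := phi_slog G v2 he2 (by norm_num) (by norm_num) (by norm_num) e_phu e_Ei e_Eh
  exact far_F G ⟨p_o2, p_W, p_o2p, p_Wp, p_XM, p_QX, p_e2, p_rl, p_hg, p_hgp, p_l1, p_a0, p_S, p_V⟩ D hA hiA e_g e_ga hφ (fun _ _ _ τ' h1 _ => hE τ' h1) c f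
    p_dri p_d p_den p_dP p_B

theorem dom_S6 {v : B1} (v2 : B2 v) (h : RAs Pool.Agent.helper71.FF.Crt.S.prog6 [v.e, v.t, v.u, v.n]) :
    0 < v.t - v.K - v2.lm := by
  obtain ⟨p_B, s0⟩ := ((h
    (1 : ℝ) zS_1099511627776_0
    v.tu v.e_tu
    (v.tu * v.n) rfl
    v.h (v.e_h.trans (congrArg (fun y : ℝ => y * (v.tu * v.n)) zS_549755813888_0))
    (v.h * v.h) rfl
    ((1 : ℝ) - v.h * v.h) rfl).2
    v.j (j_eq v)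
    (v.h * v.j) rfl
    v.K (v.e_K.trans (congrArg (fun y : ℝ => y * (v.h * v.j)) zS_2199023255552_0))
    v2.Y (v2.e_Y.trans (congrArg (fun y : ℝ => y * v.h) zS_10774999203840_0))
    ((1 / 2) * (1 : ℝ)) (congrArg (fun y : ℝ => y * (1 : ℝ)) zS_549755813888_0)
    ((341 / 8192) * v2.Y) (congrArg (fun y : ℝ => y * v2.Y) zS_45768245248_0)
    (1365 / 8192 : ℝ) zS_183207198720_0
    ((341 / 8192) * v2.Y + (1365 / 8192 : ℝ)) rfl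
    (v2.Y * ((341 / 8192) * v2.Y + (1365 / 8192 : ℝ))) rfl
    ((1 / 2) * (1 : ℝ) + v2.Y * ((341 / 8192) * v2.Y + (1365 / 8192 : ℝ))) rfl
    (v2.Y * ((1 / 2) * (1 : ℝ) + v2.Y * ((341 / 8192) * v2.Y + (1365 / 8192 : ℝ)))) rfl
    v2.pY (pY_eq v2)
    (v2.Y * v2.pY) rfl
    ((1 / 2) * (v2.Y * v2.pY)) (congrArg (fun y : ℝ => y * (v2.Y * v2.pY)) zS_549755813888_0)
    ((1 : ℝ) + (1 / 2) * (v2.Y * v2.pY)) rfl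
    v2.Yp v2.e_Yp
    ((209 / 1024) * v.j) (congrArg (fun y : ℝ => y * v.j) zS_224412041216_0)).2
    (v2.Yp⁻¹) rfl
    v2.lm v2.e_lm
    (v.t - v.K) rfl
    (v.t - v.K - v2.lm) rfl
  change 0 < v.t - v.K - v2.lm at p_B
  exact p_B

theorem dom_S7 {v : B1} (h : RAs Pool.Agent.helper71.FF.Crt.S.prog7 [v.e, v.t, v.u, v.n]) :
    0 < v.e * v.K - (129 / 256) := by
  obtain ⟨p_B, s0⟩ := (h
    (1 : ℝ) zS_1099511627776_0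
    v.tu v.e_tu
    (v.tu * v.n) rfl
    v.h (v.e_h.trans (congrArg (fun y : ℝ => y * (v.tu * v.n)) zS_549755813888_0))
    (v.h * v.h) rfl
    ((1 : ℝ) - v.h * v.h) rfl).2
    v.j (j_eq v)
    (v.h * v.j) rfl
    v.K (v.e_K.trans (congrArg (fun y : ℝ => y * (v.h * v.j)) zS_2199023255552_0))
    (v.e * v.K) rfl
    (129 / 256 : ℝ) zS_554050781184_0
    (v.e * v.K - (129 / 256 : ℝ)) rfl
  change 0 < v.e * v.K - (129 / 256 : ℝ) at p_B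
  exact p_B

theorem ptS {κ : ℝ} {τ : ℂ} {R w : ℝ} {E : Set ℂ} (D : PtD κ τ R w) {v : B1}
    (G : Geo κ (shf κ τ) v) (he2 : 2 ≤ v.e) (hE : ∀ τ' : ℂ, 0 < τ'.re → τ' ∈ E)
    (heK : v.e * v.K ≤ 129 / 256) (h : ∃ ops ∈ Pool.Agent.helper71.FF.Crt.S.progs, RAs ops [v.e, v.t, v.u, v.n]) :
    FarPt v.e κ (1 - Real.sinh κ / 1024) w (2 * AS v.e v.K * Real.sinh κ ^ 2) R E τ := by
  obtain ⟨v2⟩ := exB2 v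
  obtain ⟨ops, ho, hr⟩ := h
  rw [Pool.Agent.helper71.FF.Crt.S.progs] at ho
  simp only [List.mem_cons, List.not_mem_nil, or_false] at ho
  rcases ho with rfl | rfl | rfl | rfl | rfl | rfl | rfl | rfl
  · exact far_S0 D G v2 he2 hr hE
  · exact far_S1 D G v2 he2 hr hE
  · exact far_S2 D G v2 he2 hr hE
  · exact far_S3 D G v2 he2 hr hE
  · exact far_S4 D G v2 he2 hr hE
  · exact far_S5 D G v2 he2 hr hE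
  · exact absurd (G.t_le v2 D) (by have := dom_S6 v2 hr; intro h9; linarith)
  · exact absurd heK (by have := dom_S7 hr; intro h9; linarith)

end Pool.Agent.helper71.FF
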