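import Pool.Agent.helper71.FF.Crt.SP

/-!
Generated certificates.
-/

namespace Pool.Agent.helper71.FF.Crt.S

open Pool.Agent.helper31.IA (Z Op)
open Pool.Agent.helper31.IC

theorem c12_20_m1_t0 : CovD 0 progs [(15393162788864, 2199023255552), (161061273600, 32212254720), (137438953472, 137438953472), (549755813888, 549755813888)] :=
  Pool.Agent.helper14.QF.covD_F chks_eq (.n 2 (.n 2 (.l 2) (.n 3 (.l 2) (.l 1))) (.n 2 (.n 3 (.n 2 (.l 2) (.n 0 (.l 2) (.l 2))) (.l 1)) (.n 3 (.n 3 (.l 2) (.n 1 (.l 2) (.n 0 (.l 2) (.l 2)))) (.n 3 (.n 0 (.l 1) (.n 1 (.l 1) (.n 2 (.l 1) (.l 2)))) (.l 1)))))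
    [(15393162788864, 2199023255552), (161061273600, 32212254720), (137438953472, 137438953472), (549755813888, 549755813888)] rfl (by decide +kernel)
theorem c12_20_m1_t1 : CovD 0 progs [(15393162788864, 2199023255552), (144955146240, 16106127360), (343597383680, 68719476736), (549755813888, 549755813888)] :=
  Pool.Agent.helper14.QF.covD_F chks_eq (.n 2 (.n 3 (.n 3 (.l 2) (.n 0 (.l 2) (.l 2))) (.n 3 (.n 0 (.l 1) (.l 2)) (.l 1))) (.n 3 (.n 3 (.l 2) (.n 0 (.l 2) (.l 2))) (.n 3 (.n 0 (.l 1) (.l 2)) (.l 1))))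
    [(15393162788864, 2199023255552), (144955146240, 16106127360), (343597383680, 68719476736), (549755813888, 549755813888)] rfl (by decide +kernel)
theorem c12_20_m1_t2 : CovD 0 progs [(15393162788864, 2199023255552), (144955146240, 16106127360), (481036337152, 68719476736), (549755813888, 549755813888)] :=
  Pool.Agent.helper14.QF.covD_F chks_eq (.n 0 (.n 3 (.n 3 (.l 5) (.n 2 (.l 2) (.l 2))) (.n 2 (.n 3 (.l 2) (.l 1)) (.n 3 (.l 0) (.l 0)))) (.n 3 (.n 3 (.l 5) (.n 2 (.l 2) (.l 2))) (.n 2 (.n 3 (.l 2) (.l 1)) (.n 3 (.n 0 (.l 0) (.l 2)) (.l 0)))))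
    [(15393162788864, 2199023255552), (144955146240, 16106127360), (481036337152, 68719476736), (549755813888, 549755813888)] rfl (by decide +kernel)
theorem c12_20_m1_t3 : CovD 0 progs [(15393162788864, 2199023255552), (144955146240, 16106127360), (412316860416, 137438953472), (549755813888, 549755813888)] :=
  covD_split 2 (by decide +kernel) c12_20_m1_t1 c12_20_m1_t2
theorem c12_20_m1_t4 : CovD 0 progs [(15393162788864, 2199023255552), (177167400960, 16106127360), (309237645312, 34359738368), (549755813888, 549755813888)] :=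
  Pool.Agent.helper14.QF.covD_F chks_eq (.n 3 (.n 3 (.l 2) (.n 0 (.l 2) (.l 2))) (.n 3 (.n 0 (.n 3 (.l 2) (.l 1)) (.n 2 (.l 2) (.l 2))) (.l 1)))
    [(15393162788864, 2199023255552), (177167400960, 16106127360), (309237645312, 34359738368), (549755813888, 549755813888)] rfl (by decide +kernel)
theorem c12_20_m1_t5 : CovD 0 progs [(15393162788864, 2199023255552), (177167400960, 16106127360), (377957122048, 34359738368), (549755813888, 549755813888)] :=
  Pool.Agent.helper14.QF.covD_F chks_eq (.n 3 (.n 3 (.l 5) (.n 2 (.l 5) (.l 5))) (.n 0 (.n 3 (.n 1 (.l 2) (.n 0 (.l 2) (.l 2))) (.l 1)) (.n 3 (.n 2 (.l 2) (.l 2)) (.l 1))))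
    [(15393162788864, 2199023255552), (177167400960, 16106127360), (377957122048, 34359738368), (549755813888, 549755813888)] rfl (by decide +kernel)
theorem c12_20_m1_t6 : CovD 0 progs [(15393162788864, 2199023255552), (177167400960, 16106127360), (343597383680, 68719476736), (549755813888, 549755813888)] :=
  covD_split 2 (by decide +kernel) c12_20_m1_t4 c12_20_m1_t5
theorem c12_20_m1_t7 : CovD 0 progs [(15393162788864, 2199023255552), (177167400960, 16106127360), (446676598784, 34359738368), (549755813888, 549755813888)] :=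
  Pool.Agent.helper14.QF.covD_F chks_eq (.n 3 (.n 3 (.l 5) (.n 0 (.l 5) (.l 5))) (.n 0 (.n 3 (.n 1 (.l 2) (.n 0 (.l 2) (.l 2))) (.l 1)) (.n 1 (.n 3 (.l 2) (.l 1)) (.n 3 (.n 0 (.l 2) (.l 5)) (.l 4)))))
    [(15393162788864, 2199023255552), (177167400960, 16106127360), (446676598784, 34359738368), (549755813888, 549755813888)] rfl (by decide +kernel)
theorem c12_20_m1_t8 : CovD 0 progs [(15393162788864, 2199023255552), (177167400960, 16106127360), (515396075520, 34359738368), (549755813888, 549755813888)] :=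
  Pool.Agent.helper14.QF.covD_F chks_eq (.n 3 (.n 3 (.l 5) (.n 0 (.l 5) (.l 5))) (.n 0 (.n 1 (.n 3 (.l 3) (.l 0)) (.n 3 (.n 3 (.l 3) (.l 0)) (.l 4))) (.n 3 (.n 3 (.l 5) (.n 0 (.l 3) (.l 5))) (.l 7))))
    [(15393162788864, 2199023255552), (177167400960, 16106127360), (515396075520, 34359738368), (549755813888, 549755813888)] rfl (by decide +kernel)
theorem c12_20_m1_t9 : CovD 0 progs [(15393162788864, 2199023255552), (177167400960, 16106127360), (481036337152, 68719476736), (549755813888, 549755813888)] :=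
  covD_split 2 (by decide +kernel) c12_20_m1_t7 c12_20_m1_t8
theorem c12_20_m1_t10 : CovD 0 progs [(15393162788864, 2199023255552), (177167400960, 16106127360), (412316860416, 137438953472), (549755813888, 549755813888)] :=
  covD_split 2 (by decide +kernel) c12_20_m1_t6 c12_20_m1_t9
theorem c12_20_m1_t11 : CovD 0 progs [(15393162788864, 2199023255552), (161061273600, 32212254720), (412316860416, 137438953472), (549755813888, 549755813888)] :=
  covD_split 1 (by decide +kernel) c12_20_m1_t3 c12_20_m1_t10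
theorem c12_20_m1 : CovD 0 progs [(15393162788864, 2199023255552), (161061273600, 32212254720), (274877906944, 274877906944), (549755813888, 549755813888)] :=
  covD_split 2 (by decide +kernel) c12_20_m1_t0 c12_20_m1_t11

end Pool.Agent.helper71.FF.Crt.S
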