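import Pool.Agent.helper71.FF.Crt.SP

/-!
Generated certificates.
-/

namespace Pool.Agent.helper71.FF.Crt.S

open Pool.Agent.helper31.IA (Z Op)
open Pool.Agent.helper31.IC

theorem c12_20_m5_t0 : CovD 0 progs [(15393162788864, 2199023255552), (32212254720, 32212254720), (687194767360, 137438953472), (274877906944, 274877906944)] :=
  Pool.Agent.helper14.QF.covD_F chks_eq (.n 1 (.n 0 (.l 0) (.l 0)) (.n 2 (.l 0) (.l 0)))
    [(15393162788864, 2199023255552), (32212254720, 32212254720), (687194767360, 137438953472), (274877906944, 274877906944)] rfl (by decide +kernel)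
theorem c12_20_m5_t1 : CovD 0 progs [(15393162788864, 2199023255552), (96636764160, 32212254720), (687194767360, 137438953472), (274877906944, 274877906944)] :=
  Pool.Agent.helper14.QF.covD_F chks_eq (.n 1 (.n 2 (.n 3 (.l 0) (.l 0)) (.n 1 (.l 0) (.n 0 (.l 0) (.l 5)))) (.n 0 (.n 2 (.n 3 (.l 2) (.l 0)) (.n 3 (.l 5) (.l 3))) (.n 2 (.n 2 (.l 5) (.l 5)) (.n 2 (.l 5) (.l 5)))))
    [(15393162788864, 2199023255552), (96636764160, 32212254720), (687194767360, 137438953472), (274877906944, 274877906944)] rfl (by decide +kernel)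
theorem c12_20_m5_t2 : CovD 0 progs [(15393162788864, 2199023255552), (64424509440, 64424509440), (687194767360, 137438953472), (274877906944, 274877906944)] :=
  covD_split 1 (by decide +kernel) c12_20_m5_t0 c12_20_m5_t1
theorem c12_20_m5_t3 : CovD 0 progs [(15393162788864, 2199023255552), (32212254720, 32212254720), (962072674304, 137438953472), (274877906944, 274877906944)] :=
  Pool.Agent.helper14.QF.covD_F chks_eq (.n 1 (.n 1 (.l 0) (.l 0)) (.n 1 (.n 0 (.l 0) (.l 0)) (.n 2 (.l 0) (.l 0))))
    [(15393162788864, 2199023255552), (32212254720, 32212254720), (962072674304, 137438953472), (274877906944, 274877906944)] rfl (by decide +kernel)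
theorem c12_20_m5_t4 : CovD 0 progs [(15393162788864, 2199023255552), (96636764160, 32212254720), (962072674304, 137438953472), (274877906944, 274877906944)] :=
  Pool.Agent.helper14.QF.covD_F chks_eq (.n 1 (.n 1 (.n 2 (.l 3) (.l 3)) (.n 0 (.n 2 (.l 0) (.l 3)) (.n 2 (.l 5) (.l 5)))) (.n 0 (.n 2 (.n 3 (.l 5) (.l 3)) (.n 3 (.l 5) (.l 3))) (.n 2 (.n 3 (.l 5) (.l 3)) (.n 3 (.l 5) (.l 3)))))
    [(15393162788864, 2199023255552), (96636764160, 32212254720), (962072674304, 137438953472), (274877906944, 274877906944)] rfl (by decide +kernel)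
theorem c12_20_m5_t5 : CovD 0 progs [(15393162788864, 2199023255552), (64424509440, 64424509440), (962072674304, 137438953472), (274877906944, 274877906944)] :=
  covD_split 1 (by decide +kernel) c12_20_m5_t3 c12_20_m5_t4
theorem c12_20_m5 : CovD 0 progs [(15393162788864, 2199023255552), (64424509440, 64424509440), (824633720832, 274877906944), (274877906944, 274877906944)] :=
  covD_split 2 (by decide +kernel) c12_20_m5_t2 c12_20_m5_t5

end Pool.Agent.helper71.FF.Crt.S
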