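import Pool.Agent.helper71.FF.Crt.SP

/-!
Generated certificates.
-/

namespace Pool.Agent.helper71.FF.Crt.S

open Pool.Agent.helper31.IA (Z Op)
open Pool.Agent.helper31.IC

theorem c12_20_m6_t0 : CovD 0 progs [(15393162788864, 2199023255552), (144955146240, 16106127360), (687194767360, 137438953472), (274877906944, 274877906944)] :=
  Pool.Agent.helper14.QF.covD_F chks_eq (.n 2 (.n 0 (.n 3 (.l 5) (.n 2 (.l 5) (.l 5))) (.n 3 (.l 5) (.n 2 (.l 5) (.l 5)))) (.n 2 (.n 3 (.l 5) (.n 0 (.l 3) (.l 5))) (.n 3 (.l 5) (.n 0 (.l 3) (.l 5)))))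
    [(15393162788864, 2199023255552), (144955146240, 16106127360), (687194767360, 137438953472), (274877906944, 274877906944)] rfl (by decide +kernel)
theorem c12_20_m6_t1 : CovD 0 progs [(15393162788864, 2199023255552), (144955146240, 16106127360), (962072674304, 137438953472), (274877906944, 274877906944)] :=
  Pool.Agent.helper14.QF.covD_F chks_eq (.n 0 (.n 2 (.n 3 (.l 5) (.n 1 (.l 3) (.l 3))) (.n 3 (.l 5) (.n 0 (.l 3) (.l 3)))) (.n 2 (.n 1 (.n 2 (.l 5) (.l 5)) (.n 2 (.l 5) (.l 5))) (.n 3 (.l 5) (.n 1 (.l 3) (.l 5)))))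
    [(15393162788864, 2199023255552), (144955146240, 16106127360), (962072674304, 137438953472), (274877906944, 274877906944)] rfl (by decide +kernel)
theorem c12_20_m6_t2 : CovD 0 progs [(15393162788864, 2199023255552), (144955146240, 16106127360), (824633720832, 274877906944), (274877906944, 274877906944)] :=
  covD_split 2 (by decide +kernel) c12_20_m6_t0 c12_20_m6_t1
theorem c12_20_m6_t3 : CovD 0 progs [(13743895347200, 549755813888), (177167400960, 16106127360), (824633720832, 274877906944), (274877906944, 274877906944)] :=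
  Pool.Agent.helper14.QF.covD_F chks_eq (.n 2 (.n 2 (.n 3 (.l 5) (.n 2 (.l 5) (.l 5))) (.n 3 (.l 5) (.n 2 (.l 5) (.l 5)))) (.n 2 (.n 3 (.l 5) (.n 2 (.l 5) (.l 5))) (.n 3 (.l 5) (.n 1 (.l 3) (.l 5)))))
    [(13743895347200, 549755813888), (177167400960, 16106127360), (824633720832, 274877906944), (274877906944, 274877906944)] rfl (by decide +kernel)
theorem c12_20_m6_t4 : CovD 0 progs [(14843406974976, 549755813888), (177167400960, 16106127360), (824633720832, 274877906944), (274877906944, 274877906944)] :=
  Pool.Agent.helper14.QF.covD_F chks_eq (.n 2 (.n 2 (.n 3 (.l 5) (.n 2 (.l 5) (.l 5))) (.n 3 (.l 5) (.n 2 (.l 5) (.l 5)))) (.n 2 (.n 3 (.l 5) (.n 2 (.l 5) (.l 5))) (.n 3 (.l 5) (.n 1 (.l 3) (.l 5)))))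
    [(14843406974976, 549755813888), (177167400960, 16106127360), (824633720832, 274877906944), (274877906944, 274877906944)] rfl (by decide +kernel)
theorem c12_20_m6_t5 : CovD 0 progs [(14293651161088, 1099511627776), (177167400960, 16106127360), (824633720832, 274877906944), (274877906944, 274877906944)] :=
  covD_split 0 (by decide +kernel) c12_20_m6_t3 c12_20_m6_t4
theorem c12_20_m6_t6 : CovD 0 progs [(16492674416640, 1099511627776), (177167400960, 16106127360), (687194767360, 137438953472), (274877906944, 274877906944)] :=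
  Pool.Agent.helper14.QF.covD_F chks_eq (.n 2 (.n 2 (.n 3 (.l 5) (.n 0 (.l 5) (.l 5))) (.n 3 (.l 5) (.n 0 (.l 5) (.l 5)))) (.n 1 (.n 3 (.l 5) (.n 0 (.l 5) (.l 5))) (.n 3 (.l 5) (.n 2 (.l 5) (.l 5)))))
    [(16492674416640, 1099511627776), (177167400960, 16106127360), (687194767360, 137438953472), (274877906944, 274877906944)] rfl (by decide +kernel)
theorem c12_20_m6_t7 : CovD 0 progs [(16492674416640, 1099511627776), (177167400960, 16106127360), (962072674304, 137438953472), (274877906944, 274877906944)] :=
  Pool.Agent.helper14.QF.covD_F chks_eq (.n 2 (.n 0 (.n 3 (.l 5) (.n 1 (.l 5) (.l 5))) (.n 3 (.l 5) (.n 1 (.l 5) (.l 5)))) (.n 2 (.n 3 (.l 5) (.l 5)) (.n 3 (.l 5) (.l 5))))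
    [(16492674416640, 1099511627776), (177167400960, 16106127360), (962072674304, 137438953472), (274877906944, 274877906944)] rfl (by decide +kernel)
theorem c12_20_m6_t8 : CovD 0 progs [(16492674416640, 1099511627776), (177167400960, 16106127360), (824633720832, 274877906944), (274877906944, 274877906944)] :=
  covD_split 2 (by decide +kernel) c12_20_m6_t6 c12_20_m6_t7
theorem c12_20_m6_t9 : CovD 0 progs [(15393162788864, 2199023255552), (177167400960, 16106127360), (824633720832, 274877906944), (274877906944, 274877906944)] :=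
  covD_split 0 (by decide +kernel) c12_20_m6_t5 c12_20_m6_t8
theorem c12_20_m6_t10 : CovD 0 progs [(15393162788864, 2199023255552), (161061273600, 32212254720), (824633720832, 274877906944), (274877906944, 274877906944)] :=
  covD_split 1 (by decide +kernel) c12_20_m6_t2 c12_20_m6_t9
theorem c12_20_m6_t11 : CovD 0 progs [(14293651161088, 1099511627776), (209379655680, 16106127360), (824633720832, 274877906944), (137438953472, 137438953472)] :=
  Pool.Agent.helper14.QF.covD_F chks_eq (.n 2 (.n 2 (.n 2 (.l 5) (.l 5)) (.n 0 (.n 1 (.l 5) (.l 5)) (.n 1 (.l 5) (.l 5)))) (.n 2 (.n 0 (.n 1 (.l 5) (.l 5)) (.n 1 (.l 5) (.l 5))) (.n 2 (.l 5) (.l 5))))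
    [(14293651161088, 1099511627776), (209379655680, 16106127360), (824633720832, 274877906944), (137438953472, 137438953472)] rfl (by decide +kernel)
theorem c12_20_m6_t12 : CovD 0 progs [(16492674416640, 1099511627776), (209379655680, 16106127360), (824633720832, 274877906944), (137438953472, 137438953472)] :=
  Pool.Agent.helper14.QF.covD_F chks_eq (.n 2 (.n 2 (.n 0 (.n 2 (.l 5) (.l 5)) (.n 2 (.l 5) (.l 5))) (.n 2 (.n 0 (.l 5) (.l 5)) (.l 5))) (.n 2 (.n 2 (.l 5) (.l 5)) (.n 2 (.l 5) (.l 5))))
    [(16492674416640, 1099511627776), (209379655680, 16106127360), (824633720832, 274877906944), (137438953472, 137438953472)] rfl (by decide +kernel)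
theorem c12_20_m6_t13 : CovD 0 progs [(15393162788864, 2199023255552), (209379655680, 16106127360), (824633720832, 274877906944), (137438953472, 137438953472)] :=
  covD_split 0 (by decide +kernel) c12_20_m6_t11 c12_20_m6_t12
theorem c12_20_m6_t14 : CovD 0 progs [(14293651161088, 1099511627776), (209379655680, 16106127360), (687194767360, 137438953472), (412316860416, 137438953472)] :=
  Pool.Agent.helper14.QF.covD_F chks_eq (.n 1 (.n 2 (.n 2 (.l 5) (.l 5)) (.n 2 (.l 5) (.n 0 (.l 5) (.l 5)))) (.n 2 (.n 0 (.n 2 (.l 5) (.l 5)) (.n 2 (.l 5) (.l 5))) (.n 2 (.n 0 (.l 5) (.l 5)) (.n 3 (.l 5) (.l 7)))))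
    [(14293651161088, 1099511627776), (209379655680, 16106127360), (687194767360, 137438953472), (412316860416, 137438953472)] rfl (by decide +kernel)
theorem c12_20_m6_t15 : CovD 0 progs [(14293651161088, 1099511627776), (209379655680, 16106127360), (962072674304, 137438953472), (412316860416, 137438953472)] :=
  Pool.Agent.helper14.QF.covD_F chks_eq (.n 2 (.n 2 (.n 3 (.n 0 (.l 5) (.l 5)) (.l 7)) (.n 3 (.l 5) (.l 7))) (.n 3 (.n 2 (.l 5) (.l 5)) (.l 7)))
    [(14293651161088, 1099511627776), (209379655680, 16106127360), (962072674304, 137438953472), (412316860416, 137438953472)] rfl (by decide +kernel)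
theorem c12_20_m6_t16 : CovD 0 progs [(14293651161088, 1099511627776), (209379655680, 16106127360), (824633720832, 274877906944), (412316860416, 137438953472)] :=
  covD_split 2 (by decide +kernel) c12_20_m6_t14 c12_20_m6_t15
theorem c12_20_m6_t17 : CovD 0 progs [(16492674416640, 1099511627776), (209379655680, 16106127360), (824633720832, 274877906944), (412316860416, 137438953472)] :=
  Pool.Agent.helper14.QF.covD_F chks_eq (.n 2 (.n 1 (.n 2 (.n 2 (.l 5) (.l 5)) (.n 2 (.l 5) (.l 5))) (.n 2 (.n 0 (.n 2 (.l 5) (.l 5)) (.n 2 (.l 5) (.l 5))) (.n 3 (.n 0 (.l 5) (.l 5)) (.l 7)))) (.n 3 (.n 2 (.n 2 (.l 5) (.l 5)) (.n 1 (.l 5) (.l 7))) (.l 7)))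
    [(16492674416640, 1099511627776), (209379655680, 16106127360), (824633720832, 274877906944), (412316860416, 137438953472)] rfl (by decide +kernel)
theorem c12_20_m6_t18 : CovD 0 progs [(15393162788864, 2199023255552), (209379655680, 16106127360), (824633720832, 274877906944), (412316860416, 137438953472)] :=
  covD_split 0 (by decide +kernel) c12_20_m6_t16 c12_20_m6_t17
theorem c12_20_m6_t19 : CovD 0 progs [(15393162788864, 2199023255552), (209379655680, 16106127360), (824633720832, 274877906944), (274877906944, 274877906944)] :=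
  covD_split 3 (by decide +kernel) c12_20_m6_t13 c12_20_m6_t18
theorem c12_20_m6_t20 : CovD 0 progs [(15393162788864, 2199023255552), (241591910400, 16106127360), (687194767360, 137438953472), (137438953472, 137438953472)] :=
  Pool.Agent.helper14.QF.covD_F chks_eq (.n 1 (.n 2 (.n 0 (.n 2 (.l 5) (.l 5)) (.n 2 (.l 5) (.l 5))) (.n 0 (.n 2 (.l 5) (.l 5)) (.n 2 (.l 5) (.l 5)))) (.l 6))
    [(15393162788864, 2199023255552), (241591910400, 16106127360), (687194767360, 137438953472), (137438953472, 137438953472)] rfl (by decide +kernel)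
theorem c12_20_m6_t21 : CovD 0 progs [(15393162788864, 2199023255552), (241591910400, 16106127360), (962072674304, 137438953472), (137438953472, 137438953472)] :=
  Pool.Agent.helper14.QF.covD_F chks_eq (.n 1 (.n 0 (.n 2 (.n 2 (.l 5) (.l 5)) (.n 2 (.l 5) (.l 5))) (.n 2 (.n 2 (.l 5) (.l 5)) (.n 2 (.l 5) (.l 5)))) (.l 6))
    [(15393162788864, 2199023255552), (241591910400, 16106127360), (962072674304, 137438953472), (137438953472, 137438953472)] rfl (by decide +kernel)
theorem c12_20_m6_t22 : CovD 0 progs [(15393162788864, 2199023255552), (241591910400, 16106127360), (824633720832, 274877906944), (137438953472, 137438953472)] :=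
  covD_split 2 (by decide +kernel) c12_20_m6_t20 c12_20_m6_t21
theorem c12_20_m6_t23 : CovD 0 progs [(15393162788864, 2199023255552), (233538846720, 8053063680), (824633720832, 274877906944), (343597383680, 68719476736)] :=
  Pool.Agent.helper14.QF.covD_F chks_eq (.n 2 (.n 2 (.n 0 (.n 2 (.l 5) (.l 5)) (.n 2 (.l 5) (.l 5))) (.n 0 (.n 2 (.l 5) (.l 5)) (.n 2 (.l 5) (.l 5)))) (.n 0 (.n 2 (.n 2 (.l 5) (.l 5)) (.n 2 (.l 5) (.l 5))) (.n 2 (.n 2 (.l 5) (.l 5)) (.l 7))))
    [(15393162788864, 2199023255552), (233538846720, 8053063680), (824633720832, 274877906944), (343597383680, 68719476736)] rfl (by decide +kernel)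
theorem c12_20_m6_t24 : CovD 0 progs [(15393162788864, 2199023255552), (249644974080, 8053063680), (824633720832, 274877906944), (343597383680, 68719476736)] :=
  Pool.Agent.helper14.QF.covD_F chks_eq (.n 2 (.l 6) (.l 6))
    [(15393162788864, 2199023255552), (249644974080, 8053063680), (824633720832, 274877906944), (343597383680, 68719476736)] rfl (by decide +kernel)
theorem c12_20_m6_t25 : CovD 0 progs [(15393162788864, 2199023255552), (241591910400, 16106127360), (824633720832, 274877906944), (343597383680, 68719476736)] :=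
  covD_split 1 (by decide +kernel) c12_20_m6_t23 c12_20_m6_t24
theorem c12_20_m6_t26 : CovD 0 progs [(15393162788864, 2199023255552), (241591910400, 16106127360), (824633720832, 274877906944), (481036337152, 68719476736)] :=
  Pool.Agent.helper14.QF.covD_F chks_eq (.n 1 (.n 2 (.n 2 (.n 1 (.n 0 (.n 2 (.l 5) (.n 0 (.l 5) (.l 5))) (.n 2 (.l 5) (.l 5))) (.l 6)) (.n 0 (.l 7) (.l 7))) (.l 7)) (.n 2 (.l 6) (.l 7)))
    [(15393162788864, 2199023255552), (241591910400, 16106127360), (824633720832, 274877906944), (481036337152, 68719476736)] rfl (by decide +kernel)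
theorem c12_20_m6_t27 : CovD 0 progs [(15393162788864, 2199023255552), (241591910400, 16106127360), (824633720832, 274877906944), (412316860416, 137438953472)] :=
  covD_split 3 (by decide +kernel) c12_20_m6_t25 c12_20_m6_t26
theorem c12_20_m6_t28 : CovD 0 progs [(15393162788864, 2199023255552), (241591910400, 16106127360), (824633720832, 274877906944), (274877906944, 274877906944)] :=
  covD_split 3 (by decide +kernel) c12_20_m6_t22 c12_20_m6_t27
theorem c12_20_m6_t29 : CovD 0 progs [(15393162788864, 2199023255552), (225485783040, 32212254720), (824633720832, 274877906944), (274877906944, 274877906944)] :=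
  covD_split 1 (by decide +kernel) c12_20_m6_t19 c12_20_m6_t28
theorem c12_20_m6 : CovD 0 progs [(15393162788864, 2199023255552), (193273528320, 64424509440), (824633720832, 274877906944), (274877906944, 274877906944)] :=
  covD_split 1 (by decide +kernel) c12_20_m6_t10 c12_20_m6_t29

end Pool.Agent.helper71.FF.Crt.S
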