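import Pool.Agent.helper71.FF.Crt.Sc12_20_0
import Pool.Agent.helper71.FF.Crt.Sc12_20_1
import Pool.Agent.helper71.FF.Crt.Sc12_20_2
import Pool.Agent.helper71.FF.Crt.Sc12_20_3
import Pool.Agent.helper71.FF.Crt.Sc12_20_4
import Pool.Agent.helper71.FF.Crt.Sc12_20_5
import Pool.Agent.helper71.FF.Crt.Sc12_20_6
import Pool.Agent.helper71.FF.Crt.Sc12_20_7
import Pool.Agent.helper71.FF.Crt.Sc12_20_8

/-!
Generated certificates, assembled.
-/

namespace Pool.Agent.helper71.FF.Crt.S

open Pool.Agent.helper31.IA (Z Op)
open Pool.Agent.helper31.IC

theorem c12_20_top0 : CovD 0 progs [(15393162788864, 2199023255552), (193273528320, 64424509440), (274877906944, 274877906944), (549755813888, 549755813888)] :=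
  covD_split 1 (by decide +kernel) c12_20_m1 c12_20_m2
theorem c12_20_top1 : CovD 0 progs [(19791209299968, 2199023255552), (193273528320, 64424509440), (274877906944, 274877906944), (549755813888, 549755813888)] :=
  covD_split 1 (by decide +kernel) c12_20_m3 c12_20_m4
theorem c12_20_top2 : CovD 0 progs [(17592186044416, 4398046511104), (193273528320, 64424509440), (274877906944, 274877906944), (549755813888, 549755813888)] :=
  covD_split 0 (by decide +kernel) c12_20_top0 c12_20_top1
theorem c12_20_top3 : CovD 0 progs [(17592186044416, 4398046511104), (128849018880, 128849018880), (274877906944, 274877906944), (549755813888, 549755813888)] :=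
  covD_split 1 (by decide +kernel) c12_20_m0 c12_20_top2
theorem c12_20_top4 : CovD 0 progs [(15393162788864, 2199023255552), (128849018880, 128849018880), (824633720832, 274877906944), (274877906944, 274877906944)] :=
  covD_split 1 (by decide +kernel) c12_20_m5 c12_20_m6
theorem c12_20_top5 : CovD 0 progs [(17592186044416, 4398046511104), (128849018880, 128849018880), (824633720832, 274877906944), (274877906944, 274877906944)] :=
  covD_split 0 (by decide +kernel) c12_20_top4 c12_20_m7
theorem c12_20_top6 : CovD 0 progs [(17592186044416, 4398046511104), (128849018880, 128849018880), (824633720832, 274877906944), (549755813888, 549755813888)] :=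
  covD_split 3 (by decide +kernel) c12_20_top5 c12_20_m8
theorem c12_20_top7 : CovD 0 progs [(17592186044416, 4398046511104), (128849018880, 128849018880), (549755813888, 549755813888), (549755813888, 549755813888)] :=
  covD_split 2 (by decide +kernel) c12_20_top3 c12_20_top6

theorem c12_20_all : CovD 0 progs [(17592186044416, 4398046511104), (128849018880, 128849018880), (549755813888, 549755813888), (549755813888, 549755813888)] := c12_20_top7

end Pool.Agent.helper71.FF.Crt.S
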