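import Pool.Agent.helper71.FF.Crt.SP

/-!
Generated certificates.
-/

namespace Pool.Agent.helper71.FF.Crt.S

open Pool.Agent.helper31.IA (Z Op)
open Pool.Agent.helper31.IC

theorem c4_6_m2_t0 : CovD 0 progs [(4947802324992, 549755813888), (144955146240, 16106127360), (687194767360, 137438953472), (549755813888, 549755813888)] :=
  Pool.Agent.helper14.QF.covD_F chks_eq (.n 2 (.n 2 (.n 3 (.l 0) (.n 0 (.l 0) (.l 0))) (.n 3 (.l 0) (.n 0 (.l 0) (.l 0)))) (.n 3 (.n 2 (.l 0) (.l 3)) (.n 3 (.l 0) (.n 0 (.l 0) (.l 0)))))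
    [(4947802324992, 549755813888), (144955146240, 16106127360), (687194767360, 137438953472), (549755813888, 549755813888)] rfl (by decide +kernel)
theorem c4_6_m2_t1 : CovD 0 progs [(4947802324992, 549755813888), (144955146240, 16106127360), (962072674304, 137438953472), (549755813888, 549755813888)] :=
  Pool.Agent.helper14.QF.covD_F chks_eq (.n 2 (.n 3 (.n 2 (.l 3) (.l 3)) (.n 3 (.l 3) (.l 3))) (.n 3 (.n 3 (.l 0) (.l 3)) (.n 3 (.l 3) (.l 3))))
    [(4947802324992, 549755813888), (144955146240, 16106127360), (962072674304, 137438953472), (549755813888, 549755813888)] rfl (by decide +kernel)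
theorem c4_6_m2_t2 : CovD 0 progs [(4947802324992, 549755813888), (144955146240, 16106127360), (824633720832, 274877906944), (549755813888, 549755813888)] :=
  covD_split 2 (by decide +kernel) c4_6_m2_t0 c4_6_m2_t1
theorem c4_6_m2_t3 : CovD 0 progs [(4947802324992, 549755813888), (177167400960, 16106127360), (687194767360, 137438953472), (549755813888, 549755813888)] :=
  Pool.Agent.helper14.QF.covD_F chks_eq (.n 2 (.n 3 (.n 3 (.l 0) (.n 0 (.l 0) (.l 0))) (.n 2 (.n 3 (.n 0 (.l 0) (.l 0)) (.l 1)) (.n 3 (.l 3) (.l 1)))) (.n 3 (.n 3 (.l 3) (.n 0 (.l 3) (.l 0))) (.n 2 (.n 3 (.l 0) (.l 3)) (.n 3 (.l 3) (.l 3)))))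
    [(4947802324992, 549755813888), (177167400960, 16106127360), (687194767360, 137438953472), (549755813888, 549755813888)] rfl (by decide +kernel)
theorem c4_6_m2_t4 : CovD 0 progs [(4947802324992, 549755813888), (177167400960, 16106127360), (962072674304, 137438953472), (549755813888, 549755813888)] :=
  Pool.Agent.helper14.QF.covD_F chks_eq (.n 2 (.n 3 (.n 3 (.l 3) (.n 0 (.l 3) (.l 3))) (.n 2 (.n 3 (.l 3) (.l 3)) (.n 3 (.l 3) (.l 3)))) (.n 3 (.n 3 (.l 3) (.n 0 (.l 3) (.l 3))) (.n 0 (.n 3 (.l 3) (.l 3)) (.n 3 (.l 3) (.l 3)))))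
    [(4947802324992, 549755813888), (177167400960, 16106127360), (962072674304, 137438953472), (549755813888, 549755813888)] rfl (by decide +kernel)
theorem c4_6_m2_t5 : CovD 0 progs [(4947802324992, 549755813888), (177167400960, 16106127360), (824633720832, 274877906944), (549755813888, 549755813888)] :=
  covD_split 2 (by decide +kernel) c4_6_m2_t3 c4_6_m2_t4
theorem c4_6_m2_t6 : CovD 0 progs [(4947802324992, 549755813888), (161061273600, 32212254720), (824633720832, 274877906944), (549755813888, 549755813888)] :=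
  covD_split 1 (by decide +kernel) c4_6_m2_t2 c4_6_m2_t5
theorem c4_6_m2_t7 : CovD 0 progs [(6047313952768, 549755813888), (161061273600, 32212254720), (618475290624, 68719476736), (549755813888, 549755813888)] :=
  Pool.Agent.helper14.QF.covD_F chks_eq (.n 2 (.n 3 (.n 3 (.l 0) (.l 0)) (.n 1 (.l 0) (.n 3 (.l 0) (.l 0)))) (.n 3 (.n 3 (.l 0) (.l 0)) (.n 1 (.l 0) (.n 2 (.l 3) (.l 3)))))
    [(6047313952768, 549755813888), (161061273600, 32212254720), (618475290624, 68719476736), (549755813888, 549755813888)] rfl (by decide +kernel)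
theorem c4_6_m2_t8 : CovD 0 progs [(6047313952768, 549755813888), (161061273600, 32212254720), (755914244096, 68719476736), (549755813888, 549755813888)] :=
  Pool.Agent.helper14.QF.covD_F chks_eq (.n 1 (.n 2 (.n 3 (.l 0) (.l 0)) (.n 3 (.l 0) (.l 3))) (.n 3 (.n 3 (.l 0) (.l 3)) (.n 0 (.n 3 (.l 3) (.l 3)) (.n 3 (.l 3) (.l 3)))))
    [(6047313952768, 549755813888), (161061273600, 32212254720), (755914244096, 68719476736), (549755813888, 549755813888)] rfl (by decide +kernel)
theorem c4_6_m2_t9 : CovD 0 progs [(6047313952768, 549755813888), (161061273600, 32212254720), (687194767360, 137438953472), (549755813888, 549755813888)] :=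
  covD_split 2 (by decide +kernel) c4_6_m2_t7 c4_6_m2_t8
theorem c4_6_m2_t10 : CovD 0 progs [(6047313952768, 549755813888), (144955146240, 16106127360), (962072674304, 137438953472), (549755813888, 549755813888)] :=
  Pool.Agent.helper14.QF.covD_F chks_eq (.n 2 (.n 2 (.n 3 (.l 3) (.l 3)) (.n 3 (.l 3) (.l 3))) (.n 3 (.n 2 (.l 3) (.l 3)) (.n 3 (.l 3) (.l 3))))
    [(6047313952768, 549755813888), (144955146240, 16106127360), (962072674304, 137438953472), (549755813888, 549755813888)] rfl (by decide +kernel)
theorem c4_6_m2_t11 : CovD 0 progs [(6047313952768, 549755813888), (177167400960, 16106127360), (962072674304, 137438953472), (549755813888, 549755813888)] :=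
  Pool.Agent.helper14.QF.covD_F chks_eq (.n 2 (.n 3 (.n 3 (.l 3) (.l 3)) (.n 0 (.n 3 (.l 3) (.l 3)) (.n 3 (.l 3) (.l 3)))) (.n 3 (.n 3 (.l 3) (.l 3)) (.n 3 (.n 0 (.l 3) (.l 3)) (.l 3))))
    [(6047313952768, 549755813888), (177167400960, 16106127360), (962072674304, 137438953472), (549755813888, 549755813888)] rfl (by decide +kernel)
theorem c4_6_m2_t12 : CovD 0 progs [(6047313952768, 549755813888), (161061273600, 32212254720), (962072674304, 137438953472), (549755813888, 549755813888)] :=
  covD_split 1 (by decide +kernel) c4_6_m2_t10 c4_6_m2_t11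
theorem c4_6_m2_t13 : CovD 0 progs [(6047313952768, 549755813888), (161061273600, 32212254720), (824633720832, 274877906944), (549755813888, 549755813888)] :=
  covD_split 2 (by decide +kernel) c4_6_m2_t9 c4_6_m2_t12
theorem c4_6_m2 : CovD 0 progs [(5497558138880, 1099511627776), (161061273600, 32212254720), (824633720832, 274877906944), (549755813888, 549755813888)] :=
  covD_split 0 (by decide +kernel) c4_6_m2_t6 c4_6_m2_t13

end Pool.Agent.helper71.FF.Crt.S
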