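import Pool.Agent.helper71.FF.Crt.SP

/-!
Generated certificates.
-/

namespace Pool.Agent.helper71.FF.Crt.S

open Pool.Agent.helper31.IA (Z Op)
open Pool.Agent.helper31.IC

theorem c4_6_m5_t0 : CovD 0 progs [(4947802324992, 549755813888), (233538846720, 8053063680), (893353197568, 68719476736), (274877906944, 274877906944)] :=
  Pool.Agent.helper14.QF.covD_F chks_eq (.n 3 (.n 1 (.n 3 (.l 3) (.l 3)) (.l 6)) (.n 0 (.n 2 (.n 3 (.l 3) (.l 3)) (.n 2 (.l 3) (.l 3))) (.n 2 (.l 3) (.l 3))))
    [(4947802324992, 549755813888), (233538846720, 8053063680), (893353197568, 68719476736), (274877906944, 274877906944)] rfl (by decide +kernel)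
theorem c4_6_m5_t1 : CovD 0 progs [(4947802324992, 549755813888), (233538846720, 8053063680), (893353197568, 68719476736), (824633720832, 274877906944)] :=
  Pool.Agent.helper14.QF.covD_F chks_eq (.n 0 (.n 2 (.n 3 (.n 3 (.l 3) (.l 3)) (.l 3)) (.n 3 (.n 2 (.l 3) (.l 3)) (.l 3))) (.n 2 (.n 3 (.n 0 (.l 3) (.l 3)) (.l 3)) (.n 3 (.l 3) (.l 3))))
    [(4947802324992, 549755813888), (233538846720, 8053063680), (893353197568, 68719476736), (824633720832, 274877906944)] rfl (by decide +kernel)
theorem c4_6_m5_t2 : CovD 0 progs [(4947802324992, 549755813888), (233538846720, 8053063680), (893353197568, 68719476736), (549755813888, 549755813888)] :=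
  covD_split 3 (by decide +kernel) c4_6_m5_t0 c4_6_m5_t1
theorem c4_6_m5_t3 : CovD 0 progs [(4947802324992, 549755813888), (233538846720, 8053063680), (1030792151040, 68719476736), (549755813888, 549755813888)] :=
  Pool.Agent.helper14.QF.covD_F chks_eq (.n 3 (.n 3 (.n 1 (.n 3 (.l 3) (.l 3)) (.l 6)) (.n 2 (.n 0 (.n 3 (.l 3) (.l 3)) (.l 3)) (.n 3 (.l 3) (.l 3)))) (.n 2 (.n 3 (.n 3 (.l 3) (.l 3)) (.l 3)) (.n 3 (.n 3 (.l 3) (.l 3)) (.l 3))))
    [(4947802324992, 549755813888), (233538846720, 8053063680), (1030792151040, 68719476736), (549755813888, 549755813888)] rfl (by decide +kernel)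
theorem c4_6_m5_t4 : CovD 0 progs [(4947802324992, 549755813888), (233538846720, 8053063680), (962072674304, 137438953472), (549755813888, 549755813888)] :=
  covD_split 2 (by decide +kernel) c4_6_m5_t2 c4_6_m5_t3
theorem c4_6_m5_t5 : CovD 0 progs [(6047313952768, 549755813888), (233538846720, 8053063680), (893353197568, 68719476736), (549755813888, 549755813888)] :=
  Pool.Agent.helper14.QF.covD_F chks_eq (.n 3 (.n 3 (.n 3 (.l 3) (.l 3)) (.n 0 (.n 2 (.l 3) (.l 3)) (.n 2 (.l 3) (.l 3)))) (.n 3 (.n 0 (.n 2 (.l 3) (.l 3)) (.n 2 (.l 3) (.l 3))) (.l 7)))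
    [(6047313952768, 549755813888), (233538846720, 8053063680), (893353197568, 68719476736), (549755813888, 549755813888)] rfl (by decide +kernel)
theorem c4_6_m5_t6 : CovD 0 progs [(6047313952768, 549755813888), (233538846720, 8053063680), (1030792151040, 68719476736), (549755813888, 549755813888)] :=
  Pool.Agent.helper14.QF.covD_F chks_eq (.n 3 (.n 3 (.n 3 (.l 3) (.l 3)) (.n 0 (.n 2 (.l 3) (.l 3)) (.n 2 (.l 3) (.l 3)))) (.n 3 (.n 2 (.l 3) (.l 3)) (.l 7)))
    [(6047313952768, 549755813888), (233538846720, 8053063680), (1030792151040, 68719476736), (549755813888, 549755813888)] rfl (by decide +kernel)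
theorem c4_6_m5_t7 : CovD 0 progs [(6047313952768, 549755813888), (233538846720, 8053063680), (962072674304, 137438953472), (549755813888, 549755813888)] :=
  covD_split 2 (by decide +kernel) c4_6_m5_t5 c4_6_m5_t6
theorem c4_6_m5_t8 : CovD 0 progs [(5497558138880, 1099511627776), (233538846720, 8053063680), (962072674304, 137438953472), (549755813888, 549755813888)] :=
  covD_split 0 (by decide +kernel) c4_6_m5_t4 c4_6_m5_t7
theorem c4_6_m5_t9 : CovD 0 progs [(5497558138880, 1099511627776), (249644974080, 8053063680), (962072674304, 137438953472), (274877906944, 274877906944)] :=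
  Pool.Agent.helper14.QF.covD_F chks_eq (.n 3 (.l 6) (.n 1 (.n 3 (.l 6) (.n 2 (.n 1 (.n 2 (.l 6) (.n 3 (.l 6) (.l 6))) (.l 6)) (.n 0 (.n 0 (.n 2 (.l 3) (.l 3)) (.n 0 (.l 3) (.l 3))) (.n 0 (.l 3) (.l 3))))) (.n 2 (.l 6) (.n 2 (.l 6) (.n 3 (.l 6) (.l 6))))))
    [(5497558138880, 1099511627776), (249644974080, 8053063680), (962072674304, 137438953472), (274877906944, 274877906944)] rfl (by decide +kernel)
theorem c4_6_m5_t10 : CovD 0 progs [(4947802324992, 549755813888), (249644974080, 8053063680), (893353197568, 68719476736), (687194767360, 137438953472)] :=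
  Pool.Agent.helper14.QF.covD_F chks_eq (.n 2 (.n 3 (.n 1 (.n 0 (.n 0 (.l 3) (.l 3)) (.l 3)) (.l 6)) (.n 0 (.n 0 (.n 2 (.l 3) (.l 3)) (.l 3)) (.l 3))) (.n 0 (.n 1 (.n 3 (.l 3) (.l 3)) (.n 3 (.n 3 (.l 6) (.l 3)) (.l 3))) (.n 3 (.l 3) (.l 3))))
    [(4947802324992, 549755813888), (249644974080, 8053063680), (893353197568, 68719476736), (687194767360, 137438953472)] rfl (by decide +kernel)
theorem c4_6_m5_t11 : CovD 0 progs [(4947802324992, 549755813888), (249644974080, 8053063680), (893353197568, 68719476736), (962072674304, 137438953472)] :=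
  Pool.Agent.helper14.QF.covD_F chks_eq (.n 0 (.n 3 (.n 2 (.l 3) (.l 3)) (.l 7)) (.l 7))
    [(4947802324992, 549755813888), (249644974080, 8053063680), (893353197568, 68719476736), (962072674304, 137438953472)] rfl (by decide +kernel)
theorem c4_6_m5_t12 : CovD 0 progs [(4947802324992, 549755813888), (249644974080, 8053063680), (893353197568, 68719476736), (824633720832, 274877906944)] :=
  covD_split 3 (by decide +kernel) c4_6_m5_t10 c4_6_m5_t11
theorem c4_6_m5_t13 : CovD 0 progs [(4947802324992, 549755813888), (249644974080, 8053063680), (1030792151040, 68719476736), (824633720832, 274877906944)] :=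
  Pool.Agent.helper14.QF.covD_F chks_eq (.n 0 (.n 3 (.n 2 (.n 3 (.n 2 (.l 3) (.l 3)) (.l 3)) (.n 3 (.l 3) (.l 3))) (.l 7)) (.n 3 (.n 3 (.n 2 (.l 3) (.l 3)) (.l 3)) (.l 7)))
    [(4947802324992, 549755813888), (249644974080, 8053063680), (1030792151040, 68719476736), (824633720832, 274877906944)] rfl (by decide +kernel)
theorem c4_6_m5_t14 : CovD 0 progs [(4947802324992, 549755813888), (249644974080, 8053063680), (962072674304, 137438953472), (824633720832, 274877906944)] :=
  covD_split 2 (by decide +kernel) c4_6_m5_t12 c4_6_m5_t13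
theorem c4_6_m5_t15 : CovD 0 progs [(6047313952768, 549755813888), (249644974080, 8053063680), (962072674304, 137438953472), (824633720832, 274877906944)] :=
  Pool.Agent.helper14.QF.covD_F chks_eq (.n 2 (.n 3 (.n 2 (.n 3 (.n 0 (.l 3) (.l 3)) (.l 3)) (.n 3 (.l 3) (.l 3))) (.l 7)) (.n 3 (.n 3 (.n 2 (.l 3) (.l 3)) (.l 7)) (.l 7)))
    [(6047313952768, 549755813888), (249644974080, 8053063680), (962072674304, 137438953472), (824633720832, 274877906944)] rfl (by decide +kernel)
theorem c4_6_m5_t16 : CovD 0 progs [(5497558138880, 1099511627776), (249644974080, 8053063680), (962072674304, 137438953472), (824633720832, 274877906944)] :=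
  covD_split 0 (by decide +kernel) c4_6_m5_t14 c4_6_m5_t15
theorem c4_6_m5_t17 : CovD 0 progs [(5497558138880, 1099511627776), (249644974080, 8053063680), (962072674304, 137438953472), (549755813888, 549755813888)] :=
  covD_split 3 (by decide +kernel) c4_6_m5_t9 c4_6_m5_t16
theorem c4_6_m5 : CovD 0 progs [(5497558138880, 1099511627776), (241591910400, 16106127360), (962072674304, 137438953472), (549755813888, 549755813888)] :=
  covD_split 1 (by decide +kernel) c4_6_m5_t8 c4_6_m5_t17

end Pool.Agent.helper71.FF.Crt.S
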