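import Pool.Agent.helper71.FF.Crt.Sc4_6_0
import Pool.Agent.helper71.FF.Crt.Sc4_6_1
import Pool.Agent.helper71.FF.Crt.Sc4_6_2
import Pool.Agent.helper71.FF.Crt.Sc4_6_3
import Pool.Agent.helper71.FF.Crt.Sc4_6_4
import Pool.Agent.helper71.FF.Crt.Sc4_6_5

/-!
Generated certificates, assembled.
-/

namespace Pool.Agent.helper71.FF.Crt.S

open Pool.Agent.helper31.IA (Z Op)
open Pool.Agent.helper31.IC

theorem c4_6_top0 : CovD 0 progs [(5497558138880, 1099511627776), (241591910400, 16106127360), (824633720832, 274877906944), (549755813888, 549755813888)] :=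
  covD_split 2 (by decide +kernel) c4_6_m4 c4_6_m5
theorem c4_6_top1 : CovD 0 progs [(5497558138880, 1099511627776), (225485783040, 32212254720), (824633720832, 274877906944), (549755813888, 549755813888)] :=
  covD_split 1 (by decide +kernel) c4_6_m3 c4_6_top0
theorem c4_6_top2 : CovD 0 progs [(5497558138880, 1099511627776), (193273528320, 64424509440), (824633720832, 274877906944), (549755813888, 549755813888)] :=
  covD_split 1 (by decide +kernel) c4_6_m2 c4_6_top1
theorem c4_6_top3 : CovD 0 progs [(5497558138880, 1099511627776), (193273528320, 64424509440), (549755813888, 549755813888), (549755813888, 549755813888)] :=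
  covD_split 2 (by decide +kernel) c4_6_m1 c4_6_top2
theorem c4_6_top4 : CovD 0 progs [(5497558138880, 1099511627776), (128849018880, 128849018880), (549755813888, 549755813888), (549755813888, 549755813888)] :=
  covD_split 1 (by decide +kernel) c4_6_m0 c4_6_top3

theorem c4_6_all : CovD 0 progs [(5497558138880, 1099511627776), (128849018880, 128849018880), (549755813888, 549755813888), (549755813888, 549755813888)] := c4_6_top4

end Pool.Agent.helper71.FF.Crt.S
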