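import Pool.Agent.helper71.FF.Crt.SP

/-!
Generated certificates.
-/

namespace Pool.Agent.helper71.FF.Crt.S

open Pool.Agent.helper31.IA (Z Op)
open Pool.Agent.helper31.IC

theorem c6_8_m1_t0 : CovD 0 progs [(7696581394432, 1099511627776), (32212254720, 32212254720), (824633720832, 274877906944), (274877906944, 274877906944)] :=
  Pool.Agent.helper14.QF.covD_F chks_eq (.n 2 (.n 2 (.l 0) (.l 0)) (.n 0 (.n 1 (.l 0) (.l 0)) (.n 1 (.l 0) (.l 0))))
    [(7696581394432, 1099511627776), (32212254720, 32212254720), (824633720832, 274877906944), (274877906944, 274877906944)] rfl (by decide +kernel)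
theorem c6_8_m1_t1 : CovD 0 progs [(7696581394432, 1099511627776), (96636764160, 32212254720), (824633720832, 274877906944), (274877906944, 274877906944)] :=
  Pool.Agent.helper14.QF.covD_F chks_eq (.n 1 (.n 2 (.n 2 (.l 0) (.l 0)) (.n 2 (.l 0) (.n 0 (.l 0) (.l 0)))) (.n 0 (.n 2 (.n 2 (.l 0) (.l 0)) (.n 2 (.l 0) (.l 3))) (.n 2 (.n 2 (.l 0) (.l 0)) (.n 2 (.l 3) (.l 3)))))
    [(7696581394432, 1099511627776), (96636764160, 32212254720), (824633720832, 274877906944), (274877906944, 274877906944)] rfl (by decide +kernel)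
theorem c6_8_m1_t2 : CovD 0 progs [(7696581394432, 1099511627776), (64424509440, 64424509440), (824633720832, 274877906944), (274877906944, 274877906944)] :=
  covD_split 1 (by decide +kernel) c6_8_m1_t0 c6_8_m1_t1
theorem c6_8_m1_t3 : CovD 0 progs [(7696581394432, 1099511627776), (144955146240, 16106127360), (824633720832, 274877906944), (274877906944, 274877906944)] :=
  Pool.Agent.helper14.QF.covD_F chks_eq (.n 2 (.n 2 (.n 3 (.l 0) (.n 0 (.l 0) (.l 0))) (.n 3 (.l 0) (.l 3))) (.n 2 (.n 3 (.l 3) (.l 3)) (.n 3 (.l 3) (.n 0 (.l 3) (.l 3)))))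
    [(7696581394432, 1099511627776), (144955146240, 16106127360), (824633720832, 274877906944), (274877906944, 274877906944)] rfl (by decide +kernel)
theorem c6_8_m1_t4 : CovD 0 progs [(7696581394432, 1099511627776), (177167400960, 16106127360), (824633720832, 274877906944), (274877906944, 274877906944)] :=
  Pool.Agent.helper14.QF.covD_F chks_eq (.n 0 (.n 2 (.n 2 (.n 3 (.l 0) (.l 3)) (.n 3 (.l 0) (.l 3))) (.n 2 (.n 3 (.l 3) (.l 3)) (.n 3 (.l 3) (.l 3)))) (.n 2 (.n 2 (.n 3 (.l 0) (.l 3)) (.n 3 (.l 3) (.l 3))) (.n 2 (.n 3 (.l 3) (.l 3)) (.n 3 (.l 3) (.l 3)))))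
    [(7696581394432, 1099511627776), (177167400960, 16106127360), (824633720832, 274877906944), (274877906944, 274877906944)] rfl (by decide +kernel)
theorem c6_8_m1_t5 : CovD 0 progs [(7696581394432, 1099511627776), (161061273600, 32212254720), (824633720832, 274877906944), (274877906944, 274877906944)] :=
  covD_split 1 (by decide +kernel) c6_8_m1_t3 c6_8_m1_t4
theorem c6_8_m1_t6 : CovD 0 progs [(7146825580544, 549755813888), (209379655680, 16106127360), (824633720832, 274877906944), (274877906944, 274877906944)] :=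
  Pool.Agent.helper14.QF.covD_F chks_eq (.n 2 (.n 2 (.n 2 (.n 3 (.l 0) (.l 3)) (.n 3 (.l 3) (.l 3))) (.n 2 (.n 3 (.l 3) (.l 3)) (.n 3 (.l 3) (.l 3)))) (.n 2 (.n 3 (.n 3 (.l 3) (.l 3)) (.n 2 (.l 3) (.l 3))) (.n 3 (.n 3 (.l 3) (.l 3)) (.n 2 (.l 3) (.l 3)))))
    [(7146825580544, 549755813888), (209379655680, 16106127360), (824633720832, 274877906944), (274877906944, 274877906944)] rfl (by decide +kernel)
theorem c6_8_m1_t7 : CovD 0 progs [(8246337208320, 549755813888), (209379655680, 16106127360), (824633720832, 274877906944), (274877906944, 274877906944)] :=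
  Pool.Agent.helper14.QF.covD_F chks_eq (.n 2 (.n 2 (.n 2 (.n 3 (.l 5) (.l 3)) (.n 3 (.l 5) (.l 3))) (.n 2 (.n 3 (.l 5) (.l 3)) (.n 3 (.l 5) (.l 3)))) (.n 2 (.n 2 (.n 3 (.l 5) (.l 3)) (.n 3 (.l 5) (.l 3))) (.n 3 (.n 3 (.l 5) (.l 3)) (.n 2 (.l 3) (.l 3)))))
    [(8246337208320, 549755813888), (209379655680, 16106127360), (824633720832, 274877906944), (274877906944, 274877906944)] rfl (by decide +kernel)
theorem c6_8_m1_t8 : CovD 0 progs [(7696581394432, 1099511627776), (209379655680, 16106127360), (824633720832, 274877906944), (274877906944, 274877906944)] :=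
  covD_split 0 (by decide +kernel) c6_8_m1_t6 c6_8_m1_t7
theorem c6_8_m1_t9 : CovD 0 progs [(7696581394432, 1099511627776), (229512314880, 4026531840), (687194767360, 137438953472), (274877906944, 274877906944)] :=
  Pool.Agent.helper14.QF.covD_F chks_eq (.n 2 (.n 3 (.n 1 (.n 0 (.l 3) (.l 5)) (.l 6)) (.n 0 (.n 0 (.l 3) (.l 3)) (.n 2 (.l 3) (.l 3)))) (.n 3 (.n 1 (.n 0 (.l 3) (.l 5)) (.l 6)) (.n 0 (.n 0 (.l 3) (.l 3)) (.n 2 (.l 3) (.l 3)))))
    [(7696581394432, 1099511627776), (229512314880, 4026531840), (687194767360, 137438953472), (274877906944, 274877906944)] rfl (by decide +kernel)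
theorem c6_8_m1_t10 : CovD 0 progs [(7696581394432, 1099511627776), (237565378560, 4026531840), (687194767360, 137438953472), (274877906944, 274877906944)] :=
  Pool.Agent.helper14.QF.covD_F chks_eq (.n 3 (.l 6) (.n 3 (.l 6) (.n 2 (.l 6) (.n 0 (.l 3) (.l 3)))))
    [(7696581394432, 1099511627776), (237565378560, 4026531840), (687194767360, 137438953472), (274877906944, 274877906944)] rfl (by decide +kernel)
theorem c6_8_m1_t11 : CovD 0 progs [(7696581394432, 1099511627776), (233538846720, 8053063680), (687194767360, 137438953472), (274877906944, 274877906944)] :=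
  covD_split 1 (by decide +kernel) c6_8_m1_t9 c6_8_m1_t10
theorem c6_8_m1_t12 : CovD 0 progs [(7696581394432, 1099511627776), (233538846720, 8053063680), (962072674304, 137438953472), (274877906944, 274877906944)] :=
  Pool.Agent.helper14.QF.covD_F chks_eq (.n 0 (.n 2 (.n 3 (.n 3 (.l 3) (.l 3)) (.n 3 (.l 3) (.l 3))) (.n 3 (.n 3 (.l 3) (.l 3)) (.n 3 (.l 3) (.l 3)))) (.n 2 (.n 3 (.n 3 (.l 5) (.l 3)) (.n 3 (.l 3) (.l 3))) (.n 3 (.n 3 (.l 5) (.l 3)) (.n 3 (.l 3) (.l 3)))))
    [(7696581394432, 1099511627776), (233538846720, 8053063680), (962072674304, 137438953472), (274877906944, 274877906944)] rfl (by decide +kernel)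
theorem c6_8_m1_t13 : CovD 0 progs [(7696581394432, 1099511627776), (233538846720, 8053063680), (824633720832, 274877906944), (274877906944, 274877906944)] :=
  covD_split 2 (by decide +kernel) c6_8_m1_t11 c6_8_m1_t12
theorem c6_8_m1_t14 : CovD 0 progs [(7696581394432, 1099511627776), (249644974080, 8053063680), (824633720832, 274877906944), (274877906944, 274877906944)] :=
  Pool.Agent.helper14.QF.covD_F chks_eq (.n 3 (.l 6) (.n 2 (.n 2 (.l 6) (.l 6)) (.n 3 (.l 6) (.n 2 (.n 2 (.l 6) (.n 0 (.l 3) (.l 3))) (.n 0 (.n 2 (.l 3) (.l 3)) (.n 0 (.l 3) (.l 3)))))))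
    [(7696581394432, 1099511627776), (249644974080, 8053063680), (824633720832, 274877906944), (274877906944, 274877906944)] rfl (by decide +kernel)
theorem c6_8_m1_t15 : CovD 0 progs [(7696581394432, 1099511627776), (241591910400, 16106127360), (824633720832, 274877906944), (274877906944, 274877906944)] :=
  covD_split 1 (by decide +kernel) c6_8_m1_t13 c6_8_m1_t14
theorem c6_8_m1_t16 : CovD 0 progs [(7696581394432, 1099511627776), (225485783040, 32212254720), (824633720832, 274877906944), (274877906944, 274877906944)] :=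
  covD_split 1 (by decide +kernel) c6_8_m1_t8 c6_8_m1_t15
theorem c6_8_m1_t17 : CovD 0 progs [(7696581394432, 1099511627776), (193273528320, 64424509440), (824633720832, 274877906944), (274877906944, 274877906944)] :=
  covD_split 1 (by decide +kernel) c6_8_m1_t5 c6_8_m1_t16
theorem c6_8_m1 : CovD 0 progs [(7696581394432, 1099511627776), (128849018880, 128849018880), (824633720832, 274877906944), (274877906944, 274877906944)] :=
  covD_split 1 (by decide +kernel) c6_8_m1_t2 c6_8_m1_t17

end Pool.Agent.helper71.FF.Crt.S
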