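import Pool.Agent.helper71.FF.Crt.Sc6_8_0
import Pool.Agent.helper71.FF.Crt.Sc6_8_1
import Pool.Agent.helper71.FF.Crt.Sc6_8_2
import Pool.Agent.helper71.FF.Crt.Sc6_8_3

/-!
Generated certificates, assembled.
-/

namespace Pool.Agent.helper71.FF.Crt.S

open Pool.Agent.helper31.IA (Z Op)
open Pool.Agent.helper31.IC

theorem c6_8_top0 : CovD 0 progs [(7696581394432, 1099511627776), (128849018880, 128849018880), (549755813888, 549755813888), (274877906944, 274877906944)] :=
  covD_split 2 (by decide +kernel) c6_8_m0 c6_8_m1
theorem c6_8_top1 : CovD 0 progs [(7696581394432, 1099511627776), (128849018880, 128849018880), (549755813888, 549755813888), (824633720832, 274877906944)] :=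
  covD_split 2 (by decide +kernel) c6_8_m2 c6_8_m3
theorem c6_8_top2 : CovD 0 progs [(7696581394432, 1099511627776), (128849018880, 128849018880), (549755813888, 549755813888), (549755813888, 549755813888)] :=
  covD_split 3 (by decide +kernel) c6_8_top0 c6_8_top1

theorem c6_8_all : CovD 0 progs [(7696581394432, 1099511627776), (128849018880, 128849018880), (549755813888, 549755813888), (549755813888, 549755813888)] := c6_8_top2

end Pool.Agent.helper71.FF.Crt.S
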