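import Pool.Agent.helper71.FF.Crt.Scx_0

/-!
Generated certificates, assembled.
-/

namespace Pool.Agent.helper71.FF.Crt.S

open Pool.Agent.helper31.IA (Z Op)
open Pool.Agent.helper31.IC


theorem cx_all : CovD 0 progs [(13194139533312, 8796093022208), (317827579904, 60129542144), (549755813888, 549755813888), (549755813888, 549755813888)] := cx_m0

end Pool.Agent.helper71.FF.Crt.S
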