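import Pool.Agent.helper71.FF.Ib
import Pool.Agent.helper71.FF.Crt.GA
import Pool.Agent.helper71.FF.Crt.SA
import Pool.Agent.helper71.FF.Crt.CA
import Pool.Agent.helper71.FF.Crt.KA
import Pool.Agent.helper71.FF.Crt.Gc4_6
import Pool.Agent.helper71.FF.Crt.Gc6_8
import Pool.Agent.helper71.FF.Crt.Gc8_12
import Pool.Agent.helper71.FF.Crt.Gc12_20
import Pool.Agent.helper71.FF.Crt.Gcx
import Pool.Agent.helper71.FF.Crt.Sc4_6
import Pool.Agent.helper71.FF.Crt.Sc6_8
import Pool.Agent.helper71.FF.Crt.Sc8_12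
import Pool.Agent.helper71.FF.Crt.Sc12_20
import Pool.Agent.helper71.FF.Crt.Scx
import Pool.Agent.helper71.FF.Crt.Cc4_5
import Pool.Agent.helper71.FF.Crt.Cc5_6
import Pool.Agent.helper71.FF.Crt.Cc6_8
import Pool.Agent.helper71.FF.Crt.Cc8_12
import Pool.Agent.helper71.FF.Crt.Cc12_20
import Pool.Agent.helper71.FF.Crt.Kc4_5
import Pool.Agent.helper71.FF.Crt.Kc5_6
import Pool.Agent.helper71.FF.Crt.Kc6_8
import Pool.Agent.helper71.FF.Crt.Kc8_12
import Pool.Agent.helper71.FF.Crt.Kc12_20

/-!
Generated: the certified boxes.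
-/

namespace Pool.Agent.helper71.FF

open Complex Pool.Agent.helper31.EQ.Y Pool.Agent.helper31.EQ.R
open Pool.Agent.helper12.EQL Pool.Agent.helper12.RP Pool.Agent.helper12.FF Pool.Agent.helper63.FF
open Pool.Agent.helper31.IA (Z Op InBox)

theorem covG {e t u n : ℝ} (h4 : 4 ≤ e) (h20 : e ≤ 20) (t0 : 0 ≤ t) (t1 : t ≤ 27 / 64)
    (u0 : 0 ≤ u) (u1 : u ≤ 1) (n0 : 0 ≤ n) (n1 : n ≤ 1) : ∃ ops ∈ Pool.Agent.helper71.FF.Crt.G.progs, RAs ops [e, t, u, n] := by
  rcases le_total t (9 / 32) with ht | ht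
  · rcases le_total e 6 with e6 | e6
    · exact ras_of_cov (by decide +kernel) Pool.Agent.helper71.FF.Crt.G.c4_6_all
        (List.Forall₂.cons (ib (by norm_num) (by norm_num) h4 e6) (List.Forall₂.cons (ib (by norm_num) (by norm_num) t0 ht) (List.Forall₂.cons (ib (by norm_num) (by norm_num) u0 u1) (List.Forall₂.cons (ib (by norm_num) (by norm_num) n0 n1) List.Forall₂.nil))))
    rcases le_total e 8 with e8 | e8
    · exact ras_of_cov (by decide +kernel) Pool.Agent.helper71.FF.Crt.G.c6_8_all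
        (List.Forall₂.cons (ib (by norm_num) (by norm_num) e6 e8) (List.Forall₂.cons (ib (by norm_num) (by norm_num) t0 ht) (List.Forall₂.cons (ib (by norm_num) (by norm_num) u0 u1) (List.Forall₂.cons (ib (by norm_num) (by norm_num) n0 n1) List.Forall₂.nil))))
    rcases le_total e 12 with e12 | e12
    · exact ras_of_cov (by decide +kernel) Pool.Agent.helper71.FF.Crt.G.c8_12_all
        (List.Forall₂.cons (ib (by norm_num) (by norm_num) e8 e12) (List.Forall₂.cons (ib (by norm_num) (by norm_num) t0 ht) (List.Forall₂.cons (ib (by norm_num) (by norm_num) u0 u1) (List.Forall₂.cons (ib (by norm_num) (by norm_num) n0 n1) List.Forall₂.nil))))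
    · exact ras_of_cov (by decide +kernel) Pool.Agent.helper71.FF.Crt.G.c12_20_all
        (List.Forall₂.cons (ib (by norm_num) (by norm_num) e12 h20) (List.Forall₂.cons (ib (by norm_num) (by norm_num) t0 ht) (List.Forall₂.cons (ib (by norm_num) (by norm_num) u0 u1) (List.Forall₂.cons (ib (by norm_num) (by norm_num) n0 n1) List.Forall₂.nil))))
  · exact ras_of_cov (by decide +kernel) Pool.Agent.helper71.FF.Crt.G.cx_all
        (List.Forall₂.cons (ib (by norm_num) (by norm_num) h4 h20) (List.Forall₂.cons (ib (by norm_num) (by norm_num) ht t1) (List.Forall₂.cons (ib (by norm_num) (by norm_num) u0 u1) (List.Forall₂.cons (ib (by norm_num) (by norm_num) n0 n1) List.Forall₂.nil))))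

theorem covS {e t u n : ℝ} (h4 : 4 ≤ e) (h20 : e ≤ 20) (t0 : 0 ≤ t) (t1 : t ≤ 11 / 32)
    (u0 : 0 ≤ u) (u1 : u ≤ 1) (n0 : 0 ≤ n) (n1 : n ≤ 1) : ∃ ops ∈ Pool.Agent.helper71.FF.Crt.S.progs, RAs ops [e, t, u, n] := by
  rcases le_total t (15 / 64) with ht | ht
  · rcases le_total e 6 with e6 | e6
    · exact ras_of_cov (by decide +kernel) Pool.Agent.helper71.FF.Crt.S.c4_6_all
        (List.Forall₂.cons (ib (by norm_num) (by norm_num) h4 e6) (List.Forall₂.cons (ib (by norm_num) (by norm_num) t0 ht) (List.Forall₂.cons (ib (by norm_num) (by norm_num) u0 u1) (List.Forall₂.cons (ib (by norm_num) (by norm_num) n0 n1) List.Forall₂.nil))))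
    rcases le_total e 8 with e8 | e8
    · exact ras_of_cov (by decide +kernel) Pool.Agent.helper71.FF.Crt.S.c6_8_all
        (List.Forall₂.cons (ib (by norm_num) (by norm_num) e6 e8) (List.Forall₂.cons (ib (by norm_num) (by norm_num) t0 ht) (List.Forall₂.cons (ib (by norm_num) (by norm_num) u0 u1) (List.Forall₂.cons (ib (by norm_num) (by norm_num) n0 n1) List.Forall₂.nil))))
    rcases le_total e 12 with e12 | e12
    · exact ras_of_cov (by decide +kernel) Pool.Agent.helper71.FF.Crt.S.c8_12_all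
        (List.Forall₂.cons (ib (by norm_num) (by norm_num) e8 e12) (List.Forall₂.cons (ib (by norm_num) (by norm_num) t0 ht) (List.Forall₂.cons (ib (by norm_num) (by norm_num) u0 u1) (List.Forall₂.cons (ib (by norm_num) (by norm_num) n0 n1) List.Forall₂.nil))))
    · exact ras_of_cov (by decide +kernel) Pool.Agent.helper71.FF.Crt.S.c12_20_all
        (List.Forall₂.cons (ib (by norm_num) (by norm_num) e12 h20) (List.Forall₂.cons (ib (by norm_num) (by norm_num) t0 ht) (List.Forall₂.cons (ib (by norm_num) (by norm_num) u0 u1) (List.Forall₂.cons (ib (by norm_num) (by norm_num) n0 n1) List.Forall₂.nil))))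
  · exact ras_of_cov (by decide +kernel) Pool.Agent.helper71.FF.Crt.S.cx_all
        (List.Forall₂.cons (ib (by norm_num) (by norm_num) h4 h20) (List.Forall₂.cons (ib (by norm_num) (by norm_num) ht t1) (List.Forall₂.cons (ib (by norm_num) (by norm_num) u0 u1) (List.Forall₂.cons (ib (by norm_num) (by norm_num) n0 n1) List.Forall₂.nil))))

/-- the bound of `h` -/
noncomputable def hmx (e : ℝ) : ℝ :=
  if e ≤ 5 then 420 / 1024 else if e ≤ 6 then 389 / 1024 else if e ≤ 8 then 358 / 1024 else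
  if e ≤ 12 then 307 / 1024 else 256 / 1024

theorem covC {e h y p : ℝ} (h4 : 4 ≤ e) (h20 : e ≤ 20) (h0 : 13 / 128 ≤ h) (h1 : h ≤ hmx e)
    (y0 : 0 ≤ y) (y1 : y ≤ 1) (p0 : 0 ≤ p) (p1 : p ≤ 1) :
    ∃ ops ∈ Pool.Agent.helper71.FF.Crt.C.progs, RAs ops [e, h, y, p] := by
  unfold hmx at h1
  split_ifs at h1 with e5 e6 e8 e12
  · exact ras_of_cov (by decide +kernel) Pool.Agent.helper71.FF.Crt.C.c4_5_all
      (List.Forall₂.cons (ib (by norm_num) (by norm_num) h4 e5) (List.Forall₂.cons (ib (by norm_num) (by norm_num) h0 h1) (List.Forall₂.cons (ib (by norm_num) (by norm_num) y0 y1) (List.Forall₂.cons (ib (by norm_num) (by norm_num) p0 p1) List.Forall₂.nil))))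
  · exact ras_of_cov (by decide +kernel) Pool.Agent.helper71.FF.Crt.C.c5_6_all
      (List.Forall₂.cons (ib (by norm_num) (by norm_num) (not_le.1 e5).le e6) (List.Forall₂.cons (ib (by norm_num) (by norm_num) h0 h1) (List.Forall₂.cons (ib (by norm_num) (by norm_num) y0 y1) (List.Forall₂.cons (ib (by norm_num) (by norm_num) p0 p1) List.Forall₂.nil))))
  · exact ras_of_cov (by decide +kernel) Pool.Agent.helper71.FF.Crt.C.c6_8_all
      (List.Forall₂.cons (ib (by norm_num) (by norm_num) (not_le.1 e6).le e8) (List.Forall₂.cons (ib (by norm_num) (by norm_num) h0 h1) (List.Forall₂.cons (ib (by norm_num) (by norm_num) y0 y1) (List.Forall₂.cons (ib (by norm_num) (by norm_num) p0 p1) List.Forall₂.nil))))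
  · exact ras_of_cov (by decide +kernel) Pool.Agent.helper71.FF.Crt.C.c8_12_all
      (List.Forall₂.cons (ib (by norm_num) (by norm_num) (not_le.1 e8).le e12) (List.Forall₂.cons (ib (by norm_num) (by norm_num) h0 h1) (List.Forall₂.cons (ib (by norm_num) (by norm_num) y0 y1) (List.Forall₂.cons (ib (by norm_num) (by norm_num) p0 p1) List.Forall₂.nil))))
  · exact ras_of_cov (by decide +kernel) Pool.Agent.helper71.FF.Crt.C.c12_20_all
      (List.Forall₂.cons (ib (by norm_num) (by norm_num) (not_le.1 e12).le h20) (List.Forall₂.cons (ib (by norm_num) (by norm_num) h0 h1) (List.Forall₂.cons (ib (by norm_num) (by norm_num) y0 y1) (List.Forall₂.cons (ib (by norm_num) (by norm_num) p0 p1) List.Forall₂.nil))))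

theorem covK {e : ℝ} (h4 : 4 ≤ e) (h20 : e ≤ 20) : ∃ ops ∈ Pool.Agent.helper71.FF.Crt.K.progs, RAs ops [e, hmx e, 0, 0] := by
  unfold hmx
  split_ifs with e5 e6 e8 e12
  · exact ras_of_cov (by decide +kernel) Pool.Agent.helper71.FF.Crt.K.c4_5_all
      (List.Forall₂.cons (ib (by norm_num) (by norm_num) h4 e5) (List.Forall₂.cons (ib (by norm_num) (by norm_num) le_rfl le_rfl) (List.Forall₂.cons (ib (by norm_num) (by norm_num) le_rfl le_rfl) (List.Forall₂.cons (ib (by norm_num) (by norm_num) le_rfl le_rfl) List.Forall₂.nil))))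
  · exact ras_of_cov (by decide +kernel) Pool.Agent.helper71.FF.Crt.K.c5_6_all
      (List.Forall₂.cons (ib (by norm_num) (by norm_num) (not_le.1 e5).le e6) (List.Forall₂.cons (ib (by norm_num) (by norm_num) le_rfl le_rfl) (List.Forall₂.cons (ib (by norm_num) (by norm_num) le_rfl le_rfl) (List.Forall₂.cons (ib (by norm_num) (by norm_num) le_rfl le_rfl) List.Forall₂.nil))))
  · exact ras_of_cov (by decide +kernel) Pool.Agent.helper71.FF.Crt.K.c6_8_all
      (List.Forall₂.cons (ib (by norm_num) (by norm_num) (not_le.1 e6).le e8) (List.Forall₂.cons (ib (by norm_num) (by norm_num) le_rfl le_rfl) (List.Forall₂.cons (ib (by norm_num) (by norm_num) le_rfl le_rfl) (List.Forall₂.cons (ib (by norm_num) (by norm_num) le_rfl le_rfl) List.Forall₂.nil))))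
  · exact ras_of_cov (by decide +kernel) Pool.Agent.helper71.FF.Crt.K.c8_12_all
      (List.Forall₂.cons (ib (by norm_num) (by norm_num) (not_le.1 e8).le e12) (List.Forall₂.cons (ib (by norm_num) (by norm_num) le_rfl le_rfl) (List.Forall₂.cons (ib (by norm_num) (by norm_num) le_rfl le_rfl) (List.Forall₂.cons (ib (by norm_num) (by norm_num) le_rfl le_rfl) List.Forall₂.nil))))
  · exact ras_of_cov (by decide +kernel) Pool.Agent.helper71.FF.Crt.K.c12_20_all
      (List.Forall₂.cons (ib (by norm_num) (by norm_num) (not_le.1 e12).le h20) (List.Forall₂.cons (ib (by norm_num) (by norm_num) le_rfl le_rfl) (List.Forall₂.cons (ib (by norm_num) (by norm_num) le_rfl le_rfl) (List.Forall₂.cons (ib (by norm_num) (by norm_num) le_rfl le_rfl) List.Forall₂.nil))))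

theorem h_lt {e κ : ℝ} (h4 : 4 ≤ e) (h20 : e ≤ 20) (_hκ : 0 < κ)
    (hk : Pool.Agent.helper12.RS.kfun e κ < 4 ^ (1 / e) - 1) : Real.tanh (κ / 2) ≤ hmx e := by
  have hm : 0 < hmx e ∧ hmx e < 1 := by
    unfold hmx
    split_ifs <;> norm_num
  have hx : hmx e ∈ Set.Ioo (-1 : ℝ) 1 := ⟨by linarith, hm.2⟩
  have h1 : 0 < 2 * Real.artanh (hmx e) := by
    have := Real.artanh_pos ⟨hm.1, hm.2⟩
    linarith
  have h2 : hmx e = Real.tanh (2 * Real.artanh (hmx e) / 2) := by
    rw [mul_div_cancel_left₀ _ (two_ne_zero), Real.tanh_artanh hx]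
  obtain ⟨ops, ho, hr⟩ := covK h4 h20
  rw [Pool.Agent.helper71.FF.Crt.K.progs] at ho
  simp only [List.mem_cons, List.not_mem_nil, or_false] at ho
  subst ho
  have h3 := dom_K0 (by linarith) h1 h2 hr
  have h4 := Pool.Agent.helper12.RS.kmax_lt (by linarith) h1 hk h3
  by_contra hc
  push Not at hc
  have h5 := Real.artanh_lt_artanh (x := hmx e) (y := Real.tanh (κ / 2)) (by linarith)
    (Real.tanh_lt_one _) hc
  rw [Real.artanh_tanh] at h5
  linarith

end Pool.Agent.helper71.FF
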