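import Pool.Agent.helper71.FF.Crt.GP

/-!
Generated certificates.
-/

namespace Pool.Agent.helper71.FF.Crt.G

open Pool.Agent.helper31.IA (Z Op)
open Pool.Agent.helper31.IC

theorem c12_20_m0_t0 : CovD 0 progs [(17592186044416, 4398046511104), (154618822656, 154618822656), (68719476736, 68719476736), (549755813888, 549755813888)] :=
  Pool.Agent.helper14.QF.covD_F chks_eq (.n 1 (.l 7) (.n 2 (.l 7) (.n 1 (.n 0 (.l 7) (.n 3 (.l 2) (.l 2))) (.l 6))))
    [(17592186044416, 4398046511104), (154618822656, 154618822656), (68719476736, 68719476736), (549755813888, 549755813888)] rfl (by decide +kernel)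
theorem c12_20_m0_t1 : CovD 0 progs [(17592186044416, 4398046511104), (77309411328, 77309411328), (206158430208, 68719476736), (549755813888, 549755813888)] :=
  Pool.Agent.helper14.QF.covD_F chks_eq (.n 1 (.l 7) (.n 3 (.l 7) (.n 0 (.n 0 (.l 7) (.n 2 (.l 1) (.l 1))) (.n 2 (.l 1) (.n 1 (.l 1) (.n 0 (.l 2) (.l 2)))))))
    [(17592186044416, 4398046511104), (77309411328, 77309411328), (206158430208, 68719476736), (549755813888, 549755813888)] rfl (by decide +kernel)
theorem c12_20_m0_t2 : CovD 0 progs [(15393162788864, 2199023255552), (193273528320, 38654705664), (206158430208, 68719476736), (549755813888, 549755813888)] :=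
  Pool.Agent.helper14.QF.covD_F chks_eq (.n 3 (.l 7) (.n 2 (.n 3 (.l 7) (.l 1)) (.n 0 (.n 3 (.n 1 (.l 1) (.l 2)) (.l 1)) (.n 1 (.l 2) (.n 2 (.l 2) (.l 2))))))
    [(15393162788864, 2199023255552), (193273528320, 38654705664), (206158430208, 68719476736), (549755813888, 549755813888)] rfl (by decide +kernel)
theorem c12_20_m0_t3 : CovD 0 progs [(19791209299968, 2199023255552), (193273528320, 38654705664), (206158430208, 68719476736), (549755813888, 549755813888)] :=
  Pool.Agent.helper14.QF.covD_F chks_eq (.n 2 (.n 3 (.l 7) (.n 3 (.n 0 (.l 2) (.l 2)) (.l 1))) (.n 0 (.n 3 (.l 7) (.n 1 (.l 2) (.n 2 (.l 2) (.l 2)))) (.n 1 (.n 3 (.l 2) (.l 2)) (.n 3 (.l 5) (.n 2 (.l 2) (.l 5))))))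
    [(19791209299968, 2199023255552), (193273528320, 38654705664), (206158430208, 68719476736), (549755813888, 549755813888)] rfl (by decide +kernel)
theorem c12_20_m0_t4 : CovD 0 progs [(17592186044416, 4398046511104), (193273528320, 38654705664), (206158430208, 68719476736), (549755813888, 549755813888)] :=
  covD_split 0 (by decide +kernel) c12_20_m0_t2 c12_20_m0_t3
theorem c12_20_m0_t5 : CovD 0 progs [(17592186044416, 4398046511104), (270582939648, 38654705664), (206158430208, 68719476736), (549755813888, 549755813888)] :=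
  Pool.Agent.helper14.QF.covD_F chks_eq (.n 1 (.n 1 (.n 2 (.l 6) (.n 3 (.l 6) (.l 6))) (.l 6)) (.l 6))
    [(17592186044416, 4398046511104), (270582939648, 38654705664), (206158430208, 68719476736), (549755813888, 549755813888)] rfl (by decide +kernel)
theorem c12_20_m0_t6 : CovD 0 progs [(17592186044416, 4398046511104), (231928233984, 77309411328), (206158430208, 68719476736), (549755813888, 549755813888)] :=
  covD_split 1 (by decide +kernel) c12_20_m0_t4 c12_20_m0_t5
theorem c12_20_m0_t7 : CovD 0 progs [(17592186044416, 4398046511104), (154618822656, 154618822656), (206158430208, 68719476736), (549755813888, 549755813888)] :=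
  covD_split 1 (by decide +kernel) c12_20_m0_t1 c12_20_m0_t6
theorem c12_20_m0 : CovD 0 progs [(17592186044416, 4398046511104), (154618822656, 154618822656), (137438953472, 137438953472), (549755813888, 549755813888)] :=
  covD_split 2 (by decide +kernel) c12_20_m0_t0 c12_20_m0_t7

end Pool.Agent.helper71.FF.Crt.G
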