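import Pool.Agent.helper71.FF.Crt.KP

/-!
Generated certificates.
-/

namespace Pool.Agent.helper71.FF.Crt.K

open Pool.Agent.helper31.IA (Z Op)
open Pool.Agent.helper31.IC

theorem c8_12_m0 : CovD 0 progs [(10995116277760, 2199023255552), (329638739968, 0), (0, 0), (0, 0)] :=
  Pool.Agent.helper14.QF.covD_F chks_eq (.n 0 (.l 0) (.l 0))
    [(10995116277760, 2199023255552), (329638739968, 0), (0, 0), (0, 0)] rfl (by decide +kernel)

end Pool.Agent.helper71.FF.Crt.K
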