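import Pool.Agent.helper71.FF.Crt.SP

/-!
Generated certificates.
-/

namespace Pool.Agent.helper71.FF.Crt.S

open Pool.Agent.helper31.IA (Z Op)
open Pool.Agent.helper31.IC

theorem c12_20_m0_t0 : CovD 0 progs [(17592186044416, 4398046511104), (32212254720, 32212254720), (274877906944, 274877906944), (274877906944, 274877906944)] :=
  Pool.Agent.helper14.QF.covD_F chks_eq (.n 0 (.n 2 (.n 2 (.l 0) (.n 2 (.l 0) (.l 0))) (.n 0 (.n 2 (.l 0) (.l 0)) (.n 2 (.l 0) (.l 0)))) (.n 2 (.n 2 (.l 0) (.n 2 (.l 0) (.l 0))) (.n 1 (.n 2 (.l 0) (.l 0)) (.n 2 (.n 0 (.l 0) (.l 0)) (.l 0)))))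
    [(17592186044416, 4398046511104), (32212254720, 32212254720), (274877906944, 274877906944), (274877906944, 274877906944)] rfl (by decide +kernel)
theorem c12_20_m0_t1 : CovD 0 progs [(17592186044416, 4398046511104), (96636764160, 32212254720), (137438953472, 137438953472), (274877906944, 274877906944)] :=
  Pool.Agent.helper14.QF.covD_F chks_eq (.n 2 (.n 2 (.l 2) (.n 0 (.l 2) (.l 2))) (.n 2 (.n 3 (.l 2) (.n 0 (.l 2) (.l 2))) (.n 0 (.n 3 (.l 2) (.n 0 (.l 2) (.l 2))) (.n 1 (.l 2) (.l 2)))))
    [(17592186044416, 4398046511104), (96636764160, 32212254720), (137438953472, 137438953472), (274877906944, 274877906944)] rfl (by decide +kernel)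
theorem c12_20_m0_t2 : CovD 0 progs [(15393162788864, 2199023255552), (96636764160, 32212254720), (412316860416, 137438953472), (274877906944, 274877906944)] :=
  Pool.Agent.helper14.QF.covD_F chks_eq (.n 2 (.n 2 (.n 3 (.l 2) (.n 1 (.l 0) (.l 2))) (.n 3 (.l 2) (.n 0 (.l 0) (.l 2)))) (.n 1 (.n 3 (.l 0) (.l 0)) (.n 0 (.n 2 (.l 2) (.l 2)) (.n 2 (.l 2) (.l 2)))))
    [(15393162788864, 2199023255552), (96636764160, 32212254720), (412316860416, 137438953472), (274877906944, 274877906944)] rfl (by decide +kernel)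
theorem c12_20_m0_t3 : CovD 0 progs [(19791209299968, 2199023255552), (96636764160, 32212254720), (412316860416, 137438953472), (274877906944, 274877906944)] :=
  Pool.Agent.helper14.QF.covD_F chks_eq (.n 1 (.n 2 (.n 2 (.l 2) (.l 2)) (.n 2 (.l 2) (.l 2))) (.n 0 (.n 2 (.n 2 (.l 2) (.l 2)) (.n 2 (.l 2) (.l 5))) (.n 2 (.n 2 (.l 2) (.l 2)) (.n 2 (.l 2) (.l 5)))))
    [(19791209299968, 2199023255552), (96636764160, 32212254720), (412316860416, 137438953472), (274877906944, 274877906944)] rfl (by decide +kernel)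
theorem c12_20_m0_t4 : CovD 0 progs [(17592186044416, 4398046511104), (96636764160, 32212254720), (412316860416, 137438953472), (274877906944, 274877906944)] :=
  covD_split 0 (by decide +kernel) c12_20_m0_t2 c12_20_m0_t3
theorem c12_20_m0_t5 : CovD 0 progs [(17592186044416, 4398046511104), (96636764160, 32212254720), (274877906944, 274877906944), (274877906944, 274877906944)] :=
  covD_split 2 (by decide +kernel) c12_20_m0_t1 c12_20_m0_t4
theorem c12_20_m0_t6 : CovD 0 progs [(17592186044416, 4398046511104), (64424509440, 64424509440), (274877906944, 274877906944), (274877906944, 274877906944)] :=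
  covD_split 1 (by decide +kernel) c12_20_m0_t0 c12_20_m0_t5
theorem c12_20_m0_t7 : CovD 0 progs [(17592186044416, 4398046511104), (64424509440, 64424509440), (137438953472, 137438953472), (824633720832, 274877906944)] :=
  Pool.Agent.helper14.QF.covD_F chks_eq (.n 2 (.l 1) (.n 1 (.n 0 (.l 1) (.l 1)) (.n 2 (.l 1) (.n 0 (.l 1) (.n 0 (.l 1) (.l 1))))))
    [(17592186044416, 4398046511104), (64424509440, 64424509440), (137438953472, 137438953472), (824633720832, 274877906944)] rfl (by decide +kernel)
theorem c12_20_m0_t8 : CovD 0 progs [(17592186044416, 4398046511104), (32212254720, 32212254720), (412316860416, 137438953472), (824633720832, 274877906944)] :=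
  Pool.Agent.helper14.QF.covD_F chks_eq (.n 2 (.n 2 (.l 1) (.n 0 (.l 1) (.l 1))) (.n 0 (.n 1 (.l 0) (.l 1)) (.n 1 (.l 0) (.n 0 (.l 0) (.l 0)))))
    [(17592186044416, 4398046511104), (32212254720, 32212254720), (412316860416, 137438953472), (824633720832, 274877906944)] rfl (by decide +kernel)
theorem c12_20_m0_t9 : CovD 0 progs [(15393162788864, 2199023255552), (96636764160, 32212254720), (412316860416, 137438953472), (824633720832, 274877906944)] :=
  Pool.Agent.helper14.QF.covD_F chks_eq (.n 1 (.n 2 (.n 0 (.l 1) (.l 1)) (.n 1 (.l 1) (.n 0 (.l 0) (.l 0)))) (.n 2 (.n 2 (.l 1) (.n 3 (.l 1) (.l 1))) (.n 2 (.n 3 (.n 0 (.l 0) (.l 0)) (.l 1)) (.n 3 (.l 0) (.l 0)))))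
    [(15393162788864, 2199023255552), (96636764160, 32212254720), (412316860416, 137438953472), (824633720832, 274877906944)] rfl (by decide +kernel)
theorem c12_20_m0_t10 : CovD 0 progs [(19791209299968, 2199023255552), (96636764160, 32212254720), (412316860416, 137438953472), (824633720832, 274877906944)] :=
  Pool.Agent.helper14.QF.covD_F chks_eq (.n 1 (.n 2 (.n 2 (.l 1) (.l 1)) (.n 3 (.n 0 (.l 0) (.l 0)) (.l 1))) (.n 2 (.n 2 (.n 3 (.l 2) (.l 1)) (.n 3 (.l 2) (.l 1))) (.n 1 (.n 2 (.l 2) (.n 0 (.l 0) (.l 2))) (.n 2 (.n 0 (.l 2) (.l 2)) (.n 3 (.l 2) (.l 0))))))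
    [(19791209299968, 2199023255552), (96636764160, 32212254720), (412316860416, 137438953472), (824633720832, 274877906944)] rfl (by decide +kernel)
theorem c12_20_m0_t11 : CovD 0 progs [(17592186044416, 4398046511104), (96636764160, 32212254720), (412316860416, 137438953472), (824633720832, 274877906944)] :=
  covD_split 0 (by decide +kernel) c12_20_m0_t9 c12_20_m0_t10
theorem c12_20_m0_t12 : CovD 0 progs [(17592186044416, 4398046511104), (64424509440, 64424509440), (412316860416, 137438953472), (824633720832, 274877906944)] :=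
  covD_split 1 (by decide +kernel) c12_20_m0_t8 c12_20_m0_t11
theorem c12_20_m0_t13 : CovD 0 progs [(17592186044416, 4398046511104), (64424509440, 64424509440), (274877906944, 274877906944), (824633720832, 274877906944)] :=
  covD_split 2 (by decide +kernel) c12_20_m0_t7 c12_20_m0_t12
theorem c12_20_m0 : CovD 0 progs [(17592186044416, 4398046511104), (64424509440, 64424509440), (274877906944, 274877906944), (549755813888, 549755813888)] :=
  covD_split 3 (by decide +kernel) c12_20_m0_t6 c12_20_m0_t13

end Pool.Agent.helper71.FF.Crt.S
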