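import Pool.Agent.helper71.FF.Crt.SP

/-!
Generated certificates.
-/

namespace Pool.Agent.helper71.FF.Crt.S

open Pool.Agent.helper31.IA (Z Op)
open Pool.Agent.helper31.IC

theorem c4_6_m0_t0 : CovD 0 progs [(5497558138880, 1099511627776), (64424509440, 64424509440), (137438953472, 137438953472), (549755813888, 549755813888)] :=
  Pool.Agent.helper14.QF.covD_F chks_eq (.n 2 (.n 3 (.l 0) (.l 1)) (.n 3 (.n 0 (.l 0) (.l 0)) (.l 1)))
    [(5497558138880, 1099511627776), (64424509440, 64424509440), (137438953472, 137438953472), (549755813888, 549755813888)] rfl (by decide +kernel)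
theorem c4_6_m0_t1 : CovD 0 progs [(4947802324992, 549755813888), (64424509440, 64424509440), (412316860416, 137438953472), (549755813888, 549755813888)] :=
  Pool.Agent.helper14.QF.covD_F chks_eq (.n 2 (.n 2 (.n 3 (.l 0) (.l 1)) (.n 3 (.l 0) (.l 1))) (.n 1 (.n 3 (.l 0) (.l 1)) (.n 2 (.n 3 (.l 0) (.l 1)) (.n 3 (.l 0) (.l 1)))))
    [(4947802324992, 549755813888), (64424509440, 64424509440), (412316860416, 137438953472), (549755813888, 549755813888)] rfl (by decide +kernel)
theorem c4_6_m0_t2 : CovD 0 progs [(6047313952768, 549755813888), (64424509440, 64424509440), (412316860416, 137438953472), (549755813888, 549755813888)] :=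
  Pool.Agent.helper14.QF.covD_F chks_eq (.n 2 (.n 2 (.n 3 (.l 0) (.l 1)) (.n 3 (.l 0) (.l 1))) (.n 1 (.n 3 (.l 0) (.l 1)) (.n 2 (.n 3 (.l 0) (.l 1)) (.n 3 (.l 0) (.l 0)))))
    [(6047313952768, 549755813888), (64424509440, 64424509440), (412316860416, 137438953472), (549755813888, 549755813888)] rfl (by decide +kernel)
theorem c4_6_m0_t3 : CovD 0 progs [(5497558138880, 1099511627776), (64424509440, 64424509440), (412316860416, 137438953472), (549755813888, 549755813888)] :=
  covD_split 0 (by decide +kernel) c4_6_m0_t1 c4_6_m0_t2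
theorem c4_6_m0_t4 : CovD 0 progs [(5497558138880, 1099511627776), (64424509440, 64424509440), (274877906944, 274877906944), (549755813888, 549755813888)] :=
  covD_split 2 (by decide +kernel) c4_6_m0_t0 c4_6_m0_t3
theorem c4_6_m0_t5 : CovD 0 progs [(4947802324992, 549755813888), (64424509440, 64424509440), (687194767360, 137438953472), (549755813888, 549755813888)] :=
  Pool.Agent.helper14.QF.covD_F chks_eq (.n 1 (.n 2 (.n 3 (.l 0) (.l 1)) (.n 3 (.l 0) (.l 0))) (.n 1 (.n 2 (.n 3 (.l 0) (.l 0)) (.n 3 (.l 0) (.l 0))) (.n 2 (.n 3 (.l 0) (.n 2 (.l 0) (.l 0))) (.n 3 (.l 0) (.n 0 (.l 0) (.l 0))))))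
    [(4947802324992, 549755813888), (64424509440, 64424509440), (687194767360, 137438953472), (549755813888, 549755813888)] rfl (by decide +kernel)
theorem c4_6_m0_t6 : CovD 0 progs [(6047313952768, 549755813888), (64424509440, 64424509440), (687194767360, 137438953472), (549755813888, 549755813888)] :=
  Pool.Agent.helper14.QF.covD_F chks_eq (.n 1 (.n 2 (.n 3 (.l 0) (.l 0)) (.n 3 (.l 0) (.l 0))) (.n 2 (.n 2 (.n 3 (.l 0) (.l 0)) (.n 3 (.l 0) (.l 0))) (.n 1 (.n 3 (.l 0) (.l 0)) (.n 3 (.l 0) (.n 0 (.l 0) (.l 0))))))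
    [(6047313952768, 549755813888), (64424509440, 64424509440), (687194767360, 137438953472), (549755813888, 549755813888)] rfl (by decide +kernel)
theorem c4_6_m0_t7 : CovD 0 progs [(5497558138880, 1099511627776), (64424509440, 64424509440), (687194767360, 137438953472), (549755813888, 549755813888)] :=
  covD_split 0 (by decide +kernel) c4_6_m0_t5 c4_6_m0_t6
theorem c4_6_m0_t8 : CovD 0 progs [(5497558138880, 1099511627776), (32212254720, 32212254720), (962072674304, 137438953472), (549755813888, 549755813888)] :=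
  Pool.Agent.helper14.QF.covD_F chks_eq (.n 1 (.n 0 (.n 2 (.l 0) (.l 0)) (.n 2 (.l 0) (.l 0))) (.n 2 (.n 3 (.l 0) (.l 0)) (.n 3 (.l 0) (.l 0))))
    [(5497558138880, 1099511627776), (32212254720, 32212254720), (962072674304, 137438953472), (549755813888, 549755813888)] rfl (by decide +kernel)
theorem c4_6_m0_t9 : CovD 0 progs [(5497558138880, 1099511627776), (80530636800, 16106127360), (962072674304, 137438953472), (549755813888, 549755813888)] :=
  Pool.Agent.helper14.QF.covD_F chks_eq (.n 0 (.n 2 (.n 3 (.l 0) (.l 0)) (.n 3 (.l 0) (.l 0))) (.n 2 (.n 3 (.l 0) (.l 0)) (.n 3 (.l 0) (.l 0))))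
    [(5497558138880, 1099511627776), (80530636800, 16106127360), (962072674304, 137438953472), (549755813888, 549755813888)] rfl (by decide +kernel)
theorem c4_6_m0_t10 : CovD 0 progs [(5497558138880, 1099511627776), (112742891520, 16106127360), (962072674304, 137438953472), (549755813888, 549755813888)] :=
  Pool.Agent.helper14.QF.covD_F chks_eq (.n 2 (.n 3 (.n 3 (.l 0) (.l 3)) (.n 0 (.n 1 (.l 0) (.l 0)) (.n 0 (.l 0) (.l 0)))) (.n 3 (.n 3 (.l 3) (.l 3)) (.n 0 (.n 1 (.l 0) (.l 3)) (.n 0 (.l 3) (.l 3)))))
    [(5497558138880, 1099511627776), (112742891520, 16106127360), (962072674304, 137438953472), (549755813888, 549755813888)] rfl (by decide +kernel)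
theorem c4_6_m0_t11 : CovD 0 progs [(5497558138880, 1099511627776), (96636764160, 32212254720), (962072674304, 137438953472), (549755813888, 549755813888)] :=
  covD_split 1 (by decide +kernel) c4_6_m0_t9 c4_6_m0_t10
theorem c4_6_m0_t12 : CovD 0 progs [(5497558138880, 1099511627776), (64424509440, 64424509440), (962072674304, 137438953472), (549755813888, 549755813888)] :=
  covD_split 1 (by decide +kernel) c4_6_m0_t8 c4_6_m0_t11
theorem c4_6_m0_t13 : CovD 0 progs [(5497558138880, 1099511627776), (64424509440, 64424509440), (824633720832, 274877906944), (549755813888, 549755813888)] :=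
  covD_split 2 (by decide +kernel) c4_6_m0_t7 c4_6_m0_t12
theorem c4_6_m0 : CovD 0 progs [(5497558138880, 1099511627776), (64424509440, 64424509440), (549755813888, 549755813888), (549755813888, 549755813888)] :=
  covD_split 2 (by decide +kernel) c4_6_m0_t4 c4_6_m0_t13

end Pool.Agent.helper71.FF.Crt.S
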