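import Pool.Agent.helper71.FF.Crt.Sc8_12_0
import Pool.Agent.helper71.FF.Crt.Sc8_12_1
import Pool.Agent.helper71.FF.Crt.Sc8_12_2
import Pool.Agent.helper71.FF.Crt.Sc8_12_3
import Pool.Agent.helper71.FF.Crt.Sc8_12_4
import Pool.Agent.helper71.FF.Crt.Sc8_12_5

/-!
Generated certificates, assembled.
-/

namespace Pool.Agent.helper71.FF.Crt.S

open Pool.Agent.helper31.IA (Z Op)
open Pool.Agent.helper31.IC

theorem c8_12_top0 : CovD 0 progs [(10995116277760, 2199023255552), (128849018880, 128849018880), (274877906944, 274877906944), (549755813888, 549755813888)] :=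
  covD_split 3 (by decide +kernel) c8_12_m0 c8_12_m1
theorem c8_12_top1 : CovD 0 progs [(10995116277760, 2199023255552), (193273528320, 64424509440), (687194767360, 137438953472), (549755813888, 549755813888)] :=
  covD_split 1 (by decide +kernel) c8_12_m3 c8_12_m4
theorem c8_12_top2 : CovD 0 progs [(10995116277760, 2199023255552), (128849018880, 128849018880), (687194767360, 137438953472), (549755813888, 549755813888)] :=
  covD_split 1 (by decide +kernel) c8_12_m2 c8_12_top1
theorem c8_12_top3 : CovD 0 progs [(10995116277760, 2199023255552), (128849018880, 128849018880), (824633720832, 274877906944), (549755813888, 549755813888)] :=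
  covD_split 2 (by decide +kernel) c8_12_top2 c8_12_m5
theorem c8_12_top4 : CovD 0 progs [(10995116277760, 2199023255552), (128849018880, 128849018880), (549755813888, 549755813888), (549755813888, 549755813888)] :=
  covD_split 2 (by decide +kernel) c8_12_top0 c8_12_top3

theorem c8_12_all : CovD 0 progs [(10995116277760, 2199023255552), (128849018880, 128849018880), (549755813888, 549755813888), (549755813888, 549755813888)] := c8_12_top4

end Pool.Agent.helper71.FF.Crt.S
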